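import Pool.Agent.Nil.Frame
import Pool.Agent.Lib.PolySeq

set_option autoImplicit false

/-!
# Nil: products of powers with polynomial exponents in a nilpotent group

PROOF of `nil_frame`.  Let `p` bound the degrees of the `P i`, `Fc = Pool.Lib.PolySeq.lcF G p` (`lcF_filt` there gives
the two properties of `Filt` here; `ee_top`: `Fc p = ⊤`, so `Fc i = ⊤` for `i ≤ p`; `ee_big`: `Fc N = ⊥` for
`N = (p + 1) * 2 ^ nilpotencyClass`, see the proof of `poly_Dv`).  The sequence `n ↦ T i ^ (P i).eval n` is polynomial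
of level `0` (`isPol_zpow` with `d = p`, `eval_mem_WP`, `isSeq_iff`; `T i ∈ Fc p = ⊤`), so is the product of these
(`IsSeq.mul`, induction over the list, or `IsPol.prod`) and its inverse (`IsSeq.inv`).  Value at `0` is `1`.
Apply `exists_frame`.
-/

namespace Pool.Nil

open Finset

variable {G : Type*} [Group G]

/-- the sequence `T_1^{P_1(n)} ... T_d^{P_d(n)}` -/
noncomputable def pseq {d : ℕ} (T : Fin d → G) (P : Fin d → Polynomial ℤ) (n : ℤ) : G :=
  (List.ofFn fun i : Fin d => T i ^ (P i).eval n).prod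

namespace NilSeq

lemma filt_lcF (p : ℕ) : Filt (Pool.Lib.PolySeq.lcF G p) :=
  ⟨fun i => Pool.Lib.PolySeq.lcF_anti p i (i + 1) (by omega),
    fun i j x hx y hy => (Pool.Lib.PolySeq.lcF_filt p).comm i j x hx y hy⟩

lemma lcF_self (p : ℕ) : Pool.Lib.PolySeq.lcF G p p = ⊤ := by
  unfold Pool.Lib.PolySeq.lcF
  rw [Pool.Lib.PolySeq.ee_top]
  rfl

lemma lcF_bot [Group.IsNilpotent G] (p : ℕ) :
    Pool.Lib.PolySeq.lcF G p ((p + 1) * 2 ^ Group.nilpotencyClass G) = ⊥ := by
  unfold Pool.Lib.PolySeq.lcF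
  rw [Pool.Lib.PolySeq.ee_big]
  exact Subgroup.lowerCentralSeries_nilpotencyClass

lemma isSeq_pseq {F : ℕ → Subgroup G} (hF : Filt F) {p : ℕ} (hp : F p = ⊤) {d : ℕ} :
    ∀ (T : Fin d → G) (P : Fin d → Polynomial ℤ), (∀ i, (P i).natDegree ≤ p) →
      IsSeq F 0 (pseq T P) := by
  induction d with
  | zero =>
    intro T P _
    have e : pseq T P = fun _ => 1 := by
      funext n
      simp [pseq]
    rw [e]
    exact IsSeq.const (one_mem _)
  | succ d ih =>
    intro T P hP
    have e : pseq T P = (fun n => T 0 ^ (P 0).eval n) *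
        pseq (fun i => T i.succ) (fun i => P i.succ) := by
      funext n
      simp only [pseq, List.ofFn_succ, List.prod_cons, Pi.mul_apply]
    rw [e]
    refine IsSeq.mul hF ?_ (ih _ _ fun i => hP i.succ)
    rw [isSeq_iff]
    exact isPol_zpow hF (i := 0) (d := p) (by rw [zero_add, hp]; exact Subgroup.mem_top _)
      (eval_mem_WP (P 0) (hP 0))

lemma pseq_zero {d : ℕ} : ∀ (T : Fin d → G) (P : Fin d → Polynomial ℤ)
    (_ : ∀ i, (P i).eval 0 = 0), pseq T P 0 = 1 := by
  induction d with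
  | zero => intro T P _; simp [pseq]
  | succ d ih =>
    intro T P hP
    have h1 := ih (fun i => T i.succ) (fun i => P i.succ) fun i => hP i.succ
    rw [pseq] at h1
    rw [pseq, List.ofFn_succ, List.prod_cons, h1, hP 0]
    simp

lemma nil_frame_one [Group.IsNilpotent G] {d : ℕ} (T : Fin d → G) (P : Fin d → Polynomial ℤ)
    (hP : ∀ i, (P i).eval 0 = 0) : Nonempty (Frame (fun n => (pseq T P n)⁻¹)) := by
  set p := Finset.univ.sup fun i => (P i).natDegree with hp
  have hPp : ∀ i, (P i).natDegree ≤ p := fun i =>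
    Finset.le_sup (f := fun i => (P i).natDegree) (Finset.mem_univ i)
  refine exists_frame (filt_lcF (G := G) p) (lcF_bot p) _ ?_ ?_
  · exact (isSeq_pseq (filt_lcF p) (lcF_self p) T P hPp).inv (filt_lcF p)
  · rw [pseq_zero T P hP, inv_one]

end NilSeq

theorem nil_frame [Group.IsNilpotent G] {d : ℕ} (T : Fin d → G) (P : Fin d → Polynomial ℤ)
    (hP : ∀ i, (P i).eval 0 = 0) :
    Nonempty (Frame (fun n => (pseq T P n)⁻¹)) ∧ Nonempty (Frame (fun n => (pseq T P (-n))⁻¹)) := by
  refine ⟨NilSeq.nil_frame_one T P hP, ?_⟩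
  have h1 := NilSeq.nil_frame_one T (fun i => (P i).comp (-Polynomial.X)) (fun i => by
    rw [Polynomial.eval_comp, Polynomial.eval_neg, Polynomial.eval_X, neg_zero]
    exact hP i)
  have e : (fun n => (pseq T (fun i => (P i).comp (-Polynomial.X)) n)⁻¹) =
      fun n => (pseq T P (-n))⁻¹ := by
    funext n
    simp [pseq, Polynomial.eval_comp]
  rwa [e] at h1

end Pool.Nil
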