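import Pool.Agent.Nil.Full
import Pool.Agent.Nil.NilSeq

set_option autoImplicit false

/-!
# Nil: polynomial orbits of nilpotent groups of measure preserving maps

`tau n = T_1^{P_1(n)} ... T_d^{P_d(n)}`; the sequence `n ↦ (tau n)⁻¹ * tau 0` in the group generated by the `T_i` has a
frame.
-/

namespace Pool.Nil

open Finset MeasureTheory Filter Topology
open scoped ENNReal NNReal

universe u

theorem nil_frame_gen {G : Type*} [Group G] [Group.IsNilpotent G] {d : ℕ} (T : Fin d → G)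
    (P : Fin d → Polynomial ℤ) :
    Nonempty (Frame (fun n => (pseq T P n)⁻¹ * pseq T P 0)) := by
  set p := Finset.univ.sup fun i => (P i).natDegree with hp
  have hPp : ∀ i, (P i).natDegree ≤ p := fun i =>
    Finset.le_sup (f := fun i => (P i).natDegree) (Finset.mem_univ i)
  have h1 := NilSeq.isSeq_pseq (NilSeq.filt_lcF (G := G) p) (NilSeq.lcF_self p) T P hPp
  refine exists_frame (NilSeq.filt_lcF (G := G) p) (NilSeq.lcF_bot p) _ ?_ ?_
  · exact IsSeq.mul (NilSeq.filt_lcF p) (h1.inv (NilSeq.filt_lcF p)) (IsSeq.const (h1.val 0))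
  · exact inv_mul_cancel _

variable {X : Type u} [MeasurableSpace X] {μ : Measure X} {d : ℕ}

/-- the polynomial orbit -/
noncomputable def orb (T : Fin d → Equiv.Perm X) (P : Fin d → Polynomial ℤ) (n : ℤ) :
    Equiv.Perm X := (List.ofFn fun i : Fin d => T i ^ (P i).eval n).prod

lemma mem_mpS_of_closure (T : Fin d → Equiv.Perm X) (hT : ∀ i, MeasurePreserving (T i) μ μ)
    (hT' : ∀ i, MeasurePreserving (T i).symm μ μ) {x : Equiv.Perm X}
    (hx : x ∈ Subgroup.closure (Set.range T)) : x ∈ Pool.PolyMax.mpS μ := by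
  have h : Subgroup.closure (Set.range T) ≤ Pool.PolyMax.mpS μ := by
    rw [Subgroup.closure_le]
    rintro _ ⟨i, rfl⟩
    exact ⟨hT i, hT' i⟩
  exact h hx

lemma exists_setup (T : Fin d → Equiv.Perm X) (hT : ∀ i, MeasurePreserving (T i) μ μ)
    (hT' : ∀ i, MeasurePreserving (T i).symm μ μ)
    (hnil : Group.IsNilpotent (Subgroup.closure (Set.range T))) (P : Fin d → Polynomial ℤ) :
    ∃ (g : ℤ → Subgroup.closure (Set.range T)), Nonempty (Frame g) ∧
      (∀ x : Subgroup.closure (Set.range T),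
        MeasurePreserving ((Subgroup.closure (Set.range T)).subtype x) μ μ) ∧
      ∀ n, (Subgroup.closure (Set.range T)).subtype (g n)⁻¹ = (orb T P 0)⁻¹ * orb T P n := by
  haveI := hnil
  set T' : Fin d → Subgroup.closure (Set.range T) := fun i =>
    ⟨T i, Subgroup.subset_closure ⟨i, rfl⟩⟩ with hT'def
  have ho : ∀ n, (Subgroup.closure (Set.range T)).subtype (pseq T' P n) = orb T P n := by
    intro n
    unfold pseq orb
    rw [map_list_prod, List.map_ofFn]
    congr 2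
  refine ⟨fun n => (pseq T' P n)⁻¹ * pseq T' P 0, nil_frame_gen T' P, ?_, ?_⟩
  · intro x
    exact (mem_mpS_of_closure T hT hT' x.2).1
  · intro n
    rw [mul_inv_rev, inv_inv, map_mul, map_inv, ho, ho]

lemma orb_mem (T : Fin d → Equiv.Perm X) (hT : ∀ i, MeasurePreserving (T i) μ μ)
    (hT' : ∀ i, MeasurePreserving (T i).symm μ μ) (P : Fin d → Polynomial ℤ) (n : ℤ) :
    orb T P n ∈ Pool.PolyMax.mpS μ := by
  unfold orb
  apply Subgroup.list_prod_mem
  intro x hx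
  rw [List.mem_ofFn] at hx
  obtain ⟨i, rfl⟩ := hx
  have h : T i ∈ Pool.PolyMax.mpS μ := ⟨hT i, hT' i⟩
  exact Subgroup.zpow_mem _ h _

/-- **The maximal inequality** for polynomial orbits of nilpotent groups. -/
theorem orb_max (T : Fin d → Equiv.Perm X) (hT : ∀ i, MeasurePreserving (T i) μ μ)
    (hT' : ∀ i, MeasurePreserving (T i).symm μ μ)
    (hnil : Group.IsNilpotent (Subgroup.closure (Set.range T))) (P : Fin d → Polynomial ℤ) :
    Pool.PolyMax.MaxL2 (fun n : ℕ => ⇑(orb T P (n : ℤ))) μ := by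
  obtain ⟨g, ⟨fr⟩, hφ, hg⟩ := exists_setup T hT hT' hnil P
  obtain ⟨C, hC⟩ := frame_maxL2 fr (Subgroup.closure (Set.range T)).subtype hφ
  refine ⟨C, fun v hv => ?_⟩
  have h0 := orb_mem T hT hT' P 0
  have h := hC (fun x => v (orb T P 0 x)) (hv.comp h0.1.measurable)
  have e : ∀ (n : ℕ) (x : X), v (orb T P 0 (((Subgroup.closure (Set.range T)).subtype
      (g (n : ℤ))⁻¹ : Equiv.Perm X) x)) = v (orb T P (n : ℤ) x) := by
    intro n x
    rw [hg, ← Equiv.Perm.mul_apply, ← mul_assoc, mul_inv_cancel, one_mul]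
  simp only [e] at h
  refine h.trans (le_of_eq ?_)
  congr 1
  exact h0.1.lintegral_comp (f := fun x => v x ^ 2) (hv.pow_const 2)

/-- one sided convergence -/
theorem orb_conv_one (T : Fin d → Equiv.Perm X) (hT : ∀ i, MeasurePreserving (T i) μ μ)
    (hT' : ∀ i, MeasurePreserving (T i).symm μ μ)
    (hnil : Group.IsNilpotent (Subgroup.closure (Set.range T))) (P : Fin d → Polynomial ℤ)
    (f : X → ℂ) (hf : MemLp f 2 μ) :
    ∀ᵐ x ∂μ, ∃ L : ℂ, Tendsto (fun N : ℕ => (N : ℂ)⁻¹ * ∑ n ∈ range N, f (orb T P (n : ℤ) x))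
      atTop (𝓝 L) := by
  obtain ⟨g, ⟨fr⟩, hφ, hg⟩ := exists_setup T hT hT' hnil P
  have h0 := orb_mem T hT hT' P 0
  have h := frame_conv fr (Subgroup.closure (Set.range T)).subtype hφ (fun x => f (orb T P 0 x))
    (hf.comp_measurePreserving h0.1)
  have e : ∀ (n : ℕ) (x : X), f (orb T P 0 (((Subgroup.closure (Set.range T)).subtype
      (g (n : ℤ))⁻¹ : Equiv.Perm X) x)) = f (orb T P (n : ℤ) x) := by
    intro n x
    rw [hg, ← Equiv.Perm.mul_apply, ← mul_assoc, mul_inv_cancel, one_mul]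
  simp only [e] at h
  exact h

lemma orb_neg (T : Fin d → Equiv.Perm X) (P : Fin d → Polynomial ℤ) (n : ℤ) :
    orb T (fun i => (P i).comp (-Polynomial.X)) n = orb T P (-n) := by
  unfold orb
  congr 2
  funext i
  simp only [Polynomial.eval_comp, Polynomial.eval_neg, Polynomial.eval_X]

lemma sum_Icc_split {E : Type*} [AddCommGroup E] (F : ℤ → E) (N : ℕ) :
    ∑ n ∈ Icc (-(N : ℤ)) N, F n =
      ∑ n ∈ range (N + 1), F (n : ℤ) + ∑ n ∈ range (N + 1), F (-(n : ℤ)) - F 0 := by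
  induction N with
  | zero => simp
  | succ N ih =>
    have h1 : Icc (-((N + 1 : ℕ) : ℤ)) ((N + 1 : ℕ) : ℤ) =
        insert (-((N + 1 : ℕ) : ℤ)) (insert (((N + 1 : ℕ) : ℤ)) (Icc (-(N : ℤ)) N)) := by
      ext z
      simp only [mem_Icc, mem_insert]
      push_cast
      omega
    rw [h1, sum_insert, sum_insert, ih, sum_range_succ _ (N + 1), sum_range_succ _ (N + 1)]
    · abel
    · simp only [mem_Icc, not_and, not_le]
      push_cast
      omega
    · simp only [mem_insert, mem_Icc]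
      push_cast
      omega

/-- **Pointwise convergence** of polynomial averages for nilpotent groups. -/
theorem orb_conv (T : Fin d → Equiv.Perm X) (hT : ∀ i, MeasurePreserving (T i) μ μ)
    (hT' : ∀ i, MeasurePreserving (T i).symm μ μ)
    (hnil : Group.IsNilpotent (Subgroup.closure (Set.range T))) (P : Fin d → Polynomial ℤ)
    (f : X → ℂ) (hf : MemLp f 2 μ) :
    ∀ᵐ x ∂μ, ∃ L : ℂ, Tendsto (fun N : ℕ => (2 * (N : ℂ) + 1)⁻¹ *
      ∑ n ∈ Icc (-(N : ℤ)) N, f (orb T P n x)) atTop (𝓝 L) := by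
  have h1 := orb_conv_one T hT hT' hnil P f hf
  have h2 := orb_conv_one T hT hT' hnil (fun i => (P i).comp (-Polynomial.X)) f hf
  filter_upwards [h1, h2] with x h1 h2
  obtain ⟨L1, h1⟩ := h1
  obtain ⟨L2, h2⟩ := h2
  simp only [orb_neg] at h2
  refine ⟨1 / 2 * L1 + 1 / 2 * L2 - 0 * f (orb T P 0 x), ?_⟩
  have h1' := (tendsto_add_atTop_iff_nat 1).2 h1
  have h2' := (tendsto_add_atTop_iff_nat 1).2 h2
  have hr : Tendsto (fun N : ℕ => ((N : ℂ) + 1) / (2 * (N : ℂ) + 1)) atTop (𝓝 (1 / 2)) := by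
    have ha : Tendsto (fun N : ℕ => ((N : ℝ) + 1) / (2 * (N : ℝ) + 1)) atTop (𝓝 (1 / 2)) := by
      have hb : Tendsto (fun N : ℕ => 1 / 2 + 1 / 2 * (1 / (2 * (N : ℝ) + 1))) atTop
          (𝓝 (1 / 2 + 1 / 2 * 0)) := by
        refine tendsto_const_nhds.add (tendsto_const_nhds.mul ?_)
        simp only [one_div]
        refine tendsto_inv_atTop_zero.comp ?_
        refine tendsto_atTop_add_const_right _ _ ?_
        exact (tendsto_natCast_atTop_atTop (R := ℝ)).const_mul_atTop (by norm_num)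
      rw [mul_zero, add_zero] at hb
      refine hb.congr fun N => ?_
      have : (2 * (N : ℝ) + 1) ≠ 0 := by positivity
      field_simp
      ring
    have hc := (Complex.continuous_ofReal.tendsto (1 / 2 : ℝ)).comp ha
    have e : ((1 / 2 : ℝ) : ℂ) = 1 / 2 := by push_cast; rfl
    rw [e] at hc
    refine hc.congr fun N => ?_
    simp only [Function.comp_apply]
    push_cast
    rfl
  have hz : Tendsto (fun N : ℕ => (2 * (N : ℂ) + 1)⁻¹) atTop (𝓝 0) := by
    have ha : Tendsto (fun N : ℕ => (2 * (N : ℝ) + 1)⁻¹) atTop (𝓝 0) := by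
      refine tendsto_inv_atTop_zero.comp ?_
      refine tendsto_atTop_add_const_right _ _ ?_
      exact (tendsto_natCast_atTop_atTop (R := ℝ)).const_mul_atTop (by norm_num)
    have hc := (Complex.continuous_ofReal.tendsto (0 : ℝ)).comp ha
    rw [Complex.ofReal_zero] at hc
    refine hc.congr fun N => ?_
    simp only [Function.comp_apply]
    push_cast
    rfl
  have hfin := ((hr.mul h1').add (hr.mul h2')).sub (hz.mul_const (f (orb T P 0 x)))
  refine hfin.congr fun N => ?_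
  rw [sum_Icc_split]
  have e0 : ((N : ℂ) + 1) ≠ 0 := by exact_mod_cast Nat.succ_ne_zero N
  have e1 : (2 * (N : ℂ) + 1) ≠ 0 := by exact_mod_cast Nat.succ_ne_zero (2 * N)
  push_cast
  field_simp

/-- the two sided maximal inequality -/
theorem orb_max_two (T : Fin d → Equiv.Perm X) (hT : ∀ i, MeasurePreserving (T i) μ μ)
    (hT' : ∀ i, MeasurePreserving (T i).symm μ μ)
    (hnil : Group.IsNilpotent (Subgroup.closure (Set.range T))) (P : Fin d → Polynomial ℤ) :
    ∃ C : ℝ≥0, ∀ v : X → ℝ≥0∞, Measurable v →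
      ∫⁻ x, (⨆ N : ℕ, ((2 * N + 1 : ℕ) : ℝ≥0∞)⁻¹ *
        ∑ n ∈ Icc (-(N : ℤ)) (N : ℤ), v (orb T P n x)) ^ 2 ∂μ ≤ C * ∫⁻ x, v x ^ 2 ∂μ := by
  obtain ⟨C1, hC1⟩ := orb_max T hT hT' hnil P
  obtain ⟨C2, hC2⟩ := orb_max T hT hT' hnil (fun i => (P i).comp (-Polynomial.X))
  simp only [orb_neg] at hC2
  refine ⟨4 * (C1 + C2), fun v hv => ?_⟩
  have a1 := hC1 v hv
  have a2 := hC2 v hv
  set s1 : X → ℝ≥0∞ := fun x => ⨆ N : ℕ, ((N + 1 : ℕ) : ℝ≥0∞)⁻¹ *
          ∑ n ∈ range (N + 1), v (orb T P (n : ℤ) x) with hs1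
  set s2 : X → ℝ≥0∞ := fun x => ⨆ N : ℕ, ((N + 1 : ℕ) : ℝ≥0∞)⁻¹ *
          ∑ n ∈ range (N + 1), v (orb T P (-(n : ℤ)) x) with hs2
  have hs1m : Measurable s1 := by
    apply Measurable.iSup
    intro N
    apply Measurable.const_mul
    apply Finset.measurable_fun_sum
    intro n _
    exact hv.comp (orb_mem T hT hT' P n).1.measurable
  have hpt : ∀ x, (⨆ N : ℕ, ((2 * N + 1 : ℕ) : ℝ≥0∞)⁻¹ *
          ∑ n ∈ Icc (-(N : ℤ)) (N : ℤ), v (orb T P n x)) ≤ s1 x + s2 x := by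
    intro x
    apply iSup_le
    intro N
    have hinv : ((2 * N + 1 : ℕ) : ℝ≥0∞)⁻¹ ≤ ((N + 1 : ℕ) : ℝ≥0∞)⁻¹ := by
      rw [ENNReal.inv_le_inv]
      exact_mod_cast (by omega : N + 1 ≤ 2 * N + 1)
    have hsum : ∑ n ∈ Icc (-(N : ℤ)) (N : ℤ), v (orb T P n x) ≤
        ∑ n ∈ range (N + 1), v (orb T P (n : ℤ) x) +
          ∑ n ∈ range (N + 1), v (orb T P (-(n : ℤ)) x) := by
      have hsub : Icc (-(N : ℤ)) (N : ℤ) ⊆
          ((range (N + 1)).image fun n : ℕ => (n : ℤ)) ∪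
            ((range (N + 1)).image fun n : ℕ => -(n : ℤ)) := by
        intro z hz
        rw [Finset.mem_Icc] at hz
        rw [Finset.mem_union, Finset.mem_image, Finset.mem_image]
        rcases le_total 0 z with h | h
        · left
          refine ⟨z.toNat, ?_, ?_⟩
          · rw [Finset.mem_range]; omega
          · exact Int.toNat_of_nonneg h
        · right
          refine ⟨(-z).toNat, ?_, ?_⟩
          · rw [Finset.mem_range]; omega
          · rw [Int.toNat_of_nonneg (by omega)]; ring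
      calc ∑ n ∈ Icc (-(N : ℤ)) (N : ℤ), v (orb T P n x) ≤
            ∑ n ∈ ((range (N + 1)).image fun n : ℕ => (n : ℤ)) ∪
            ((range (N + 1)).image fun n : ℕ => -(n : ℤ)), v (orb T P n x) :=
            Finset.sum_le_sum_of_subset hsub
        _ ≤ ∑ n ∈ ((range (N + 1)).image fun n : ℕ => (n : ℤ)), v (orb T P n x) +
            ∑ n ∈ ((range (N + 1)).image fun n : ℕ => -(n : ℤ)), v (orb T P n x) := by
            rw [← Finset.sum_union_inter]
            exact le_self_add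
        _ = _ := by
            rw [Finset.sum_image (fun a _ b _ h => by simpa using h),
              Finset.sum_image (fun a _ b _ h => by simpa using h)]
    calc ((2 * N + 1 : ℕ) : ℝ≥0∞)⁻¹ * ∑ n ∈ Icc (-(N : ℤ)) (N : ℤ), v (orb T P n x)
        ≤ ((N + 1 : ℕ) : ℝ≥0∞)⁻¹ * (∑ n ∈ range (N + 1), v (orb T P (n : ℤ) x) +
          ∑ n ∈ range (N + 1), v (orb T P (-(n : ℤ)) x)) :=
          mul_le_mul' hinv hsum
      _ = ((N + 1 : ℕ) : ℝ≥0∞)⁻¹ * ∑ n ∈ range (N + 1), v (orb T P (n : ℤ) x) +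
          ((N + 1 : ℕ) : ℝ≥0∞)⁻¹ * ∑ n ∈ range (N + 1), v (orb T P (-(n : ℤ)) x) := by
          rw [mul_add]
      _ ≤ s1 x + s2 x := by
          apply add_le_add
          · exact le_iSup (fun N : ℕ => ((N + 1 : ℕ) : ℝ≥0∞)⁻¹ *
              ∑ n ∈ range (N + 1), v (orb T P (n : ℤ) x)) N
          · exact le_iSup (fun N : ℕ => ((N + 1 : ℕ) : ℝ≥0∞)⁻¹ *
              ∑ n ∈ range (N + 1), v (orb T P (-(n : ℤ)) x)) N
  calc ∫⁻ x, (⨆ N : ℕ, ((2 * N + 1 : ℕ) : ℝ≥0∞)⁻¹ *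
          ∑ n ∈ Icc (-(N : ℤ)) (N : ℤ), v (orb T P n x)) ^ 2 ∂μ
      ≤ ∫⁻ x, 4 * (s1 x ^ 2 + s2 x ^ 2) ∂μ := by
        apply lintegral_mono
        intro x
        exact (pow_le_pow_left' (hpt x) 2).trans (Pool.PolyMax.sq_add_le _ _)
    _ = 4 * (∫⁻ x, s1 x ^ 2 ∂μ + ∫⁻ x, s2 x ^ 2 ∂μ) := by
        rw [lintegral_const_mul' _ _ (by norm_num), lintegral_add_left (hs1m.pow_const 2)]
    _ ≤ 4 * (C1 * ∫⁻ x, v x ^ 2 ∂μ + C2 * ∫⁻ x, v x ^ 2 ∂μ) := by
        gcongr
    _ = ((4 * (C1 + C2) : ℝ≥0) : ℝ≥0∞) * ∫⁻ x, v x ^ 2 ∂μ := by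
        push_cast
        ring

end Pool.Nil
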