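import Mathlib

set_option autoImplicit false

/-!
# Nil: polynomial maps from a weighted lattice into a filtered group

`V` is the index set of the variables, the variable `v` has weight `om v`.  A map
`f : (V → ℤ) → G` is polynomial of level `i` (`IsPol F om i f`) if all its iterated differences in
directions `v_1, ..., v_k` have values in `F (i + om v_1 + ... + om v_k)`.
The Lazard-Leibman theorem: these maps are closed under products, inverses and commutators.
(The proof is the one of `Pool.Agent.Lib.PolySeq`.)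
-/

namespace Pool.Nil

variable {G : Type*} [Group G] {V : Type*} [DecidableEq V]

/-- difference of `f` in the direction of the basis vector `v` -/
def dv (v : V) (f : (V → ℤ) → G) : (V → ℤ) → G := fun x => (f x)⁻¹ * f (x + Pi.single v 1)

/-- a filtration -/
structure Filt (F : ℕ → Subgroup G) : Prop where
  anti : ∀ i, F (i + 1) ≤ F i
  comm : ∀ i j, ∀ x ∈ F i, ∀ y ∈ F j, x * y * x⁻¹ * y⁻¹ ∈ F (i + j)

lemma Filt.le {F : ℕ → Subgroup G} (hF : Filt F) {i j : ℕ} (h : i ≤ j) : F j ≤ F i := by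
  induction j, h using Nat.le_induction with
  | base => exact le_rfl
  | succ j _ ih => exact (hF.anti j).trans ih

lemma Filt.conj {F : ℕ → Subgroup G} (hF : Filt F) {i : ℕ} {x y : G} (hx : x ∈ F i)
    (hy : y ∈ F 0) : y * x * y⁻¹ ∈ F i := by
  have h := hF.comm 0 i y hy x hx
  rw [zero_add] at h
  have e : y * x * y⁻¹ = (y * x * y⁻¹ * x⁻¹) * x := by group
  rw [e]
  exact (F i).mul_mem h hx

/-- truncated polynomiality -/
def PQ (F : ℕ → Subgroup G) (om : V → ℕ) : ℕ → ℕ → Set ((V → ℤ) → G)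
  | 0, i => {f | ∀ x, f x ∈ F i}
  | k + 1, i => {f | (∀ x, f x ∈ F i) ∧ ∀ v, dv v f ∈ PQ F om k (i + om v)}

/-- polynomial maps of level `i` -/
def IsPol (F : ℕ → Subgroup G) (om : V → ℕ) (i : ℕ) (f : (V → ℤ) → G) : Prop :=
  ∀ k, f ∈ PQ F om k i

variable {F : ℕ → Subgroup G} {om : V → ℕ}

lemma PQ_val {k i : ℕ} {f : (V → ℤ) → G} (hf : f ∈ PQ F om k i) (x : V → ℤ) : f x ∈ F i := by
  cases k with
  | zero => exact hf x
  | succ k => exact hf.1 x

lemma PQ_succ {k : ℕ} : ∀ {i : ℕ} {f : (V → ℤ) → G}, f ∈ PQ F om (k + 1) i → f ∈ PQ F om k i := by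
  induction k with
  | zero => intro i f hf; exact hf.1
  | succ k ih => intro i f hf; exact ⟨hf.1, fun v => ih (hf.2 v)⟩

lemma PQ_le (hF : Filt F) {k : ℕ} : ∀ {i j : ℕ}, i ≤ j → ∀ {f : (V → ℤ) → G},
    f ∈ PQ F om k j → f ∈ PQ F om k i := by
  induction k with
  | zero => intro i j hij f hf x; exact hF.le hij (hf x)
  | succ k ih =>
    intro i j hij f hf
    exact ⟨fun x => hF.le hij (hf.1 x), fun v => ih (by omega) (hf.2 v)⟩

structure Good (F : ℕ → Subgroup G) (om : V → ℕ) (k : ℕ) : Prop where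
  mul : ∀ i (f g : (V → ℤ) → G), f ∈ PQ F om k i → g ∈ PQ F om k i → f * g ∈ PQ F om k i
  inv : ∀ i (f : (V → ℤ) → G), f ∈ PQ F om k i → f⁻¹ ∈ PQ F om k i
  comm : ∀ i j (f g : (V → ℤ) → G), f ∈ PQ F om k i → g ∈ PQ F om k j →
    f * g * f⁻¹ * g⁻¹ ∈ PQ F om k (i + j)

lemma Good.conj (hF : Filt F) {k : ℕ} (h : Good F om k) {i j : ℕ}
    {v u : (V → ℤ) → G} (hv : v ∈ PQ F om k j) (hu : u ∈ PQ F om k i) :
    v * u * v⁻¹ ∈ PQ F om k i := by
  have e : v * u * v⁻¹ = (v * u * v⁻¹ * u⁻¹) * u := by group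
  rw [e]
  exact h.mul i _ _ (PQ_le hF (by omega) (h.comm j i v u hv hu)) hu

/-- **Lazard-Leibman theorem** (truncated form). -/
theorem good (hF : Filt F) (k : ℕ) : Good F om k := by
  induction k with
  | zero =>
    refine ⟨fun i f g hf hg x => (F i).mul_mem (hf x) (hg x),
      fun i f hf x => (F i).inv_mem (hf x), fun i j f g hf hg x => ?_⟩
    exact hF.comm i j (f x) (hf x) (g x) (hg x)
  | succ k ih =>
    refine ⟨fun i f g hf hg => ⟨fun x => (F i).mul_mem (hf.1 x) (hg.1 x), fun v => ?_⟩,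
      fun i f hf => ⟨fun x => (F i).inv_mem (hf.1 x), fun v => ?_⟩,
      fun i j f g hf hg => ⟨fun x => hF.comm i j (f x) (hf.1 x) (g x) (hg.1 x), fun v => ?_⟩⟩
    · have e : dv v (f * g) = (g⁻¹ * dv v f * (g⁻¹)⁻¹) * dv v g := by
        funext x
        simp only [dv, Pi.mul_apply, Pi.inv_apply]
        group
      rw [e]
      exact ih.mul _ _ _ (ih.conj hF (ih.inv i _ (PQ_succ hg)) (hf.2 v)) (hg.2 v)
    · have e : dv v f⁻¹ = f * (dv v f)⁻¹ * f⁻¹ := by
        funext x
        simp only [dv, Pi.mul_apply, Pi.inv_apply]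
        group
      rw [e]
      exact ih.conj hF (PQ_succ hf) (ih.inv _ _ (hf.2 v))
    · set u := dv v f with hu
      set u' := dv v g with hu'
      set w := g * u' with hw
      set c := f * g * f⁻¹ * g⁻¹ with hc
      have hf0 := PQ_succ hf
      have hg0 := PQ_succ hg
      have e : dv v c = (c⁻¹ * (f * (u * w * u⁻¹ * w⁻¹) * f⁻¹) * (c⁻¹)⁻¹) *
          (g * (f * u' * f⁻¹ * u'⁻¹) * g⁻¹) := by
        funext x
        simp only [hc, hw, hu, hu', dv, Pi.mul_apply, Pi.inv_apply]
        group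
      rw [e]
      have hwj : w ∈ PQ F om k j := ih.mul j _ _ hg0 (PQ_le hF (by omega) (hg.2 v))
      have m1 : u * w * u⁻¹ * w⁻¹ ∈ PQ F om k (i + j + om v) := by
        have := ih.comm (i + om v) j u w (hf.2 v) hwj
        rwa [show i + om v + j = i + j + om v by ring] at this
      have m2 : f * u' * f⁻¹ * u'⁻¹ ∈ PQ F om k (i + j + om v) := by
        have := ih.comm i (j + om v) f u' hf0 (hg.2 v)
        rwa [← add_assoc] at this
      have hcm : c ∈ PQ F om k (i + j) := ih.comm i j f g hf0 hg0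
      exact ih.mul _ _ _ (ih.conj hF (ih.inv _ _ hcm) (ih.conj hF hf0 m1)) (ih.conj hF hg0 m2)

namespace IsPol

variable {i j : ℕ} {f g : (V → ℤ) → G}

lemma val (hf : IsPol F om i f) (x : V → ℤ) : f x ∈ F i := hf 0 x

lemma diff (hf : IsPol F om i f) (v : V) : IsPol F om (i + om v) (dv v f) :=
  fun k => (hf (k + 1)).2 v

lemma intro (h1 : ∀ x, f x ∈ F i) (h2 : ∀ v, IsPol F om (i + om v) (dv v f)) :
    IsPol F om i f := by
  intro k
  cases k with
  | zero => exact h1
  | succ k => exact ⟨h1, fun v => h2 v k⟩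

lemma le (hF : Filt F) (hij : i ≤ j) (hf : IsPol F om j f) : IsPol F om i f :=
  fun k => PQ_le hF hij (hf k)

lemma mul (hF : Filt F) (hf : IsPol F om i f) (hg : IsPol F om i g) : IsPol F om i (f * g) :=
  fun k => (good hF k).mul i f g (hf k) (hg k)

lemma inv (hF : Filt F) (hf : IsPol F om i f) : IsPol F om i f⁻¹ :=
  fun k => (good hF k).inv i f (hf k)

lemma comm (hF : Filt F) (hf : IsPol F om i f) (hg : IsPol F om j g) :
    IsPol F om (i + j) (f * g * f⁻¹ * g⁻¹) :=
  fun k => (good hF k).comm i j f g (hf k) (hg k)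

lemma conj (hF : Filt F) (hg : IsPol F om j g) (hf : IsPol F om i f) :
    IsPol F om i (g * f * g⁻¹) :=
  fun k => (good hF k).conj hF (hg k) (hf k)

lemma const {c : G} (hc : c ∈ F i) : IsPol F om i (fun _ => c) := by
  intro k
  induction k generalizing i c with
  | zero => exact fun _ => hc
  | succ k ih =>
    refine ⟨fun _ => hc, fun v => ?_⟩
    have e : dv v (fun _ : V → ℤ => c) = fun _ => 1 := by
      funext x
      simp [dv]
    rw [e]
    exact ih (one_mem _)

lemma prod (hF : Filt F) (L : List ((V → ℤ) → G)) (h : ∀ f ∈ L, IsPol F om i f) :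
    IsPol F om i L.prod := by
  induction L with
  | nil => exact const (one_mem _)
  | cons a L ih =>
    rw [List.prod_cons]
    exact (h a (by simp)).mul hF (ih fun f hf => h f (by simp [hf]))

/-- translation of the variables -/
lemma shift (a : V → ℤ) (hf : IsPol F om i f) : IsPol F om i (fun x => f (x + a)) := by
  intro k
  induction k generalizing i f with
  | zero => exact fun x => hf.val _
  | succ k ih =>
    refine ⟨fun x => hf.val _, fun v => ?_⟩
    have e : dv v (fun x => f (x + a)) = fun x => dv v f (x + a) := by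
      funext x
      simp only [dv]
      rw [add_right_comm]
    rw [e]
    exact ih (hf.diff v)

end IsPol

/-! ### sequences -/

/-- difference of a sequence -/
def dz (g : ℤ → G) : ℤ → G := fun n => (g n)⁻¹ * g (n + 1)

/-- truncated polynomial sequences -/
def SQ (F : ℕ → Subgroup G) : ℕ → ℕ → Set (ℤ → G)
  | 0, i => {g | ∀ n, g n ∈ F i}
  | k + 1, i => {g | (∀ n, g n ∈ F i) ∧ dz g ∈ SQ F k (i + 1)}

/-- polynomial sequences of level `i` -/
def IsSeq (F : ℕ → Subgroup G) (i : ℕ) (g : ℤ → G) : Prop := ∀ k, g ∈ SQ F k i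

lemma SQ_iff (k : ℕ) : ∀ (i : ℕ) (g : ℤ → G), g ∈ SQ F k i ↔
    (fun x : Unit → ℤ => g (x ())) ∈ PQ F (fun _ : Unit => 1) k i := by
  induction k with
  | zero =>
    intro i g
    exact ⟨fun h x => h _, fun h n => h fun _ => n⟩
  | succ k ih =>
    intro i g
    have e : ∀ v : Unit, dv v (fun x : Unit → ℤ => g (x ())) = fun x => dz g (x ()) := by
      intro v
      funext x
      simp [dv, dz]
    constructor
    · intro h
      refine ⟨fun x => h.1 _, fun v => ?_⟩
      rw [e]
      exact (ih _ _).1 h.2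
    · intro h
      refine ⟨fun n => h.1 fun _ => n, ?_⟩
      have := h.2 ()
      rw [e] at this
      exact (ih _ _).2 this

lemma isSeq_iff {i : ℕ} {g : ℤ → G} :
    IsSeq F i g ↔ IsPol F (fun _ : Unit => 1) i (fun x : Unit → ℤ => g (x ())) :=
  ⟨fun h k => (SQ_iff k i g).1 (h k), fun h k => (SQ_iff k i g).2 (h k)⟩

namespace IsSeq

variable {i j : ℕ} {f g : ℤ → G}

lemma val (hf : IsSeq F i f) (n : ℤ) : f n ∈ F i := hf 0 n

lemma diff (hf : IsSeq F i f) : IsSeq F (i + 1) (dz f) := fun k => (hf (k + 1)).2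

lemma intro (h1 : ∀ n, f n ∈ F i) (h2 : IsSeq F (i + 1) (dz f)) : IsSeq F i f := by
  intro k
  cases k with
  | zero => exact h1
  | succ k => exact ⟨h1, h2 k⟩

lemma le (hF : Filt F) (hij : i ≤ j) (hf : IsSeq F j f) : IsSeq F i f :=
  isSeq_iff.2 ((isSeq_iff.1 hf).le hF hij)

lemma mul (hF : Filt F) (hf : IsSeq F i f) (hg : IsSeq F i g) : IsSeq F i (f * g) :=
  isSeq_iff.2 ((isSeq_iff.1 hf).mul hF (isSeq_iff.1 hg))

lemma inv (hF : Filt F) (hf : IsSeq F i f) : IsSeq F i f⁻¹ :=
  isSeq_iff.2 ((isSeq_iff.1 hf).inv hF)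

lemma comm (hF : Filt F) (hf : IsSeq F i f) (hg : IsSeq F j g) :
    IsSeq F (i + j) (f * g * f⁻¹ * g⁻¹) :=
  isSeq_iff.2 ((isSeq_iff.1 hf).comm hF (isSeq_iff.1 hg))

lemma conj (hF : Filt F) (hg : IsSeq F j g) (hf : IsSeq F i f) : IsSeq F i (g * f * g⁻¹) :=
  isSeq_iff.2 ((isSeq_iff.1 hg).conj hF (isSeq_iff.1 hf))

lemma const {c : G} (hc : c ∈ F i) : IsSeq F i (fun _ => c) :=
  isSeq_iff.2 (IsPol.const hc)

end IsSeq

/-- composition of a polynomial sequence with a sum of variables of weight one -/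
theorem isPol_comp_sum {g : ℤ → G} (A : Finset V) (hA : ∀ v ∈ A, om v = 1)
    {i : ℕ} (hg : IsSeq F i g) : IsPol F om i (fun x => g (∑ v ∈ A, x v)) := by
  intro k
  induction k generalizing i g with
  | zero => exact fun x => hg.val _
  | succ k ih =>
    refine ⟨fun x => hg.val _, fun v => ?_⟩
    by_cases hv : v ∈ A
    · have e : dv v (fun x => g (∑ v ∈ A, x v)) = fun x => dz g (∑ v ∈ A, x v) := by
        funext x
        have h1 : ∑ u ∈ A, (x + Pi.single v 1 : V → ℤ) u = ∑ u ∈ A, x u + 1 := by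
          simp only [Pi.add_apply, Finset.sum_add_distrib]
          congr 1
          rw [Finset.sum_eq_single v (fun b _ hb => Pi.single_eq_of_ne hb _)
            (fun h => absurd hv h), Pi.single_eq_same]
        simp only [dv, dz, h1]
      rw [e, hA v hv]
      exact ih hg.diff
    · have e : dv v (fun x => g (∑ v ∈ A, x v)) = fun _ => 1 := by
        funext x
        have h1 : ∑ u ∈ A, (x + Pi.single v 1 : V → ℤ) u = ∑ u ∈ A, x u := by
          refine Finset.sum_congr rfl fun u hu => ?_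
          have : u ≠ v := fun h => hv (h ▸ hu)
          simp [Pi.single_eq_of_ne this]
        simp only [dv, h1, inv_mul_cancel]
      rw [e]
      exact IsPol.const (one_mem _) k

end Pool.Nil
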