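import Pool.Agent.Nil.Avg

/-!
# Nil: triangular shifts of boxes

PROOF of `tri_shift`.  `psi t = t + ps t` is injective: if `psi t = psi t'` show `t i = t' i` by strong
induction on `w i` (`ps t i = ps t' i` by `hdep`).  With `B = bx M`, `avg B (Φ ∘ psi) - avg B Φ =
|B|⁻¹ (∑_{z ∈ psi(B)} Φ z - ∑_{z ∈ B} Φ z)`, of norm `≤ |B|⁻¹ C (|psi(B) \ B| + |B \ psi(B)|) =
2 C |B|⁻¹ |psi(B) \ B|` (equal cardinalities), and
`|psi(B) \ B| = |{t ∈ B : psi t ∉ B}| ≤ ∑_i |{t ∈ B : t_i + ps t i ∉ [-M_i, M_i]}|`.  For fixed other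
coordinates the number `a = ps t i` is fixed (`hdep`: it does not depend on `t_i`, as `w i < w i` is
false), and the number of `t_i ∈ [-M_i, M_i]` with `t_i + a ∉ [-M_i, M_i]` is at most `|a| ≤ del (2 M_i + 1)`.
`tri_dom`: `psi` maps `B` injectively into `bx M'`; compare the cardinalities
`|bx M'| ≤ ∏ K_i |bx M|`.
`ratio`: elementary (`2 ⌊b x⌋ + 1 ≤ (2 b + 1) (2 ⌊x⌋ + 1)` for `x ≥ 0`, `b ≥ 1`; cases `x < 1` and `x ≥ 1`).
-/

set_option autoImplicit false

namespace Pool.Nil

open Finset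

/-- the box `∏ [-M_i, M_i]` -/
noncomputable def bx {r : ℕ} (M : Fin r → ℕ) : Finset (Fin r → ℤ) :=
  Fintype.piFinset fun i => Icc (-(M i : ℤ)) (M i : ℤ)

lemma mem_bx {r : ℕ} {M : Fin r → ℕ} {t : Fin r → ℤ} : t ∈ bx M ↔ ∀ i, |t i| ≤ (M i : ℤ) := by
  simp only [bx, Fintype.mem_piFinset, mem_Icc, abs_le]

lemma bx_nonempty {r : ℕ} (M : Fin r → ℕ) : (bx M).Nonempty :=
  ⟨0, mem_bx.2 fun i => by simp⟩

namespace BoxAux

lemma card_bx {r : ℕ} (M : Fin r → ℕ) : (bx M).card = ∏ i, (2 * M i + 1) := by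
  rw [bx, Fintype.card_piFinset]
  refine Finset.prod_congr rfl fun i _ => ?_
  rw [Int.card_Icc]
  omega

lemma card_bx_update {r : ℕ} (M : Fin r → ℕ) (i : Fin r) :
    (bx (Function.update M i 0)).card * (2 * M i + 1) = (bx M).card := by
  rw [card_bx, card_bx, ← Finset.mul_prod_erase Finset.univ (fun j => 2 * M j + 1) (mem_univ i),
    ← Finset.mul_prod_erase Finset.univ (fun j => 2 * Function.update M i 0 j + 1) (mem_univ i),
    Function.update_self, mul_comm]
  congr 1
  rw [Nat.mul_zero, Nat.zero_add, one_mul]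
  refine Finset.prod_congr rfl fun j hj => ?_
  rw [Function.update_of_ne (Finset.ne_of_mem_erase hj)]

lemma card_out (m : ℕ) (a : ℤ) :
    (((Icc (-(m : ℤ)) (m : ℤ)).filter fun x => ¬ |x + a| ≤ (m : ℤ)).card : ℤ) ≤ |a| := by
  rcases le_total 0 a with ha | ha
  · have hsub : ((Icc (-(m : ℤ)) (m : ℤ)).filter fun x => ¬ |x + a| ≤ (m : ℤ)) ⊆
        Ioc ((m : ℤ) - a) m := by
      intro x hx
      rw [mem_filter, mem_Icc, abs_le] at hx
      rw [mem_Ioc]
      omega
    have := Finset.card_le_card hsub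
    rw [Int.card_Ioc] at this
    rw [abs_of_nonneg ha]
    omega
  · have hsub : ((Icc (-(m : ℤ)) (m : ℤ)).filter fun x => ¬ |x + a| ≤ (m : ℤ)) ⊆
        Ico (-(m : ℤ)) (-(m : ℤ) - a) := by
      intro x hx
      rw [mem_filter, mem_Icc, abs_le] at hx
      rw [mem_Ico]
      omega
    have := Finset.card_le_card hsub
    rw [Int.card_Ico] at this
    rw [abs_of_nonpos ha]
    omega

lemma psi_inj {r : ℕ} (w : Fin r → ℕ) (ps : (Fin r → ℤ) → Fin r → ℤ)
    (hdep : ∀ t t' i, (∀ j, w j < w i → t j = t' j) → ps t i = ps t' i) :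
    Function.Injective fun t => t + ps t := by
  intro t t' h
  have key : ∀ n : ℕ, ∀ i, w i = n → t i = t' i := by
    intro n
    induction n using Nat.strong_induction_on with
    | _ n ih =>
      intro i hi
      have h1 : ps t i = ps t' i := hdep t t' i fun j hj => ih (w j) (hi ▸ hj) j rfl
      have h2 : t i + ps t i = t' i + ps t' i := congrFun h i
      omega
  funext i
  exact key _ i rfl

lemma card_bad {r : ℕ} (w : Fin r → ℕ)
    (M : Fin r → ℕ) (ps : (Fin r → ℤ) → Fin r → ℤ)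
    (hdep : ∀ t t' i, (∀ j, w j < w i → t j = t' j) → ps t i = ps t' i) {del : ℝ}
    (h : ∀ t ∈ bx M, ∀ i, |(ps t i : ℝ)| ≤ del * (2 * M i + 1)) (i : Fin r) :
    (((bx M).filter fun t => ¬ |t i + ps t i| ≤ (M i : ℤ)).card : ℝ) ≤ del * (bx M).card := by
  classical
  set S := (bx M).filter fun t => ¬ |t i + ps t i| ≤ (M i : ℤ) with hS
  have hmaps : ∀ t ∈ S, Function.update t i 0 ∈ bx (Function.update M i 0) := by
    intro t ht
    rw [hS, mem_filter, mem_bx] at ht
    rw [mem_bx]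
    intro j
    by_cases hj : j = i
    · subst hj
      simp
    · rw [Function.update_of_ne hj, Function.update_of_ne hj]
      exact ht.1 j
  have hfib : ∀ b ∈ bx (Function.update M i 0),
      ((S.filter fun t => Function.update t i 0 = b).card : ℝ) ≤ del * (2 * M i + 1) := by
    intro b hb
    have hbM : b ∈ bx M := by
      rw [mem_bx] at hb ⊢
      intro j
      by_cases hj : j = i
      · subst hj
        have := hb j
        rw [Function.update_self] at this
        push_cast at this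
        exact this.trans (by positivity)
      · have := hb j
        rwa [Function.update_of_ne hj] at this
    have hps : ∀ t, Function.update t i 0 = b → ps t i = ps b i := by
      intro t ht
      refine hdep t b i fun j hj => ?_
      have hji : j ≠ i := by
        rintro rfl
        exact lt_irrefl _ hj
      rw [← ht, Function.update_of_ne hji]
    have h1 : (S.filter fun t => Function.update t i 0 = b).card ≤
        ((Icc (-(M i : ℤ)) (M i : ℤ)).filter fun x => ¬ |x + ps b i| ≤ (M i : ℤ)).card := by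
      refine Finset.card_le_card_of_injOn (fun t => t i) ?_ ?_
      · intro t ht
        rw [Finset.mem_coe, mem_filter, hS, mem_filter, mem_bx] at ht
        rw [Finset.mem_coe, mem_filter, mem_Icc, ← abs_le]
        refine ⟨ht.1.1 i, ?_⟩
        rw [← hps t ht.2]
        exact ht.1.2
      · intro t ht t' ht' htt
        rw [Finset.mem_coe, mem_filter] at ht ht'
        have e : Function.update t i 0 = Function.update t' i 0 := ht.2.trans ht'.2.symm
        funext j
        by_cases hj : j = i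
        · rw [hj]
          exact htt
        · have := congrFun e j
          rwa [Function.update_of_ne hj, Function.update_of_ne hj] at this
    have h2 := card_out (M i) (ps b i)
    have h3 : ((S.filter fun t => Function.update t i 0 = b).card : ℝ) ≤ |(ps b i : ℝ)| := by
      have h4 : (((S.filter fun t => Function.update t i 0 = b).card : ℤ)) ≤ |ps b i| := by
        refine le_trans ?_ h2
        exact_mod_cast h1
      exact_mod_cast h4
    exact h3.trans (h b hbM i)
  have hcard : S.card = ∑ b ∈ bx (Function.update M i 0),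
      (S.filter fun t => Function.update t i 0 = b).card :=
    Finset.card_eq_sum_card_fiberwise hmaps
  rw [hcard]
  push_cast
  calc ∑ b ∈ bx (Function.update M i 0), ((S.filter fun t => Function.update t i 0 = b).card : ℝ)
      ≤ ∑ _b ∈ bx (Function.update M i 0), del * (2 * M i + 1) := Finset.sum_le_sum hfib
    _ = del * (bx M).card := by
      rw [Finset.sum_const, nsmul_eq_mul, ← card_bx_update M i]
      push_cast
      ring

end BoxAux

theorem tri_shift {E : Type*} [NormedAddCommGroup E] [NormedSpace ℝ E] {r : ℕ} (w : Fin r → ℕ)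
    (M : Fin r → ℕ) (ps : (Fin r → ℤ) → Fin r → ℤ)
    (hdep : ∀ t t' i, (∀ j, w j < w i → t j = t' j) → ps t i = ps t' i) {del : ℝ} (hdel : 0 ≤ del)
    (h : ∀ t ∈ bx M, ∀ i, |(ps t i : ℝ)| ≤ del * (2 * M i + 1)) {Φ : (Fin r → ℤ) → E} {C : ℝ}
    (hΦ : ∀ t, ‖Φ t‖ ≤ C) :
    ‖avg (bx M) (fun t => Φ (t + ps t)) - avg (bx M) Φ‖ ≤ 2 * r * del * C := by
  classical
  have hC : 0 ≤ C := (norm_nonneg _).trans (hΦ 0)
  have hinj := BoxAux.psi_inj w ps hdep
  set B := bx M with hB
  set P := B.image fun t => t + ps t with hP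
  have hcP : P.card = B.card := Finset.card_image_of_injective _ hinj
  have hB0 : (0 : ℝ) < B.card := by exact_mod_cast (bx_nonempty M).card_pos
  have hsum : ∑ t ∈ B, Φ (t + ps t) = ∑ z ∈ P, Φ z := by
    rw [hP, Finset.sum_image fun x _ y _ hxy => hinj hxy]
  have hdiff : ∑ z ∈ P, Φ z - ∑ z ∈ B, Φ z = ∑ z ∈ P \ B, Φ z - ∑ z ∈ B \ P, Φ z := by
    have e1 := Finset.sum_inter_add_sum_sdiff P B Φ
    have e2 := Finset.sum_inter_add_sum_sdiff B P Φ
    rw [← e1, ← e2, Finset.inter_comm B P]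
    abel
  have hPB : (P \ B).card = (B \ P).card := by
    have e1 := Finset.card_inter_add_card_sdiff P B
    have e2 := Finset.card_inter_add_card_sdiff B P
    rw [Finset.inter_comm B P] at e2
    omega
  have hcount : ((P \ B).card : ℝ) ≤ r * del * B.card := by
    have hsub : P \ B ⊆ (Finset.univ.biUnion fun i : Fin r =>
        (B.filter fun t => ¬ |t i + ps t i| ≤ (M i : ℤ))).image fun t => t + ps t := by
      intro z hz
      rw [Finset.mem_sdiff, hP, Finset.mem_image] at hz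
      obtain ⟨⟨t, ht, rfl⟩, hz⟩ := hz
      rw [hB, mem_bx] at hz
      push Not at hz
      obtain ⟨i, hi⟩ := hz
      refine Finset.mem_image.2 ⟨t, Finset.mem_biUnion.2 ⟨i, Finset.mem_univ _, ?_⟩, rfl⟩
      rw [mem_filter]
      exact ⟨ht, not_le.2 hi⟩
    have h1 : (P \ B).card ≤ ∑ i : Fin r, (B.filter fun t => ¬ |t i + ps t i| ≤ (M i : ℤ)).card :=
      (Finset.card_le_card hsub).trans (Finset.card_image_le.trans Finset.card_biUnion_le)
    calc ((P \ B).card : ℝ)
        ≤ ∑ i : Fin r, ((B.filter fun t => ¬ |t i + ps t i| ≤ (M i : ℤ)).card : ℝ) := by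
          exact_mod_cast h1
      _ ≤ ∑ _i : Fin r, del * B.card :=
          Finset.sum_le_sum fun i _ => BoxAux.card_bad w M ps hdep h i
      _ = r * del * B.card := by
          rw [Finset.sum_const, Finset.card_univ, Fintype.card_fin, nsmul_eq_mul]
          ring
  have hn : ∀ s : Finset (Fin r → ℤ), ‖∑ z ∈ s, Φ z‖ ≤ s.card * C := by
    intro s
    refine (norm_sum_le _ _).trans ?_
    refine (Finset.sum_le_sum fun z _ => hΦ z).trans ?_
    rw [Finset.sum_const, nsmul_eq_mul]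
  unfold avg
  rw [← smul_sub, norm_smul, hsum, hdiff, norm_inv, Real.norm_of_nonneg hB0.le]
  calc (B.card : ℝ)⁻¹ * ‖∑ z ∈ P \ B, Φ z - ∑ z ∈ B \ P, Φ z‖
      ≤ (B.card : ℝ)⁻¹ * ((P \ B).card * C + (B \ P).card * C) := by
        refine mul_le_mul_of_nonneg_left ?_ (inv_nonneg.2 hB0.le)
        exact (norm_sub_le _ _).trans (add_le_add (hn _) (hn _))
    _ = (B.card : ℝ)⁻¹ * (2 * C) * (P \ B).card := by
        rw [← hPB]
        ring
    _ ≤ (B.card : ℝ)⁻¹ * (2 * C) * (r * del * B.card) :=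
        mul_le_mul_of_nonneg_left hcount (by positivity)
    _ = 2 * r * del * C := by
        field_simp

theorem tri_dom {r : ℕ} (w : Fin r → ℕ) (M M' : Fin r → ℕ) (ps : (Fin r → ℤ) → Fin r → ℤ)
    (hdep : ∀ t t' i, (∀ j, w j < w i → t j = t' j) → ps t i = ps t' i)
    (h : ∀ t ∈ bx M, ∀ i, |ps t i| + M i ≤ M' i) {K : ℝ} (hK : 1 ≤ K)
    (hM : ∀ i, (2 * M' i + 1 : ℝ) ≤ K * (2 * M i + 1)) {Φ : (Fin r → ℤ) → ℝ} (hΦ : ∀ t, 0 ≤ Φ t) :
    avg (bx M) (fun t => Φ (t + ps t)) ≤ K ^ r * avg (bx M') Φ := by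
  classical
  have hinj := BoxAux.psi_inj w ps hdep
  have hB0 : (0 : ℝ) < (bx M).card := by exact_mod_cast (bx_nonempty M).card_pos
  have hB0' : (0 : ℝ) < (bx M').card := by exact_mod_cast (bx_nonempty M').card_pos
  have hsum : ∑ t ∈ bx M, Φ (t + ps t) ≤ ∑ z ∈ bx M', Φ z := by
    rw [← Finset.sum_image (f := Φ) (g := fun t => t + ps t) fun x _ y _ hxy => hinj hxy]
    refine Finset.sum_le_sum_of_subset_of_nonneg ?_ fun z _ _ => hΦ z
    intro z hz
    obtain ⟨t, ht, rfl⟩ := Finset.mem_image.1 hz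
    rw [mem_bx]
    intro i
    have h1 := h t ht i
    have h2 := mem_bx.1 ht i
    have h3 : |(t + ps t) i| ≤ |t i| + |ps t i| := abs_add_le _ _
    omega
  have hcard : ((bx M').card : ℝ) ≤ K ^ r * (bx M).card := by
    rw [BoxAux.card_bx, BoxAux.card_bx]
    push_cast
    calc ∏ i, (2 * (M' i : ℝ) + 1) ≤ ∏ i : Fin r, K * (2 * (M i : ℝ) + 1) :=
          Finset.prod_le_prod (fun i _ => by positivity) fun i _ => hM i
      _ = K ^ r * ∏ i, (2 * (M i : ℝ) + 1) := by
          rw [Finset.prod_mul_distrib, Finset.prod_const, Finset.card_univ, Fintype.card_fin]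
  have hs0 : 0 ≤ ∑ z ∈ bx M', Φ z := Finset.sum_nonneg fun z _ => hΦ z
  unfold avg
  rw [smul_eq_mul, smul_eq_mul]
  calc ((bx M).card : ℝ)⁻¹ * ∑ t ∈ bx M, Φ (t + ps t)
      ≤ ((bx M).card : ℝ)⁻¹ * ∑ z ∈ bx M', Φ z :=
        mul_le_mul_of_nonneg_left hsum (inv_nonneg.2 hB0.le)
    _ ≤ (K ^ r * ((bx M').card : ℝ)⁻¹) * ∑ z ∈ bx M', Φ z := by
        refine mul_le_mul_of_nonneg_right ?_ hs0
        rw [← div_eq_mul_inv, le_div_iff₀ hB0', inv_mul_le_iff₀ hB0]
        linarith [hcard]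
    _ = K ^ r * (((bx M').card : ℝ)⁻¹ * ∑ z ∈ bx M', Φ z) := by ring

lemma ratio {x b : ℝ} (hx : 0 ≤ x) (hb : 1 ≤ b) :
    (2 * ⌊b * x⌋₊ + 1 : ℝ) ≤ (2 * b + 1) * (2 * ⌊x⌋₊ + 1) := by
  have hbx : 0 ≤ b * x := by positivity
  have h1 := Nat.floor_le hbx
  have h2 := Nat.lt_floor_add_one x
  have h3 : (0 : ℝ) ≤ ⌊x⌋₊ := Nat.cast_nonneg _
  nlinarith [mul_nonneg (by linarith : (0 : ℝ) ≤ b) h3, mul_le_mul_of_nonneg_left h2.le
    (by linarith : (0 : ℝ) ≤ b)]

lemma le_two_floor {x : ℝ} (hx : 0 ≤ x) : x ≤ 2 * ⌊x⌋₊ + 1 := by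
  have h2 := Nat.lt_floor_add_one x
  have h3 : (0 : ℝ) ≤ ⌊x⌋₊ := Nat.cast_nonneg _
  linarith

end Pool.Nil
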