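import Pool.Agent.Nil.SmSeq
import Pool.Agent.Nil.Box

set_option autoImplicit false
set_option linter.all false

/-!
# Nil: box averages in a unitary representation

`Uo U x` is the operator of `x`; `BM` is the average over a box of coordinates; `Bj j Q R` is the average
over the elements with coordinates of weight `> j`, divisible by `mo Q i`, of size at most `R ^ w i`;
`Sj j q rho` the average over the coordinates of weight exactly `j`, multiples of `q` of size at most `rho ^ j`.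

PROOFS.
`ni`: let `x = kap a`.  `kap a * kap (mo t) = kap (mo t + a + p a (mo t))` (`mul`), and
`(a i + p a (mo t) i) / mo i` is an integer (`p_dvd`), depends only on the `t j` with `w j < w i` (`p_dep`), vanishes
for `w i ≤ j`, `t ∈ bx (side ..)` (`p_wt`, `t i = 0` for `w i ≤ j`), and is at most
`(1 + C0) del R^w / mo i ≤ (1 + C0) del (2 ⌊R^w / mo i⌋ + 1)` (`p_size` with `del' = 1`; `le_two_floor`).
`tri_shift` with `Φ t = Uo (kap (mo t))`, `C = 1`.  The second statement: `kap (mo t) * kap a`.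
`absorb`: the elements of the second box are in `Sm (j + 1) Q R (rho / R)` (`Sm_up`, `Sm_dvd`); average `ni`
(`map_avg`, `norm_avg_le_const`).
`bj_top`: for `j ≥ D` all sides vanish.
-/

namespace Pool.Nil

open Finset

variable {G : Type*} [Group G] {H : Type*} [NormedAddCommGroup H] [InnerProductSpace ℂ H]
  [CompleteSpace H]

/-- the operator of a group element -/
noncomputable def Uo (U : G →* (H ≃ₗᵢ[ℂ] H)) (x : G) : H →L[ℂ] H :=
  ((U x).toContinuousLinearEquiv : H →L[ℂ] H)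

lemma Uo_apply (U : G →* (H ≃ₗᵢ[ℂ] H)) (x : G) (v : H) : Uo U x v = U x v := rfl

lemma Uo_one (U : G →* (H ≃ₗᵢ[ℂ] H)) : Uo U 1 = 1 := by
  ext v
  rw [Uo_apply, map_one]
  rfl

lemma Uo_mul (U : G →* (H ≃ₗᵢ[ℂ] H)) (x y : G) : Uo U (x * y) = Uo U x * Uo U y := by
  ext v
  rw [Uo_apply, map_mul]
  rfl

lemma norm_Uo_apply (U : G →* (H ≃ₗᵢ[ℂ] H)) (x : G) (v : H) : ‖Uo U x v‖ = ‖v‖ :=
  (U x).norm_map v

lemma norm_Uo_le (U : G →* (H ≃ₗᵢ[ℂ] H)) (x : G) : ‖Uo U x‖ ≤ 1 := by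
  refine ContinuousLinearMap.opNorm_le_bound _ zero_le_one fun v => ?_
  rw [norm_Uo_apply, one_mul]

lemma adjoint_Uo (U : G →* (H ≃ₗᵢ[ℂ] H)) (x : G) :
    ContinuousLinearMap.adjoint (Uo U x) = Uo U x⁻¹ := by
  symm
  rw [ContinuousLinearMap.eq_adjoint_iff]
  intro v w
  rw [Uo_apply, Uo_apply, ← (U x).inner_map_map (U x⁻¹ v) w]
  have h : U x (U x⁻¹ v) = v := by
    have h1 := Uo_mul U x x⁻¹
    rw [mul_inv_cancel, Uo_one] at h1
    have h2 := congrArg (fun A : H →L[ℂ] H => A v) h1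
    exact h2.symm
  rw [h]

/-- average over a box of coordinates with moduli `q` -/
noncomputable def BM (U : G →* (H ≃ₗᵢ[ℂ] H)) {r : ℕ} (c : Fin r → G) (q : Fin r → ℕ)
    (M : Fin r → ℕ) : H →L[ℂ] H :=
  avg (bx M) (fun t => Uo U (kap c (fun i => (q i : ℤ) * t i)))

lemma norm_BM_le (U : G →* (H ≃ₗᵢ[ℂ] H)) {r : ℕ} (c : Fin r → G) (q : Fin r → ℕ)
    (M : Fin r → ℕ) : ‖BM U c q M‖ ≤ 1 := by
  unfold BM
  exact norm_avg_le_const zero_le_one fun t _ => norm_Uo_le U _

namespace RepAux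

lemma mul_avg {α : Type*} (s : Finset α) (f : α → (H →L[ℂ] H)) (A : H →L[ℂ] H) :
    A * avg s f = avg s (fun a => A * f a) := by
  unfold avg
  rw [mul_smul_comm, Finset.mul_sum]

lemma avg_mul {α : Type*} (s : Finset α) (f : α → (H →L[ℂ] H)) (A : H →L[ℂ] H) :
    avg s f * A = avg s (fun a => f a * A) := by
  unfold avg
  rw [smul_mul_assoc, Finset.sum_mul]

lemma mo_pos {g : ℤ → G} (fr : Frame g) {Q : ℕ} (hQ : 1 ≤ Q) (i : Fin fr.r) : 0 < fr.mo Q i := by
  unfold Frame.mo md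
  exact Nat.mul_pos (pow_pos fr.W_pos _) hQ

end RepAux

namespace Frame

variable {g : ℤ → G} (fr : Frame g) (U : G →* (H ≃ₗᵢ[ℂ] H))

/-- sides of the box of weights `> j` -/
noncomputable def side (j Q : ℕ) (R : ℝ) (i : Fin fr.r) : ℕ :=
  if j < fr.w i then ⌊R ^ fr.w i / (fr.mo Q i : ℝ)⌋₊ else 0

noncomputable def Bj (j Q : ℕ) (R : ℝ) : H →L[ℂ] H := BM U fr.c (fr.mo Q) (fr.side j Q R)

/-- average over the coordinates of weight `j` which are multiples of `q` -/
noncomputable def Sj (j q : ℕ) (rho : ℝ) : H →L[ℂ] H :=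
  BM U fr.c (fun _ => q) (fun i => if fr.w i = j then ⌊rho ^ j / (q : ℝ)⌋₊ else 0)

/-- the elements of the box are small -/
lemma mem_box {j Q : ℕ} (hQ : 1 ≤ Q) {R : ℝ} (hR : 1 ≤ R) {t : Fin fr.r → ℤ}
    (ht : t ∈ bx (fr.side j Q R)) :
    kap fr.c (fun i => (fr.mo Q i : ℤ) * t i) ∈ fr.Sm (j + 1) Q R 1 := by
  rw [mem_bx] at ht
  refine ⟨_, rfl, fun i hi => ?_, fun i => Dvd.intro _ rfl, fun i => ?_⟩
  · have h1 := ht i
    unfold side at h1
    rw [if_neg (by omega)] at h1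
    have h2 : t i = 0 := by
      rw [← abs_nonpos_iff]
      exact_mod_cast h1
    rw [h2, mul_zero]
  · have hm : (0 : ℝ) < fr.mo Q i := by exact_mod_cast RepAux.mo_pos fr hQ i
    have hR0 : (0 : ℝ) ≤ R ^ fr.w i := pow_nonneg (by linarith) _
    have h1 := ht i
    have h2 : (fr.side j Q R i : ℝ) ≤ R ^ fr.w i / (fr.mo Q i : ℝ) := by
      unfold side
      split_ifs with h
      · exact Nat.floor_le (div_nonneg hR0 hm.le)
      · simp only [Nat.cast_zero]
        exact div_nonneg hR0 hm.le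
    have h3 : |(t i : ℝ)| ≤ (fr.side j Q R i : ℝ) := by exact_mod_cast h1
    push_cast
    rw [abs_mul, abs_of_pos hm, one_mul]
    calc (fr.mo Q i : ℝ) * |(t i : ℝ)| ≤ fr.mo Q i * (R ^ fr.w i / (fr.mo Q i : ℝ)) :=
          mul_le_mul_of_nonneg_left (h3.trans h2) hm.le
      _ = R ^ fr.w i := by field_simp

lemma RepAux.shift {j Q : ℕ} {R del K1 : ℝ} (hQ : 1 ≤ Q) (hR : 1 ≤ R) (hdel : 0 ≤ del) (hK1 : 0 ≤ K1)
    (q : (Fin fr.r → ℤ) → Fin fr.r → ℤ)
    (hdep : ∀ t t' i, (∀ j, fr.w j < fr.w i → t j = t' j) → q t i = q t' i)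
    (hdvd : ∀ t i, (fr.mo Q i : ℤ) ∣ q t i)
    (hsize : ∀ t ∈ bx (fr.side j Q R), ∀ i, |(q t i : ℝ)| ≤ K1 * del * R ^ fr.w i)
    (hz : ∀ t i, fr.w i ≤ j → q t i = 0) :
    ‖avg (bx (fr.side j Q R)) (fun t => Uo U (kap fr.c (fun i => (fr.mo Q i : ℤ) * t i + q t i))) -
      fr.Bj U j Q R‖ ≤ 2 * fr.r * (K1 * del) := by
  have hmi : ∀ i, (fr.mo Q i : ℤ) ≠ 0 := fun i => by exact_mod_cast (RepAux.mo_pos fr hQ i).ne'
  have hps : ∀ t i, (fr.mo Q i : ℤ) * (q t i / (fr.mo Q i : ℤ)) = q t i := fun t i =>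
    Int.mul_ediv_cancel' (hdvd t i)
  have h := tri_shift (E := H →L[ℂ] H) fr.w (fr.side j Q R) (fun t i => q t i / (fr.mo Q i : ℤ))
    (fun t t' i hh => by
      show q t i / (fr.mo Q i : ℤ) = q t' i / (fr.mo Q i : ℤ)
      rw [hdep t t' i hh]) (del := K1 * del) (mul_nonneg hK1 hdel)
    (fun t ht i => by
      have hm : (0 : ℝ) < fr.mo Q i := by exact_mod_cast RepAux.mo_pos fr hQ i
      have hR0 : (0 : ℝ) ≤ R ^ fr.w i := pow_nonneg (by linarith) _
      by_cases hi : j < fr.w i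
      · have h1 : fr.side j Q R i = ⌊R ^ fr.w i / (fr.mo Q i : ℝ)⌋₊ := by
          unfold side
          rw [if_pos hi]
        rw [h1]
        have h2 := le_two_floor (div_nonneg hR0 hm.le)
        have h3 : (fr.mo Q i : ℝ) * |((q t i / (fr.mo Q i : ℤ) : ℤ) : ℝ)| = |(q t i : ℝ)| := by
          rw [← abs_of_pos hm, ← abs_mul]
          congr 1
          exact_mod_cast hps t i
        have h4 : |((q t i / (fr.mo Q i : ℤ) : ℤ) : ℝ)| ≤ K1 * del * (R ^ fr.w i / (fr.mo Q i : ℝ)) := by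
          have h5 := hsize t ht i
          rw [← h3] at h5
          rw [← mul_div_assoc, le_div_iff₀ hm, mul_comm]
          exact h5
        exact h4.trans (mul_le_mul_of_nonneg_left h2 (mul_nonneg hK1 hdel))
      · rw [hz t i (not_lt.mp hi)]
        simp only [Int.zero_ediv, Int.cast_zero, abs_zero]
        positivity)
    (Φ := fun t => Uo U (kap fr.c (fun i => (fr.mo Q i : ℤ) * t i))) (C := 1)
    (fun t => norm_Uo_le U _)
  rw [mul_one] at h
  refine le_trans (le_of_eq ?_) h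
  congr 1
  unfold Bj BM
  congr 1
  apply avg_congr
  intro t ht
  congr 2
  funext i
  simp only [Pi.add_apply]
  rw [mul_add, hps t i]

theorem ni : ∃ K : ℝ, 1 ≤ K ∧ ∀ (j Q : ℕ) (R del : ℝ) (x : G), 1 ≤ Q → 1 ≤ R → 0 ≤ del → del ≤ 1 →
    x ∈ fr.Sm (j + 1) Q R del →
    ‖Uo U x * fr.Bj U j Q R - fr.Bj U j Q R‖ ≤ K * del ∧
    ‖fr.Bj U j Q R * Uo U x - fr.Bj U j Q R‖ ≤ K * del := by
  have hC0 := fr.one_le_C0
  have hr0 : (0 : ℝ) ≤ fr.r := Nat.cast_nonneg _
  refine ⟨1 + 2 * fr.r * (1 + fr.C0), by nlinarith, ?_⟩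
  rintro j Q R del x hQ hR hdel hdel1 ⟨a, rfl, ha0, hadvd, hasize⟩
  have hR0 : ∀ i, (0 : ℝ) ≤ R ^ fr.w i := fun i => pow_nonneg (by linarith) _
  have hfin : 2 * (fr.r : ℝ) * ((1 + fr.C0) * del) ≤ (1 + 2 * fr.r * (1 + fr.C0)) * del := by
    nlinarith
  have hbox : ∀ t ∈ bx (fr.side j Q R), ∀ i, |(((fr.mo Q i : ℤ) * t i : ℤ) : ℝ)| ≤ 1 * R ^ fr.w i := by
    intro t ht i
    have hm : (0 : ℝ) < fr.mo Q i := by exact_mod_cast RepAux.mo_pos fr hQ i
    have h1 := mem_bx.mp ht i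
    have h2 : (fr.side j Q R i : ℝ) ≤ R ^ fr.w i / (fr.mo Q i : ℝ) := by
      unfold side
      split_ifs with h
      · exact Nat.floor_le (div_nonneg (hR0 i) hm.le)
      · simp only [Nat.cast_zero]
        exact div_nonneg (hR0 i) hm.le
    have h3 : |(t i : ℝ)| ≤ (fr.side j Q R i : ℝ) := by exact_mod_cast h1
    push_cast
    rw [abs_mul, abs_of_pos hm, one_mul]
    calc (fr.mo Q i : ℝ) * |(t i : ℝ)| ≤ fr.mo Q i * (R ^ fr.w i / (fr.mo Q i : ℝ)) :=
          mul_le_mul_of_nonneg_left (h3.trans h2) hm.le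
      _ = R ^ fr.w i := by field_simp
  constructor
  · refine le_trans ?_ hfin
    have h := RepAux.shift fr U hQ hR hdel (K1 := 1 + fr.C0) (by linarith)
      (fun t i => a i + fr.p a (fun i => (fr.mo Q i : ℤ) * t i) i)
      (fun t t' i hh => by
        show a i + fr.p a (fun i => (fr.mo Q i : ℤ) * t i) i =
          a i + fr.p a (fun i => (fr.mo Q i : ℤ) * t' i) i
        rw [fr.p_dep a a _ (fun i => (fr.mo Q i : ℤ) * t' i) i
          fun k hk => ⟨rfl, by show _ * t k = _ * t' k; rw [hh k hk]⟩])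
      (fun t i => dvd_add (hadvd i) (fr.p_dvd Q _ _ (Or.inl hadvd) i))
      (fun t ht i => by
        have h1 := hasize i
        have h2 := fr.p_size R del 1 a (fun i => (fr.mo Q i : ℤ) * t i) hR hdel hdel1 zero_le_one le_rfl
          hasize (hbox t ht) i
        rw [mul_one] at h2
        push_cast
        refine (abs_add_le _ _).trans ?_
        calc _ ≤ del * R ^ fr.w i + fr.C0 * del * R ^ fr.w i := add_le_add h1 h2
          _ = (1 + fr.C0) * del * R ^ fr.w i := by ring)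
      (fun t i hi => by
        show a i + fr.p a (fun i => (fr.mo Q i : ℤ) * t i) i = 0
        rw [ha0 i (by omega), fr.p_wt (j + 1) 0 a _ ha0 (fun k hk => absurd hk (Nat.not_lt_zero _)) i
          (by omega), add_zero])
    refine le_trans (le_of_eq ?_) h
    congr 2
    unfold Bj BM
    rw [RepAux.mul_avg]
    apply avg_congr
    intro t ht
    rw [← Uo_mul, fr.mul]
    congr 2
    funext i
    simp only [Pi.add_apply]
    ring
  · refine le_trans ?_ hfin
    have h := RepAux.shift fr U hQ hR hdel (K1 := 1 + fr.C0) (by linarith)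
      (fun t i => a i + fr.p (fun i => (fr.mo Q i : ℤ) * t i) a i)
      (fun t t' i hh => by
        show a i + fr.p (fun i => (fr.mo Q i : ℤ) * t i) a i =
          a i + fr.p (fun i => (fr.mo Q i : ℤ) * t' i) a i
        rw [fr.p_dep _ (fun i => (fr.mo Q i : ℤ) * t' i) a a i
          fun k hk => ⟨by show _ * t k = _ * t' k; rw [hh k hk], rfl⟩])
      (fun t i => dvd_add (hadvd i) (fr.p_dvd Q _ _ (Or.inr hadvd) i))
      (fun t ht i => by
        have h1 := hasize i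
        have h2 := fr.p_size R 1 del (fun i => (fr.mo Q i : ℤ) * t i) a hR zero_le_one le_rfl hdel hdel1
          (hbox t ht) hasize i
        rw [one_mul] at h2
        push_cast
        refine (abs_add_le _ _).trans ?_
        calc _ ≤ del * R ^ fr.w i + fr.C0 * del * R ^ fr.w i := add_le_add h1 h2
          _ = (1 + fr.C0) * del * R ^ fr.w i := by ring)
      (fun t i hi => by
        show a i + fr.p (fun i => (fr.mo Q i : ℤ) * t i) a i = 0
        rw [ha0 i (by omega), fr.p_wt 0 (j + 1) _ a (fun k hk => absurd hk (Nat.not_lt_zero _)) ha0 i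
          (by omega), add_zero])
    refine le_trans (le_of_eq ?_) h
    congr 2
    unfold Bj BM
    rw [RepAux.avg_mul]
    apply avg_congr
    intro t ht
    rw [← Uo_mul, fr.mul]
    congr 2
    funext i
    simp only [Pi.add_apply]
    ring

theorem absorb : ∃ K : ℝ, 1 ≤ K ∧ ∀ (j Q Q' : ℕ) (R rho : ℝ), 1 ≤ Q → 1 ≤ Q' → Q ∣ Q' →
    1 ≤ rho → rho ≤ R →
    ‖fr.Bj U j Q R * fr.Bj U j Q' rho - fr.Bj U j Q R‖ ≤ K * (rho / R) ∧
    ‖fr.Bj U j Q' rho * fr.Bj U j Q R - fr.Bj U j Q R‖ ≤ K * (rho / R) := by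
  obtain ⟨K, hK, hni⟩ := fr.ni U
  refine ⟨K, hK, fun j Q Q' R rho hQ hQ' hdvd hrho hR => ?_⟩
  have hR1 : 1 ≤ R := hrho.trans hR
  have hR0 : 0 < R := by linarith
  have hd0 : 0 ≤ rho / R := div_nonneg (by linarith) hR0.le
  have hd1 : rho / R ≤ 1 := (div_le_one hR0).mpr hR
  have hmem : ∀ t ∈ bx (fr.side j Q' rho), kap fr.c (fun i => (fr.mo Q' i : ℤ) * t i) ∈
      fr.Sm (j + 1) Q R (rho / R) := by
    intro t ht
    have h1 := fr.mem_box hQ' hrho ht
    have h2 := fr.Sm_dvd hdvd h1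
    have h3 := fr.Sm_up hrho hR zero_le_one h2
    rwa [one_mul] at h3
  have hne := bx_nonempty (fr.side j Q' rho)
  have key : ∀ t ∈ bx (fr.side j Q' rho), _ := fun t ht =>
    hni j Q R (rho / R) _ hQ hR1 hd0 hd1 (hmem t ht)
  constructor
  · have e : fr.Bj U j Q R * fr.Bj U j Q' rho - fr.Bj U j Q R =
        avg (bx (fr.side j Q' rho)) (fun t =>
          fr.Bj U j Q R * Uo U (kap fr.c (fun i => (fr.mo Q' i : ℤ) * t i)) - fr.Bj U j Q R) := by
      rw [avg_sub, avg_const hne, ← RepAux.mul_avg]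
      rfl
    rw [e]
    exact norm_avg_le_const (mul_nonneg (by linarith) hd0) fun t ht => (key t ht).2
  · have e : fr.Bj U j Q' rho * fr.Bj U j Q R - fr.Bj U j Q R =
        avg (bx (fr.side j Q' rho)) (fun t =>
          Uo U (kap fr.c (fun i => (fr.mo Q' i : ℤ) * t i)) * fr.Bj U j Q R - fr.Bj U j Q R) := by
      rw [avg_sub, avg_const hne, ← RepAux.avg_mul]
      rfl
    rw [e]
    exact norm_avg_le_const (mul_nonneg (by linarith) hd0) fun t ht => (key t ht).1

lemma norm_Bj_le (j Q : ℕ) (R : ℝ) : ‖fr.Bj U j Q R‖ ≤ 1 := norm_BM_le _ _ _ _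

lemma bj_top (Q : ℕ) (R : ℝ) : fr.Bj U fr.D Q R = 1 := by
  have h0 : fr.side fr.D Q R = fun _ => 0 := by
    funext i
    unfold side
    rw [if_neg (not_lt.mpr (fr.w_le i))]
  have h1 : bx (fr.side fr.D Q R) = {0} := by
    ext t
    rw [mem_bx, h0, Finset.mem_singleton]
    constructor
    · intro h
      funext i
      have := h i
      simp only [Nat.cast_zero, abs_nonpos_iff] at this
      exact this
    · rintro rfl i
      simp
  unfold Bj BM
  rw [h1, avg_singleton]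
  have h2 : (fun i => (fr.mo Q i : ℤ) * (0 : Fin fr.r → ℤ) i) = 0 := by
    funext i
    simp
  rw [h2, kap_zero, Uo_one]

end Frame

end Pool.Nil
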