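import Pool.Agent.Nil.MS
import Pool.Agent.Nil.Rep

set_option autoImplicit false

/-!
# Nil: the Koopman representation

`G` acts on `α` by measure preserving permutations `φ x`; `koop φ x f = f ∘ φ x⁻¹`.

PROOFS.  `Lp.compMeasurePreserving` / `Lp.compMeasurePreservingₗᵢ` (`Mathlib.MeasureTheory.Function.LpSpace...`); the map for
`x⁻¹` is the inverse (`LinearIsometryEquiv.ofSurjective` or an explicit equivalence), `koop` is a homomorphism:
`f ∘ φ (x y)⁻¹ = (f ∘ φ y⁻¹) ∘ φ x⁻¹`; all identities are identities almost everywhere, pulled back along measure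
preserving maps (`MeasurePreserving.quasiMeasurePreserving`, `.ae_eq_comp`).
`avg_koop_ae`: finite sums and scalar multiples in `Lp` (`Lp.coeFn_add`, `Lp.coeFn_smul`).
-/

namespace Pool.Nil

open Finset MeasureTheory Filter Topology
open scoped ENNReal NNReal

variable {G : Type*} [Group G] {α : Type*} [MeasurableSpace α] {μ : Measure α}

namespace KoopAux

/-- composition with the inverse -/
noncomputable def cm (φ : G →* Equiv.Perm α) (hφ : ∀ x, MeasurePreserving (φ x) μ μ) (x : G) :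
    Lp ℂ 2 μ →ₗᵢ[ℂ] Lp ℂ 2 μ := Lp.compMeasurePreservingₗᵢ ℂ (φ x⁻¹) (hφ x⁻¹)

lemma cm_ae (φ : G →* Equiv.Perm α) (hφ : ∀ x, MeasurePreserving (φ x) μ μ) (x : G)
    (f : Lp ℂ 2 μ) : ∀ᵐ y ∂μ, cm φ hφ x f y = f (φ x⁻¹ y) :=
  Lp.coeFn_compMeasurePreserving f (hφ x⁻¹)

lemma cm_mul (φ : G →* Equiv.Perm α) (hφ : ∀ x, MeasurePreserving (φ x) μ μ) (x y : G)
    (f : Lp ℂ 2 μ) : cm φ hφ (x * y) f = cm φ hφ x (cm φ hφ y f) := by
  apply Lp.ext
  filter_upwards [cm_ae φ hφ (x * y) f, cm_ae φ hφ x (cm φ hφ y f),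
    (hφ x⁻¹).quasiMeasurePreserving.ae (cm_ae φ hφ y f)] with z h1 h2 h3
  rw [h1, h2, h3]
  congr 1
  simp [mul_inv_rev, map_mul, Equiv.Perm.mul_apply]

lemma cm_one (φ : G →* Equiv.Perm α) (hφ : ∀ x, MeasurePreserving (φ x) μ μ)
    (f : Lp ℂ 2 μ) : cm φ hφ 1 f = f := by
  apply Lp.ext
  filter_upwards [cm_ae φ hφ 1 f] with z h1
  rw [h1]
  simp

/-- the isometry of `x` -/
noncomputable def cme (φ : G →* Equiv.Perm α) (hφ : ∀ x, MeasurePreserving (φ x) μ μ) (x : G) :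
    Lp ℂ 2 μ ≃ₗᵢ[ℂ] Lp ℂ 2 μ where
  toLinearEquiv :=
    { (cm φ hφ x).toLinearMap with
      invFun := cm φ hφ x⁻¹
      left_inv := fun f => by
        change cm φ hφ x⁻¹ (cm φ hφ x f) = f
        rw [← cm_mul, inv_mul_cancel, cm_one]
      right_inv := fun f => by
        change cm φ hφ x (cm φ hφ x⁻¹ f) = f
        rw [← cm_mul, mul_inv_cancel, cm_one] }
  norm_map' := fun f => (cm φ hφ x).norm_map f

lemma cme_apply (φ : G →* Equiv.Perm α) (hφ : ∀ x, MeasurePreserving (φ x) μ μ) (x : G)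
    (f : Lp ℂ 2 μ) : cme φ hφ x f = cm φ hφ x f := rfl

end KoopAux

open KoopAux

theorem exists_koop (φ : G →* Equiv.Perm α) (hφ : ∀ x, MeasurePreserving (φ x) μ μ) :
    ∃ U : G →* (Lp ℂ 2 μ ≃ₗᵢ[ℂ] Lp ℂ 2 μ), ∀ (x : G) (f : Lp ℂ 2 μ),
      ∀ᵐ y ∂μ, U x f y = f (φ x⁻¹ y) := by
  refine ⟨{ toFun := cme φ hφ, map_one' := ?_, map_mul' := ?_ }, ?_⟩
  · ext1 f
    rw [cme_apply, cm_one]
    rfl
  · intro x y
    ext1 f
    rw [cme_apply, cm_mul]
    rfl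
  · intro x f
    exact cm_ae φ hφ x f

/-- the Koopman representation -/
noncomputable def koop (φ : G →* Equiv.Perm α) (hφ : ∀ x, MeasurePreserving (φ x) μ μ) :
    G →* (Lp ℂ 2 μ ≃ₗᵢ[ℂ] Lp ℂ 2 μ) := (exists_koop φ hφ).choose

lemma koop_ae (φ : G →* Equiv.Perm α) (hφ : ∀ x, MeasurePreserving (φ x) μ μ) (x : G)
    (f : Lp ℂ 2 μ) : ∀ᵐ y ∂μ, koop φ hφ x f y = f (φ x⁻¹ y) :=
  (exists_koop φ hφ).choose_spec x f

namespace KoopAux

lemma sum_apply_ae {ι : Type*} (F : ι → Lp ℂ 2 μ) (g : ι → α → ℂ) (s : Finset ι)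
    (h : ∀ i ∈ s, ∀ᵐ y ∂μ, F i y = g i y) : ∀ᵐ y ∂μ, (∑ i ∈ s, F i) y = ∑ i ∈ s, g i y := by
  classical
  induction s using Finset.induction_on with
  | empty =>
    filter_upwards [Lp.coeFn_zero ℂ 2 μ] with y hy
    simp only [Finset.sum_empty]
    rw [hy]
    rfl
  | insert i s hi ih =>
    filter_upwards [Lp.coeFn_add (F i) (∑ i ∈ s, F i), h i (Finset.mem_insert_self i s),
      ih (fun j hj => h j (Finset.mem_insert_of_mem hj))] with y h1 h2 h3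
    rw [Finset.sum_insert hi, Finset.sum_insert hi, h1, Pi.add_apply, h2, h3]

end KoopAux

lemma avg_koop_ae (φ : G →* Equiv.Perm α) (hφ : ∀ x, MeasurePreserving (φ x) μ μ) {ι : Type*}
    (s : Finset ι) (z : ι → G) (f : Lp ℂ 2 μ) :
    ∀ᵐ y ∂μ, (avg s (fun i => Uo (koop φ hφ) (z i)) f) y = avg s (fun i => f (φ (z i)⁻¹ y)) := by
  have e : avg s (fun i => Uo (koop φ hφ) (z i)) f =
      ((s.card : ℝ)⁻¹) • ∑ i ∈ s, koop φ hφ (z i) f := by
    unfold avg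
    rw [smul_apply, _root_.sum_apply]
    rfl
  rw [e]
  filter_upwards [Lp.coeFn_smul ((s.card : ℝ)⁻¹) (∑ i ∈ s, koop φ hφ (z i) f),
    sum_apply_ae (fun i => koop φ hφ (z i) f) (fun i y => f (φ (z i)⁻¹ y)) s
      (fun i _ => koop_ae φ hφ (z i) f)] with y h1 h2
  rw [h1, Pi.smul_apply, h2]
  rfl

/-- domination by averages of the absolute value -/
lemma avg_koop_enorm (φ : G →* Equiv.Perm α) (hφ : ∀ x, MeasurePreserving (φ x) μ μ) {ι : Type*}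
    (s : Finset ι) (z : ι → G) (f : Lp ℂ 2 μ) :
    ∀ᵐ y ∂μ, ‖(avg s (fun i => Uo (koop φ hφ) (z i)) f) y‖ₑ ≤
      (s.card : ℝ≥0∞)⁻¹ * ∑ i ∈ s, ‖f (φ (z i)⁻¹ y)‖ₑ := by
  filter_upwards [avg_koop_ae φ hφ s z f] with y hy
  rw [hy]
  unfold avg
  rw [enorm_smul]
  refine mul_le_mul' ?_ (enorm_sum_le _ _)
  rcases Nat.eq_zero_or_pos s.card with h | h
  · simp [h]
  · rw [enorm_inv (by positivity)]
    simp

end Pool.Nil
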