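import Pool.Agent.Nil.MulCo

set_option autoImplicit false

/-!
# Nil: frames

`Frame g` collects everything about the group and the polynomial sequence `g` which is used in the
analysis.

PROOF of `exists_frame`.  Let `G' = Subgroup.closure (range g)`, `g' : ℤ → G'` and `Fc' i = (Fc i).comap subtype`
(a filtration, `Fc' N = ⊥`, `g'` polynomial of level `0` for `Fc'`).  Replace `Fc' 0` by `⊤` if necessary (`g n ∈ Fc 0`
for all `n`, so `G' ≤ Fc 0` and `Fc' 0 = ⊤`).  Let `F = FB (bb g')`.  `isSeq_FB`: `IsSeq F 0 g'`.  The values of `g'` lie in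
`closure {b k | 1 ≤ k}` (`FB b 0 = FB b 1 ≤` that closure by induction on `Br`), so `hgen` of `filt_FB` holds and
`F` is a filtration with `F 0 = F 1 = ⊤`, `F N = ⊥` (`FB_le`).  Let `D = N` (so `F (D + 1) = ⊥`).  For `1 ≤ u ≤ D` let `S u`
be the finite set of T-words of weight `u` (`finite_Ta`); list all pairs `(u, x)`, `x ∈ S u`, in order of
increasing `u` : this gives `r, c, w` with `w` monotone, `Ta g' (w i) (c i)` and every T-word of weight
`1 ≤ u ≤ D` is some `c i` with `w i = u`.  `Adapted F D c w` by `Ta_mem`, `gen_Ta`.  `W = D!`, `s = 2 ^ D`.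
Collect `mul_coord`, `seq_coord`, `kc_coord` (choose the directions for every `i`), take the maximum of the
constants and `1`.  Finally push everything to `G` along `Subgroup.subtype` (`kap`, `ddl`, `word` commute with
homomorphisms).
-/

namespace Pool.Nil

open Finset

variable {G : Type*} [Group G]

namespace Frame

variable {G' : Type*} [Group G']

lemma kap_map (φ : G' →* G) {r : ℕ} (c : Fin r → G') (x : Fin r → ℤ) :
    φ (kap c x) = kap (fun i => φ (c i)) x := by
  unfold kap
  rw [map_list_prod, List.map_ofFn]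
  congr 2
  funext i
  rw [Function.comp_apply, map_zpow]

lemma ddl_map (φ : G' →* G) {s : ℕ} (L : List (Fin s × ℤ)) :
    ∀ (Wd : (Fin s → ℤ) → G') (t : Fin s → ℤ),
      φ (ddl L Wd t) = ddl L (fun t => φ (Wd t)) t := by
  induction L with
  | nil => exact fun Wd t => rfl
  | cons p L ih =>
    intro Wd t
    simp only [ddl]
    rw [ih]
    simp only [map_mul, map_inv]

lemma word_map (φ : G' →* G) (g : ℤ → G') (s : ℕ) (n : ℤ) (m t : Fin s → ℤ) :
    φ (word g s n m t) = word (fun n => φ (g n)) s n m t := by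
  unfold word
  rw [map_list_prod, List.map_ofFn]
  congr 2
  funext i
  rw [Function.comp_apply, map_mul, map_inv]

/-- push forward of a frame -/
def push (φ : G' →* G) {g : ℤ → G'} (fr : Frame g) : Frame (fun n => φ (g n)) where
  r := fr.r
  D := fr.D
  W := fr.W
  s := fr.s
  e := fr.e
  w := fr.w
  c := fun i => φ (fr.c i)
  p := fr.p
  ga := fr.ga
  dirs := fr.dirs
  C0 := fr.C0
  one_le_C0 := fr.one_le_C0
  W_pos := fr.W_pos
  W_dvd := fr.W_dvd
  s_eq := fr.s_eq
  w_mono := fr.w_mono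
  one_le_w := fr.one_le_w
  w_le := fr.w_le
  mul := fun x y => by
    rw [← kap_map, ← kap_map, ← kap_map, ← map_mul, fr.mul]
  p_dep := fr.p_dep
  p_dvd := fr.p_dvd
  p_size := fr.p_size
  p_wt := fr.p_wt
  seq := fun n => by
    rw [← kap_map, ← fr.seq]
  dirs_len := fr.dirs_len
  kc := fun i n m t a ha => by
    obtain ⟨y, h1, h2, h3, h4⟩ := fr.kc i n m t a ha
    refine ⟨y, ?_, h2, h3, h4⟩
    have e : (word (fun n => φ (g n)) fr.s n m) = fun t => φ (word g fr.s n m t) := by
      funext t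
      rw [word_map]
    rw [e, ← ddl_map, h1, map_mul, map_zpow, kap_map]

/-- the list of the T-words -/
lemma exists_list (g : ℤ → G) (D : ℕ) :
    ∃ (r : ℕ) (c : Fin r → G) (w : Fin r → ℕ), Monotone w ∧ (∀ i, 1 ≤ w i) ∧ (∀ i, w i ≤ D) ∧
      (∀ i, Ta g (w i) (c i)) ∧ ∀ u, 1 ≤ u → u ≤ D → ∀ x, Ta g u x → ∃ i, w i = u ∧ x = c i := by
  classical
  obtain ⟨L, hL⟩ : ∃ L : List (ℕ × G), L = (List.range' 1 D).flatMap fun u =>
    (finite_Ta g u).toFinset.toList.map fun x => (u, x) := ⟨_, rfl⟩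
  have hmem : ∀ q : ℕ × G, q ∈ L ↔ (1 ≤ q.1 ∧ q.1 ≤ D) ∧ Ta g q.1 q.2 := by
    rintro ⟨u, x⟩
    rw [hL, List.mem_flatMap]
    constructor
    · rintro ⟨v, hv, hx⟩
      rw [List.mem_map] at hx
      obtain ⟨y, hy, hyx⟩ := hx
      rw [Prod.mk.injEq] at hyx
      obtain ⟨rfl, rfl⟩ := hyx
      rw [Finset.mem_toList, Set.Finite.mem_toFinset] at hy
      rw [List.mem_range'_1] at hv
      exact ⟨⟨hv.1, by omega⟩, hy⟩
    · rintro ⟨⟨h1, h2⟩, h3⟩
      refine ⟨u, ?_, ?_⟩
      · rw [List.mem_range'_1]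
        exact ⟨h1, by simp only at h2; omega⟩
      · rw [List.mem_map]
        refine ⟨x, ?_, rfl⟩
        rw [Finset.mem_toList, Set.Finite.mem_toFinset]
        exact h3
  have hpw : L.Pairwise fun a b => a.1 ≤ b.1 := by
    rw [hL, List.pairwise_flatMap]
    constructor
    · intro u _
      rw [List.pairwise_map]
      exact List.pairwise_of_forall fun _ _ => le_rfl
    · refine (List.pairwise_lt_range' (s := 1) (n := D) (step := 1)).imp ?_
      intro a b hab x hx y hy
      rw [List.mem_map] at hx hy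
      obtain ⟨_, _, rfl⟩ := hx
      obtain ⟨_, _, rfl⟩ := hy
      exact hab.le
  have hget : ∀ i : Fin L.length, L.get i ∈ L := fun i => List.get_mem L i
  refine ⟨L.length, fun i => (L.get i).2, fun i => (L.get i).1, ?_, ?_, ?_, ?_, ?_⟩
  · intro i j hij
    rcases hij.eq_or_lt with h | h
    · rw [h]
    · exact List.pairwise_iff_get.1 hpw i j h
  · exact fun i => ((hmem _).1 (hget i)).1.1
  · exact fun i => ((hmem _).1 (hget i)).1.2
  · exact fun i => ((hmem _).1 (hget i)).2
  · intro u h1 h2 x hx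
    have h3 : (u, x) ∈ L := (hmem _).2 ⟨⟨h1, h2⟩, hx⟩
    obtain ⟨i, hi⟩ := List.get_of_mem h3
    refine ⟨i, ?_, ?_⟩
    · show (L.get i).1 = u
      rw [hi]
    · show x = (L.get i).2
      rw [hi]

theorem main {Fc : ℕ → Subgroup G} (hF : Filt Fc) (h0 : Fc 0 = ⊤) {N : ℕ} (hN : Fc N = ⊥)
    (g : ℤ → G) (hg : IsSeq Fc 0 g) (hg0 : g 0 = 1)
    (hgen : Subgroup.closure (Set.range g) = ⊤) : Nonempty (Frame g) := by
  have hs : IsSeq (FB (bb g)) 0 g := isSeq_FB hF h0 hN hg hg0 0
  have htop : FB (bb g) 0 = ⊤ := by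
    rw [eq_top_iff, ← hgen, Subgroup.closure_le]
    rintro _ ⟨n, rfl⟩
    exact hs.val n
  have hiter : ∀ k, IsSeq Fc k (dz^[k] g) := by
    intro k
    induction k with
    | zero => exact hg
    | succ k ih =>
      rw [Function.iterate_succ_apply']
      exact ih.diff
  have hb : ∀ k, bb g k ∈ Fc k := fun k => (hiter k).val 0
  have hgen' : Subgroup.closure {x | ∃ k, 1 ≤ k ∧ x = bb g k} = ⊤ := by
    rw [eq_top_iff, ← htop]
    unfold FB
    rw [Subgroup.closure_le]
    rintro x ⟨i, -, hx⟩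
    induction hx with
    | base k hk => exact Subgroup.subset_closure ⟨k, hk, rfl⟩
    | comm _ _ h1 h2 =>
      exact mul_mem (mul_mem (mul_mem h1 h2) (inv_mem h1)) (inv_mem h2)
  have hFB : Filt (FB (bb g)) := filt_FB hF hb hN hgen'
  have hbot : FB (bb g) (N + 1) = ⊥ := by
    rw [eq_bot_iff, ← hN]
    exact (FB_le hF hb (N + 1)).trans (hF.anti N)
  obtain ⟨r, c, w, hw, h1, hD, hTa, hall⟩ := exists_list g N
  have hA : Adapted (FB (bb g)) N c w :=
    { filt := hFB
      bot := hbot
      mono := hw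
      one_le := h1
      le_D := hD
      mem := fun i => Ta_mem hFB htop hs (hTa i)
      gen := fun u hu hu' => by
        refine (gen_Ta hFB htop hs u hu).trans (sup_le_sup_right ?_ _)
        refine Subgroup.closure_mono fun x hx => ?_
        exact hall u hu hu' x hx }
  have hW : ∀ k : ℕ, 1 ≤ k → k ≤ N → k ∣ N.factorial := fun k hk hk' =>
    Nat.dvd_factorial hk hk'
  have hNs : N ≤ 2 ^ N := Nat.lt_two_pow_self.le
  obtain ⟨p, C, hC, hmul, hdep, hdvd, hsize, hwt⟩ := mul_coord hA hW
  obtain ⟨ga, hga⟩ := seq_coord hA FB_one hs hg0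
  choose dirs Ck hlen hCk hkc using fun i =>
    kc_coord hA FB_one hW hs hg0 hNs i (hTa i)
  have hsum : 0 ≤ ∑ i, Ck i := Finset.sum_nonneg fun i _ => hCk i
  refine ⟨{ r := r, D := N, W := N.factorial, s := 2 ^ N, e := N, w := w, c := c, p := p,
            ga := ga, dirs := dirs, C0 := 1 + C + ∑ i, Ck i, one_le_C0 := by linarith,
            W_pos := Nat.one_le_iff_ne_zero.2 (Nat.factorial_ne_zero N), W_dvd := hW,
            s_eq := rfl, w_mono := hw, one_le_w := h1, w_le := hD, mul := hmul, p_dep := hdep,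
            p_dvd := hdvd, p_size := ?_, p_wt := hwt, seq := hga, dirs_len := hlen,
            kc := ?_ }⟩
  · intro R del del' x y hR hd hd1 hd' hd1' hx hy i
    refine (hsize R del del' x y hR hd hd1 hd' hd1' hx hy i).trans ?_
    have h2 : 0 ≤ del * del' := mul_nonneg hd hd'
    have h3 : 0 ≤ R ^ w i := pow_nonneg (by linarith) _
    exact mul_le_mul_of_nonneg_right (mul_le_mul_of_nonneg_right (by linarith) h2) h3
  · intro i n m t a ha
    obtain ⟨y, hy1, hy2, hy3, hy4⟩ := hkc i n m t a ha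
    refine ⟨y, hy1, hy2, hy3, fun M ze hM hz hz1 hn hm ht hb j => ?_⟩
    refine (hy4 M ze hM hz hz1 hn hm ht hb j).trans ?_
    have h3 : 0 ≤ M ^ w j := pow_nonneg (by linarith) _
    have h4 : Ck i ≤ ∑ i, Ck i := Finset.single_le_sum (fun i _ => hCk i) (Finset.mem_univ i)
    exact mul_le_mul_of_nonneg_right (mul_le_mul_of_nonneg_right (by linarith) hz) h3

/-- sequences in a subgroup -/
lemma isSeq_comap (φ : G' →* G) {Fc : ℕ → Subgroup G} {g : ℤ → G'} {i : ℕ}
    (h : IsSeq Fc i (fun n => φ (g n))) : IsSeq (fun i => (Fc i).comap φ) i g := by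
  intro k
  have h1 := h k
  clear h
  induction k generalizing i g with
  | zero => exact fun n => h1 n
  | succ k ih =>
    refine ⟨fun n => h1.1 n, ih ?_⟩
    have e : (fun n => φ (dz g n)) = dz (fun n => φ (g n)) := by
      funext n
      simp only [dz, map_mul, map_inv]
    rw [e]
    exact h1.2

end Frame

theorem exists_frame {Fc : ℕ → Subgroup G} (hF : Filt Fc) {N : ℕ} (hN : Fc N = ⊥) (g : ℤ → G)
    (hg : IsSeq Fc 0 g) (hg0 : g 0 = 1) : Nonempty (Frame g) := by
  have hmem : ∀ n, g n ∈ Subgroup.closure (Set.range g) := fun n =>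
    Subgroup.subset_closure ⟨n, rfl⟩
  obtain ⟨fr⟩ := Frame.main (G := Subgroup.closure (Set.range g))
    (Fc := fun i => (Fc i).comap (Subgroup.closure (Set.range g)).subtype)
    ⟨fun i x hx => hF.anti i hx, fun i j x hx y hy => hF.comm i j _ hx _ hy⟩
    (by
      rw [eq_top_iff]
      intro x _
      have h1 : Subgroup.closure (Set.range g) ≤ Fc 0 := by
        rw [Subgroup.closure_le]
        rintro _ ⟨n, rfl⟩
        exact hg.val n
      exact h1 x.2)
    (N := N)
    (by
      rw [eq_bot_iff]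
      intro x hx
      have h1 : (x : G) ∈ Fc N := hx
      rw [hN, Subgroup.mem_bot] at h1
      rw [Subgroup.mem_bot]
      exact Subtype.ext h1)
    (fun n => ⟨g n, hmem n⟩)
    (Frame.isSeq_comap (Subgroup.closure (Set.range g)).subtype hg)
    (Subtype.ext hg0)
    (by
      rw [eq_top_iff]
      rintro ⟨x, hx⟩ -
      induction hx using Subgroup.closure_induction with
      | mem y hy =>
        obtain ⟨n, rfl⟩ := hy
        exact Subgroup.subset_closure ⟨n, rfl⟩
      | one => exact one_mem _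
      | mul a b ha hb h1 h2 => exact mul_mem h1 h2
      | inv a ha h1 => exact inv_mem h1)
  exact ⟨fr.push (Subgroup.closure (Set.range g)).subtype⟩

end Pool.Nil
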