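import Pool.Agent.Nil.Level

set_option autoImplicit false

/-!
# Nil: the inverse theorem

PROOF of `claim_zero`: `‖Aw (Bj 0 Q R v)‖ ≤ ‖Bj 0 Q R v‖ ≤ ‖Bj 0 Q' rho v‖ + K (rho / R) ‖v‖` with `Q' = (Q lam)^C`, `q = 1`
(`absorb`, `C ≥ 1`), and `K rho / R ≤ K X rho / N ≤ K X^(1 - C) ≤ X⁻¹` for `C` large (`K ≤ 2^c ≤ X^c`).

PROOF of `claim_step` (`Claim (j - 1) → Claim j`).  Let `a, b, C1` be from `level j`, `C'` from `Claim (j - 1)`.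
Given `X, Q, lam, M, n, N, R, v`; `u = Bj j Q R v`; `X1 = X^3`, `mu = md W D Q 1`, `lam1 = lam mu`,
`M1 = ⌊N / (X1^a lam1)⌋` (w.l.o.g. `a ≥ 2`), so `X1^a lam1 M1 ≤ N ≤ X1^(a+1) lam1 M1` and `mu M1 ≤ X M / X1^a ≤ M`.
(1) `avg_window`: `‖Aw n lam M u‖ ≤ 4 X X1^(-a) ‖v‖ + max_{m0} ‖Aw n1 lam1 M1 u‖`, `n1 = n + lam m0`, `m0 ≤ M - mu M1`
 (`(g n)⁻¹ g (n + lam (m0 + mu m1)) = ((g n)⁻¹ g n1) ((g n1)⁻¹ g (n1 + lam1 m1))`); `n1 + lam1 M1 ≤ N`.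
(2) `level` with `X1`: `q1 ≤ X1^C1`, `‖Aw n1 lam1 M1 u‖ ≤ X1⁻¹ ‖v‖ + X1^C1 ‖Aw n1 lam1 M1 v'‖`,
 `v' = Sj j (q1 lam1^j) (N / X1^b) u`.
(3) `Q2 = q1 lam1^D Q`, `R2 = N / X1^b2`, `b2 > b` large: by `sp_absorb` (`q1 lam1^j ∣ Q2 ∣ md W D Q2 j`):
 `‖Bj (j-1) Q2 R2 v' - v'‖ ≤ K X1^(b - b2) ‖v‖`.
(4) `Claim (j - 1)` for `X2 = X1^b3`, `b3 ≥ b2, a + 1` large, `Q2, lam1, M1, n1, N, R2` and the vector `v'`:
 `q2 ≤ X2^C'`, `‖Aw n1 lam1 M1 (Bj (j-1) Q2 R2 v')‖ ≤ X2⁻¹ ‖v'‖ + X2^C' ‖Bj 0 Q3 rho2 v'‖` for `rho2 = N / X2^C'`,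
 `Q3 = q2 (Q2 lam1)^C'`.
(5) `v' = avg_x Uo x v` over `x = kap (q1 lam1^j t) kap (mo t')` in `Sa 1 N K ⊆ Sa 1 (K N) 1`; `conj_absorb` (with `K N` in
 place of `N`): for `rho ≤ rho2` and `Q3 ∣ Q4`:
 `‖Bj 0 Q3 rho2 v'‖ ≤ ‖Bj 0 Q4 rho v‖ + K' (rho / N) (X2^C')^D ‖v‖`.
(6) `Q4 = q (Q lam)^C`, `q = q2 q1^C' W^(..)` : `Q3 = q2 (q1 (lam W^(D-1) Q)^D Q (lam W^(D-1) Q))^C'` divides `Q4` if
 `C ≥ (D + 2) C'`; `q ≤ X^C` if `C` is large (`W ≤ 2^W ≤ X^W`).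
(7) All errors: `4 X X1^(-a) + X1⁻¹ + X1^C1 (K X1^(b - b2) + X2⁻¹ + X2^C' K' (rho / N) X2^(C' D)) ≤ X⁻¹` when first
 `b2`, then `b3`, then `C` (`rho / N ≤ X^(-C)`) are chosen large.
The lower bounds for `N` needed for `level` and `Claim (j - 1)` hold if `C` is large, as `Q2 lam1 X2 ≤ (Q lam X)^(..)`.

PROOF of `claim_all`: induction.  `inverse`: `Claim D` with `Q = 1`, `n = 0`, `R = N = lam M` and `bj_top`; `g 0 = 1`.
-/

namespace Pool.Nil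

open Finset

variable {G : Type*} [Group G] {H : Type*} [NormedAddCommGroup H] [InnerProductSpace ℂ H]
  [CompleteSpace H]

namespace InvAux

lemma exists_pow (K : ℝ) : ∃ k : ℕ, ∀ X : ℝ, 2 ≤ X → K ≤ X ^ k := by
  obtain ⟨k, hk⟩ := pow_unbounded_of_one_lt K (one_lt_two : (1 : ℝ) < 2)
  exact ⟨k, fun X hX => hk.le.trans (pow_le_pow_left₀ (by norm_num) hX k)⟩

lemma nat_le_pow (W : ℕ) {X : ℝ} (hX : 2 ≤ X) : (W : ℝ) ≤ X ^ W := by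
  have h1 : (W : ℝ) ≤ 2 ^ W := by exact_mod_cast (Nat.lt_two_pow_self (n := W)).le
  exact h1.trans (pow_le_pow_left₀ (by norm_num) hX W)

omit [CompleteSpace H] in
lemma avg_apply {α : Type*} (s : Finset α) (F : α → H →L[ℂ] H) (v : H) :
    (avg s F) v = avg s (fun a => F a v) := by
  unfold avg
  rw [smul_apply, _root_.sum_apply]

omit [CompleteSpace H] in
lemma clm_avg {α : Type*} (T : H →L[ℂ] H) (s : Finset α) (f : α → H) :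
    T (avg s f) = avg s (fun a => T (f a)) :=
  map_avg (T.restrictScalars ℝ) s f

lemma norm_comp_BM_le (U : G →* (H ≃ₗᵢ[ℂ] H)) {r : ℕ} (c : Fin r → G) (q M : Fin r → ℕ)
    (T : H →L[ℂ] H) (v : H) {C : ℝ} (hC : 0 ≤ C)
    (h : ∀ t ∈ bx M, ‖T (Uo U (kap c (fun i => (q i : ℤ) * t i)) v)‖ ≤ C) :
    ‖T (BM U c q M v)‖ ≤ C := by
  unfold BM
  rw [avg_apply, clm_avg]
  exact norm_avg_le_const hC h

lemma norm_clm_le {T : H →L[ℂ] H} (hT : ‖T‖ ≤ 1) (v : H) : ‖T v‖ ≤ ‖v‖ := by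
  have h1 := T.le_opNorm v
  have h2 : ‖T‖ * ‖v‖ ≤ 1 * ‖v‖ := mul_le_mul_of_nonneg_right hT (norm_nonneg v)
  linarith

/-- splitting a window into shorter windows with a larger step -/
lemma aw_split (U : G →* (H ≃ₗᵢ[ℂ] H)) (g : ℤ → G) (n lam mu M M1 : ℕ) (hM : 1 ≤ M)
    (hM1 : 1 ≤ M1) (hmu : 1 ≤ mu) (h : mu * M1 ≤ M) (u : H) : ∃ m0 : ℕ, m0 + mu * M1 ≤ M ∧
      ‖Aw U g n lam M u‖ ≤ 4 * (mu * M1) / M * ‖u‖ +
        ‖Aw U g ((n + lam * m0 : ℕ) : ℤ) (lam * mu) M1 u‖ := by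
  have hf : ∀ m : ℤ, ‖Uo U ((g n)⁻¹ * g (n + lam * m)) u‖ ≤ ‖u‖ := fun m =>
    (norm_Uo_apply U _ u).le
  have h1 := avg_window (f := fun m : ℤ => Uo U ((g n)⁻¹ * g (n + lam * m)) u) hf M mu M1 hM
    hM1 hmu h
  have hne : (range (M - mu * M1 + 1)).Nonempty := ⟨0, by simp⟩
  obtain ⟨m0, hm0, h2⟩ := exists_avg_le hne (fun m0 : ℕ => ‖avg (range M1) (fun m1 : ℕ =>
    Uo U ((g n)⁻¹ * g (n + lam * ((m0 : ℤ) + mu * m1))) u)‖)
  have h3 := norm_avg_le (range (M - mu * M1 + 1)) (fun m0 : ℕ => avg (range M1) (fun m1 : ℕ =>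
    Uo U ((g n)⁻¹ * g (n + lam * ((m0 : ℤ) + mu * m1))) u))
  refine ⟨m0, ?_, ?_⟩
  · rw [mem_range] at hm0
    omega
  have h4 : Aw U g n lam M u = avg (range M) (fun m : ℕ => Uo U ((g n)⁻¹ * g (n + lam * (m : ℤ))) u) := by
    unfold Aw
    rw [avg_apply]
  have h5 : avg (range M1) (fun m1 : ℕ => Uo U ((g n)⁻¹ * g (n + lam * ((m0 : ℤ) + mu * m1))) u) =
      Uo U ((g n)⁻¹ * g ((n + lam * m0 : ℕ) : ℤ))
        (Aw U g ((n + lam * m0 : ℕ) : ℤ) (lam * mu) M1 u) := by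
    unfold Aw
    rw [avg_apply, clm_avg]
    refine avg_congr fun m1 _ => ?_
    rw [← mul_apply_eq_comp, ← Uo_mul]
    congr 2
    have e : (n : ℤ) + lam * ((m0 : ℤ) + mu * m1) =
        ((n + lam * m0 : ℕ) : ℤ) + ((lam * mu : ℕ) : ℤ) * m1 := by
      push_cast; ring
    rw [e]
    group
  rw [h5, norm_Uo_apply] at h2
  have h6 := norm_sub_norm_le (avg (range M) (fun m : ℕ => Uo U ((g n)⁻¹ * g (n + lam * (m : ℤ))) u))
    (avg (range (M - mu * M1 + 1)) (fun m0 : ℕ => avg (range M1) (fun m1 : ℕ =>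
    Uo U ((g n)⁻¹ * g (n + lam * ((m0 : ℤ) + mu * m1))) u)))
  rw [h4]
  linarith

end InvAux

namespace Frame

variable {g : ℤ → G} (fr : Frame g) (U : G →* (H ≃ₗᵢ[ℂ] H))

lemma InvAux_sa_scale {N A : ℝ} (hN : 1 ≤ N) (hA : 1 ≤ A) : fr.Sa 1 N A ⊆ fr.Sa 1 (A * N) 1 := by
  rintro x ⟨y, h1, h2, h3⟩
  refine ⟨y, h1, h2, fun i => (h3 i).trans ?_⟩
  rw [one_mul, mul_pow]
  have h4 : A ≤ A ^ fr.w i := le_self_pow₀ hA (by have := fr.one_le_w i; omega)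
  exact mul_le_mul_of_nonneg_right h4 (pow_nonneg (by linarith) _)

lemma InvAux_sa_box {j q : ℕ} {N rh : ℝ} (hq : 1 ≤ q) (hN : 1 ≤ N) (hr : 0 ≤ rh) (hrN : rh ≤ N)
    {t : Fin fr.r → ℤ}
    (ht : t ∈ bx (fun i => if fr.w i = j then ⌊rh ^ j / (q : ℝ)⌋₊ else 0)) :
    kap fr.c (fun i => ((fun _ => q : Fin fr.r → ℕ) i : ℤ) * t i) ∈ fr.Sa 1 N 1 := by
  rw [mem_bx] at ht
  refine ⟨_, rfl, fun i hi => ?_, fun i => ?_⟩
  · have := fr.one_le_w i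
    omega
  · have hti := ht i
    have hNp : (0 : ℝ) ≤ N ^ fr.w i := pow_nonneg (by linarith) _
    have hq0 : (0 : ℝ) < q := by exact_mod_cast hq
    by_cases hij : fr.w i = j
    · rw [if_pos hij] at hti
      have h1 : |(t i : ℝ)| ≤ rh ^ j / q := by
        have h2 : ((⌊rh ^ j / (q : ℝ)⌋₊ : ℕ) : ℝ) ≤ rh ^ j / q :=
          Nat.floor_le (div_nonneg (pow_nonneg hr _) hq0.le)
        refine le_trans ?_ h2
        have h3 : ((|t i| : ℤ) : ℝ) ≤ ((⌊rh ^ j / (q : ℝ)⌋₊ : ℤ) : ℝ) := by exact_mod_cast hti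
        rw [Int.cast_abs] at h3
        exact_mod_cast h3
      push_cast
      rw [abs_mul, abs_of_pos hq0, one_mul, hij]
      calc (q : ℝ) * |(t i : ℝ)| ≤ q * (rh ^ j / q) := mul_le_mul_of_nonneg_left h1 hq0.le
        _ = rh ^ j := by field_simp
        _ ≤ N ^ j := pow_le_pow_left₀ hr hrN j
    · rw [if_neg hij] at hti
      have h0 : t i = 0 := by
        have : |t i| ≤ 0 := by exact_mod_cast hti
        exact abs_nonpos_iff.mp this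
      rw [h0]
      simpa using hNp

lemma InvAux_g_zero {g : ℤ → G} (fr : Frame g) : g 0 = 1 := by
  rw [fr.seq 0]
  have h : (fun i => ∑ k ∈ Icc 1 (fr.w i), fr.ga i k * Ring.choose (0 : ℤ) k) = 0 := by
    funext i
    refine sum_eq_zero fun k hk => ?_
    rw [mem_Icc] at hk
    rw [Ring.choose_zero_pos ℤ (by omega), mul_zero]
  rw [h, kap_zero]

/-- transporting the invariance to the vector `v` -/
lemma InvAux_five : ∃ K : ℝ, 1 ≤ K ∧ ∀ (j Q Q3 Q4 q : ℕ) (N R rh rho2 rho : ℝ) (v : H), 1 ≤ Q →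
    1 ≤ Q3 → 1 ≤ Q4 → Q3 ∣ Q4 → 1 ≤ q → 1 ≤ R → R ≤ N → 0 ≤ rh → rh ≤ N → 1 ≤ rho →
    rho ≤ rho2 → rho2 ≤ N →
    ‖fr.Bj U 0 Q3 rho2 (fr.Sj U j q rh (fr.Bj U j Q R v))‖ ≤
      ‖fr.Bj U 0 Q4 rho v‖ + K * ((rho / N) * (N / rho2) ^ fr.D) * ‖v‖ := by
  obtain ⟨Kc, hKc1, hconj⟩ := fr.conj_absorb U
  obtain ⟨Ka, hKa⟩ := fr.exists_consts
  have hK' : (1 : ℝ) ≤ Ka * (1 + 1) := by
    have := hKa.one_le
    linarith
  obtain ⟨K', hK'def⟩ : ∃ K' : ℝ, K' = Ka * (1 + 1) := ⟨_, rfl⟩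
  rw [← hK'def] at hK'
  refine ⟨Kc * K' ^ fr.D, one_le_mul_of_one_le_of_one_le hKc1 (one_le_pow₀ hK'), ?_⟩
  intro j Q Q3 Q4 q N R rh rho2 rho v hQ hQ3 hQ4 hd hq hR hRN hrh hrhN hrho hrr hrN
  have hN : 1 ≤ N := hR.trans hRN
  have hN0 : 0 < N := by linarith
  have hrho2 : 0 < rho2 := by linarith
  have hK'0 : 0 < K' := by linarith
  have key : ∀ x : G, x ∈ fr.Sa 1 (K' * N) 1 → ‖fr.Bj U 0 Q3 rho2 (Uo U x v)‖ ≤
      ‖fr.Bj U 0 Q4 rho v‖ + Kc * K' ^ fr.D * ((rho / N) * (N / rho2) ^ fr.D) * ‖v‖ := by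
    intro x hx
    have h1 := hconj Q3 Q4 (K' * N) rho2 rho x v hQ3 hQ4 hd hrho hrr
      (hrN.trans (le_mul_of_one_le_left hN0.le hK')) hx
    refine h1.trans (add_le_add_right ?_ _)
    refine mul_le_mul_of_nonneg_right ?_ (norm_nonneg v)
    rw [mul_assoc]
    refine mul_le_mul_of_nonneg_left ?_ (by linarith)
    have h2 : (K' * N / rho2) ^ fr.D = K' ^ fr.D * (N / rho2) ^ fr.D := by
      rw [mul_div_assoc, mul_pow]
    have h3 : rho / (K' * N) ≤ rho / N :=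
      div_le_div_of_nonneg_left (by linarith) hN0 (le_mul_of_one_le_left hN0.le hK')
    have h4 : 0 ≤ K' ^ fr.D * (N / rho2) ^ fr.D := by positivity
    rw [h2]
    calc rho / (K' * N) * (K' ^ fr.D * (N / rho2) ^ fr.D)
        ≤ rho / N * (K' ^ fr.D * (N / rho2) ^ fr.D) := mul_le_mul_of_nonneg_right h3 h4
      _ = K' ^ fr.D * (rho / N * (N / rho2) ^ fr.D) := by ring
  have hC : 0 ≤ ‖fr.Bj U 0 Q4 rho v‖ + Kc * K' ^ fr.D * ((rho / N) * (N / rho2) ^ fr.D) * ‖v‖ := by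
    have : 0 ≤ Kc * K' ^ fr.D * ((rho / N) * (N / rho2) ^ fr.D) := by
      have h5 : 0 ≤ rho / N := div_nonneg (by linarith) hN0.le
      have h6 : 0 ≤ (N / rho2) ^ fr.D := by positivity
      have h7 : 0 ≤ Kc * K' ^ fr.D := mul_nonneg (by linarith) (by positivity)
      exact mul_nonneg h7 (mul_nonneg h5 h6)
    exact add_nonneg (norm_nonneg _) (mul_nonneg this (norm_nonneg v))
  unfold Sj
  refine InvAux.norm_comp_BM_le U fr.c _ _ _ _ hC fun t ht => ?_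
  have hx := fr.InvAux_sa_box hq hN hrh hrhN ht
  rw [← mul_apply_eq_comp]
  unfold Bj
  refine InvAux.norm_comp_BM_le U fr.c _ _ (BM U fr.c (fr.mo Q3) (fr.side 0 Q3 rho2) *
    Uo U (kap fr.c (fun i => ((fun _ => q : Fin fr.r → ℕ) i : ℤ) * t i))) v hC fun t' ht' => ?_
  have hy := fr.Sa_mono (j' := 1) (by linarith) (by omega) le_rfl
    (fr.Sa_up hR hRN zero_le_one (fr.Sm_subset_Sa _ _ _ _ (fr.mem_box hQ hR ht')))
  have hy' : kap fr.c (fun i => (fr.mo Q i : ℤ) * t' i) ∈ fr.Sa 1 N 1 :=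
    fr.Sa_mono (by linarith) le_rfl (by
      rw [one_mul]
      exact div_le_one_of_le₀ hRN hN0.le) hy
  have hxy := hKa.sa_mul 1 N 1 1 _ _ hN zero_le_one le_rfl zero_le_one le_rfl hx hy'
  rw [← hK'def] at hxy
  have h8 := key _ (fr.InvAux_sa_scale hN hK' hxy)
  rw [Uo_mul, mul_apply_eq_comp] at h8
  exact h8

def Claim (j : ℕ) : Prop :=
  ∃ C : ℕ, 1 ≤ C ∧ ∀ (X : ℝ) (Q lam M n : ℕ) (N R : ℝ), 2 ≤ X → 1 ≤ Q → 1 ≤ lam → 1 ≤ R → R ≤ N →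
    N ≤ X * R → (n : ℝ) + lam * M ≤ N → N ≤ X * (lam * M) → ((Q : ℝ) * lam * X) ^ C ≤ N →
    ∀ v : H, ∃ q : ℕ, 1 ≤ q ∧ (q : ℝ) ≤ X ^ C ∧ ∀ rho : ℝ, 1 ≤ rho → rho * X ^ C ≤ N →
      ‖Aw U g n lam M (fr.Bj U j Q R v)‖ ≤ X⁻¹ * ‖v‖ +
        X ^ C * ‖fr.Bj U 0 (q * (Q * lam) ^ C) rho v‖

theorem claim_zero : fr.Claim U 0 := by
  obtain ⟨K, hK1, hK⟩ := fr.absorb U
  obtain ⟨c, hc⟩ := InvAux.exists_pow K
  refine ⟨c + 2, by omega, ?_⟩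
  intro X Q lam M n N R hX hQ hlam hR hRN hNX hn hNM hC v
  refine ⟨1, le_rfl, by rw [Nat.cast_one]; exact one_le_pow₀ (by linarith), ?_⟩
  intro rho hrho hrhoN
  have hX0 : (0 : ℝ) < X := by linarith
  have hN0 : (0 : ℝ) < N := by linarith
  have hR0 : (0 : ℝ) < R := by linarith
  have hXc : (1 : ℝ) ≤ X ^ (c + 2) := one_le_pow₀ (by linarith)
  have h1 : rho * X ^ (c + 1) ≤ R := by
    have h2 : X * (rho * X ^ (c + 1)) ≤ X * R := by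
      calc X * (rho * X ^ (c + 1)) = rho * X ^ (c + 2) := by ring
        _ ≤ N := hrhoN
        _ ≤ X * R := hNX
    exact le_of_mul_le_mul_left h2 hX0
  have h3 : (1 : ℝ) ≤ X ^ (c + 1) := one_le_pow₀ (by linarith)
  have hrR : rho ≤ R := (le_mul_of_one_le_right (by linarith) h3).trans h1
  have hdvd : Q ∣ 1 * (Q * lam) ^ (c + 2) := by
    rw [one_mul, pow_succ]
    exact Dvd.dvd.mul_left (Dvd.intro _ rfl) _
  have hQ' : 1 ≤ 1 * (Q * lam) ^ (c + 2) := by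
    rw [one_mul]
    exact Nat.one_le_pow _ _ (Nat.mul_pos hQ hlam)
  have h4 := (hK 0 Q (1 * (Q * lam) ^ (c + 2)) R rho hQ hQ' hdvd hrho hrR).1
  have h5 : ‖Aw U g n lam M (fr.Bj U 0 Q R v)‖ ≤ ‖fr.Bj U 0 Q R v‖ :=
    InvAux.norm_clm_le (norm_Aw_le U g n lam M) _
  have h6 : ‖fr.Bj U 0 Q R (fr.Bj U 0 (1 * (Q * lam) ^ (c + 2)) rho v) - fr.Bj U 0 Q R v‖ ≤
      K * (rho / R) * ‖v‖ := by
    have h7 := (fr.Bj U 0 Q R * fr.Bj U 0 (1 * (Q * lam) ^ (c + 2)) rho - fr.Bj U 0 Q R).le_opNorm v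
    exact h7.trans (mul_le_mul_of_nonneg_right h4 (norm_nonneg v))
  have h8 : ‖fr.Bj U 0 Q R (fr.Bj U 0 (1 * (Q * lam) ^ (c + 2)) rho v)‖ ≤
      ‖fr.Bj U 0 (1 * (Q * lam) ^ (c + 2)) rho v‖ := InvAux.norm_clm_le (fr.norm_Bj_le U 0 Q R) _
  have h9 : K * (rho / R) ≤ X⁻¹ := by
    rw [inv_eq_one_div, ← mul_div_assoc, div_le_div_iff₀ hR0 hX0, one_mul]
    calc K * rho * X ≤ X ^ c * rho * X := by
          refine mul_le_mul_of_nonneg_right (mul_le_mul_of_nonneg_right (hc X hX) ?_) hX0.le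
          linarith
      _ = rho * X ^ (c + 1) := by ring
      _ ≤ R := h1
  have h10 : K * (rho / R) * ‖v‖ ≤ X⁻¹ * ‖v‖ := mul_le_mul_of_nonneg_right h9 (norm_nonneg v)
  have h11 : ‖fr.Bj U 0 (1 * (Q * lam) ^ (c + 2)) rho v‖ ≤
      X ^ (c + 2) * ‖fr.Bj U 0 (1 * (Q * lam) ^ (c + 2)) rho v‖ :=
    le_mul_of_one_le_left (norm_nonneg _) hXc
  have h12 := norm_sub_norm_le (fr.Bj U 0 Q R v)
    (fr.Bj U 0 Q R (fr.Bj U 0 (1 * (Q * lam) ^ (c + 2)) rho v))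
  rw [norm_sub_rev] at h12
  linarith

theorem claim_step (j : ℕ) (hj : 1 ≤ j) (hjD : j ≤ fr.D) (h : fr.Claim U (j - 1)) :
    fr.Claim U j := by
  obtain ⟨a, b, C1, hb, hlev⟩ := fr.level U j hj hjD
  obtain ⟨C', hC'1, hcl⟩ := h
  obtain ⟨Ks, hKs1, hsp⟩ := fr.sp_absorb U
  obtain ⟨Kc, hKc1, hfive⟩ := fr.InvAux_five U
  obtain ⟨ks, hks⟩ := InvAux.exists_pow Ks
  obtain ⟨kc, hkc⟩ := InvAux.exists_pow Kc
  obtain ⟨b2, hb2⟩ : ∃ b2 : ℕ, b2 = b + (C1 + ks + 1) := ⟨_, rfl⟩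
  obtain ⟨b3, hb3⟩ : ∃ b3 : ℕ, b3 = b2 + a + C1 + 1 := ⟨_, rfl⟩
  obtain ⟨D, hD⟩ : ∃ D : ℕ, D = fr.D := ⟨_, rfl⟩
  obtain ⟨W, hW⟩ : ∃ W : ℕ, W = fr.W := ⟨_, rfl⟩
  obtain ⟨k1, hk1⟩ : ∃ k : ℕ, k = 9 * a + 8 + (W * D + 1) := ⟨_, rfl⟩
  obtain ⟨k2, hk2⟩ : ∃ k : ℕ, k = (1 + (W * D + 1) + 9) * C1 := ⟨_, rfl⟩
  obtain ⟨k3, hk3⟩ : ∃ k : ℕ, k = 9 * b2 := ⟨_, rfl⟩
  obtain ⟨k4, hk4⟩ : ∃ k : ℕ, k = (9 * C1 + (W * D + 1) * D + 1 + (W * D + 1) + 9 * b3) * C' :=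
    ⟨_, rfl⟩
  obtain ⟨k5, hk5⟩ : ∃ k : ℕ, k = 9 * b3 * C' := ⟨_, rfl⟩
  obtain ⟨k6, hk6⟩ : ∃ k : ℕ, k = 9 * b3 * C' + (9 * C1 + W * ((D - 1) * (D + 1))) * C' := ⟨_, rfl⟩
  obtain ⟨k7, hk7⟩ : ∃ k : ℕ, k = (D + 2) * C' := ⟨_, rfl⟩
  obtain ⟨k8, hk8⟩ : ∃ k : ℕ, k = 9 * C1 + 9 * b3 * C' + (kc + 9 * b3 * C' * D) + 9 := ⟨_, rfl⟩
  obtain ⟨C, hC⟩ : ∃ C : ℕ, C = k1 + k2 + k3 + k4 + k5 + k6 + k7 + k8 := ⟨_, rfl⟩
  refine ⟨C, by omega, ?_⟩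
  intro X Q lam M n N R hX hQ hlam hR hRN hNX hn hNM hCN v
  -- basic facts
  have hX0 : (0 : ℝ) < X := by linarith
  have hX1' : (1 : ℝ) ≤ X := by linarith
  have hN0 : (0 : ℝ) < N := by linarith
  have hN1 : (1 : ℝ) ≤ N := by linarith
  have hQr : (1 : ℝ) ≤ Q := by exact_mod_cast hQ
  have hlr : (1 : ℝ) ≤ lam := by exact_mod_cast hlam
  have hQl : (1 : ℝ) ≤ (Q : ℝ) * lam := one_le_mul_of_one_le_of_one_le hQr hlr
  obtain ⟨P, hP⟩ : ∃ P : ℝ, P = (Q : ℝ) * lam * X := ⟨_, rfl⟩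
  rw [← hP] at hCN
  have hXP : X ≤ P := by rw [hP]; exact le_mul_of_one_le_left hX0.le hQl
  have hQlP : (Q : ℝ) * lam ≤ P := by rw [hP]; exact le_mul_of_one_le_right (by linarith) hX1'
  have hQP : (Q : ℝ) ≤ P := (le_mul_of_one_le_right (by linarith) hlr).trans hQlP
  have hP1 : (1 : ℝ) ≤ P := hX1'.trans hXP
  have hP0 : (0 : ℝ) < P := by linarith
  have hPN : ∀ k : ℕ, k ≤ C → P ^ k ≤ N := fun k hk => (pow_le_pow_right₀ hP1 hk).trans hCN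
  have hXPk : ∀ k : ℕ, X ^ k ≤ P ^ k := fun k => pow_le_pow_left₀ hX0.le hXP k
  have hWX : (W : ℝ) ≤ X ^ W := InvAux.nat_le_pow W hX
  have hW1 : 1 ≤ W := by rw [hW]; exact fr.W_pos
  have hW1r : (1 : ℝ) ≤ W := by exact_mod_cast hW1
  -- the modulus
  obtain ⟨mu, hmu⟩ : ∃ mu : ℕ, mu = md fr.W fr.D Q 1 := ⟨_, rfl⟩
  have hmu' : mu = W ^ (D - 1) * Q := by rw [hmu, hW, hD]; rfl
  have hmu1 : 1 ≤ mu := by
    rw [hmu']
    exact Nat.mul_pos (Nat.pow_pos hW1) hQ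
  have hmur : (1 : ℝ) ≤ mu := by exact_mod_cast hmu1
  obtain ⟨lam1, hlam1⟩ : ∃ lam1 : ℕ, lam1 = lam * mu := ⟨_, rfl⟩
  have hlam1' : 1 ≤ lam1 := by rw [hlam1]; exact Nat.mul_pos hlam hmu1
  have hlam1r : (1 : ℝ) ≤ lam1 := by exact_mod_cast hlam1'
  have hlam1P : (lam1 : ℝ) ≤ P ^ (W * D + 1) := by
    rw [hlam1, hmu']
    push_cast
    have h1 : (W : ℝ) ^ (D - 1) ≤ P ^ (W * D) := by
      calc (W : ℝ) ^ (D - 1) ≤ (W : ℝ) ^ D := pow_le_pow_right₀ hW1r (Nat.sub_le _ _)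
        _ ≤ (P ^ W) ^ D := pow_le_pow_left₀ (by linarith) (hWX.trans (hXPk W)) D
        _ = P ^ (W * D) := by rw [← pow_mul]
    calc (lam : ℝ) * ((W : ℝ) ^ (D - 1) * Q) = (W : ℝ) ^ (D - 1) * (Q * lam) := by ring
      _ ≤ P ^ (W * D) * P := mul_le_mul h1 hQlP (by linarith) (by positivity)
      _ = P ^ (W * D + 1) := by rw [pow_succ]
  obtain ⟨X1, hX1⟩ : ∃ X1 : ℝ, X1 = X ^ 9 := ⟨_, rfl⟩
  have hXX1 : X ≤ X1 := by rw [hX1]; exact le_self_pow₀ hX1' (by norm_num)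
  have hX12 : 2 ≤ X1 := hX.trans hXX1
  have hX10 : 0 < X1 := by linarith
  have hX11 : 1 ≤ X1 := by linarith
  have hX1P : ∀ k : ℕ, X1 ^ k ≤ P ^ (9 * k) := fun k => by
    rw [hX1, ← pow_mul]; exact hXPk _
  -- the length of the new window
  obtain ⟨y, hy⟩ : ∃ y : ℝ, y = N / (X1 ^ a * X ^ 8 * lam1) := ⟨_, rfl⟩
  have hden : 0 < X1 ^ a * X ^ 8 * lam1 := by positivity
  have hyN : X1 ^ a * X ^ 8 * lam1 * y = N := by rw [hy]; field_simp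
  have hy1 : 1 ≤ y := by
    rw [hy, le_div_iff₀ hden, one_mul]
    calc X1 ^ a * X ^ 8 * lam1 ≤ P ^ (9 * a) * P ^ 8 * P ^ (W * D + 1) :=
          mul_le_mul (mul_le_mul (hX1P a) (hXPk 8) (by positivity) (by positivity)) hlam1P
            (by positivity) (by positivity)
      _ = P ^ k1 := by rw [hk1]; ring
      _ ≤ N := hPN _ (by omega)
  obtain ⟨M1, hM1⟩ : ∃ M1 : ℕ, M1 = ⌊y⌋₊ := ⟨_, rfl⟩
  have hM11 : 1 ≤ M1 := by
    rw [hM1]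
    exact Nat.le_floor (by exact_mod_cast hy1)
  have hM1r : (1 : ℝ) ≤ M1 := by exact_mod_cast hM11
  have hM1y : (M1 : ℝ) ≤ y := by rw [hM1]; exact Nat.floor_le (by linarith)
  have hyM1 : y ≤ 2 * M1 := by
    have h1 : y < M1 + 1 := by rw [hM1]; exact Nat.lt_floor_add_one y
    linarith
  have hw1 : X1 ^ a * X ^ 8 * lam1 * M1 ≤ N := by
    rw [← hyN]
    exact mul_le_mul_of_nonneg_left hM1y hden.le
  have hw2 : N ≤ X1 ^ (a + 1) * (lam1 * M1) := by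
    calc N = X1 ^ a * X ^ 8 * lam1 * y := hyN.symm
      _ ≤ X1 ^ a * X ^ 8 * lam1 * (2 * M1) := mul_le_mul_of_nonneg_left hyM1 hden.le
      _ = (X1 ^ a * X ^ 8 * (lam1 * M1)) * 2 := by ring
      _ ≤ (X1 ^ a * X ^ 8 * (lam1 * M1)) * X := mul_le_mul_of_nonneg_left hX (by positivity)
      _ = X1 ^ (a + 1) * (lam1 * M1) := by rw [pow_succ X1 a, hX1]; ring
  have hX1a : (1 : ℝ) ≤ X1 ^ a := one_le_pow₀ hX11
  have hX8 : (1 : ℝ) ≤ X ^ 8 := one_le_pow₀ hX1'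
  have hw3 : X1 ^ a * (lam1 * M1) ≤ N := by
    refine le_trans ?_ hw1
    calc X1 ^ a * (lam1 * M1) ≤ X1 ^ a * (lam1 * M1) * X ^ 8 :=
          le_mul_of_one_le_right (by positivity) hX8
      _ = X1 ^ a * X ^ 8 * lam1 * M1 := by ring
  have hmuM : X ^ 7 * (mu * M1 : ℝ) ≤ M := by
    have h1 : (X * lam) * (X ^ 7 * (mu * M1 : ℝ)) ≤ (X * lam) * M := by
      calc (X * lam) * (X ^ 7 * (mu * M1 : ℝ)) = 1 * (X ^ 8 * lam1 * M1) := by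
            rw [hlam1]; push_cast; ring
        _ ≤ X1 ^ a * (X ^ 8 * lam1 * M1) := mul_le_mul_of_nonneg_right hX1a (by positivity)
        _ = X1 ^ a * X ^ 8 * lam1 * M1 := by ring
        _ ≤ N := hw1
        _ ≤ X * (lam * M) := hNM
        _ = (X * lam) * M := by ring
    exact le_of_mul_le_mul_left h1 (by positivity)
  have hX7 : (1 : ℝ) ≤ X ^ 7 := one_le_pow₀ hX1'
  have hmuM' : mu * M1 ≤ M := by
    have h1 : (mu * M1 : ℝ) ≤ M := (le_mul_of_one_le_left (by positivity) hX7).trans hmuM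
    exact_mod_cast h1
  have hM : 1 ≤ M := (Nat.mul_pos hmu1 hM11).trans_le hmuM'
  have hMr : (0 : ℝ) < M := by exact_mod_cast hM
  -- the vector
  obtain ⟨u, hu⟩ : ∃ u : H, u = fr.Bj U j Q R v := ⟨_, rfl⟩
  have hun : ‖u‖ ≤ ‖v‖ := by rw [hu]; exact InvAux.norm_clm_le (fr.norm_Bj_le U j Q R) v
  obtain ⟨m0, hm0, hsplit⟩ := InvAux.aw_split U g n lam mu M M1 hM hM11 hmu1 hmuM' u
  obtain ⟨n1, hn1⟩ : ∃ n1 : ℕ, n1 = n + lam * m0 := ⟨_, rfl⟩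
  rw [← hn1, ← hlam1] at hsplit
  have hn1N : (n1 : ℝ) + lam1 * M1 ≤ N := by
    refine le_trans ?_ hn
    rw [hn1, hlam1]
    push_cast
    have h1 : (m0 : ℝ) + mu * M1 ≤ M := by exact_mod_cast hm0
    have h2 : (lam : ℝ) * ((m0 : ℝ) + mu * M1) ≤ lam * M :=
      mul_le_mul_of_nonneg_left h1 (by linarith)
    calc (n : ℝ) + lam * m0 + lam * mu * M1 = n + lam * ((m0 : ℝ) + mu * M1) := by ring
      _ ≤ n + lam * M := by linarith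
  -- the level inequality
  have hlN : ((Q : ℝ) * lam1 * X1) ^ C1 ≤ N := by
    calc ((Q : ℝ) * lam1 * X1) ^ C1 ≤ (P ^ 1 * P ^ (W * D + 1) * P ^ 9) ^ C1 := by
          refine pow_le_pow_left₀ (by positivity) ?_ _
          refine mul_le_mul (mul_le_mul (by rw [pow_one]; exact hQP) hlam1P (by positivity)
            (by positivity)) ?_ (by positivity) (by positivity)
          rw [hX1]; exact hXPk 9
      _ = P ^ k2 := by rw [hk2, pow_mul]; ring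
      _ ≤ N := hPN _ (by omega)
  obtain ⟨q1, hq11, hq1C, hlevel⟩ := hlev X1 Q lam1 M1 n1 N R hX12 hQ hlam1'
    (by rw [hlam1, ← hmu]; exact Dvd.intro_left _ rfl) hR hRN
    (hNX.trans (mul_le_mul_of_nonneg_right hXX1 (by linarith))) hn1N hw3 hw2 hlN v
  rw [← hu] at hlevel
  have hq1r : (1 : ℝ) ≤ q1 := by exact_mod_cast hq11
  have hqq : 1 ≤ q1 * lam1 ^ j := Nat.mul_pos hq11 (Nat.pow_pos hlam1')
  obtain ⟨rh, hrh⟩ : ∃ rh : ℝ, rh = N / X1 ^ b := ⟨_, rfl⟩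
  rw [← hrh] at hlevel
  have hX1b : (1 : ℝ) ≤ X1 ^ b := one_le_pow₀ hX11
  have hrh0 : 0 < rh := by rw [hrh]; positivity
  have hrhN : rh ≤ N := by rw [hrh]; exact div_le_self hN0.le hX1b
  have hrhR : rh ≤ R := by
    rw [hrh, div_le_iff₀ (by positivity)]
    calc N ≤ X * R := hNX
      _ ≤ X1 ^ b * R := by
          refine mul_le_mul_of_nonneg_right ?_ (by linarith)
          exact hXX1.trans (le_self_pow₀ hX11 (by omega))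
      _ = R * X1 ^ b := mul_comm _ _
  obtain ⟨v', hv'⟩ : ∃ v' : H, v' = fr.Sj U j (q1 * lam1 ^ j) rh u := ⟨_, rfl⟩
  rw [← hv'] at hlevel
  have hv'n : ‖v'‖ ≤ ‖v‖ := by
    rw [hv']
    refine le_trans ?_ hun
    exact InvAux.norm_clm_le (norm_BM_le U _ _ _) u
  -- absorbing
  obtain ⟨Q2, hQ2⟩ : ∃ Q2 : ℕ, Q2 = q1 * lam1 ^ D * Q := ⟨_, rfl⟩
  have hQ21 : 1 ≤ Q2 := by
    rw [hQ2]; exact Nat.mul_pos (Nat.mul_pos hq11 (Nat.pow_pos hlam1')) hQ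
  obtain ⟨R2, hR2⟩ : ∃ R2 : ℝ, R2 = N / X1 ^ b2 := ⟨_, rfl⟩
  have hR21 : 1 ≤ R2 := by
    rw [hR2, le_div_iff₀ (by positivity), one_mul]
    exact (hX1P b2).trans (by rw [← hk3]; exact hPN _ (by omega))
  have hR2rh : R2 = rh / X1 ^ (C1 + ks + 1) := by
    rw [hR2, hrh, hb2, pow_add, div_div]
  have hR2le : R2 ≤ rh := by
    rw [hR2rh]; exact div_le_self hrh0.le (one_le_pow₀ hX11)
  have hQQ2 : Q ∣ Q2 := by rw [hQ2]; exact Dvd.intro_left _ rfl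
  have hqd : q1 * lam1 ^ j ∣ md fr.W fr.D Q2 j := by
    have h1 : q1 * lam1 ^ j ∣ Q2 := by
      rw [hQ2]
      exact (Nat.mul_dvd_mul_left _ (pow_dvd_pow _ (by rw [hD]; exact hjD))).trans (Dvd.intro _ rfl)
    exact h1.trans (Dvd.intro_left _ rfl)
  have habs := hsp j Q Q2 (q1 * lam1 ^ j) R R2 rh hj hQ hQ21 hqq hQQ2 hqd hR21 hR2le hrhR
  have habs' : ‖fr.Bj U (j - 1) Q2 R2 v' - v'‖ ≤ Ks * (R2 / rh) * ‖v‖ := by
    have h1 := (fr.Bj U (j - 1) Q2 R2 * (fr.Sj U j (q1 * lam1 ^ j) rh * fr.Bj U j Q R) -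
      fr.Sj U j (q1 * lam1 ^ j) rh * fr.Bj U j Q R).le_opNorm v
    rw [hv', hu]
    exact h1.trans (mul_le_mul_of_nonneg_right habs (norm_nonneg v))
  -- the claim for `j - 1`
  obtain ⟨X2, hX2⟩ : ∃ X2 : ℝ, X2 = X1 ^ b3 := ⟨_, rfl⟩
  have hX12' : X1 ≤ X2 := by rw [hX2]; exact le_self_pow₀ hX11 (by omega)
  have hX22 : 2 ≤ X2 := hX12.trans hX12'
  have hX20 : 0 < X2 := by linarith
  have hX21 : 1 ≤ X2 := by linarith
  have hX2P : X2 ≤ P ^ (9 * b3) := by rw [hX2]; exact hX1P b3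
  have hN2 : ((Q2 : ℝ) * lam1 * X2) ^ C' ≤ N := by
    calc ((Q2 : ℝ) * lam1 * X2) ^ C' ≤
          ((P ^ (9 * C1) * (P ^ (W * D + 1)) ^ D * P ^ 1) * P ^ (W * D + 1) * P ^ (9 * b3)) ^ C' := by
          refine pow_le_pow_left₀ (by positivity) ?_ _
          rw [hQ2]
          push_cast
          refine mul_le_mul (mul_le_mul (mul_le_mul (mul_le_mul (hq1C.trans (hX1P C1))
            (pow_le_pow_left₀ (by linarith) hlam1P D) (by positivity) (by positivity))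
            (by rw [pow_one]; exact hQP) (by positivity) (by positivity)) hlam1P (by positivity)
            (by positivity)) hX2P (by positivity) (by positivity)
      _ = P ^ k4 := by rw [hk4, pow_mul]; ring
      _ ≤ N := hPN _ (by omega)
  obtain ⟨q2, hq21, hq2C, hclaim⟩ := hcl X2 Q2 lam1 M1 n1 N R2 hX22 hQ21 hlam1' hR21
    (hR2le.trans hrhN)
    (by
      rw [hR2, hX2, ← mul_div_assoc, le_div_iff₀ (by positivity), mul_comm]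
      exact mul_le_mul_of_nonneg_right (pow_le_pow_right₀ hX11 (by omega)) hN0.le)
    hn1N
    (hw2.trans (by
      rw [hX2]
      exact mul_le_mul_of_nonneg_right (pow_le_pow_right₀ hX11 (by omega)) (by positivity)))
    hN2 v'
  have hq2r : (1 : ℝ) ≤ q2 := by exact_mod_cast hq21
  obtain ⟨rho2, hrho2⟩ : ∃ rho2 : ℝ, rho2 = N / X2 ^ C' := ⟨_, rfl⟩
  have hX2C : X2 ^ C' = X ^ k5 := by
    rw [hX2, hX1, ← pow_mul, ← pow_mul, hk5]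
    congr 1
    ring
  have hX2C0 : 0 < X2 ^ C' := by positivity
  have hX2C1 : (1 : ℝ) ≤ X2 ^ C' := one_le_pow₀ hX21
  have hrho21 : 1 ≤ rho2 := by
    rw [hrho2, le_div_iff₀ hX2C0, one_mul, hX2C]
    exact (hXPk k5).trans (hPN _ (by omega))
  have hrho2N : rho2 ≤ N := by rw [hrho2]; exact div_le_self hN0.le hX2C1
  have hclaim' := hclaim rho2 hrho21 (by rw [hrho2]; exact (div_mul_cancel₀ _ hX2C0.ne').le)
  -- the final modulus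
  obtain ⟨q, hq⟩ : ∃ q : ℕ, q = q2 * (q1 * W ^ ((D - 1) * (D + 1))) ^ C' := ⟨_, rfl⟩
  have hq1 : 1 ≤ q := by
    rw [hq]
    exact Nat.mul_pos hq21 (Nat.pow_pos (Nat.mul_pos hq11 (Nat.pow_pos hW1)))
  have hX1C : X1 ^ C1 = X ^ (9 * C1) := by rw [hX1, ← pow_mul]
  have hqX : (q : ℝ) ≤ X ^ C := by
    have h1 : (W : ℝ) ^ ((D - 1) * (D + 1)) ≤ X ^ (W * ((D - 1) * (D + 1))) := by
      rw [pow_mul X W]
      exact pow_le_pow_left₀ (by linarith) hWX _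
    rw [hq]
    push_cast
    calc (q2 : ℝ) * ((q1 : ℝ) * (W : ℝ) ^ ((D - 1) * (D + 1))) ^ C'
        ≤ X ^ k5 * (X ^ (9 * C1) * X ^ (W * ((D - 1) * (D + 1)))) ^ C' := by
          refine mul_le_mul (hq2C.trans hX2C.le) (pow_le_pow_left₀ (by positivity)
            (mul_le_mul (hq1C.trans hX1C.le) h1 (by positivity) (by positivity)) _)
            (by positivity) (by positivity)
      _ = X ^ k6 := by
          rw [hk6, pow_add X (9 * b3 * C'), pow_mul X (9 * C1 + W * ((D - 1) * (D + 1))) C',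
            pow_add X (9 * C1), hk5]
      _ ≤ X ^ C := pow_le_pow_right₀ hX1' (by omega)
  have hdiv : q2 * (Q2 * lam1) ^ C' ∣ q * (Q * lam) ^ C := by
    have h1 : Q2 * lam1 ∣ (q1 * W ^ ((D - 1) * (D + 1))) * (Q * lam) ^ (D + 2) := by
      refine Dvd.intro lam ?_
      rw [hQ2, hlam1, hmu']
      have h2 : W ^ ((D - 1) * (D + 1)) = (W ^ (D - 1)) ^ (D + 1) := by rw [← pow_mul]
      rw [h2]
      ring
    have h3 : (Q2 * lam1) ^ C' ∣ (q1 * W ^ ((D - 1) * (D + 1))) ^ C' * (Q * lam) ^ C := by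
      refine (pow_dvd_pow_of_dvd h1 C').trans ?_
      rw [mul_pow, ← pow_mul]
      exact Nat.mul_dvd_mul_left _ (pow_dvd_pow _ (by rw [← hk7]; omega))
    rw [hq, mul_assoc]
    exact Nat.mul_dvd_mul_left _ h3
  refine ⟨q, hq1, hqX, ?_⟩
  intro rho hrho hrhoC
  have hXC0 : 0 < X ^ C := by positivity
  have hrhoN : rho ≤ N / X ^ C := by rw [le_div_iff₀ hXC0]; exact hrhoC
  have hrr2 : rho ≤ rho2 := by
    refine hrhoN.trans ?_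
    rw [hrho2, hX2C]
    exact div_le_div_of_nonneg_left hN0.le (by positivity) (pow_le_pow_right₀ hX1' (by omega))
  have hQ31 : 1 ≤ q2 * (Q2 * lam1) ^ C' :=
    Nat.mul_pos hq21 (Nat.pow_pos (Nat.mul_pos hQ21 hlam1'))
  have hQ41 : 1 ≤ q * (Q * lam) ^ C := Nat.mul_pos hq1 (Nat.pow_pos (Nat.mul_pos hQ hlam))
  have h5 := hfive j Q (q2 * (Q2 * lam1) ^ C') (q * (Q * lam) ^ C) (q1 * lam1 ^ j) N R rh rho2 rho v
    hQ hQ31 hQ41 hdiv hqq hR hRN hrh0.le hrhN hrho hrr2 hrho2N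
  rw [← hu, ← hv'] at h5
  -- numerical estimates
  obtain ⟨B, hB⟩ : ∃ B : ℝ, B = ‖fr.Bj U 0 (q * (Q * lam) ^ C) rho v‖ := ⟨_, rfl⟩
  obtain ⟨V, hV⟩ : ∃ V : ℝ, V = ‖v‖ := ⟨_, rfl⟩
  have hV0 : 0 ≤ V := by rw [hV]; exact norm_nonneg v
  have hB0 : 0 ≤ B := by rw [hB]; exact norm_nonneg _
  have e1 : 4 * (mu * M1 : ℝ) / M * ‖u‖ ≤ 4 / X ^ 7 * V := by
    refine mul_le_mul ?_ (by rw [hV]; exact hun) (norm_nonneg u) (by positivity)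
    rw [div_le_div_iff₀ hMr (by positivity)]
    calc 4 * ((mu : ℝ) * M1) * X ^ 7 = 4 * (X ^ 7 * ((mu : ℝ) * M1)) := by ring
      _ ≤ 4 * (M : ℝ) := by linarith
  have e2 : Ks * (R2 / rh) ≤ 1 / X1 ^ (C1 + 1) := by
    rw [hR2rh, div_div, mul_comm (X1 ^ (C1 + ks + 1)) rh, ← div_div, div_self hrh0.ne']
    rw [mul_one_div, div_le_div_iff₀ (by positivity) (by positivity), one_mul]
    calc Ks * X1 ^ (C1 + 1) ≤ X1 ^ ks * X1 ^ (C1 + 1) :=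
          mul_le_mul_of_nonneg_right (hks X1 hX12) (by positivity)
      _ = X1 ^ (C1 + ks + 1) := by rw [← pow_add]; congr 1; ring
  have e3 : X1 ^ C1 * (1 / X1 ^ (C1 + 1)) = X1⁻¹ := by
    rw [pow_succ]; field_simp
  have e4 : X1 ^ C1 * X2⁻¹ ≤ X1⁻¹ := by
    rw [hX2, ← div_eq_mul_inv, inv_eq_one_div, div_le_div_iff₀ (by positivity) hX10, one_mul,
      ← pow_succ]
    exact pow_le_pow_right₀ hX11 (by omega)
  have e5 : X1 ^ C1 * (X2 ^ C' * (Kc * ((rho / N) * (N / rho2) ^ fr.D))) ≤ X1⁻¹ := by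
    have h1 : N / rho2 = X ^ k5 := by
      rw [hrho2, hX2C]; field_simp
    have h2 : rho / N ≤ 1 / X ^ C := by
      rw [div_le_div_iff₀ hN0 hXC0, one_mul]; exact hrhoC
    have h3 : X1⁻¹ = 1 / X ^ 9 := by rw [hX1, inv_eq_one_div]
    rw [h1, hX2C, hX1C, h3, ← pow_mul, ← hD]
    have h4 : Kc ≤ X ^ kc := hkc X hX
    calc X ^ (9 * C1) * (X ^ k5 * (Kc * (rho / N * X ^ (k5 * D))))
        = (X ^ (9 * C1) * X ^ k5 * X ^ (k5 * D)) * (Kc * (rho / N)) := by ring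
      _ ≤ (X ^ (9 * C1) * X ^ k5 * X ^ (k5 * D)) * (X ^ kc * (1 / X ^ C)) := by
          refine mul_le_mul_of_nonneg_left ?_ (by positivity)
          exact mul_le_mul h4 h2 (div_nonneg (by linarith) hN0.le) (by positivity)
      _ = X ^ (9 * C1 + k5 + k5 * D + kc) / X ^ C := by
          rw [pow_add, pow_add, pow_add]; ring
      _ ≤ 1 / X ^ 9 := by
          rw [div_le_div_iff₀ hXC0 (by positivity), one_mul, ← pow_add]
          refine pow_le_pow_right₀ hX1' ?_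
          have : k8 = 9 * C1 + k5 + k5 * D + kc + 9 := by rw [hk8, hk5]; ring
          omega
  have e6 : 4 / X ^ 7 + X1⁻¹ + X1⁻¹ + X1⁻¹ + X1⁻¹ ≤ X⁻¹ := by
    have h1 : X1⁻¹ ≤ 1 / X ^ 7 := by
      rw [hX1, inv_eq_one_div]
      exact div_le_div_of_nonneg_left zero_le_one (by positivity)
        (pow_le_pow_right₀ hX1' (by norm_num))
    have h2 : 8 / X ^ 7 ≤ X⁻¹ := by
      rw [inv_eq_one_div, div_le_div_iff₀ (by positivity) hX0, one_mul]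
      calc 8 * X ≤ X ^ 6 * X := by
            refine mul_le_mul_of_nonneg_right ?_ hX0.le
            calc (8 : ℝ) ≤ 2 ^ 6 := by norm_num
              _ ≤ X ^ 6 := pow_le_pow_left₀ (by norm_num) hX 6
        _ = X ^ 7 := by ring
    have h3 : 4 / X ^ 7 + 1 / X ^ 7 + 1 / X ^ 7 + 1 / X ^ 7 + 1 / X ^ 7 = 8 / X ^ 7 := by ring
    linarith
  have e7 : X1 ^ C1 * X2 ^ C' ≤ X ^ C := by
    rw [hX1C, hX2C, ← pow_add]
    refine pow_le_pow_right₀ hX1' ?_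
    have : k8 = 9 * C1 + k5 + k5 * D + kc + 9 := by rw [hk8, hk5]; ring
    omega
  -- assembly
  have f1 : ‖Aw U g n1 lam1 M1 v'‖ ≤ ‖Aw U g n1 lam1 M1 (fr.Bj U (j - 1) Q2 R2 v')‖ +
      ‖fr.Bj U (j - 1) Q2 R2 v' - v'‖ := by
    have h1 : ‖Aw U g n1 lam1 M1 (fr.Bj U (j - 1) Q2 R2 v' - v')‖ ≤
        ‖fr.Bj U (j - 1) Q2 R2 v' - v'‖ := InvAux.norm_clm_le (norm_Aw_le U g n1 lam1 M1) _
    rw [map_sub] at h1
    have h2 := norm_sub_norm_le (Aw U g n1 lam1 M1 v')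
      (Aw U g n1 lam1 M1 (fr.Bj U (j - 1) Q2 R2 v'))
    rw [norm_sub_rev] at h2
    linarith
  rw [← hV] at habs' h5 hlevel hv'n
  rw [← hB] at h5
  rw [← hu, ← hV, ← hB]
  have f2 : ‖fr.Bj U (j - 1) Q2 R2 v' - v'‖ ≤ 1 / X1 ^ (C1 + 1) * V :=
    habs'.trans (mul_le_mul_of_nonneg_right e2 hV0)
  have f3 : X2⁻¹ * ‖v'‖ ≤ X2⁻¹ * V := mul_le_mul_of_nonneg_left hv'n (by positivity)
  have f4 : ‖Aw U g n1 lam1 M1 v'‖ ≤ X2⁻¹ * V +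
      X2 ^ C' * (B + Kc * ((rho / N) * (N / rho2) ^ fr.D) * V) + 1 / X1 ^ (C1 + 1) * V := by
    have h1 := mul_le_mul_of_nonneg_left h5 hX2C0.le
    linarith
  have f5 : X1 ^ C1 * ‖Aw U g n1 lam1 M1 v'‖ ≤ (X1 ^ C1 * X2⁻¹) * V +
      ((X1 ^ C1 * X2 ^ C') * B +
        (X1 ^ C1 * (X2 ^ C' * (Kc * ((rho / N) * (N / rho2) ^ fr.D)))) * V) +
      (X1 ^ C1 * (1 / X1 ^ (C1 + 1))) * V := by
    have h1 := mul_le_mul_of_nonneg_left f4 (by positivity : (0 : ℝ) ≤ X1 ^ C1)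
    linarith
  rw [e3] at f5
  have f6 := mul_le_mul_of_nonneg_right e4 hV0
  have f7 := mul_le_mul_of_nonneg_right e5 hV0
  have f8 := mul_le_mul_of_nonneg_right e6 hV0
  have f9 := mul_le_mul_of_nonneg_right e7 hB0
  linarith

theorem claim_all (j : ℕ) (hjD : j ≤ fr.D) : fr.Claim U j := by
  induction j with
  | zero => exact fr.claim_zero U
  | succ j ih => exact fr.claim_step U (j + 1) (by omega) hjD (ih (by omega))

/-- **The inverse theorem** for polynomial averages in unitary representations of nilpotent groups. -/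
theorem inverse : ∃ C : ℕ, 1 ≤ C ∧ ∀ (X : ℝ) (lam M : ℕ), 2 ≤ X → 1 ≤ lam → ((lam : ℝ) * X) ^ C ≤ M →
    ∀ v : H, ∃ q : ℕ, 1 ≤ q ∧ (q : ℝ) ≤ X ^ C ∧ ∀ rho : ℝ, 1 ≤ rho → rho * X ^ C ≤ lam * M →
      ‖avg (range M) (fun m : ℕ => Uo U (g (lam * m))) v‖ ≤ X⁻¹ * ‖v‖ +
        X ^ C * ‖fr.Bj U 0 (q * lam ^ C) rho v‖ := by
  obtain ⟨C, hC1, hC⟩ := fr.claim_all U fr.D le_rfl
  refine ⟨C, hC1, ?_⟩
  intro X lam M hX hlam hM v
  have hX1 : (1 : ℝ) ≤ X := by linarith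
  have hlr : (1 : ℝ) ≤ lam := by exact_mod_cast hlam
  have hM1 : (1 : ℝ) ≤ M :=
    (one_le_pow₀ (one_le_mul_of_one_le_of_one_le hlr hX1)).trans hM
  have hlM : (1 : ℝ) ≤ lam * M := one_le_mul_of_one_le_of_one_le hlr hM1
  have hle : (lam : ℝ) * M ≤ X * (lam * M) := le_mul_of_one_le_left (by linarith) hX1
  obtain ⟨q, hq1, hqX, hq⟩ := hC X 1 lam M 0 (lam * M) (lam * M) hX le_rfl hlam hlM le_rfl hle
    (by simp) hle (by
      rw [Nat.cast_one, one_mul]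
      exact hM.trans (le_mul_of_one_le_left (by linarith) hlr)) v
  refine ⟨q, hq1, hqX, fun rho hrho hrhoC => ?_⟩
  have h1 := hq rho hrho hrhoC
  rw [fr.bj_top U, one_mul] at h1
  have h2 : Aw U g ((0 : ℕ) : ℤ) lam M = avg (range M) (fun m : ℕ => Uo U (g (lam * m))) := by
    unfold Aw
    refine avg_congr fun m _ => ?_
    rw [Nat.cast_zero, InvAux_g_zero fr, inv_one, one_mul, zero_add]
  rw [h2] at h1
  exact h1

end Frame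

end Pool.Nil
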