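import Pool.Agent.Nil.Coset

set_option autoImplicit false

/-!
# Nil: residue classes

See the doc string of `Nil/ConjInv.lean` for the proofs.
-/

namespace Pool.Nil

open Finset

variable {G : Type*} [Group G] {H : Type*} [NormedAddCommGroup H] [InnerProductSpace ℂ H]
  [CompleteSpace H]

namespace ResidAux

section
variable {E : Type*} [NormedAddCommGroup E] [NormedSpace ℝ E]

lemma avg_range_cut {F : ℕ → E} {C : ℝ} (hF : ∀ n, ‖F n‖ ≤ C) {M N : ℕ} (hM : 1 ≤ M)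
    (hMN : M ≤ N) : ‖avg (range N) F - avg (range M) F‖ ≤ 2 * ((N : ℝ) - M) / N * C := by
  obtain ⟨r, rfl⟩ := Nat.exists_eq_add_of_le hMN
  have hM0 : (0 : ℝ) < M := by exact_mod_cast hM
  have hr0 : (0 : ℝ) ≤ r := Nat.cast_nonneg r
  have hN0 : (0 : ℝ) < M + r := by linarith
  have hC : 0 ≤ C := (norm_nonneg _).trans (hF 0)
  have hS : ‖∑ x ∈ range M, F x‖ ≤ M * C := by
    refine (norm_sum_le_of_le _ fun x _ => hF x).trans ?_
    rw [sum_const, card_range, nsmul_eq_mul]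
  have hT : ‖∑ x ∈ range r, F (M + x)‖ ≤ r * C := by
    refine (norm_sum_le_of_le _ fun x _ => hF (M + x)).trans ?_
    rw [sum_const, card_range, nsmul_eq_mul]
  have e : avg (range (M + r)) F - avg (range M) F =
      (((M : ℝ) + r)⁻¹ - (M : ℝ)⁻¹) • ∑ x ∈ range M, F x +
        ((M : ℝ) + r)⁻¹ • ∑ x ∈ range r, F (M + x) := by
    unfold avg
    rw [card_range, card_range, sum_range_add, Nat.cast_add, smul_add, sub_smul]
    abel
  rw [e]
  have hneg : ((M : ℝ) + r)⁻¹ - (M : ℝ)⁻¹ = -((r : ℝ) / (M * (M + r))) := by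
    field_simp
    ring
  refine (norm_add_le _ _).trans ?_
  rw [norm_smul, norm_smul, hneg, norm_neg, Real.norm_of_nonneg (by positivity),
    Real.norm_of_nonneg (by positivity)]
  have h1 : (r : ℝ) / (M * (M + r)) * ‖∑ x ∈ range M, F x‖ ≤ (r : ℝ) / (M * (M + r)) * (M * C) :=
    mul_le_mul_of_nonneg_left hS (by positivity)
  have h2 : ((M : ℝ) + r)⁻¹ * ‖∑ x ∈ range r, F (M + x)‖ ≤ ((M : ℝ) + r)⁻¹ * (r * C) :=
    mul_le_mul_of_nonneg_left hT (by positivity)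
  refine (add_le_add h1 h2).trans (le_of_eq ?_)
  rw [Nat.cast_add]
  field_simp
  ring

lemma sum_range_mul' {A : Type*} [AddCommMonoid A] (F : ℕ → A) (k lam : ℕ) :
    ∑ m ∈ range (k * lam), F m = ∑ m' ∈ range k, ∑ a ∈ range lam, F (a + lam * m') := by
  induction k with
  | zero => simp
  | succ k ih =>
    rw [Nat.succ_mul, sum_range_add, ih, sum_range_succ]
    congr 1
    refine sum_congr rfl fun a _ => ?_
    congr 1
    ring

lemma avg_range_mul (F : ℕ → E) (k lam : ℕ) : avg (range (k * lam)) F =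
    avg (range k) (fun m' => avg (range lam) (fun a => F (a + lam * m'))) := by
  unfold avg
  rw [← smul_sum, smul_smul, card_range, card_range, card_range, sum_range_mul', Nat.cast_mul,
    mul_inv]

lemma avg_range_mod {F : ℕ → E} {C : ℝ} (hF : ∀ n, ‖F n‖ ≤ C) {lam N : ℕ} (hlam : 1 ≤ lam)
    (hN : 1 ≤ N) : ‖avg (range N) (fun m => F (m % lam)) - avg (range lam) F‖ ≤
      2 * (lam : ℝ) / N * C := by
  have hC : 0 ≤ C := (norm_nonneg _).trans (hF 0)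
  have hN0 : (0 : ℝ) < N := by exact_mod_cast hN
  by_cases hlN : lam ≤ N
  · have hk : 1 ≤ N / lam := Nat.div_pos hlN hlam
    have hk2 : N / lam * lam ≤ N := Nat.div_mul_le_self N lam
    have h1 := avg_range_cut (F := fun m => F (m % lam)) (fun n => hF _)
      (Nat.mul_pos hk hlam : 1 ≤ N / lam * lam) hk2
    have e : avg (range (N / lam * lam)) (fun m => F (m % lam)) = avg (range lam) F := by
      rw [avg_range_mul]
      have e2 : ∀ m' ∈ range (N / lam), avg (range lam) (fun a => F ((a + lam * m') % lam)) =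
          avg (range lam) F := by
        intro m' _
        refine avg_congr fun a ha => ?_
        rw [Nat.add_mul_mod_self_left, Nat.mod_eq_of_lt (mem_range.1 ha)]
      rw [avg_congr e2]
      exact avg_const (nonempty_range_iff.2 (by omega)) _
    rw [e] at h1
    refine h1.trans (mul_le_mul_of_nonneg_right ?_ hC)
    refine div_le_div_of_nonneg_right ?_ hN0.le
    have h2 : N ≤ N / lam * lam + lam := by
      have := Nat.div_add_mod' N lam
      have := Nat.mod_lt N hlam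
      omega
    have h3 : (N : ℝ) ≤ ((N / lam * lam : ℕ) : ℝ) + lam := by exact_mod_cast h2
    linarith
  · have h1 : ‖avg (range N) (fun m => F (m % lam))‖ ≤ C :=
      norm_avg_le_const hC fun _ _ => hF _
    have h2 : ‖avg (range lam) F‖ ≤ C := norm_avg_le_const hC fun _ _ => hF _
    have h3 : 1 ≤ (lam : ℝ) / N := by
      rw [one_le_div hN0]
      exact_mod_cast (le_of_not_ge hlN)
    have h4 := norm_sub_le (avg (range N) (fun m => F (m % lam))) (avg (range lam) F)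
    have h5 : 2 * C ≤ 2 * (lam : ℝ) / N * C := by
      rw [mul_div_assoc]
      nlinarith
    linarith

end

lemma avg_comm_le {α : Type*} (s : Finset α) (f : α → (H →L[ℂ] H)) (B : H →L[ℂ] H) {C : ℝ}
    (hC : 0 ≤ C) (h : ∀ a ∈ s, ‖f a * B - B * f a‖ ≤ C) :
    ‖avg s f * B - B * avg s f‖ ≤ C := by
  rw [RepAux.avg_mul, RepAux.mul_avg, ← avg_sub]
  exact norm_avg_le_const hC h

lemma adjoint_avg {α : Type*} (s : Finset α) (f : α → (H →L[ℂ] H)) :
    ContinuousLinearMap.adjoint (avg s f) =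
      avg s (fun a => ContinuousLinearMap.adjoint (f a)) := by
  unfold avg
  have e : ∀ (r : ℝ) (A : H →L[ℂ] H), r • A = (r : ℂ) • A := fun r A => (Complex.coe_smul r A).symm
  rw [e, e, map_smulₛₗ, map_sum, Complex.conj_ofReal]

lemma norm_mul_le_one {A B : H →L[ℂ] H} (hA : ‖A‖ ≤ 1) (hB : ‖B‖ ≤ 1) : ‖A * B‖ ≤ 1 :=
  (norm_mul_le A B).trans (mul_le_one₀ hA (norm_nonneg _) hB)

lemma norm_sub_le_two {A B : H →L[ℂ] H} (hA : ‖A‖ ≤ 1) (hB : ‖B‖ ≤ 1) : ‖A - B‖ ≤ 2 :=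
  (norm_sub_le A B).trans (by linarith)

lemma norm_adjoint_le_one {A : H →L[ℂ] H} (hA : ‖A‖ ≤ 1) :
    ‖ContinuousLinearMap.adjoint A‖ ≤ 1 := by
  rw [LinearIsometryEquiv.norm_map]
  exact hA

lemma adjoint_mul' (A B : H →L[ℂ] H) : ContinuousLinearMap.adjoint (A * B) =
    ContinuousLinearMap.adjoint B * ContinuousLinearMap.adjoint A :=
  ContinuousLinearMap.adjoint_comp A B

end ResidAux

open ResidAux

namespace Frame

variable {g : ℤ → G} (fr : Frame g) (U : G →* (H ≃ₗᵢ[ℂ] H))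

theorem resid1 : ∃ K : ℝ, 1 ≤ K ∧ ∀ (Q lam Nn : ℕ) (R : ℝ), 1 ≤ Q → 1 ≤ lam → lam ≤ Nn →
    md fr.W fr.D Q 1 ∣ lam → 1 ≤ R → R ≤ Nn →
    ‖Al U g Nn 1 * fr.Bj U 0 Q R - Al U g (Nn / lam) lam * (Al U g lam 1 * fr.Bj U 0 Q R)‖ ≤
      K * (((lam : ℝ) / Nn) * (Nn / R) ^ fr.D) := by
  obtain ⟨K1, hK1, hw⟩ := fr.window2
  obtain ⟨K2, hK2, hni⟩ := fr.ni U
  refine ⟨2 + 2 * K1 + K1 * K2, by nlinarith, ?_⟩
  intro Q lam Nn R hQ hlam hlN hdvd hR hRN
  have hlam0 : (0 : ℝ) < lam := by exact_mod_cast hlam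
  have hNn1 : 1 ≤ Nn := hlam.trans hlN
  have hNn0 : (0 : ℝ) < Nn := by exact_mod_cast hNn1
  have hR0 : 0 < R := by linarith
  have hNR : 1 ≤ (Nn : ℝ) / R := by rw [one_le_div hR0]; exact hRN
  have hP : 1 ≤ ((Nn : ℝ) / R) ^ fr.D := one_le_pow₀ hNR
  have hze0 : 0 ≤ (lam : ℝ) / Nn := by positivity
  have hze1 : (lam : ℝ) / Nn ≤ 1 := by
    rw [div_le_one hNn0]
    exact_mod_cast hlN
  have hX0 : 0 ≤ (lam : ℝ) / Nn * ((Nn : ℝ) / R) ^ fr.D := by positivity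
  have hB := fr.norm_Bj_le U 0 Q R
  by_cases hbig : 1 < K1 * ((lam : ℝ) / Nn) * ((Nn : ℝ) / R) ^ fr.D
  · have h1 := norm_sub_le_two (norm_mul_le_one (norm_Al_le U g Nn 1) hB)
      (norm_mul_le_one (norm_Al_le U g (Nn / lam) lam)
        (norm_mul_le_one (norm_Al_le U g lam 1) hB))
    refine h1.trans ?_
    nlinarith
  · rw [not_lt] at hbig
    have hdel0 : 0 ≤ K1 * ((lam : ℝ) / Nn) * ((Nn : ℝ) / R) ^ fr.D := by positivity
    have hk : 1 ≤ Nn / lam := Nat.div_pos hlN hlam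
    have hk2 : Nn / lam * lam ≤ Nn := Nat.div_mul_le_self Nn lam
    have hcut := avg_range_cut (F := fun m : ℕ => Uo U (g (((1 : ℕ) : ℤ) * m)) * fr.Bj U 0 Q R)
      (C := 1) (fun n => norm_mul_le_one (norm_Uo_le U _) hB)
      (Nat.mul_pos hk hlam : 1 ≤ Nn / lam * lam) hk2
    have e1 : Al U g Nn 1 * fr.Bj U 0 Q R =
        avg (range Nn) (fun m : ℕ => Uo U (g (((1 : ℕ) : ℤ) * m)) * fr.Bj U 0 Q R) := by
      unfold Al
      rw [RepAux.avg_mul]
    have e2 : Al U g (Nn / lam) lam * (Al U g lam 1 * fr.Bj U 0 Q R) =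
        avg (range (Nn / lam)) (fun m' : ℕ => avg (range lam) (fun a : ℕ =>
          Uo U (g ((lam : ℤ) * m')) * (Uo U (g (((1 : ℕ) : ℤ) * a)) * fr.Bj U 0 Q R))) := by
      unfold Al
      rw [RepAux.avg_mul]
      refine avg_congr fun m' _ => ?_
      rw [RepAux.avg_mul, RepAux.mul_avg]
    have e3 := avg_range_mul (fun m : ℕ => Uo U (g (((1 : ℕ) : ℤ) * m)) * fr.Bj U 0 Q R)
      (Nn / lam) lam
    have hmain : ‖avg (range (Nn / lam * lam))
        (fun m : ℕ => Uo U (g (((1 : ℕ) : ℤ) * m)) * fr.Bj U 0 Q R) -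
        Al U g (Nn / lam) lam * (Al U g lam 1 * fr.Bj U 0 Q R)‖ ≤
        K2 * (K1 * ((lam : ℝ) / Nn) * ((Nn : ℝ) / R) ^ fr.D) := by
      rw [e3, e2, ← avg_sub]
      refine norm_avg_le_const (by positivity) fun m' hm' => ?_
      rw [← avg_sub]
      refine norm_avg_le_const (by positivity) fun a ha => ?_
      rw [mem_range] at hm' ha
      have hmN : lam * m' ≤ Nn := by
        calc lam * m' ≤ lam * (Nn / lam) := Nat.mul_le_mul_left _ hm'.le
          _ ≤ Nn := by rw [mul_comm]; exact hk2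
      have h1 := hw (Nn : ℝ) ((lam : ℝ) / Nn) (a : ℤ) ((lam : ℤ) * m') (by exact_mod_cast hNn1)
        hze0 hze1 (by
          rw [div_mul_cancel₀ _ hNn0.ne', Int.cast_natCast, abs_of_nonneg (Nat.cast_nonneg _)]
          exact_mod_cast ha.le) (by
          rw [Int.cast_mul, Int.cast_natCast, Int.cast_natCast, abs_of_nonneg (by positivity)]
          exact_mod_cast hmN) Q (Dvd.dvd.mul_right (by exact_mod_cast hdvd) _)
      have h2 := fr.Sm_down hR hRN (by positivity) h1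
      have h3 := (hni 0 Q R _ _ hQ hR hdel0 hbig h2).1
      have e4 : ((1 : ℕ) : ℤ) * ((a + lam * m' : ℕ) : ℤ) = (a : ℤ) + (lam : ℤ) * m' := by
        push_cast
        ring
      have e5 : g ((a : ℤ) + (lam : ℤ) * m') = g ((lam : ℤ) * m') * g (((1 : ℕ) : ℤ) * a) *
          ((g ((lam : ℤ) * m') * g a)⁻¹ * g ((a : ℤ) + (lam : ℤ) * m')) := by
        rw [Nat.cast_one, one_mul, mul_inv_cancel_left]
      have e6 : Uo U (g (((1 : ℕ) : ℤ) * ((a + lam * m' : ℕ) : ℤ))) * fr.Bj U 0 Q R -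
          Uo U (g ((lam : ℤ) * m')) * (Uo U (g (((1 : ℕ) : ℤ) * a)) * fr.Bj U 0 Q R) =
          Uo U (g ((lam : ℤ) * m')) * (Uo U (g (((1 : ℕ) : ℤ) * a)) *
            (Uo U ((g ((lam : ℤ) * m') * g a)⁻¹ * g ((a : ℤ) + (lam : ℤ) * m')) *
              fr.Bj U 0 Q R - fr.Bj U 0 Q R)) := by
        rw [e4, e5, Uo_mul, Uo_mul, mul_sub, mul_sub, mul_assoc, mul_assoc]
        rw [← e5]
      rw [e6]
      refine (norm_mul_le _ _).trans ?_
      refine (mul_le_of_le_one_left (norm_nonneg _) (norm_Uo_le U _)).trans ?_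
      refine (norm_mul_le _ _).trans ?_
      refine (mul_le_of_le_one_left (norm_nonneg _) (norm_Uo_le U _)).trans ?_
      exact h3
    rw [← e1] at hcut
    have hfin := norm_sub_le_norm_sub_add_norm_sub (Al U g Nn 1 * fr.Bj U 0 Q R)
      (avg (range (Nn / lam * lam))
        (fun m : ℕ => Uo U (g (((1 : ℕ) : ℤ) * m)) * fr.Bj U 0 Q R))
      (Al U g (Nn / lam) lam * (Al U g lam 1 * fr.Bj U 0 Q R))
    have hcut2 : 2 * ((Nn : ℝ) - ((Nn / lam * lam : ℕ) : ℝ)) / Nn * 1 ≤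
        2 * ((lam : ℝ) / Nn * ((Nn : ℝ) / R) ^ fr.D) := by
      have h2 : Nn ≤ Nn / lam * lam + lam := by
        have := Nat.div_add_mod' Nn lam
        have := Nat.mod_lt Nn hlam
        omega
      have h3 : (Nn : ℝ) ≤ ((Nn / lam * lam : ℕ) : ℝ) + lam := by exact_mod_cast h2
      calc 2 * ((Nn : ℝ) - ((Nn / lam * lam : ℕ) : ℝ)) / Nn * 1 ≤ 2 * (lam : ℝ) / Nn * 1 := by
            refine mul_le_mul_of_nonneg_right (div_le_div_of_nonneg_right ?_ hNn0.le) zero_le_one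
            linarith
        _ = 2 * ((lam : ℝ) / Nn) := by ring
        _ ≤ _ := by nlinarith
    have hmain2 : K2 * (K1 * ((lam : ℝ) / Nn) * ((Nn : ℝ) / R) ^ fr.D) =
        K1 * K2 * ((lam : ℝ) / Nn * ((Nn : ℝ) / R) ^ fr.D) := by ring
    rw [hmain2] at hmain
    have hK : 0 ≤ 2 * K1 * ((lam : ℝ) / Nn * ((Nn : ℝ) / R) ^ fr.D) := by positivity
    nlinarith

theorem resid2 : ∃ K : ℝ, 1 ≤ K ∧ ∀ (Q lam : ℕ) (R : ℝ), 1 ≤ Q → 1 ≤ lam → 1 ≤ R →
    ‖Al U g lam 1 * fr.Bj U 0 Q R - fr.Bj U 0 Q R * Al U g lam 1‖ ≤ K * ((lam : ℝ) / R) := by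
  obtain ⟨K1, hK1, hs⟩ := fr.seq_small
  obtain ⟨K2, hK2, hcn⟩ := fr.cn U
  refine ⟨2 * K1 + K1 * K2, by nlinarith, ?_⟩
  intro Q lam R hQ hlam hR
  have hR0 : 0 < R := by linarith
  have hlam0 : (0 : ℝ) < lam := by exact_mod_cast hlam
  have hX0 : 0 ≤ (lam : ℝ) / R := by positivity
  have hB := fr.norm_Bj_le U 0 Q R
  by_cases hbig : 1 < K1 * ((lam : ℝ) / R)
  · have h1 := norm_sub_le_two (norm_mul_le_one (norm_Al_le U g lam 1) hB)
      (norm_mul_le_one hB (norm_Al_le U g lam 1))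
    refine h1.trans ?_
    nlinarith [mul_nonneg (mul_nonneg (by linarith : (0 : ℝ) ≤ K1) (by linarith : (0 : ℝ) ≤ K2)) hX0]
  · rw [not_lt] at hbig
    have hX1 : (lam : ℝ) / R ≤ 1 := by nlinarith
    have hmain : ‖Al U g lam 1 * fr.Bj U 0 Q R - fr.Bj U 0 Q R * Al U g lam 1‖ ≤
        K2 * (K1 * ((lam : ℝ) / R)) := by
      refine avg_comm_le _ _ _ (by positivity) fun a ha => ?_
      rw [mem_range] at ha
      have h1 := (hs R ((lam : ℝ) / R) (((1 : ℕ) : ℤ) * a) hR hX0 hX1 (by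
        rw [div_mul_cancel₀ _ hR0.ne', Nat.cast_one, one_mul, Int.cast_natCast,
          abs_of_nonneg (Nat.cast_nonneg _)]
        exact_mod_cast ha.le)).1
      have h2 := hcn Q R _ _ hQ hR (by positivity) hbig h1
      rw [norm_sub_rev]
      exact h2
    have hK : 0 ≤ 2 * K1 * ((lam : ℝ) / R) := by positivity
    nlinarith

omit [CompleteSpace H] in
lemma ResidAux.unit_avg {α : Type*} {s : Finset α} {f : α → (H →L[ℂ] H)}
    (h : ∀ a ∈ s, ‖f a‖ ≤ 1) : ‖avg s f‖ ≤ 1 := norm_avg_le_const zero_le_one h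

lemma ResidAux.adjoint_Al (M lam : ℕ) : ContinuousLinearMap.adjoint (Al U g M lam) =
    avg (range M) (fun m : ℕ => Uo U (g (lam * m))⁻¹) := by
  unfold Al
  rw [adjoint_avg]
  exact avg_congr fun a _ => adjoint_Uo U _

lemma ResidAux.adjoint_Bj (j Q : ℕ) (R : ℝ) : ContinuousLinearMap.adjoint (fr.Bj U j Q R) =
    avg (bx (fr.side j Q R)) (fun t => Uo U (kap fr.c (fun i => (fr.mo Q i : ℤ) * t i))⁻¹) := by
  unfold Bj BM
  rw [adjoint_avg]
  exact avg_congr fun a _ => adjoint_Uo U _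

theorem resid3 : ∃ K : ℝ, 1 ≤ K ∧ ∀ (q N1 N2 Nmax : ℕ) (rho : ℝ), 1 ≤ q → 1 ≤ N1 → 1 ≤ N2 →
    N1 ≤ Nmax → N2 ≤ Nmax → 1 ≤ rho →
    ‖fr.Bj U 0 q rho * (ContinuousLinearMap.adjoint (Al U g N1 1) -
      ContinuousLinearMap.adjoint (Al U g N2 1))‖ ≤
      K * ((Nmax : ℝ) / rho + (q : ℝ) / N1 + (q : ℝ) / N2) := by
  obtain ⟨K1, hK1, hw⟩ := fr.window
  obtain ⟨K2, hK2c⟩ := fr.exists_consts
  have hK2 := hK2c.one_le
  obtain ⟨K3, hK3, hni⟩ := fr.ni U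
  have hW1 : (1 : ℝ) ≤ fr.W := by exact_mod_cast fr.W_pos
  have hWD : (1 : ℝ) ≤ (fr.W : ℝ) ^ (fr.D - 1) := one_le_pow₀ hW1
  have hKK : 0 ≤ 2 * (K1 * K2) + 2 * (K1 * K2 * K3) := by positivity
  refine ⟨2 * (K1 * K2) + 2 * (K1 * K2 * K3) + 2 * (fr.W : ℝ) ^ (fr.D - 1), by linarith, ?_⟩
  intro q N1 N2 Nmax rho hq hN1 hN2 hN1m hN2m hrho
  have hrho0 : 0 < rho := by linarith
  have hN10 : (0 : ℝ) < N1 := by exact_mod_cast hN1
  have hN20 : (0 : ℝ) < N2 := by exact_mod_cast hN2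
  have hNm0 : (0 : ℝ) < Nmax := by exact_mod_cast hN1.trans hN1m
  have hq0 : (0 : ℝ) < q := by exact_mod_cast hq
  have hB := fr.norm_Bj_le U 0 q rho
  have hX0 : 0 ≤ (Nmax : ℝ) / rho := by positivity
  have hY1 : 0 ≤ (q : ℝ) / N1 := by positivity
  have hY2 : 0 ≤ (q : ℝ) / N2 := by positivity
  have hK12 : 1 ≤ K1 * K2 := by nlinarith
  have hK123 : 0 ≤ K1 * K2 * K3 := by positivity
  by_cases hbig : 1 < K1 * K2 * ((Nmax : ℝ) / rho)
  · have h1 : ‖fr.Bj U 0 q rho * (ContinuousLinearMap.adjoint (Al U g N1 1) -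
        ContinuousLinearMap.adjoint (Al U g N2 1))‖ ≤ 2 := by
      rw [mul_sub]
      exact norm_sub_le_two (norm_mul_le_one hB (norm_adjoint_le_one (norm_Al_le U g N1 1)))
        (norm_mul_le_one hB (norm_adjoint_le_one (norm_Al_le U g N2 1)))
    refine h1.trans ?_
    have h2 : 0 ≤ (2 * (K1 * K2 * K3) + 2 * (fr.W : ℝ) ^ (fr.D - 1)) *
        ((Nmax : ℝ) / rho + (q : ℝ) / N1 + (q : ℝ) / N2) := by positivity
    have h3 : 0 ≤ 2 * (K1 * K2) * ((q : ℝ) / N1 + (q : ℝ) / N2) := by positivity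
    nlinarith
  · rw [not_lt] at hbig
    have hX1 : (Nmax : ℝ) / rho ≤ 1 := by nlinarith
    have hdel0 : 0 ≤ K1 * ((Nmax : ℝ) / rho) := by positivity
    have hdel1 : K1 * ((Nmax : ℝ) / rho) ≤ 1 := by nlinarith
    have hNr : (Nmax : ℝ) ≤ rho := by rwa [div_le_one hrho0] at hX1
    obtain ⟨lam, hlamdef⟩ : ∃ lam, lam = md fr.W fr.D q 1 := ⟨_, rfl⟩
    have hlam1 : 1 ≤ lam := by
      rw [hlamdef]
      unfold md
      exact Nat.mul_pos (pow_pos fr.W_pos _) hq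
    have hlamR : (lam : ℝ) = (fr.W : ℝ) ^ (fr.D - 1) * q := by
      rw [hlamdef]
      unfold md
      push_cast
      rfl
    -- one element
    have hone : ∀ m : ℕ, m ≤ Nmax → ‖fr.Bj U 0 q rho * Uo U (g (((1 : ℕ) : ℤ) * m))⁻¹ -
        fr.Bj U 0 q rho * Uo U (g (((m % lam : ℕ) : ℤ)))⁻¹‖ ≤
        K3 * (K2 * (K1 * ((Nmax : ℝ) / rho))) := by
      intro m hm
      have hmod : m = m % lam + lam * (m / lam) := (Nat.mod_add_div m lam).symm
      have h1 := (hw (Nmax : ℝ) 1 ((m % lam : ℕ) : ℤ) ((lam : ℤ) * ((m / lam : ℕ) : ℤ))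
        (by exact_mod_cast hN1.trans hN1m) zero_le_one le_rfl (by
          rw [Int.cast_natCast, abs_of_nonneg (Nat.cast_nonneg _)]
          exact_mod_cast (Nat.mod_le _ _).trans hm) (by
          rw [Int.cast_mul, Int.cast_natCast, Int.cast_natCast, abs_of_nonneg (by positivity),
            one_mul]
          exact_mod_cast (Nat.mul_div_le m lam).trans hm)).2 q (by
            rw [hlamdef]
            exact Dvd.dvd.mul_right dvd_rfl _)
      rw [mul_one] at h1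
      have h2 := fr.Sm_up (by exact_mod_cast hN1.trans hN1m : (1 : ℝ) ≤ Nmax) hNr (by linarith) h1
      have h3 := hK2c.sm_inv 1 q rho _ _ hrho hdel0 hdel1 h2
      have hz1 : K2 * (K1 * ((Nmax : ℝ) / rho)) ≤ 1 := by
        calc K2 * (K1 * ((Nmax : ℝ) / rho)) = K1 * K2 * ((Nmax : ℝ) / rho) := by ring
          _ ≤ 1 := hbig
      have h4 := (hni 0 q rho _ _ hq hrho (by positivity) hz1 h3).2
      have e1 : ((m % lam : ℕ) : ℤ) + (lam : ℤ) * ((m / lam : ℕ) : ℤ) = ((1 : ℕ) : ℤ) * (m : ℤ) := by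
        rw [Nat.cast_one, one_mul]
        exact_mod_cast (Nat.mod_add_div m lam)
      rw [e1] at h4
      have e2 : (g (((1 : ℕ) : ℤ) * m))⁻¹ = ((g ((m % lam : ℕ) : ℤ))⁻¹ * g (((1 : ℕ) : ℤ) * m))⁻¹ *
          (g ((m % lam : ℕ) : ℤ))⁻¹ := by
        group
      have e3 : fr.Bj U 0 q rho * Uo U (g (((1 : ℕ) : ℤ) * m))⁻¹ -
          fr.Bj U 0 q rho * Uo U (g (((m % lam : ℕ) : ℤ)))⁻¹ =
          (fr.Bj U 0 q rho * Uo U ((g ((m % lam : ℕ) : ℤ))⁻¹ * g (((1 : ℕ) : ℤ) * m))⁻¹ -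
            fr.Bj U 0 q rho) * Uo U (g ((m % lam : ℕ) : ℤ))⁻¹ := by
        rw [e2, Uo_mul, sub_mul, mul_assoc]
      rw [e3]
      refine (norm_mul_le _ _).trans ?_
      exact (mul_le_of_le_one_right (norm_nonneg _) (norm_Uo_le U _)).trans h4
    -- averages
    have havg : ∀ N : ℕ, 1 ≤ N → N ≤ Nmax →
        ‖fr.Bj U 0 q rho * ContinuousLinearMap.adjoint (Al U g N 1) -
          avg (range lam) (fun a : ℕ => fr.Bj U 0 q rho * Uo U (g (a : ℤ))⁻¹)‖ ≤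
        K3 * (K2 * (K1 * ((Nmax : ℝ) / rho))) + 2 * (lam : ℝ) / N * 1 := by
      intro N hN hNm
      have h1 := avg_range_mod (F := fun a : ℕ => fr.Bj U 0 q rho * Uo U (g (a : ℤ))⁻¹) (C := 1)
        (fun n => norm_mul_le_one hB (norm_Uo_le U _)) hlam1 hN
      have h2 : ‖fr.Bj U 0 q rho * ContinuousLinearMap.adjoint (Al U g N 1) -
          avg (range N) (fun m : ℕ => fr.Bj U 0 q rho * Uo U (g ((m % lam : ℕ) : ℤ))⁻¹)‖ ≤
          K3 * (K2 * (K1 * ((Nmax : ℝ) / rho))) := by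
        rw [ResidAux.adjoint_Al, RepAux.mul_avg, ← avg_sub]
        exact norm_avg_le_const (by positivity) fun m hm =>
          hone m ((mem_range.1 hm).le.trans hNm)
      have h3 := norm_sub_le_norm_sub_add_norm_sub
        (fr.Bj U 0 q rho * ContinuousLinearMap.adjoint (Al U g N 1))
        (avg (range N) (fun m : ℕ => fr.Bj U 0 q rho * Uo U (g ((m % lam : ℕ) : ℤ))⁻¹))
        (avg (range lam) (fun a : ℕ => fr.Bj U 0 q rho * Uo U (g (a : ℤ))⁻¹))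
      linarith
    have h1 := havg N1 hN1 hN1m
    have h2 := havg N2 hN2 hN2m
    rw [norm_sub_rev] at h2
    have h3 := norm_sub_le_norm_sub_add_norm_sub
      (fr.Bj U 0 q rho * ContinuousLinearMap.adjoint (Al U g N1 1))
      (avg (range lam) (fun a : ℕ => fr.Bj U 0 q rho * Uo U (g (a : ℤ))⁻¹))
      (fr.Bj U 0 q rho * ContinuousLinearMap.adjoint (Al U g N2 1))
    rw [mul_sub]
    refine h3.trans ((add_le_add h1 h2).trans ?_)
    have e4 : K3 * (K2 * (K1 * ((Nmax : ℝ) / rho))) + 2 * (lam : ℝ) / N1 * 1 +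
        (K3 * (K2 * (K1 * ((Nmax : ℝ) / rho))) + 2 * (lam : ℝ) / N2 * 1) =
        2 * (K1 * K2 * K3) * ((Nmax : ℝ) / rho) +
          2 * (fr.W : ℝ) ^ (fr.D - 1) * ((q : ℝ) / N1 + (q : ℝ) / N2) := by
      rw [hlamR]
      ring
    rw [e4]
    have h5 : 0 ≤ 2 * (K1 * K2) * ((Nmax : ℝ) / rho + (q : ℝ) / N1 + (q : ℝ) / N2) := by positivity
    have h6 : 0 ≤ 2 * (K1 * K2 * K3) * ((q : ℝ) / N1 + (q : ℝ) / N2) := by positivity
    have h7 : 0 ≤ 2 * (fr.W : ℝ) ^ (fr.D - 1) * ((Nmax : ℝ) / rho) := by positivity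
    linarith

lemma ResidAux.two_rpow {m l : ℕ} (h : l ≤ m) :
    (2 : ℝ) ^ (-|(m : ℝ) - l|) = (2 : ℝ) ^ l / 2 ^ m := by
  have h1 : (l : ℝ) ≤ m := by exact_mod_cast h
  rw [abs_of_nonneg (by linarith), neg_sub, Real.rpow_sub (by norm_num), Real.rpow_natCast,
    Real.rpow_natCast]

lemma ResidAux.b2_absorb : ∃ K : ℝ, 1 ≤ K ∧ ∀ (Q m l : ℕ), 1 ≤ Q → l ≤ m →
    ‖fr.B2 U Q m * ContinuousLinearMap.adjoint (fr.B2 U Q l) - fr.B2 U Q m‖ ≤
      K * ((2 : ℝ) ^ l / 2 ^ m) := by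
  obtain ⟨K1, hK1c⟩ := fr.exists_consts
  have hK1 := hK1c.one_le
  obtain ⟨K2, hK2, hni⟩ := fr.ni U
  refine ⟨2 * K1 + K1 * K2, by nlinarith, ?_⟩
  intro Q m l hQ hlm
  have hl1 : (1 : ℝ) ≤ 2 ^ l := one_le_pow₀ (by norm_num)
  have hm1 : (1 : ℝ) ≤ 2 ^ m := one_le_pow₀ (by norm_num)
  have hlm2 : (2 : ℝ) ^ l ≤ 2 ^ m := pow_le_pow_right₀ (by norm_num) hlm
  have hX0 : 0 ≤ (2 : ℝ) ^ l / 2 ^ m := by positivity
  have hB := fr.norm_B2_le U Q m
  by_cases hbig : 1 < K1 * ((2 : ℝ) ^ l / 2 ^ m)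
  · have h1 := norm_sub_le_two
      (norm_mul_le_one hB (norm_adjoint_le_one (fr.norm_B2_le U Q l))) hB
    refine h1.trans ?_
    have : 0 ≤ K1 * K2 * ((2 : ℝ) ^ l / 2 ^ m) := by positivity
    nlinarith
  · rw [not_lt] at hbig
    have hmain : ‖fr.B2 U Q m * ContinuousLinearMap.adjoint (fr.B2 U Q l) - fr.B2 U Q m‖ ≤
        K2 * (K1 * ((2 : ℝ) ^ l / 2 ^ m)) := by
      have e1 : ContinuousLinearMap.adjoint (fr.B2 U Q l) =
          avg (bx (fr.side 0 Q ((2 : ℝ) ^ l)))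
            (fun t => Uo U (kap fr.c (fun i => (fr.mo Q i : ℤ) * t i))⁻¹) :=
        ResidAux.adjoint_Bj fr U 0 Q _
      rw [e1, RepAux.mul_avg]
      have e2 : fr.B2 U Q m = avg (bx (fr.side 0 Q ((2 : ℝ) ^ l))) (fun _ => fr.B2 U Q m) :=
        (avg_const (bx_nonempty _) _).symm
      have e3 : avg (bx (fr.side 0 Q ((2 : ℝ) ^ l)))
            (fun t => fr.B2 U Q m * Uo U (kap fr.c (fun i => (fr.mo Q i : ℤ) * t i))⁻¹) -
            fr.B2 U Q m = avg (bx (fr.side 0 Q ((2 : ℝ) ^ l)))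
            (fun t => fr.B2 U Q m * Uo U (kap fr.c (fun i => (fr.mo Q i : ℤ) * t i))⁻¹ -
            fr.B2 U Q m) := by
        rw [avg_sub, ← e2]
      rw [e3]
      refine norm_avg_le_const (by positivity) fun t ht => ?_
      have h1 := fr.mem_box hQ hl1 ht
      have h2 := hK1c.sm_inv _ Q _ 1 _ hl1 zero_le_one le_rfl h1
      rw [mul_one] at h2
      have h3 := fr.Sm_up hl1 hlm2 (by linarith) h2
      exact (hni 0 Q _ _ _ hQ hm1 (by positivity) hbig h3).2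
    have hK : 0 ≤ 2 * K1 * ((2 : ℝ) ^ l / 2 ^ m) := by positivity
    nlinarith

/-- the case `l < m` -/
lemma ResidAux.delta_lt {K : ℝ} {Q m l : ℕ} (hlm : l < m)
    (h : ∀ m l, l ≤ m → ‖fr.B2 U Q m * ContinuousLinearMap.adjoint (fr.B2 U Q l) -
      fr.B2 U Q m‖ ≤ K * ((2 : ℝ) ^ l / 2 ^ m)) :
    ‖(fr.B2 U Q m - fr.B2 U Q (m + 1)) *
      ContinuousLinearMap.adjoint (fr.B2 U Q l - fr.B2 U Q (l + 1))‖ ≤
      5 * K * ((2 : ℝ) ^ l / 2 ^ m) := by
  have h1 := h m l hlm.le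
  have h2 := h m (l + 1) hlm
  have h3 := h (m + 1) l (by omega)
  have h4 := h (m + 1) (l + 1) (by omega)
  have hK : 0 ≤ K * ((2 : ℝ) ^ l / 2 ^ m) := (norm_nonneg _).trans h1
  have e : (fr.B2 U Q m - fr.B2 U Q (m + 1)) *
      ContinuousLinearMap.adjoint (fr.B2 U Q l - fr.B2 U Q (l + 1)) =
      (fr.B2 U Q m * ContinuousLinearMap.adjoint (fr.B2 U Q l) - fr.B2 U Q m) -
      (fr.B2 U Q m * ContinuousLinearMap.adjoint (fr.B2 U Q (l + 1)) - fr.B2 U Q m) -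
      (fr.B2 U Q (m + 1) * ContinuousLinearMap.adjoint (fr.B2 U Q l) - fr.B2 U Q (m + 1)) +
      (fr.B2 U Q (m + 1) * ContinuousLinearMap.adjoint (fr.B2 U Q (l + 1)) -
        fr.B2 U Q (m + 1)) := by
    rw [map_sub, sub_mul, mul_sub, mul_sub]
    abel
  rw [e]
  have h5 := norm_add_le ((fr.B2 U Q m * ContinuousLinearMap.adjoint (fr.B2 U Q l) - fr.B2 U Q m) -
      (fr.B2 U Q m * ContinuousLinearMap.adjoint (fr.B2 U Q (l + 1)) - fr.B2 U Q m) -
      (fr.B2 U Q (m + 1) * ContinuousLinearMap.adjoint (fr.B2 U Q l) - fr.B2 U Q (m + 1)))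
      (fr.B2 U Q (m + 1) * ContinuousLinearMap.adjoint (fr.B2 U Q (l + 1)) - fr.B2 U Q (m + 1))
  have h6 := norm_sub_le ((fr.B2 U Q m * ContinuousLinearMap.adjoint (fr.B2 U Q l) -
      fr.B2 U Q m) -
      (fr.B2 U Q m * ContinuousLinearMap.adjoint (fr.B2 U Q (l + 1)) - fr.B2 U Q m))
      (fr.B2 U Q (m + 1) * ContinuousLinearMap.adjoint (fr.B2 U Q l) - fr.B2 U Q (m + 1))
  have h7 := norm_sub_le (fr.B2 U Q m * ContinuousLinearMap.adjoint (fr.B2 U Q l) -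
      fr.B2 U Q m)
      (fr.B2 U Q m * ContinuousLinearMap.adjoint (fr.B2 U Q (l + 1)) - fr.B2 U Q m)
  have e1 : K * ((2 : ℝ) ^ (l + 1) / 2 ^ m) = 2 * (K * ((2 : ℝ) ^ l / 2 ^ m)) := by
    rw [pow_succ]
    ring
  have e2 : K * ((2 : ℝ) ^ l / 2 ^ (m + 1)) = (K * ((2 : ℝ) ^ l / 2 ^ m)) / 2 := by
    rw [pow_succ]
    ring
  have e3 : K * ((2 : ℝ) ^ (l + 1) / 2 ^ (m + 1)) = K * ((2 : ℝ) ^ l / 2 ^ m) := by
    rw [pow_succ, pow_succ]
    ring
  rw [e1] at h2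
  rw [e2] at h3
  rw [e3] at h4
  linarith

theorem delta : ∃ K : ℝ, 1 ≤ K ∧ ∀ (Q m l : ℕ), 1 ≤ Q →
    ‖(fr.B2 U Q m - fr.B2 U Q (m + 1)) *
      ContinuousLinearMap.adjoint (fr.B2 U Q l - fr.B2 U Q (l + 1))‖ ≤
      K * (2 : ℝ) ^ (-|(m : ℝ) - l|) := by
  obtain ⟨K, hK, h⟩ := ResidAux.b2_absorb fr U
  refine ⟨5 * K + 4, by linarith, fun Q m l hQ => ?_⟩
  rcases lt_trichotomy l m with hlm | hlm | hlm
  · have h1 := ResidAux.delta_lt fr U hlm fun m l hml => h Q m l hQ hml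
    rw [ResidAux.two_rpow hlm.le]
    have h2 : 0 ≤ (2 : ℝ) ^ l / 2 ^ m := by positivity
    linarith
  · subst hlm
    have h1 : ∀ k, ‖fr.B2 U Q k - fr.B2 U Q (k + 1)‖ ≤ 2 := fun k =>
      norm_sub_le_two (fr.norm_B2_le U Q k) (fr.norm_B2_le U Q (k + 1))
    have h2 : ‖ContinuousLinearMap.adjoint (fr.B2 U Q l - fr.B2 U Q (l + 1))‖ ≤ 2 := by
      rw [LinearIsometryEquiv.norm_map]
      exact h1 l
    have h3 := (norm_mul_le (fr.B2 U Q l - fr.B2 U Q (l + 1))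
      (ContinuousLinearMap.adjoint (fr.B2 U Q l - fr.B2 U Q (l + 1)))).trans
      (mul_le_mul (h1 l) h2 (norm_nonneg _) (by norm_num))
    rw [sub_self, abs_zero, neg_zero, Real.rpow_zero]
    linarith
  · have h1 := ResidAux.delta_lt fr U hlm fun m l hml => h Q m l hQ hml
    rw [← LinearIsometryEquiv.norm_map ContinuousLinearMap.adjoint, adjoint_mul',
      ContinuousLinearMap.adjoint_adjoint, abs_sub_comm, ResidAux.two_rpow hlm.le]
    have h2 : 0 ≤ (2 : ℝ) ^ m / 2 ^ l := by positivity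
    linarith

lemma ResidAux.comm_aux : ∃ K : ℝ, 1 ≤ K ∧ ∀ (Q Q' : ℕ) (R rho : ℝ), 1 ≤ Q → 1 ≤ Q' → 1 ≤ rho →
    rho ≤ R →
    ‖fr.Bj U 0 Q R * fr.Bj U 0 Q' rho - fr.Bj U 0 Q' rho * fr.Bj U 0 Q R‖ ≤ K * (rho / R) ∧
    ‖fr.Bj U 0 Q R * ContinuousLinearMap.adjoint (fr.Bj U 0 Q' rho) -
      ContinuousLinearMap.adjoint (fr.Bj U 0 Q' rho) * fr.Bj U 0 Q R‖ ≤ K * (rho / R) := by
  obtain ⟨K1, hK1c⟩ := fr.exists_consts
  have hK1 := hK1c.one_le
  obtain ⟨K2, hK2, hcn⟩ := fr.cn U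
  refine ⟨2 * K1 + K1 * K2, by nlinarith, ?_⟩
  intro Q Q' R rho hQ hQ' hrho hR
  have hR1 : 1 ≤ R := hrho.trans hR
  have hR0 : 0 < R := by linarith
  have hd0 : 0 ≤ rho / R := div_nonneg (by linarith) hR0.le
  have hd1 : rho / R ≤ 1 := (div_le_one hR0).mpr hR
  have hB := fr.norm_Bj_le U 0 Q R
  have hB' := fr.norm_Bj_le U 0 Q' rho
  have hmem : ∀ t ∈ bx (fr.side 0 Q' rho), kap fr.c (fun i => (fr.mo Q' i : ℤ) * t i) ∈
      fr.Sa 1 R (rho / R) := by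
    intro t ht
    have h1 := fr.Sm_subset_Sa _ _ _ _ (fr.mem_box hQ' hrho ht)
    have h3 := fr.Sa_up hrho hR zero_le_one h1
    rwa [one_mul] at h3
  have hK12 : K2 ≤ K1 * K2 := by nlinarith
  constructor
  · have h1 : ‖fr.Bj U 0 Q R * fr.Bj U 0 Q' rho - fr.Bj U 0 Q' rho * fr.Bj U 0 Q R‖ ≤
        K2 * (rho / R) := by
      rw [norm_sub_rev]
      refine avg_comm_le _ _ _ (by positivity) fun t ht => ?_
      rw [norm_sub_rev]
      exact hcn Q R _ _ hQ hR1 hd0 hd1 (hmem t ht)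
    refine h1.trans (mul_le_mul_of_nonneg_right (by linarith) hd0)
  · by_cases hbig : 1 < K1 * (rho / R)
    · have h1 := norm_sub_le_two (norm_mul_le_one hB (norm_adjoint_le_one hB'))
        (norm_mul_le_one (norm_adjoint_le_one hB') hB)
      refine h1.trans ?_
      have : 0 ≤ K1 * K2 * (rho / R) := by positivity
      nlinarith
    · rw [not_lt] at hbig
      have h1 : ‖fr.Bj U 0 Q R * ContinuousLinearMap.adjoint (fr.Bj U 0 Q' rho) -
          ContinuousLinearMap.adjoint (fr.Bj U 0 Q' rho) * fr.Bj U 0 Q R‖ ≤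
          K2 * (K1 * (rho / R)) := by
        rw [norm_sub_rev, ResidAux.adjoint_Bj]
        refine avg_comm_le _ _ _ (by positivity) fun t ht => ?_
        rw [norm_sub_rev]
        exact hcn Q R _ _ hQ hR1 (by positivity) hbig
          (hK1c.sa_inv 1 R _ _ hR1 hd0 hd1 (hmem t ht))
      have h2 : 0 ≤ 2 * K1 * (rho / R) := by positivity
      nlinarith

end Frame

end Pool.Nil
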