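import Pool.Agent.Nil.Pack
import Pool.Agent.Nil.Resid
import Pool.Agent.Nil.Inv

set_option autoImplicit false

/-!
# Nil: existence of the constants of the operator calculus
-/

namespace Pool.Nil

open Finset

variable {G : Type*} [Group G] {H : Type*} [NormedAddCommGroup H] [InnerProductSpace ℂ H]
  [CompleteSpace H]

namespace Frame

variable {g : ℤ → G} (fr : Frame g) (U : G →* (H ≃ₗᵢ[ℂ] H))

/-- (`comm` by averaging `cn` over the elements of the smaller box, their inverses for the adjoint,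
`sm_inv`; all other items are proved above or in `Rep`, `Inv`; take the maximum of the constants) -/
theorem exists_pack : ∃ (c : ℕ) (K : ℝ), fr.Pack U c K := by
  obtain ⟨c, hc, hinv⟩ := fr.inverse U
  obtain ⟨K1, hK1, h1⟩ := fr.ni U
  obtain ⟨K2, hK2, h2⟩ := fr.absorb U
  obtain ⟨K3, hK3, h3⟩ := ResidAux.comm_aux fr U
  obtain ⟨K4, hK4, h4⟩ := fr.coset U
  obtain ⟨K5, hK5, h5⟩ := fr.coset_absorb U
  obtain ⟨K6, hK6, h6⟩ := fr.resid1 U
  obtain ⟨K7, hK7, h7⟩ := fr.resid2 U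
  obtain ⟨K8, hK8, h8⟩ := fr.resid3 U
  obtain ⟨K9, hK9, h9⟩ := fr.delta U
  obtain ⟨K, hKdef⟩ : ∃ K, K = K1 + K2 + K3 + K4 + K5 + K6 + K7 + K8 + K9 := ⟨_, rfl⟩
  have up : ∀ {a K' x : ℝ}, a ≤ K' * x → K' ≤ K → 0 ≤ x → a ≤ K * x := fun h hK hx =>
    h.trans (mul_le_mul_of_nonneg_right hK hx)
  refine ⟨c, K, ⟨hc, by linarith, hinv, ?_, ?_, ?_, ?_, ?_, ?_, ?_, ?_, ?_⟩⟩
  · intro Q R del x hQ hR hd hd1 hx
    have h := h1 0 Q R del x hQ hR hd hd1 hx
    exact ⟨up h.1 (by linarith) hd, up h.2 (by linarith) hd⟩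
  · intro Q Q' R rho hQ hQ' hdvd hrho hR
    have h := h2 0 Q Q' R rho hQ hQ' hdvd hrho hR
    have hx : 0 ≤ rho / R := div_nonneg (by linarith) (by linarith)
    exact ⟨up h.1 (by linarith) hx, up h.2 (by linarith) hx⟩
  · intro Q Q' R rho hQ hQ' hrho hR
    have h := h3 Q Q' R rho hQ hQ' hrho hR
    have hx : 0 ≤ rho / R := div_nonneg (by linarith) (by linarith)
    exact ⟨up h.1 (by linarith) hx, up h.2 (by linarith) hx⟩
  · intro Q n R hQ hn hR
    exact up (h4 Q n R hQ hn hR) (by linarith) (by positivity)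
  · intro q Q n R hq hQ hdvd hn hR
    exact up (h5 q Q n R hq hQ hdvd hn hR) (by linarith) (by positivity)
  · intro Q lam Nn R hQ hlam hlN hdvd hR hRN
    exact up (h6 Q lam Nn R hQ hlam hlN hdvd hR hRN) (by linarith) (by positivity)
  · intro Q lam R hQ hlam hR
    exact up (h7 Q lam R hQ hlam hR) (by linarith) (by positivity)
  · intro q N1 N2 Nmax rho hq hN1 hN2 hN1m hN2m hrho
    exact up (h8 q N1 N2 Nmax rho hq hN1 hN2 hN1m hN2m hrho) (by linarith) (by positivity)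
  · intro Q m l hQ
    exact up (h9 Q m l hQ) (by linarith) (by positivity)

end Frame

end Pool.Nil
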