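import Pool.Agent.Nil.ConjInv

set_option autoImplicit false

/-!
# Nil: coset averages

See the doc string of `Nil/ConjInv.lean` for the proofs.
-/

namespace Pool.Nil

open Finset

variable {G : Type*} [Group G] {H : Type*} [NormedAddCommGroup H] [InnerProductSpace ℂ H]
  [CompleteSpace H]

namespace CosetAux

section
variable {α β E : Type*} [NormedAddCommGroup E] [NormedSpace ℝ E]

lemma avg_nbij {s : Finset α} {t : Finset β} (i : α → β) (j : β → α) (hi : ∀ a ∈ s, i a ∈ t)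
    (hj : ∀ b ∈ t, j b ∈ s) (hl : ∀ a ∈ s, j (i a) = a) (hr : ∀ b ∈ t, i (j b) = b) (f : β → E) :
    avg s (fun a => f (i a)) = avg t f := by
  unfold avg
  rw [Finset.card_nbij' i j hi hj hl hr,
    Finset.sum_nbij' (g := f) i j hi hj hl hr (fun a _ => rfl)]

lemma norm_sum_card {s : Finset α} {f : α → E} {C : ℝ} (hf : ∀ a, ‖f a‖ ≤ C) :
    ‖∑ a ∈ s, f a‖ ≤ s.card * C := by
  refine (norm_sum_le _ _).trans ((Finset.sum_le_sum fun a _ => hf a).trans ?_)
  rw [Finset.sum_const, nsmul_eq_mul]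

lemma card_smul_avg {s : Finset α} (hs : s.Nonempty) (f : α → E) :
    (s.card : ℝ) • avg s f = ∑ a ∈ s, f a := by
  have h : (s.card : ℝ) ≠ 0 := by exact_mod_cast hs.card_pos.ne'
  unfold avg
  rw [smul_smul, mul_inv_cancel₀ h, one_smul]

lemma avg_subset [DecidableEq α] {A S : Finset α} (hSA : S ⊆ A) (hne : S.Nonempty) {f : α → E}
    {C d : ℝ} (hf : ∀ a, ‖f a‖ ≤ C) (hd : ((A \ S).card : ℝ) ≤ d * A.card) :
    ‖avg A f - avg S f‖ ≤ 2 * d * C := by
  have hneA : A.Nonempty := hne.mono hSA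
  have hA0 : (0 : ℝ) < A.card := by exact_mod_cast hneA.card_pos
  have hC : 0 ≤ C := (norm_nonneg _).trans (hf hne.choose)
  have hcard : (A.card : ℝ) = (A \ S).card + S.card := by
    exact_mod_cast (Finset.card_sdiff_add_card_eq_card hSA).symm
  have hS1 : ‖avg S f‖ ≤ C := norm_avg_le_const hC fun a _ => hf a
  have h1 : (A.card : ℝ) • (avg A f - avg S f) = ∑ a ∈ A \ S, (f a - avg S f) := by
    rw [smul_sub, card_smul_avg hneA, hcard, add_smul, card_smul_avg hne, Finset.sum_sub_distrib,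
      Finset.sum_const, ← Finset.sum_sdiff hSA, ← Nat.cast_smul_eq_nsmul ℝ]
    abel
  have h2 : ‖(A.card : ℝ) • (avg A f - avg S f)‖ ≤ (A \ S).card * (2 * C) := by
    rw [h1]
    refine norm_sum_card fun a => ?_
    refine (norm_sub_le _ _).trans ?_
    linarith [hf a]
  rw [norm_smul, Real.norm_of_nonneg hA0.le] at h2
  have h3 : (A.card : ℝ) * ‖avg A f - avg S f‖ ≤ A.card * (2 * d * C) := by
    refine h2.trans ?_
    calc ((A \ S).card : ℝ) * (2 * C) ≤ (d * A.card) * (2 * C) :=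
          mul_le_mul_of_nonneg_right hd (by linarith)
      _ = A.card * (2 * d * C) := by ring
  exact le_of_mul_le_mul_left h3 hA0

lemma avg_diff [DecidableEq α] {A B : Finset α} (hA : A.Nonempty) (hB : B.Nonempty) {f : α → E}
    {C d : ℝ} (hf : ∀ a, ‖f a‖ ≤ C) (hdA : ((A \ B).card : ℝ) ≤ d * A.card)
    (hdB : ((B \ A).card : ℝ) ≤ d * B.card) : ‖avg A f - avg B f‖ ≤ 4 * d * C := by
  have hA0 : (0 : ℝ) < A.card := by exact_mod_cast hA.card_pos
  have hC : 0 ≤ C := (norm_nonneg _).trans (hf hA.choose)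
  by_cases h : (A ∩ B).Nonempty
  · have h1 : ‖avg A f - avg (A ∩ B) f‖ ≤ 2 * d * C :=
      avg_subset Finset.inter_subset_left h hf (by
        rw [Finset.sdiff_inter_self_left]
        exact hdA)
    have h2 : ‖avg B f - avg (A ∩ B) f‖ ≤ 2 * d * C :=
      avg_subset Finset.inter_subset_right h hf (by
        rw [Finset.sdiff_inter_self_right]
        exact hdB)
    have h3 : avg A f - avg B f = (avg A f - avg (A ∩ B) f) - (avg B f - avg (A ∩ B) f) := by
      abel
    rw [h3]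
    refine (norm_sub_le _ _).trans ?_
    linarith
  · rw [Finset.not_nonempty_iff_eq_empty] at h
    have h1 : A \ B = A := Finset.sdiff_eq_self_iff_disjoint.2
      (Finset.disjoint_iff_inter_eq_empty.2 h)
    rw [h1] at hdA
    have h2 : 1 ≤ d := by
      by_contra h3
      push Not at h3
      nlinarith
    have h3 : ‖avg A f‖ ≤ C := norm_avg_le_const hC fun a _ => hf a
    have h4 : ‖avg B f‖ ≤ C := norm_avg_le_const hC fun a _ => hf a
    refine (norm_sub_le _ _).trans ?_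
    nlinarith

end

lemma card_pi_sdiff {r : ℕ} (A B : Fin r → Finset ℤ) {d : ℝ}
    (h : ∀ i, ((A i \ B i).card : ℝ) ≤ d * (A i).card) :
    ((Fintype.piFinset A \ Fintype.piFinset B).card : ℝ) ≤
      r * d * (Fintype.piFinset A).card := by
  classical
  have hsub : Fintype.piFinset A \ Fintype.piFinset B ⊆
      Finset.univ.biUnion fun i : Fin r =>
        Fintype.piFinset (Function.update A i (A i \ B i)) := by
    intro y hy
    rw [Finset.mem_sdiff, Fintype.mem_piFinset, Fintype.mem_piFinset] at hy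
    obtain ⟨h1, h2⟩ := hy
    push Not at h2
    obtain ⟨i, hi⟩ := h2
    refine Finset.mem_biUnion.2 ⟨i, Finset.mem_univ _, ?_⟩
    rw [Fintype.mem_piFinset]
    intro j
    by_cases hj : j = i
    · subst hj
      rw [Function.update_self, Finset.mem_sdiff]
      exact ⟨h1 j, hi⟩
    · rw [Function.update_of_ne hj]
      exact h1 j
  have hcard : ∀ i : Fin r, ((Fintype.piFinset (Function.update A i (A i \ B i))).card : ℝ) ≤
      d * (Fintype.piFinset A).card := by
    intro i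
    rw [Fintype.card_piFinset, Fintype.card_piFinset,
      ← Finset.mul_prod_erase Finset.univ (fun j => (A j).card) (mem_univ i),
      ← Finset.mul_prod_erase Finset.univ
        (fun j => (Function.update A i (A i \ B i) j).card) (mem_univ i),
      Function.update_self]
    have e : ∏ j ∈ Finset.univ.erase i, (Function.update A i (A i \ B i) j).card =
        ∏ j ∈ Finset.univ.erase i, (A j).card := by
      refine Finset.prod_congr rfl fun j hj => ?_
      rw [Function.update_of_ne (Finset.ne_of_mem_erase hj)]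
    rw [e]
    push_cast
    rw [← mul_assoc]
    exact mul_le_mul_of_nonneg_right (h i) (by positivity)
  calc ((Fintype.piFinset A \ Fintype.piFinset B).card : ℝ)
      ≤ ∑ i : Fin r, ((Fintype.piFinset (Function.update A i (A i \ B i))).card : ℝ) := by
        exact_mod_cast (Finset.card_le_card hsub).trans Finset.card_biUnion_le
    _ ≤ ∑ _i : Fin r, d * (Fintype.piFinset A).card := Finset.sum_le_sum fun i _ => hcard i
    _ = r * d * (Fintype.piFinset A).card := by
        rw [Finset.sum_const, Finset.card_univ, Fintype.card_fin, nsmul_eq_mul]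
        ring

section
variable {g : ℤ → G} (fr : Frame g)

lemma WD_one : (1 : ℝ) ≤ (fr.W : ℝ) ^ fr.D :=
  one_le_pow₀ (by exact_mod_cast fr.W_pos)

lemma mo_mul (Q n : ℕ) (i : Fin fr.r) : fr.mo (Q * n) i = n * fr.mo Q i := by
  unfold Frame.mo md
  ring

lemma mo_le (Q : ℕ) (i : Fin fr.r) : (fr.mo Q i : ℝ) ≤ (fr.W : ℝ) ^ fr.D * Q := by
  unfold Frame.mo md
  push_cast
  refine mul_le_mul_of_nonneg_right ?_ (Nat.cast_nonneg _)
  exact pow_le_pow_right₀ (by exact_mod_cast fr.W_pos) (Nat.sub_le _ _)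

lemma mo_n_le (Q n : ℕ) {R : ℝ} (hR : 1 ≤ R) (i : Fin fr.r) :
    (fr.mo Q i : ℝ) * n ≤ (fr.W : ℝ) ^ fr.D * ((Q : ℝ) * n / R) * R ^ fr.w i := by
  have hR0 : 0 < R := by linarith
  have h1 : (fr.mo Q i : ℝ) * n ≤ (fr.W : ℝ) ^ fr.D * Q * n :=
    mul_le_mul_of_nonneg_right (mo_le fr Q i) (Nat.cast_nonneg _)
  have h2 : R ≤ R ^ fr.w i := le_self_pow₀ hR (by have := fr.one_le_w i; omega)
  have h3 : (fr.W : ℝ) ^ fr.D * Q * n = (fr.W : ℝ) ^ fr.D * ((Q : ℝ) * n / R) * R := by
    field_simp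
  rw [h3] at h1
  exact h1.trans (mul_le_mul_of_nonneg_left h2 (by positivity))

/-- the elements of the coset average are small -/
lemma mem_Ga {Q n : ℕ} {R : ℝ} (hR : 1 ≤ R) {z : Fin fr.r → ℤ}
    (hz : z ∈ Fintype.piFinset fun _ : Fin fr.r => Ico 0 (n : ℤ)) (i : Fin fr.r) :
    |(((fr.mo Q i : ℤ) * z i : ℤ) : ℝ)| ≤
      (fr.W : ℝ) ^ fr.D * ((Q : ℝ) * n / R) * R ^ fr.w i := by
  have h1 := Fintype.mem_piFinset.1 hz i
  rw [mem_Ico] at h1
  have h2 : |(z i : ℝ)| ≤ n := by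
    have h3 : (0 : ℝ) ≤ z i := by exact_mod_cast h1.1
    rw [abs_of_nonneg h3]
    exact_mod_cast h1.2.le
  refine le_trans ?_ (mo_n_le fr Q n hR i)
  push_cast
  rw [abs_mul, Nat.abs_cast]
  exact mul_le_mul_of_nonneg_left h2 (Nat.cast_nonneg _)

lemma side_rel {Q n : ℕ} (hn : 1 ≤ n) {R : ℝ} (i : Fin fr.r) :
    n * fr.side 0 (Q * n) R i ≤ fr.side 0 Q R i ∧
      fr.side 0 Q R i < n * (fr.side 0 (Q * n) R i + 1) := by
  have hw : 0 < fr.w i := fr.one_le_w i
  have h1 : fr.side 0 (Q * n) R i = fr.side 0 Q R i / n := by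
    unfold Frame.side
    rw [if_pos hw, if_pos hw, mo_mul, ← Nat.floor_div_natCast]
    congr 1
    push_cast
    rw [div_div, mul_comm]
  rw [h1]
  exact ⟨Nat.mul_div_le _ _, Nat.lt_mul_div_succ _ (by omega)⟩

lemma side_ge {Q : ℕ} (hQ : 1 ≤ Q) {R : ℝ} (hR : 1 ≤ R) (i : Fin fr.r) :
    R ^ fr.w i ≤ (fr.mo Q i : ℝ) * (2 * fr.side 0 Q R i + 1) := by
  have hm : (0 : ℝ) < fr.mo Q i := by exact_mod_cast RepAux.mo_pos fr hQ i
  have hR0 : (0 : ℝ) ≤ R ^ fr.w i := pow_nonneg (by linarith) _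
  have h1 : fr.side 0 Q R i = ⌊R ^ fr.w i / (fr.mo Q i : ℝ)⌋₊ := by
    have hw : 0 < fr.w i := fr.one_le_w i
    unfold Frame.side
    rw [if_pos hw]
  have h2 := le_two_floor (div_nonneg hR0 hm.le)
  rw [← h1, div_le_iff₀ hm] at h2
  linarith

lemma box_size {Q : ℕ} (hQ : 1 ≤ Q) {R : ℝ} (hR : 1 ≤ R) {t : Fin fr.r → ℤ}
    (ht : t ∈ bx (fr.side 0 Q R)) (i : Fin fr.r) :
    |(((fr.mo Q i : ℤ) * t i : ℤ) : ℝ)| ≤ 1 * R ^ fr.w i := by
  have hR0 : ∀ i, (0 : ℝ) ≤ R ^ fr.w i := fun i => pow_nonneg (by linarith) _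
  have hm : (0 : ℝ) < fr.mo Q i := by exact_mod_cast RepAux.mo_pos fr hQ i
  have h1 := mem_bx.mp ht i
  have h2 : (fr.side 0 Q R i : ℝ) ≤ R ^ fr.w i / (fr.mo Q i : ℝ) := by
    unfold Frame.side
    split_ifs with h
    · exact Nat.floor_le (div_nonneg (hR0 i) hm.le)
    · simp only [Nat.cast_zero]
      exact div_nonneg (hR0 i) hm.le
  have h3 : |(t i : ℝ)| ≤ (fr.side 0 Q R i : ℝ) := by exact_mod_cast h1
  push_cast
  rw [abs_mul, abs_of_pos hm, one_mul]
  calc (fr.mo Q i : ℝ) * |(t i : ℝ)| ≤ fr.mo Q i * (R ^ fr.w i / (fr.mo Q i : ℝ)) :=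
        mul_le_mul_of_nonneg_left (h3.trans h2) hm.le
    _ = R ^ fr.w i := by field_simp

end

end CosetAux

namespace Frame

variable {g : ℤ → G} (fr : Frame g) (U : G →* (H ≃ₗᵢ[ℂ] H))

open CosetAux

/-- the shift for a fixed element of the coset average -/
lemma CosetAux.fixed {Q n : ℕ} {R : ℝ} (hQ : 1 ≤ Q) (hn : 1 ≤ n) (hR : 1 ≤ R)
    (hdel : (fr.W : ℝ) ^ fr.D * ((Q : ℝ) * n / R) ≤ 1) {z : Fin fr.r → ℤ}
    (hz : z ∈ Fintype.piFinset fun _ : Fin fr.r => Ico 0 (n : ℤ)) :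
    ‖avg (bx (fr.side 0 (Q * n) R)) (fun t =>
        Uo U (kap fr.c (fun i => (fr.mo (Q * n) i : ℤ) * t i)) *
          Uo U (kap fr.c (fun i => (fr.mo Q i : ℤ) * z i))) -
      avg (bx (fr.side 0 (Q * n) R)) (fun t =>
        Uo U (kap fr.c (fun i => (fr.mo Q i : ℤ) * ((n : ℤ) * t i + z i))))‖ ≤
      2 * fr.r * (fr.C0 * ((fr.W : ℝ) ^ fr.D * ((Q : ℝ) * n / R))) := by
  have hC0 := fr.one_le_C0
  have hQn : 1 ≤ Q * n := Nat.mul_pos hQ hn
  have hdel0 : 0 ≤ (fr.W : ℝ) ^ fr.D * ((Q : ℝ) * n / R) := by positivity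
  obtain ⟨del, hd⟩ : ∃ del : ℝ, del = (fr.W : ℝ) ^ fr.D * ((Q : ℝ) * n / R) := ⟨_, rfl⟩
  have hzs := fun i => mem_Ga fr (Q := Q) hR hz i
  rw [← hd] at hdel hdel0 hzs ⊢
  obtain ⟨q, hq⟩ : ∃ q : (Fin fr.r → ℤ) → Fin fr.r → ℤ, q = fun t =>
    fr.p (fun i => (fr.mo (Q * n) i : ℤ) * t i) (fun i => (fr.mo Q i : ℤ) * z i) := ⟨_, rfl⟩
  have hdvd : ∀ t i, (fr.mo (Q * n) i : ℤ) ∣ q t i := fun t i => by
    rw [hq]
    exact fr.p_dvd (Q * n) _ _ (Or.inl fun j => Dvd.intro _ rfl) i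
  have hps : ∀ t i, (fr.mo (Q * n) i : ℤ) * (q t i / (fr.mo (Q * n) i : ℤ)) = q t i :=
    fun t i => Int.mul_ediv_cancel' (hdvd t i)
  have h := tri_shift (E := H →L[ℂ] H) fr.w (fr.side 0 (Q * n) R)
    (fun t i => q t i / (fr.mo (Q * n) i : ℤ))
    (fun t t' i hh => by
      show q t i / (fr.mo (Q * n) i : ℤ) = q t' i / (fr.mo (Q * n) i : ℤ)
      have e : q t i = q t' i := by
        rw [hq]
        exact fr.p_dep _ _ _ _ i fun j hj => ⟨by
          show _ * t j = _ * t' j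
          rw [hh j hj], rfl⟩
      rw [e]) (del := fr.C0 * del) (mul_nonneg (by linarith) hdel0)
    (fun t ht i => by
      have hm : (0 : ℝ) < fr.mo (Q * n) i := by exact_mod_cast RepAux.mo_pos fr hQn i
      have h1 := side_ge fr hQn hR i
      have h2 : (fr.mo (Q * n) i : ℝ) * |((q t i / (fr.mo (Q * n) i : ℤ) : ℤ) : ℝ)| =
          |(q t i : ℝ)| := by
        rw [← abs_of_pos hm, ← abs_mul]
        congr 1
        exact_mod_cast hps t i
      have h3 : |(q t i : ℝ)| ≤ fr.C0 * (1 * del) * R ^ fr.w i := by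
        rw [hq]
        exact fr.p_size R 1 del _ _ hR zero_le_one le_rfl hdel0 hdel
          (box_size fr hQn hR ht) hzs i
      rw [← h2, one_mul] at h3
      have h4 : (fr.mo (Q * n) i : ℝ) * |((q t i / (fr.mo (Q * n) i : ℤ) : ℤ) : ℝ)| ≤
          (fr.mo (Q * n) i : ℝ) * (fr.C0 * del * (2 * fr.side 0 (Q * n) R i + 1)) := by
        refine h3.trans ?_
        calc fr.C0 * del * R ^ fr.w i ≤
              fr.C0 * del * ((fr.mo (Q * n) i : ℝ) * (2 * fr.side 0 (Q * n) R i + 1)) :=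
              mul_le_mul_of_nonneg_left h1 (mul_nonneg (by linarith) hdel0)
          _ = _ := by ring
      exact le_of_mul_le_mul_left h4 hm)
    (Φ := fun t => Uo U (kap fr.c (fun i => (fr.mo Q i : ℤ) * ((n : ℤ) * t i + z i)))) (C := 1)
    (fun t => norm_Uo_le U _)
  rw [mul_one] at h
  refine le_trans (le_of_eq ?_) h
  congr 2
  apply avg_congr
  intro t _
  rw [← Uo_mul, fr.mul]
  congr 2
  funext i
  simp only [Pi.add_apply]
  have e1 : fr.p (fun i => (fr.mo (Q * n) i : ℤ) * t i) (fun i => (fr.mo Q i : ℤ) * z i) i =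
      (fr.mo (Q * n) i : ℤ) * (q t i / (fr.mo (Q * n) i : ℤ)) := by
    rw [hps, hq]
  have e2 : (fr.mo (Q * n) i : ℤ) = n * (fr.mo Q i : ℤ) := by
    exact_mod_cast mo_mul fr Q n i
  rw [e1]
  generalize q t i / (fr.mo (Q * n) i : ℤ) = v
  rw [e2]
  ring

theorem coset : ∃ K : ℝ, 1 ≤ K ∧ ∀ (Q n : ℕ) (R : ℝ), 1 ≤ Q → 1 ≤ n → 1 ≤ R →
    ‖fr.Bj U 0 Q R - fr.Bj U 0 (Q * n) R * fr.Ga U Q n‖ ≤ K * ((Q : ℝ) * n / R) := by
  have hC0 := fr.one_le_C0
  have hWD := WD_one fr
  have hr0 : (0 : ℝ) ≤ fr.r := Nat.cast_nonneg _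
  have hK' : (2 : ℝ) ≤ 2 * fr.r * fr.C0 + 4 * fr.r + 2 := by
    have : 0 ≤ (fr.r : ℝ) * fr.C0 := mul_nonneg hr0 (by linarith)
    nlinarith
  refine ⟨(2 * fr.r * fr.C0 + 4 * fr.r + 2) * (fr.W : ℝ) ^ fr.D, by nlinarith, ?_⟩
  intro Q n R hQ hn hR
  have hQn : 1 ≤ Q * n := Nat.mul_pos hQ hn
  rw [mul_assoc _ ((fr.W : ℝ) ^ fr.D)]
  have hdel0 : 0 ≤ (fr.W : ℝ) ^ fr.D * ((Q : ℝ) * n / R) := by positivity
  by_cases hdel : (fr.W : ℝ) ^ fr.D * ((Q : ℝ) * n / R) ≤ 1
  · have hZ : (Fintype.piFinset fun _ : Fin fr.r => Ico 0 (n : ℤ)).Nonempty :=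
      ⟨fun _ => 0, Fintype.mem_piFinset.2 fun _ => mem_Ico.2 ⟨le_rfl, by omega⟩⟩
    -- first step
    have h1 : ‖fr.Bj U 0 (Q * n) R * fr.Ga U Q n -
        avg (Fintype.piFinset fun _ : Fin fr.r => Ico 0 (n : ℤ)) (fun z =>
          avg (bx (fr.side 0 (Q * n) R)) (fun t =>
            Uo U (kap fr.c (fun i => (fr.mo Q i : ℤ) * ((n : ℤ) * t i + z i)))))‖ ≤
        2 * fr.r * (fr.C0 * ((fr.W : ℝ) ^ fr.D * ((Q : ℝ) * n / R))) := by
      have e : fr.Bj U 0 (Q * n) R * fr.Ga U Q n -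
          avg (Fintype.piFinset fun _ : Fin fr.r => Ico 0 (n : ℤ)) (fun z =>
            avg (bx (fr.side 0 (Q * n) R)) (fun t =>
              Uo U (kap fr.c (fun i => (fr.mo Q i : ℤ) * ((n : ℤ) * t i + z i))))) =
          avg (Fintype.piFinset fun _ : Fin fr.r => Ico 0 (n : ℤ)) (fun z =>
            avg (bx (fr.side 0 (Q * n) R)) (fun t =>
              Uo U (kap fr.c (fun i => (fr.mo (Q * n) i : ℤ) * t i)) *
                Uo U (kap fr.c (fun i => (fr.mo Q i : ℤ) * z i))) -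
            avg (bx (fr.side 0 (Q * n) R)) (fun t =>
              Uo U (kap fr.c (fun i => (fr.mo Q i : ℤ) * ((n : ℤ) * t i + z i))))) := by
        rw [avg_sub]
        congr 1
        unfold Ga
        rw [RepAux.mul_avg]
        apply avg_congr
        intro z _
        unfold Bj BM
        rw [RepAux.avg_mul]
      rw [e]
      exact norm_avg_le_const (by positivity) fun z hz =>
        CosetAux.fixed fr U hQ hn hR hdel hz
    -- second step
    have h2 : avg (Fintype.piFinset fun _ : Fin fr.r => Ico 0 (n : ℤ)) (fun z =>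
          avg (bx (fr.side 0 (Q * n) R)) (fun t =>
            Uo U (kap fr.c (fun i => (fr.mo Q i : ℤ) * ((n : ℤ) * t i + z i))))) =
        avg (Fintype.piFinset fun i : Fin fr.r =>
          Ico (-((n : ℤ) * fr.side 0 (Q * n) R i)) ((n : ℤ) * fr.side 0 (Q * n) R i + n))
          (fun y => Uo U (kap fr.c (fun i => (fr.mo Q i : ℤ) * y i))) := by
      rw [← avg_product (Fintype.piFinset fun _ : Fin fr.r => Ico 0 (n : ℤ))
        (bx (fr.side 0 (Q * n) R)) (fun zt : (Fin fr.r → ℤ) × (Fin fr.r → ℤ) =>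
          Uo U (kap fr.c (fun i => (fr.mo Q i : ℤ) * ((n : ℤ) * zt.2 i + zt.1 i))))]
      have hn0 : (0 : ℤ) < n := by exact_mod_cast hn
      refine avg_nbij (fun (zt : (Fin fr.r → ℤ) × (Fin fr.r → ℤ)) i => (n : ℤ) * zt.2 i + zt.1 i)
        (fun y => (fun i => y i % (n : ℤ), fun i => y i / (n : ℤ))) ?_ ?_ ?_ ?_
        (fun y => Uo U (kap fr.c (fun i => (fr.mo Q i : ℤ) * y i)))
      · rintro ⟨z, t⟩ hzt
        rw [Finset.mem_product, Fintype.mem_piFinset, mem_bx] at hzt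
        rw [Fintype.mem_piFinset]
        intro i
        have h3 := hzt.1 i
        have h4 := hzt.2 i
        rw [mem_Ico] at h3 ⊢
        rw [abs_le] at h4
        simp only at h3 h4 ⊢
        constructor
        · nlinarith [h4.1]
        · nlinarith [h4.2]
      · intro y hy
        rw [Fintype.mem_piFinset] at hy
        rw [Finset.mem_product, Fintype.mem_piFinset, mem_bx]
        refine ⟨fun i => ?_, fun i => ?_⟩
        · rw [mem_Ico]
          exact ⟨Int.emod_nonneg _ hn0.ne', Int.emod_lt_of_pos _ hn0⟩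
        · have h3 := hy i
          rw [mem_Ico] at h3
          rw [abs_le]
          constructor
          · rw [Int.le_ediv_iff_mul_le hn0]
            nlinarith [h3.1]
          · have h4 : y i / (n : ℤ) < (fr.side 0 (Q * n) R i : ℤ) + 1 := by
              rw [Int.ediv_lt_iff_lt_mul hn0]
              nlinarith [h3.2]
            show y i / (n : ℤ) ≤ (fr.side 0 (Q * n) R i : ℤ)
            omega
      · rintro ⟨z, t⟩ hzt
        rw [Finset.mem_product, Fintype.mem_piFinset] at hzt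
        refine Prod.ext ?_ ?_
        · funext i
          have h3 := hzt.1 i
          rw [mem_Ico] at h3
          show ((n : ℤ) * t i + z i) % (n : ℤ) = z i
          rw [Int.mul_add_emod_self_left]
          exact Int.emod_eq_of_lt h3.1 h3.2
        · funext i
          have h3 := hzt.1 i
          rw [mem_Ico] at h3
          show ((n : ℤ) * t i + z i) / (n : ℤ) = t i
          rw [Int.mul_add_ediv_left _ _ hn0.ne', Int.ediv_eq_zero_of_lt h3.1 h3.2, add_zero]
      · intro y _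
        funext i
        exact Int.mul_ediv_add_emod (y i) n
    -- third step
    have h3 : ‖avg (Fintype.piFinset fun i : Fin fr.r =>
          Ico (-((n : ℤ) * fr.side 0 (Q * n) R i)) ((n : ℤ) * fr.side 0 (Q * n) R i + n))
          (fun y => Uo U (kap fr.c (fun i => (fr.mo Q i : ℤ) * y i))) - fr.Bj U 0 Q R‖ ≤
        4 * (fr.r * ((fr.W : ℝ) ^ fr.D * ((Q : ℝ) * n / R))) * 1 := by
      have hn0 : (0 : ℝ) < n := by exact_mod_cast hn
      unfold Bj BM
      have hA : (Fintype.piFinset fun i : Fin fr.r =>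
          Ico (-((n : ℤ) * fr.side 0 (Q * n) R i))
            ((n : ℤ) * fr.side 0 (Q * n) R i + n)).Nonempty := by
        refine ⟨fun _ => 0, Fintype.mem_piFinset.2 fun i => mem_Ico.2 ⟨?_, ?_⟩⟩
        · have : (0 : ℤ) ≤ (n : ℤ) * fr.side 0 (Q * n) R i := by positivity
          omega
        · positivity
      refine avg_diff hA (bx_nonempty _) (fun y => norm_Uo_le U _) ?_ ?_
      · unfold bx
        refine card_pi_sdiff _ _ fun i => ?_
        obtain ⟨h4, h5⟩ := side_rel fr (Q := Q) hn (R := R) i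
        have h6 := side_ge fr hQn hR i
        have h7 := mo_n_le fr Q n hR i
        have hm : (0 : ℝ) < fr.mo Q i := by exact_mod_cast RepAux.mo_pos fr hQ i
        have e2 : (fr.mo (Q * n) i : ℝ) = n * (fr.mo Q i : ℝ) := by
          exact_mod_cast mo_mul fr Q n i
        have h8 : ((Ico (-((n : ℤ) * fr.side 0 (Q * n) R i))
            ((n : ℤ) * fr.side 0 (Q * n) R i + n) \
              Icc (-(fr.side 0 Q R i : ℤ)) (fr.side 0 Q R i : ℤ)).card : ℝ) ≤ n := by
          have h9 : Ico (-((n : ℤ) * fr.side 0 (Q * n) R i))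
            ((n : ℤ) * fr.side 0 (Q * n) R i + n) \
              Icc (-(fr.side 0 Q R i : ℤ)) (fr.side 0 Q R i : ℤ) ⊆
              Ico ((n : ℤ) * fr.side 0 (Q * n) R i) ((n : ℤ) * fr.side 0 (Q * n) R i + n) := by
            intro x hx
            rw [Finset.mem_sdiff, mem_Ico, mem_Icc] at hx
            rw [mem_Ico]
            zify at h4 h5
            omega
          have h10 := Finset.card_le_card h9
          rw [Int.card_Ico] at h10
          have h11 : ((n : ℤ) * fr.side 0 (Q * n) R i + n -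
            (n : ℤ) * fr.side 0 (Q * n) R i).toNat = n := by
            rw [add_sub_cancel_left, Int.toNat_natCast]
          rw [h11] at h10
          exact_mod_cast h10
        have h12 : ((Ico (-((n : ℤ) * fr.side 0 (Q * n) R i))
            ((n : ℤ) * fr.side 0 (Q * n) R i + n)).card : ℝ) =
            n * (2 * fr.side 0 (Q * n) R i + 1) := by
          rw [Int.card_Ico]
          have h13 : ((n : ℤ) * fr.side 0 (Q * n) R i + n -
            -((n : ℤ) * fr.side 0 (Q * n) R i)) =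
              ((n * (2 * fr.side 0 (Q * n) R i + 1) : ℕ) : ℤ) := by
            push_cast
            ring
          rw [h13, Int.toNat_natCast]
          push_cast
          ring
        rw [h12]
        refine h8.trans ?_
        have h14 : (fr.mo Q i : ℝ) * n ≤ (fr.mo Q i : ℝ) *
            ((fr.W : ℝ) ^ fr.D * ((Q : ℝ) * n / R) * (n * (2 * fr.side 0 (Q * n) R i + 1))) := by
          refine h7.trans ?_
          rw [e2] at h6
          calc (fr.W : ℝ) ^ fr.D * ((Q : ℝ) * n / R) * R ^ fr.w i ≤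
                (fr.W : ℝ) ^ fr.D * ((Q : ℝ) * n / R) *
                  (n * (fr.mo Q i : ℝ) * (2 * fr.side 0 (Q * n) R i + 1)) :=
                mul_le_mul_of_nonneg_left h6 hdel0
            _ = _ := by ring
        exact le_of_mul_le_mul_left h14 hm
      · unfold bx
        refine card_pi_sdiff _ _ fun i => ?_
        obtain ⟨h4, h5⟩ := side_rel fr (Q := Q) hn (R := R) i
        have h6 := side_ge fr hQ hR i
        have h7 := mo_n_le fr Q n hR i
        have hm : (0 : ℝ) < fr.mo Q i := by exact_mod_cast RepAux.mo_pos fr hQ i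
        have h8 : ((Icc (-(fr.side 0 Q R i : ℤ)) (fr.side 0 Q R i : ℤ) \
            Ico (-((n : ℤ) * fr.side 0 (Q * n) R i))
              ((n : ℤ) * fr.side 0 (Q * n) R i + n)).card : ℝ) ≤ n := by
          have h9 : Icc (-(fr.side 0 Q R i : ℤ)) (fr.side 0 Q R i : ℤ) \
            Ico (-((n : ℤ) * fr.side 0 (Q * n) R i)) ((n : ℤ) * fr.side 0 (Q * n) R i + n) ⊆
              Ico (-((n : ℤ) * fr.side 0 (Q * n) R i) - n)
                (-((n : ℤ) * fr.side 0 (Q * n) R i)) := by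
            intro x hx
            rw [Finset.mem_sdiff, mem_Ico, mem_Icc] at hx
            rw [mem_Ico]
            zify at h4 h5
            have h5' : (fr.side 0 Q R i : ℤ) < n * fr.side 0 (Q * n) R i + n := by
              linarith
            omega
          have h10 := Finset.card_le_card h9
          rw [Int.card_Ico] at h10
          have h11 : (-((n : ℤ) * fr.side 0 (Q * n) R i) -
            (-((n : ℤ) * fr.side 0 (Q * n) R i) - n)).toNat = n := by
            rw [sub_sub_cancel, Int.toNat_natCast]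
          rw [h11] at h10
          exact_mod_cast h10
        have h12 : ((Icc (-(fr.side 0 Q R i : ℤ)) (fr.side 0 Q R i : ℤ)).card : ℝ) =
            2 * fr.side 0 Q R i + 1 := by
          rw [Int.card_Icc]
          have h13 : ((fr.side 0 Q R i : ℤ) + 1 - -(fr.side 0 Q R i : ℤ)) =
              ((2 * fr.side 0 Q R i + 1 : ℕ) : ℤ) := by
            push_cast
            ring
          rw [h13, Int.toNat_natCast]
          push_cast
          ring
        rw [h12]
        refine h8.trans ?_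
        have h14 : (fr.mo Q i : ℝ) * n ≤ (fr.mo Q i : ℝ) *
            ((fr.W : ℝ) ^ fr.D * ((Q : ℝ) * n / R) * (2 * fr.side 0 Q R i + 1)) := by
          refine h7.trans ?_
          calc (fr.W : ℝ) ^ fr.D * ((Q : ℝ) * n / R) * R ^ fr.w i ≤
                (fr.W : ℝ) ^ fr.D * ((Q : ℝ) * n / R) *
                  ((fr.mo Q i : ℝ) * (2 * fr.side 0 Q R i + 1)) :=
                mul_le_mul_of_nonneg_left h6 hdel0
            _ = _ := by ring
        exact le_of_mul_le_mul_left h14 hm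
    rw [h2] at h1
    have h4 : ∀ X Y Z : H →L[ℂ] H, ‖X - Y‖ ≤ ‖Y - Z‖ + ‖Z - X‖ := by
      intro X Y Z
      have e : X - Y = -((Y - Z) + (Z - X)) := by abel
      rw [e, norm_neg]
      exact norm_add_le _ _
    refine (h4 _ _ _).trans ((add_le_add h1 h3).trans ?_)
    nlinarith
  · push Not at hdel
    have h1 := norm_Bj_le fr U 0 Q R
    have h2 := norm_Bj_le fr U 0 (Q * n) R
    have h3 := norm_Ga_le fr U Q n
    have h4 : ‖fr.Bj U 0 (Q * n) R * fr.Ga U Q n‖ ≤ 1 := by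
      refine (norm_mul_le _ _).trans ?_
      nlinarith [norm_nonneg (fr.Bj U 0 (Q * n) R), norm_nonneg (fr.Ga U Q n)]
    refine (norm_sub_le _ _).trans ?_
    nlinarith

theorem coset_absorb : ∃ K : ℝ, 1 ≤ K ∧ ∀ (q Q n : ℕ) (R : ℝ), 1 ≤ q → 1 ≤ Q → q ∣ Q → 1 ≤ n →
    1 ≤ R → ‖fr.Bj U 0 q R * fr.Ga U Q n - fr.Bj U 0 q R‖ ≤ K * ((Q : ℝ) * n / R) := by
  obtain ⟨K, hK, hni⟩ := fr.ni U
  have hWD := WD_one fr
  refine ⟨(K + 2) * (fr.W : ℝ) ^ fr.D, by nlinarith, ?_⟩
  intro q Q n R hq hQ hqQ hn hR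
  rw [mul_assoc _ ((fr.W : ℝ) ^ fr.D)]
  have hdel0 : 0 ≤ (fr.W : ℝ) ^ fr.D * ((Q : ℝ) * n / R) := by positivity
  by_cases hdel : (fr.W : ℝ) ^ fr.D * ((Q : ℝ) * n / R) ≤ 1
  · have hZ : (Fintype.piFinset fun _ : Fin fr.r => Ico 0 (n : ℤ)).Nonempty :=
      ⟨fun _ => 0, Fintype.mem_piFinset.2 fun _ => mem_Ico.2 ⟨le_rfl, by omega⟩⟩
    have e : fr.Bj U 0 q R * fr.Ga U Q n - fr.Bj U 0 q R =
        avg (Fintype.piFinset fun _ : Fin fr.r => Ico 0 (n : ℤ)) (fun z =>
          fr.Bj U 0 q R * Uo U (kap fr.c (fun i => (fr.mo Q i : ℤ) * z i)) -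
            fr.Bj U 0 q R) := by
      rw [avg_sub, avg_const hZ, ← RepAux.mul_avg]
      rfl
    rw [e]
    refine norm_avg_le_const (by positivity) fun z hz => ?_
    have h1 : kap fr.c (fun i => (fr.mo Q i : ℤ) * z i) ∈
        fr.Sm 1 q R ((fr.W : ℝ) ^ fr.D * ((Q : ℝ) * n / R)) := by
      apply fr.Sm_dvd hqQ
      exact ⟨_, rfl, fun i hi => by
        have := fr.one_le_w i
        omega, fun i => Dvd.intro _ rfl, fun i => mem_Ga fr hR hz i⟩
    have h2 := (hni 0 q R _ _ hq hR hdel0 hdel h1).2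
    refine h2.trans ?_
    nlinarith
  · push Not at hdel
    have h1 := norm_Bj_le fr U 0 q R
    have h3 := norm_Ga_le fr U Q n
    have h4 : ‖fr.Bj U 0 q R * fr.Ga U Q n‖ ≤ 1 := by
      refine (norm_mul_le _ _).trans ?_
      nlinarith [norm_nonneg (fr.Bj U 0 q R), norm_nonneg (fr.Ga U Q n)]
    refine (norm_sub_le _ _).trans ?_
    nlinarith

end Frame

end Pool.Nil
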