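import Mathlib

set_option autoImplicit false

/-!
# Nil: averages over finite sets

All statements are elementary.  `avg_range_shift`: the sums over `range M` and over the shifted interval
differ by at most `2 h` terms.  `avg_cube_shift`: the same in one coordinate, by a
rearrangement: for fixed other coordinates apply the one dimensional statement; one can also use the
bijection `t ↦ t + h e_l` and count the points of the cube whose image is outside.
`avg_window`: for fixed `m1` the inner average over `m0` is the average over a subinterval of `[0, M)` with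
`M - mu M1 + 1` elements, which differs from the average over `range M` by at most `2 (mu M1) / M * C`.
-/

namespace Pool.Nil

open Finset

section
variable {α β E E' : Type*} [NormedAddCommGroup E] [NormedSpace ℝ E] [NormedAddCommGroup E']
  [NormedSpace ℝ E']

/-- the average over a finite set -/
noncomputable def avg (s : Finset α) (f : α → E) : E := ((s.card : ℝ)⁻¹) • ∑ a ∈ s, f a

lemma avg_add (s : Finset α) (f g : α → E) : avg s (fun a => f a + g a) = avg s f + avg s g := by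
  simp only [avg, sum_add_distrib, smul_add]

lemma avg_sub (s : Finset α) (f g : α → E) : avg s (fun a => f a - g a) = avg s f - avg s g := by
  simp only [avg, sum_sub_distrib, smul_sub]

lemma avg_smul (s : Finset α) (c : ℝ) (f : α → E) : avg s (fun a => c • f a) = c • avg s f := by
  simp only [avg, ← smul_sum]
  rw [smul_comm]

lemma avg_const {s : Finset α} (hs : s.Nonempty) (x : E) : avg s (fun _ => x) = x := by
  have h : ((s.card : ℝ)) ≠ 0 := by
    have := hs.card_pos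
    positivity
  simp only [avg, sum_const, ← Nat.cast_smul_eq_nsmul ℝ, smul_smul]
  rw [inv_mul_cancel₀ h, one_smul]

lemma avg_congr {s : Finset α} {f g : α → E} (h : ∀ a ∈ s, f a = g a) : avg s f = avg s g := by
  simp only [avg]
  rw [sum_congr rfl h]

lemma avg_singleton (a : α) (f : α → E) : avg {a} f = f a := by
  simp [avg]

lemma avg_comm (s : Finset α) (t : Finset β) (f : α → β → E) :
    avg s (fun a => avg t (f a)) = avg t (fun b => avg s (fun a => f a b)) := by
  simp only [avg, ← smul_sum]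
  rw [smul_comm, sum_comm]

lemma avg_product (s : Finset α) (t : Finset β) (f : α × β → E) :
    avg (s ×ˢ t) f = avg s (fun a => avg t (fun b => f (a, b))) := by
  simp only [avg, ← smul_sum]
  rw [smul_smul, card_product, sum_product]
  push_cast
  rw [mul_inv]

lemma map_avg (L : E →L[ℝ] E') (s : Finset α) (f : α → E) : L (avg s f) = avg s (fun a => L (f a)) := by
  simp only [avg]
  rw [map_smul, map_sum]

lemma norm_avg_le (s : Finset α) (f : α → E) : ‖avg s f‖ ≤ avg s (fun a => ‖f a‖) := by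
  simp only [avg]
  rw [norm_smul, norm_inv, smul_eq_mul, Real.norm_natCast]
  exact mul_le_mul_of_nonneg_left (norm_sum_le _ _) (by positivity)

lemma avg_mono {s : Finset α} {f g : α → ℝ} (h : ∀ a ∈ s, f a ≤ g a) : avg s f ≤ avg s g := by
  simp only [avg, smul_eq_mul]
  exact mul_le_mul_of_nonneg_left (sum_le_sum h) (by positivity)

lemma avg_nonneg {s : Finset α} {f : α → ℝ} (h : ∀ a ∈ s, 0 ≤ f a) : 0 ≤ avg s f := by
  simp only [avg, smul_eq_mul]
  exact mul_nonneg (by positivity) (sum_nonneg h)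

lemma avg_le_const {s : Finset α} {f : α → ℝ} {C : ℝ} (hC : 0 ≤ C) (h : ∀ a ∈ s, f a ≤ C) :
    avg s f ≤ C := by
  rcases s.eq_empty_or_nonempty with rfl | hs
  · simpa [avg] using hC
  · calc avg s f ≤ avg s (fun _ => C) := avg_mono h
      _ = C := avg_const hs C

lemma norm_avg_le_const {s : Finset α} {f : α → E} {C : ℝ} (hC : 0 ≤ C) (h : ∀ a ∈ s, ‖f a‖ ≤ C) :
    ‖avg s f‖ ≤ C :=
  (norm_avg_le s f).trans (avg_le_const hC h)

lemma sq_norm_avg_le (s : Finset α) (f : α → E) : ‖avg s f‖ ^ 2 ≤ avg s (fun a => ‖f a‖ ^ 2) := by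
  rcases s.eq_empty_or_nonempty with rfl | hs
  · simp [avg]
  · have hc : (0 : ℝ) < s.card := by
      have := hs.card_pos
      positivity
    have h1 : ‖avg s f‖ ≤ avg s (fun a => ‖f a‖) := norm_avg_le s f
    have h2 : (∑ a ∈ s, ‖f a‖) ^ 2 ≤ s.card * ∑ a ∈ s, ‖f a‖ ^ 2 :=
      sq_sum_le_card_mul_sum_sq
    calc ‖avg s f‖ ^ 2 ≤ (avg s (fun a => ‖f a‖)) ^ 2 :=
          pow_le_pow_left₀ (norm_nonneg _) h1 2
      _ = ((s.card : ℝ)⁻¹) ^ 2 * (∑ a ∈ s, ‖f a‖) ^ 2 := by
          simp only [avg, smul_eq_mul, mul_pow]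
      _ ≤ ((s.card : ℝ)⁻¹) ^ 2 * (s.card * ∑ a ∈ s, ‖f a‖ ^ 2) :=
          mul_le_mul_of_nonneg_left h2 (by positivity)
      _ = avg s (fun a => ‖f a‖ ^ 2) := by
          simp only [avg, smul_eq_mul]
          field_simp

lemma exists_avg_le {s : Finset α} (hs : s.Nonempty) (f : α → ℝ) : ∃ a ∈ s, avg s f ≤ f a := by
  by_contra hcon
  push Not at hcon
  have hc : (0 : ℝ) < s.card := by
    have := hs.card_pos
    positivity
  have h1 : ∑ a ∈ s, f a < ∑ _a ∈ s, avg s f := sum_lt_sum_of_nonempty hs hcon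
  rw [sum_const, nsmul_eq_mul] at h1
  have h2 : (s.card : ℝ) * avg s f = ∑ a ∈ s, f a := by
    simp only [avg, smul_eq_mul]
    rw [mul_inv_cancel_left₀ hc.ne']
  linarith

/-- reindexing by a bijection of the whole type that maps `s` onto `t` -/
lemma avg_map_equiv (e : α ≃ β) (s : Finset α) (f : β → E) :
    avg (s.map e.toEmbedding) f = avg s (fun a => f (e a)) := by
  simp only [avg, card_map, sum_map]
  rfl

namespace AvgAux

lemma sum_shift {f : ℤ → E} {C : ℝ} (hf : ∀ n, ‖f n‖ ≤ C) (M h : ℕ) :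
    ‖∑ m ∈ range M, f ((m : ℤ) + h) - ∑ m ∈ range M, f (m : ℤ)‖ ≤ 2 * h * C := by
  induction h with
  | zero => simp
  | succ k ih =>
    have h1 : ∑ m ∈ range M, f ((m : ℤ) + ((k + 1 : ℕ) : ℤ)) =
        ∑ m ∈ range M, f ((m : ℤ) + k) + (f ((M : ℤ) + k) - f (k : ℤ)) := by
      have h2 := sum_range_succ (fun m : ℕ => f ((m : ℤ) + k)) M
      have h3 := sum_range_succ' (fun m : ℕ => f ((m : ℤ) + k)) M
      rw [h2] at h3
      have h4 : ∑ m ∈ range M, f ((m : ℤ) + ((k + 1 : ℕ) : ℤ)) =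
          ∑ m ∈ range M, f (((m + 1 : ℕ) : ℤ) + k) := by
        refine sum_congr rfl fun m _ => ?_
        congr 1
        push_cast
        ring
      have h5 : f (((0 : ℕ) : ℤ) + k) = f (k : ℤ) := by simp
      rw [h5] at h3
      rw [h4]
      rw [eq_sub_iff_add_eq.mpr h3.symm]
      abel
    have h6 : ∑ m ∈ range M, f ((m : ℤ) + ((k + 1 : ℕ) : ℤ)) - ∑ m ∈ range M, f (m : ℤ) =
        (∑ m ∈ range M, f ((m : ℤ) + k) - ∑ m ∈ range M, f (m : ℤ)) +
          (f ((M : ℤ) + k) - f (k : ℤ)) := by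
      rw [h1]; abel
    rw [h6]
    calc _ ≤ ‖∑ m ∈ range M, f ((m : ℤ) + k) - ∑ m ∈ range M, f (m : ℤ)‖ +
          ‖f ((M : ℤ) + k) - f (k : ℤ)‖ := norm_add_le _ _
      _ ≤ 2 * k * C + (C + C) := by
          refine add_le_add ih ((norm_sub_le _ _).trans (add_le_add (hf _) (hf _)))
      _ = 2 * ((k + 1 : ℕ) : ℝ) * C := by push_cast; ring

/-- the average over a subinterval `[a, a + N)` of `[0, M)` -/
lemma avg_sub_interval {f : ℤ → E} {C : ℝ} (hf : ∀ n, ‖f n‖ ≤ C) (M N a : ℕ) (hN : 1 ≤ N)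
    (hM : a + N ≤ M) :
    ‖avg (range M) (fun m => f (m : ℤ)) - avg (range N) (fun m => f ((m : ℤ) + a))‖ ≤
      2 * (M - N : ℕ) / M * C := by
  have hC : 0 ≤ C := (norm_nonneg _).trans (hf 0)
  have hM0 : (0 : ℝ) < M := by
    have : 0 < M := by omega
    exact_mod_cast this
  have hN0 : (0 : ℝ) < N := by exact_mod_cast hN
  have hNM : (N : ℝ) ≤ M := by
    have : N ≤ M := by omega
    exact_mod_cast this
  obtain ⟨b, rfl⟩ : ∃ b, M = a + N + b := ⟨M - (a + N), by omega⟩
  have h1 : ∑ m ∈ range (a + N + b), f (m : ℤ) = ∑ m ∈ range a, f (m : ℤ) +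
      ∑ m ∈ range N, f ((m : ℤ) + a) + ∑ m ∈ range b, f (((a + N + m : ℕ) : ℤ)) := by
    rw [sum_range_add, sum_range_add]
    congr 2
    refine sum_congr rfl fun m _ => ?_
    congr 1
    push_cast
    ring
  set A := ∑ m ∈ range a, f (m : ℤ) with hA
  set S := ∑ m ∈ range N, f ((m : ℤ) + a) with hS
  set B := ∑ m ∈ range b, f (((a + N + m : ℕ) : ℤ)) with hB
  have hAn : ‖A‖ ≤ a * C := by
    calc ‖A‖ ≤ ∑ m ∈ range a, ‖f (m : ℤ)‖ := norm_sum_le _ _
      _ ≤ ∑ _m ∈ range a, C := sum_le_sum fun m _ => hf _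
      _ = a * C := by simp
  have hBn : ‖B‖ ≤ b * C := by
    calc ‖B‖ ≤ ∑ m ∈ range b, ‖f (((a + N + m : ℕ) : ℤ))‖ := norm_sum_le _ _
      _ ≤ ∑ _m ∈ range b, C := sum_le_sum fun m _ => hf _
      _ = b * C := by simp
  have hSn : ‖S‖ ≤ N * C := by
    calc ‖S‖ ≤ ∑ m ∈ range N, ‖f ((m : ℤ) + a)‖ := norm_sum_le _ _
      _ ≤ ∑ _m ∈ range N, C := sum_le_sum fun m _ => hf _
      _ = N * C := by simp
  have hMN : ((a + N + b - N : ℕ) : ℝ) = a + b := by
    have : a + N + b - N = a + b := by omega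
    rw [this]; push_cast; ring
  have hMc : ((a + N + b : ℕ) : ℝ) = a + N + b := by push_cast; ring
  simp only [avg, card_range]
  rw [h1, hMN]
  set M' : ℝ := ((a + N + b : ℕ) : ℝ) with hM'
  have h2 : M'⁻¹ • (A + S + B) - (N : ℝ)⁻¹ • S = M'⁻¹ • A + (M'⁻¹ - (N : ℝ)⁻¹) • S + M'⁻¹ • B := by
    simp only [smul_add, sub_smul]; abel
  rw [h2]
  have hinv : M'⁻¹ ≤ (N : ℝ)⁻¹ := inv_anti₀ hN0 hNM
  have e1 : ‖M'⁻¹ • A‖ ≤ M'⁻¹ * (a * C) := by
    rw [norm_smul, Real.norm_of_nonneg (by positivity)]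
    exact mul_le_mul_of_nonneg_left hAn (by positivity)
  have e2 : ‖M'⁻¹ • B‖ ≤ M'⁻¹ * (b * C) := by
    rw [norm_smul, Real.norm_of_nonneg (by positivity)]
    exact mul_le_mul_of_nonneg_left hBn (by positivity)
  have e3 : ‖(M'⁻¹ - (N : ℝ)⁻¹) • S‖ ≤ ((N : ℝ)⁻¹ - M'⁻¹) * (N * C) := by
    rw [norm_smul, Real.norm_of_nonpos (by linarith), neg_sub]
    exact mul_le_mul_of_nonneg_left hSn (by linarith)
  calc _ ≤ ‖M'⁻¹ • A‖ + ‖(M'⁻¹ - (N : ℝ)⁻¹) • S‖ + ‖M'⁻¹ • B‖ := norm_add₃_le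
    _ ≤ M'⁻¹ * (a * C) + ((N : ℝ)⁻¹ - M'⁻¹) * (N * C) + M'⁻¹ * (b * C) :=
        add_le_add (add_le_add e1 e3) e2
    _ = 2 * (a + b) / M' * C := by
        have : M' = a + N + b := hMc
        field_simp
        rw [this]
        ring

lemma avg_Ico (M : ℕ) (f : ℤ → E) :
    avg (Ico 0 (M : ℤ)) f = avg (range M) (fun m => f (m : ℤ)) := by
  have h : Ico 0 (M : ℤ) = (range M).map ⟨fun n : ℕ => (n : ℤ), Nat.cast_injective⟩ := by
    ext x
    simp only [mem_Ico, mem_map, mem_range, Function.Embedding.coeFn_mk]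
    constructor
    · rintro ⟨h0, h1⟩
      exact ⟨x.toNat, by omega, by omega⟩
    · rintro ⟨n, hn, rfl⟩
      omega
  rw [h]
  simp only [avg, card_map, sum_map, Function.Embedding.coeFn_mk]

end AvgAux

lemma avg_range_shift {f : ℤ → E} {C : ℝ} (hf : ∀ n, ‖f n‖ ≤ C) (M h : ℕ) (hM : 1 ≤ M) :
    ‖avg (range M) (fun m => f ((m : ℤ) + h)) - avg (range M) (fun m => f (m : ℤ))‖ ≤
      2 * h / M * C := by
  have hM0 : (0 : ℝ) < M := by exact_mod_cast hM
  simp only [avg, card_range, ← smul_sub]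
  rw [norm_smul, Real.norm_of_nonneg (by positivity)]
  calc _ ≤ (M : ℝ)⁻¹ * (2 * h * C) :=
        mul_le_mul_of_nonneg_left (AvgAux.sum_shift hf M h) (by positivity)
    _ = 2 * h / M * C := by
        field_simp

lemma avg_window {f : ℤ → E} {C : ℝ} (hf : ∀ n, ‖f n‖ ≤ C) (M mu M1 : ℕ) (hM : 1 ≤ M)
    (hM1 : 1 ≤ M1) (hmu : 1 ≤ mu) (h : mu * M1 ≤ M) :
    ‖avg (range M) (fun m => f (m : ℤ)) - avg (range (M - mu * M1 + 1)) (fun m0 =>
      avg (range M1) (fun m1 => f ((m0 : ℤ) + mu * m1)))‖ ≤ 4 * (mu * M1) / M * C := by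
  have hC : 0 ≤ C := (norm_nonneg _).trans (hf 0)
  have hM0 : (0 : ℝ) < M := by exact_mod_cast hM
  rw [avg_comm (range (M - mu * M1 + 1)) (range M1)]
  have hne : (range M1).Nonempty := ⟨0, by simpa using (by omega : 0 < M1)⟩
  rw [← avg_const hne (avg (range M) (fun m => f (m : ℤ))), ← avg_sub]
  refine norm_avg_le_const (by positivity) fun m1 hm1 => ?_
  have hm1' : m1 < M1 := by simpa using hm1
  have hle : mu * m1 + mu ≤ mu * M1 := by
    calc mu * m1 + mu = mu * (m1 + 1) := by ring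
      _ ≤ mu * M1 := Nat.mul_le_mul_left _ (by omega)
  have key := AvgAux.avg_sub_interval hf M (M - mu * M1 + 1) (mu * m1) (by omega) (by omega)
  have e1 : avg (range (M - mu * M1 + 1)) (fun m : ℕ => f ((m : ℤ) + ((mu * m1 : ℕ) : ℤ))) =
      avg (range (M - mu * M1 + 1)) (fun m0 : ℕ => f ((m0 : ℤ) + mu * m1)) := by
    refine avg_congr fun m _ => ?_
    push_cast
    rfl
  rw [e1] at key
  refine key.trans ?_
  refine mul_le_mul_of_nonneg_right ?_ hC
  refine div_le_div_of_nonneg_right ?_ hM0.le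
  have h3 : M - (M - mu * M1 + 1) ≤ mu * M1 := by omega
  have h4 : ((M - (M - mu * M1 + 1) : ℕ) : ℝ) ≤ (mu : ℝ) * M1 := by
    have := (Nat.cast_le (α := ℝ)).mpr h3
    push_cast at this ⊢
    linarith
  have h5 : (0 : ℝ) ≤ (mu : ℝ) * M1 := by positivity
  linarith

/-- the cube `[0, M)^s` -/
noncomputable def cube (s M : ℕ) : Finset (Fin s → ℤ) := Fintype.piFinset fun _ => Ico 0 (M : ℤ)

/-- averaging over one coordinate first -/
lemma avg_cube_coord {s M : ℕ} (hM : 1 ≤ M) (l : Fin s) (f : (Fin s → ℤ) → E) :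
    avg (cube s M) f = avg (cube s M) (fun t => avg (Ico 0 (M : ℤ)) (fun x =>
      f (Function.update t l x))) := by
  have hM0 : (0 : ℝ) < M := by exact_mod_cast hM
  simp only [avg, Int.card_Ico, sub_zero, Int.toNat_natCast, ← smul_sum]
  congr 1
  have key : ∑ t ∈ cube s M, ∑ x ∈ Ico 0 (M : ℤ), f (Function.update t l x) =
      ∑ t ∈ cube s M, ∑ x ∈ Ico 0 (M : ℤ), f t := by
    rw [← sum_product', ← sum_product']
    refine sum_nbij' (fun p => (Function.update p.1 l p.2, p.1 l))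
      (fun p => (Function.update p.1 l p.2, p.1 l)) ?_ ?_ ?_ ?_ ?_
    · rintro ⟨t, x⟩ hp
      simp only [mem_product, cube, Fintype.mem_piFinset] at hp ⊢
      refine ⟨fun i => ?_, hp.1 l⟩
      by_cases hi : i = l
      · subst hi; simpa using hp.2
      · rw [Function.update_of_ne hi]; exact hp.1 i
    · rintro ⟨t, x⟩ hp
      simp only [mem_product, cube, Fintype.mem_piFinset] at hp ⊢
      refine ⟨fun i => ?_, hp.1 l⟩
      by_cases hi : i = l
      · subst hi; simpa using hp.2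
      · rw [Function.update_of_ne hi]; exact hp.1 i
    · rintro ⟨t, x⟩ _
      simp
    · rintro ⟨t, x⟩ _
      simp
    · rintro ⟨t, x⟩ _
      rfl
  rw [key]
  simp only [sum_const, Int.card_Ico, sub_zero, Int.toNat_natCast]
  rw [← smul_sum, ← Nat.cast_smul_eq_nsmul ℝ, smul_smul, inv_mul_cancel₀ hM0.ne', one_smul]

lemma avg_cube_shift {s M : ℕ} (hM : 1 ≤ M) (l : Fin s) (h : ℕ) {f : (Fin s → ℤ) → E} {C : ℝ}
    (hf : ∀ t, ‖f t‖ ≤ C) :
    ‖avg (cube s M) (fun t => f (Function.update t l (t l + h))) - avg (cube s M) f‖ ≤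
      2 * h / M * C := by
  have hC : 0 ≤ C := (norm_nonneg _).trans (hf 0)
  have hM0 : (0 : ℝ) < M := by exact_mod_cast hM
  rw [avg_cube_coord hM l f, avg_cube_coord hM l (fun t => f (Function.update t l (t l + h))),
    ← avg_sub]
  refine norm_avg_le_const (by positivity) fun t _ => ?_
  simp only [Function.update_self, Function.update_idem]
  rw [AvgAux.avg_Ico, AvgAux.avg_Ico]
  exact avg_range_shift (f := fun x => f (Function.update t l x)) (fun n => hf _) M h hM

end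

end Pool.Nil
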