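import Pool.Agent.Nil.MS

set_option autoImplicit false

/-!
# Nil: sums over layers

PROOF of `layer_max`: `MS_sum_le` and, for every `j`, `MS_le_of_sq` with `B = b j`; `∑' j, ENNReal.ofReal (b j) =
ENNReal.ofReal (∑' j, b j)` (`ENNReal.ofReal_tsum_of_nonneg`).

PROOF of `layer_conv`: by `cz_closure`.  Given `ε > 0` choose `n` with `∑' j, b (j + n) ≤ ε`; let `F' k` be the sum over the
`j ∈ J k` with `j < n` and `F'' k` the sum over the `j ∈ J k` with `n ≤ j`.  `F''`: `layer_max` with `J' k = (J k).filter (n ≤ ·)` and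
`b' j = if n ≤ j then b j else 0`.  `F'` is the finite sum over `j < n` of the sequences `k ↦ if j ∈ J k then G j k else 0`,
each of which is `Cz` by `cz_of_sq` (for a finite set `s` of indices `≥ k0` the sum of the squares is the one over
the `k ∈ s` with `j ∈ J k`).
-/

namespace Pool.Nil

open Finset MeasureTheory Filter Topology
open scoped ENNReal NNReal

variable {α : Type*} [MeasurableSpace α] {μ : Measure α}

theorem layer_max (S : Set ℕ) (J : ℕ → Finset ℕ) (G : ℕ → ℕ → Lp ℂ 2 μ) (b : ℕ → ℝ)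
    (hb : ∀ j, 0 ≤ b j) (hs : Summable b)
    (h : ∀ j, ∀ s : Finset ℕ, (∀ k ∈ s, k ∈ S ∧ j ∈ J k) → ∑ k ∈ s, ‖G j k‖ ^ 2 ≤ b j ^ 2) :
    MS S (fun k => ∑ j ∈ J k, G j k) ≤ ENNReal.ofReal (∑' j, b j) := by
  refine (MS_sum_le S J G).trans ?_
  rw [ENNReal.ofReal_tsum_of_nonneg hb hs]
  exact ENNReal.tsum_le_tsum (fun j => MS_le_of_sq (hb j) (h j))

namespace LayerAux

lemma cz_zero : Cz (fun _ => (0 : Lp ℂ 2 μ)) :=
  cz_of_sq (k0 := 0) (B := 0) (by intro s _; simp)

lemma cz_sum {ι : Type*} (s : Finset ι) (F : ι → ℕ → Lp ℂ 2 μ) (h : ∀ i ∈ s, Cz (F i)) :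
    Cz (fun k => ∑ i ∈ s, F i k) := by
  classical
  induction s using Finset.induction_on with
  | empty => simpa using (cz_zero (μ := μ))
  | insert a s ha ih =>
    simp only [Finset.sum_insert ha]
    exact Cz.add (h a (mem_insert_self _ _)) (ih (fun i hi => h i (mem_insert_of_mem hi)))

end LayerAux

theorem layer_conv (k0 : ℕ) (J : ℕ → Finset ℕ) (G : ℕ → ℕ → Lp ℂ 2 μ) (b : ℕ → ℝ)
    (hb : ∀ j, 0 ≤ b j) (hs : Summable b)
    (h : ∀ j, ∀ s : Finset ℕ, (∀ k ∈ s, k0 ≤ k ∧ j ∈ J k) → ∑ k ∈ s, ‖G j k‖ ^ 2 ≤ b j ^ 2) :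
    Cz (fun k => ∑ j ∈ J k, G j k) := by
  classical
  refine cz_closure (fun ε hε => ?_)
  obtain ⟨n, hn⟩ : ∃ n : ℕ, ∑' j, b (j + n) ≤ ε := by
    have ht : Tendsto (fun i => ∑' k, b (k + i)) atTop (𝓝 0) := tendsto_sum_nat_add b
    have he := (ht.eventually (Iio_mem_nhds hε)).exists
    obtain ⟨n, hn⟩ := he
    exact ⟨n, le_of_lt hn⟩
  refine ⟨k0, fun k => ∑ j ∈ (J k).filter (fun j => j < n), G j k,
    fun k => ∑ j ∈ (J k).filter (fun j => ¬ j < n), G j k, ?_, ?_, ?_⟩
  · intro k _
    exact (Finset.sum_filter_add_sum_filter_not (J k) (fun j => j < n) (fun j => G j k)).symm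
  · have hF : (fun k => ∑ j ∈ (J k).filter (fun j => j < n), G j k) =
        fun k => ∑ j ∈ Finset.range n, (if j ∈ J k then G j k else 0) := by
      funext k
      rw [← Finset.sum_filter]
      refine Finset.sum_congr ?_ (fun _ _ => rfl)
      ext j
      simp [and_comm]
    rw [hF]
    refine LayerAux.cz_sum (Finset.range n) (fun j k => if j ∈ J k then G j k else 0)
      (fun j _ => ?_)
    refine cz_of_sq (k0 := k0) (B := b j ^ 2) (fun s hs' => ?_)
    have h1 : ∑ k ∈ s, ‖(if j ∈ J k then G j k else 0 : Lp ℂ 2 μ)‖ ^ 2 =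
        ∑ k ∈ s.filter (fun k => j ∈ J k), ‖G j k‖ ^ 2 := by
      rw [Finset.sum_filter]
      refine Finset.sum_congr rfl (fun k _ => ?_)
      by_cases hk : j ∈ J k
      · simp [hk]
      · simp [hk]
    rw [h1]
    refine h j _ (fun k hk => ?_)
    rw [Finset.mem_filter] at hk
    exact ⟨hs' k hk.1, hk.2⟩
  · have hb' : ∀ j, 0 ≤ (if n ≤ j then b j else 0) := by
      intro j
      split_ifs
      · exact hb j
      · exact le_rfl
    have hs' : Summable (fun j => if n ≤ j then b j else 0) := by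
      refine Summable.of_nonneg_of_le hb' (fun j => ?_) hs
      split_ifs
      · exact le_rfl
      · exact hb j
    have hl := layer_max (μ := μ) {k | k0 ≤ k} (fun k => (J k).filter (fun j => ¬ j < n)) G
      (fun j => if n ≤ j then b j else 0) hb' hs' (by
        intro j s hs1
        by_cases hj : n ≤ j
        · simp only [hj, if_true]
          refine h j s (fun k hk => ?_)
          have := hs1 k hk
          rw [Finset.mem_filter] at this
          exact ⟨this.1, this.2.1⟩
        · have hse : s = ∅ := by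
            rw [Finset.eq_empty_iff_forall_notMem]
            intro k hk
            have := hs1 k hk
            rw [Finset.mem_filter] at this
            exact hj (not_lt.mp this.2.2)
          simp [hse, hj])
    refine hl.trans (ENNReal.ofReal_le_ofReal ?_)
    rw [← hs'.sum_add_tsum_nat_add n]
    have h0 : ∑ i ∈ Finset.range n, (if n ≤ i then b i else 0) = 0 := by
      refine Finset.sum_eq_zero (fun i hi => ?_)
      rw [Finset.mem_range] at hi
      simp [not_le.mpr hi]
    rw [h0, zero_add]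
    simpa using hn

end Pool.Nil
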