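import Pool.Agent.Nil.MS

set_option autoImplicit false

/-!
# Nil: mean and pointwise convergence of box averages from operator bounds

PROOF of `met` (mean ergodic theorem).  Let `V` be the closure of the span of the ranges of all `1 - B m`.  For
`v = w - B m w`: `‖B k v‖ = ‖(B k - B k * B m) w‖ → 0`; by linearity and density (`‖B k‖ ≤ 1`) `B k v → 0` for all `v ∈ V`.
If `v ⊥ V` then for all `m` and `w`: `⟪v, w - B m w⟫ = 0`, so `(B m)* v = v`, and
`‖B m v - v‖^2 = ‖B m v‖^2 - 2 re ⟪B m v, v⟫ + ‖v‖^2 ≤ 2 ‖v‖^2 - 2 re ⟪v, (B m)* v⟫ = 0`, so `B m v = v`.  Every `v` is a sum of an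
element of `V` and one orthogonal to it (`Submodule.exists_add_mem_mem_orthogonal`), the limit is the second one, and it
is fixed by all `B m`.

PROOF of `conv_max` (`cv_closure`).  Given `h` and `ε`, let `w` be the limit of `B k h`, `B m w = w` for all `m`
(`met`).  Choose `m` with `C ‖B m h - w‖ ≤ ε`.  Then `h = w + (h - B m h) + (B m h - w)`, so
`B k h = (w + B k (h - B m h)) + B k (B m h - w)`.  `F' k = w + B k (h - B m h)`: `‖B k (h - B m h)‖ ≤ K 2^(m - k) ‖h‖` for
`k ≥ m` is square summable, so `F'` converges a.e. (`cz_of_sq`, `cv_const`), and `F'' k = B k (B m h - w)` has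
`MS ≤ C ‖B m h - w‖ ≤ ε` (`hmax`).
-/

namespace Pool.Nil

open Finset MeasureTheory Filter Topology
open scoped ENNReal NNReal

theorem met {H : Type*} [NormedAddCommGroup H] [InnerProductSpace ℂ H] [CompleteSpace H]
    (B : ℕ → H →L[ℂ] H) (h1 : ∀ k, ‖B k‖ ≤ 1)
    (h2 : ∀ m, Tendsto (fun k => ‖B k * B m - B k‖) atTop (𝓝 0)) (v : H) :
    ∃ w : H, Tendsto (fun k => B k v) atTop (𝓝 w) ∧ ∀ m, B m w = w := by
  classical
  let Z : Submodule ℂ H :=
    { carrier := {v | Tendsto (fun k => B k v) atTop (𝓝 0)}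
      add_mem' := by
        intro a b ha hb
        simpa using Tendsto.add ha hb
      zero_mem' := by simp
      smul_mem' := by
        intro c a ha
        simpa using Tendsto.const_smul ha c }
  have hZc : IsClosed (Z : Set H) := by
    refine isClosed_of_closure_subset fun a ha => ?_
    change Tendsto (fun k => B k a) atTop (𝓝 0)
    rw [Metric.tendsto_atTop]
    intro ε hε
    obtain ⟨b, hb, hab⟩ := Metric.mem_closure_iff.1 ha (ε / 2) (half_pos hε)
    have hb' : Tendsto (fun k => B k b) atTop (𝓝 0) := hb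
    obtain ⟨N, hN⟩ := Metric.tendsto_atTop.1 hb' (ε / 2) (half_pos hε)
    refine ⟨N, fun k hk => ?_⟩
    have e1 : B k a = B k b + B k (a - b) := by rw [map_sub]; abel
    have e2 : ‖B k (a - b)‖ ≤ ‖a - b‖ :=
      ((B k).le_opNorm _).trans (by
        have := mul_le_mul_of_nonneg_right (h1 k) (norm_nonneg (a - b))
        simpa using this)
    have e3 := hN k hk
    rw [dist_zero_right] at e3 ⊢
    rw [dist_eq_norm] at hab
    calc ‖B k a‖ ≤ ‖B k b‖ + ‖B k (a - b)‖ := by rw [e1]; exact norm_add_le _ _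
      _ < ε / 2 + ε / 2 := by linarith
      _ = ε := by ring
  let V0 : Submodule ℂ H := ⨆ m, LinearMap.range (1 - B m : H →L[ℂ] H).toLinearMap
  have hV0 : V0 ≤ Z := by
    refine iSup_le fun m => ?_
    rintro _ ⟨w, rfl⟩
    change Tendsto (fun k => B k ((1 - B m : H →L[ℂ] H) w)) atTop (𝓝 0)
    have hb : ∀ k, ‖B k ((1 - B m : H →L[ℂ] H) w)‖ ≤ ‖B k * B m - B k‖ * ‖w‖ := fun k => by
      have e : B k ((1 - B m : H →L[ℂ] H) w) = -((B k * B m - B k) w) := by
        simp [map_sub]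
      rw [e, norm_neg]
      exact ContinuousLinearMap.le_opNorm _ _
    refine squeeze_zero_norm hb ?_
    simpa using (h2 m).mul_const ‖w‖
  let V : Submodule ℂ H := V0.topologicalClosure
  have hV : V ≤ Z := Submodule.topologicalClosure_minimal _ hV0 hZc
  have _ : CompleteSpace V := V0.isClosed_topologicalClosure.completeSpace_coe
  obtain ⟨y, hy, z, hz, hv⟩ := V.exists_add_mem_mem_orthogonal v
  have hfix : ∀ m, B m z = z := fun m => by
    have hm : z - B m z ∈ V := by
      refine V0.le_topologicalClosure ?_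
      refine Submodule.mem_iSup_of_mem m ⟨z, ?_⟩
      simp
    have h0 : inner ℂ (z - B m z) z = 0 := (Submodule.mem_orthogonal V z).1 hz _ hm
    rw [inner_sub_left, sub_eq_zero] at h0
    have h3 : ‖B m z - z‖ ^ 2 ≤ 0 := by
      have e := @norm_sub_sq ℂ H _ _ _ (B m z) z
      rw [e, ← h0, inner_self_eq_norm_sq_to_K]
      have hB : ‖B m z‖ ≤ ‖z‖ := ((B m).le_opNorm _).trans (by
        have := mul_le_mul_of_nonneg_right (h1 m) (norm_nonneg z)
        simpa using this)
      have hB2 : ‖B m z‖ ^ 2 ≤ ‖z‖ ^ 2 := by gcongr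
      have e2 : RCLike.re ((‖z‖ : ℂ) ^ 2) = ‖z‖ ^ 2 := by
        rw [← Complex.ofReal_pow]
        exact Complex.ofReal_re _
      simp only [Complex.coe_algebraMap] at *
      rw [e2]
      linarith
    have h4 : ‖B m z - z‖ = 0 := by
      have := sq_nonneg ‖B m z - z‖
      exact pow_eq_zero_iff (two_ne_zero) |>.1 (le_antisymm h3 this)
    exact sub_eq_zero.1 (norm_eq_zero.1 h4)
  refine ⟨z, ?_, hfix⟩
  have hy' : Tendsto (fun k => B k y) atTop (𝓝 0) := hV hy
  have e : (fun k => B k v) = fun k => B k y + z := by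
    funext k
    rw [hv, map_add, hfix]
  rw [e]
  simpa using hy'.add_const z

variable {α : Type*} [MeasurableSpace α] {μ : Measure α}

theorem conv_max (B : ℕ → Lp ℂ 2 μ →L[ℂ] Lp ℂ 2 μ) (h1 : ∀ k, ‖B k‖ ≤ 1) {K C : ℝ}
    (hK : 0 ≤ K) (hC : 0 ≤ C)
    (h2 : ∀ m k, m ≤ k → ‖B k * B m - B k‖ ≤ K * (2 : ℝ) ^ ((m : ℝ) - k))
    (hmax : ∀ h : Lp ℂ 2 μ, MS Set.univ (fun k => B k h) ≤ ENNReal.ofReal (C * ‖h‖))
    (h : Lp ℂ 2 μ) : Cv (fun k => B k h) := by
  have hpow : ∀ m k : ℕ, (2 : ℝ) ^ ((m : ℝ) - k) = 2 ^ m * (1 / 2 : ℝ) ^ k := fun m k => by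
    rw [Real.rpow_sub (by norm_num), Real.rpow_natCast, Real.rpow_natCast]
    rw [one_div, inv_pow, div_eq_mul_inv]
  have hg : Tendsto (fun k : ℕ => (1 / 2 : ℝ) ^ k) atTop (𝓝 0) :=
    tendsto_pow_atTop_nhds_zero_of_lt_one (by norm_num) (by norm_num)
  have h2' : ∀ m, Tendsto (fun k => ‖B k * B m - B k‖) atTop (𝓝 0) := fun m => by
    have hl : Tendsto (fun k : ℕ => K * (2 ^ m * (1 / 2 : ℝ) ^ k)) atTop (𝓝 0) := by
      simpa using (hg.const_mul (2 ^ m)).const_mul K
    refine squeeze_zero' (Eventually.of_forall fun k => norm_nonneg _) ?_ hl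
    filter_upwards [eventually_ge_atTop m] with k hk
    rw [← hpow]
    exact h2 m k hk
  obtain ⟨w, hw, hfix⟩ := met B h1 h2' h
  refine cv_closure fun ε hε => ?_
  have hm : ∃ m, C * ‖B m h - w‖ ≤ ε := by
    have ht : Tendsto (fun k => C * ‖B k h - w‖) atTop (𝓝 0) := by
      have h3 : Tendsto (fun k => B k h - w) atTop (𝓝 0) := by
        simpa using hw.sub_const w
      simpa using h3.norm.const_mul C
    exact ((ht.eventually (gt_mem_nhds hε)).exists).imp fun m hm => hm.le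
  obtain ⟨m, hm⟩ := hm
  refine ⟨m, fun k => w + B k (h - B m h), fun k => B k (B m h - w), fun k hk => ?_, ?_, ?_⟩
  · simp only [map_sub, hfix]
    abel
  · refine (cv_const w).add (Cz.cv ?_)
    have hs : Summable fun k : ℕ => (K * (2 ^ m * (1 / 2 : ℝ) ^ k) * ‖h‖) ^ 2 := by
      have h4 : (fun k : ℕ => (K * (2 ^ m * (1 / 2 : ℝ) ^ k) * ‖h‖) ^ 2)
          = fun k : ℕ => ((K * 2 ^ m * ‖h‖) ^ 2) * (1 / 4 : ℝ) ^ k := by
        funext k
        have : (1 / 4 : ℝ) ^ k = ((1 / 2 : ℝ) ^ k) ^ 2 := by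
          rw [← pow_mul, mul_comm, pow_mul]; norm_num
        rw [this]; ring
      rw [h4]
      exact (summable_geometric_of_lt_one (by norm_num) (by norm_num)).mul_left _
    refine cz_of_sq (k0 := m) (B := ∑' k : ℕ, (K * (2 ^ m * (1 / 2 : ℝ) ^ k) * ‖h‖) ^ 2)
      fun s hs' => ?_
    refine le_trans (Finset.sum_le_sum fun k hk => ?_)
      (hs.sum_le_tsum s fun k _ => sq_nonneg _)
    have e : B k (h - B m h) = -((B k * B m - B k) h) := by
      simp [map_sub]
    rw [e, norm_neg]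
    have h5 : ‖(B k * B m - B k) h‖ ≤ K * (2 ^ m * (1 / 2 : ℝ) ^ k) * ‖h‖ := by
      refine (ContinuousLinearMap.le_opNorm _ _).trans ?_
      rw [← hpow]
      exact mul_le_mul_of_nonneg_right (h2 m k (hs' k hk)) (norm_nonneg _)
    gcongr
  · refine (MS_mono_set (Set.subset_univ _) _).trans ((hmax _).trans ?_)
    exact ENNReal.ofReal_le_ofReal hm

end Pool.Nil
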