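import Pool.Agent.Nil.Resid

set_option autoImplicit false

/-!
# Nil: averages over short progressions act trivially on large boxes

PROOF of `resid0`.  If `K lam M / R > 1` the norm is at most `2 ≤ 2 K (lam M / R)`.  Otherwise for `m < M` the element
`g (lam m)` is in `Sm 1 Q R (K ze)`, `ze = lam M / R` (`seq_small` of `Nil/SmSeq.lean` with `N = R`; `md W D Q 1 ∣ lam`), so by `ni`
(case `j = 0`) `‖(Uo U (g (lam m)) - 1) * Bj 0 Q R‖ ≤ K' K ze`; average over `m < M`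
(`norm_avg_le_const`, `avg_const`, `avg_sub`).

PROOF of `delta_norm`: with `K` from `resid0` (`2^(k+j) ≥ 2^k`) and `lam * M ≤ 2^(k+1)`:
`‖(Al - 1) B2 Q (k+j)‖ ≤ K 2^(1-j)`, and the same for `k + j + 1`.
-/

namespace Pool.Nil

open Finset

variable {G : Type*} [Group G] {H : Type*} [NormedAddCommGroup H] [InnerProductSpace ℂ H]
  [CompleteSpace H]

namespace Frame

variable {g : ℤ → G} (fr : Frame g) (U : G →* (H ≃ₗᵢ[ℂ] H))

theorem resid0 : ∃ K : ℝ, 1 ≤ K ∧ ∀ (Q lam M : ℕ) (R : ℝ), 1 ≤ Q → 1 ≤ lam → 1 ≤ M →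
    md fr.W fr.D Q 1 ∣ lam → 1 ≤ R →
    ‖(Al U g M lam - 1) * fr.Bj U 0 Q R‖ ≤ K * ((lam : ℝ) * M / R) := by
  obtain ⟨K1, hK1, hs⟩ := fr.seq_small
  obtain ⟨K2, hK2, hni⟩ := fr.ni U
  refine ⟨2 * K1 + K1 * K2, by nlinarith, ?_⟩
  intro Q lam M R hQ hlam hM hdvd hR
  have hR0 : 0 < R := by linarith
  have hlam0 : (0 : ℝ) < lam := by exact_mod_cast hlam
  have hM0 : (0 : ℝ) < M := by exact_mod_cast hM
  have hX0 : 0 ≤ (lam : ℝ) * M / R := by positivity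
  have hB := fr.norm_Bj_le U 0 Q R
  have hK12 : 0 ≤ K1 * K2 * ((lam : ℝ) * M / R) := by positivity
  by_cases hbig : 1 < K1 * ((lam : ℝ) * M / R)
  · have h1 : ‖(Al U g M lam - 1) * fr.Bj U 0 Q R‖ ≤ 2 := by
      rw [sub_mul, one_mul]
      exact ResidAux.norm_sub_le_two
        (ResidAux.norm_mul_le_one (norm_Al_le U g M lam) hB) hB
    refine h1.trans ?_
    nlinarith
  · rw [not_lt] at hbig
    have hX1 : (lam : ℝ) * M / R ≤ 1 := by nlinarith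
    have hne : (range M).Nonempty := nonempty_range_iff.2 (by omega)
    have e : (Al U g M lam - 1) * fr.Bj U 0 Q R =
        avg (range M) (fun m : ℕ => Uo U (g (lam * m)) * fr.Bj U 0 Q R - fr.Bj U 0 Q R) := by
      rw [avg_sub, avg_const hne, ← RepAux.avg_mul, sub_mul, one_mul]
      rfl
    have hmain : ‖(Al U g M lam - 1) * fr.Bj U 0 Q R‖ ≤ K2 * (K1 * ((lam : ℝ) * M / R)) := by
      rw [e]
      refine norm_avg_le_const (by positivity) fun m hm => ?_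
      rw [mem_range] at hm
      have h1 := (hs R ((lam : ℝ) * M / R) ((lam : ℤ) * m) hR hX0 hX1 (by
        rw [div_mul_cancel₀ _ hR0.ne', Int.cast_mul, Int.cast_natCast, Int.cast_natCast,
          abs_of_nonneg (by positivity)]
        have h2 : (m : ℝ) ≤ M := by exact_mod_cast hm.le
        exact mul_le_mul_of_nonneg_left h2 hlam0.le)).2 Q
        (Dvd.dvd.mul_right (by exact_mod_cast hdvd) _)
      exact (hni 0 Q R _ _ hQ hR (by positivity) hbig h1).1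
    have hK : 0 ≤ 2 * K1 * ((lam : ℝ) * M / R) := by positivity
    nlinarith

theorem delta_norm : ∃ K : ℝ, 1 ≤ K ∧ ∀ (Q lam M k j : ℕ), 1 ≤ Q → 1 ≤ lam → 1 ≤ M →
    md fr.W fr.D Q 1 ∣ lam → lam * M ≤ 2 ^ (k + 1) →
    ‖(Al U g M lam - 1) * fr.B2 U Q (k + j)‖ ≤ K * ((2 : ℝ) ^ j)⁻¹ ∧
    ‖(Al U g M lam - 1) * (fr.B2 U Q (k + j) - fr.B2 U Q (k + j + 1))‖ ≤ K * ((2 : ℝ) ^ j)⁻¹ := by
  obtain ⟨K, hK, h⟩ := fr.resid0 U
  refine ⟨4 * K, by linarith, ?_⟩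
  intro Q lam M k j hQ hlam hM hdvd hle
  have hle' : (lam : ℝ) * M ≤ 2 ^ (k + 1) := by exact_mod_cast hle
  have key : ∀ i : ℕ, ‖(Al U g M lam - 1) * fr.B2 U Q (k + i)‖ ≤ 2 * K * ((2 : ℝ) ^ i)⁻¹ := by
    intro i
    have h1 := h Q lam M ((2 : ℝ) ^ (k + i)) hQ hlam hM hdvd (one_le_pow₀ (by norm_num))
    have h2 : (lam : ℝ) * M / (2 : ℝ) ^ (k + i) ≤ 2 * ((2 : ℝ) ^ i)⁻¹ := by
      calc (lam : ℝ) * M / (2 : ℝ) ^ (k + i) ≤ (2 : ℝ) ^ (k + 1) / (2 : ℝ) ^ (k + i) :=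
            div_le_div_of_nonneg_right hle' (by positivity)
        _ = 2 * ((2 : ℝ) ^ i)⁻¹ := by
            rw [pow_add, pow_add, pow_one]
            field_simp
    calc ‖(Al U g M lam - 1) * fr.B2 U Q (k + i)‖ ≤ K * ((lam : ℝ) * M / (2 : ℝ) ^ (k + i)) := h1
      _ ≤ K * (2 * ((2 : ℝ) ^ i)⁻¹) := mul_le_mul_of_nonneg_left h2 (by linarith)
      _ = 2 * K * ((2 : ℝ) ^ i)⁻¹ := by ring
  have hp : 0 ≤ K * ((2 : ℝ) ^ j)⁻¹ := by positivity
  constructor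
  · refine (key j).trans ?_
    linarith
  · have h3 := key (j + 1)
    have e1 : 2 * K * ((2 : ℝ) ^ (j + 1))⁻¹ = K * ((2 : ℝ) ^ j)⁻¹ := by
      rw [pow_succ]
      field_simp
    rw [e1] at h3
    have h4 := key j
    rw [mul_sub]
    have h5 := norm_sub_le ((Al U g M lam - 1) * fr.B2 U Q (k + j))
      ((Al U g M lam - 1) * fr.B2 U Q (k + j + 1))
    have h6 : ‖(Al U g M lam - 1) * fr.B2 U Q (k + j + 1)‖ ≤ K * ((2 : ℝ) ^ j)⁻¹ := h3
    linarith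

end Frame

end Pool.Nil
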