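import Mathlib

set_option autoImplicit false

/-!
# Nil: the column lemma

PROOF of `column`.  Let `S = ∑ i, ‖T i v‖^2` and `w = ∑ i, (T i)* (T i v)`.  Then `S = re ⟪v, w⟫ ≤ ‖v‖ ‖w‖` and
`‖w‖^2 = ∑ i, ∑ j, re ⟪(T i)* T i v, (T j)* T j v⟫ = ∑ i, ∑ j, re ⟪T j (T i)* (T i v), T j v⟫ ≤
∑ i, ∑ j, ‖T j (T i)*‖ ‖T i v‖ ‖T j v‖ ≤ ∑ i, ∑ j, ‖T j (T i)*‖ (‖T i v‖^2 + ‖T j v‖^2) / 2 ≤ B S`
(`‖T j (T i)*‖ = ‖T i (T j)*‖`, its adjoint).  So `S^2 ≤ B S ‖v‖^2`.

PROOF of `column_geom`.  `‖T k (T l)*‖ ≤ min (eps^2) (K 2^(-|k-l|)) ≤ eps √K 2^(-|k-l|/2)`, and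
`∑_l 2^(-|k-l|/2) ≤ 1 + 2 ∑_{n ≥ 1} 2^(-n/2) ≤ 8` (e.g. `2^(-n/2) ≤ (3/4)^n`, so the sum is at most `1 + 2 * 3 = 7`).
-/

namespace Pool.Nil

open Finset

variable {H : Type*} [NormedAddCommGroup H] [InnerProductSpace ℂ H] [CompleteSpace H]

namespace SqOpAux

lemma norm_swap (A B : H →L[ℂ] H) :
    ‖A * ContinuousLinearMap.adjoint B‖ = ‖B * ContinuousLinearMap.adjoint A‖ := by
  have h1 : ContinuousLinearMap.adjoint (A * ContinuousLinearMap.adjoint B) =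
      B * ContinuousLinearMap.adjoint A := by
    rw [← ContinuousLinearMap.star_eq_adjoint, ← ContinuousLinearMap.star_eq_adjoint,
      ← ContinuousLinearMap.star_eq_adjoint, star_mul, star_star]
  rw [← h1, ← ContinuousLinearMap.star_eq_adjoint (A * _), norm_star]

/-- one term -/
lemma inner_le (A B : H →L[ℂ] H) (a b : H) :
    RCLike.re (inner ℂ (ContinuousLinearMap.adjoint A a) (ContinuousLinearMap.adjoint B b)) ≤
      ‖B * ContinuousLinearMap.adjoint A‖ * (‖a‖ * ‖b‖) := by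
  rw [ContinuousLinearMap.adjoint_inner_right]
  refine (RCLike.re_le_norm _).trans ((norm_inner_le_norm _ _).trans ?_)
  rw [← mul_assoc]
  refine mul_le_mul_of_nonneg_right ?_ (norm_nonneg b)
  exact (B * ContinuousLinearMap.adjoint A).le_opNorm a

lemma geo_le (t : Finset ℕ) : ∑ j ∈ t, (3 / 4 : ℝ) ^ j ≤ 4 := by
  have h1 : Summable fun j : ℕ => (3 / 4 : ℝ) ^ j :=
    summable_geometric_of_lt_one (by norm_num) (by norm_num)
  have h2 := h1.sum_le_tsum t (fun j _ => by positivity)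
  rw [tsum_geometric_of_lt_one (by norm_num) (by norm_num)] at h2
  refine h2.trans (le_of_eq (by norm_num))

lemma dist_sum_le (s : Finset ℕ) (k : ℕ) :
    ∑ l ∈ s, (3 / 4 : ℝ) ^ ((k - l) + (l - k)) ≤ 8 := by
  rw [← Finset.sum_filter_add_sum_filter_not s (fun l => l ≤ k)]
  have h1 : ∑ l ∈ s.filter (fun l => l ≤ k), (3 / 4 : ℝ) ^ ((k - l) + (l - k)) ≤ 4 := by
    have h2 : ∑ l ∈ s.filter (fun l => l ≤ k), (3 / 4 : ℝ) ^ ((k - l) + (l - k)) =
        ∑ j ∈ (s.filter (fun l => l ≤ k)).image (fun l => k - l), (3 / 4 : ℝ) ^ j := by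
      rw [Finset.sum_image]
      · refine Finset.sum_congr rfl fun l hl => ?_
        have := (Finset.mem_filter.1 hl).2
        rw [Nat.sub_eq_zero_of_le this, add_zero]
      · intro a ha b hb hab
        have h3 := (Finset.mem_filter.1 ha).2
        have h4 := (Finset.mem_filter.1 hb).2
        simp only at hab
        omega
    rw [h2]
    exact geo_le _
  have h3 : ∑ l ∈ s.filter (fun l => ¬ l ≤ k), (3 / 4 : ℝ) ^ ((k - l) + (l - k)) ≤ 4 := by
    have h2 : ∑ l ∈ s.filter (fun l => ¬ l ≤ k), (3 / 4 : ℝ) ^ ((k - l) + (l - k)) =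
        ∑ j ∈ (s.filter (fun l => ¬ l ≤ k)).image (fun l => l - k), (3 / 4 : ℝ) ^ j := by
      rw [Finset.sum_image]
      · refine Finset.sum_congr rfl fun l hl => ?_
        have := (Finset.mem_filter.1 hl).2
        rw [Nat.sub_eq_zero_of_le (le_of_not_ge this), zero_add]
      · intro a ha b hb hab
        have h3 := (Finset.mem_filter.1 ha).2
        have h4 := (Finset.mem_filter.1 hb).2
        simp only at hab
        omega
    rw [h2]
    exact geo_le _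
  linarith

lemma le_mul_of_sq {a x y : ℝ} (ha : 0 ≤ a) (hx : 0 ≤ x) (hy : 0 ≤ y) (h1 : a ≤ x ^ 2)
    (h2 : a ≤ y ^ 2) : a ≤ x * y := by
  refine abs_le_of_sq_le_sq' ?_ (mul_nonneg hx hy) |>.2
  nlinarith [mul_le_mul h1 h2 ha (sq_nonneg x)]

lemma two_le (k l : ℕ) : (2 : ℝ) ^ (-|(k : ℝ) - l|) ≤ ((3 / 4 : ℝ) ^ ((k - l) + (l - k))) ^ 2 := by
  have h1 : |(k : ℝ) - l| = (((k - l) + (l - k) : ℕ) : ℝ) := by
    rcases le_total k l with h | h
    · rw [abs_of_nonpos (by simpa using h), Nat.sub_eq_zero_of_le h, zero_add, Nat.cast_sub h]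
      ring
    · rw [abs_of_nonneg (by simpa using h), Nat.sub_eq_zero_of_le h, add_zero, Nat.cast_sub h]
  rw [h1, Real.rpow_neg (by norm_num), Real.rpow_natCast, ← inv_pow, ← pow_mul, mul_comm _ 2,
    pow_mul]
  exact pow_le_pow_left₀ (by norm_num) (by norm_num) _

end SqOpAux

open SqOpAux

theorem column {ι : Type*} (s : Finset ι) (T : ι → H →L[ℂ] H) {B : ℝ} (hB : 0 ≤ B)
    (h : ∀ i ∈ s, ∑ j ∈ s, ‖T i * ContinuousLinearMap.adjoint (T j)‖ ≤ B) (v : H) :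
    ∑ i ∈ s, ‖T i v‖ ^ 2 ≤ B * ‖v‖ ^ 2 := by
  set S : ℝ := ∑ i ∈ s, ‖T i v‖ ^ 2 with hS
  set w : H := ∑ i ∈ s, ContinuousLinearMap.adjoint (T i) (T i v) with hw
  have hS0 : 0 ≤ S := Finset.sum_nonneg fun i _ => by positivity
  have h1 : S = RCLike.re (inner ℂ v w) := by
    rw [hw, inner_sum, map_sum, hS]
    refine Finset.sum_congr rfl fun i _ => ?_
    rw [ContinuousLinearMap.adjoint_inner_right, ← norm_sq_eq_re_inner]
  have h2 : S ≤ ‖v‖ * ‖w‖ := by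
    rw [h1]
    exact (RCLike.re_le_norm _).trans (norm_inner_le_norm _ _)
  have h3 : ‖w‖ ^ 2 ≤ B * S := by
    have h4 : ‖w‖ ^ 2 = ∑ i ∈ s, ∑ j ∈ s, RCLike.re
        (inner ℂ (ContinuousLinearMap.adjoint (T i) (T i v))
          (ContinuousLinearMap.adjoint (T j) (T j v))) := by
      rw [norm_sq_eq_re_inner (𝕜 := ℂ), hw, sum_inner, map_sum]
      refine Finset.sum_congr rfl fun i _ => ?_
      rw [inner_sum, map_sum]
    rw [h4]
    have h5 : ∀ i ∈ s, ∀ j ∈ s, RCLike.re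
        (inner ℂ (ContinuousLinearMap.adjoint (T i) (T i v))
          (ContinuousLinearMap.adjoint (T j) (T j v))) ≤
        ‖T i * ContinuousLinearMap.adjoint (T j)‖ * ‖T i v‖ ^ 2 / 2 +
        ‖T j * ContinuousLinearMap.adjoint (T i)‖ * ‖T j v‖ ^ 2 / 2 := by
      intro i _ j _
      refine (inner_le _ _ _ _).trans ?_
      rw [norm_swap (T i) (T j)]
      have h6 : ‖T i v‖ * ‖T j v‖ ≤ (‖T i v‖ ^ 2 + ‖T j v‖ ^ 2) / 2 := by
        nlinarith [sq_nonneg (‖T i v‖ - ‖T j v‖)]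
      have h7 := mul_le_mul_of_nonneg_left h6
        (norm_nonneg (T j * ContinuousLinearMap.adjoint (T i)))
      refine h7.trans (le_of_eq (by ring))
    refine (Finset.sum_le_sum fun i hi => Finset.sum_le_sum fun j hj => h5 i hi j hj).trans ?_
    have h8 : ∑ i ∈ s, ∑ j ∈ s, (‖T i * ContinuousLinearMap.adjoint (T j)‖ * ‖T i v‖ ^ 2 / 2 +
        ‖T j * ContinuousLinearMap.adjoint (T i)‖ * ‖T j v‖ ^ 2 / 2) =
        ∑ i ∈ s, (∑ j ∈ s, ‖T i * ContinuousLinearMap.adjoint (T j)‖) * ‖T i v‖ ^ 2 := by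
      have h9 : ∑ i ∈ s, ∑ j ∈ s, (‖T i * ContinuousLinearMap.adjoint (T j)‖ * ‖T i v‖ ^ 2 / 2 +
          ‖T j * ContinuousLinearMap.adjoint (T i)‖ * ‖T j v‖ ^ 2 / 2) =
          ∑ i ∈ s, ∑ j ∈ s, ‖T i * ContinuousLinearMap.adjoint (T j)‖ * ‖T i v‖ ^ 2 / 2 +
          ∑ i ∈ s, ∑ j ∈ s, ‖T j * ContinuousLinearMap.adjoint (T i)‖ * ‖T j v‖ ^ 2 / 2 := by
        simp only [Finset.sum_add_distrib]
      rw [h9]
      rw [Finset.sum_comm (f := fun i j => ‖T j * ContinuousLinearMap.adjoint (T i)‖ *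
        ‖T j v‖ ^ 2 / 2), ← Finset.sum_add_distrib]
      refine Finset.sum_congr rfl fun i _ => ?_
      rw [← Finset.sum_add_distrib, Finset.sum_mul]
      refine Finset.sum_congr rfl fun j _ => ?_
      ring
    rw [h8, hS, Finset.mul_sum]
    exact Finset.sum_le_sum fun i hi => mul_le_mul_of_nonneg_right (h i hi) (by positivity)
  rcases hS0.eq_or_lt with h0 | h0
  · rw [← h0]; positivity
  · have h10 : S ^ 2 ≤ ‖v‖ ^ 2 * (B * S) := by
      have h11 : S ^ 2 ≤ (‖v‖ * ‖w‖) ^ 2 := pow_le_pow_left₀ hS0 h2 2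
      rw [mul_pow] at h11
      exact h11.trans (mul_le_mul_of_nonneg_left h3 (by positivity))
    have h12 : S * S ≤ (B * ‖v‖ ^ 2) * S := by nlinarith
    exact le_of_mul_le_mul_right h12 h0

theorem column_geom (s : Finset ℕ) (T : ℕ → H →L[ℂ] H) {eps K : ℝ} (heps : 0 ≤ eps) (hK : 0 ≤ K)
    (h1 : ∀ k ∈ s, ‖T k‖ ≤ eps)
    (h2 : ∀ k ∈ s, ∀ l ∈ s, ‖T k * ContinuousLinearMap.adjoint (T l)‖ ≤
      K * (2 : ℝ) ^ (-|(k : ℝ) - l|)) (v : H) :
    ∑ k ∈ s, ‖T k v‖ ^ 2 ≤ 8 * eps * Real.sqrt K * ‖v‖ ^ 2 := by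
  refine column s T (by positivity) (fun k hk => ?_) v
  have h3 : ∀ l ∈ s, ‖T k * ContinuousLinearMap.adjoint (T l)‖ ≤
      eps * Real.sqrt K * (3 / 4 : ℝ) ^ ((k - l) + (l - k)) := by
    intro l hl
    rw [mul_assoc]
    refine le_mul_of_sq (norm_nonneg _) heps (by positivity) ?_ ?_
    · refine (norm_mul_le _ _).trans ?_
      rw [sq]
      refine mul_le_mul (h1 k hk) ?_ (norm_nonneg _) heps
      rw [← ContinuousLinearMap.star_eq_adjoint, norm_star]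
      exact h1 l hl
    · refine (h2 k hk l hl).trans ?_
      rw [mul_pow, Real.sq_sqrt hK]
      exact mul_le_mul_of_nonneg_left (two_le k l) hK
  refine (Finset.sum_le_sum h3).trans ?_
  rw [← Finset.mul_sum]
  have h4 := mul_le_mul_of_nonneg_left (dist_sum_le s k)
    (mul_nonneg heps (Real.sqrt_nonneg K))
  linarith

end Pool.Nil
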