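import Pool.Agent.Nil.OpC
import Pool.Agent.Nil.Resid0
import Pool.Agent.Nil.Layer
import Pool.Agent.Nil.SqOp
import Pool.Agent.Nil.Met

set_option autoImplicit false

/-!
# Nil: the main parts

`Dk k = Al (N k / lam) lam * B2 Q (rr k)` with `lam = ls c s`, `Q = Qs c s`, for `k ≥ 2^s`.

PROOF of `mainS`.  `i0` is so large that for `i ≥ i0`: `Sp c i ≤ 2^i` and `ls c i ≤ 2^(2^i)` (`ls_small`; `2^(Sp) ≤ 2^(2^i / 16)`), and
`i0` is at least the one of `opC`.  Fix `s ≥ i0`, `Q = Qs c s`, `lam = ls c s` (`md W D Q 1 ∣ lam`: `md_dvd_ls`), `N` with `Dy N`, and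
write `A k = Al (N k / lam) lam`, `B k = B2 Q k`, `Δ k = B k - B (k + 1)`.  For `k ≥ 2^s`, `i = Nat.log 2 k ≥ s`,
`ls c s ≤ ls c i`-like bounds give `1 ≤ N k / lam`, and `lam * (N k / lam) ≤ N k ≤ 2^(k+1)`.
Identity (for `k ≥ 2^s`): `A k * B (k - Sp c i) = B k + E k + ∑ j < k, G1 j k + ∑ j ∈ Icc 1 (Sp c i), G2 j k`,
`G1 j k = (A k - 1) * Δ (k + j)`, `E k = (A k - 1) * B (2 k)` (telescoping `B k = ∑ j < k, Δ (k + j) + B (2 k)`),
`G2 j k = A k * (B (k - j) - B (k - j + 1))` (telescoping; `Sp c i ≤ k`).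
* `E`: `‖E k‖ ≤ K 2^(-k)` (`delta_norm` with `j = k`), `∑ ‖E k h‖^2 ≤ (2 K ‖h‖)^2`.
* `G1`: `‖G1 j k‖ ≤ K 2^(-j)` (`delta_norm`), `‖G1 j k * (G1 j l)*‖ ≤ 4 ‖Δ (k+j) (Δ (l+j))*‖ ≤ 4 K 2^(-|k - l|)` (`hP.delta`), so
  `∑_{k ∈ t} ‖G1 j k h‖^2 ≤ 8 K 2^(-j) √(4 K) ‖h‖^2` (`column_geom`) `=: (b1 j)^2`, `b1` summable.
* `G2`: for `k ≥ 2^s` with `j ≤ Sp c (log2 k)`: `‖G2 j k‖ ≤ C 2^(-j/(8c+8))` (`opC`), `‖G2 j k * (G2 j l)*‖ ≤ K 2^(-|k - l|)`
  (`‖A‖ ≤ 1`; `k - j + 1`, `l - j + 1` are the successors of `k - j`, `l - j`), so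
  `∑_{k ∈ t} ‖G2 j k h‖^2 ≤ 8 C 2^(-j/(8c+8)) √K ‖h‖^2 =: (b2 j)^2`, `b2` summable.
`layer_max` (for `G1`, `G2`) and `MS_le_of_sq` (for `E`), `MS_add` and `hBox` for `B k h` give the maximal inequality with a
constant not depending on `s` and `N`.  `layer_conv`, `cz_of_sq` and `conv_max` (with `hP.absorb`; `‖B k‖ ≤ 1`) for `B k h` give the
convergence (`k ≥ 2^s` is enough, `Cv.congr`).
-/

namespace Pool.Nil

open Finset MeasureTheory Filter Topology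
open scoped ENNReal NNReal

variable {G : Type*} [Group G] {α : Type*} [MeasurableSpace α] {μ : Measure α}

namespace Frame

variable {g : ℤ → G} (fr : Frame g) (U : G →* (Lp ℂ 2 μ ≃ₗᵢ[ℂ] Lp ℂ 2 μ))

/-- the maximal inequality for the box averages -/
def BoxMax : Prop := ∃ C : ℝ, 0 ≤ C ∧ ∀ Q : ℕ, 1 ≤ Q → ∀ h : Lp ℂ 2 μ,
  MS Set.univ (fun k => fr.B2 U Q k h) ≤ ENNReal.ofReal (C * ‖h‖)

namespace MainSAux

section
variable {H : Type*} [NormedAddCommGroup H] [InnerProductSpace ℂ H] [CompleteSpace H]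

lemma conj_le {X X' D D' : H →L[ℂ] H} {a a' b : ℝ} (hX : ‖X‖ ≤ a) (hX' : ‖X'‖ ≤ a')
    (h : ‖D * ContinuousLinearMap.adjoint D'‖ ≤ b) :
    ‖(X * D) * ContinuousLinearMap.adjoint (X' * D')‖ ≤ a * b * a' := by
  have ha : 0 ≤ a := (norm_nonneg _).trans hX
  have hb : 0 ≤ b := (norm_nonneg _).trans h
  have e : (X * D) * ContinuousLinearMap.adjoint (X' * D') =
      X * (D * ContinuousLinearMap.adjoint D') * ContinuousLinearMap.adjoint X' := by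
    have e1 : ContinuousLinearMap.adjoint (X' * D') =
        ContinuousLinearMap.adjoint D' * ContinuousLinearMap.adjoint X' := by
      simp only [← ContinuousLinearMap.star_eq_adjoint]
      rw [star_mul]
    rw [e1]
    simp only [mul_assoc]
  rw [e]
  have h1 : ‖X * (D * ContinuousLinearMap.adjoint D')‖ ≤ a * b :=
    (norm_mul_le _ _).trans (mul_le_mul hX h (norm_nonneg _) ha)
  refine (norm_mul_le _ _).trans (mul_le_mul h1 ?_ (norm_nonneg _) (mul_nonneg ha hb))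
  rw [LinearIsometryEquiv.norm_map]
  exact hX'

lemma norm_sub_one_le {B : H →L[ℂ] H} (hB : ‖B‖ ≤ 1) : ‖B - 1‖ ≤ 2 := by
  have h : ‖(1 : H →L[ℂ] H)‖ ≤ 1 := ContinuousLinearMap.norm_id_le
  calc ‖B - 1‖ ≤ ‖B‖ + ‖(1 : H →L[ℂ] H)‖ := norm_sub_le _ _
    _ ≤ 2 := by linarith

end

lemma sum_quarter (t : Finset ℕ) : ∑ k ∈ t, (((2 : ℝ) ^ k)⁻¹) ^ 2 ≤ 4 := by
  have h1 : ∀ k : ℕ, (((2 : ℝ) ^ k)⁻¹) ^ 2 = (1 / 4 : ℝ) ^ k := by
    intro k
    rw [← inv_pow, ← pow_mul, mul_comm, pow_mul]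
    norm_num
  rw [Finset.sum_congr rfl fun k _ => h1 k]
  have hs : Summable fun k : ℕ => (1 / 4 : ℝ) ^ k :=
    summable_geometric_of_lt_one (by norm_num) (by norm_num)
  refine (hs.sum_le_tsum t fun k _ => by positivity).trans ?_
  rw [tsum_geometric_of_lt_one (by norm_num) (by norm_num)]
  norm_num

/-- telescoping up -/
lemma tele_up {E : Type*} [AddCommGroup E] (B : ℕ → E) (k n : ℕ) :
    ∑ j ∈ range n, (B (k + j) - B (k + j + 1)) = B k - B (k + n) := by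
  induction n with
  | zero => simp
  | succ n ih =>
    rw [Finset.sum_range_succ, ih, ← add_assoc]
    abel

/-- telescoping down -/
lemma tele_down {E : Type*} [AddCommGroup E] (B : ℕ → E) (k n : ℕ) (hn : n ≤ k) :
    ∑ j ∈ Icc 1 n, (B (k - j) - B (k - j + 1)) = B (k - n) - B k := by
  induction n with
  | zero => simp
  | succ n ih =>
    rw [Finset.sum_Icc_succ_top (by omega), ih (by omega)]
    have e : k - (n + 1) + 1 = k - n := by omega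
    rw [e]
    abel

end MainSAux

/-- the main part of level `s` -/
noncomputable def Dk (c s : ℕ) (N : ℕ → ℕ) (k : ℕ) : Lp ℂ 2 μ →L[ℂ] Lp ℂ 2 μ :=
  Al U g (N k / fr.ls c s) (fr.ls c s) * fr.B2 U (Qs c s) (rr c k)

theorem mainS {c : ℕ} {K : ℝ} (hP : fr.Pack U c K) (hBox : fr.BoxMax U) :
    ∃ (C : ℝ) (i0 : ℕ), 0 ≤ C ∧ ∀ s, i0 ≤ s → ∀ N : ℕ → ℕ, Dy N → ∀ h : Lp ℂ 2 μ,
      MS {k | 2 ^ s ≤ k} (fun k => fr.Dk U c s N k h) ≤ ENNReal.ofReal (C * ‖h‖) ∧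
      Cv (fun k => fr.Dk U c s N k h) := by
  classical
  obtain ⟨C0, hC0, hbox⟩ := hBox
  obtain ⟨C1, i1, hC1, hopC⟩ := fr.opC U hP
  obtain ⟨i2, hls⟩ := fr.ls_small c 1 hP.one_le_c
  obtain ⟨K2, hK2, hdn⟩ := fr.delta_norm U
  have hK1 : 1 ≤ K := hP.one_le_K
  have hK0 : 0 ≤ K := by linarith
  set r : ℝ := (2 : ℝ) ^ (-((1 : ℝ) / (8 * c + 8))) with hr
  have hc8 : (0 : ℝ) < 8 * c + 8 := by positivity
  have hr0 : 0 < r := Real.rpow_pos_of_pos (by norm_num) _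
  have hr1 : r < 1 := by
    rw [hr]
    refine Real.rpow_lt_one_of_one_lt_of_neg (by norm_num) ?_
    rw [neg_lt_zero]
    positivity
  have hrj : ∀ j : ℕ, (2 : ℝ) ^ (-((j : ℝ) / (8 * c + 8))) = r ^ j := by
    intro j
    rw [hr, ← Real.rpow_natCast, ← Real.rpow_mul (by norm_num)]
    congr 1
    field_simp
  have hsr0 : 0 ≤ Real.sqrt r := Real.sqrt_nonneg _
  have hsr1 : Real.sqrt r < 1 := by
    rw [Real.sqrt_lt' (by norm_num)]
    simpa using hr1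
  set c1 : ℝ := Real.sqrt (8 * K2 * Real.sqrt (4 * K)) with hc1
  set c2 : ℝ := Real.sqrt (8 * C1 * Real.sqrt K) with hc2
  have hc10 : 0 ≤ c1 := Real.sqrt_nonneg _
  have hc20 : 0 ≤ c2 := Real.sqrt_nonneg _
  have hc1s : c1 ^ 2 = 8 * K2 * Real.sqrt (4 * K) := Real.sq_sqrt (by positivity)
  have hc2s : c2 ^ 2 = 8 * C1 * Real.sqrt K := Real.sq_sqrt (by positivity)
  refine ⟨C0 + 2 * K2 + c1 * 4 + c2 * (1 - Real.sqrt r)⁻¹, max i1 i2, ?_, ?_⟩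
  · have h1 : 0 ≤ (1 - Real.sqrt r)⁻¹ := inv_nonneg.2 (by linarith)
    positivity
  intro s hs N hN h
  have hs1 : i1 ≤ s := (le_max_left _ _).trans hs
  have hs2 : i2 ≤ s := (le_max_right _ _).trans hs
  set lam := fr.ls c s with hlam
  set Q := Qs c s with hQ
  have hQ1 : 1 ≤ Q := Qs_pos c s
  have hlam1 : 1 ≤ lam := fr.ls_pos c s
  have hmd : md fr.W fr.D Q 1 ∣ lam := fr.md_dvd_ls c s
  set A : ℕ → Lp ℂ 2 μ →L[ℂ] Lp ℂ 2 μ := fun k => Al U g (N k / lam) lam with hA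
  set B : ℕ → Lp ℂ 2 μ →L[ℂ] Lp ℂ 2 μ := fun k => fr.B2 U Q k with hB
  have hA1 : ∀ k, ‖A k‖ ≤ 1 := fun k => norm_Al_le U g _ _
  have hB1 : ∀ k, ‖B k‖ ≤ 1 := fun k => fr.norm_B2_le U _ _
  -- sizes
  have hlam2 : ∀ k, 2 ^ s ≤ k → lam ≤ N k := by
    intro k hk
    have h1 := (hls s hs2).1
    rw [pow_one] at h1
    have h2 : 2 ^ s / 16 ≤ k := (Nat.div_le_self _ _).trans hk
    exact h1.trans ((Nat.pow_le_pow_right (by norm_num) h2).trans (hN k).1)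
  have hM1 : ∀ k, 2 ^ s ≤ k → 1 ≤ N k / lam := fun k hk =>
    (Nat.one_le_div_iff (by omega)).2 (hlam2 k hk)
  have hM2 : ∀ k, lam * (N k / lam) ≤ 2 ^ (k + 1) := fun k =>
    (Nat.mul_div_le _ _).trans (hN k).2.le
  have hSp : ∀ k, 2 ^ s ≤ k → Sp c (Nat.log 2 k) ≤ k := by
    intro k hk
    have hk0 : k ≠ 0 := by
      have : 1 ≤ 2 ^ s := Nat.one_le_two_pow
      omega
    have hsl : s ≤ Nat.log 2 k := (Nat.le_log_iff_pow_le (by norm_num) hk0).2 hk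
    have h1 := (hls (Nat.log 2 k) (hs2.trans hsl)).2.2
    rw [one_mul] at h1
    have h2 := (Nat.pow_le_pow_iff_right (by norm_num)).1 h1
    exact h2.trans ((Nat.div_le_self _ _).trans (Nat.pow_log_le_self 2 hk0))
  set E : ℕ → Lp ℂ 2 μ →L[ℂ] Lp ℂ 2 μ := fun k => (A k - 1) * B (k + k) with hE
  set G1 : ℕ → ℕ → Lp ℂ 2 μ →L[ℂ] Lp ℂ 2 μ := fun j k =>
    (A k - 1) * (B (k + j) - B (k + j + 1)) with hG1
  set G2 : ℕ → ℕ → Lp ℂ 2 μ →L[ℂ] Lp ℂ 2 μ := fun j k =>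
    A k * (B (k - j) - B (k - j + 1)) with hG2
  set J1 : ℕ → Finset ℕ := fun k => range k with hJ1
  set J2 : ℕ → Finset ℕ := fun k => Icc 1 (Sp c (Nat.log 2 k)) with hJ2
  -- the identity
  have hid : ∀ k, 2 ^ s ≤ k → fr.Dk U c s N k h =
      B k h + E k h + ∑ j ∈ J1 k, G1 j k h + ∑ j ∈ J2 k, G2 j k h := by
    intro k hk
    have e1 : ∑ j ∈ J1 k, G1 j k = (A k - 1) * (B k - B (k + k)) := by
      rw [hJ1, hG1]
      dsimp only
      rw [← Finset.mul_sum, MainSAux.tele_up]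
    have e2 : ∑ j ∈ J2 k, G2 j k = A k * (B (k - Sp c (Nat.log 2 k)) - B k) := by
      rw [hJ2, hG2]
      dsimp only
      rw [← Finset.mul_sum, MainSAux.tele_down _ _ _ (hSp k hk)]
    have e3 : fr.Dk U c s N k = B k + E k + ∑ j ∈ J1 k, G1 j k + ∑ j ∈ J2 k, G2 j k := by
      rw [e1, e2, hE]
      show A k * B (k - Sp c (Nat.log 2 k)) = _
      simp only [mul_sub, sub_mul, one_mul]
      abel
    rw [e3]
    simp only [ContinuousLinearMap.add_apply, ContinuousLinearMap.sum_apply]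
  -- bounds for E
  have hEn : ∀ t : Finset ℕ, (∀ k ∈ t, 2 ^ s ≤ k) → ∑ k ∈ t, ‖E k h‖ ^ 2 ≤ (2 * K2 * ‖h‖) ^ 2 := by
    intro t ht
    have h1 : ∀ k ∈ t, ‖E k h‖ ^ 2 ≤ (K2 * ‖h‖) ^ 2 * (((2 : ℝ) ^ k)⁻¹) ^ 2 := by
      intro k hk
      have h2 := (hdn Q lam (N k / lam) k k hQ1 hlam1 (hM1 k (ht k hk)) hmd (hM2 k)).1
      have h3 : ‖E k h‖ ≤ K2 * ((2 : ℝ) ^ k)⁻¹ * ‖h‖ :=
        (ContinuousLinearMap.le_opNorm _ _).trans (mul_le_mul_of_nonneg_right h2 (norm_nonneg _))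
      refine (pow_le_pow_left₀ (norm_nonneg _) h3 2).trans (le_of_eq ?_)
      ring
    refine (Finset.sum_le_sum h1).trans ?_
    rw [← Finset.mul_sum]
    have h4 := MainSAux.sum_quarter t
    have h5 : 0 ≤ (K2 * ‖h‖) ^ 2 := sq_nonneg _
    calc (K2 * ‖h‖) ^ 2 * ∑ k ∈ t, (((2 : ℝ) ^ k)⁻¹) ^ 2 ≤ (K2 * ‖h‖) ^ 2 * 4 :=
          mul_le_mul_of_nonneg_left h4 h5
      _ = (2 * K2 * ‖h‖) ^ 2 := by ring
  -- bounds for G1
  set b1 : ℕ → ℝ := fun j => ‖h‖ * c1 * (3 / 4) ^ j with hb1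
  have hb10 : ∀ j, 0 ≤ b1 j := fun j => by
    rw [hb1]
    positivity
  have hb1s : Summable b1 :=
    (summable_geometric_of_lt_one (by norm_num) (by norm_num)).mul_left _
  have hb1t : ∑' j, b1 j = ‖h‖ * c1 * 4 := by
    rw [hb1, tsum_mul_left, tsum_geometric_of_lt_one (by norm_num) (by norm_num)]
    norm_num
  have hG1n : ∀ j, ∀ t : Finset ℕ, (∀ k ∈ t, 2 ^ s ≤ k ∧ j ∈ J1 k) →
      ∑ k ∈ t, ‖G1 j k h‖ ^ 2 ≤ b1 j ^ 2 := by
    intro j t ht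
    have h1 := column_geom t (fun k => G1 j k) (eps := K2 * ((2 : ℝ) ^ j)⁻¹) (K := 4 * K)
      (by positivity) (by positivity)
      (fun k hk => (hdn Q lam (N k / lam) k j hQ1 hlam1 (hM1 k (ht k hk).1) hmd (hM2 k)).2)
      (fun k hk l hl => by
        have h2 := hP.delta Q (k + j) (l + j) hQ1
        have h3 := MainSAux.conj_le (MainSAux.norm_sub_one_le (hA1 k))
          (MainSAux.norm_sub_one_le (hA1 l)) h2
        refine h3.trans (le_of_eq ?_)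
        have h4 : ((k + j : ℕ) : ℝ) - ((l + j : ℕ) : ℝ) = (k : ℝ) - l := by
          push_cast
          ring
        rw [h4]
        ring) h
    refine h1.trans ?_
    have h5 : ((2 : ℝ) ^ j)⁻¹ ≤ ((3 / 4 : ℝ) ^ j) ^ 2 := by
      rw [← inv_pow, ← pow_mul, mul_comm j 2, pow_mul]
      exact pow_le_pow_left₀ (by norm_num) (by norm_num) j
    have h6 : b1 j ^ 2 = c1 ^ 2 * ‖h‖ ^ 2 * ((3 / 4 : ℝ) ^ j) ^ 2 := by
      rw [hb1]
      ring
    rw [h6, hc1s]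
    have h7 : 0 ≤ 8 * K2 * Real.sqrt (4 * K) * ‖h‖ ^ 2 := by positivity
    calc 8 * (K2 * ((2 : ℝ) ^ j)⁻¹) * Real.sqrt (4 * K) * ‖h‖ ^ 2 =
        8 * K2 * Real.sqrt (4 * K) * ‖h‖ ^ 2 * ((2 : ℝ) ^ j)⁻¹ := by ring
      _ ≤ _ := mul_le_mul_of_nonneg_left h5 h7
  -- bounds for G2
  set b2 : ℕ → ℝ := fun j => ‖h‖ * c2 * (Real.sqrt r) ^ j with hb2
  have hb20 : ∀ j, 0 ≤ b2 j := fun j => by
    rw [hb2]
    positivity
  have hb2s : Summable b2 := (summable_geometric_of_lt_one hsr0 hsr1).mul_left _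
  have hb2t : ∑' j, b2 j = ‖h‖ * c2 * (1 - Real.sqrt r)⁻¹ := by
    rw [hb2, tsum_mul_left, tsum_geometric_of_lt_one hsr0 hsr1]
  have hG2n : ∀ j, ∀ t : Finset ℕ, (∀ k ∈ t, 2 ^ s ≤ k ∧ j ∈ J2 k) →
      ∑ k ∈ t, ‖G2 j k h‖ ^ 2 ≤ b2 j ^ 2 := by
    intro j t ht
    have hjk : ∀ k ∈ t, j ≤ k := fun k hk =>
      (Finset.mem_Icc.1 (ht k hk).2).2.trans (hSp k (ht k hk).1)
    have h1 := column_geom t (fun k => G2 j k) (eps := C1 * r ^ j) (K := K)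
      (by positivity) hK0
      (fun k hk => by
        obtain ⟨hk1, hk2⟩ := ht k hk
        rw [hJ2, Finset.mem_Icc] at hk2
        have hk0 : k ≠ 0 := by
          have : 1 ≤ 2 ^ s := Nat.one_le_two_pow
          omega
        have hsl : s ≤ Nat.log 2 k := (Nat.le_log_iff_pow_le (by norm_num) hk0).2 hk1
        have h2 := hopC s (Nat.log 2 k) hs1 hsl N hN k (Nat.pow_log_le_self 2 hk0)
          (Nat.lt_pow_succ_log_self (by norm_num) k) j hk2.1 hk2.2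
        rwa [hrj] at h2)
      (fun k hk l hl => by
        have h2 := hP.delta Q (k - j) (l - j) hQ1
        have h3 := MainSAux.conj_le (hA1 k) (hA1 l) h2
        refine h3.trans (le_of_eq ?_)
        have h4 : ((k - j : ℕ) : ℝ) - ((l - j : ℕ) : ℝ) = (k : ℝ) - l := by
          rw [Nat.cast_sub (hjk k hk), Nat.cast_sub (hjk l hl)]
          ring
        rw [h4]
        ring) h
    refine h1.trans (le_of_eq ?_)
    have h6 : b2 j ^ 2 = c2 ^ 2 * ‖h‖ ^ 2 * (Real.sqrt r ^ 2) ^ j := by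
      rw [hb2]
      ring
    rw [h6, hc2s, Real.sq_sqrt hr0.le]
    ring
  -- conclusion
  constructor
  · have e : MS {k | 2 ^ s ≤ k} (fun k => fr.Dk U c s N k h) = MS {k | 2 ^ s ≤ k} (fun k =>
        B k h + E k h + ∑ j ∈ J1 k, G1 j k h + ∑ j ∈ J2 k, G2 j k h) := MS_congr hid
    rw [e]
    have m1 : MS {k | 2 ^ s ≤ k} (fun k => B k h) ≤ ENNReal.ofReal (C0 * ‖h‖) :=
      (MS_mono_set (Set.subset_univ _) _).trans (hbox Q hQ1 h)
    have m2 : MS {k | 2 ^ s ≤ k} (fun k => E k h) ≤ ENNReal.ofReal (2 * K2 * ‖h‖) :=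
      MS_le_of_sq (by positivity) hEn
    have m3 : MS {k | 2 ^ s ≤ k} (fun k => ∑ j ∈ J1 k, G1 j k h) ≤
        ENNReal.ofReal (‖h‖ * c1 * 4) := by
      rw [← hb1t]
      exact layer_max {k | 2 ^ s ≤ k} J1 (fun j k => G1 j k h) b1 hb10 hb1s hG1n
    have m4 : MS {k | 2 ^ s ≤ k} (fun k => ∑ j ∈ J2 k, G2 j k h) ≤
        ENNReal.ofReal (‖h‖ * c2 * (1 - Real.sqrt r)⁻¹) := by
      rw [← hb2t]
      exact layer_max {k | 2 ^ s ≤ k} J2 (fun j k => G2 j k h) b2 hb20 hb2s hG2n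
    refine (MS_add _ (fun k => B k h + E k h + ∑ j ∈ J1 k, G1 j k h)
      (fun k => ∑ j ∈ J2 k, G2 j k h)).trans ?_
    refine (add_le_add ((MS_add _ (fun k => B k h + E k h)
      (fun k => ∑ j ∈ J1 k, G1 j k h)).trans (add_le_add ((MS_add _ (fun k => B k h)
      (fun k => E k h)).trans (add_le_add m1 m2)) m3)) m4).trans (le_of_eq ?_)
    have hsi : 0 ≤ (1 - Real.sqrt r)⁻¹ := inv_nonneg.2 (by linarith)
    rw [← ENNReal.ofReal_add (by positivity) (by positivity),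
      ← ENNReal.ofReal_add (by positivity) (by positivity),
      ← ENNReal.ofReal_add (by positivity) (by positivity)]
    congr 1
    ring
  · have c1' : Cv (fun k => B k h) := conv_max B hB1 hK0 hC0 (fun m k hmk => by
      have h2m : (1 : ℝ) ≤ 2 ^ m := one_le_pow₀ (by norm_num)
      have h1 := (hP.absorb Q Q ((2 : ℝ) ^ k) ((2 : ℝ) ^ m) hQ1 hQ1 dvd_rfl h2m
        (pow_le_pow_right₀ (by norm_num) hmk)).1
      refine h1.trans (le_of_eq ?_)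
      rw [Real.rpow_sub (by norm_num), Real.rpow_natCast, Real.rpow_natCast]) (hbox Q hQ1) h
    have c2' : Cz (fun k => E k h) := cz_of_sq (k0 := 2 ^ s) hEn
    have c3' : Cz (fun k => ∑ j ∈ J1 k, G1 j k h) :=
      layer_conv (2 ^ s) J1 (fun j k => G1 j k h) b1 hb10 hb1s hG1n
    have c4' : Cz (fun k => ∑ j ∈ J2 k, G2 j k h) :=
      layer_conv (2 ^ s) J2 (fun j k => G2 j k h) b2 hb20 hb2s hG2n
    exact (((c1'.add c2'.cv).add c3'.cv).add c4'.cv).congr (k0 := 2 ^ s)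
      fun k hk => (hid k hk).symm

end Frame

end Pool.Nil
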