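import Pool.Agent.Nil.Koop
import Pool.Agent.Nil.MainS
import Pool.Agent.PolyMax.Maximal

set_option autoImplicit false

/-!
# Nil: the maximal inequality for the box averages

`Mi τ v x = sup_N (2 N + 1)⁻¹ ∑_{|n| ≤ N} v (τ^n x)`.

PROOF of `mi_le`: `Pool.PolyMax.maximal 1` with `d = 1`, `T = fun _ => τ`, `P = fun _ => X` (`natDegree_X_le`,
`gel T P n = τ ^ n`), and `n2_le_iff`; its constant does not depend on `τ`.

PROOF of `kap_max`.  Let `S i = φ (c i ^ q i)`.  Induction on `r` (`Fin.consEquiv`/`Fin.snoc`: split off one coordinate): for a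
point `x` and a box with sides `M`, as `kap c (q t) = c 0 ^ (q 0 t 0) * kap c' (q' t')` (`List.ofFn_succ`, `List.prod_cons`) and so
`φ (kap c (q t))⁻¹ x = φ (kap c' (q' t'))⁻¹ (φ (c 0)^(- q 0 t 0) x)`:
`|bx M|⁻¹ ∑_{t ∈ bx M} v (φ (kap c (q t))⁻¹ x) = (2 M 0 + 1)⁻¹ ∑_{|t 0| ≤ M 0} (|bx M'|⁻¹ ∑_{t'} v (φ (kap c' (q' t'))⁻¹ (S 0 ^ (-t 0) x)))
≤ (2 M 0 + 1)⁻¹ ∑_{|n| ≤ M 0} w' (S 0 ^ n x) ≤ Mi (S 0) w' x`,
where `w'` dominates all averages for the last `r - 1` coordinates (induction), so `w = Mi (S 0) w'`,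
`n2 w ≤ C n2 w' ≤ C^r n2 v`.

PROOF of `boxMax`.  Let `f ∈ L²`, `v` a measurable function with `v = ‖f ·‖ₑ` a.e. (then also
`v (φ x y) = ‖f (φ x y)‖ₑ` for a.e. `y` and the countably many (finitely many for every `k`) elements `x` needed), `w` from
`kap_max` with `c = fr.c`, `q = fr.mo Q`; `‖(B2 Q k f) x‖ₑ ≤ w x` for a.e. `x` and every `k` (`avg_koop_enorm`), so
`MS univ ≤ n2 w ≤ C^r n2 v = C^r ‖f‖ₑ` (`MS_le_n2`, `n2_Lp`).
-/

namespace Pool.Nil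

open Finset MeasureTheory Filter Topology
open scoped ENNReal NNReal

universe u

variable {G : Type*} [Group G] {α : Type u} [MeasurableSpace α] {μ : Measure α}

/-- the one parameter maximal function -/
noncomputable def Mi (τ : Equiv.Perm α) (v : α → ℝ≥0∞) (x : α) : ℝ≥0∞ :=
  ⨆ N : ℕ, ((2 * N + 1 : ℕ) : ℝ≥0∞)⁻¹ * ∑ n ∈ Icc (-(N : ℤ)) (N : ℤ), v ((τ ^ n) x)

namespace BoxMaxAux

lemma meas_zpow (τ : Equiv.Perm α) (h1 : Measurable τ) (h2 : Measurable τ.symm) (n : ℤ) :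
    Measurable (τ ^ n : Equiv.Perm α) := by
  have hp : ∀ (σ : Equiv.Perm α), Measurable σ → ∀ k : ℕ, Measurable (σ ^ k : Equiv.Perm α) := by
    intro σ hσ k
    induction k with
    | zero => rw [pow_zero]; exact measurable_id
    | succ k ih => rw [pow_succ]; exact ih.comp hσ
  cases n with
  | ofNat k => rw [Int.ofNat_eq_natCast, zpow_natCast]; exact hp τ h1 k
  | negSucc k => rw [zpow_negSucc, ← inv_pow]; exact hp τ⁻¹ h2 _

lemma sum_bx_succ {r : ℕ} (M : Fin (r + 1) → ℕ) (F : ℤ → (Fin r → ℤ) → ℝ≥0∞) :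
    ∑ t ∈ bx M, F (t 0) (Fin.tail t) =
      ∑ n ∈ Icc (-(M 0 : ℤ)) (M 0 : ℤ), ∑ t ∈ bx (Fin.tail M), F n t := by
  rw [← Finset.sum_product']
  refine Finset.sum_bij' (fun t _ => (t 0, Fin.tail t)) (fun p _ => Fin.cons p.1 p.2)
    ?_ ?_ ?_ ?_ ?_
  · intro t ht
    rw [mem_bx] at ht
    rw [Finset.mem_product, mem_Icc, mem_bx, ← abs_le]
    exact ⟨ht 0, fun i => ht i.succ⟩
  · intro p hp
    rw [Finset.mem_product, mem_Icc, mem_bx, ← abs_le] at hp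
    rw [mem_bx]
    intro i
    refine Fin.cases ?_ (fun j => ?_) i
    · rw [Fin.cons_zero]; exact hp.1
    · rw [Fin.cons_succ]; exact hp.2 j
  · intro t _
    exact Fin.cons_self_tail t
  · intro p _
    rw [Fin.cons_zero, Fin.tail_cons]
  · intro t _
    rfl

lemma card_bx_succ {r : ℕ} (M : Fin (r + 1) → ℕ) :
    (bx M).card = (2 * M 0 + 1) * (bx (Fin.tail M)).card := by
  rw [BoxAux.card_bx, BoxAux.card_bx, Fin.prod_univ_succ]
  rfl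

lemma kap_succ {r : ℕ} (c : Fin (r + 1) → G) (x : Fin (r + 1) → ℤ) :
    kap c x = c 0 ^ x 0 * kap (Fin.tail c) (Fin.tail x) := by
  unfold kap
  rw [List.ofFn_succ, List.prod_cons]
  rfl

lemma sum_neg_Icc (N : ℕ) (f : ℤ → ℝ≥0∞) :
    ∑ n ∈ Icc (-(N : ℤ)) (N : ℤ), f (-n) = ∑ n ∈ Icc (-(N : ℤ)) (N : ℤ), f n := by
  refine Finset.sum_bij' (fun n _ => -n) (fun n _ => -n) ?_ ?_ ?_ ?_ ?_
  · intro n hn
    rw [mem_Icc] at hn ⊢
    omega
  · intro n hn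
    rw [mem_Icc] at hn ⊢
    omega
  · intro n _
    exact neg_neg n
  · intro n _
    exact neg_neg n
  · intro n _
    rfl

end BoxMaxAux

lemma measurable_Mi (τ : Equiv.Perm α) (h1 : Measurable τ) (h2 : Measurable τ.symm)
    {v : α → ℝ≥0∞} (hv : Measurable v) : Measurable (Mi τ v) := by
  unfold Mi
  refine Measurable.iSup fun N => ?_
  refine Measurable.const_mul ?_ _
  refine Finset.measurable_fun_sum _ fun n _ => ?_
  exact hv.comp (BoxMaxAux.meas_zpow τ h1 h2 n)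

theorem mi_le : ∃ C : ℝ≥0, ∀ {α : Type u} [MeasurableSpace α] (μ : Measure α) (τ : Equiv.Perm α),
    MeasurePreserving τ μ μ → MeasurePreserving τ.symm μ μ → ∀ v : α → ℝ≥0∞, Measurable v →
    n2 μ (Mi τ v) ≤ C * n2 μ v := by
  obtain ⟨C, hC⟩ := Pool.PolyMax.maximal.{u} 1
  refine ⟨C + 1, ?_⟩
  intro α _ μ τ h1 h2 v hv
  have h := hC μ 1 (fun _ => τ) (fun _ => h1) (fun _ => h2) (fun _ _ => Commute.refl τ)
    (fun _ => Polynomial.X) (fun _ => Polynomial.natDegree_X_le) v hv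
  have hg : ∀ n : ℤ, Pool.PolyMax.gel (fun _ : Fin 1 => τ) (fun _ => Polynomial.X) n = τ ^ n := by
    intro n
    unfold Pool.PolyMax.gel
    simp
  simp only [hg] at h
  rw [n2_le_iff, mul_pow, n2_sq]
  refine h.trans (mul_le_mul' ?_ le_rfl)
  have h3 : (C : ℝ≥0∞) ≤ ((C + 1 : ℝ≥0) : ℝ≥0∞) ^ 2 := by
    rw [← ENNReal.coe_pow, ENNReal.coe_le_coe]
    have : (C : ℝ≥0) ≤ (C + 1) * (C + 1) := by
      calc C = C * 1 := (mul_one C).symm
        _ ≤ (C + 1) * (C + 1) := mul_le_mul' (le_add_of_nonneg_right zero_le_one)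
            (le_add_of_nonneg_left C.2)
    rw [sq]
    exact this
  exact h3

theorem kap_max : ∃ C : ℝ≥0, ∀ {α : Type u} [MeasurableSpace α] (μ : Measure α)
    (φ : G →* Equiv.Perm α), (∀ x, MeasurePreserving (φ x) μ μ) → ∀ (r : ℕ) (c : Fin r → G)
    (q : Fin r → ℕ) (v : α → ℝ≥0∞), Measurable v →
    ∃ w : α → ℝ≥0∞, Measurable w ∧ n2 μ w ≤ (C : ℝ≥0∞) ^ r * n2 μ v ∧ ∀ (M : Fin r → ℕ) (x : α),
      ((bx M).card : ℝ≥0∞)⁻¹ *
        ∑ t ∈ bx M, v (φ (kap c (fun i => (q i : ℤ) * t i))⁻¹ x) ≤ w x := by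
  obtain ⟨C, hC⟩ := mi_le.{u}
  refine ⟨C, ?_⟩
  intro α _ μ φ hφ r
  induction r with
  | zero =>
    intro c q v hv
    refine ⟨v, hv, by rw [pow_zero, one_mul], fun M x => ?_⟩
    have h1 : ∀ t ∈ bx M, v (φ (kap c (fun i => (q i : ℤ) * t i))⁻¹ x) = v x := by
      intro t _
      unfold kap
      rw [List.ofFn_zero, List.prod_nil, inv_one, map_one]
      rfl
    rw [Finset.sum_congr rfl h1, Finset.sum_const, nsmul_eq_mul, ← mul_assoc,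
      ENNReal.inv_mul_cancel, one_mul]
    · exact_mod_cast (Finset.card_pos.2 (bx_nonempty M)).ne'
    · exact ENNReal.natCast_ne_top _
  | succ r ih =>
    intro c q v hv
    obtain ⟨w', hw', hn, hdom⟩ := ih (Fin.tail c) (Fin.tail q) v hv
    obtain ⟨S, hS⟩ : ∃ S : Equiv.Perm α, S = φ (c 0 ^ q 0) := ⟨_, rfl⟩
    have hS1 : MeasurePreserving S μ μ := by rw [hS]; exact hφ _
    have hS2 : MeasurePreserving S.symm μ μ := by
      have e : S.symm = φ ((c 0 ^ q 0)⁻¹) := by rw [map_inv, hS]; rfl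
      rw [e]
      exact hφ _
    refine ⟨Mi S w', measurable_Mi S hS1.measurable hS2.measurable hw', ?_, fun M x => ?_⟩
    · calc n2 μ (Mi S w') ≤ C * n2 μ w' := hC μ S hS1 hS2 w' hw'
        _ ≤ C * ((C : ℝ≥0∞) ^ r * n2 μ v) := mul_le_mul' le_rfl hn
        _ = (C : ℝ≥0∞) ^ (r + 1) * n2 μ v := by rw [pow_succ, ← mul_assoc, mul_comm (C : ℝ≥0∞)]
    · obtain ⟨F, hF⟩ : ∃ F : ℤ → (Fin r → ℤ) → ℝ≥0∞, F = fun n t' =>
            v (φ (kap (Fin.tail c) (fun i => (Fin.tail q i : ℤ) * t' i))⁻¹ ((S ^ (-n)) x)) :=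
          ⟨_, rfl⟩
      have h1 : ∀ t ∈ bx M, v (φ (kap c (fun i => (q i : ℤ) * t i))⁻¹ x) =
          F (t 0) (Fin.tail t) := by
        intro t _
        have e1 : kap c (fun i => (q i : ℤ) * t i) = c 0 ^ ((q 0 : ℤ) * t 0) *
            kap (Fin.tail c) (fun i => (Fin.tail q i : ℤ) * Fin.tail t i) :=
          BoxMaxAux.kap_succ c _
        have e2 : φ (c 0 ^ ((q 0 : ℤ) * t 0))⁻¹ = S ^ (-(t 0)) := by
          rw [hS, ← map_zpow, zpow_mul, zpow_natCast, zpow_neg]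
        rw [e1, mul_inv_rev, map_mul, e2, hF]
        rfl
      rw [Finset.sum_congr rfl h1, BoxMaxAux.sum_bx_succ, BoxMaxAux.card_bx_succ, Nat.cast_mul,
        ENNReal.mul_inv (Or.inr (ENNReal.natCast_ne_top _)) (Or.inl (ENNReal.natCast_ne_top _)),
        mul_assoc, Finset.mul_sum, hF]
      calc ((2 * M 0 + 1 : ℕ) : ℝ≥0∞)⁻¹ * ∑ n ∈ Icc (-(M 0 : ℤ)) (M 0 : ℤ),
            (((bx (Fin.tail M)).card : ℝ≥0∞)⁻¹ * ∑ t' ∈ bx (Fin.tail M),
              v (φ (kap (Fin.tail c) (fun i => (Fin.tail q i : ℤ) * t' i))⁻¹ ((S ^ (-n)) x)))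
          ≤ ((2 * M 0 + 1 : ℕ) : ℝ≥0∞)⁻¹ * ∑ n ∈ Icc (-(M 0 : ℤ)) (M 0 : ℤ), w' ((S ^ (-n)) x) :=
            mul_le_mul' le_rfl (Finset.sum_le_sum fun n _ => hdom (Fin.tail M) ((S ^ (-n)) x))
        _ = ((2 * M 0 + 1 : ℕ) : ℝ≥0∞)⁻¹ * ∑ n ∈ Icc (-(M 0 : ℤ)) (M 0 : ℤ), w' ((S ^ n) x) := by
            rw [BoxMaxAux.sum_neg_Icc (M 0) (fun n => w' ((S ^ n) x))]
        _ ≤ Mi S w' x := le_iSup (fun N : ℕ => ((2 * N + 1 : ℕ) : ℝ≥0∞)⁻¹ *
            ∑ n ∈ Icc (-(N : ℤ)) (N : ℤ), w' ((S ^ n) x)) (M 0)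

theorem boxMax {g : ℤ → G} (fr : Frame g) (φ : G →* Equiv.Perm α)
    (hφ : ∀ x, MeasurePreserving (φ x) μ μ) : fr.BoxMax (koop φ hφ) := by
  obtain ⟨C, hC⟩ := kap_max (G := G)
  refine ⟨(C : ℝ) ^ fr.r, by positivity, fun Q _ f => ?_⟩
  have hv : Measurable fun x => ‖f x‖ₑ := (Lp.stronglyMeasurable f).enorm
  obtain ⟨w, _, hn, hdom⟩ := hC μ φ hφ fr.r fr.c (fr.mo Q) _ hv
  have h1 : MS Set.univ (fun k => fr.B2 (koop φ hφ) Q k f) ≤ n2 μ w := by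
    refine MS_le_n2 fun k _ => ?_
    filter_upwards [avg_koop_enorm φ hφ (bx (fr.side 0 Q ((2 : ℝ) ^ k)))
      (fun t => kap fr.c (fun i => (fr.mo Q i : ℤ) * t i)) f] with y hy
    exact hy.trans (hdom (fr.side 0 Q ((2 : ℝ) ^ k)) y)
  refine h1.trans (hn.trans ?_)
  rw [n2_Lp, ENNReal.ofReal_mul (by positivity), ENNReal.ofReal_pow C.coe_nonneg,
    ENNReal.ofReal_coe_nnreal, ofReal_norm]

end Pool.Nil
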