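import Pool.Agent.Nil.Filt

set_option autoImplicit false

/-!
# Nil: the smallest filtration containing given elements

`b k` (`k ≥ 1`) are elements of weight `k`; `Br b i x` : `x` is an iterated commutator of the `b k` of total
weight `i`; `FB b w` is generated by the iterated commutators of weight `≥ w`.

PROOFS.
`Br_mem`: induction on `Br` (`Fc.comm`).  So `FB b w ≤ Fc w`, and `FB b w = ⊥` for `w ≥ N`.
`FB_top`: `FB b 1` contains all `b k`.
`filt_FB`: assume `hgen` (so `FB b 0 = FB b 1 = ⊤`) and `Fc N = ⊥`.  Downward induction on `n` from `N` for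
 (a) for all `x ∈ FB b n`, all `y`: `y x y⁻¹ ∈ FB b n` (i.e. `(FB b n).Normal`);
 (b) for `1 ≤ i`, `1 ≤ j`, `i + j = n` (or `n ≤ i + j`): `x y x⁻¹ y⁻¹ ∈ FB b n` for `x ∈ FB b i`, `y ∈ FB b j`.
For `n ≥ N` both are trivial (`FB b n = ⊥` and `FB b i ≤ Fc i`).
Step (a): the set of `y` such that `y x y⁻¹ ∈ FB b n` and `y⁻¹ x y ∈ FB b n` for all `x ∈ FB b n` is a subgroup, so
take `y` with `Br b k y`, `k ≥ 1`, and (closure induction on `x`) `Br b m x`, `m ≥ n`:
`y x y⁻¹ = (y x y⁻¹ x⁻¹) x` with `Br b (k + m) (y x y⁻¹ x⁻¹)`, and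
`y⁻¹ x y = y⁻¹ (x y x⁻¹ y⁻¹) y * x` where `x y x⁻¹ y⁻¹ ∈ FB b (n + 1)`, which is normal.
Step (b): for fixed `y ∈ FB b j` the set of `x` with `x y x⁻¹ y⁻¹ ∈ FB b n` is closed under products and
inverses, as `FB b n` is normal (`(x x') y (x x')⁻¹ y⁻¹ = x (x' y x'⁻¹ y⁻¹) x⁻¹ * (x y x⁻¹ y⁻¹)`), same for `y`;
so it is enough to take `Br b i' x`, `Br b j' y` with `i' ≥ i`, `j' ≥ j`.
For the `Filt` statement with `i = 0` or `j = 0` use (a) (`FB b 0 = ⊤`).
-/

namespace Pool.Nil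

variable {G : Type*} [Group G]

/-- iterated commutators of weight `i` -/
inductive Br (b : ℕ → G) : ℕ → G → Prop
  | base (k : ℕ) (hk : 1 ≤ k) : Br b k (b k)
  | comm {i j : ℕ} {x y : G} (hx : Br b i x) (hy : Br b j y) : Br b (i + j) (x * y * x⁻¹ * y⁻¹)

/-- the filtration generated by the iterated commutators -/
def FB (b : ℕ → G) (w : ℕ) : Subgroup G := Subgroup.closure {x | ∃ i, w ≤ i ∧ Br b i x}

lemma Br_pos {b : ℕ → G} {i : ℕ} {x : G} (h : Br b i x) : 1 ≤ i := by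
  induction h with
  | base k hk => exact hk
  | comm hx hy ih1 ih2 => omega

lemma Br_mem {b : ℕ → G} {Fc : ℕ → Subgroup G} (hF : Filt Fc) (hb : ∀ k, b k ∈ Fc k) {i : ℕ}
    {x : G} (h : Br b i x) : x ∈ Fc i := by
  induction h with
  | base k hk => exact hb k
  | comm hx hy ih1 ih2 => exact hF.comm _ _ _ ih1 _ ih2

lemma FB_le {b : ℕ → G} {Fc : ℕ → Subgroup G} (hF : Filt Fc) (hb : ∀ k, b k ∈ Fc k) (w : ℕ) :
    FB b w ≤ Fc w := by
  unfold FB
  rw [Subgroup.closure_le]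
  rintro x ⟨i, hi, hx⟩
  exact hF.le hi (Br_mem hF hb hx)

lemma mem_FB {b : ℕ → G} {i w : ℕ} {x : G} (h : Br b i x) (hw : w ≤ i) : x ∈ FB b w :=
  Subgroup.subset_closure ⟨i, hw, h⟩

lemma FB_one {b : ℕ → G} : FB b 0 = FB b 1 := by
  unfold FB
  congr 1
  ext x
  constructor
  · rintro ⟨i, _, hx⟩
    exact ⟨i, Br_pos hx, hx⟩
  · rintro ⟨i, _, hx⟩
    exact ⟨i, Nat.zero_le _, hx⟩

namespace Brack

lemma FB_anti (b : ℕ → G) {w w' : ℕ} (h : w ≤ w') : FB b w' ≤ FB b w := by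
  unfold FB
  refine Subgroup.closure_mono ?_
  rintro x ⟨i, hi, hx⟩
  exact ⟨i, h.trans hi, hx⟩

lemma FB_bot {b : ℕ → G} {Fc : ℕ → Subgroup G} (hF : Filt Fc) (hb : ∀ k, b k ∈ Fc k) {N : ℕ}
    (hN : Fc N = ⊥) {w : ℕ} (hw : N ≤ w) : FB b w = ⊥ := by
  refine le_bot_iff.1 ?_
  exact ((FB_le hF hb w).trans (hF.le hw)).trans (le_of_eq hN)

lemma FB_top {b : ℕ → G} (hgen : Subgroup.closure {x | ∃ k, 1 ≤ k ∧ x = b k} = ⊤) :
    FB b 1 = ⊤ := by
  refine top_le_iff.1 ?_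
  rw [← hgen, Subgroup.closure_le]
  rintro _ ⟨k, hk, rfl⟩
  exact mem_FB (Br.base k hk) hk

/-- one step for normality -/
lemma normal_step {b : ℕ → G} (htop : FB b 1 = ⊤) {n : ℕ} (hn : (FB b (n + 1)).Normal) :
    (FB b n).Normal := by
  have key : ∀ y : G, ∀ x ∈ FB b n, y * x * y⁻¹ ∈ FB b n ∧ y⁻¹ * x * y ∈ FB b n := by
    intro y
    have hy : y ∈ FB b 1 := by rw [htop]; exact Subgroup.mem_top y
    induction hy using Subgroup.closure_induction with
    | mem y hy =>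
      obtain ⟨k, hk, hyk⟩ := hy
      intro x hx
      induction hx using Subgroup.closure_induction with
      | mem x hx =>
        obtain ⟨m, hm, hxm⟩ := hx
        constructor
        · have e : y * x * y⁻¹ = (y * x * y⁻¹ * x⁻¹) * x := by group
          rw [e]
          exact (FB b n).mul_mem (mem_FB (Br.comm hyk hxm) (by omega)) (mem_FB hxm hm)
        · have e : y⁻¹ * x * y = (y⁻¹ * (x * y * x⁻¹ * y⁻¹) * (y⁻¹)⁻¹) * x := by group
          rw [e]
          refine (FB b n).mul_mem (FB_anti b (Nat.le_succ n) ?_) (mem_FB hxm hm)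
          exact hn.conj_mem _ (mem_FB (Br.comm hxm hyk) (by omega)) _
      | one =>
        simp only [mul_one, mul_inv_cancel, inv_mul_cancel]
        exact ⟨one_mem _, one_mem _⟩
      | mul x x' _ _ ih ih' =>
        constructor
        · have e : y * (x * x') * y⁻¹ = (y * x * y⁻¹) * (y * x' * y⁻¹) := by group
          rw [e]
          exact (FB b n).mul_mem ih.1 ih'.1
        · have e : y⁻¹ * (x * x') * y = (y⁻¹ * x * y) * (y⁻¹ * x' * y) := by group
          rw [e]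
          exact (FB b n).mul_mem ih.2 ih'.2
      | inv x _ ih =>
        constructor
        · have e : y * x⁻¹ * y⁻¹ = (y * x * y⁻¹)⁻¹ := by group
          rw [e]
          exact (FB b n).inv_mem ih.1
        · have e : y⁻¹ * x⁻¹ * y = (y⁻¹ * x * y)⁻¹ := by group
          rw [e]
          exact (FB b n).inv_mem ih.2
    | one =>
      intro x hx
      simpa using hx
    | mul y y' _ _ ih ih' =>
      intro x hx
      constructor
      · have e : y * y' * x * (y * y')⁻¹ = y * (y' * x * y'⁻¹) * y⁻¹ := by group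
        rw [e]
        exact (ih _ (ih' x hx).1).1
      · have e : (y * y')⁻¹ * x * (y * y') = y'⁻¹ * (y⁻¹ * x * y) * y' := by group
        rw [e]
        exact (ih' _ (ih x hx).2).2
    | inv y _ ih =>
      intro x hx
      rw [inv_inv]
      exact ⟨(ih x hx).2, (ih x hx).1⟩
  exact ⟨fun x hx y => (key y x hx).1⟩

/-- commutators -/
lemma comm_step {b : ℕ → G} {n i j : ℕ} (hn : (FB b n).Normal) (hij : n ≤ i + j) {x y : G}
    (hx : x ∈ FB b i) (hy : y ∈ FB b j) : x * y * x⁻¹ * y⁻¹ ∈ FB b n := by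
  induction hx using Subgroup.closure_induction with
  | mem x hx =>
    obtain ⟨k, hk, hxk⟩ := hx
    induction hy using Subgroup.closure_induction with
    | mem y hy =>
      obtain ⟨m, hm, hym⟩ := hy
      exact mem_FB (Br.comm hxk hym) (by omega)
    | one =>
      have e : x * 1 * x⁻¹ * 1⁻¹ = 1 := by group
      rw [e]
      exact one_mem _
    | mul y y' _ _ ih ih' =>
      have e : x * (y * y') * x⁻¹ * (y * y')⁻¹ =
          (x * y * x⁻¹ * y⁻¹) * (y * (x * y' * x⁻¹ * y'⁻¹) * y⁻¹) := by group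
      rw [e]
      exact (FB b n).mul_mem ih (hn.conj_mem _ ih' _)
    | inv y _ ih =>
      have e : x * y⁻¹ * x⁻¹ * y⁻¹⁻¹ = y⁻¹ * (x * y * x⁻¹ * y⁻¹)⁻¹ * (y⁻¹)⁻¹ := by group
      rw [e]
      exact hn.conj_mem _ ((FB b n).inv_mem ih) _
  | one =>
    have e : 1 * y * 1⁻¹ * y⁻¹ = 1 := by group
    rw [e]
    exact one_mem _
  | mul x x' _ _ ih ih' =>
    have e : x * x' * y * (x * x')⁻¹ * y⁻¹ =
        (x * (x' * y * x'⁻¹ * y⁻¹) * x⁻¹) * (x * y * x⁻¹ * y⁻¹) := by group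
    rw [e]
    exact (FB b n).mul_mem (hn.conj_mem _ ih' _) ih
  | inv x _ ih =>
    have e : x⁻¹ * y * x⁻¹⁻¹ * y⁻¹ = x⁻¹ * (x * y * x⁻¹ * y⁻¹)⁻¹ * (x⁻¹)⁻¹ := by group
    rw [e]
    exact hn.conj_mem _ ((FB b n).inv_mem ih) _

end Brack

open Brack

theorem filt_FB {b : ℕ → G} {Fc : ℕ → Subgroup G} (hF : Filt Fc) (hb : ∀ k, b k ∈ Fc k) {N : ℕ}
    (hN : Fc N = ⊥) (hgen : Subgroup.closure {x | ∃ k, 1 ≤ k ∧ x = b k} = ⊤) : Filt (FB b) := by
  have htop := FB_top hgen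
  have hnorm : ∀ m n : ℕ, N ≤ n + m → (FB b n).Normal := by
    intro m
    induction m with
    | zero =>
      intro n hn
      rw [FB_bot hF hb hN (by omega : N ≤ n)]
      infer_instance
    | succ m ih =>
      intro n hn
      exact normal_step htop (ih (n + 1) (by omega))
  have hn : ∀ n, (FB b n).Normal := fun n => hnorm N n (by omega)
  exact ⟨fun i => FB_anti b (Nat.le_succ i), fun i j x hx y hy =>
    comm_step (hn (i + j)) le_rfl hx hy⟩

end Pool.Nil
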