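import Pool.Agent.Nil.OpDefs

set_option autoImplicit false
set_option linter.all false

/-!
# Nil: conjugation of box averages, coset averages, residue classes

`K` denotes constants depending on the frame only.

PROOFS.
`cn`: let `x = kap a`, `|a i| ≤ del R^w`.  For `y = mo t` (`t` in the box) define `y'` by recursion on the weight:
`y' i = y i + p y a i - p a y' i` (only the `y' j` with `w j < w i` enter, `p_dep`).  Then
`kap y * kap a = kap (y + a + p y a) = kap (a + y' + p a y') = kap a * kap y'`, and `y' = y + s y` with `s y i` depending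
only on the `y j`, `w j < w i`, divisible by `mo Q i` and of size `≤ K del R^w` (induction on the weight; `p_size`
after enlarging `R` by a constant factor as in `Nil/Small.lean`).  So
`Bj * Uo x = Uo x * avg_t Uo (kap (mo (t + ps t)))`, and `tri_shift`.
`coset`: `kap (mo (Q n) t) * kap (mo Q z) = kap (mo (Q n) t + mo Q z + p ..)` with `p .. i` divisible by `mo (Q n) i`
(`p_dvd`, `mo (Q n) i = n mo Q i`), depending on the `t j` with `w j < w i` only, of size `≤ K (Q n / R) R^w`
(`|mo Q i z i| ≤ W^D Q n ≤ (W^D Q n / R) R^w`).  By `tri_shift` (for every fixed `z`) the operator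
`Bj (Q n) R * Ga Q n` is within `K Q n / R` of `avg_z avg_t Uo (kap (mo Q (n t + z)))`, `t i ∈ [-M i, M i]`,
`z i ∈ [0, n)`, i.e. the average over `∏ [-n M i, n M i + n - 1]`; compare with `∏ [-M' i, M' i]`, `M' = ⌊R^w / mo Q⌋`,
`n M ≤ M' < n (M + 1)`: coordinate by coordinate the two uniform distributions differ by at most
`K n / (2 M' + 1) ≤ K n mo Q i / R`.  (If `K Q n / R ≥ 2` nothing is to be proved.)
`coset_absorb`: the elements `kap (mo Q z)` are in `Sm 1 Q R (W^D Q n / R) ⊆ Sm 1 q R ..`; `ni`.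
`resid1`: `m = a + lam m'`, `a < lam`, `m' < Nn / lam` (the remaining `m` are at most `lam`, a proportion `lam / Nn`):
`g (a + lam m') = g (lam m') * g a * x`, `x ∈ Sm 1 Q Nn (K ze)`, `ze = lam / Nn` (`window2` with `N = Nn`), so
`x ∈ Sm 1 Q R (K ze (Nn / R)^D)` (`Sm_down`) and `ni`; `avg_m' avg_a`.
`resid2`: average `cn` over `x = g a`, `a < lam`: `g a ∈ Sa 1 R (K lam / R)` (`seq_small` with `N = R`, `ze = lam / R`).
`resid3`: put `lam = md W D q 1 = W^(D-1) q`.  For `m = a + lam m' < Nmax`: `(g m)⁻¹ = z * (g a)⁻¹`,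
`z = ((g a)⁻¹ g m)⁻¹ ∈ Sm 1 q Nmax K ⊆ Sm 1 q rho (K Nmax / rho)` (`window` with `N = Nmax`, `ze = 1`, `sm_inv`, `Sm_up`; if
`K Nmax > rho` the claim is trivial), so `Bj q rho * Uo (g m)⁻¹` is within `K Nmax / rho` of
`Bj q rho * Uo (g a)⁻¹`; the average over `m < N1` of the latter is within `2 lam / N1` of the average over
`a < lam`.
`delta`: `B2 m * (B2 l)* = avg_y B2 m * Uo (kap y)⁻¹`, `(kap y)⁻¹ ∈ Sm 1 Q 2^l K`; for `l < m` it is within `K 2^(l-m)` of `B2 m`;
for `m < l` take adjoints: within `K 2^(m - l)` of `(B2 l)*`.  So the difference of two consecutive `l`'s (or `m`'s)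
is small.
-/

namespace Pool.Nil

open Finset

variable {G : Type*} [Group G] {H : Type*} [NormedAddCommGroup H] [InnerProductSpace ℂ H]
  [CompleteSpace H]

namespace Frame

variable {g : ℤ → G} (fr : Frame g) (U : G →* (H ≃ₗᵢ[ℂ] H))

namespace ConjInvAux

/-- uniqueness in the recursion -/
lemma dep (a y z u v : Fin fr.r → ℤ) (hu : ∀ i, u i = (y + fr.p y a) i - fr.p a u i)
    (hv : ∀ i, v i = (z + fr.p z a) i - fr.p a v i) (n : ℕ) : ∀ i, fr.w i ≤ n →
    ((∀ j, fr.w j < fr.w i → y j = z j) → u i - y i = v i - z i) := by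
  induction n with
  | zero =>
    intro i hi
    have := fr.one_le_w i
    omega
  | succ n ih =>
    intro i hi h
    have h1 : ∀ j, fr.w j < fr.w i → u j = v j := by
      intro j hj
      have h2 := ih j (by omega) (fun k hk => h k (hk.trans hj))
      have h3 := h j hj
      omega
    rw [hu i, hv i]
    simp only [Pi.add_apply]
    rw [fr.p_dep y z a a i (fun j hj => ⟨h j hj, rfl⟩), fr.p_dep a a u v i (fun j hj => ⟨rfl, h1 j hj⟩)]
    ring

end ConjInvAux

theorem cn : ∃ K : ℝ, 1 ≤ K ∧ ∀ (Q : ℕ) (R del : ℝ) (x : G), 1 ≤ Q → 1 ≤ R → 0 ≤ del → del ≤ 1 →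
    x ∈ fr.Sa 1 R del →
    ‖fr.Bj U 0 Q R * Uo U x - Uo U x * fr.Bj U 0 Q R‖ ≤ K * del := by
  have hC0 := fr.one_le_C0
  have hr0 : (0 : ℝ) ≤ fr.r := Nat.cast_nonneg _
  obtain ⟨B, hB, hsz⟩ := SmallAux.size_aux fr (K1 := 1 + fr.C0) (by linarith) fr.D
  obtain ⟨K1, hK1⟩ : ∃ K1 : ℝ, K1 = fr.C0 + fr.C0 * (1 + B) ^ fr.D := ⟨_, rfl⟩
  have hP : 0 ≤ fr.C0 * (1 + B) ^ fr.D := mul_nonneg (by linarith) (pow_nonneg (by linarith) _)
  have hK1n : 0 ≤ K1 := by rw [hK1]; linarith
  refine ⟨1 + 2 * fr.r * K1, by nlinarith [mul_nonneg hr0 hK1n], ?_⟩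
  rintro Q R del x hQ hR hdel hdel1 ⟨a, rfl, -, hasize⟩
  have hR0 : ∀ i, (0 : ℝ) ≤ R ^ fr.w i := fun i => pow_nonneg (by linarith) _
  have hbox : ∀ t ∈ bx (fr.side 0 Q R), ∀ i, |(((fr.mo Q i : ℤ) * t i : ℤ) : ℝ)| ≤ 1 * R ^ fr.w i := by
    intro t ht i
    have hm : (0 : ℝ) < fr.mo Q i := by exact_mod_cast RepAux.mo_pos fr hQ i
    have h1 := mem_bx.mp ht i
    have h2 : (fr.side 0 Q R i : ℝ) ≤ R ^ fr.w i / (fr.mo Q i : ℝ) := by
      unfold side
      split_ifs with h
      · exact Nat.floor_le (div_nonneg (hR0 i) hm.le)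
      · simp only [Nat.cast_zero]
        exact div_nonneg (hR0 i) hm.le
    have h3 : |(t i : ℝ)| ≤ (fr.side 0 Q R i : ℝ) := by exact_mod_cast h1
    push_cast
    rw [abs_mul, abs_of_pos hm, one_mul]
    calc (fr.mo Q i : ℝ) * |(t i : ℝ)| ≤ fr.mo Q i * (R ^ fr.w i / (fr.mo Q i : ℝ)) :=
          mul_le_mul_of_nonneg_left (h3.trans h2) hm.le
      _ = R ^ fr.w i := by field_simp
  choose S hS using fun y : Fin fr.r → ℤ => SmallAux.exists_u fr a (y + fr.p y a)
  have hmul : ∀ y, kap fr.c y * kap fr.c a = kap fr.c a * kap fr.c (S y) := by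
    intro y
    rw [fr.mul, fr.mul]
    congr 1
    funext i
    simp only [Pi.add_apply]
    have := hS y i
    simp only [Pi.add_apply] at this
    omega
  have h := RepAux.shift fr U (j := 0) hQ hR hdel hK1n
    (fun t i => S (fun i => (fr.mo Q i : ℤ) * t i) i - (fr.mo Q i : ℤ) * t i)
    (fun t t' i hh => ConjInvAux.dep fr a (fun i => (fr.mo Q i : ℤ) * t i)
      (fun i => (fr.mo Q i : ℤ) * t' i) _ _ (hS _) (hS _) (fr.w i) i le_rfl
      (fun j hj => by show _ * t j = _ * t' j; rw [hh j hj]))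
    (fun t i => by
      have hd : ∀ i, (fr.mo Q i : ℤ) ∣ (fr.mo Q i : ℤ) * t i := fun i => Dvd.intro _ rfl
      refine dvd_sub ?_ (hd i)
      exact SmallAux.dvd_aux fr Q a _ _ (hS _)
        (fun i => dvd_add (hd i) (fr.p_dvd Q _ a (Or.inl hd) i)) (fr.w i) i le_rfl)
    (fun t ht i => by
      have hy := hbox t ht
      obtain ⟨y, hyd⟩ : ∃ y : Fin fr.r → ℤ, y = fun i => (fr.mo Q i : ℤ) * t i := ⟨_, rfl⟩
      have hy' : ∀ i, |(y i : ℝ)| ≤ 1 * R ^ fr.w i := by
        rw [hyd]
        exact hy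
      have e : S (fun i => (fr.mo Q i : ℤ) * t i) i - (fr.mo Q i : ℤ) * t i = S y i - y i := by
        rw [hyd]
      have hp1 := fr.p_size R 1 del y a hR zero_le_one le_rfl hdel hdel1 hy' hasize
      have hu : ∀ i, |(S y i : ℝ)| ≤ B * 1 * R ^ fr.w i := fun i =>
        hsz R 1 a (y + fr.p y a) (S y) hR zero_le_one le_rfl
          (fun i => by
            refine (hasize i).trans (mul_le_mul_of_nonneg_right ?_ (hR0 i))
            linarith)
          (fun i => by
            simp only [Pi.add_apply, Int.cast_add]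
            refine (abs_add_le _ _).trans ?_
            have h1 := hy' i
            have h2 := hp1 i
            have h3 : fr.C0 * (1 * del) * R ^ fr.w i ≤ fr.C0 * R ^ fr.w i := by
              refine mul_le_mul_of_nonneg_right ?_ (hR0 i)
              nlinarith
            linarith)
          (hS y) i (fr.w_le i)
      have hp2 := SmallAux.p_size' fr (A := 1) (A' := B) le_rfl hB (del := del) (del' := 1) a (S y) hR
        hdel hdel1 zero_le_one le_rfl i (fun j _ => by rw [one_mul]; exact hasize j) (fun j _ => hu j)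
      show |((S (fun i => (fr.mo Q i : ℤ) * t i) i - (fr.mo Q i : ℤ) * t i : ℤ) : ℝ)| ≤ _
      rw [e]
      have e2 : S y i - y i = fr.p y a i - fr.p a (S y) i := by
        have := hS y i
        simp only [Pi.add_apply] at this
        omega
      rw [e2, Int.cast_sub, hK1]
      refine (abs_sub _ _).trans ?_
      have h1 := hp1 i
      have e3 : (fr.C0 + fr.C0 * (1 + B) ^ fr.D) * del * R ^ fr.w i =
        fr.C0 * (1 * del) * R ^ fr.w i + fr.C0 * (1 + B) ^ fr.D * (del * 1) * R ^ fr.w i := by ring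
      rw [e3]
      exact add_le_add h1 hp2)
    (fun t i hi => by
      have := fr.one_le_w i
      omega)
  have hfin : 2 * (fr.r : ℝ) * (K1 * del) ≤ (1 + 2 * fr.r * K1) * del := by
    nlinarith
  refine le_trans ?_ (h.trans hfin)
  have e : fr.Bj U 0 Q R * Uo U (kap fr.c a) - Uo U (kap fr.c a) * fr.Bj U 0 Q R =
      Uo U (kap fr.c a) * (avg (bx (fr.side 0 Q R)) (fun t => Uo U (kap fr.c (fun i =>
        (fr.mo Q i : ℤ) * t i + (S (fun i => (fr.mo Q i : ℤ) * t i) i - (fr.mo Q i : ℤ) * t i)))) -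
        fr.Bj U 0 Q R) := by
    rw [mul_sub]
    congr 1
    unfold Bj BM
    rw [RepAux.avg_mul, RepAux.mul_avg]
    apply avg_congr
    intro t ht
    rw [← Uo_mul, ← Uo_mul, hmul]
    congr 3
    funext i
    ring
  rw [e]
  refine (norm_mul_le _ _).trans ?_
  calc _ ≤ 1 * _ := mul_le_mul_of_nonneg_right (norm_Uo_le U _) (norm_nonneg _)
    _ = _ := one_mul _

end Frame

end Pool.Nil
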