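import Pool.Agent.Nil.TayStep

set_option autoImplicit false

/-!
# Nil: coordinates of polynomial maps

PROOF of `coord`.  Claim by induction on `u`, `1 ≤ u ≤ D + 1`: there are `s : Fin r → (V → ℤ) → ℤ` with
`s i ∈ WP om H (w i)`, `s i = 0` if `w i ≤ j` or `u ≤ w i`, and, with `P i x = P0 i x + s i x` for `w i < u`,
`(kap c (lo w u (P x)))⁻¹ * f x ∈ F u` for all `x`.
`u = 1`: `lo w 1 _ = 0`; `f x ∈ F (j + 1) ≤ F 1`.
Step `u → u + 1`, `1 ≤ u ≤ D`.  Let `fu x = (kap c (lo w u (P x)))⁻¹ * f x`, an `F u`-valued polynomial map of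
level `0` (`isPol_kap`, `IsPol.inv`, `IsPol.mul`; note `WP om H d ≤ WP om ∅ d`).
If `u ≤ j`: all `P i = P0 i + s i = 0` for `w i ≤ u` (hypothesis `hP0j`) and `f x ∈ F (j+1) ≤ F (u + 1)`; take `s i = 0`.
If `u > j`: let `v x = fu x * (kap c (P0u x))⁻¹`, `P0u x i = P0 i x` for `w i = u` and `0` otherwise.  `v` is a
polynomial map of level `0` with values in `F u`.  If `x` vanishes on `S ∈ H`, then `s i x = 0` for all `i`
(`WP_zero`), `f x = kap c (P0 x) = kap c (lo w u (P0 x)) * kap c (hi w u (P0 x))` (`kap_split`), so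
`fu x = kap c (hi w u (P0 x)) ∈ kap c (P0u x) * F (u + 1)` (`kap_split` at `u + 1`) and `v x ∈ F (u + 1)`
(conjugation).  `taylor_step` gives `s i`, `w i = u`, in `WP om H u` with `v x ∈ kap c (su x) * F (u + 1)`.  By `kap_abel`
and commutativity of `F u / F (u+1)`, `fu x ∈ kap c (P0u x + su x) * F (u + 1)`, and
`kap c (lo w (u + 1) (P x)) = kap c (lo w u (P x)) * kap c (P0u x + su x)` (`kap_split`).
For `u = D + 1`: `F (D + 1) = ⊥` and `lo w (D + 1) (P x) = P x`, so `f x = kap c (P x)`.
-/

namespace Pool.Nil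

open Finset

variable {G : Type*} [Group G] {V : Type*} [Fintype V] [DecidableEq V] {om : V → ℕ}

/-- a filtration with adapted generators -/
structure Adapted (F : ℕ → Subgroup G) (D : ℕ) {r : ℕ} (c : Fin r → G) (w : Fin r → ℕ) : Prop where
  filt : Filt F
  bot : F (D + 1) = ⊥
  mono : Monotone w
  one_le : ∀ i, 1 ≤ w i
  le_D : ∀ i, w i ≤ D
  mem : ∀ i, c i ∈ F (w i)
  gen : ∀ u, 1 ≤ u → u ≤ D → F u ≤ Subgroup.closure {x | ∃ i, w i = u ∧ x = c i} ⊔ F (u + 1)

namespace Coord

variable {F : ℕ → Subgroup G} {D r : ℕ} {c : Fin r → G} {w : Fin r → ℕ}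

lemma lo_lo (u : ℕ) (y : Fin r → ℤ) : lo w u (lo w (u + 1) y) = lo w u y := by
  funext i
  simp only [lo]
  by_cases h : w i < u
  · rw [if_pos h, if_pos h, if_pos (by omega)]
  · rw [if_neg h, if_neg h]

/-- the coordinates of weight `u` -/
def eq' (w : Fin r → ℕ) (u : ℕ) (y : Fin r → ℤ) : Fin r → ℤ := fun i => if w i = u then y i else 0

lemma hi_lo (u : ℕ) (y : Fin r → ℤ) : hi w u (lo w (u + 1) y) = eq' w u y := by
  funext i
  simp only [hi, lo, eq']
  by_cases h : w i = u
  · rw [if_pos (by omega), if_pos (by omega), if_pos h]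
  · rw [if_neg h]
    split_ifs <;> first | rfl | omega

lemma lo_hi (u : ℕ) (y : Fin r → ℤ) : lo w (u + 1) (hi w u y) = eq' w u y := by
  funext i
  simp only [hi, lo, eq']
  by_cases h : w i = u
  · rw [if_pos (by omega), if_pos (by omega), if_pos h]
  · rw [if_neg h]
    split_ifs <;> first | rfl | omega

lemma kap_eq_mem (hF : Filt F) (hc : ∀ i, c i ∈ F (w i)) (u : ℕ) (y : Fin r → ℤ) :
    kap c (eq' w u y) ∈ F u := by
  apply kap_mem hF hc
  intro i hi
  unfold eq'
  rw [if_neg (by omega)]

/-- the induction -/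
theorem claim (hA : Adapted F D c w) (hom : ∀ v, 1 ≤ om v) (f : (V → ℤ) → G)
    (hf : IsPol F om 0 f)
    (j : ℕ) (hfj : ∀ x, f x ∈ F (j + 1)) (H : Set (Set V)) (P0 : Fin r → (V → ℤ) → ℤ)
    (hP0 : ∀ i, P0 i ∈ WP om ∅ (w i)) (hP0j : ∀ i, w i ≤ j → P0 i = 0)
    (hH : ∀ S ∈ H, ∀ x : V → ℤ, (∀ v ∈ S, x v = 0) → f x = kap c (fun i => P0 i x))
    (u : ℕ) (hu : 1 ≤ u) : u ≤ D + 1 →
    ∃ s : Fin r → (V → ℤ) → ℤ, (∀ i, s i ∈ WP om H (w i)) ∧ (∀ i, w i ≤ j → s i = 0) ∧
      (∀ i, u ≤ w i → s i = 0) ∧
      ∀ x, (kap c (lo w u (fun i => P0 i x + s i x)))⁻¹ * f x ∈ F u := by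
  induction u, hu using Nat.le_induction with
  | base =>
    intro _
    refine ⟨fun _ => 0, fun i => zero_mem _, fun _ _ => rfl, fun _ _ => rfl, fun x => ?_⟩
    have h1 : lo w 1 (fun i => P0 i x + (0 : (V → ℤ) → ℤ) x) = 0 := by
      funext i
      unfold lo
      rw [if_neg (by have := hA.one_le i; omega)]
      rfl
    rw [h1, kap_zero, inv_one, one_mul]
    exact hA.filt.le (by omega) (hfj x)
  | succ u hu ih =>
    intro huD
    obtain ⟨s, hs1, hs2, hs3, hs4⟩ := ih (by omega)
    rcases Nat.lt_or_ge j u with hju | hju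
    swap
    · refine ⟨s, hs1, hs2, fun i hi => hs3 i (by omega), fun x => ?_⟩
      have h1 : lo w (u + 1) (fun i => P0 i x + s i x) = 0 := by
        funext i
        simp only [lo]
        split_ifs with h
        · rw [hP0j i (by omega), hs2 i (by omega)]
          simp
        · rfl
      rw [h1, kap_zero, inv_one, one_mul]
      exact hA.filt.le (by omega) (hfj x)
    · -- the main case
      set fu : (V → ℤ) → G := fun x => (kap c (lo w u (fun i => P0 i x + s i x)))⁻¹ * f x with hfu
      set v : (V → ℤ) → G := fun x => fu x * (kap c (eq' w u (fun i => P0 i x)))⁻¹ with hv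
      have hsum : ∀ i, P0 i + s i ∈ WP om ∅ (w i) := fun i =>
        add_mem (hP0 i) (WP_mono (Set.empty_subset H) le_rfl (hs1 i))
      have hk1 : IsPol F om 0 (fun x => kap c (lo w u (fun i => P0 i x + s i x))) := by
        have h := isPol_kap hA.filt hA.mem (om := om)
          (P := fun i => if w i < u then P0 i + s i else 0) (fun i => by
            split_ifs
            · exact hsum i
            · exact zero_mem _)
        have e : (fun x => kap c (lo w u (fun i => P0 i x + s i x))) = fun x : V → ℤ =>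
            kap c (fun i => (if w i < u then P0 i + s i else 0) x) := by
          funext x
          congr 1
          funext i
          unfold lo
          split_ifs <;> rfl
        rw [e]
        exact h
      have hk2 : IsPol F om 0 (fun x => kap c (eq' w u (fun i => P0 i x))) := by
        have h := isPol_kap hA.filt hA.mem (om := om)
          (P := fun i => if w i = u then P0 i else 0) (fun i => by
            split_ifs
            · exact hP0 i
            · exact zero_mem _)
        have e : (fun x => kap c (eq' w u (fun i => P0 i x))) = fun x : V → ℤ =>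
            kap c (fun i => (if w i = u then P0 i else 0) x) := by
          funext x
          congr 1
          funext i
          unfold eq'
          split_ifs <;> rfl
        rw [e]
        exact h
      have hfup : IsPol F om 0 fu := (hk1.inv hA.filt).mul hA.filt hf
      have hvp : IsPol F om 0 v := hfup.mul hA.filt (hk2.inv hA.filt)
      have hvu : ∀ x, v x ∈ F u := fun x =>
        (F u).mul_mem (hs4 x) ((F u).inv_mem (kap_eq_mem hA.filt hA.mem u _))
      have hvH : ∀ S ∈ H, ∀ x : V → ℤ, (∀ v ∈ S, x v = 0) → v x ∈ F (u + 1) := by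
        intro S hS x hx
        have h0 : ∀ i, s i x = 0 := fun i => WP_zero (hs1 i) hS hx
        have h1 : (fun i => P0 i x + s i x) = fun i => P0 i x := by
          funext i
          rw [h0, add_zero]
        have h2 : fu x = kap c (hi w u (fun i => P0 i x)) := by
          rw [hfu]
          dsimp only
          rw [h1, hH S hS x hx, kap_split c w hA.mono u (fun i => P0 i x), inv_mul_cancel_left]
        have h3 := kap_split c w hA.mono (u + 1) (hi w u (fun i => P0 i x))
        rw [lo_hi] at h3
        rw [hv]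
        dsimp only
        rw [h2, h3]
        refine hA.filt.conj ?_ (hA.filt.le (Nat.zero_le u) (kap_eq_mem hA.filt hA.mem u _))
        apply kap_mem hA.filt hA.mem
        intro i hi
        unfold Nil.hi
        rw [if_neg (by omega)]
      obtain ⟨t, ht1, ht2, ht3⟩ := taylor_step hA.filt hom hA.mem hu (hA.gen u hu (by omega))
        v hvp hvu H hvH
      refine ⟨fun i => s i + t i, fun i => add_mem (hs1 i) ?_, fun i hi => ?_, fun i hi => ?_,
        fun x => ?_⟩
      · by_cases h : w i = u
        · rw [h]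
          exact ht1 i
        · rw [ht2 i h]
          exact zero_mem _
      · dsimp only
        rw [hs2 i hi, ht2 i (by omega), add_zero]
      · dsimp only
        rw [hs3 i (by omega), ht2 i (by omega), add_zero]
      · set y : Fin r → ℤ := fun i => P0 i x + (s i + t i) x with hy
        have e1 : lo w u y = lo w u (fun i => P0 i x + s i x) := by
          funext i
          unfold lo
          split_ifs with h
          · rw [hy]
            dsimp only
            rw [ht2 i (by omega), add_zero]
          · rfl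
        have e2 : eq' w u y = (fun i => t i x) + eq' w u (fun i => P0 i x) := by
          funext i
          rw [Pi.add_apply]
          unfold eq'
          split_ifs with h
          · rw [hy]
            dsimp only
            rw [hs3 i (by omega), zero_add, add_comm]
          · rw [ht2 i h]
            rfl
        have e3 := kap_split c w hA.mono u (lo w (u + 1) y)
        rw [lo_lo, hi_lo, e1, e2] at e3
        have hAB := kap_abel hA.filt hA.mem hu (x := fun i => t i x)
          (y := eq' w u (fun i => P0 i x)) (fun i hi => by rw [ht2 i (by omega)]; rfl)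
          (fun i hi => by unfold eq'; rw [if_neg (by omega)])
        have hn := ht3 x
        rw [e3, mul_inv_rev, mul_assoc]
        set E := kap c ((fun i => t i x) + eq' w u (fun i => P0 i x)) with hE
        set A := kap c (fun i => t i x) with hAdef
        set B := kap c (eq' w u (fun i => P0 i x)) with hB
        have hB0 : B⁻¹ ∈ F 0 :=
          (F 0).inv_mem (hA.filt.le (Nat.zero_le u) (kap_eq_mem hA.filt hA.mem u _))
        have e4 : E⁻¹ * fu x = (E⁻¹ * (A * B)) * (B⁻¹ * (A⁻¹ * v x) * (B⁻¹)⁻¹) := by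
          rw [hv]
          dsimp only
          rw [← hB]
          group
        change E⁻¹ * fu x ∈ F (u + 1)
        rw [e4]
        exact (F (u + 1)).mul_mem hAB (hA.filt.conj hn hB0)

end Coord

theorem coord {F : ℕ → Subgroup G} {D r : ℕ} {c : Fin r → G} {w : Fin r → ℕ}
    (hA : Adapted F D c w) (hom : ∀ v, 1 ≤ om v) (f : (V → ℤ) → G) (hf : IsPol F om 0 f)
    (j : ℕ) (hfj : ∀ x, f x ∈ F (j + 1)) (H : Set (Set V)) (P0 : Fin r → (V → ℤ) → ℤ)
    (hP0 : ∀ i, P0 i ∈ WP om ∅ (w i)) (hP0j : ∀ i, w i ≤ j → P0 i = 0)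
    (hH : ∀ S ∈ H, ∀ x : V → ℤ, (∀ v ∈ S, x v = 0) → f x = kap c (fun i => P0 i x)) :
    ∃ s : Fin r → (V → ℤ) → ℤ, (∀ i, s i ∈ WP om H (w i)) ∧ (∀ i, w i ≤ j → s i = 0) ∧
      ∀ x, f x = kap c (fun i => P0 i x + s i x) := by
  obtain ⟨s, h1, h2, -, h4⟩ := Coord.claim hA hom f hf j hfj H P0 hP0 hP0j hH (D + 1)
    (by omega) le_rfl
  refine ⟨s, h1, h2, fun x => ?_⟩
  have h5 := h4 x
  rw [hA.bot, Subgroup.mem_bot] at h5
  have h6 : lo w (D + 1) (fun i => P0 i x + s i x) = fun i => P0 i x + s i x := by
    funext i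
    unfold lo
    rw [if_pos (by have := hA.le_D i; omega)]
  rw [h6] at h5
  exact (inv_mul_eq_one.1 h5).symm

end Pool.Nil
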