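import Pool.Agent.Nil.Pack

set_option autoImplicit false

/-!
# Nil: smallness of averages on functions without small denominators

PROOF of `opA`.  `X = 2^(i / (4c)) ≥ 2`, `lam = 1`, `M = N k`, `rho = N k / X^c`, `m = 2^i / 2`.  If `1 ≤ q ≤ X^c` then
`q ∣ Qs c i` (`dvd_Qs`) and `‖Bj q rho * (1 - B2 Q m)‖ ≤ K 2^m / rho ≤ K X^c 2^(m - k)` (`absorb`), `k - m ≥ 2^i / 2`; this
times `X^c` is at most `X⁻¹` for large `i` (`ls_small`).  `inv_op`: `‖..‖ ≤ X⁻¹ ‖1 - B2‖ + X⁻¹ ≤ 3 X⁻¹`.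

PROOF of `opTh`.  `X = 2^((s-1) / (4c))`, `lam = 1`, `M = ls c s ≥ X^c`, `rho = M / X^c`; `q ∣ Qs c (s - 1)`, and
`‖Bj q rho * (1 - Ga Q n)‖ ≤ K Q n / rho = K Qs c s X^c / ls c s ≤ K X^c 2^(-(4c+4) s)` (`coset_absorb`), times `X^c` at
most `X⁻¹` for large `s`.
-/

namespace Pool.Nil

open Finset

variable {G : Type*} [Group G] {H : Type*} [NormedAddCommGroup H] [InnerProductSpace ℂ H]
  [CompleteSpace H]

namespace OpAAux

lemma two_mul_le {i : ℕ} (hi : 4 ≤ i) : 2 * i ≤ 2 ^ i / 2 := by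
  have h : ∀ j : ℕ, 4 * (j + 4) ≤ 2 ^ (j + 4) := by
    intro j
    induction j with
    | zero => norm_num
    | succ j ih =>
      rw [show j + 1 + 4 = (j + 4) + 1 by ring, pow_succ]
      omega
  obtain ⟨j, rfl⟩ := Nat.exists_eq_add_of_le' hi
  have := h j
  omega

lemma X_pow_le {c : ℕ} (hc : 1 ≤ c) (i : ℕ) :
    ((2 : ℝ) ^ (i / (4 * c))) ^ (2 * c + 1) ≤ 2 ^ i := by
  rw [← pow_mul]
  refine pow_le_pow_right₀ (by norm_num) ?_
  have h1 : i / (4 * c) * (4 * c) ≤ i := Nat.div_mul_le_self i (4 * c)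
  have h2 : i / (4 * c) * (2 * c + 1) ≤ i / (4 * c) * (4 * c) :=
    Nat.mul_le_mul_left _ (by omega)
  omega

end OpAAux

namespace Frame

variable {g : ℤ → G} (fr : Frame g) (U : G →* (H ≃ₗᵢ[ℂ] H))

theorem opA {c : ℕ} {K : ℝ} (hP : fr.Pack U c K) : ∃ i0 : ℕ, ∀ i, i0 ≤ i → ∀ N : ℕ → ℕ, Dy N →
    ∀ k, 2 ^ i ≤ k → k ≤ 2 ^ (i + 1) →
    ‖Al U g (N k) 1 * (1 - fr.B2 U (Qs c i) (2 ^ i / 2))‖ ≤ 3 * ((2 : ℝ) ^ (i / (4 * c)))⁻¹ := by
  have hc := hP.one_le_c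
  have hK := hP.one_le_K
  obtain ⟨A, hA⟩ := pow_unbounded_of_one_lt K (by norm_num : (1 : ℝ) < 2)
  refine ⟨A + 4 * c + 4, fun i hi N hN k hk hk' => ?_⟩
  set X : ℝ := (2 : ℝ) ^ (i / (4 * c)) with hX
  have hd : 1 ≤ i / (4 * c) := by
    rw [Nat.le_div_iff_mul_le (by omega)]
    omega
  have hX2 : 2 ≤ X := by
    calc (2 : ℝ) = 2 ^ 1 := by norm_num
      _ ≤ X := pow_le_pow_right₀ (by norm_num) hd
  have hX0 : 0 < X := by linarith
  have hX1 : 1 ≤ X := by linarith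
  have hNk : (2 : ℝ) ^ (2 ^ i) ≤ N k := by
    calc (2 : ℝ) ^ (2 ^ i) ≤ 2 ^ k := pow_le_pow_right₀ (by norm_num) hk
      _ ≤ N k := by exact_mod_cast (hN k).1
  have hN0 : (0 : ℝ) < N k := lt_of_lt_of_le (by positivity) hNk
  set m : ℕ := 2 ^ i / 2 with hm
  have h2i : 2 * i ≤ m := OpAAux.two_mul_le (by omega)
  -- the main size bound
  have hmain : K * X ^ (2 * c + 1) * 2 ^ m ≤ N k := by
    have h1 : X ^ (2 * c + 1) ≤ 2 ^ i := OpAAux.X_pow_le hc i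
    have h2 : K ≤ 2 ^ i := hA.le.trans (pow_le_pow_right₀ (by norm_num) (by omega))
    have h3 : (2 : ℝ) ^ i * 2 ^ i * 2 ^ m = 2 ^ (i + i + m) := by rw [← pow_add, ← pow_add]
    have h4 : (2 : ℝ) ^ (i + i + m) ≤ 2 ^ (2 ^ i) := pow_le_pow_right₀ (by norm_num) (by omega)
    refine le_trans ?_ (h4.trans hNk)
    rw [← h3]
    refine mul_le_mul_of_nonneg_right ?_ (by positivity)
    exact mul_le_mul h2 h1 (by positivity) (by positivity)
  have hXc : X ^ c ≤ X ^ (2 * c + 1) := pow_le_pow_right₀ hX1 (by omega)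
  have h2m : (1 : ℝ) ≤ 2 ^ m := one_le_pow₀ (by norm_num)
  have hXcm : X ^ c * 2 ^ m ≤ N k := by
    refine le_trans ?_ hmain
    refine mul_le_mul_of_nonneg_right ?_ (by positivity)
    calc X ^ c ≤ 1 * X ^ (2 * c + 1) := by rw [one_mul]; exact hXc
      _ ≤ K * X ^ (2 * c + 1) := mul_le_mul_of_nonneg_right hK (by positivity)
  have hXcN : X ^ c ≤ N k := by
    calc X ^ c = X ^ c * 1 := by ring
      _ ≤ X ^ c * 2 ^ m := mul_le_mul_of_nonneg_left h2m (by positivity)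
      _ ≤ _ := hXcm
  set rho : ℝ := N k / X ^ c with hrho
  have hrho1 : 1 ≤ rho := by
    rw [hrho, le_div_iff₀ (by positivity), one_mul]
    exact hXcN
  have hmrho : (2 : ℝ) ^ m ≤ rho := by
    rw [hrho, le_div_iff₀ (by positivity), mul_comm]
    exact hXcm
  have key := hP.inv_op fr U (X := X) (lam := 1) (M := N k) hX2 le_rfl
    (by rw [Nat.cast_one, one_mul]; exact hXcN) (1 - fr.B2 U (Qs c i) m) (rho := rho)
    (del := K * (2 ^ m / rho)) hrho1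
    (by rw [hrho, Nat.cast_one, one_mul, div_mul_cancel₀ _ (by positivity)])
    (by positivity) (by
      intro q hq hqX
      rw [one_pow, mul_one, mul_sub, mul_one]
      have hdvd : q ∣ Qs c i := by
        refine dvd_Qs c i q hq ?_
        have h1 : (q : ℝ) ≤ 2 ^ (c * (i / (4 * c))) := by
          rw [mul_comm, pow_mul]
          exact hqX
        exact_mod_cast h1
      have h1 := (hP.absorb q (Qs c i) rho (2 ^ m) hq (Qs_pos c i) hdvd h2m hmrho).1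
      rw [norm_sub_rev] at h1
      exact h1)
  have hY2 : ‖1 - fr.B2 U (Qs c i) m‖ ≤ 2 := by
    refine (norm_sub_le _ _).trans ?_
    have h1 := fr.norm_B2_le U (Qs c i) m
    have h2 : ‖(1 : H →L[ℂ] H)‖ ≤ 1 := ContinuousLinearMap.norm_id_le
    linarith
  refine key.trans ?_
  have h5 : X⁻¹ * ‖1 - fr.B2 U (Qs c i) m‖ ≤ X⁻¹ * 2 :=
    mul_le_mul_of_nonneg_left hY2 (by positivity)
  have h6 : X ^ c * (K * (2 ^ m / rho)) ≤ X⁻¹ := by
    have h7 : X ^ c * (K * (2 ^ m / rho)) = X⁻¹ * ((K * X ^ (2 * c + 1) * 2 ^ m) / N k) := by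
      rw [hrho]
      field_simp
      ring
    rw [h7]
    calc X⁻¹ * ((K * X ^ (2 * c + 1) * 2 ^ m) / N k) ≤ X⁻¹ * 1 := by
          refine mul_le_mul_of_nonneg_left ?_ (by positivity)
          rw [div_le_one hN0]
          exact hmain
      _ = X⁻¹ := mul_one _
  linarith

theorem opTh {c : ℕ} {K : ℝ} (hP : fr.Pack U c K) : ∃ i0 : ℕ, ∀ s, i0 ≤ s → 1 ≤ s →
    ‖Al U g (fr.ls c s) 1 * (1 - fr.Ga U (Qs c (s - 1)) (Qs c s / Qs c (s - 1)))‖ ≤
      3 * ((2 : ℝ) ^ ((s - 1) / (4 * c)))⁻¹ := by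
  have hc := hP.one_le_c
  have hK := hP.one_le_K
  obtain ⟨A, hA⟩ := pow_unbounded_of_one_lt K (by norm_num : (1 : ℝ) < 2)
  refine ⟨A + 4 * c + 1, fun s hs hs1 => ?_⟩
  set X : ℝ := (2 : ℝ) ^ ((s - 1) / (4 * c)) with hX
  have hd : 1 ≤ (s - 1) / (4 * c) := by
    rw [Nat.le_div_iff_mul_le (by omega)]
    omega
  have hX2 : 2 ≤ X := by
    calc (2 : ℝ) = 2 ^ 1 := by norm_num
      _ ≤ X := pow_le_pow_right₀ (by norm_num) hd
  have hX0 : 0 < X := by linarith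
  have hX1 : 1 ≤ X := by linarith
  set Q : ℕ := Qs c (s - 1) with hQ
  have hQ1 : 1 ≤ Q := Qs_pos c _
  have hQd : Q ∣ Qs c s := Qs_dvd c (by omega)
  have hQn : Q * (Qs c s / Q) = Qs c s := Nat.mul_div_cancel' hQd
  have hn1 : 1 ≤ Qs c s / Q := by
    rcases Nat.eq_zero_or_pos (Qs c s / Q) with h | h
    · rw [h, mul_zero] at hQn
      have := Qs_pos c s
      omega
    · exact h
  have hQnr : (Q : ℝ) * ((Qs c s / Q : ℕ) : ℝ) = Qs c s := by
    rw [← Nat.cast_mul, hQn]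
  have hQs0 : (0 : ℝ) < Qs c s := by exact_mod_cast Qs_pos c s
  have hls : (Qs c s : ℝ) * 2 ^ ((4 * c + 4) * s) ≤ fr.ls c s := by
    have h1 : 1 * (Qs c s * 2 ^ ((4 * c + 4) * s)) ≤
        fr.W ^ fr.D * (Qs c s * 2 ^ ((4 * c + 4) * s)) :=
      Nat.mul_le_mul_right _ (Nat.pow_pos fr.W_pos)
    have h2 : Qs c s * 2 ^ ((4 * c + 4) * s) ≤ fr.ls c s := by
      unfold ls
      rw [mul_assoc]
      omega
    exact_mod_cast h2
  have hM0 : (0 : ℝ) < fr.ls c s := by exact_mod_cast fr.ls_pos c s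
  have hQs1 : (1 : ℝ) ≤ Qs c s := by exact_mod_cast Qs_pos c s
  have hmain' : K * X ^ (2 * c + 1) ≤ 2 ^ ((4 * c + 4) * s) := by
    have h1 : X ^ (2 * c + 1) ≤ 2 ^ (s - 1) := OpAAux.X_pow_le hc (s - 1)
    have h1' : (2 : ℝ) ^ (s - 1) ≤ 2 ^ s := pow_le_pow_right₀ (by norm_num) (by omega)
    have h2 : K ≤ 2 ^ s := hA.le.trans (pow_le_pow_right₀ (by norm_num) (by omega))
    calc K * X ^ (2 * c + 1) ≤ 2 ^ s * 2 ^ s :=
          mul_le_mul h2 (h1.trans h1') (by positivity) (by positivity)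
      _ = 2 ^ (s + s) := by rw [← pow_add]
      _ ≤ 2 ^ ((4 * c + 4) * s) := pow_le_pow_right₀ (by norm_num) (by nlinarith)
  have hXc : X ^ c ≤ X ^ (2 * c + 1) := pow_le_pow_right₀ hX1 (by omega)
  have hXcM : X ^ c ≤ fr.ls c s := by
    calc X ^ c ≤ 1 * X ^ (2 * c + 1) := by rw [one_mul]; exact hXc
      _ ≤ K * X ^ (2 * c + 1) := mul_le_mul_of_nonneg_right hK (by positivity)
      _ ≤ 2 ^ ((4 * c + 4) * s) := hmain'
      _ = 1 * 2 ^ ((4 * c + 4) * s) := by ring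
      _ ≤ (Qs c s : ℝ) * 2 ^ ((4 * c + 4) * s) :=
          mul_le_mul_of_nonneg_right hQs1 (by positivity)
      _ ≤ _ := hls
  set rho : ℝ := (fr.ls c s : ℝ) / X ^ c with hrho
  have hrho1 : 1 ≤ rho := by
    rw [hrho, le_div_iff₀ (by positivity), one_mul]
    exact hXcM
  have key := hP.inv_op fr U (X := X) (lam := 1) (M := fr.ls c s) hX2 le_rfl
    (by rw [Nat.cast_one, one_mul]; exact hXcM) (1 - fr.Ga U Q (Qs c s / Q)) (rho := rho)
    (del := K * (Qs c s / rho)) hrho1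
    (by rw [hrho, Nat.cast_one, one_mul, div_mul_cancel₀ _ (by positivity)])
    (by positivity) (by
      intro q hq hqX
      rw [one_pow, mul_one, mul_sub, mul_one]
      have hdvd : q ∣ Q := by
        refine dvd_Qs c (s - 1) q hq ?_
        have h1 : (q : ℝ) ≤ 2 ^ (c * ((s - 1) / (4 * c))) := by
          rw [mul_comm, pow_mul]
          exact hqX
        exact_mod_cast h1
      have h1 := hP.coset_absorb q Q (Qs c s / Q) rho hq hQ1 hdvd hn1 hrho1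
      rw [norm_sub_rev, hQnr] at h1
      exact h1)
  have hY2 : ‖1 - fr.Ga U Q (Qs c s / Q)‖ ≤ 2 := by
    refine (norm_sub_le _ _).trans ?_
    have h1 := fr.norm_Ga_le U Q (Qs c s / Q)
    have h2 : ‖(1 : H →L[ℂ] H)‖ ≤ 1 := ContinuousLinearMap.norm_id_le
    linarith
  refine key.trans ?_
  have h5 : X⁻¹ * ‖1 - fr.Ga U Q (Qs c s / Q)‖ ≤ X⁻¹ * 2 :=
    mul_le_mul_of_nonneg_left hY2 (by positivity)
  have h6 : X ^ c * (K * (Qs c s / rho)) ≤ X⁻¹ := by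
    have h7 : X ^ c * (K * (Qs c s / rho)) =
        X⁻¹ * ((K * X ^ (2 * c + 1)) * Qs c s / fr.ls c s) := by
      rw [hrho]
      field_simp
      ring
    rw [h7]
    calc X⁻¹ * ((K * X ^ (2 * c + 1)) * Qs c s / fr.ls c s) ≤ X⁻¹ * 1 := by
          refine mul_le_mul_of_nonneg_left ?_ (by positivity)
          rw [div_le_one hM0]
          refine le_trans ?_ hls
          rw [mul_comm (Qs c s : ℝ)]
          exact mul_le_mul_of_nonneg_right hmain' hQs0.le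
      _ = X⁻¹ := mul_one _
  linarith

end Frame

end Pool.Nil
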