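import Pool.Agent.Nil.Pack

/-!
# Nil: reduction to the main part

Here `k` is in the block `i` (`2^i ≤ k < 2^(i+1)`, so `Nat.log 2 k = i`), `r = rr c k = k - (8c+10) i`, `m = 2^i / 2`,
`A = Al U g (N k) 1`.  All errors of the form (power of `ls`, `Qs`, `2^(Sp)`) times `2^(-2^i / 4)` are at most
`2^(-k / 8)`-like by `ls_small`.

PROOF of `opB2`.  `inv_op` with `X = 2^(2 i)`, `lam = 1`, `rho = N k / X^c`, `Y = (1 - B2 Q r) * B2 Q m`, `Q = Qs c i`.  For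
`q ≤ X^c = 2^(2ci)`: (a) `B2 Q r * B2 Q m` is within `K 2^(m - r)` of `B2 Q r` (`absorb`); (b) for `l = m` or `l = r`:
`B2 Q l` is within `K Q q / 2^l` of `Bj (Q q) 2^l * Ga Q q` (`coset`), `Bj q rho * Bj (Q q) 2^l` is within `K 2^l / rho` of
`Bj q rho` (`absorb`), so `Bj q rho * B2 Q l` is within `K (Q q / 2^l + 2^l / rho)` of `Bj q rho * Ga Q q`.  Hence
`‖Bj q rho * Y‖ ≤ K (2^(m - r) + Q q / 2^m + Q q / 2^r + 2^m / rho + 2^r / rho)`; `2^r / rho ≤ 2^(-(8c+10) i + 2 c i)`, the other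
terms are exponentially small in `2^i`; times `X^c = 2^(2ci)` this is at most `X⁻¹`.  `‖Y‖ ≤ 2`.

PROOF of `opB3`: `absorb`.

PROOF of `opB4`.  `Q' = Qs c (s-1)`, `n = Qs c s / Q'`, `Q' n = Qs c s = Q`, `lam = ls c s`, `T = 1 - Ga Q' n`.
`B2 Q' r` is within `K Q / 2^r` of `B2 Q r * Ga Q' n` (`coset`), so `A * (B2 Q r - B2 Q' r)` is within `K Q / 2^r` of
`A * B2 Q r * T`; `resid1` (`Nn = N k`, `R = 2^r`): within `K (lam / N k) (N k / 2^r)^D ≤ K lam 2^(-k) 2^(D (Sp c i + 1))`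
`A * B2 Q r` is `Al (N k / lam) lam * (Al lam 1 * B2 Q r)`; `resid2`: `Al lam 1 * B2 Q r` is within `K lam / 2^r` of
`B2 Q r * Al lam 1`.
`opB5`: the same without `T`.
-/

set_option autoImplicit false

namespace Pool.Nil

open Finset

variable {G : Type*} [Group G] {H : Type*} [NormedAddCommGroup H] [InnerProductSpace ℂ H]
  [CompleteSpace H]

namespace OpBAux

lemma pw {K : ℝ} {i a b e : ℕ} (h : 8 * K ≤ 2 ^ i) (hab : i + a + e ≤ b) :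
    K * ((2 : ℝ) ^ a / 2 ^ b) ≤ 1 / 8 * ((2 : ℝ) ^ e)⁻¹ := by
  have h1 : (2 : ℝ) ^ (i + a + e) ≤ 2 ^ b := pow_le_pow_right₀ one_le_two hab
  have h2 : (0 : ℝ) < 2 ^ e := by positivity
  have h3 : (0 : ℝ) < 2 ^ b := by positivity
  have h4 : (0 : ℝ) < 2 ^ a := by positivity
  rw [← mul_div_assoc, div_le_iff₀ h3]
  calc K * 2 ^ a ≤ (2 ^ i / 8) * 2 ^ a := mul_le_mul_of_nonneg_right (by linarith) h4.le
    _ = 1 / 8 * (2 ^ e)⁻¹ * 2 ^ (i + a + e) := by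
        rw [pow_add, pow_add]
        field_simp
    _ ≤ 1 / 8 * (2 ^ e)⁻¹ * 2 ^ b := mul_le_mul_of_nonneg_left h1 (by positivity)

/-- monotone form -/
lemma pw' {K : ℝ} {i a b e : ℕ} (hK : 0 ≤ K) (h : 8 * K ≤ 2 ^ i) (hab : i + a + e ≤ b) {x y : ℝ}
    (hx : x ≤ 2 ^ a) (hy : 2 ^ b ≤ y) : K * (x / y) ≤ 1 / 8 * ((2 : ℝ) ^ e)⁻¹ := by
  have h3 : (0 : ℝ) < 2 ^ b := by positivity
  have h5 : (0 : ℝ) < 2 ^ a := by positivity
  refine le_trans (mul_le_mul_of_nonneg_left ?_ hK) (pw h hab)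
  exact (div_le_div_of_nonneg_right hx (h3.le.trans hy)).trans
    (div_le_div_of_nonneg_left h5.le h3 hy)

lemma nums {g : ℤ → G} (fr : Frame g) {c : ℕ} (hc : 1 ≤ c) (K : ℝ) :
    ∃ i0 : ℕ, 1 ≤ i0 ∧ ∀ s i, i0 ≤ s → s ≤ i → 8 * K ≤ (2 : ℝ) ^ i ∧
      (2 * fr.D + 2) * Sp c i ≤ 2 ^ i / 16 ∧ fr.ls c s ≤ 2 ^ (2 ^ i / 16) ∧
      Qs c s ≤ 2 ^ (2 ^ i / 16) := by
  obtain ⟨i1, h1⟩ := fr.ls_small c (2 * fr.D + 2) hc
  obtain ⟨n, hn⟩ := pow_unbounded_of_one_lt (8 * K) (one_lt_two (α := ℝ))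
  refine ⟨max 1 (max i1 n), le_max_left _ _, fun s i hs hsi => ?_⟩
  have hs1 : i1 ≤ s := le_trans (le_trans (le_max_left _ _) (le_max_right _ _)) hs
  have hsn : n ≤ s := le_trans (le_trans (le_max_right _ _) (le_max_right _ _)) hs
  have hpow : (2 : ℕ) ^ s / 16 ≤ 2 ^ i / 16 :=
    Nat.div_le_div_right (Nat.pow_le_pow_right (by norm_num) hsi)
  have hpow2 : (2 : ℕ) ^ (2 ^ s / 16) ≤ 2 ^ (2 ^ i / 16) :=
    Nat.pow_le_pow_right (by norm_num) hpow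
  obtain ⟨ha, hb, -⟩ := h1 s hs1
  obtain ⟨-, -, hc'⟩ := h1 i (hs1.trans hsi)
  refine ⟨?_, ?_, ?_, ?_⟩
  · exact hn.le.trans (pow_le_pow_right₀ one_le_two (hsn.trans hsi))
  · exact (Nat.pow_le_pow_iff_right (by norm_num)).1 hc'
  · exact (Nat.le_self_pow (by omega) _).trans (ha.trans hpow2)
  · refine le_trans ?_ ((Nat.le_self_pow (n := 2 * fr.D + 2) (by omega) _).trans (hb.trans hpow2))
    exact Nat.le_mul_of_pos_left _ (Nat.pow_pos fr.W_pos)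

lemma rr_add {c i k : ℕ} (h1 : 2 ^ i ≤ k) (h2 : k < 2 ^ (i + 1)) (h : Sp c i ≤ 2 ^ i) :
    rr c k + Sp c i = k := by
  unfold rr
  rw [Nat.log_eq_of_pow_le_of_lt_pow h1 h2]
  omega

end OpBAux

open OpBAux

namespace Frame

variable {g : ℤ → G} (fr : Frame g) (U : G →* (H ≃ₗᵢ[ℂ] H))

theorem opB2 {c : ℕ} {K : ℝ} (hP : fr.Pack U c K) : ∃ i0 : ℕ, ∀ i, i0 ≤ i → ∀ N : ℕ → ℕ, Dy N →
    ∀ k, 2 ^ i ≤ k → k < 2 ^ (i + 1) →
    ‖Al U g (N k) 1 * ((1 - fr.B2 U (Qs c i) (rr c k)) * fr.B2 U (Qs c i) (2 ^ i / 2))‖ ≤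
      3 * ((2 : ℝ) ^ (2 * i))⁻¹ := by
  obtain ⟨i0, h1, hi0⟩ := nums fr hP.one_le_c K
  refine ⟨i0, fun i hi N hN k hk hk' => ?_⟩
  obtain ⟨hK, hSp, -, hQ⟩ := hi0 i i hi le_rfl
  have hK0 : 0 ≤ K := by linarith [hP.one_le_K]
  have hD : 2 * Sp c i ≤ (2 * fr.D + 2) * Sp c i := Nat.mul_le_mul_right _ (by omega)
  have hrr := rr_add (c := c) hk hk' (by omega)
  set r := rr c k with hr
  set Q := Qs c i with hQdef
  set P := 2 ^ i with hPdef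
  set m := P / 2 with hm
  have hSpe : Sp c i = (4 * c + 3) * i + (4 * c + 7) * i := by
    unfold Sp
    ring
  have hNk : (2 : ℝ) ^ k ≤ N k := by exact_mod_cast (hN k).1
  set X : ℝ := (2 : ℝ) ^ (2 * i) with hX
  have hX2 : 2 ≤ X := by
    calc (2 : ℝ) = 2 ^ 1 := (pow_one _).symm
      _ ≤ 2 ^ (2 * i) := pow_le_pow_right₀ one_le_two (by omega)
  have hXc : X ^ c = (2 : ℝ) ^ (2 * i * c) := by rw [hX, ← pow_mul]
  have hXpos : (0 : ℝ) < X ^ c := by positivity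
  have e3 : (4 * c + 3) * i = i + 2 * i * c + 2 * i * (c + 1) := by ring
  have hXM : X ^ c ≤ N k := by
    rw [hXc]
    exact (pow_le_pow_right₀ one_le_two (by omega)).trans hNk
  set rho : ℝ := N k / X ^ c with hrho
  have hrhor : (2 : ℝ) ^ r ≤ rho := by
    rw [hrho, le_div_iff₀ hXpos, hXc, ← pow_add]
    exact (pow_le_pow_right₀ one_le_two (by omega)).trans hNk
  have hmr : m ≤ r := by omega
  have hrhom : (2 : ℝ) ^ m ≤ rho := (pow_le_pow_right₀ one_le_two hmr).trans hrhor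
  have hrho1 : 1 ≤ rho := (one_le_pow₀ one_le_two).trans hrhor
  have hQ1 : 1 ≤ Q := Qs_pos c i
  set Y := (1 - fr.B2 U Q r) * fr.B2 U Q m with hY
  have hnY : ‖Y‖ ≤ 2 := by
    have h1 : ‖(1 : H →L[ℂ] H) - fr.B2 U Q r‖ ≤ 2 := by
      refine (norm_sub_le _ _).trans ?_
      have := fr.norm_B2_le U Q r
      have h1' : ‖(1 : H →L[ℂ] H)‖ ≤ 1 := ContinuousLinearMap.norm_id_le
      linarith
    calc ‖Y‖ ≤ ‖(1 : H →L[ℂ] H) - fr.B2 U Q r‖ * ‖fr.B2 U Q m‖ := norm_mul_le _ _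
      _ ≤ 2 * 1 := mul_le_mul h1 (fr.norm_B2_le U Q m) (norm_nonneg _) (by norm_num)
      _ = 2 := by norm_num
  have hdel : ∀ q : ℕ, 1 ≤ q → (q : ℝ) ≤ X ^ c → ‖fr.Bj U 0 (q * 1 ^ c) rho * Y‖ ≤
      5 / 8 * ((2 : ℝ) ^ (2 * i * (c + 1)))⁻¹ := by
    intro q hq hqX
    rw [one_pow, mul_one]
    set β := fr.Bj U 0 q rho with hβ
    have hβ1 : ‖β‖ ≤ 1 := fr.norm_Bj_le U 0 q rho
    -- approximation of `β * B2 Q l`
    have key : ∀ l : ℕ, (2 : ℝ) ^ l ≤ rho → ‖β * fr.B2 U Q l - β * fr.Ga U Q q‖ ≤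
        K * ((Q : ℝ) * q / 2 ^ l) + K * ((2 : ℝ) ^ l / rho) := by
      intro l hl
      have a1 := hP.coset Q q ((2 : ℝ) ^ l) hQ1 hq (one_le_pow₀ one_le_two)
      have a2 := (hP.absorb q (Q * q) rho ((2 : ℝ) ^ l) hq (Nat.mul_pos hQ1 hq)
        (Dvd.intro_left _ rfl) (one_le_pow₀ one_le_two) hl).1
      have e : β * fr.B2 U Q l - β * fr.Ga U Q q =
          β * (fr.Bj U 0 Q ((2 : ℝ) ^ l) - fr.Bj U 0 (Q * q) ((2 : ℝ) ^ l) * fr.Ga U Q q) +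
          (β * fr.Bj U 0 (Q * q) ((2 : ℝ) ^ l) - β) * fr.Ga U Q q := by
        unfold B2
        noncomm_ring
      rw [e]
      refine (norm_add_le _ _).trans (add_le_add ?_ ?_)
      · refine (norm_mul_le _ _).trans ?_
        calc ‖β‖ * _ ≤ 1 * (K * ((Q : ℝ) * q / 2 ^ l)) :=
              mul_le_mul hβ1 a1 (norm_nonneg _) zero_le_one
          _ = _ := one_mul _
      · refine (norm_mul_le _ _).trans ?_
        calc _ ≤ (K * ((2 : ℝ) ^ l / rho)) * 1 :=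
              mul_le_mul a2 (fr.norm_Ga_le U Q q) (norm_nonneg _)
                (mul_nonneg hK0 (by positivity))
          _ = _ := mul_one _
    have b1 := key m hrhom
    have b2 := key r hrhor
    have b3 := (hP.absorb Q Q ((2 : ℝ) ^ r) ((2 : ℝ) ^ m) hQ1 hQ1 dvd_rfl
      (one_le_pow₀ one_le_two) (pow_le_pow_right₀ one_le_two hmr)).1
    have e : β * Y = (β * fr.B2 U Q m - β * fr.Ga U Q q) - (β * fr.B2 U Q r - β * fr.Ga U Q q) -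
        β * (fr.B2 U Q r * fr.B2 U Q m - fr.B2 U Q r) := by
      rw [hY]
      noncomm_ring
    have b4 : ‖β * (fr.B2 U Q r * fr.B2 U Q m - fr.B2 U Q r)‖ ≤
        K * ((2 : ℝ) ^ m / 2 ^ r) := by
      refine (norm_mul_le _ _).trans ?_
      calc ‖β‖ * _ ≤ 1 * (K * ((2 : ℝ) ^ m / 2 ^ r)) :=
            mul_le_mul hβ1 b3 (norm_nonneg _) zero_le_one
        _ = _ := one_mul _
    have hQq : (Q : ℝ) * q ≤ 2 ^ (P / 16 + 2 * i * c) := by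
      rw [pow_add]
      refine mul_le_mul (by exact_mod_cast hQ) (by rw [← hXc]; exact hqX) (by positivity)
        (by positivity)
    have c1 : K * ((Q : ℝ) * q / 2 ^ m) ≤ 1 / 8 * ((2 : ℝ) ^ (2 * i * (c + 1)))⁻¹ :=
      pw' hK0 hK (by omega) hQq le_rfl
    have c2 : K * ((Q : ℝ) * q / 2 ^ r) ≤ 1 / 8 * ((2 : ℝ) ^ (2 * i * (c + 1)))⁻¹ :=
      pw' hK0 hK (by omega) hQq le_rfl
    have c3 : K * ((2 : ℝ) ^ m / 2 ^ r) ≤ 1 / 8 * ((2 : ℝ) ^ (2 * i * (c + 1)))⁻¹ :=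
      pw' hK0 hK (by omega) le_rfl le_rfl
    have c45 : ∀ l, l ≤ r → K * ((2 : ℝ) ^ l / rho) ≤
        1 / 8 * ((2 : ℝ) ^ (2 * i * (c + 1)))⁻¹ := by
      intro l hl
      have e4 : (2 : ℝ) ^ l / rho = 2 ^ (l + 2 * i * c) / N k := by
        rw [hrho, hXc, pow_add, div_div_eq_mul_div]
      rw [e4]
      exact pw' hK0 hK (by omega) le_rfl hNk
    have c4 := c45 m hmr
    have c5 := c45 r le_rfl
    rw [e]
    have n1 := norm_sub_le ((β * fr.B2 U Q m - β * fr.Ga U Q q) -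
      (β * fr.B2 U Q r - β * fr.Ga U Q q)) (β * (fr.B2 U Q r * fr.B2 U Q m - fr.B2 U Q r))
    have n2 := norm_sub_le (β * fr.B2 U Q m - β * fr.Ga U Q q)
      (β * fr.B2 U Q r - β * fr.Ga U Q q)
    linarith
  have main := Pack.inv_op fr U hP (X := X) (lam := 1) (M := N k) hX2 le_rfl
    (by rw [Nat.cast_one, one_mul]; exact hXM) Y (rho := rho)
    (del := 5 / 8 * ((2 : ℝ) ^ (2 * i * (c + 1)))⁻¹) hrho1
    (by rw [hrho, div_mul_cancel₀ _ hXpos.ne', Nat.cast_one, one_mul]) (by positivity) hdel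
  refine main.trans ?_
  have e5 : X ^ c * (5 / 8 * ((2 : ℝ) ^ (2 * i * (c + 1)))⁻¹) = 5 / 8 * X⁻¹ := by
    have : (2 : ℝ) ^ (2 * i * (c + 1)) = X ^ c * X := by
      rw [hX, ← pow_succ, ← pow_mul]
    rw [this]
    field_simp
  rw [e5]
  have hXi : 0 < X⁻¹ := by positivity
  nlinarith [mul_le_mul_of_nonneg_left hnY hXi.le]

theorem opB3 {c : ℕ} {K : ℝ} (hP : fr.Pack U c K) : ∃ i0 : ℕ, ∀ i, i0 ≤ i → ∀ N : ℕ → ℕ, Dy N →
    ∀ k, 2 ^ i ≤ k → k < 2 ^ (i + 1) →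
    ‖Al U g (N k) 1 * (fr.B2 U (Qs c i) (rr c k) * fr.B2 U (Qs c i) (2 ^ i / 2) -
      fr.B2 U (Qs c i) (rr c k))‖ ≤ ((2 : ℝ) ^ (k / 8))⁻¹ := by
  obtain ⟨i0, h1, hi0⟩ := nums fr hP.one_le_c K
  refine ⟨i0, fun i hi N hN k hk hk' => ?_⟩
  obtain ⟨hK, hSp, -, hQ⟩ := hi0 i i hi le_rfl
  have hK0 : 0 ≤ K := by linarith [hP.one_le_K]
  have hD : 2 * Sp c i ≤ (2 * fr.D + 2) * Sp c i := Nat.mul_le_mul_right _ (by omega)
  have hrr := rr_add (c := c) hk hk' (by omega)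
  have hiS : i ≤ Sp c i := by
    unfold Sp
    exact Nat.le_mul_of_pos_left _ (by omega)
  have hQ1 : 1 ≤ Qs c i := Qs_pos c i
  set P := 2 ^ i with hPdef
  have b3 := (hP.absorb (Qs c i) (Qs c i) ((2 : ℝ) ^ (rr c k)) ((2 : ℝ) ^ (P / 2)) hQ1 hQ1 dvd_rfl
      (one_le_pow₀ one_le_two) (pow_le_pow_right₀ one_le_two (by omega))).1
  have c3 : K * ((2 : ℝ) ^ (P / 2) / 2 ^ (rr c k)) ≤ 1 / 8 * ((2 : ℝ) ^ (k / 8))⁻¹ :=
    pw' hK0 hK (by omega) le_rfl le_rfl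
  refine (norm_mul_le _ _).trans ?_
  have h4 : (0 : ℝ) < ((2 : ℝ) ^ (k / 8))⁻¹ := by positivity
  calc ‖Al U g (N k) 1‖ * _ ≤ 1 * (K * ((2 : ℝ) ^ (P / 2) / 2 ^ (rr c k))) :=
        mul_le_mul (norm_Al_le U g _ _) b3 (norm_nonneg _) zero_le_one
    _ ≤ ((2 : ℝ) ^ (k / 8))⁻¹ := by linarith

/-- the main part of `opB4` and `opB5` -/
lemma opB_main {c : ℕ} {K : ℝ} (hP : fr.Pack U c K) : ∃ i0 : ℕ, 1 ≤ i0 ∧ ∀ s i, i0 ≤ s → s ≤ i →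
    ∀ N : ℕ → ℕ, Dy N → ∀ k, 2 ^ i ≤ k → k < 2 ^ (i + 1) →
    K * ((Qs c s : ℝ) / 2 ^ (rr c k)) ≤ 1 / 8 * ((2 : ℝ) ^ (k / 8))⁻¹ ∧
    ‖Al U g (N k) 1 * fr.B2 U (Qs c s) (rr c k) -
      Al U g (N k / fr.ls c s) (fr.ls c s) * (fr.B2 U (Qs c s) (rr c k) *
        Al U g (fr.ls c s) 1)‖ ≤ 1 / 4 * ((2 : ℝ) ^ (k / 8))⁻¹ := by
  obtain ⟨i0, h1, hi0⟩ := nums fr hP.one_le_c K
  refine ⟨i0, h1, fun s i hs hsi N hN k hk hk' => ?_⟩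
  obtain ⟨hK, hSp, hls, hQ⟩ := hi0 s i hs hsi
  have hK0 : 0 ≤ K := by linarith [hP.one_le_K]
  have hD : 2 * Sp c i ≤ (2 * fr.D + 2) * Sp c i := Nat.mul_le_mul_right _ (by omega)
  have hrr := rr_add (c := c) hk hk' (by omega)
  have hiS : i ≤ Sp c i := by
    unfold Sp
    exact Nat.le_mul_of_pos_left _ (by omega)
  have hD2 : fr.D * (Sp c i + 1) ≤ (2 * fr.D + 2) * Sp c i := by
    have h2 : Sp c i + 1 ≤ 2 * Sp c i := by omega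
    calc fr.D * (Sp c i + 1) ≤ fr.D * (2 * Sp c i) := Nat.mul_le_mul_left _ h2
      _ = 2 * fr.D * Sp c i := by ring
      _ ≤ (2 * fr.D + 2) * Sp c i := Nat.mul_le_mul_right _ (by omega)
  have hQ1 : 1 ≤ Qs c s := Qs_pos c s
  set P := 2 ^ i with hPdef
  set r := rr c k with hr
  have hNk : (2 : ℝ) ^ k ≤ N k := by exact_mod_cast (hN k).1
  have hNk2 : (N k : ℝ) ≤ 2 ^ (k + 1) := by exact_mod_cast (hN k).2.le
  have hlam1 := fr.ls_pos c s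
  have hlamR : (fr.ls c s : ℝ) ≤ 2 ^ (P / 16) := by exact_mod_cast hls
  have hlamN : fr.ls c s ≤ N k := by
    refine hls.trans (le_trans ?_ (hN k).1)
    exact Nat.pow_le_pow_right (by norm_num) (by omega)
  have hRN : (2 : ℝ) ^ r ≤ N k := (pow_le_pow_right₀ one_le_two (by omega)).trans hNk
  refine ⟨pw' hK0 hK (a := P / 16) (by omega) (by exact_mod_cast hQ) le_rfl, ?_⟩
  have a1 := hP.resid1 (Qs c s) (fr.ls c s) (N k) ((2 : ℝ) ^ r) hQ1 hlam1 hlamN (fr.md_dvd_ls c s)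
    (one_le_pow₀ one_le_two) hRN
  have a2 := hP.resid2 (Qs c s) (fr.ls c s) ((2 : ℝ) ^ r) hQ1 hlam1 (one_le_pow₀ one_le_two)
  have c1 : K * (((fr.ls c s : ℝ) / N k) * ((N k : ℝ) / 2 ^ r) ^ fr.D) ≤
      1 / 8 * ((2 : ℝ) ^ (k / 8))⁻¹ := by
    have h5 : ((N k : ℝ) / 2 ^ r) ^ fr.D ≤ 2 ^ (fr.D * (Sp c i + 1)) := by
      rw [mul_comm fr.D, pow_mul]
      refine pow_le_pow_left₀ (by positivity) ?_ _
      rw [div_le_iff₀ (by positivity), ← pow_add]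
      exact hNk2.trans (pow_le_pow_right₀ one_le_two (by omega))
    have e6 : ((fr.ls c s : ℝ) / N k) * ((N k : ℝ) / 2 ^ r) ^ fr.D =
        ((fr.ls c s : ℝ) * ((N k : ℝ) / 2 ^ r) ^ fr.D) / N k := by ring
    rw [e6]
    refine pw' hK0 hK (a := P / 16 + fr.D * (Sp c i + 1)) (by omega) ?_ hNk
    rw [pow_add]
    exact mul_le_mul hlamR h5 (by positivity) (by positivity)
  have c2 : K * ((fr.ls c s : ℝ) / 2 ^ r) ≤ 1 / 8 * ((2 : ℝ) ^ (k / 8))⁻¹ :=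
    pw' hK0 hK (a := P / 16) (by omega) hlamR le_rfl
  have e : Al U g (N k) 1 * fr.B2 U (Qs c s) r -
      Al U g (N k / fr.ls c s) (fr.ls c s) * (fr.B2 U (Qs c s) r * Al U g (fr.ls c s) 1) =
      (Al U g (N k) 1 * fr.Bj U 0 (Qs c s) ((2 : ℝ) ^ r) -
        Al U g (N k / fr.ls c s) (fr.ls c s) *
          (Al U g (fr.ls c s) 1 * fr.Bj U 0 (Qs c s) ((2 : ℝ) ^ r))) +
      Al U g (N k / fr.ls c s) (fr.ls c s) *
        (Al U g (fr.ls c s) 1 * fr.Bj U 0 (Qs c s) ((2 : ℝ) ^ r) -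
          fr.Bj U 0 (Qs c s) ((2 : ℝ) ^ r) * Al U g (fr.ls c s) 1) := by
    unfold B2
    noncomm_ring
  rw [e]
  have n1 : ‖Al U g (N k / fr.ls c s) (fr.ls c s) *
        (Al U g (fr.ls c s) 1 * fr.Bj U 0 (Qs c s) ((2 : ℝ) ^ r) -
          fr.Bj U 0 (Qs c s) ((2 : ℝ) ^ r) * Al U g (fr.ls c s) 1)‖ ≤
      K * ((fr.ls c s : ℝ) / 2 ^ r) := by
    refine (norm_mul_le _ _).trans ?_
    calc ‖Al U g (N k / fr.ls c s) (fr.ls c s)‖ * _ ≤ 1 * (K * ((fr.ls c s : ℝ) / 2 ^ r)) :=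
          mul_le_mul (norm_Al_le U g _ _) a2 (norm_nonneg _) zero_le_one
      _ = _ := one_mul _
  refine (norm_add_le _ _).trans ?_
  linarith

theorem opB4 {c : ℕ} {K : ℝ} (hP : fr.Pack U c K) : ∃ i0 : ℕ, ∀ s i, i0 ≤ s → 1 ≤ s → s ≤ i →
    ∀ N : ℕ → ℕ, Dy N → ∀ k, 2 ^ i ≤ k → k < 2 ^ (i + 1) →
    ‖Al U g (N k) 1 * (fr.B2 U (Qs c s) (rr c k) - fr.B2 U (Qs c (s - 1)) (rr c k)) -
      Al U g (N k / fr.ls c s) (fr.ls c s) * (fr.B2 U (Qs c s) (rr c k) *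
        (Al U g (fr.ls c s) 1 * (1 - fr.Ga U (Qs c (s - 1)) (Qs c s / Qs c (s - 1)))))‖ ≤
      ((2 : ℝ) ^ (k / 8))⁻¹ := by
  obtain ⟨i0, h1, hi0⟩ := fr.opB_main U hP
  refine ⟨i0, fun s i hs _ hsi N hN k hk hk' => ?_⟩
  obtain ⟨h2, h3⟩ := hi0 s i hs hsi N hN k hk hk'
  set r := rr c k with hr
  set lam := fr.ls c s with hlam
  set Q' := Qs c (s - 1) with hQ'
  have hdvd : Q' ∣ Qs c s := Qs_dvd c (Nat.sub_le _ _)
  set n := Qs c s / Q' with hn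
  have hQn : Q' * n = Qs c s := Nat.mul_div_cancel' hdvd
  have hQ'1 : 1 ≤ Q' := Qs_pos c _
  have hn1 : 1 ≤ n := Nat.div_pos (Nat.le_of_dvd (Qs_pos c s) hdvd) hQ'1
  have a1 := hP.coset Q' n ((2 : ℝ) ^ r) hQ'1 hn1 (one_le_pow₀ one_le_two)
  rw [hQn] at a1
  have hQnR : (Q' : ℝ) * n = Qs c s := by exact_mod_cast hQn
  rw [hQnR] at a1
  have hT : ‖(1 : H →L[ℂ] H) - fr.Ga U Q' n‖ ≤ 2 := by
    refine (norm_sub_le _ _).trans ?_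
    have := fr.norm_Ga_le U Q' n
    have h1' : ‖(1 : H →L[ℂ] H)‖ ≤ 1 := ContinuousLinearMap.norm_id_le
    linarith
  have e : Al U g (N k) 1 * (fr.B2 U (Qs c s) r - fr.B2 U Q' r) -
      Al U g (N k / lam) lam * (fr.B2 U (Qs c s) r * (Al U g lam 1 * (1 - fr.Ga U Q' n))) =
      (Al U g (N k) 1 * fr.B2 U (Qs c s) r - Al U g (N k / lam) lam *
        (fr.B2 U (Qs c s) r * Al U g lam 1)) * (1 - fr.Ga U Q' n) -
      Al U g (N k) 1 * (fr.Bj U 0 Q' ((2 : ℝ) ^ r) -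
        fr.Bj U 0 (Qs c s) ((2 : ℝ) ^ r) * fr.Ga U Q' n) := by
    unfold B2
    noncomm_ring
  rw [e]
  have h4 : (0 : ℝ) < ((2 : ℝ) ^ (k / 8))⁻¹ := by positivity
  have n1 := norm_sub_le ((Al U g (N k) 1 * fr.B2 U (Qs c s) r - Al U g (N k / lam) lam *
        (fr.B2 U (Qs c s) r * Al U g lam 1)) * (1 - fr.Ga U Q' n))
      (Al U g (N k) 1 * (fr.Bj U 0 Q' ((2 : ℝ) ^ r) -
        fr.Bj U 0 (Qs c s) ((2 : ℝ) ^ r) * fr.Ga U Q' n))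
  have n2 : ‖(Al U g (N k) 1 * fr.B2 U (Qs c s) r - Al U g (N k / lam) lam *
        (fr.B2 U (Qs c s) r * Al U g lam 1)) * (1 - fr.Ga U Q' n)‖ ≤
      1 / 4 * ((2 : ℝ) ^ (k / 8))⁻¹ * 2 :=
    (norm_mul_le _ _).trans (mul_le_mul h3 hT (norm_nonneg _) (by positivity))
  have n3 : ‖Al U g (N k) 1 * (fr.Bj U 0 Q' ((2 : ℝ) ^ r) -
        fr.Bj U 0 (Qs c s) ((2 : ℝ) ^ r) * fr.Ga U Q' n)‖ ≤
      1 * (1 / 8 * ((2 : ℝ) ^ (k / 8))⁻¹) :=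
    (norm_mul_le _ _).trans (mul_le_mul (norm_Al_le U g _ _) (a1.trans h2) (norm_nonneg _)
      zero_le_one)
  linarith

theorem opB5 {c : ℕ} {K : ℝ} (hP : fr.Pack U c K) : ∃ i0 : ℕ, ∀ s i, i0 ≤ s → s ≤ i →
    ∀ N : ℕ → ℕ, Dy N → ∀ k, 2 ^ i ≤ k → k < 2 ^ (i + 1) →
    ‖Al U g (N k) 1 * fr.B2 U (Qs c s) (rr c k) -
      Al U g (N k / fr.ls c s) (fr.ls c s) * (fr.B2 U (Qs c s) (rr c k) *
        Al U g (fr.ls c s) 1)‖ ≤ ((2 : ℝ) ^ (k / 8))⁻¹ := by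
  obtain ⟨i0, h1, hi0⟩ := fr.opB_main U hP
  refine ⟨i0, fun s i hs hsi N hN k hk hk' => ?_⟩
  obtain ⟨h2, h3⟩ := hi0 s i hs hsi N hN k hk hk'
  have h4 : (0 : ℝ) < ((2 : ℝ) ^ (k / 8))⁻¹ := by positivity
  linarith

end Frame

end Pool.Nil
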