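import Pool.Agent.Nil.MS
import Pool.Agent.Nil.SqOp
import Pool.Agent.PolyMax.RM

set_option autoImplicit false

/-!
# Nil: the Rademacher-Menshov argument with almost orthogonality

PROOF of `rm_op`.  Pointwise (for a.e. `x`) `Pool.PolyMax.rm` for `F k = (Y k f) x`:
`‖F (a + t)‖ ≤ ‖F a‖ + ∑_{l ≤ n} (∑_{u < 2^(n-l)} ‖F (a + (u+1) 2^l) - F (a + u 2^l)‖^2)^(1/2)`.
Take the `L²` norm (`n2_add`, `n2_sum_le`): with `W_u = Y (a + (u+1) 2^l) - Y (a + u 2^l)`,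
`MS ≤ ‖Y a f‖ + ∑_{l ≤ n} (∑_{u < 2^(n-l)} ‖W_u f‖^2)^(1/2)`
(`∫ ∑_u |W_u f|^2 = ∑_u ‖W_u f‖^2`, `n2_Lp`).  By `column` the inner sum is at most `B ‖f‖^2` with
`B = ε^2 (8 S + 8) + 2^n ε'`: `‖W_u (W_u')*‖ ≤ (2 ε)^2` always, and `≤ ε'` if `(u' + 1) 2^l + S ≤ u 2^l` (hypothesis `h2` for
`k1 = a + (u+1) 2^l, k2 = a + u 2^l, l1 = a + (u'+1) 2^l, l2 = a + u' 2^l`) or, taking adjoints, if
`(u + 1) 2^l + S ≤ u' 2^l`.  If neither holds then `|u - u'| ≤ S`, at most `2 S + 1` values of `u'`.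
-/

namespace Pool.Nil

open Finset MeasureTheory Filter Topology
open scoped ENNReal NNReal

namespace RMopAux

/-- the column sum bound -/
lemma col_bound {H : Type*} [NormedAddCommGroup H] [InnerProductSpace ℂ H] [CompleteSpace H]
    (Y : ℕ → H →L[ℂ] H) (a n S : ℕ) {ε ε' : ℝ} (hε : 0 ≤ ε) (hε' : 0 ≤ ε')
    (h1 : ∀ k, a ≤ k → k ≤ a + 2 ^ n → ‖Y k‖ ≤ ε)
    (h2 : ∀ k1 k2 l1 l2, a ≤ l1 → a ≤ l2 → k1 ≤ a + 2 ^ n → k2 ≤ a + 2 ^ n → l1 + S ≤ k1 →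
      l2 + S ≤ k1 → l1 + S ≤ k2 → l2 + S ≤ k2 →
      ‖(Y k1 - Y k2) * ContinuousLinearMap.adjoint (Y l1 - Y l2)‖ ≤ ε')
    (l : ℕ) (hl : l ≤ n) (u : ℕ) (hu : u < 2 ^ (n - l)) :
    ∑ u' ∈ range (2 ^ (n - l)), ‖(Y (a + (u + 1) * 2 ^ l) - Y (a + u * 2 ^ l)) *
      ContinuousLinearMap.adjoint (Y (a + (u' + 1) * 2 ^ l) - Y (a + u' * 2 ^ l))‖ ≤
      ε ^ 2 * (8 * S + 8) + 2 ^ n * ε' := by
  have hpow : 2 ^ (n - l) * 2 ^ l = 2 ^ n := by
    rw [← pow_add]; congr 1; omega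
  have hle : ∀ v, v < 2 ^ (n - l) → (v + 1) * 2 ^ l ≤ 2 ^ n := by
    intro v hv
    rw [← hpow]
    exact Nat.mul_le_mul_right _ hv
  have hle' : ∀ v, v < 2 ^ (n - l) → v * 2 ^ l ≤ 2 ^ n := by
    intro v hv
    rw [← hpow]
    exact Nat.mul_le_mul_right _ hv.le
  have hW : ∀ v, v < 2 ^ (n - l) → ‖Y (a + (v + 1) * 2 ^ l) - Y (a + v * 2 ^ l)‖ ≤ 2 * ε := by
    intro v hv
    calc _ ≤ ‖Y (a + (v + 1) * 2 ^ l)‖ + ‖Y (a + v * 2 ^ l)‖ := norm_sub_le _ _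
      _ ≤ ε + ε := add_le_add (h1 _ (Nat.le_add_right _ _) (Nat.add_le_add_left (hle v hv) _))
          (h1 _ (Nat.le_add_right _ _) (Nat.add_le_add_left (hle' v hv) _))
      _ = 2 * ε := by ring
  have hone : (1 : ℕ) ≤ 2 ^ l := Nat.one_le_two_pow
  have key : ∀ u' ∈ range (2 ^ (n - l)), ‖(Y (a + (u + 1) * 2 ^ l) - Y (a + u * 2 ^ l)) *
      ContinuousLinearMap.adjoint (Y (a + (u' + 1) * 2 ^ l) - Y (a + u' * 2 ^ l))‖ ≤
      (if u' ∈ Icc (u - S) (u + S) then 4 * ε ^ 2 else 0) + ε' := by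
    intro u' hu'
    rw [mem_range] at hu'
    by_cases hc : u' ∈ Icc (u - S) (u + S)
    · rw [if_pos hc]
      have : ‖(Y (a + (u + 1) * 2 ^ l) - Y (a + u * 2 ^ l)) *
          ContinuousLinearMap.adjoint (Y (a + (u' + 1) * 2 ^ l) - Y (a + u' * 2 ^ l))‖ ≤
          (2 * ε) * (2 * ε) := by
        refine (norm_mul_le _ _).trans ?_
        refine mul_le_mul (hW u hu) ?_ (norm_nonneg _) (by positivity)
        rw [LinearIsometryEquiv.norm_map]
        exact hW u' hu'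
      nlinarith
    · rw [if_neg hc, zero_add]
      rw [mem_Icc, not_and_or, not_le, not_le] at hc
      rcases hc with hc | hc
      · have h3 : (u' + 1) + S ≤ u := by omega
        have h4 : (u' + 1) * 2 ^ l + S ≤ u * 2 ^ l := by
          calc (u' + 1) * 2 ^ l + S ≤ (u' + 1) * 2 ^ l + S * 2 ^ l := by
                apply Nat.add_le_add_left
                exact Nat.le_mul_of_pos_right _ hone
            _ = ((u' + 1) + S) * 2 ^ l := by ring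
            _ ≤ u * 2 ^ l := Nat.mul_le_mul_right _ h3
        have h5 : (u + 1) * 2 ^ l = u * 2 ^ l + 2 ^ l := by ring
        have h6 : (u' + 1) * 2 ^ l = u' * 2 ^ l + 2 ^ l := by ring
        have h7 := hle u hu
        exact h2 _ _ _ _ (by omega) (by omega) (by omega) (by omega) (by omega) (by omega)
          (by omega) (by omega)
      · have h3 : (u + 1) + S ≤ u' := by omega
        have h4 : (u + 1) * 2 ^ l + S ≤ u' * 2 ^ l := by
          calc (u + 1) * 2 ^ l + S ≤ (u + 1) * 2 ^ l + S * 2 ^ l := by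
                apply Nat.add_le_add_left
                exact Nat.le_mul_of_pos_right _ hone
            _ = ((u + 1) + S) * 2 ^ l := by ring
            _ ≤ u' * 2 ^ l := Nat.mul_le_mul_right _ h3
        have h5 : (u + 1) * 2 ^ l = u * 2 ^ l + 2 ^ l := by ring
        have h6 : (u' + 1) * 2 ^ l = u' * 2 ^ l + 2 ^ l := by ring
        have h7 := hle u' hu'
        have h8 := h2 (a + (u' + 1) * 2 ^ l) (a + u' * 2 ^ l) (a + (u + 1) * 2 ^ l) (a + u * 2 ^ l)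
          (by omega) (by omega) (by omega) (by omega) (by omega) (by omega) (by omega) (by omega)
        have h9 : (Y (a + (u + 1) * 2 ^ l) - Y (a + u * 2 ^ l)) *
            ContinuousLinearMap.adjoint (Y (a + (u' + 1) * 2 ^ l) - Y (a + u' * 2 ^ l)) =
            ContinuousLinearMap.adjoint ((Y (a + (u' + 1) * 2 ^ l) - Y (a + u' * 2 ^ l)) *
              ContinuousLinearMap.adjoint (Y (a + (u + 1) * 2 ^ l) - Y (a + u * 2 ^ l))) := by
          rw [ContinuousLinearMap.mul_def, ContinuousLinearMap.mul_def,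
            ContinuousLinearMap.adjoint_comp, ContinuousLinearMap.adjoint_adjoint]
        rw [h9, LinearIsometryEquiv.norm_map]
        exact h8
  refine (Finset.sum_le_sum key).trans ?_
  rw [Finset.sum_add_distrib]
  have e1 : ∑ u' ∈ range (2 ^ (n - l)), (if u' ∈ Icc (u - S) (u + S) then 4 * ε ^ 2 else 0) ≤
      ε ^ 2 * (8 * S + 8) := by
    rw [← Finset.sum_filter, Finset.sum_const, nsmul_eq_mul]
    have hcard : ((range (2 ^ (n - l))).filter (fun u' => u' ∈ Icc (u - S) (u + S))).card ≤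
        2 * S + 1 := by
      calc _ ≤ (Icc (u - S) (u + S)).card := by
            apply Finset.card_le_card
            intro x hx
            exact (Finset.mem_filter.mp hx).2
        _ ≤ 2 * S + 1 := by rw [Nat.card_Icc]; omega
    have hcard' : (((range (2 ^ (n - l))).filter (fun u' => u' ∈ Icc (u - S) (u + S))).card : ℝ) ≤
        2 * S + 1 := by exact_mod_cast hcard
    calc _ ≤ (2 * S + 1 : ℝ) * (4 * ε ^ 2) := by gcongr
      _ ≤ ε ^ 2 * (8 * S + 8) := by nlinarith [sq_nonneg ε]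
  have e2 : ∑ _u' ∈ range (2 ^ (n - l)), ε' ≤ 2 ^ n * ε' := by
    rw [Finset.sum_const, nsmul_eq_mul, card_range]
    push_cast
    apply mul_le_mul_of_nonneg_right _ hε'
    exact pow_le_pow_right₀ (by norm_num) (by omega)
  exact add_le_add e1 e2

end RMopAux

variable {α : Type*} [MeasurableSpace α] {μ : Measure α}

namespace RMopAux

lemma n2_sqrt_sum (s : Finset ℕ) (W : ℕ → Lp ℂ 2 μ) {C : ℝ} (hC : 0 ≤ C)
    (h : ∑ u ∈ s, ‖W u‖ ^ 2 ≤ C ^ 2) :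
    n2 μ (fun x => ENNReal.ofReal (Real.sqrt (∑ u ∈ s, ‖W u x‖ ^ 2))) ≤ ENNReal.ofReal C := by
  rw [n2_le_iff]
  have e1 : ∀ x, ENNReal.ofReal (Real.sqrt (∑ u ∈ s, ‖W u x‖ ^ 2)) ^ 2 =
      ∑ u ∈ s, ‖W u x‖ₑ ^ 2 := by
    intro x
    rw [← ENNReal.ofReal_pow (Real.sqrt_nonneg _), Real.sq_sqrt (by positivity),
      ENNReal.ofReal_sum_of_nonneg (fun i _ => by positivity)]
    refine Finset.sum_congr rfl fun u _ => ?_
    rw [ENNReal.ofReal_pow (norm_nonneg _), ofReal_norm]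
  simp only [e1]
  rw [lintegral_finsetSum' s (fun u _ => ((Lp.aestronglyMeasurable (W u)).enorm.pow_const 2))]
  have e2 : ∀ u ∈ s, ∫⁻ x, ‖W u x‖ₑ ^ 2 ∂μ = ENNReal.ofReal (‖W u‖ ^ 2) := by
    intro u _
    rw [← n2_sq (fun x => ‖W u x‖ₑ), n2_Lp, ENNReal.ofReal_pow (norm_nonneg _), ofReal_norm]
  rw [Finset.sum_congr rfl e2, ← ENNReal.ofReal_sum_of_nonneg (fun i _ => by positivity),
    ← ENNReal.ofReal_pow hC]
  exact ENNReal.ofReal_le_ofReal h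

end RMopAux

theorem rm_op (Y : ℕ → Lp ℂ 2 μ →L[ℂ] Lp ℂ 2 μ) (a n S : ℕ) {ε ε' : ℝ} (hε : 0 ≤ ε) (hε' : 0 ≤ ε')
    (h1 : ∀ k, a ≤ k → k ≤ a + 2 ^ n → ‖Y k‖ ≤ ε)
    (h2 : ∀ k1 k2 l1 l2, a ≤ l1 → a ≤ l2 → k1 ≤ a + 2 ^ n → k2 ≤ a + 2 ^ n → l1 + S ≤ k1 →
      l2 + S ≤ k1 → l1 + S ≤ k2 → l2 + S ≤ k2 →
      ‖(Y k1 - Y k2) * ContinuousLinearMap.adjoint (Y l1 - Y l2)‖ ≤ ε') (f : Lp ℂ 2 μ) :
    MS {k | a ≤ k ∧ k ≤ a + 2 ^ n} (fun k => Y k f) ≤
      ENNReal.ofReal ((ε + (n + 1) * Real.sqrt (ε ^ 2 * (8 * S + 8) + 2 ^ n * ε')) * ‖f‖) := by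
  set B : ℝ := ε ^ 2 * (8 * S + 8) + 2 ^ n * ε' with hB
  have hB0 : 0 ≤ B := by positivity
  set v : ℕ → α → ℝ≥0∞ := fun l x => ENNReal.ofReal (Real.sqrt (∑ u ∈ range (2 ^ (n - l)),
    ‖(Y (a + (u + 1) * 2 ^ l) f) x - (Y (a + u * 2 ^ l) f) x‖ ^ 2)) with hv
  have step1 : MS {k | a ≤ k ∧ k ≤ a + 2 ^ n} (fun k => Y k f) ≤
      n2 μ (fun x => ‖(Y a f) x‖ₑ + ∑ l ∈ range (n + 1), v l x) := by
    refine MS_le_n2 fun k hk => Eventually.of_forall fun x => ?_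
    obtain ⟨hk1, hk2⟩ := hk
    obtain ⟨t, rfl⟩ := Nat.exists_eq_add_of_le hk1
    have h := Pool.PolyMax.rm (fun k => (Y k f) x) a n t (by omega)
    have h' := ENNReal.ofReal_le_ofReal h
    rw [ofReal_norm, ENNReal.ofReal_add (norm_nonneg _)
      (Finset.sum_nonneg fun i _ => Real.sqrt_nonneg _), ofReal_norm,
      ENNReal.ofReal_sum_of_nonneg (fun i _ => Real.sqrt_nonneg _)] at h'
    exact h'
  have hm : ∀ l, AEMeasurable (v l) μ := by
    intro l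
    have : AEMeasurable (fun x => Real.sqrt (∑ u ∈ range (2 ^ (n - l)),
        ‖(Y (a + (u + 1) * 2 ^ l) f) x - (Y (a + u * 2 ^ l) f) x‖ ^ 2)) μ := by
      apply AEMeasurable.sqrt
      refine Finset.aemeasurable_fun_sum _ fun u _ => ?_
      exact (((Lp.aestronglyMeasurable _).sub (Lp.aestronglyMeasurable _)).norm.aemeasurable).pow_const 2
    exact this.ennreal_ofReal
  have step2 : ∀ l ∈ range (n + 1), n2 μ (v l) ≤ ENNReal.ofReal (Real.sqrt B * ‖f‖) := by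
    intro l hl
    rw [mem_range] at hl
    have hcol := column (range (2 ^ (n - l)))
      (fun u => Y (a + (u + 1) * 2 ^ l) - Y (a + u * 2 ^ l)) hB0
      (fun u hu => RMopAux.col_bound Y a n S hε hε' h1 h2 l (by omega) u (mem_range.mp hu)) f
    have hae : ∀ᵐ x ∂μ, v l x = ENNReal.ofReal (Real.sqrt (∑ u ∈ range (2 ^ (n - l)),
        ‖((Y (a + (u + 1) * 2 ^ l) f - Y (a + u * 2 ^ l) f : Lp ℂ 2 μ)) x‖ ^ 2)) := by
      have : ∀ᵐ x ∂μ, ∀ u : ℕ, (Y (a + (u + 1) * 2 ^ l) f - Y (a + u * 2 ^ l) f : Lp ℂ 2 μ) x =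
          (Y (a + (u + 1) * 2 ^ l) f) x - (Y (a + u * 2 ^ l) f) x := by
        rw [ae_all_iff]
        intro u
        exact Lp.coeFn_sub _ _
      filter_upwards [this] with x hx
      simp only [hv, hx]
    rw [n2_congr hae]
    refine RMopAux.n2_sqrt_sum (range (2 ^ (n - l)))
      (fun u => Y (a + (u + 1) * 2 ^ l) f - Y (a + u * 2 ^ l) f) (by positivity) ?_
    rw [mul_pow, Real.sq_sqrt hB0]
    exact hcol
  have step3 : n2 μ (fun x => ‖(Y a f) x‖ₑ) ≤ ENNReal.ofReal (ε * ‖f‖) := by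
    rw [n2_Lp, ← ofReal_norm]
    apply ENNReal.ofReal_le_ofReal
    refine ((Y a).le_opNorm f).trans ?_
    gcongr
    exact h1 a le_rfl (Nat.le_add_right _ _)
  calc MS {k | a ≤ k ∧ k ≤ a + 2 ^ n} (fun k => Y k f)
      ≤ n2 μ (fun x => ‖(Y a f) x‖ₑ + ∑ l ∈ range (n + 1), v l x) := step1
    _ ≤ n2 μ (fun x => ‖(Y a f) x‖ₑ) + n2 μ (fun x => ∑ l ∈ range (n + 1), v l x) :=
        n2_add (Lp.aestronglyMeasurable _).enorm (Finset.aemeasurable_fun_sum _ fun l _ => hm l)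
    _ ≤ ENNReal.ofReal (ε * ‖f‖) + ∑ l ∈ range (n + 1), n2 μ (v l) :=
        add_le_add step3 (n2_sum_le _ fun l _ => hm l)
    _ ≤ ENNReal.ofReal (ε * ‖f‖) + ∑ _l ∈ range (n + 1), ENNReal.ofReal (Real.sqrt B * ‖f‖) :=
        add_le_add le_rfl (Finset.sum_le_sum step2)
    _ = ENNReal.ofReal ((ε + (n + 1) * Real.sqrt B) * ‖f‖) := by
        rw [Finset.sum_const, card_range, nsmul_eq_mul, ← ENNReal.ofReal_natCast,
          ← ENNReal.ofReal_mul (by positivity), ← ENNReal.ofReal_add (by positivity)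
          (by positivity)]
        congr 1
        push_cast
        ring

end Pool.Nil
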