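import Pool.Agent.Nil.MainS
import Pool.Agent.Nil.RMop
import Pool.Agent.Nil.OpA
import Pool.Agent.Nil.OpB

set_option autoImplicit false

/-!
# Nil: decomposition of the averages at dyadic scales

PROOF of `decomp`.  Let `k` be in the block `i`, `i1 ≤ i`, `A = Al (N k) 1`, `Bm = B2 (Qs c i) (2^i / 2)`,
`Br s = B2 (Qs c s) (rr c k)`.  Then
`A = A (1 - Bm) + A ((1 - Br i) Bm) + A (Br i Bm - Br i) + ∑_{s ∈ Ioc i1 i} A (Br s - Br (s-1)) + A Br i1`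
(telescoping), and by `opB2`, `opB3`, `opB4` (for `s ∈ Ioc i1 i`) and `opB5` (`s = i1`) this is
`A (1 - Bm) + ∑_{s ∈ Icc i1 i} Dk c s N k * hs c i1 s + error`, with an error of norm at most
`3 / 2^(2i) + 1 / 2^(k/8) + (i - i1) / 2^(k/8) + 1 / 2^(k/8) ≤ er k`.

PROOF of `er_summable`: `2^(2 log2 k) ≥ k^2 / 4`, `2^(k/8) ≥ 2^(k/8 - 1)` (real exponent), `log2 k ≤ k`.

PROOF of `norm_hs`: `opTh`.

PROOF of `yPart`.  `rm_op` with `a = 2^i`, `n = i` (`a + 2^n = 2^(i+1)`), `S = Sp c i`, `ε = 3 / 2^(i / (4c))` (`opA`),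
`ε' = C / 2^(4i)` (`opAO`; `(Al k1 - Al k2) * E = Y k1 - Y k2`): the bound is `y i * ‖f‖` with
`y i = ε + (i+1) √(ε^2 (8 (8c+10) i + 8) + C 2^i / 2^(4i))`, and `y` is summable: with `rho = 2^(-1/(4c)) < 1` (real power)
`1 / 2^(i/(4c)) ≤ 2 rho^i`, `√(a + b) ≤ √a + √b`, `√(8 (8c+10) i + 8) ≤ 8 (8c+10) (i+1)`, so
`y i ≤ K (i+1)^2 rho^i + K (i+1) 2^(-i)` (`summable_pow_mul_geometric_of_norm_lt_one`).
-/

namespace Pool.Nil

open Finset MeasureTheory Filter Topology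
open scoped ENNReal NNReal

variable {G : Type*} [Group G] {α : Type*} [MeasurableSpace α] {μ : Measure α}

namespace DecompAux

/-- the geometric rate of `2 ^ (i / m)` -/
noncomputable def rho (m : ℕ) : ℝ := (2 : ℝ) ^ (-(1 / (m : ℝ)))

lemma rho_pos (m : ℕ) : 0 < rho m := Real.rpow_pos_of_pos two_pos _

lemma rho_lt_one {m : ℕ} (hm : 1 ≤ m) : rho m < 1 := by
  unfold rho
  apply Real.rpow_lt_one_of_one_lt_of_neg one_lt_two
  have : (0 : ℝ) < m := by exact_mod_cast hm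
  have h2 : 0 < 1 / (m : ℝ) := by positivity
  linarith

lemma inv_pow_div_le {m : ℕ} (hm : 1 ≤ m) (i : ℕ) : ((2 : ℝ) ^ (i / m))⁻¹ ≤ 2 * rho m ^ i := by
  have hm0 : (0 : ℝ) < m := by exact_mod_cast hm
  have h1 : (i : ℝ) ≤ (m : ℝ) * ((i / m : ℕ) : ℝ) + m := by
    have h2 : i < m * (i / m + 1) := Nat.lt_mul_div_succ i (by omega)
    have h2' : i ≤ m * (i / m) + m := by rw [mul_add, mul_one] at h2; exact h2.le
    exact_mod_cast h2'
  have h3 : (i : ℝ) / m ≤ ((i / m : ℕ) : ℝ) + 1 := by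
    rw [div_le_iff₀ hm0]
    linarith
  have e1 : rho m ^ i = ((2 : ℝ) ^ ((i : ℝ) / m))⁻¹ := by
    unfold rho
    rw [← Real.rpow_natCast, ← Real.rpow_mul two_pos.le, ← Real.rpow_neg two_pos.le]
    congr 1
    ring
  rw [e1, ← div_eq_mul_inv, inv_eq_one_div, div_le_div_iff₀ (by positivity) (by positivity),
    one_mul]
  calc (2 : ℝ) ^ ((i : ℝ) / m) ≤ (2 : ℝ) ^ (((i / m : ℕ) : ℝ) + 1) :=
        Real.rpow_le_rpow_of_exponent_le one_le_two h3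
    _ = 2 * 2 ^ (i / m) := by
        rw [Real.rpow_add two_pos, Real.rpow_one, Real.rpow_natCast]
        ring

lemma summable_sq {a : ℕ → ℝ} (h0 : ∀ k, 0 ≤ a k) (h : Summable a) : Summable fun k => a k ^ 2 := by
  have h1 : ∀ᶠ k in atTop, a k < 1 := h.tendsto_atTop_zero.eventually (gt_mem_nhds one_pos)
  refine Summable.of_norm_bounded_eventually_nat h ?_
  filter_upwards [h1] with k hk
  rw [Real.norm_eq_abs, abs_of_nonneg (sq_nonneg _), sq]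
  exact (mul_le_mul_of_nonneg_left hk.le (h0 k)).trans_eq (mul_one _)

lemma sqrt_add_le {a b : ℝ} (ha : 0 ≤ a) (hb : 0 ≤ b) :
    Real.sqrt (a + b) ≤ Real.sqrt a + Real.sqrt b := by
  apply Real.sqrt_le_iff.2
  refine ⟨by positivity, ?_⟩
  have h1 := Real.sq_sqrt ha
  have h2 := Real.sq_sqrt hb
  have h3 := mul_nonneg (Real.sqrt_nonneg a) (Real.sqrt_nonneg b)
  nlinarith

lemma inv_log_le (k : ℕ) : ((2 : ℝ) ^ (2 * Nat.log 2 k))⁻¹ ≤ 4 * (((k : ℝ) + 1) ^ 2)⁻¹ := by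
  have h1 : k + 1 ≤ 2 * 2 ^ Nat.log 2 k := by
    have := Nat.lt_pow_succ_log_self (b := 2) (by norm_num) k
    rw [pow_succ] at this
    omega
  have h2 : (k : ℝ) + 1 ≤ 2 * 2 ^ Nat.log 2 k := by exact_mod_cast h1
  have h3 : ((k : ℝ) + 1) ^ 2 ≤ 4 * 2 ^ (2 * Nat.log 2 k) := by
    calc ((k : ℝ) + 1) ^ 2 ≤ (2 * 2 ^ Nat.log 2 k) ^ 2 :=
          pow_le_pow_left₀ (by positivity) h2 2
      _ = 4 * 2 ^ (2 * Nat.log 2 k) := by
          rw [pow_mul']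
          ring
  rw [← div_eq_mul_inv, inv_eq_one_div, div_le_div_iff₀ (by positivity) (by positivity), one_mul]
  exact h3

end DecompAux

/-- the small error at scale `k` -/
noncomputable def er (k : ℕ) : ℝ :=
  3 * ((2 : ℝ) ^ (2 * Nat.log 2 k))⁻¹ + (k + 3) * ((2 : ℝ) ^ (k / 8))⁻¹

lemma er_nonneg (k : ℕ) : 0 ≤ er k := by
  unfold er
  positivity

lemma er_summable : Summable fun k => er k ^ 2 := by
  apply DecompAux.summable_sq er_nonneg
  have hr0 := DecompAux.rho_pos 8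
  have hr : ‖DecompAux.rho 8‖ < 1 := by
    rw [Real.norm_eq_abs, abs_of_pos hr0]
    exact DecompAux.rho_lt_one (by norm_num)
  have s1 : Summable fun k : ℕ => (((k : ℝ) + 1) ^ 2)⁻¹ := by
    have := (summable_nat_add_iff 1).2 (Real.summable_nat_pow_inv.2 (one_lt_two : 1 < 2))
    simpa using this
  have s2 := summable_pow_mul_geometric_of_norm_lt_one 1 hr
  have s3 := summable_pow_mul_geometric_of_norm_lt_one 0 hr
  refine Summable.of_nonneg_of_le er_nonneg (fun k => ?_)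
    (((s1.mul_left 12).add ((s2.mul_left 2).add (s3.mul_left 6))))
  have h1 := DecompAux.inv_log_le k
  have h2 := DecompAux.inv_pow_div_le (m := 8) (by norm_num) k
  unfold er
  have h3 : ((k : ℝ) + 3) * ((2 : ℝ) ^ (k / 8))⁻¹ ≤ (k + 3) * (2 * DecompAux.rho 8 ^ k) :=
    mul_le_mul_of_nonneg_left h2 (by positivity)
  simp only [pow_one, pow_zero, one_mul]
  linarith

namespace Frame

variable {g : ℤ → G} (fr : Frame g) (U : G →* (Lp ℂ 2 μ ≃ₗᵢ[ℂ] Lp ℂ 2 μ))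

/-- the inner averages -/
noncomputable def hs (c i1 s : ℕ) : Lp ℂ 2 μ →L[ℂ] Lp ℂ 2 μ :=
  if s = i1 then Al U g (fr.ls c s) 1
  else Al U g (fr.ls c s) 1 * (1 - fr.Ga U (Qs c (s - 1)) (Qs c s / Qs c (s - 1)))

/-- the part without small denominators, block `i` -/
noncomputable def Yk (c i : ℕ) (N : ℕ → ℕ) (k : ℕ) : Lp ℂ 2 μ →L[ℂ] Lp ℂ 2 μ :=
  Al U g (N k) 1 * (1 - fr.B2 U (Qs c i) (2 ^ i / 2))

theorem decomp {c : ℕ} {K : ℝ} (hP : fr.Pack U c K) : ∃ i0 : ℕ, ∀ i1 i, i0 ≤ i1 → i1 ≤ i →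
    ∀ N : ℕ → ℕ, Dy N → ∀ k, 2 ^ i ≤ k → k < 2 ^ (i + 1) →
    ‖Al U g (N k) 1 - (fr.Yk U c i N k + ∑ s ∈ Icc i1 i, fr.Dk U c s N k * fr.hs U c i1 s)‖ ≤
      er k := by
  obtain ⟨a2, h2⟩ := fr.opB2 U hP
  obtain ⟨a3, h3⟩ := fr.opB3 U hP
  obtain ⟨a4, h4⟩ := fr.opB4 U hP
  obtain ⟨a5, h5⟩ := fr.opB5 U hP
  refine ⟨a2 + a3 + a4 + a5 + 1, fun i1 i hi1 hi N hN k hk hk' => ?_⟩
  have hlog : Nat.log 2 k = i := by
    rw [Nat.log_eq_iff (Or.inr ⟨by norm_num, by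
      have : 0 < 2 ^ i := by positivity
      omega⟩)]
    exact ⟨hk, hk'⟩
  set A : Lp ℂ 2 μ →L[ℂ] Lp ℂ 2 μ := Al U g (N k) 1 with hA
  set Bm : Lp ℂ 2 μ →L[ℂ] Lp ℂ 2 μ := fr.B2 U (Qs c i) (2 ^ i / 2) with hBm
  set Br : ℕ → (Lp ℂ 2 μ →L[ℂ] Lp ℂ 2 μ) := fun s => fr.B2 U (Qs c s) (rr c k) with hBr
  set t : ℝ := ((2 : ℝ) ^ (k / 8))⁻¹ with ht
  have ht0 : 0 ≤ t := by positivity
  have e2 : ‖A * ((1 - Br i) * Bm)‖ ≤ 3 * ((2 : ℝ) ^ (2 * i))⁻¹ := h2 i (by omega) N hN k hk hk'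
  have e3 : ‖A * (Br i * Bm - Br i)‖ ≤ t := h3 i (by omega) N hN k hk hk'
  have e4 : ∀ s ∈ Ioc i1 i, ‖A * (Br s - Br (s - 1)) - fr.Dk U c s N k * fr.hs U c i1 s‖ ≤ t := by
    intro s hs
    rw [mem_Ioc] at hs
    have := h4 s i (by omega) (by omega) hs.2 N hN k hk hk'
    unfold Dk Frame.hs
    rw [if_neg (by omega), mul_assoc]
    exact this
  have e5 : ‖A * Br i1 - fr.Dk U c i1 N k * fr.hs U c i1 i1‖ ≤ t := by
    have := h5 i1 i (by omega) hi N hN k hk hk'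
    unfold Dk Frame.hs
    rw [if_pos rfl, mul_assoc]
    exact this
  -- telescoping
  have tel : ∀ j, i1 ≤ j → A * Br j = ∑ s ∈ Ioc i1 j, A * (Br s - Br (s - 1)) + A * Br i1 := by
    intro j hj
    induction j, hj using Nat.le_induction with
    | base => simp
    | succ j hj ih =>
      rw [← Finset.insert_Ioc_right_eq_Ioc_add_one hj, Finset.sum_insert (by simp), add_assoc, ← ih,
        Nat.add_sub_cancel, mul_sub]
      abel
  have sum : ∑ s ∈ Icc i1 i, fr.Dk U c s N k * fr.hs U c i1 s =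
      ∑ s ∈ Ioc i1 i, fr.Dk U c s N k * fr.hs U c i1 s + fr.Dk U c i1 N k * fr.hs U c i1 i1 := by
    rw [← Finset.Icc_erase_left, add_comm]
    exact (Finset.add_sum_erase (Icc i1 i) (fun s => fr.Dk U c s N k * fr.hs U c i1 s)
      (by rw [mem_Icc]; exact ⟨le_rfl, hi⟩)).symm
  have key : A - (fr.Yk U c i N k + ∑ s ∈ Icc i1 i, fr.Dk U c s N k * fr.hs U c i1 s) =
      A * ((1 - Br i) * Bm) + A * (Br i * Bm - Br i) +
      ∑ s ∈ Ioc i1 i, (A * (Br s - Br (s - 1)) - fr.Dk U c s N k * fr.hs U c i1 s) +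
      (A * Br i1 - fr.Dk U c i1 N k * fr.hs U c i1 i1) := by
    have hY : fr.Yk U c i N k = A * (1 - Bm) := rfl
    rw [sum, Finset.sum_sub_distrib, hY, mul_sub A (Br i * Bm) (Br i), tel i hi]
    simp only [sub_mul, mul_sub, one_mul, mul_one, Finset.sum_sub_distrib]
    abel
  rw [key]
  have e6 : ‖∑ s ∈ Ioc i1 i, (A * (Br s - Br (s - 1)) - fr.Dk U c s N k * fr.hs U c i1 s)‖ ≤
      (k : ℝ) * t := by
    refine (norm_sum_le _ _).trans ((Finset.sum_le_card_nsmul _ _ _ e4).trans ?_)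
    rw [Nat.card_Ioc, nsmul_eq_mul]
    refine mul_le_mul_of_nonneg_right ?_ ht0
    have h7 : i - i1 ≤ k := by
      have h8 : i < 2 ^ i := Nat.lt_two_pow_self
      omega
    exact_mod_cast h7
  unfold er
  rw [hlog]
  calc _ ≤ ‖A * ((1 - Br i) * Bm)‖ + ‖A * (Br i * Bm - Br i)‖ +
        ‖∑ s ∈ Ioc i1 i, (A * (Br s - Br (s - 1)) - fr.Dk U c s N k * fr.hs U c i1 s)‖ +
        ‖A * Br i1 - fr.Dk U c i1 N k * fr.hs U c i1 i1‖ :=
        (norm_add_le _ _).trans (add_le_add_left ((norm_add_le _ _).trans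
          (add_le_add_left (norm_add_le _ _) _)) _)
    _ ≤ 3 * ((2 : ℝ) ^ (2 * i))⁻¹ + t + k * t + t := by gcongr
    _ ≤ _ := by
        rw [← ht]
        nlinarith

theorem norm_hs {c : ℕ} {K : ℝ} (hP : fr.Pack U c K) : ∃ i0 : ℕ, ∀ i1 s, i0 ≤ i1 → i1 < s →
    ‖fr.hs U c i1 s‖ ≤ 3 * ((2 : ℝ) ^ ((s - 1) / (4 * c)))⁻¹ := by
  obtain ⟨i0, h⟩ := fr.opTh U hP
  refine ⟨i0, fun i1 s h1 h2 => ?_⟩
  unfold Frame.hs
  rw [if_neg (by omega)]
  exact h s (by omega) (by omega)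

lemma norm_hs_le (c i1 s : ℕ) : ‖fr.hs U c i1 s‖ ≤ 2 := by
  unfold Frame.hs
  split_ifs
  · exact (norm_Al_le U g _ _).trans one_le_two
  · have h1 := norm_Al_le U g (fr.ls c s) 1
    have h2 := fr.norm_Ga_le U (Qs c (s - 1)) (Qs c s / Qs c (s - 1))
    have h3 : ‖(1 : Lp ℂ 2 μ →L[ℂ] Lp ℂ 2 μ)‖ ≤ 1 := ContinuousLinearMap.norm_id_le
    calc _ ≤ ‖Al U g (fr.ls c s) 1‖ * ‖1 - fr.Ga U (Qs c (s - 1)) (Qs c s / Qs c (s - 1))‖ :=
          norm_mul_le _ _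
      _ ≤ 1 * (1 + 1) := mul_le_mul h1 ((norm_sub_le _ _).trans (add_le_add h3 h2))
          (norm_nonneg _) zero_le_one
      _ = 2 := by norm_num

theorem yPart {c : ℕ} {K : ℝ} (hP : fr.Pack U c K) : ∃ (y : ℕ → ℝ) (i0 : ℕ), Summable y ∧
    (∀ i, 0 ≤ y i) ∧ ∀ i, i0 ≤ i → ∀ N : ℕ → ℕ, Dy N → ∀ f : Lp ℂ 2 μ,
      MS {k | 2 ^ i ≤ k ∧ k < 2 ^ (i + 1)} (fun k => fr.Yk U c i N k f) ≤
        ENNReal.ofReal (y i * ‖f‖) := by
  obtain ⟨a1, h1⟩ := fr.opA U hP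
  obtain ⟨C, a2, hC, h2⟩ := fr.opAO U hP
  have hc := hP.one_le_c
  have h4c : 1 ≤ 4 * c := by omega
  set ε : ℕ → ℝ := fun i => 3 * ((2 : ℝ) ^ (i / (4 * c)))⁻¹ with hε
  set ε' : ℕ → ℝ := fun i => C * ((2 : ℝ) ^ (4 * i))⁻¹ with hε'
  have hε0 : ∀ i, 0 ≤ ε i := fun i => by simp only [hε]; positivity
  have hε'0 : ∀ i, 0 ≤ ε' i := fun i => by simp only [hε']; positivity
  refine ⟨fun i => ε i + ((i : ℝ) + 1) *
    Real.sqrt (ε i ^ 2 * (8 * (Sp c i : ℕ) + 8) + 2 ^ i * ε' i), a1 + a2, ?_, ?_, ?_⟩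
  · -- summability
    set r := DecompAux.rho (4 * c) with hr
    have hr0 : 0 < r := DecompAux.rho_pos _
    have hr1 : ‖r‖ < 1 := by
      rw [Real.norm_eq_abs, abs_of_pos hr0]
      exact DecompAux.rho_lt_one h4c
    have hh1 : ‖(1 / 2 : ℝ)‖ < 1 := by
      rw [Real.norm_eq_abs, abs_of_pos (by norm_num)]
      norm_num
    have s0 := summable_pow_mul_geometric_of_norm_lt_one 0 hr1
    have s1 := summable_pow_mul_geometric_of_norm_lt_one 1 hr1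
    have s2 := summable_pow_mul_geometric_of_norm_lt_one 2 hr1
    have t0 := summable_pow_mul_geometric_of_norm_lt_one 0 hh1
    have t1 := summable_pow_mul_geometric_of_norm_lt_one 1 hh1
    set D : ℝ := 8 * (8 * c + 10) with hD
    have hD0 : 0 ≤ D := by positivity
    refine Summable.of_nonneg_of_le (fun i => add_nonneg (hε0 i)
      (mul_nonneg (by positivity) (Real.sqrt_nonneg _))) (fun i => ?_)
      (((s0.mul_left (6 + 48)).add ((s1.mul_left (6 * D + 48)).add (s2.mul_left (6 * D)))).add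
        ((t0.mul_left (Real.sqrt C)).add (t1.mul_left (Real.sqrt C))))
    have e1 : ε i ≤ 6 * r ^ i := by
      have := DecompAux.inv_pow_div_le h4c i
      simp only [hε]
      linarith
    have e2 : Real.sqrt (ε i ^ 2 * (8 * (Sp c i : ℕ) + 8)) ≤ 6 * r ^ i * (D * i + 8) := by
      apply Real.sqrt_le_iff.2
      have h6 : (8 * ((Sp c i : ℕ) : ℝ) + 8) = D * i + 8 := by
        unfold Sp
        push_cast
        ring
      have h7 : 1 ≤ D * i + 8 := by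
        have : 0 ≤ D * i := by positivity
        linarith
      refine ⟨by positivity, ?_⟩
      rw [h6, mul_pow (6 * r ^ i)]
      refine mul_le_mul (pow_le_pow_left₀ (hε0 i) e1 2) ?_ (by positivity) (by positivity)
      nlinarith
    have e3 : Real.sqrt (2 ^ i * ε' i) ≤ Real.sqrt C * (1 / 2) ^ i := by
      have h8 : (2 : ℝ) ^ i * ε' i ≤ C * ((1 / 2) ^ i) ^ 2 := by
        simp only [hε']
        have h9 : (2 : ℝ) ^ i * ((2 : ℝ) ^ (4 * i))⁻¹ ≤ ((1 / 2) ^ i) ^ 2 := by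
          rw [← div_eq_mul_inv, div_le_iff₀ (by positivity), ← pow_mul, one_div, inv_pow,
            ← div_eq_inv_mul, le_div_iff₀ (by positivity), ← pow_add]
          exact pow_le_pow_right₀ one_le_two (by omega)
        calc (2 : ℝ) ^ i * (C * ((2 : ℝ) ^ (4 * i))⁻¹) = C * ((2 : ℝ) ^ i * ((2 : ℝ) ^ (4 * i))⁻¹) := by
              ring
          _ ≤ _ := mul_le_mul_of_nonneg_left h9 hC.le
      refine (Real.sqrt_le_sqrt h8).trans_eq ?_
      rw [Real.sqrt_mul hC.le, Real.sqrt_sq (by positivity)]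
    have e4 : Real.sqrt (ε i ^ 2 * (8 * (Sp c i : ℕ) + 8) + 2 ^ i * ε' i) ≤
        6 * r ^ i * (D * i + 8) + Real.sqrt C * (1 / 2) ^ i :=
      (DecompAux.sqrt_add_le (by have := hε0 i; positivity)
        (by have := hε'0 i; positivity)).trans (add_le_add e2 e3)
    calc ε i + ((i : ℝ) + 1) * Real.sqrt (ε i ^ 2 * (8 * (Sp c i : ℕ) + 8) + 2 ^ i * ε' i)
        ≤ 6 * r ^ i + ((i : ℝ) + 1) * (6 * r ^ i * (D * i + 8) + Real.sqrt C * (1 / 2) ^ i) :=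
          add_le_add e1 (mul_le_mul_of_nonneg_left e4 (by positivity))
      _ = _ := by ring
  · exact fun i => add_nonneg (hε0 i) (mul_nonneg (by positivity) (Real.sqrt_nonneg _))
  · intro i hi N hN f
    have hpow : 2 ^ i + 2 ^ i = 2 ^ (i + 1) := by ring
    have hrm := rm_op (fun k => fr.Yk U c i N k) (2 ^ i) i (Sp c i) (hε0 i) (hε'0 i)
      (fun k hk hk' => h1 i (by omega) N hN k hk (by omega))
      (fun k1 k2 l1 l2 hl1 hl2 hk1 hk2 h3 h4 h5 h6 => by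
        have := h2 i (by omega) N hN k1 k2 l1 l2 hl1 hl2 (by omega) (by omega) h3 h4 h5 h6
        simp only [sub_mul] at this
        exact this) f
    refine (MS_mono_set (fun k hk => ?_) _).trans hrm
    exact ⟨hk.1, by have := hk.2; omega⟩

end Frame

end Pool.Nil
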