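import Pool.Agent.Nil.Decomp
import Pool.Agent.Nil.PackEx

set_option autoImplicit false

/-!
# Nil: the maximal inequality and convergence along dyadic sequences of lengths

PROOF of `dyad`.  `exists_pack` gives `c, K`; let `i0` be at least the thresholds of `mainS`, `decomp`, `norm_hs`, `yPart`, with
constant `C1` from `mainS`.  For `i1 ≥ i0`, `k ≥ 2^i1`, `i = Nat.log 2 k ≥ i1`:
`Al (N k) 1 f = ∑_{s ∈ Icc i1 i} Dk s (hs s f) + Yk i f + E k f`, `‖E k f‖ ≤ er k ‖f‖` (define `E k` as the difference).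
(a) `MS {k ≥ 2^i1} (E k f) ≤ (∑'_{k ≥ 2^i1} er k^2)^(1/2) ‖f‖` (`MS_le_of_sq`).
(b) `MS {k ≥ 2^i1} (Yk (log2 k) f) ≤ ∑'_{i ≥ i1} y i ‖f‖` (`MS_cover` with the blocks; `MS_congr` on each block).
(c) for `i1 ≤ s1`: `MS {k ≥ 2^s1} (∑_{s ∈ Icc i1 (log2 k), s1 < s} Dk s (hs s f)) ≤ ∑'_{s > s1} 3 C1 2^(-((s-1)/(4c))) ‖f‖`
 (`MS_sum_le`: the index `s` occurs only for `k ≥ 2^s`, `mainS`, `norm_hs`; the series over `s` is convergent:
 `1 / 2^((s-1)/(4c)) ≤ 2 rho^(s-1)`, `rho = 2^(-1/(4c))`).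
Maximal inequality: take `i1 = i0`: on `{k ≥ 2^i0}` the sum of (a), (b), (c) with `s1 = i0`, and `C1 ‖hs i0 f‖ ≤ 2 C1 ‖f‖` for the
term `s = i0`; on `{k < 2^i0}`: `MS_finset_le`, `‖Al‖ ≤ 1`.  All constants are independent of `N` and `f`.
Convergence (`cv_closure`): `i1 = i0`; given `ε > 0` choose `s1 ≥ i0` such that the bounds (a), (b) for `k ≥ 2^s1` and (c) are at
most `ε / 3`; `F' k = ∑_{s ∈ Icc i0 s1} Dk s (hs s f)` converges a.e. (`mainS`, `Cv.sum`), `F'' k` is the rest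
for `k ≥ k0 = 2^(s1)`.
-/

namespace Pool.Nil

open Finset MeasureTheory Filter Topology
open scoped ENNReal NNReal

variable {G : Type*} [Group G] {α : Type*} [MeasurableSpace α] {μ : Measure α}

namespace DyadAux

lemma summable_floor {m : ℕ} (hm : 1 ≤ m) : Summable (fun s : ℕ => ((2 : ℝ) ^ (s / m))⁻¹) := by
  have hm0 : (0 : ℝ) < m := by exact_mod_cast hm
  have h0 : (0 : ℝ) ≤ (2 : ℝ) ^ (-(1 / (m : ℝ))) := by positivity
  have h1 : (2 : ℝ) ^ (-(1 / (m : ℝ))) < 1 := by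
    apply Real.rpow_lt_one_of_one_lt_of_neg (by norm_num)
    rw [neg_lt_zero]
    positivity
  refine Summable.of_nonneg_of_le (fun s => by positivity) (fun s => ?_)
    ((summable_geometric_of_lt_one h0 h1).mul_left 2)
  have h2 : ((2 : ℝ) ^ (-(1 / (m : ℝ)))) ^ s = (2 : ℝ) ^ (-((s : ℝ) / m)) := by
    rw [← Real.rpow_natCast, ← Real.rpow_mul (by norm_num)]
    congr 1
    field_simp
  have h3 : ((2 : ℝ) ^ (s / m))⁻¹ = (2 : ℝ) ^ (-((s / m : ℕ) : ℝ)) := by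
    rw [Real.rpow_neg (by norm_num), Real.rpow_natCast]
  have h4 : (2 : ℝ) * (2 : ℝ) ^ (-((s : ℝ) / m)) = (2 : ℝ) ^ (1 + -((s : ℝ) / m)) := by
    rw [Real.rpow_add (by norm_num), Real.rpow_one]
  rw [h2, h3, h4]
  apply Real.rpow_le_rpow_of_exponent_le (by norm_num)
  have h5 : (s : ℝ) / m ≤ ((s / m : ℕ) : ℝ) + 1 := by
    rw [div_le_iff₀ hm0]
    have h6 : s < (s / m + 1) * m := by
      rw [add_mul, one_mul]
      exact Nat.lt_div_mul_add (by omega)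
    exact_mod_cast h6.le
  linarith

/-- a finite sum over indices `≥ n` is at most the tail -/
lemma sum_le_tail {f : ℕ → ℝ} (hf : Summable f) (h0 : ∀ k, 0 ≤ f k) (n : ℕ) (s : Finset ℕ)
    (hs : ∀ k ∈ s, n ≤ k) : ∑ k ∈ s, f k ≤ ∑' j, f (j + n) := by
  have h1 : ∑ k ∈ s, f k = ∑ j ∈ s.image (fun k => k - n), f (j + n) := by
    rw [Finset.sum_image]
    · refine Finset.sum_congr rfl fun k hk => ?_
      rw [Nat.sub_add_cancel (hs k hk)]
    · intro a ha b hb hab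
      have h2 := hs a ha
      have h3 := hs b hb
      simp only at hab
      omega
  rw [h1]
  exact ((summable_nat_add_iff n).2 hf).sum_le_tsum _ (fun j _ => h0 _)

lemma MS_empty {F : ℕ → Lp ℂ 2 μ} : MS (∅ : Set ℕ) F = 0 := by
  have h : MS (∅ : Set ℕ) F ≤ ENNReal.ofReal 0 := by
    apply MS_le_of_sq le_rfl
    intro s hs
    have : s = ∅ := Finset.eq_empty_of_forall_notMem fun k hk => (hs k hk).elim
    rw [this]
    simp
  rw [ENNReal.ofReal_zero] at h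
  exact le_antisymm h zero_le

lemma MS_union (F : ℕ → Lp ℂ 2 μ) (n : ℕ) :
    MS Set.univ F ≤ MS ((Finset.range n : Finset ℕ) : Set ℕ) F + MS {k | n ≤ k} F := by
  have h := MS_cover (S := Set.univ) (I := fun i : ℕ => if i = 0 then
    ((Finset.range n : Finset ℕ) : Set ℕ) else if i = 1 then {k | n ≤ k} else ∅) (by
      intro k _
      rw [Set.mem_iUnion]
      by_cases hk : k < n
      · refine ⟨0, ?_⟩
        simpa using hk
      · refine ⟨1, ?_⟩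
        simpa using hk) F
  refine h.trans ?_
  rw [tsum_eq_sum (s := Finset.range 2)]
  · rw [Finset.sum_range_succ, Finset.sum_range_one]
    simp
  · intro i hi
    rw [Finset.mem_range, not_lt] at hi
    rw [if_neg (by omega), if_neg (by omega)]
    exact MS_empty

end DyadAux

namespace Frame

variable {g : ℤ → G} (fr : Frame g) (U : G →* (Lp ℂ 2 μ ≃ₗᵢ[ℂ] Lp ℂ 2 μ))

theorem DyadAux_parts (hBox : fr.BoxMax U) : ∃ (i0 : ℕ) (C1 : ℝ) (b : ℕ → ℝ), 0 ≤ C1 ∧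
    (∀ n, 0 ≤ b n) ∧ Tendsto b atTop (𝓝 0) ∧ ∀ N : ℕ → ℕ, Dy N → ∀ f : Lp ℂ 2 μ,
      ∃ D : ℕ → ℕ → Lp ℂ 2 μ, (∀ s, i0 ≤ s → Cv (D s)) ∧
        (∀ s, i0 ≤ s → MS {k | 2 ^ s ≤ k} (D s) ≤ ENNReal.ofReal (C1 * ‖f‖)) ∧
        ∀ s1, i0 ≤ s1 → ∃ F'' : ℕ → Lp ℂ 2 μ,
          (∀ k, 2 ^ s1 ≤ k → Al U g (N k) 1 f = ∑ s ∈ Icc i0 s1, D s k + F'' k) ∧
          MS {k | 2 ^ s1 ≤ k} F'' ≤ ENNReal.ofReal (b s1 * ‖f‖) := by
  obtain ⟨c, K, hP⟩ := fr.exists_pack U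
  obtain ⟨C1, iM, hC1, hmain⟩ := fr.mainS U hP hBox
  obtain ⟨iD, hdec⟩ := fr.decomp U hP
  obtain ⟨iH, hhs⟩ := fr.norm_hs U hP
  obtain ⟨y, iY, hysum, hy0, hyP⟩ := fr.yPart U hP
  obtain ⟨i0, hi0⟩ : ∃ i0 : ℕ, i0 = iM + iD + iH + iY := ⟨_, rfl⟩
  have hc : 1 ≤ 4 * c := by have := hP.one_le_c; omega
  obtain ⟨th, hth⟩ : ∃ th : ℕ → ℝ, th = fun s => 3 * ((2 : ℝ) ^ ((s - 1) / (4 * c)))⁻¹ := ⟨_, rfl⟩
  have hth0 : ∀ s, 0 ≤ th s := fun s => by rw [hth]; positivity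
  have hthsum : Summable th := by
    rw [← summable_nat_add_iff 1]
    have h1 : (fun n => th (n + 1)) = fun s : ℕ => 3 * ((2 : ℝ) ^ (s / (4 * c)))⁻¹ := by
      funext s
      rw [hth]
      simp
    rw [h1]
    exact (DyadAux.summable_floor hc).mul_left 3
  -- tails
  obtain ⟨Ta, hTa⟩ : ∃ Ta : ℕ → ℝ, Ta = fun n => ∑' j, er (j + n) ^ 2 := ⟨_, rfl⟩
  obtain ⟨Ty, hTy⟩ : ∃ Ty : ℕ → ℝ, Ty = fun n => ∑' j, y (j + n) := ⟨_, rfl⟩
  obtain ⟨Th, hTh⟩ : ∃ Th : ℕ → ℝ, Th = fun n => ∑' j, th (j + n) := ⟨_, rfl⟩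
  have hTa0 : ∀ n, 0 ≤ Ta n := fun n => by rw [hTa]; exact tsum_nonneg fun j => sq_nonneg _
  have hTy0 : ∀ n, 0 ≤ Ty n := fun n => by rw [hTy]; exact tsum_nonneg fun j => hy0 _
  have hTh0 : ∀ n, 0 ≤ Th n := fun n => by rw [hTh]; exact tsum_nonneg fun j => hth0 _
  have hTaT : Tendsto Ta atTop (𝓝 0) := by
    rw [hTa]; exact tendsto_sum_nat_add fun k => er k ^ 2
  have hTyT : Tendsto Ty atTop (𝓝 0) := by rw [hTy]; exact tendsto_sum_nat_add y
  have hThT : Tendsto Th atTop (𝓝 0) := by rw [hTh]; exact tendsto_sum_nat_add th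
  have hpow : Tendsto (fun n : ℕ => 2 ^ n) atTop (atTop : Filter ℕ) :=
    tendsto_pow_atTop_atTop_of_one_lt (by norm_num)
  refine ⟨i0, C1 * 2, fun n => Real.sqrt (Ta (2 ^ n)) + Ty n + C1 * Th (n + 1), by positivity,
    fun n => ?_, ?_, ?_⟩
  · have h1 := hTy0 n
    have h2 := mul_nonneg hC1 (hTh0 (n + 1))
    have h3 := Real.sqrt_nonneg (Ta (2 ^ n))
    linarith
  · have h1 : Tendsto (fun n : ℕ => Real.sqrt (Ta (2 ^ n))) atTop (𝓝 0) := by
      have h2 := (Real.continuous_sqrt.tendsto 0).comp (hTaT.comp hpow)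
      rw [Real.sqrt_zero] at h2
      exact h2
    have h3 : Tendsto (fun n : ℕ => C1 * Th (n + 1)) atTop (𝓝 0) := by
      have h4 := (hThT.comp (tendsto_add_atTop_nat 1)).const_mul C1
      rw [mul_zero] at h4
      exact h4
    have h5 := (h1.add hTyT).add h3
    simpa using h5
  intro N hN f
  have hf0 : 0 ≤ ‖f‖ := norm_nonneg f
  refine ⟨fun s k => fr.Dk U c s N k (fr.hs U c i0 s f), fun s hs => (hmain s (by omega) N hN _).2,
    fun s hs => ?_, fun s1 hs1 => ?_⟩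
  · refine (hmain s (by omega) N hN _).1.trans (ENNReal.ofReal_le_ofReal ?_)
    rw [mul_assoc]
    refine mul_le_mul_of_nonneg_left ?_ hC1
    have h1 := (fr.hs U c i0 s).le_opNorm f
    exact h1.trans (mul_le_mul_of_nonneg_right (fr.norm_hs_le U c i0 s) hf0)
  -- the pieces
  obtain ⟨Yq, hYq⟩ : ∃ Yq : ℕ → Lp ℂ 2 μ, Yq = fun k => fr.Yk U c (Nat.log 2 k) N k f := ⟨_, rfl⟩
  obtain ⟨Sq, hSq⟩ : ∃ Sq : ℕ → Lp ℂ 2 μ, Sq = fun k => ∑ s ∈ Icc i0 (Nat.log 2 k),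
    fr.Dk U c s N k (fr.hs U c i0 s f) := ⟨_, rfl⟩
  obtain ⟨Er, hEr⟩ : ∃ Er : ℕ → Lp ℂ 2 μ, Er = fun k => Al U g (N k) 1 f - (Yq k + Sq k) :=
    ⟨_, rfl⟩
  obtain ⟨Rq, hRq⟩ : ∃ Rq : ℕ → Lp ℂ 2 μ, Rq = fun k => ∑ j ∈ range (Nat.log 2 k - s1),
    fr.Dk U c (s1 + 1 + j) N k (fr.hs U c i0 (s1 + 1 + j) f) := ⟨_, rfl⟩
  have hlog : ∀ k, 2 ^ s1 ≤ k → s1 ≤ Nat.log 2 k := fun k hk =>
    (Nat.le_log_iff_pow_le (by norm_num) (by
      have : 0 < 2 ^ s1 := by positivity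
      omega)).2 hk
  refine ⟨fun k => Er k + Yq k + Rq k, fun k hk => ?_, ?_⟩
  · have h1 : Sq k = ∑ s ∈ Icc i0 s1, fr.Dk U c s N k (fr.hs U c i0 s f) + Rq k := by
      have h2 := hlog k hk
      rw [hSq, hRq]
      simp only
      have e1 : Icc i0 (Nat.log 2 k) = Ico i0 (Nat.log 2 k + 1) := by
        ext x; simp only [mem_Icc, mem_Ico]; omega
      have e2 : Icc i0 s1 = Ico i0 (s1 + 1) := by
        ext x; simp only [mem_Icc, mem_Ico]; omega
      rw [e1, e2, ← Finset.sum_Ico_consecutive _ (by omega : i0 ≤ s1 + 1)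
        (by omega : s1 + 1 ≤ Nat.log 2 k + 1), Finset.sum_Ico_eq_sum_range _ (s1 + 1)]
      have e3 : Nat.log 2 k + 1 - (s1 + 1) = Nat.log 2 k - s1 := by omega
      rw [e3]
    have h3 : Er k = Al U g (N k) 1 f - (Yq k + Sq k) := by rw [hEr]
    show Al U g (N k) 1 f = ∑ s ∈ Icc i0 s1, fr.Dk U c s N k (fr.hs U c i0 s f) +
      (Er k + Yq k + Rq k)
    rw [h3, h1]
    abel
  · -- the errors
    have hA : MS {k | 2 ^ s1 ≤ k} Er ≤ ENNReal.ofReal (Real.sqrt (Ta (2 ^ s1)) * ‖f‖) := by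
      apply MS_le_of_sq (mul_nonneg (Real.sqrt_nonneg _) hf0)
      intro s hs
      have h1 : ∀ k ∈ s, ‖Er k‖ ^ 2 ≤ er k ^ 2 * ‖f‖ ^ 2 := by
        intro k hk
        have hk' : 2 ^ s1 ≤ k := hs k hk
        have hk0 : k ≠ 0 := by
          have : 0 < 2 ^ s1 := by positivity
          omega
        have h2 := hlog k hk'
        have h3 := hdec i0 (Nat.log 2 k) (by omega) (by omega) N hN k
          (Nat.pow_log_le_self 2 hk0) (Nat.lt_pow_succ_log_self (by norm_num) k)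
        have h4 : Er k = (Al U g (N k) 1 - (fr.Yk U c (Nat.log 2 k) N k +
            ∑ s ∈ Icc i0 (Nat.log 2 k), fr.Dk U c s N k * fr.hs U c i0 s)) f := by
          rw [hEr, hYq, hSq]
          simp only [_root_.sub_apply, _root_.add_apply, _root_.sum_apply, mul_apply_eq_comp]
        rw [h4, ← mul_pow]
        refine pow_le_pow_left₀ (norm_nonneg _) ?_ 2
        refine (ContinuousLinearMap.le_opNorm _ f).trans ?_
        exact mul_le_mul_of_nonneg_right h3 hf0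
      calc ∑ k ∈ s, ‖Er k‖ ^ 2 ≤ ∑ k ∈ s, er k ^ 2 * ‖f‖ ^ 2 := Finset.sum_le_sum h1
        _ = (∑ k ∈ s, er k ^ 2) * ‖f‖ ^ 2 := by rw [Finset.sum_mul]
        _ ≤ Ta (2 ^ s1) * ‖f‖ ^ 2 := by
            refine mul_le_mul_of_nonneg_right ?_ (sq_nonneg _)
            rw [hTa]
            exact DyadAux.sum_le_tail er_summable (fun k => sq_nonneg _) _ s fun k hk => hs k hk
        _ = (Real.sqrt (Ta (2 ^ s1)) * ‖f‖) ^ 2 := by
            rw [mul_pow, Real.sq_sqrt (hTa0 _)]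
    have hB : MS {k | 2 ^ s1 ≤ k} Yq ≤ ENNReal.ofReal (Ty s1 * ‖f‖) := by
      have h1 := MS_cover (S := {k | 2 ^ s1 ≤ k})
        (I := fun j : ℕ => {k | 2 ^ (j + s1) ≤ k ∧ k < 2 ^ (j + s1 + 1)}) (by
          intro k hk
          have hk' : 2 ^ s1 ≤ k := hk
          have hk0 : k ≠ 0 := by
            have : 0 < 2 ^ s1 := by positivity
            omega
          have h2 := hlog k hk'
          rw [Set.mem_iUnion]
          refine ⟨Nat.log 2 k - s1, ?_⟩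
          show 2 ^ (Nat.log 2 k - s1 + s1) ≤ k ∧ k < 2 ^ (Nat.log 2 k - s1 + s1 + 1)
          rw [Nat.sub_add_cancel h2]
          exact ⟨Nat.pow_log_le_self 2 hk0, Nat.lt_pow_succ_log_self (by norm_num) k⟩) Yq
      refine h1.trans ?_
      have h2 : ∀ j : ℕ, MS {k | 2 ^ (j + s1) ≤ k ∧ k < 2 ^ (j + s1 + 1)} Yq ≤
          ENNReal.ofReal (y (j + s1) * ‖f‖) := by
        intro j
        have h3 : MS {k | 2 ^ (j + s1) ≤ k ∧ k < 2 ^ (j + s1 + 1)} Yq =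
            MS {k | 2 ^ (j + s1) ≤ k ∧ k < 2 ^ (j + s1 + 1)} (fun k => fr.Yk U c (j + s1) N k f) := by
          apply MS_congr
          intro k hk
          have h4 : Nat.log 2 k = j + s1 := (Nat.log_eq_iff (Or.inr ⟨by norm_num, by
            have : 0 < 2 ^ (j + s1) := by positivity
            have := hk.1
            omega⟩)).2 hk
          rw [hYq]
          simp only
          rw [h4]
        rw [h3]
        exact hyP (j + s1) (by omega) N hN f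
      refine (ENNReal.tsum_le_tsum h2).trans ?_
      rw [← ENNReal.ofReal_tsum_of_nonneg (fun j => mul_nonneg (hy0 _) hf0)
        (((summable_nat_add_iff s1).2 hysum).mul_right _), tsum_mul_right, hTy]
    have hC : MS {k | 2 ^ s1 ≤ k} Rq ≤ ENNReal.ofReal (C1 * Th (s1 + 1) * ‖f‖) := by
      rw [hRq]
      refine (MS_sum_le {k | 2 ^ s1 ≤ k} (fun k => range (Nat.log 2 k - s1)) (fun j k =>
        fr.Dk U c (s1 + 1 + j) N k (fr.hs U c i0 (s1 + 1 + j) f))).trans ?_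
      have h2 : ∀ j : ℕ, MS {k | k ∈ {k | 2 ^ s1 ≤ k} ∧ j ∈ range (Nat.log 2 k - s1)}
          (fun k => fr.Dk U c (s1 + 1 + j) N k (fr.hs U c i0 (s1 + 1 + j) f)) ≤
          ENNReal.ofReal (C1 * th (j + (s1 + 1)) * ‖f‖) := by
        intro j
        have h3 : {k | k ∈ {k | 2 ^ s1 ≤ k} ∧ j ∈ range (Nat.log 2 k - s1)} ⊆
            {k | 2 ^ (s1 + 1 + j) ≤ k} := by
          rintro k ⟨hk, hj⟩
          have hk' : 2 ^ s1 ≤ k := hk
          have hk0 : k ≠ 0 := by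
            have : 0 < 2 ^ s1 := by positivity
            omega
          rw [mem_range] at hj
          exact (Nat.le_log_iff_pow_le (by norm_num) hk0).1 (by omega)
        refine (MS_mono_set h3 _).trans ?_
        refine (hmain (s1 + 1 + j) (by omega) N hN _).1.trans (ENNReal.ofReal_le_ofReal ?_)
        rw [mul_assoc]
        refine mul_le_mul_of_nonneg_left ?_ hC1
        have h4 := (fr.hs U c i0 (s1 + 1 + j)).le_opNorm f
        refine h4.trans (mul_le_mul_of_nonneg_right ?_ hf0)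
        have h5 := hhs i0 (s1 + 1 + j) (by omega) (by omega)
        rw [hth]
        simp only
        rw [add_comm j (s1 + 1)]
        exact h5
      refine (ENNReal.tsum_le_tsum h2).trans ?_
      rw [← ENNReal.ofReal_tsum_of_nonneg (fun j => mul_nonneg (mul_nonneg hC1 (hth0 _)) hf0)
        ((((summable_nat_add_iff (s1 + 1)).2 hthsum).mul_left C1).mul_right _), tsum_mul_right,
        tsum_mul_left, hTh]
    have h1 := MS_add {k | 2 ^ s1 ≤ k} (fun k => Er k + Yq k) Rq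
    have h2 := MS_add {k | 2 ^ s1 ≤ k} Er Yq
    refine h1.trans ((add_le_add (h2.trans (add_le_add hA hB)) hC).trans ?_)
    have h3 : 0 ≤ Real.sqrt (Ta (2 ^ s1)) * ‖f‖ := mul_nonneg (Real.sqrt_nonneg _) hf0
    have h4 : 0 ≤ Ty s1 * ‖f‖ := mul_nonneg (hTy0 _) hf0
    have h5 : 0 ≤ C1 * Th (s1 + 1) * ‖f‖ := mul_nonneg (mul_nonneg hC1 (hTh0 _)) hf0
    rw [← ENNReal.ofReal_add h3 h4, ← ENNReal.ofReal_add (add_nonneg h3 h4) h5]
    apply ENNReal.ofReal_le_ofReal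
    apply le_of_eq
    ring

theorem dyad (hBox : fr.BoxMax U) : ∃ C : ℝ, 0 ≤ C ∧ ∀ N : ℕ → ℕ, Dy N → ∀ f : Lp ℂ 2 μ,
    MS Set.univ (fun k => Al U g (N k) 1 f) ≤ ENNReal.ofReal (C * ‖f‖) ∧
    Cv (fun k => Al U g (N k) 1 f) := by
  obtain ⟨i0, C1, b, hC1, hb0, hbT, hparts⟩ := fr.DyadAux_parts U hBox
  refine ⟨(2 : ℝ) ^ i0 + (C1 + b i0), by have := hb0 i0; positivity, ?_⟩
  intro N hN f
  obtain ⟨D, hD1, hD2, hD3⟩ := hparts N hN f
  have hf0 : 0 ≤ ‖f‖ := norm_nonneg f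
  constructor
  · refine (DyadAux.MS_union _ (2 ^ i0)).trans ?_
    obtain ⟨F'', h1, h2⟩ := hD3 i0 le_rfl
    have h3 : MS {k | 2 ^ i0 ≤ k} (fun k => Al U g (N k) 1 f) ≤
        ENNReal.ofReal ((C1 + b i0) * ‖f‖) := by
      have h4 : MS {k | 2 ^ i0 ≤ k} (fun k => Al U g (N k) 1 f) =
          MS {k | 2 ^ i0 ≤ k} (fun k => D i0 k + F'' k) := by
        apply MS_congr
        intro k hk
        have h5 := h1 k hk
        rw [Finset.Icc_self, Finset.sum_singleton] at h5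
        exact h5
      rw [h4]
      refine (MS_add _ _ _).trans ((add_le_add (hD2 i0 le_rfl) h2).trans ?_)
      rw [← ENNReal.ofReal_add (mul_nonneg hC1 hf0) (mul_nonneg (hb0 _) hf0), ← add_mul]
    have h6 : MS ((Finset.range (2 ^ i0) : Finset ℕ) : Set ℕ) (fun k => Al U g (N k) 1 f) ≤
        ENNReal.ofReal ((2 : ℝ) ^ i0 * ‖f‖) := by
      refine (MS_finset_le _ _).trans ?_
      have h7 : ∀ k ∈ Finset.range (2 ^ i0), ‖Al U g (N k) 1 f‖ₑ ≤ ENNReal.ofReal ‖f‖ := by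
        intro k _
        rw [← ofReal_norm]
        apply ENNReal.ofReal_le_ofReal
        have h8 := (Al U g (N k) 1).le_opNorm f
        have h9 : ‖Al U g (N k) 1‖ * ‖f‖ ≤ 1 * ‖f‖ :=
          mul_le_mul_of_nonneg_right (norm_Al_le U g (N k) 1) hf0
        linarith
      refine (Finset.sum_le_sum h7).trans ?_
      rw [Finset.sum_const, Finset.card_range, ENNReal.ofReal_mul (by positivity), nsmul_eq_mul]
      have h10 : ENNReal.ofReal ((2 : ℝ) ^ i0) = ((2 ^ i0 : ℕ) : ℝ≥0∞) := by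
        rw [← ENNReal.ofReal_natCast]
        push_cast
        rfl
      rw [h10]
    refine (add_le_add h6 h3).trans ?_
    rw [← ENNReal.ofReal_add (by positivity) (by have := hb0 i0; positivity), ← add_mul]
  · apply cv_closure
    intro ε hε
    have h1 : Tendsto (fun n => b n * ‖f‖) atTop (𝓝 0) := by
      have := hbT.mul_const ‖f‖
      rwa [zero_mul] at this
    obtain ⟨n, hn⟩ := ((h1.eventually (gt_mem_nhds hε)).and (eventually_ge_atTop i0)).exists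
    obtain ⟨F'', h2, h3⟩ := hD3 n hn.2
    refine ⟨2 ^ n, fun k => ∑ s ∈ Icc i0 n, D s k, F'', h2, ?_, ?_⟩
    · apply Cv.sum
      intro s hs
      rw [mem_Icc] at hs
      exact hD1 s hs.1
    · exact h3.trans (ENNReal.ofReal_le_ofReal hn.1.le)

end Frame

end Pool.Nil
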