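import Mathlib

set_option autoImplicit false

/-!
# Nil: the definitions used by `Frame`

(Separate file, so that the analysis does not wait for the algebra.)
-/

namespace Pool.Nil

open Finset

section

variable {G : Type*} [Group G]

/-- coordinates -/
def kap {r : ℕ} (c : Fin r → G) (x : Fin r → ℤ) : G := (List.ofFn fun i => c i ^ x i).prod

lemma kap_zero {r : ℕ} (c : Fin r → G) : kap c 0 = 1 := by
  unfold kap
  refine List.prod_eq_one fun a ha => ?_
  rw [List.mem_ofFn] at ha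
  obtain ⟨i, rfl⟩ := ha
  simp

/-- the coordinates of weight `< u` -/
def lo {r : ℕ} (w : Fin r → ℕ) (u : ℕ) (x : Fin r → ℤ) : Fin r → ℤ := fun i => if w i < u then x i else 0

/-- the coordinates of weight `≥ u` -/
def hi {r : ℕ} (w : Fin r → ℕ) (u : ℕ) (x : Fin r → ℤ) : Fin r → ℤ := fun i => if u ≤ w i then x i else 0

lemma PolEx.kap_succ {r : ℕ} (c : Fin (r + 1) → G) (x : Fin (r + 1) → ℤ) :
    kap c x = c 0 ^ x 0 * kap (fun i => c i.succ) (fun i => x i.succ) := by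
  unfold kap
  rw [List.ofFn_succ, List.prod_cons]

lemma kap_split {r : ℕ} (c : Fin r → G) (w : Fin r → ℕ) (hw : Monotone w) (u : ℕ)
    (x : Fin r → ℤ) : kap c x = kap c (lo w u x) * kap c (hi w u x) := by
  induction r with
  | zero => simp [kap]
  | succ r ih =>
    by_cases h0 : w 0 < u
    · rw [PolEx.kap_succ c x, PolEx.kap_succ c (lo w u x), PolEx.kap_succ c (hi w u x)]
      have h1 : lo w u x 0 = x 0 := by simp [lo, h0]
      have h2 : hi w u x 0 = 0 := by simp [hi, h0]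
      rw [h1, h2, zpow_zero, one_mul, mul_assoc]
      congr 1
      exact ih (fun i => c i.succ) (fun i => w i.succ)
        (fun a b hab => hw (Fin.succ_le_succ_iff.2 hab)) (fun i => x i.succ)
    · push Not at h0
      have h1 : lo w u x = 0 := by
        funext i
        have : u ≤ w i := h0.trans (hw (Fin.zero_le i))
        simp [lo, this]
      have h2 : hi w u x = x := by
        funext i
        have : u ≤ w i := h0.trans (hw (Fin.zero_le i))
        simp [hi, this]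
      rw [h1, h2, kap_zero, one_mul]

lemma kap_single {r : ℕ} (c : Fin r → G) (i : Fin r) (a : ℤ) : kap c (Pi.single i a) = c i ^ a := by
  induction r with
  | zero => exact i.elim0
  | succ r ih =>
    rw [PolEx.kap_succ]
    refine Fin.cases ?_ (fun j => ?_) i
    · rw [Pi.single_eq_same]
      have : (fun j : Fin r => (Pi.single (0 : Fin (r + 1)) a : Fin (r + 1) → ℤ) j.succ) = 0 := by
        funext j
        rw [Pi.single_eq_of_ne (Fin.succ_ne_zero j)]
        rfl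
      rw [this, kap_zero, mul_one]
    · rw [Pi.single_eq_of_ne (Fin.succ_ne_zero j).symm, zpow_zero, one_mul]
      have : (fun k : Fin r => (Pi.single (j.succ) a : Fin (r + 1) → ℤ) k.succ) =
          Pi.single j a := by
        funext k
        by_cases h : k = j
        · subst h
          rw [Pi.single_eq_same, Pi.single_eq_same]
        · rw [Pi.single_eq_of_ne h, Pi.single_eq_of_ne (fun h' => h (Fin.succ_injective _ h'))]
      rw [this]
      exact ih _ j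

end

section

variable {G : Type*} [Group G] {s : ℕ}

/-- shift of one coordinate -/
def sft (t : Fin s → ℤ) (l : Fin s) (a : ℤ) : Fin s → ℤ := Function.update t l (t l + a)

/-- iterated differences -/
def ddl : List (Fin s × ℤ) → ((Fin s → ℤ) → G) → (Fin s → ℤ) → G
  | [], Wd => Wd
  | p :: L, Wd => ddl L (fun t => (Wd t)⁻¹ * Wd (sft t p.1 p.2))

lemma ddl_append (L L' : List (Fin s × ℤ)) (Wd : (Fin s → ℤ) → G) :
    ddl (L ++ L') Wd = ddl L' (ddl L Wd) := by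
  induction L generalizing Wd with
  | nil => rfl
  | cons p L ih => exact ih _

/-- the word -/
def word (g : ℤ → G) (s : ℕ) (n : ℤ) (m t : Fin s → ℤ) : G :=
  (List.ofFn fun l : Fin s => (g (n + m l))⁻¹ * g (n + t l)).prod

end

/-- the modulus of the coordinate of weight `w` -/
def md (W D Q w : ℕ) : ℕ := W ^ (D - w) * Q

section

variable {G : Type*} [Group G]

structure Frame (g : ℤ → G) where
  r : ℕ
  D : ℕ
  W : ℕ
  s : ℕ
  e : ℕ
  w : Fin r → ℕ
  c : Fin r → G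
  p : (Fin r → ℤ) → (Fin r → ℤ) → Fin r → ℤ
  ga : Fin r → ℕ → ℤ
  dirs : Fin r → List (Fin s)
  C0 : ℝ
  one_le_C0 : 1 ≤ C0
  W_pos : 1 ≤ W
  W_dvd : ∀ k : ℕ, 1 ≤ k → k ≤ D → k ∣ W
  s_eq : s = 2 ^ e
  w_mono : Monotone w
  one_le_w : ∀ i, 1 ≤ w i
  w_le : ∀ i, w i ≤ D
  mul : ∀ x y, kap c x * kap c y = kap c (x + y + p x y)
  p_dep : ∀ x x' y y' i, (∀ j, w j < w i → x j = x' j ∧ y j = y' j) → p x y i = p x' y' i
  p_dvd : ∀ (Q : ℕ) x y, ((∀ j, ((md W D Q (w j) : ℕ) : ℤ) ∣ x j) ∨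
    (∀ j, ((md W D Q (w j) : ℕ) : ℤ) ∣ y j)) → ∀ i, ((md W D Q (w i) : ℕ) : ℤ) ∣ p x y i
  p_size : ∀ (R del del' : ℝ) x y, 1 ≤ R → 0 ≤ del → del ≤ 1 → 0 ≤ del' → del' ≤ 1 →
    (∀ j, |(x j : ℝ)| ≤ del * R ^ w j) → (∀ j, |(y j : ℝ)| ≤ del' * R ^ w j) →
    ∀ i, |(p x y i : ℝ)| ≤ C0 * (del * del') * R ^ w i
  p_wt : ∀ (a b : ℕ) x y, (∀ j, w j < a → x j = 0) → (∀ j, w j < b → y j = 0) →
    ∀ i, w i < a + b → p x y i = 0
  seq : ∀ n : ℤ, g n = kap c (fun i => ∑ k ∈ Icc 1 (w i), ga i k * Ring.choose n k)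
  dirs_len : ∀ i, (dirs i).length = w i
  kc : ∀ (i : Fin r) (n : ℤ) (m t : Fin s → ℤ) (a : List ℤ), a.length = w i → ∃ y : Fin r → ℤ,
    ddl ((dirs i).zip a) (word g s n m) t = c i ^ a.prod * kap c y ∧
    (∀ j, w j ≤ w i → y j = 0) ∧
    (∀ Q : ℕ, (∀ b ∈ a, ((md W D Q 1 : ℕ) : ℤ) ∣ b) → ∀ j, ((md W D Q (w j) : ℕ) : ℤ) ∣ y j) ∧
    (∀ N ze : ℝ, 1 ≤ N → 0 ≤ ze → ze ≤ 1 → |(n : ℝ)| ≤ N → (∀ l, |(m l : ℝ)| ≤ N) →
      (∀ l, |(t l : ℝ)| ≤ N) → (∀ b ∈ a, |(b : ℝ)| ≤ ze * N) →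
      ∀ j, |(y j : ℝ)| ≤ C0 * ze * N ^ w j)

end

end Pool.Nil
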