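import Pool.Agent.Nil.Avg
import Pool.Agent.PolyMax.Basic

set_option autoImplicit false

/-!
# Nil: finite Fourier analysis for vector valued functions

PROOFS.  Orthogonality: `avg univ (fun xi => ...)`; for `x, y : Fin r → ZMod L`,
`∑_xi e (ph xi x - ph xi y) = L^r` if `x = y` and `0` otherwise (product over the coordinates of sums over
`ZMod L` of `e (a (b - c) / L)`; `e (ph xi x)` only depends on the classes: replacing `(x i).val` by any
representative changes `ph` by an integer).
`parseval`: expand `‖hat V xi‖^2 = ⟪hat V xi, hat V xi⟫` and sum over `xi`.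
`hat_shift`: substitute `x ↦ x + y` (`e` is additive and `L`-periodic).
-/

namespace Pool.Nil

open Finset

variable {H : Type*} [NormedAddCommGroup H] [InnerProductSpace ℂ H] {r L : ℕ} [NeZero L]

/-- the phase with integer second argument -/
noncomputable def phz (xi : Fin r → ZMod L) (y : Fin r → ℤ) : ℝ :=
  (∑ i, ((xi i).val : ℝ) * y i) / L

/-- Fourier coefficients -/
noncomputable def hat (V : (Fin r → ZMod L) → H) (xi : Fin r → ZMod L) : H :=
  avg univ (fun x : Fin r → ZMod L => Pool.PolyMax.e (-phz xi (fun i => ((x i).val : ℤ))) • V x)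

namespace ParsAux

open Pool.PolyMax

/-- the character -/
noncomputable def chi (xi x : Fin r → ZMod L) : ℂ := ∏ i, ZMod.stdAddChar (xi i * x i)

lemma e_phz (xi : Fin r → ZMod L) (y : Fin r → ℤ) :
    e (phz xi y) = chi xi (fun i => (y i : ZMod L)) := by
  unfold phz chi
  rw [Finset.sum_div, e_sum]
  refine Finset.prod_congr rfl fun i _ => ?_
  have h : xi i * (y i : ZMod L) = (((xi i).val * y i : ℤ) : ZMod L) := by
    push_cast
    rw [ZMod.natCast_val, ZMod.cast_id', id]
  rw [h, ZMod.stdAddChar_coe]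
  unfold e
  congr 1
  push_cast
  ring

lemma chi_add (xi x y : Fin r → ZMod L) : chi xi (x + y) = chi xi x * chi xi y := by
  unfold chi
  rw [← Finset.prod_mul_distrib]
  refine Finset.prod_congr rfl fun i _ => ?_
  rw [Pi.add_apply, mul_add, AddChar.map_add_eq_mul]

lemma e_neg_phz (xi : Fin r → ZMod L) (y : Fin r → ℤ) :
    e (-phz xi y) = chi xi (fun i => -(y i : ZMod L)) := by
  have h : -phz xi y = phz xi (fun i => -y i) := by
    unfold phz
    push_cast
    rw [← neg_div, ← Finset.sum_neg_distrib]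
    congr 1
    refine Finset.sum_congr rfl fun i _ => by ring
  rw [h, e_phz]
  congr 1
  funext i
  push_cast
  rfl

lemma e_neg_phz_val (xi x : Fin r → ZMod L) :
    e (-phz xi (fun i => ((x i).val : ℤ))) = chi xi (-x) := by
  rw [e_neg_phz]
  congr 1
  funext i
  rw [Int.cast_natCast, ZMod.natCast_val, ZMod.cast_id', id, Pi.neg_apply]

lemma hat_eq (V : (Fin r → ZMod L) → H) (xi : Fin r → ZMod L) :
    hat V xi = (((Fintype.card (Fin r → ZMod L) : ℕ) : ℝ)⁻¹ : ℝ) • ∑ x, chi xi (-x) • V x := by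
  unfold hat avg
  simp only [e_neg_phz_val, Finset.card_univ]

lemma conj_chi (xi x : Fin r → ZMod L) : (starRingEnd ℂ) (chi xi x) = chi xi (-x) := by
  unfold chi
  rw [map_prod]
  refine Finset.prod_congr rfl fun i _ => ?_
  rw [Pi.neg_apply, mul_neg, AddChar.map_neg_eq_conj]

lemma orth (x y : Fin r → ZMod L) :
    ∑ xi, chi xi (x - y) = if x = y then ((Fintype.card (Fin r → ZMod L) : ℕ) : ℂ) else 0 := by
  classical
  unfold chi
  have h0 := Finset.prod_univ_sum (fun _ : Fin r => (Finset.univ : Finset (ZMod L)))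
    (fun (i : Fin r) (a : ZMod L) => (ZMod.stdAddChar (a * (x - y) i) : ℂ))
  rw [Fintype.piFinset_univ] at h0
  rw [← h0]
  have h : ∀ i, ∑ a : ZMod L, ZMod.stdAddChar (a * (x - y) i) =
      if x i = y i then ((Fintype.card (ZMod L) : ℕ) : ℂ) else 0 := by
    intro i
    rw [AddChar.sum_mulShift ((x - y) i) (ZMod.isPrimitive_stdAddChar L), Pi.sub_apply]
    by_cases hxy : x i = y i
    · rw [if_pos hxy, if_pos (sub_eq_zero.2 hxy)]
    · rw [if_neg hxy, if_neg (fun h => hxy (sub_eq_zero.1 h))]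
      simp
  simp only [h]
  by_cases hxy : x = y
  · rw [if_pos hxy]
    simp [hxy, ZMod.card]
  · rw [if_neg hxy]
    obtain ⟨i, hi⟩ := Function.ne_iff.1 hxy
    exact Finset.prod_eq_zero (Finset.mem_univ i) (if_neg hi)

end ParsAux

open ParsAux

theorem parseval (V : (Fin r → ZMod L) → H) :
    ∑ xi, ‖hat V xi‖ ^ 2 = avg univ (fun x => ‖V x‖ ^ 2) := by
  classical
  have hN : ((Fintype.card (Fin r → ZMod L) : ℕ) : ℂ) ≠ 0 := by
    exact_mod_cast Fintype.card_ne_zero
  set N : ℂ := ((Fintype.card (Fin r → ZMod L) : ℕ) : ℂ) with hNdef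
  have h1 : ∀ xi, ((‖hat V xi‖ ^ 2 : ℝ) : ℂ) =
      N⁻¹ ^ 2 * ∑ x, ∑ y, chi xi (x - y) * inner ℂ (V x) (V y) := by
    intro xi
    have e1 : ((‖hat V xi‖ ^ 2 : ℝ) : ℂ) = inner ℂ (hat V xi) (hat V xi) := by
      rw [inner_self_eq_norm_sq_to_K]
      push_cast
      rfl
    have e2 : hat V xi = N⁻¹ • ∑ x, chi xi (-x) • V x := by
      rw [hat_eq, hNdef]
      rw [← Complex.coe_smul]
      congr 1
      push_cast
      rfl
    rw [e1, e2, inner_smul_left, inner_smul_right]
    have e3 : (starRingEnd ℂ) N⁻¹ = N⁻¹ := by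
      rw [hNdef, map_inv₀, map_natCast]
    rw [e3, sum_inner, ← mul_assoc, ← sq]
    congr 1
    refine Finset.sum_congr rfl fun x _ => ?_
    rw [inner_sum]
    refine Finset.sum_congr rfl fun y _ => ?_
    rw [inner_smul_left, inner_smul_right, conj_chi, neg_neg, ← mul_assoc, ← chi_add, sub_eq_add_neg]
  have h2 : ((∑ xi, ‖hat V xi‖ ^ 2 : ℝ) : ℂ) = ((avg univ (fun x => ‖V x‖ ^ 2) : ℝ) : ℂ) := by
    rw [Complex.ofReal_sum]
    simp only [h1]
    rw [← Finset.mul_sum, Finset.sum_comm]
    have e4 : ∀ x, ∑ xi : Fin r → ZMod L, ∑ y, chi xi (x - y) * inner ℂ (V x) (V y) =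
        N * ((‖V x‖ ^ 2 : ℝ) : ℂ) := by
      intro x
      rw [Finset.sum_comm]
      have e5 : ∀ y, ∑ xi : Fin r → ZMod L, chi xi (x - y) * inner ℂ (V x) (V y) =
          if x = y then N * inner ℂ (V x) (V y) else 0 := by
        intro y
        rw [← Finset.sum_mul, orth]
        split_ifs
        · rfl
        · rw [zero_mul]
      simp only [e5]
      rw [Finset.sum_ite_eq, if_pos (Finset.mem_univ x), inner_self_eq_norm_sq_to_K]
      push_cast
      rfl
    simp only [e4]
    unfold avg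
    rw [← Finset.mul_sum, smul_eq_mul, Complex.ofReal_mul, Complex.ofReal_inv, Finset.card_univ,
      Complex.ofReal_natCast, ← hNdef, Complex.ofReal_sum]
    field_simp
  exact_mod_cast h2

lemma hat_clm (T : H →L[ℂ] H) (V : (Fin r → ZMod L) → H) (xi : Fin r → ZMod L) :
    T (hat V xi) = hat (fun x => T (V x)) xi := by
  rw [hat_eq, hat_eq]
  have h : ∀ (c : ℝ) (v : H), T (c • v) = c • T v := by
    intro c v
    rw [← Complex.coe_smul, map_smul, Complex.coe_smul]
  rw [h, map_sum]
  simp only [map_smul]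

lemma hat_sub (V V' : (Fin r → ZMod L) → H) (xi : Fin r → ZMod L) :
    hat (fun x => V x - V' x) xi = hat V xi - hat V' xi := by
  rw [hat_eq, hat_eq, hat_eq, ← smul_sub, ← Finset.sum_sub_distrib]
  simp only [smul_sub]

lemma hat_shift (V : (Fin r → ZMod L) → H) (y : Fin r → ℤ) (xi : Fin r → ZMod L) :
    hat (fun x => V (fun i => x i + (y i : ZMod L))) xi = Pool.PolyMax.e (phz xi y) • hat V xi := by
  rw [hat_eq, hat_eq, e_phz, smul_comm]
  congr 1
  rw [Finset.smul_sum]
  rw [← Equiv.sum_comp (Equiv.addRight (fun i => (y i : ZMod L)))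
    (fun x => chi xi (fun i => (y i : ZMod L)) • chi xi (-x) • V x)]
  refine Finset.sum_congr rfl fun x _ => ?_
  rw [Equiv.coe_addRight, smul_smul, ← chi_add]
  congr 2
  funext i
  simp only [Pi.neg_apply, Pi.add_apply]
  ring

end Pool.Nil
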