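import Pool.Agent.Nil.Rep2
import Pool.Agent.Nil.Pars

set_option autoImplicit false

/-!
# Nil: Fourier decomposition in the coordinates of weight `j`

`xt x` are the coordinates of weight `j` given by `x`, multiplied by the modulus `md j`;
`VV x = Uo (kap (xt x)) (Bj j Q R v)`; `L ≤ R^j / md j`, so `|xt x i| ≤ R^j`.

PROOFS (`u = Bj j Q R v`; `K` denotes constants).
`four1`: for `y` supported on the weight `j` with `|y i| ≤ th L` and all `x` such that `x i + y i` stays in `[0, L)`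
for all `i` with `w i = j`: `kap (md y) * kap (xt x) = kap (md y + xt x + p ..)`, `p .. i = 0` for `w i < 2 j`, so
(`kap_split`) `= kap (xt (x + y)) * kap b` with `b i = p (md y) (xt x) i` for `w i > j`, `kap b ∈ Sm (j + 1) Q R (C0 th)`
(`|md y i| ≤ th R^j`, `|xt x i| ≤ R^j`), so `‖Uo (kap (md y)) (VV x) - VV (x + y)‖ ≤ K th ‖v‖` by `ni`.  The
proportion of the other `x` is at most `r th`, and there the norm is at most `2 ‖v‖`.  So
`avg_x ‖Uo (kap (md y)) (VV x) - VV (x + y)‖^2 ≤ K th ‖v‖^2`; `parseval`, `hat_sub`, `hat_clm`, `hat_shift`.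
`four2`: `z * kap (xt x) = kap (xt x) * z * (z⁻¹ (kap (xt x))⁻¹ z kap (xt x))` with both last factors in
`Sm (j + 1) Q R (K del)` (`sm_comm`), so `‖Uo z (VV x) - VV x‖ ≤ K del ‖v‖` for all `x`; `parseval`.
`four3`: `x_k * kap (xt x) = kap (xt x) * x_k * c`, `c = x_k⁻¹ (kap (xt x))⁻¹ x_k kap (xt x) ∈ Sm (j + 1) Q R (K del)`
(`sm_comm'`: `x_k ∈ Sa 1 R del`, `kap (xt x) ∈ Sm j Q R 1`; `j ≥ 1`), so
`‖T (VV x) - Uo (kap (xt x)) (T u)‖ ≤ K del ‖v‖` and `|‖T (VV x)‖ - ‖T u‖| ≤ K del ‖v‖` for all `x`;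
`(a + b)^2 ≤ 2 a^2 + 2 b^2` and `parseval`, `hat_clm`.
-/

namespace Pool.Nil

open Finset

variable {G : Type*} [Group G] {H : Type*} [NormedAddCommGroup H] [InnerProductSpace ℂ H]
  [CompleteSpace H]

namespace Frame

variable {g : ℤ → G} (fr : Frame g) (U : G →* (H ≃ₗᵢ[ℂ] H))

/-- coordinates of weight `j` -/
def xt (j Q : ℕ) {L : ℕ} (x : Fin fr.r → ZMod L) : Fin fr.r → ℤ :=
  fun i => if fr.w i = j then (md fr.W fr.D Q j : ℤ) * (x i).val else 0

noncomputable def VV (j Q : ℕ) (R : ℝ) {L : ℕ} (v : H) (x : Fin fr.r → ZMod L) : H :=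
  Uo U (kap fr.c (fr.xt j Q x)) (fr.Bj U j Q R v)

lemma norm_VV_le (j Q : ℕ) (R : ℝ) {L : ℕ} (v : H) (x : Fin fr.r → ZMod L) :
    ‖fr.VV U j Q R v x‖ ≤ ‖v‖ := by
  unfold VV
  rw [norm_Uo_apply]
  calc ‖fr.Bj U j Q R v‖ ≤ ‖fr.Bj U j Q R‖ * ‖v‖ := ContinuousLinearMap.le_opNorm _ _
    _ ≤ 1 * ‖v‖ := mul_le_mul_of_nonneg_right (fr.norm_Bj_le U j Q R) (norm_nonneg _)
    _ = ‖v‖ := one_mul _

namespace FourPackAux

lemma norm_Bj_apply_le (j Q : ℕ) (R : ℝ) (v : H) : ‖fr.Bj U j Q R v‖ ≤ ‖v‖ := by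
  calc ‖fr.Bj U j Q R v‖ ≤ ‖fr.Bj U j Q R‖ * ‖v‖ := ContinuousLinearMap.le_opNorm _ _
    _ ≤ 1 * ‖v‖ := mul_le_mul_of_nonneg_right (fr.norm_Bj_le U j Q R) (norm_nonneg _)
    _ = ‖v‖ := one_mul _

lemma Uo_Uo (x y : G) (v : H) : Uo U x (Uo U y v) = Uo U (x * y) v := by
  rw [Uo_mul]
  rfl

lemma ni' : ∃ K : ℝ, 1 ≤ K ∧ ∀ (j Q : ℕ) (R del : ℝ) (x : G) (v : H), 1 ≤ Q → 1 ≤ R → 0 ≤ del →
    x ∈ fr.Sm (j + 1) Q R del →
    ‖Uo U x (fr.Bj U j Q R v) - fr.Bj U j Q R v‖ ≤ K * del * ‖v‖ := by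
  obtain ⟨K, hK, h⟩ := fr.ni U
  refine ⟨K + 2, by linarith, fun j Q R del x v hQ hR hd hx => ?_⟩
  have hv := norm_nonneg v
  rcases le_or_gt del 1 with h1 | h1
  · have h2 := (h j Q R del x hQ hR hd h1 hx).1
    have h3 : Uo U x (fr.Bj U j Q R v) - fr.Bj U j Q R v =
        (Uo U x * fr.Bj U j Q R - fr.Bj U j Q R) v := rfl
    rw [h3]
    refine (ContinuousLinearMap.le_opNorm _ _).trans ?_
    refine mul_le_mul_of_nonneg_right (h2.trans ?_) hv
    nlinarith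
  · have h2 := norm_sub_le (Uo U x (fr.Bj U j Q R v)) (fr.Bj U j Q R v)
    rw [norm_Uo_apply] at h2
    have h3 := norm_Bj_apply_le fr U j Q R v
    have h4 : 2 * ‖v‖ ≤ (K + 2) * del * ‖v‖ := by
      refine mul_le_mul_of_nonneg_right ?_ hv
      nlinarith
    linarith

lemma abs_xt_le {j Q : ℕ} {R : ℝ} {L : ℕ} [NeZero L] (hR : 1 ≤ R)
    (hL : (L : ℝ) * (md fr.W fr.D Q j : ℕ) ≤ R ^ j) (x : Fin fr.r → ZMod L) (i : Fin fr.r) :
    |(fr.xt j Q x i : ℝ)| ≤ 1 * R ^ fr.w i := by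
  unfold xt
  rw [one_mul]
  split_ifs with h
  · rw [h]
    refine le_trans ?_ hL
    have h1 : ((x i).val : ℝ) ≤ L := by exact_mod_cast (ZMod.val_lt (x i)).le
    have h2 : (0 : ℝ) ≤ (md fr.W fr.D Q j : ℕ) := Nat.cast_nonneg _
    have h3 : (0 : ℝ) ≤ ((x i).val : ℝ) := Nat.cast_nonneg _
    push_cast
    rw [abs_of_nonneg (mul_nonneg h2 h3), mul_comm]
    exact mul_le_mul_of_nonneg_right h1 h2
  · have : (0 : ℝ) ≤ R ^ fr.w i := pow_nonneg (by linarith) _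
    simpa using this

lemma kap_xt_mem {j Q : ℕ} {R : ℝ} {L : ℕ} [NeZero L] (hR : 1 ≤ R)
    (hL : (L : ℝ) * (md fr.W fr.D Q j : ℕ) ≤ R ^ j) (x : Fin fr.r → ZMod L) :
    kap fr.c (fr.xt j Q x) ∈ fr.Sm j Q R 1 := by
  refine ⟨fr.xt j Q x, rfl, fun i hi => ?_, fun i => ?_, fun i => abs_xt_le fr hR hL x i⟩
  · unfold xt
    rw [if_neg (by omega)]
  · unfold xt mo
    split_ifs with h
    · rw [h]
      exact dvd_mul_right _ _
    · exact dvd_zero _

lemma kap_xt_mem' {j Q : ℕ} {R : ℝ} {L : ℕ} [NeZero L] (hj : 1 ≤ j) (hR : 1 ≤ R)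
    (hL : (L : ℝ) * (md fr.W fr.D Q j : ℕ) ≤ R ^ j) (x : Fin fr.r → ZMod L) :
    kap fr.c (fr.xt j Q x) ∈ fr.Sa 1 R 1 :=
  fr.Sa_mono (by linarith) hj le_rfl (fr.Sm_subset_Sa _ _ _ _ (kap_xt_mem fr hR hL x))

lemma card_bad (L : ℕ) [NeZero L] (y : ℤ) :
    (((univ : Finset (ZMod L)).filter fun a => ¬ (0 ≤ (a.val : ℤ) + y ∧ (a.val : ℤ) + y < L)).card : ℝ) ≤
      |(y : ℝ)| := by
  classical
  rcases le_or_gt 0 y with hy | hy
  · have h1 : ((univ : Finset (ZMod L)).filter fun a =>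
        ¬ (0 ≤ (a.val : ℤ) + y ∧ (a.val : ℤ) + y < L)).card ≤ (Finset.Ico ((L : ℤ) - y) L).card := by
      refine Finset.card_le_card_of_injOn (fun a => (a.val : ℤ)) ?_ ?_
      · intro a ha
        rw [Finset.mem_coe, Finset.mem_filter] at ha
        have h2 := ZMod.val_lt a
        have h3 := ha.2
        rw [Finset.mem_coe, Finset.mem_Ico]
        dsimp only
        omega
      · intro a _ b _ hab
        dsimp only at hab
        exact ZMod.val_injective L (by exact_mod_cast hab)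
    rw [Int.card_Ico] at h1
    have h2 : (((L : ℤ) - ((L : ℤ) - y)).toNat : ℤ) = y := by
      rw [sub_sub_cancel, Int.toNat_of_nonneg hy]
    have h3 : (((L : ℤ) - ((L : ℤ) - y)).toNat : ℝ) = |(y : ℝ)| := by
      rw [abs_of_nonneg (by exact_mod_cast hy)]
      exact_mod_cast h2
    rw [← h3]
    exact_mod_cast h1
  · have h1 : ((univ : Finset (ZMod L)).filter fun a =>
        ¬ (0 ≤ (a.val : ℤ) + y ∧ (a.val : ℤ) + y < L)).card ≤ (Finset.Ico (0 : ℤ) (-y)).card := by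
      refine Finset.card_le_card_of_injOn (fun a => (a.val : ℤ)) ?_ ?_
      · intro a ha
        rw [Finset.mem_coe, Finset.mem_filter] at ha
        have h2 := ZMod.val_lt a
        have h3 := ha.2
        rw [Finset.mem_coe, Finset.mem_Ico]
        dsimp only
        omega
      · intro a _ b _ hab
        dsimp only at hab
        exact ZMod.val_injective L (by exact_mod_cast hab)
    rw [Int.card_Ico] at h1
    have h2 : ((-y - 0).toNat : ℤ) = -y := by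
      rw [sub_zero, Int.toNat_of_nonneg (by omega)]
    have h3 : ((-y - 0).toNat : ℝ) = |(y : ℝ)| := by
      rw [abs_of_neg (by exact_mod_cast hy)]
      exact_mod_cast h2
    rw [← h3]
    exact_mod_cast h1

lemma card_fibre {r L : ℕ} [NeZero L] (i : Fin r) (B : Finset (ZMod L)) :
    (L : ℝ) * ((univ : Finset (Fin r → ZMod L)).filter fun x => x i ∈ B).card =
      B.card * (univ : Finset (Fin r → ZMod L)).card := by
  classical
  have h1 : ((univ : Finset (Fin r → ZMod L)).filter fun x => x i ∈ B) =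
      Fintype.piFinset fun i' => if i' = i then B else univ := by
    ext x
    rw [Finset.mem_filter, Fintype.mem_piFinset]
    constructor
    · rintro ⟨_, h⟩ i'
      split_ifs with h'
      · rw [h']
        exact h
      · exact Finset.mem_univ _
    · intro h
      refine ⟨Finset.mem_univ _, ?_⟩
      have := h i
      rwa [if_pos rfl] at this
  have h2 : (univ : Finset (Fin r → ZMod L)).card = ∏ _i' : Fin r, L := by
    rw [Finset.card_univ, Fintype.card_pi]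
    refine Finset.prod_congr rfl fun _ _ => ?_
    exact ZMod.card L
  rw [h1, Fintype.card_piFinset, h2]
  rw [← Finset.mul_prod_erase univ _ (Finset.mem_univ i),
    ← Finset.mul_prod_erase univ (fun _ => L) (Finset.mem_univ i), if_pos rfl]
  have h3 : ∏ x ∈ univ.erase i, (if x = i then B else univ : Finset (ZMod L)).card =
      ∏ _x ∈ univ.erase i, L := by
    refine Finset.prod_congr rfl fun x hx => ?_
    rw [if_neg (Finset.ne_of_mem_erase hx), Finset.card_univ]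
    exact ZMod.card L
  rw [h3]
  push_cast
  ring

lemma sum_bad {r L : ℕ} [NeZero L] (i : Fin r) (y : ℤ) {th : ℝ} (hy : |(y : ℝ)| ≤ th * L) :
    avg (univ : Finset (Fin r → ZMod L)) (fun x =>
      if ¬ (0 ≤ ((x i).val : ℤ) + y ∧ ((x i).val : ℤ) + y < L) then (1 : ℝ) else 0) ≤ th := by
  classical
  have hL : (0 : ℝ) < L := by exact_mod_cast Nat.pos_of_ne_zero (NeZero.ne L)
  have hN : (0 : ℝ) < (univ : Finset (Fin r → ZMod L)).card := by
    rw [Finset.card_univ]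
    exact_mod_cast Fintype.card_pos
  unfold avg
  rw [smul_eq_mul, ← Finset.sum_filter, Finset.sum_const, nsmul_eq_mul, mul_one]
  have h1 := card_fibre i ((univ : Finset (ZMod L)).filter fun a =>
    ¬ (0 ≤ (a.val : ℤ) + y ∧ (a.val : ℤ) + y < L))
  have h2 : ((univ : Finset (Fin r → ZMod L)).filter fun x => x i ∈
      ((univ : Finset (ZMod L)).filter fun a =>
    ¬ (0 ≤ (a.val : ℤ) + y ∧ (a.val : ℤ) + y < L))) = ((univ : Finset (Fin r → ZMod L)).filter fun x =>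
      ¬ (0 ≤ ((x i).val : ℤ) + y ∧ ((x i).val : ℤ) + y < L)) := by
    ext x
    simp only [Finset.mem_filter, Finset.mem_univ, true_and]
  rw [h2] at h1
  have h3 := (card_bad L y).trans hy
  rw [inv_mul_le_iff₀ hN]
  have h4 : (L : ℝ) * (((univ : Finset (Fin r → ZMod L)).filter fun x =>
      ¬ (0 ≤ ((x i).val : ℤ) + y ∧ ((x i).val : ℤ) + y < L)).card : ℝ) ≤
      L * ((univ : Finset (Fin r → ZMod L)).card * th) := by
    rw [h1]
    have := mul_le_mul_of_nonneg_right h3 hN.le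
    calc _ ≤ th * L * ((univ : Finset (Fin r → ZMod L)).card : ℝ) := this
      _ = _ := by ring
  exact le_of_mul_le_mul_left h4 hL

/-- the product in coordinates -/
lemma key (K1 : ℝ) (hni : ∀ (j Q : ℕ) (R del : ℝ) (x : G) (v : H), 1 ≤ Q → 1 ≤ R → 0 ≤ del →
    x ∈ fr.Sm (j + 1) Q R del →
    ‖Uo U x (fr.Bj U j Q R v) - fr.Bj U j Q R v‖ ≤ K1 * del * ‖v‖) {j Q : ℕ} {R th : ℝ} {L : ℕ}
    [NeZero L] (v : H) {y : Fin fr.r → ℤ} (hj : 1 ≤ j) (hQ : 1 ≤ Q) (hR : 1 ≤ R)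
    (hL : (L : ℝ) * (md fr.W fr.D Q j : ℕ) ≤ R ^ j) (hth : 0 ≤ th) (hth1 : th ≤ 1)
    (hy0 : ∀ i, fr.w i ≠ j → y i = 0) (hy : ∀ i, |(y i : ℝ)| ≤ th * L) (x : Fin fr.r → ZMod L)
    (hx : ∀ i, 0 ≤ ((x i).val : ℤ) + y i ∧ ((x i).val : ℤ) + y i < L) :
    ‖Uo U (kap fr.c (fun i => (md fr.W fr.D Q j : ℤ) * y i)) (fr.VV U j Q R v x) -
      fr.VV U j Q R v (fun i => x i + (y i : ZMod L))‖ ≤ K1 * (fr.C0 * th) * ‖v‖ := by
  set my : Fin fr.r → ℤ := fun i => (md fr.W fr.D Q j : ℤ) * y i with hmy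
  have hmy0 : ∀ i, fr.w i ≠ j → my i = 0 := by
    intro i hi
    rw [hmy]
    dsimp only
    rw [hy0 i hi, mul_zero]
  have hmys : ∀ i, |(my i : ℝ)| ≤ th * R ^ fr.w i := by
    intro i
    by_cases hi : fr.w i = j
    · rw [hmy, hi]
      dsimp only
      push_cast
      have h2 : (0 : ℝ) ≤ (md fr.W fr.D Q j : ℕ) := Nat.cast_nonneg _
      rw [abs_mul, abs_of_nonneg h2]
      calc ((md fr.W fr.D Q j : ℕ) : ℝ) * |(y i : ℝ)| ≤ (md fr.W fr.D Q j : ℕ) * (th * L) :=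
            mul_le_mul_of_nonneg_left (hy i) h2
        _ = th * ((L : ℝ) * (md fr.W fr.D Q j : ℕ)) := by ring
        _ ≤ th * R ^ j := mul_le_mul_of_nonneg_left hL hth
    · rw [hmy0 i hi]
      have : (0 : ℝ) ≤ R ^ fr.w i := pow_nonneg (by linarith) _
      simpa using mul_nonneg hth this
  set z : Fin fr.r → ℤ := my + fr.xt j Q x + fr.p my (fr.xt j Q x) with hz
  have hxt0 : ∀ i, fr.w i < j → fr.xt j Q x i = 0 := by
    intro i hi
    unfold xt
    rw [if_neg (by omega)]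
  have hp0 : ∀ i, fr.w i < j + j → fr.p my (fr.xt j Q x) i = 0 :=
    fr.p_wt j j my (fr.xt j Q x) (fun i hi => hmy0 i (by omega)) hxt0
  have hlo : lo fr.w (j + 1) z = fr.xt j Q (fun i => x i + (y i : ZMod L)) := by
    funext i
    unfold lo
    by_cases h1 : fr.w i < j
    · rw [if_pos (by omega), hz]
      simp only [Pi.add_apply]
      rw [hmy0 i (by omega), hxt0 i h1, hp0 i (by omega)]
      unfold xt
      rw [if_neg (by omega)]
      simp
    · by_cases h2 : fr.w i = j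
      · rw [if_pos (by omega), hz]
        simp only [Pi.add_apply]
        rw [hp0 i (by omega), add_zero, hmy]
        unfold xt
        rw [if_pos h2, if_pos h2]
        dsimp only
        have h3 : ((x i + (y i : ZMod L)).val : ℤ) = ((x i).val : ℤ) + y i := by
          have h4 : (x i + (y i : ZMod L)) = ((((x i).val : ℤ) + y i : ℤ) : ZMod L) := by
            push_cast
            rw [ZMod.natCast_zmod_val]
          rw [h4, ZMod.val_intCast]
          exact Int.emod_eq_of_lt (hx i).1 (hx i).2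
        rw [h3]
        ring
      · rw [if_neg (by omega)]
        unfold xt
        rw [if_neg h2]
  have hmem : kap fr.c (hi fr.w (j + 1) z) ∈ fr.Sm (j + 1) Q R (fr.C0 * th) := by
    have hhi : ∀ i, hi fr.w (j + 1) z i = if j + 1 ≤ fr.w i then fr.p my (fr.xt j Q x) i else 0 := by
      intro i
      unfold hi
      split_ifs with h
      · rw [hz]
        simp only [Pi.add_apply]
        rw [hmy0 i (by omega)]
        have : fr.xt j Q x i = 0 := by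
          unfold xt
          rw [if_neg (by omega)]
        rw [this]
        ring
      · rfl
    refine ⟨hi fr.w (j + 1) z, rfl, fun i h => ?_, fun i => ?_, fun i => ?_⟩
    · rw [hhi, if_neg (by omega)]
    · rw [hhi]
      split_ifs
      · refine fr.p_dvd Q my (fr.xt j Q x) (Or.inl fun i' => ?_) i
        by_cases h : fr.w i' = j
        · rw [h, hmy]
          exact dvd_mul_right _ _
        · rw [hmy0 i' h]
          exact dvd_zero _
      · exact dvd_zero _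
    · rw [hhi]
      have h5 : (0 : ℝ) ≤ fr.C0 * th * R ^ fr.w i :=
        mul_nonneg (mul_nonneg (by linarith [fr.one_le_C0]) hth) (pow_nonneg (by linarith) _)
      split_ifs
      · have h6 := fr.p_size R th 1 my (fr.xt j Q x) hR hth hth1 zero_le_one le_rfl hmys
          (fun i => abs_xt_le fr hR hL x i) i
        rwa [mul_one] at h6
      · simpa using h5
  have hmul : kap fr.c my * kap fr.c (fr.xt j Q x) =
      kap fr.c (fr.xt j Q (fun i => x i + (y i : ZMod L))) * kap fr.c (hi fr.w (j + 1) z) := by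
    rw [fr.mul, ← hlo]
    exact kap_split fr.c fr.w fr.w_mono (j + 1) z
  have e : Uo U (kap fr.c my) (fr.VV U j Q R v x) - fr.VV U j Q R v (fun i => x i + (y i : ZMod L)) =
      Uo U (kap fr.c (fr.xt j Q (fun i => x i + (y i : ZMod L))))
        (Uo U (kap fr.c (hi fr.w (j + 1) z)) (fr.Bj U j Q R v) - fr.Bj U j Q R v) := by
    unfold VV
    rw [map_sub, Uo_Uo, Uo_Uo, hmul]
  rw [e, norm_Uo_apply]
  exact hni j Q R (fr.C0 * th) _ v hQ hR (mul_nonneg (by linarith [fr.one_le_C0]) hth) hmem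

lemma avg_apply {α : Type*} (S : Finset α) (f : α → H →L[ℂ] H) (v : H) :
    avg S f v = avg S (fun k => f k v) := by
  unfold avg
  rw [ContinuousLinearMap.smul_apply, ContinuousLinearMap.sum_apply]

end FourPackAux

open FourPackAux

theorem four1 : ∃ K : ℝ, 1 ≤ K ∧ ∀ (j Q : ℕ) (R th : ℝ) (L : ℕ) [NeZero L] (v : H)
    (y : Fin fr.r → ℤ), 1 ≤ j → 1 ≤ Q → 1 ≤ R → (L : ℝ) * (md fr.W fr.D Q j : ℕ) ≤ R ^ j →
    0 ≤ th → th ≤ 1 → (∀ i, fr.w i ≠ j → y i = 0) → (∀ i, |(y i : ℝ)| ≤ th * L) →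
    ∑ xi : Fin fr.r → ZMod L,
      ‖Uo U (kap fr.c (fun i => (md fr.W fr.D Q j : ℤ) * y i)) (hat (fr.VV U j Q R v) xi) -
        Pool.PolyMax.e (phz xi y) • hat (fr.VV U j Q R v) xi‖ ^ 2 ≤ K * th * ‖v‖ ^ 2 := by
  classical
  obtain ⟨K1, hK1, hni⟩ := ni' fr U
  have hKC : 1 ≤ K1 * fr.C0 := one_le_mul_of_one_le_of_one_le hK1 fr.one_le_C0
  refine ⟨(K1 * fr.C0) ^ 2 + 4 * fr.r, ?_, ?_⟩
  · have h1 : 1 ≤ (K1 * fr.C0) ^ 2 := one_le_pow₀ hKC
    have h2 : (0 : ℝ) ≤ fr.r := Nat.cast_nonneg _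
    linarith
  intro j Q R th L _ v y hj hQ hR hL hth hth1 hy0 hy
  have h1 : ∀ xi : Fin fr.r → ZMod L,
      Uo U (kap fr.c (fun i => (md fr.W fr.D Q j : ℤ) * y i)) (hat (fr.VV U j Q R v) xi) -
        Pool.PolyMax.e (phz xi y) • hat (fr.VV U j Q R v) xi =
      hat (fun x => Uo U (kap fr.c (fun i => (md fr.W fr.D Q j : ℤ) * y i)) (fr.VV U j Q R v x) -
        fr.VV U j Q R v (fun i => x i + (y i : ZMod L))) xi := by
    intro xi
    rw [hat_sub, hat_clm, hat_shift]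
  rw [Finset.sum_congr rfl fun xi _ => by rw [h1 xi], parseval]
  have h2 : ∀ x : Fin fr.r → ZMod L,
      ‖Uo U (kap fr.c (fun i => (md fr.W fr.D Q j : ℤ) * y i)) (fr.VV U j Q R v x) -
        fr.VV U j Q R v (fun i => x i + (y i : ZMod L))‖ ^ 2 ≤
      ((K1 * fr.C0) ^ 2 * th * ‖v‖ ^ 2) + ∑ i : Fin fr.r, (4 * ‖v‖ ^ 2) •
        (if ¬ (0 ≤ ((x i).val : ℤ) + y i ∧ ((x i).val : ℤ) + y i < L) then (1 : ℝ) else 0) := by
    intro x
    have hnn : ∀ i ∈ (univ : Finset (Fin fr.r)), 0 ≤ (4 * ‖v‖ ^ 2) •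
        (if ¬ (0 ≤ ((x i).val : ℤ) + y i ∧ ((x i).val : ℤ) + y i < L) then (1 : ℝ) else 0) := by
      intro i _
      rw [smul_eq_mul]
      split_ifs <;> positivity
    have hA : 0 ≤ (K1 * fr.C0) ^ 2 * th * ‖v‖ ^ 2 := by positivity
    by_cases hx : ∀ i, 0 ≤ ((x i).val : ℤ) + y i ∧ ((x i).val : ℤ) + y i < L
    · have h3 := key fr U K1 hni v hj hQ hR hL hth hth1 hy0 hy x hx
      have h4 := pow_le_pow_left₀ (norm_nonneg _) h3 2
      have h5 : (K1 * (fr.C0 * th) * ‖v‖) ^ 2 ≤ (K1 * fr.C0) ^ 2 * th * ‖v‖ ^ 2 := by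
        have h6 : (K1 * (fr.C0 * th) * ‖v‖) ^ 2 = (K1 * fr.C0) ^ 2 * ‖v‖ ^ 2 * th ^ 2 := by ring
        have h7 : th ^ 2 ≤ th := by nlinarith
        have h8 : 0 ≤ (K1 * fr.C0) ^ 2 * ‖v‖ ^ 2 := by positivity
        rw [h6]
        calc _ ≤ (K1 * fr.C0) ^ 2 * ‖v‖ ^ 2 * th := mul_le_mul_of_nonneg_left h7 h8
          _ = _ := by ring
      have h9 := Finset.sum_nonneg hnn
      linarith
    · push Not at hx
      obtain ⟨i, hi⟩ := hx
      have h3 : ‖Uo U (kap fr.c (fun i => (md fr.W fr.D Q j : ℤ) * y i)) (fr.VV U j Q R v x) -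
        fr.VV U j Q R v (fun i => x i + (y i : ZMod L))‖ ≤ 2 * ‖v‖ := by
        refine (norm_sub_le _ _).trans ?_
        rw [norm_Uo_apply]
        have h4 := fr.norm_VV_le U j Q R v x
        have h5 := fr.norm_VV_le U j Q R v (fun i => x i + (y i : ZMod L))
        linarith
      have h4 := pow_le_pow_left₀ (norm_nonneg _) h3 2
      have h5 := Finset.single_le_sum hnn (Finset.mem_univ i)
      rw [if_pos (by push Not; exact hi), smul_eq_mul, mul_one] at h5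
      have h6 : (2 * ‖v‖) ^ 2 = 4 * ‖v‖ ^ 2 := by ring
      linarith
  refine (avg_mono fun x _ => h2 x).trans ?_
  rw [avg_add, avg_const Finset.univ_nonempty]
  have h3 : avg (univ : Finset (Fin fr.r → ZMod L)) (fun x => ∑ i : Fin fr.r, (4 * ‖v‖ ^ 2) •
        (if ¬ (0 ≤ ((x i).val : ℤ) + y i ∧ ((x i).val : ℤ) + y i < L) then (1 : ℝ) else 0)) =
      ∑ i : Fin fr.r, (4 * ‖v‖ ^ 2) • avg (univ : Finset (Fin fr.r → ZMod L)) (fun x =>
        (if ¬ (0 ≤ ((x i).val : ℤ) + y i ∧ ((x i).val : ℤ) + y i < L) then (1 : ℝ) else 0)) := by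
    unfold avg
    rw [Finset.sum_comm, Finset.smul_sum]
    refine Finset.sum_congr rfl fun i _ => ?_
    rw [← Finset.smul_sum, smul_comm]
  rw [h3]
  have h4 : ∑ i : Fin fr.r, (4 * ‖v‖ ^ 2) • avg (univ : Finset (Fin fr.r → ZMod L)) (fun x =>
        (if ¬ (0 ≤ ((x i).val : ℤ) + y i ∧ ((x i).val : ℤ) + y i < L) then (1 : ℝ) else 0)) ≤
      ∑ _i : Fin fr.r, (4 * ‖v‖ ^ 2) * th := by
    refine Finset.sum_le_sum fun i _ => ?_
    rw [smul_eq_mul]
    exact mul_le_mul_of_nonneg_left (sum_bad i (y i) (hy i)) (by positivity)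
  rw [Finset.sum_const, Finset.card_univ, Fintype.card_fin, nsmul_eq_mul] at h4
  refine (add_le_add_right h4 _).trans (le_of_eq ?_)
  ring

theorem four2 : ∃ K : ℝ, 1 ≤ K ∧ ∀ (j Q : ℕ) (R del : ℝ) (L : ℕ) [NeZero L] (v : H) (z : G),
    1 ≤ j → 1 ≤ Q → 1 ≤ R → (L : ℝ) * (md fr.W fr.D Q j : ℕ) ≤ R ^ j → 0 ≤ del → del ≤ 1 →
    z ∈ fr.Sm (j + 1) Q R del →
    ∑ xi : Fin fr.r → ZMod L,
      ‖Uo U z (hat (fr.VV U j Q R v) xi) - hat (fr.VV U j Q R v) xi‖ ^ 2 ≤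
        K * del * ‖v‖ ^ 2 := by
  obtain ⟨K0, hK0⟩ := fr.exists_consts
  obtain ⟨K1, hK1, hni⟩ := ni' fr U
  have hKK : 1 ≤ K1 * K0 := one_le_mul_of_one_le_of_one_le hK1 hK0.one_le
  refine ⟨(K1 * K0) ^ 2, one_le_pow₀ hKK, ?_⟩
  intro j Q R del L _ v z hj hQ hR hL hd hd1 hz
  have h1 : ∀ xi : Fin fr.r → ZMod L,
      Uo U z (hat (fr.VV U j Q R v) xi) - hat (fr.VV U j Q R v) xi =
      hat (fun x => Uo U z (fr.VV U j Q R v x) - fr.VV U j Q R v x) xi := by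
    intro xi
    rw [hat_sub, hat_clm]
  rw [Finset.sum_congr rfl fun xi _ => by rw [h1 xi], parseval]
  refine avg_le_const (by positivity) fun x _ => ?_
  have h2 : ‖Uo U z (fr.VV U j Q R v x) - fr.VV U j Q R v x‖ ≤ K1 * (K0 * del) * ‖v‖ := by
    have hk := kap_xt_mem' fr hj hR hL x
    have hc := hK0.sm_conj (j + 1) Q R del z _ hR hd hd1 hz hk
    have e : z * kap fr.c (fr.xt j Q x) = kap fr.c (fr.xt j Q x) *
        ((kap fr.c (fr.xt j Q x))⁻¹ * z * kap fr.c (fr.xt j Q x)) := by group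
    have e2 : Uo U z (fr.VV U j Q R v x) - fr.VV U j Q R v x = Uo U (kap fr.c (fr.xt j Q x))
        (Uo U ((kap fr.c (fr.xt j Q x))⁻¹ * z * kap fr.c (fr.xt j Q x)) (fr.Bj U j Q R v) -
          fr.Bj U j Q R v) := by
      unfold VV
      rw [map_sub, Uo_Uo, Uo_Uo, ← e]
    rw [e2, norm_Uo_apply]
    exact hni j Q R (K0 * del) _ v hQ hR (mul_nonneg (by linarith [hK0.one_le]) hd) hc
  have h4 := pow_le_pow_left₀ (norm_nonneg _) h2 2
  refine h4.trans ?_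
  have h6 : (K1 * (K0 * del) * ‖v‖) ^ 2 = (K1 * K0) ^ 2 * ‖v‖ ^ 2 * del ^ 2 := by ring
  have h7 : del ^ 2 ≤ del := by nlinarith
  have h8 : 0 ≤ (K1 * K0) ^ 2 * ‖v‖ ^ 2 := by positivity
  rw [h6]
  calc _ ≤ (K1 * K0) ^ 2 * ‖v‖ ^ 2 * del := mul_le_mul_of_nonneg_left h7 h8
    _ = _ := by ring

theorem four3 : ∃ K : ℝ, 1 ≤ K ∧ ∀ (j Q : ℕ) (R del : ℝ) (L : ℕ) [NeZero L] (v : H) {α : Type}
    (S : Finset α) (x : α → G), 1 ≤ j → 1 ≤ Q → 1 ≤ R →
    (L : ℝ) * (md fr.W fr.D Q j : ℕ) ≤ R ^ j → 0 ≤ del → del ≤ 1 →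
    (∀ k ∈ S, x k ∈ fr.Sa 1 R del) →
    ∑ xi : Fin fr.r → ZMod L, ‖avg S (fun k => Uo U (x k)) (hat (fr.VV U j Q R v) xi)‖ ^ 2 ≤
      2 * ‖avg S (fun k => Uo U (x k)) (fr.Bj U j Q R v)‖ ^ 2 + K * del * ‖v‖ ^ 2 ∧
    ‖avg S (fun k => Uo U (x k)) (fr.Bj U j Q R v)‖ ^ 2 ≤
      2 * ∑ xi : Fin fr.r → ZMod L, ‖avg S (fun k => Uo U (x k)) (hat (fr.VV U j Q R v) xi)‖ ^ 2 +
        K * del * ‖v‖ ^ 2 := by
  obtain ⟨K0, hK0⟩ := fr.exists_consts
  obtain ⟨K1, hK1, hni⟩ := ni' fr U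
  have hKK : 1 ≤ K1 * K0 := one_le_mul_of_one_le_of_one_le hK1 hK0.one_le
  refine ⟨2 * (K1 * K0) ^ 2, by linarith [one_le_pow₀ (n := 2) hKK], ?_⟩
  intro j Q R del L _ v α S x hj hQ hR hL hd hd1 hx
  have hpar : ∑ xi : Fin fr.r → ZMod L,
      ‖avg S (fun k => Uo U (x k)) (hat (fr.VV U j Q R v) xi)‖ ^ 2 =
      avg univ (fun y : Fin fr.r → ZMod L =>
        ‖avg S (fun k => Uo U (x k)) (fr.VV U j Q R v y)‖ ^ 2) := by
    rw [← parseval]
    exact Finset.sum_congr rfl fun xi _ => by rw [hat_clm]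
  rw [hpar]
  have hv := norm_nonneg v
  set E : ℝ := K1 * (K0 * (del * 1)) * ‖v‖ with hE
  have hE0 : 0 ≤ E := by
    have := hK0.one_le
    positivity
  have h2 : ∀ y : Fin fr.r → ZMod L,
      ‖avg S (fun k => Uo U (x k)) (fr.VV U j Q R v y) -
        Uo U (kap fr.c (fr.xt j Q y)) (avg S (fun k => Uo U (x k)) (fr.Bj U j Q R v))‖ ≤ E := by
    intro y
    have hk := kap_xt_mem fr hR hL y
    have e : avg S (fun k => Uo U (x k)) (fr.VV U j Q R v y) -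
        Uo U (kap fr.c (fr.xt j Q y)) (avg S (fun k => Uo U (x k)) (fr.Bj U j Q R v)) =
        avg S (fun k => Uo U (x k) (fr.VV U j Q R v y) -
          Uo U (kap fr.c (fr.xt j Q y)) (Uo U (x k) (fr.Bj U j Q R v))) := by
      rw [avg_sub, avg_apply, avg_apply]
      congr 1
      exact map_avg ((Uo U (kap fr.c (fr.xt j Q y))).restrictScalars ℝ) S _
    rw [e]
    refine norm_avg_le_const hE0 fun k hkS => ?_
    have hc := hK0.sm_comm' 1 j Q R del 1 (x k) _ hR hd hd1 zero_le_one le_rfl (hx k hkS) hk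
    rw [add_comm 1 j] at hc
    have e3 : x k * kap fr.c (fr.xt j Q y) = kap fr.c (fr.xt j Q y) * x k *
        ((x k)⁻¹ * (kap fr.c (fr.xt j Q y))⁻¹ * x k * kap fr.c (fr.xt j Q y)) := by group
    have e2 : Uo U (x k) (fr.VV U j Q R v y) -
          Uo U (kap fr.c (fr.xt j Q y)) (Uo U (x k) (fr.Bj U j Q R v)) =
        Uo U (kap fr.c (fr.xt j Q y) * x k)
          (Uo U ((x k)⁻¹ * (kap fr.c (fr.xt j Q y))⁻¹ * x k * kap fr.c (fr.xt j Q y))
            (fr.Bj U j Q R v) - fr.Bj U j Q R v) := by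
      unfold VV
      rw [map_sub, Uo_Uo, Uo_Uo, Uo_Uo, ← e3]
    rw [e2, norm_Uo_apply]
    exact hni j Q R _ _ v hQ hR (mul_nonneg (by linarith [hK0.one_le]) (by linarith)) hc
  have h3 : ∀ y : Fin fr.r → ZMod L, |‖avg S (fun k => Uo U (x k)) (fr.VV U j Q R v y)‖ -
      ‖avg S (fun k => Uo U (x k)) (fr.Bj U j Q R v)‖| ≤ E := by
    intro y
    have h4 := abs_norm_sub_norm_le (avg S (fun k => Uo U (x k)) (fr.VV U j Q R v y))
      (Uo U (kap fr.c (fr.xt j Q y)) (avg S (fun k => Uo U (x k)) (fr.Bj U j Q R v)))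
    rw [norm_Uo_apply] at h4
    exact h4.trans (h2 y)
  have hE2 : 2 * E ^ 2 ≤ 2 * (K1 * K0) ^ 2 * del * ‖v‖ ^ 2 := by
    have h6 : 2 * E ^ 2 = 2 * (K1 * K0) ^ 2 * ‖v‖ ^ 2 * del ^ 2 := by
      rw [hE]
      ring
    have h7 : del ^ 2 ≤ del := by nlinarith
    have h8 : 0 ≤ 2 * (K1 * K0) ^ 2 * ‖v‖ ^ 2 := by positivity
    rw [h6]
    calc _ ≤ 2 * (K1 * K0) ^ 2 * ‖v‖ ^ 2 * del := mul_le_mul_of_nonneg_left h7 h8
      _ = _ := by ring
  constructor
  · refine avg_le_const (by positivity) fun y _ => ?_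
    have h5 := h3 y
    set a := ‖avg S (fun k => Uo U (x k)) (fr.VV U j Q R v y)‖
    set b := ‖avg S (fun k => Uo U (x k)) (fr.Bj U j Q R v)‖
    have h6 : (a - b) ^ 2 ≤ E ^ 2 := sq_le_sq' (by linarith [(abs_le.1 h5).1]) (abs_le.1 h5).2
    nlinarith [sq_nonneg (a - 2 * b)]
  · have h5 : avg univ (fun _ : Fin fr.r → ZMod L =>
        ‖avg S (fun k => Uo U (x k)) (fr.Bj U j Q R v)‖ ^ 2) ≤
        avg univ (fun y : Fin fr.r → ZMod L =>
          (2 : ℝ) • ‖avg S (fun k => Uo U (x k)) (fr.VV U j Q R v y)‖ ^ 2 +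
            2 * (K1 * K0) ^ 2 * del * ‖v‖ ^ 2) := by
      refine avg_mono fun y _ => ?_
      have h5 := h3 y
      set a := ‖avg S (fun k => Uo U (x k)) (fr.VV U j Q R v y)‖
      set b := ‖avg S (fun k => Uo U (x k)) (fr.Bj U j Q R v)‖
      rw [smul_eq_mul]
      have h6 : (a - b) ^ 2 ≤ E ^ 2 := sq_le_sq' (by linarith [(abs_le.1 h5).1]) (abs_le.1 h5).2
      nlinarith [sq_nonneg (2 * a - b)]
    rw [avg_add, avg_const Finset.univ_nonempty, avg_const Finset.univ_nonempty, avg_smul,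
      smul_eq_mul] at h5
    exact h5

/-- the total mass -/
theorem four0 (j Q : ℕ) (R : ℝ) (L : ℕ) [NeZero L] (v : H) :
    ∑ xi : Fin fr.r → ZMod L, ‖hat (fr.VV U j Q R v) xi‖ ^ 2 ≤ ‖v‖ ^ 2 := by
  rw [parseval]
  exact avg_le_const (by positivity) fun x _ =>
    pow_le_pow_left₀ (norm_nonneg _) (fr.norm_VV_le U j Q R v x) 2

end Frame

end Pool.Nil
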