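import Pool.Agent.Nil.Dyad
import Pool.Agent.Nil.BoxMax
import Pool.Agent.PolyMax.Closure

set_option autoImplicit false

/-!
# Nil: from dyadic sequences of lengths to all lengths

`boxMax` and `dyad` apply to `U = koop φ hφ`.

PROOF of `al_koop_ae`: `avg_koop_ae` (`Al U g M 1 = avg (range M) (fun m => Uo U (g (1 * m)))`).

PROOF of `frame_maxL2`: `dyad` with `N k = 2^k`, constant `C`.  Let `v` be measurable.  If `∫⁻ v^2 = ∞` the claim is trivial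
(constant `(2 C + 1)^2 > 0`).  Otherwise `v < ∞` a.e., `f = (v ·).toReal` is in `L²` with `‖f y‖ₑ = v y` for a.e. `y`, so for a.e. `y`
also at all the points `φ (g n)⁻¹ y`.  For `N` choose `k` with `2^k ≤ N + 1 < 2^(k+1)`; then
`(N+1)⁻¹ ∑_{n < N+1} v ≤ 2 (2^(k+1))⁻¹ ∑_{n < 2^(k+1)} v = 2 ‖(Al (2^(k+1)) 1 f) y‖ₑ` (nonnegative terms).  So the supremum
over `N` is at most twice the one in `MS`, and `n2_sq`.

PROOF of `bdd_conv`.  Let `‖f‖_∞ ≤ M0`; for a.e. `x` all `|f (φ (g n)⁻¹ x)| ≤ M0`.  `a N = N⁻¹ ∑_{n < N} f (φ (g n)⁻¹ x)`.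
For `1 ≤ N' ≤ N`: `|a N - a N'| ≤ 2 (N - N') / N * M0`.
For `r ≥ 1`, `j < r` the sequence `k ↦ (r + j) * 2^k / r` (natural division) is `Dy`; so `a` converges along it for a.e.
`x` (`dyad`, `al_koop_ae`), to `L r j x`.  For two pairs `(r, j)`, `(r', j')` the sequence which is the first one for even `k` and
the second one for odd `k` is also `Dy`, so `L r j x = L r' j' x = L x` for a.e. `x` (countably many conditions).  For fixed
such `x` and `r`: for large `N`, `2^k ≤ N < 2^(k+1)`, put `j = ⌊(N - 2^k) r / 2^k⌋ < r` and `N' = (r + j) 2^k / r ≤ N`;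
`N - N' ≤ 2^k / r + 1`, so `|a N - L x| ≤ 2 (1 / r + 2^(-k)) M0 + max_j |a ((r + j) 2^k / r) - L x|`, the lim sup of which is
at most `2 M0 / r`.  As `r` is arbitrary, `a N → L x`.

PROOF of `frame_conv`.  With the complete sequence `F N = Al U g (N + 1) 1 f` in `L²`: `MS univ F ≤ C' ‖f‖` by `frame_maxL2`
(with `v = ‖f ·‖ₑ`, `n2_sq`).  For `ε > 0` choose a bounded `f' ∈ L²` (a simple function,
`MemLp.exists_simpleFunc_eLpNorm_sub_lt`) with `C' ‖f - f'‖ ≤ ε`, and apply `cv_closure` with `F' N = Al (N + 1) 1 f'`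
(`bdd_conv`) and `F'' = Al (N + 1) 1 (f - f')`.
-/

namespace Pool.Nil

open Finset MeasureTheory Filter Topology
open scoped ENNReal NNReal

universe u

variable {G : Type*} [Group G] {α : Type u} [MeasurableSpace α] {μ : Measure α}

lemma al_koop_ae (g : ℤ → G) (φ : G →* Equiv.Perm α) (hφ : ∀ x, MeasurePreserving (φ x) μ μ)
    (M : ℕ) (f : Lp ℂ 2 μ) :
    ∀ᵐ y ∂μ, (Al (koop φ hφ) g M 1 f) y = (M : ℂ)⁻¹ * ∑ m ∈ range M, f (φ (g m)⁻¹ y) := by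
  have h := avg_koop_ae φ hφ (range M) (fun m : ℕ => g (((1 : ℕ) : ℤ) * m)) f
  filter_upwards [h] with y hy
  have h1 : (Al (koop φ hφ) g M 1 f) y =
      (avg (range M) (fun i : ℕ => Uo (koop φ hφ) (g (((1 : ℕ) : ℤ) * i))) f) y := rfl
  rw [h1, hy]
  unfold avg
  rw [card_range, Complex.real_smul]
  push_cast
  simp only [one_mul]

namespace FullAux

/-- the averages of a square integrable function, for all lengths at once -/
lemma al_ae (g : ℤ → G) (φ : G →* Equiv.Perm α) (hφ : ∀ x, MeasurePreserving (φ x) μ μ)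
    (f : α → ℂ) (hf : MemLp f 2 μ) :
    ∀ᵐ x ∂μ, ∀ M : ℕ, (Al (koop φ hφ) g M 1 (hf.toLp f)) x =
      (M : ℂ)⁻¹ * ∑ m ∈ range M, f (φ (g m)⁻¹ x) := by
  have h1 : ∀ᵐ x ∂μ, ∀ M : ℕ, (Al (koop φ hφ) g M 1 (hf.toLp f)) x =
      (M : ℂ)⁻¹ * ∑ m ∈ range M, (hf.toLp f) (φ (g m)⁻¹ x) := by
    rw [ae_all_iff]
    intro M
    exact al_koop_ae g φ hφ M _
  have h2 : ∀ᵐ x ∂μ, ∀ m : ℕ, (hf.toLp f) (φ (g m)⁻¹ x) = f (φ (g m)⁻¹ x) := by
    rw [ae_all_iff]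
    intro m
    exact (hφ (g m)⁻¹).quasiMeasurePreserving.ae hf.coeFn_toLp
  filter_upwards [h1, h2] with x hx1 hx2 M
  rw [hx1 M]
  congr 1
  exact sum_congr rfl fun m _ => hx2 m

lemma dy_two : Dy (fun k => 2 ^ k) := fun k =>
  ⟨le_rfl, Nat.pow_lt_pow_right (by norm_num) (Nat.lt_succ_self k)⟩

lemma dy_S (r j : ℕ) (hr : 1 ≤ r) (hj : j < r) (k : ℕ) :
    2 ^ k ≤ (r + j) * 2 ^ k / r ∧ (r + j) * 2 ^ k / r < 2 ^ (k + 1) := by
  constructor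
  · rw [Nat.le_div_iff_mul_le (by omega)]
    rw [mul_comm]
    exact Nat.mul_le_mul_right _ (Nat.le_add_right r j)
  · rw [Nat.div_lt_iff_lt_mul (by omega), pow_succ]
    have h1 : 0 < 2 ^ k := pow_pos (by norm_num) k
    nlinarith

lemma dy_S' (r j : ℕ) (hr : 1 ≤ r) (hj : j < r) : Dy (fun k => (r + j) * 2 ^ k / r) :=
  fun k => dy_S r j hr hj k

lemma dy_I (r j : ℕ) (hr : 1 ≤ r) (hj : j < r) :
    Dy (fun k => if Even k then 2 ^ k else (r + j) * 2 ^ k / r) := by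
  intro k
  by_cases h : Even k
  · simp only [h, if_true]
    exact dy_two k
  · simp only [h, if_false]
    exact dy_S r j hr hj k

/-- the deterministic part of `bdd_conv` -/
lemma seq_conv (a : ℕ → ℂ) (M0 : ℝ) (hM : 0 ≤ M0)
    (h : ∀ N N' : ℕ, 1 ≤ N' → N' ≤ N → ‖a N - a N'‖ ≤ 2 * ((N : ℝ) - N') / N * M0)
    (hS : ∀ r j : ℕ, 1 ≤ r → j < r → ∃ L, Tendsto (fun k => a ((r + j) * 2 ^ k / r)) atTop (𝓝 L))
    (hI : ∀ r j : ℕ, 1 ≤ r → j < r → ∃ L,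
      Tendsto (fun k => a (if Even k then 2 ^ k else (r + j) * 2 ^ k / r)) atTop (𝓝 L)) :
    ∃ L, Tendsto a atTop (𝓝 L) := by
  obtain ⟨L, hL⟩ := hS 1 0 le_rfl zero_lt_one
  have hL' : Tendsto (fun k => a (2 ^ k)) atTop (𝓝 L) := by
    simpa using hL
  have he : Tendsto (fun m : ℕ => 2 * m) atTop atTop :=
    tendsto_id.const_mul_atTop' (by norm_num)
  have ho : Tendsto (fun m : ℕ => 2 * m + 1) atTop atTop :=
    tendsto_atTop_mono (fun m => Nat.le_succ _) he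
  have key : ∀ r j : ℕ, 1 ≤ r → j < r →
      Tendsto (fun k => a ((r + j) * 2 ^ k / r)) atTop (𝓝 L) := by
    intro r j hr hj
    obtain ⟨L1, hL1⟩ := hS r j hr hj
    obtain ⟨L2, hL2⟩ := hI r j hr hj
    have h1 : Tendsto (fun m : ℕ => a (2 ^ (2 * m))) atTop (𝓝 L) := hL'.comp he
    have h2 : Tendsto (fun m : ℕ => a (2 ^ (2 * m))) atTop (𝓝 L2) := by
      have h3 := hL2.comp he
      refine h3.congr fun m => ?_
      simp
    have h3 : Tendsto (fun m : ℕ => a ((r + j) * 2 ^ (2 * m + 1) / r)) atTop (𝓝 L1) :=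
      hL1.comp ho
    have h4 : Tendsto (fun m : ℕ => a ((r + j) * 2 ^ (2 * m + 1) / r)) atTop (𝓝 L2) := by
      have h5 := hL2.comp ho
      refine h5.congr fun m => ?_
      have h6 : ¬ Even (2 * m + 1) := by simp
      simp only [Function.comp_apply, h6, if_false]
    have h5 : L = L2 := tendsto_nhds_unique h1 h2
    have h6 : L1 = L2 := tendsto_nhds_unique h3 h4
    rw [h5, ← h6]
    exact hL1
  refine ⟨L, ?_⟩
  rw [Metric.tendsto_atTop]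
  intro ε hε
  -- choose r
  obtain ⟨r, hr⟩ := exists_nat_gt (6 * M0 / ε + 1)
  have hr1 : 1 ≤ r := by
    have h1 : (1 : ℝ) < r := lt_of_le_of_lt (by
      have : 0 ≤ 6 * M0 / ε := by positivity
      linarith) hr
    exact_mod_cast h1.le
  have hr0 : (0 : ℝ) < r := by exact_mod_cast hr1
  have hrM : 2 * M0 / r < ε / 3 := by
    rw [div_lt_iff₀ hr0]
    have h1 : 6 * M0 / ε < r := by linarith
    rw [div_lt_iff₀ hε] at h1
    linarith
  have hj : ∀ j ∈ range r, ∀ᶠ k in atTop, ‖a ((r + j) * 2 ^ k / r) - L‖ < ε / 3 := by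
    intro j hj
    have h1 := key r j hr1 (mem_range.1 hj)
    rw [Metric.tendsto_nhds] at h1
    have h2 := h1 (ε / 3) (by positivity)
    filter_upwards [h2] with k hk
    rwa [dist_eq_norm] at hk
  have hjall : ∀ᶠ k in atTop, ∀ j ∈ range r, ‖a ((r + j) * 2 ^ k / r) - L‖ < ε / 3 :=
    (eventually_all_finset _).2 hj
  have hpow : ∀ᶠ k : ℕ in atTop, 2 * M0 / 2 ^ k < ε / 3 := by
    have h1 : Tendsto (fun k : ℕ => 2 * M0 / (2 : ℝ) ^ k) atTop (𝓝 0) :=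
      Tendsto.const_div_atTop (tendsto_pow_atTop_atTop_of_one_lt (by norm_num)) _
    exact (tendsto_order.1 h1).2 _ (by positivity)
  obtain ⟨K, hK⟩ := eventually_atTop.1 (hjall.and hpow)
  refine ⟨2 ^ K, fun N hN => ?_⟩
  have hN0 : N ≠ 0 := by
    have : 0 < 2 ^ K := pow_pos (by norm_num) K
    omega
  set k := Nat.log 2 N with hk
  have hkK : K ≤ k := by
    rw [hk]
    exact (Nat.le_log_iff_pow_le (by norm_num) hN0).2 hN
  have h2k : 2 ^ k ≤ N := Nat.pow_log_le_self 2 hN0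
  have h2k' : N < 2 ^ (k + 1) := Nat.lt_pow_succ_log_self (by norm_num) N
  have hkpos : 0 < 2 ^ k := pow_pos (by norm_num) k
  obtain ⟨M, hM'⟩ : ∃ M, N = 2 ^ k + M := ⟨N - 2 ^ k, by omega⟩
  have hMlt : M < 2 ^ k := by
    rw [pow_succ] at h2k'
    omega
  set j := M * r / 2 ^ k with hjdef
  have hjr : j < r := by
    rw [hjdef, Nat.div_lt_iff_lt_mul hkpos]
    nlinarith
  have hj1 : j * 2 ^ k ≤ M * r := Nat.div_mul_le_self _ _
  have hj2 : M * r < (j + 1) * 2 ^ k := by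
    rw [hjdef]
    exact Nat.lt_mul_of_div_lt (Nat.lt_succ_self _) hkpos
  set N' := (r + j) * 2 ^ k / r with hN'
  have hN'1 : 2 ^ k ≤ N' := (dy_S r j hr1 hjr k).1
  have hN'N : N' ≤ N := by
    rw [hN']
    apply Nat.div_le_of_le_mul
    rw [hM']
    nlinarith
  have hN'2 : (r + j) * 2 ^ k < r * (N' + 1) := by
    rw [hN']
    exact Nat.lt_mul_div_succ _ (by omega)
  have hdiff : (r : ℝ) * ((N : ℝ) - N') < 2 ^ k + r := by
    have h1 : ((r + j) * 2 ^ k : ℝ) < r * (N' + 1) := by exact_mod_cast hN'2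
    have h2 : (M * r : ℝ) < (j + 1) * 2 ^ k := by exact_mod_cast hj2
    have h3 : (N : ℝ) = 2 ^ k + M := by
      rw [hM']
      push_cast
      ring
    rw [h3]
    nlinarith
  have hNr : (2 : ℝ) ^ k ≤ N := by exact_mod_cast h2k
  have h2kr : (0 : ℝ) < 2 ^ k := by positivity
  have hNr0 : (0 : ℝ) < N := lt_of_lt_of_le h2kr hNr
  have hb := h N N' (le_trans hkpos hN'1) hN'N
  have hNN : (0 : ℝ) ≤ (N : ℝ) - N' := by
    have : (N' : ℝ) ≤ N := by exact_mod_cast hN'N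
    linarith
  have hbd : 2 * ((N : ℝ) - N') / N * M0 ≤ 2 * M0 / r + 2 * M0 / 2 ^ k := by
    have h1 : 2 * ((N : ℝ) - N') / N ≤ 2 * ((N : ℝ) - N') / 2 ^ k :=
      div_le_div_of_nonneg_left (by linarith) h2kr hNr
    have h2 : ((N : ℝ) - N') ≤ 2 ^ k / r + 1 := by
      rw [← sub_nonneg]
      have h3 : (2 : ℝ) ^ k / r + 1 - (N - N') = (2 ^ k + r - r * (N - N')) / r := by
        field_simp
      rw [h3]
      exact div_nonneg (by linarith) hr0.le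
    have h3 : 2 * ((N : ℝ) - N') / 2 ^ k ≤ 2 * (2 ^ k / r + 1) / 2 ^ k :=
      div_le_div_of_nonneg_right (by linarith) h2kr.le
    calc 2 * ((N : ℝ) - N') / N * M0 ≤ 2 * (2 ^ k / r + 1) / 2 ^ k * M0 :=
          mul_le_mul_of_nonneg_right (h1.trans h3) hM
      _ = 2 * M0 / r + 2 * M0 / 2 ^ k := by field_simp
  obtain ⟨hK1, hK2⟩ := hK k hkK
  have h3 := hK1 j (mem_range.2 hjr)
  rw [dist_eq_norm]
  calc ‖a N - L‖ = ‖(a N - a N') + (a N' - L)‖ := by rw [sub_add_sub_cancel]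
    _ ≤ ‖a N - a N'‖ + ‖a N' - L‖ := norm_add_le _ _
    _ < ε := by linarith

/-- the averages of a bounded sequence vary slowly -/
lemma slow (u : ℕ → ℂ) (M0 : ℝ) (hu : ∀ n, ‖u n‖ ≤ M0) (N N' : ℕ) (h1 : 1 ≤ N') (h2 : N' ≤ N) :
    ‖(N : ℂ)⁻¹ * ∑ n ∈ range N, u n - (N' : ℂ)⁻¹ * ∑ n ∈ range N', u n‖ ≤
      2 * ((N : ℝ) - N') / N * M0 := by
  obtain ⟨m, rfl⟩ := Nat.exists_eq_add_of_le h2
  have hN' : (0 : ℝ) < N' := by exact_mod_cast h1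
  have hNr : (0 : ℝ) < ((N' + m : ℕ) : ℝ) := by
    push_cast
    positivity
  have hN'c : (N' : ℂ) ≠ 0 := by exact_mod_cast hN'.ne'
  have hNc : ((N' + m : ℕ) : ℂ) ≠ 0 := by exact_mod_cast hNr.ne'
  have hM0 : 0 ≤ M0 := (norm_nonneg _).trans (hu 0)
  rw [sum_range_add]
  have h3 : ((N' + m : ℕ) : ℂ)⁻¹ * (∑ n ∈ range N', u n + ∑ n ∈ range m, u (N' + n)) -
      (N' : ℂ)⁻¹ * ∑ n ∈ range N', u n =
      ((N' + m : ℕ) : ℂ)⁻¹ * ∑ n ∈ range m, u (N' + n) -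
        (m : ℂ) * (((N' + m : ℕ) : ℂ)⁻¹ * (N' : ℂ)⁻¹) * ∑ n ∈ range N', u n := by
    have h4 : (N' : ℂ)⁻¹ - ((N' + m : ℕ) : ℂ)⁻¹ = (m : ℂ) * (((N' + m : ℕ) : ℂ)⁻¹ * (N' : ℂ)⁻¹) := by
      field_simp
      push_cast
      ring
    rw [← h4]
    ring
  rw [h3]
  have h5 : ‖∑ n ∈ range m, u (N' + n)‖ ≤ m * M0 := by
    calc ‖∑ n ∈ range m, u (N' + n)‖ ≤ ∑ n ∈ range m, ‖u (N' + n)‖ := norm_sum_le _ _
      _ ≤ ∑ _n ∈ range m, M0 := sum_le_sum fun n _ => hu _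
      _ = m * M0 := by simp
  have h6 : ‖∑ n ∈ range N', u n‖ ≤ N' * M0 := by
    calc ‖∑ n ∈ range N', u n‖ ≤ ∑ n ∈ range N', ‖u n‖ := norm_sum_le _ _
      _ ≤ ∑ _n ∈ range N', M0 := sum_le_sum fun n _ => hu _
      _ = N' * M0 := by simp
  calc ‖((N' + m : ℕ) : ℂ)⁻¹ * ∑ n ∈ range m, u (N' + n) -
        (m : ℂ) * (((N' + m : ℕ) : ℂ)⁻¹ * (N' : ℂ)⁻¹) * ∑ n ∈ range N', u n‖
      ≤ ‖((N' + m : ℕ) : ℂ)⁻¹ * ∑ n ∈ range m, u (N' + n)‖ +
        ‖(m : ℂ) * (((N' + m : ℕ) : ℂ)⁻¹ * (N' : ℂ)⁻¹) * ∑ n ∈ range N', u n‖ := norm_sub_le _ _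
    _ ≤ (((N' + m : ℕ) : ℝ))⁻¹ * (m * M0) +
        (m : ℝ) * ((((N' + m : ℕ) : ℝ))⁻¹ * (N' : ℝ)⁻¹) * (N' * M0) := by
        rw [norm_mul, norm_mul, norm_mul, norm_mul, norm_inv, norm_inv, Complex.norm_natCast,
          Complex.norm_natCast, Complex.norm_natCast]
        gcongr
    _ = 2 * (((N' + m : ℕ) : ℝ) - N') / ((N' + m : ℕ) : ℝ) * M0 := by
        field_simp
        push_cast
        ring

end FullAux

open FullAux

theorem frame_maxL2 {g : ℤ → G} (fr : Frame g) (φ : G →* Equiv.Perm α)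
    (hφ : ∀ x, MeasurePreserving (φ x) μ μ) :
    Pool.PolyMax.MaxL2 (fun n : ℕ => ⇑(φ (g n)⁻¹)) μ := by
  obtain ⟨C0, hC0, hD⟩ := fr.dyad (koop φ hφ) (boxMax fr φ hφ)
  refine ⟨(2 * C0.toNNReal) ^ 2 + 1, fun v hv => ?_⟩
  by_cases hfin : ∫⁻ x, v x ^ 2 ∂μ = ∞
  · rw [hfin, ENNReal.mul_top]
    · exact le_top
    · have : (2 * C0.toNNReal) ^ 2 + 1 ≠ 0 := by positivity
      exact_mod_cast this
  have hvfin : ∀ᵐ x ∂μ, v x ≠ ∞ := by
    have h1 := ae_lt_top (hv.pow_const 2) hfin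
    filter_upwards [h1] with x hx h2
    rw [h2] at hx
    simp at hx
  set f0 : α → ℂ := fun x => (((v x).toReal : ℝ) : ℂ) with hf0
  have hf0m : Measurable f0 := Complex.measurable_ofReal.comp hv.ennreal_toReal
  have hnorm : ∀ᵐ x ∂μ, ‖f0 x‖ₑ = v x := by
    filter_upwards [hvfin] with x hx
    rw [hf0]
    simp only
    rw [← ofReal_norm, Complex.norm_real, Real.norm_eq_abs,
      abs_of_nonneg ENNReal.toReal_nonneg, ENNReal.ofReal_toReal hx]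
  have hf : MemLp f0 2 μ := by
    refine ⟨hf0m.aestronglyMeasurable, ?_⟩
    rw [eLpNorm_lt_top_iff_lintegral_rpow_enorm_lt_top (by norm_num) (by norm_num)]
    have h1 : ∫⁻ x, ‖f0 x‖ₑ ^ (ENNReal.toReal 2) ∂μ = ∫⁻ x, v x ^ 2 ∂μ := by
      apply lintegral_congr_ae
      filter_upwards [hnorm] with x hx
      rw [hx]
      norm_num
    rw [h1]
    exact lt_top_iff_ne_top.2 hfin
  have hal := al_ae g φ hφ f0 hf
  have hvall : ∀ᵐ x ∂μ, ∀ n : ℕ, v (φ (g n)⁻¹ x) ≠ ∞ := by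
    rw [ae_all_iff]
    intro n
    exact (hφ (g n)⁻¹).quasiMeasurePreserving.ae hvfin
  obtain ⟨hMS, _⟩ := hD (fun k => 2 ^ k) dy_two (hf.toLp f0)
  have hpt : ∀ᵐ x ∂μ, (⨆ N : ℕ, ((N + 1 : ℕ) : ℝ≥0∞)⁻¹ *
      ∑ n ∈ range (N + 1), v ((fun n : ℕ => ⇑(φ (g n)⁻¹)) n x)) ≤
      2 * ⨆ k ∈ (Set.univ : Set ℕ), ‖(Al (koop φ hφ) g (2 ^ k) 1 (hf.toLp f0)) x‖ₑ := by
    filter_upwards [hal, hvall] with x hx1 hx2
    refine iSup_le fun N => ?_
    set k := Nat.log 2 (N + 1) with hk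
    have h2k : 2 ^ k ≤ N + 1 := Nat.pow_log_le_self 2 (Nat.succ_ne_zero N)
    have h2k' : N + 1 < 2 ^ (k + 1) := Nat.lt_pow_succ_log_self (by norm_num) _
    have hnormAl : ‖(Al (koop φ hφ) g (2 ^ (k + 1)) 1 (hf.toLp f0)) x‖ₑ =
        ((2 ^ (k + 1) : ℕ) : ℝ≥0∞)⁻¹ * ∑ m ∈ range (2 ^ (k + 1)), v (φ (g m)⁻¹ x) := by
      rw [hx1]
      have h3 : ∀ m : ℕ, f0 (φ (g m)⁻¹ x) = (((v (φ (g m)⁻¹ x)).toReal : ℝ) : ℂ) := fun _ => rfl
      simp only [h3]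
      rw [← Complex.ofReal_sum, ← Complex.ofReal_natCast, ← Complex.ofReal_inv,
        ← Complex.ofReal_mul, ← ofReal_norm, Complex.norm_real, Real.norm_eq_abs,
        abs_of_nonneg (by positivity), ENNReal.ofReal_mul (by positivity),
        ENNReal.ofReal_inv_of_pos (by positivity), ENNReal.ofReal_natCast,
        ENNReal.ofReal_sum_of_nonneg (fun _ _ => ENNReal.toReal_nonneg)]
      congr 1
      exact sum_congr rfl fun m _ => ENNReal.ofReal_toReal (hx2 m)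
    have hle : ‖(Al (koop φ hφ) g (2 ^ (k + 1)) 1 (hf.toLp f0)) x‖ₑ ≤
        ⨆ k ∈ (Set.univ : Set ℕ), ‖(Al (koop φ hφ) g (2 ^ k) 1 (hf.toLp f0)) x‖ₑ :=
      le_iSup₂_of_le (k + 1) (Set.mem_univ _) le_rfl
    calc ((N + 1 : ℕ) : ℝ≥0∞)⁻¹ * ∑ n ∈ range (N + 1), v ((fun n : ℕ => ⇑(φ (g n)⁻¹)) n x)
        ≤ ((2 ^ k : ℕ) : ℝ≥0∞)⁻¹ * ∑ m ∈ range (2 ^ (k + 1)), v (φ (g m)⁻¹ x) := by
          refine mul_le_mul' (ENNReal.inv_le_inv.2 (by exact_mod_cast h2k)) ?_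
          exact sum_le_sum_of_subset (range_subset_range.2 h2k'.le)
      _ = 2 * (((2 ^ (k + 1) : ℕ) : ℝ≥0∞)⁻¹ * ∑ m ∈ range (2 ^ (k + 1)), v (φ (g m)⁻¹ x)) := by
          rw [← mul_assoc]
          congr 1
          have h5 : ((2 ^ (k + 1) : ℕ) : ℝ≥0∞) = 2 * ((2 ^ k : ℕ) : ℝ≥0∞) := by
            push_cast
            rw [pow_succ, mul_comm]
          rw [h5, ENNReal.mul_inv (Or.inl (by norm_num)) (Or.inl (by norm_num)), ← mul_assoc,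
            ENNReal.mul_inv_cancel (by norm_num) (by norm_num), one_mul]
      _ ≤ _ := by
          rw [← hnormAl]
          exact mul_le_mul_right hle 2
  have h1 : n2 μ (fun x => ⨆ N : ℕ, ((N + 1 : ℕ) : ℝ≥0∞)⁻¹ *
      ∑ n ∈ range (N + 1), v ((fun n : ℕ => ⇑(φ (g n)⁻¹)) n x)) ≤
      2 * ENNReal.ofReal (C0 * ‖hf.toLp f0‖) := by
    refine (n2_mono hpt).trans ?_
    rw [n2_const_mul (by norm_num)]
    exact mul_le_mul_right hMS 2
  rw [n2_le_iff] at h1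
  refine h1.trans ?_
  have h2 : ENNReal.ofReal (C0 * ‖hf.toLp f0‖) = (C0.toNNReal : ℝ≥0∞) * n2 μ v := by
    rw [ENNReal.ofReal_mul hC0, ofReal_norm, ← n2_Lp]
    congr 1
    apply n2_congr
    filter_upwards [hf.coeFn_toLp, hnorm] with x hx1 hx2
    rw [hx1, hx2]
  rw [h2, ← mul_assoc, mul_pow, n2_sq]
  refine mul_le_mul_left ?_ _
  push_cast
  exact le_self_add

theorem bdd_conv {g : ℤ → G} (fr : Frame g) (φ : G →* Equiv.Perm α)
    (hφ : ∀ x, MeasurePreserving (φ x) μ μ) (f : α → ℂ) (hf : MemLp f 2 μ) (hf' : MemLp f ∞ μ) :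
    ∀ᵐ x ∂μ, ∃ L : ℂ, Tendsto (fun N : ℕ => (N : ℂ)⁻¹ * ∑ n ∈ range N, f (φ (g n)⁻¹ x))
      atTop (𝓝 L) := by
  obtain ⟨C0, hC0, hD⟩ := fr.dyad (koop φ hφ) (boxMax fr φ hφ)
  have hal := al_ae g φ hφ f hf
  have hconv : ∀ N : ℕ → ℕ, Dy N → ∀ᵐ x ∂μ, ∃ L : ℂ,
      Tendsto (fun k : ℕ => ((N k : ℕ) : ℂ)⁻¹ * ∑ n ∈ range (N k), f (φ (g n)⁻¹ x))
        atTop (𝓝 L) := by
    intro N hN
    have h1 := (hD N hN (hf.toLp f)).2
    unfold Cv at h1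
    filter_upwards [h1, hal] with x hx1 hx2
    obtain ⟨L, hL⟩ := hx1
    exact ⟨L, hL.congr fun k => hx2 (N k)⟩
  have hS : ∀ᵐ x ∂μ, ∀ r j : ℕ, 1 ≤ r → j < r → ∃ L : ℂ,
      Tendsto (fun k : ℕ => (((r + j) * 2 ^ k / r : ℕ) : ℂ)⁻¹ *
        ∑ n ∈ range ((r + j) * 2 ^ k / r), f (φ (g n)⁻¹ x)) atTop (𝓝 L) := by
    rw [ae_all_iff]
    intro r
    rw [ae_all_iff]
    intro j
    by_cases h : 1 ≤ r ∧ j < r
    · filter_upwards [hconv _ (dy_S' r j h.1 h.2)] with x hx _ _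
      exact hx
    · exact Eventually.of_forall fun x h1 h2 => absurd ⟨h1, h2⟩ h
  have hI : ∀ᵐ x ∂μ, ∀ r j : ℕ, 1 ≤ r → j < r → ∃ L : ℂ,
      Tendsto (fun k : ℕ => (((if Even k then 2 ^ k else (r + j) * 2 ^ k / r) : ℕ) : ℂ)⁻¹ *
        ∑ n ∈ range (if Even k then 2 ^ k else (r + j) * 2 ^ k / r), f (φ (g n)⁻¹ x))
        atTop (𝓝 L) := by
    rw [ae_all_iff]
    intro r
    rw [ae_all_iff]
    intro j
    by_cases h : 1 ≤ r ∧ j < r
    · filter_upwards [hconv _ (dy_I r j h.1 h.2)] with x hx _ _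
      exact hx
    · exact Eventually.of_forall fun x h1 h2 => absurd ⟨h1, h2⟩ h
  have hbd : ∀ᵐ x ∂μ, ‖f x‖ ≤ (eLpNorm f ∞ μ).toReal := by
    have h2 := ae_le_eLpNormEssSup (f := f) (μ := μ)
    filter_upwards [h2] with x hx
    rw [← eLpNorm_exponent_top] at hx
    have := ENNReal.toReal_mono hf'.eLpNorm_ne_top hx
    simpa using this
  have hbdall : ∀ᵐ x ∂μ, ∀ n : ℕ, ‖f (φ (g n)⁻¹ x)‖ ≤ (eLpNorm f ∞ μ).toReal := by
    rw [ae_all_iff]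
    intro n
    exact (hφ (g n)⁻¹).quasiMeasurePreserving.ae hbd
  filter_upwards [hS, hI, hbdall] with x hx1 hx2 hx3
  refine seq_conv (fun N : ℕ => (N : ℂ)⁻¹ * ∑ n ∈ range N, f (φ (g n)⁻¹ x))
    (eLpNorm f ∞ μ).toReal ENNReal.toReal_nonneg ?_ hx1 hx2
  intro N N' h1 h2
  exact slow (fun n => f (φ (g n)⁻¹ x)) _ hx3 N N' h1 h2

theorem frame_conv {g : ℤ → G} (fr : Frame g) (φ : G →* Equiv.Perm α)
    (hφ : ∀ x, MeasurePreserving (φ x) μ μ) (f : α → ℂ) (hf : MemLp f 2 μ) :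
    ∀ᵐ x ∂μ, ∃ L : ℂ, Tendsto (fun N : ℕ => (N : ℂ)⁻¹ * ∑ n ∈ range N, f (φ (g n)⁻¹ x))
      atTop (𝓝 L) := by
  obtain ⟨C, hC⟩ := frame_maxL2 fr φ hφ
  -- the maximal inequality in the form of the norms
  have hmax : ∀ h : Lp ℂ 2 μ, MS Set.univ (fun N : ℕ => Al (koop φ hφ) g (N + 1) 1 h) ≤
      ENNReal.ofReal (((C : ℝ) + 1) * ‖h‖) := by
    intro h
    have hv : Measurable fun x => ‖h x‖ₑ := (Lp.stronglyMeasurable h).measurable.enorm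
    have h1 := hC (fun x => ‖h x‖ₑ) hv
    have h2 : ∀ N ∈ (Set.univ : Set ℕ), ∀ᵐ x ∂μ, ‖(Al (koop φ hφ) g (N + 1) 1 h) x‖ₑ ≤
        ⨆ N : ℕ, ((N + 1 : ℕ) : ℝ≥0∞)⁻¹ *
          ∑ n ∈ range (N + 1), ‖h ((fun n : ℕ => ⇑(φ (g n)⁻¹)) n x)‖ₑ := by
      intro N _
      have h3 := avg_koop_enorm φ hφ (range (N + 1)) (fun m : ℕ => g (((1 : ℕ) : ℤ) * m)) h
      filter_upwards [h3] with x hx
      refine le_trans hx ?_
      refine le_iSup_of_le N ?_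
      rw [card_range]
      simp only [Nat.cast_one, one_mul]
      exact le_rfl
    refine (MS_le_n2 h2).trans ?_
    rw [n2_le_iff]
    refine h1.trans ?_
    rw [← n2_sq, n2_Lp, ENNReal.ofReal_mul (by positivity), ofReal_norm, mul_pow]
    refine mul_le_mul_left ?_ _
    have h4 : ENNReal.ofReal ((C : ℝ) + 1) = ((C + 1 : ℝ≥0) : ℝ≥0∞) := by
      have h6 : ((C : ℝ) + 1) = ((C + 1 : ℝ≥0) : ℝ) := by push_cast; rfl
      rw [h6, ENNReal.ofReal_coe_nnreal]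
    rw [h4]
    have h5 : (C : ℝ≥0) ≤ (C + 1) ^ 2 := by nlinarith [C.coe_nonneg]
    exact_mod_cast h5
  have hcv : Cv (fun N : ℕ => Al (koop φ hφ) g (N + 1) 1 (hf.toLp f)) := by
    refine cv_closure fun ε hε => ?_
    obtain ⟨s, hs1, hs2⟩ := hf.exists_simpleFunc_eLpNorm_sub_lt (by norm_num)
      (ε := ENNReal.ofReal (ε / ((C : ℝ) + 1)))
      (ENNReal.ofReal_pos.2 (by positivity)).ne'
    have hs3 : MemLp s ∞ μ := s.memLp_top μ
    refine ⟨0, fun N => Al (koop φ hφ) g (N + 1) 1 (hs2.toLp s),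
      fun N => Al (koop φ hφ) g (N + 1) 1 (hf.toLp f - hs2.toLp s), ?_, ?_, ?_⟩
    · intro k _
      rw [← map_add, add_sub_cancel]
    · have h1 := bdd_conv fr φ hφ s hs2 hs3
      have h2 := al_ae g φ hφ s hs2
      unfold Cv
      filter_upwards [h1, h2] with x hx1 hx2
      obtain ⟨L, hL⟩ := hx1
      refine ⟨L, ?_⟩
      have h3 := (tendsto_add_atTop_iff_nat 1).2 hL
      refine h3.congr fun k => ?_
      exact (hx2 (k + 1)).symm
    · refine (MS_mono_set (Set.subset_univ _) _).trans ((hmax _).trans ?_)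
      apply ENNReal.ofReal_le_ofReal
      have h1 : ‖hf.toLp f - hs2.toLp s‖ ≤ ε / ((C : ℝ) + 1) := by
        rw [← MemLp.toLp_sub, Lp.norm_toLp]
        have h2 := ENNReal.toReal_mono ENNReal.ofReal_ne_top hs1.le
        rwa [ENNReal.toReal_ofReal (by positivity)] at h2
      calc ((C : ℝ) + 1) * ‖hf.toLp f - hs2.toLp s‖ ≤ ((C : ℝ) + 1) * (ε / ((C : ℝ) + 1)) :=
            mul_le_mul_of_nonneg_left h1 (by positivity)
        _ = ε := by field_simp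
  have hal := al_ae g φ hφ f hf
  unfold Cv at hcv
  filter_upwards [hcv, hal] with x hx1 hx2
  obtain ⟨L, hL⟩ := hx1
  refine ⟨L, ?_⟩
  rw [← tendsto_add_atTop_iff_nat 1]
  exact hL.congr fun k => hx2 (k + 1)

end Pool.Nil
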