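import Pool.Agent.Nil.Filt

set_option autoImplicit false

/-!
# Nil: the Leibniz rule for iterated differences of commutators

Congruence modulo a filtration subgroup: `x ≡ y mod F m` means `x⁻¹ * y ∈ F m`.  We assume `F 0 = ⊤`, so all
`F m` are normal (`normal_F`) and `≡` is a congruence; the elements of `F i` and `F j` commute modulo
`F (i + j)`.  `cm x y = x⁻¹ y⁻¹ x y`.

PROOFS.
`dz_mul_mod`: for `A, B` polynomial of level `m ≥ 1`: `dz (A * B) = B⁻¹ (dz A) B (dz B)`, and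
`B⁻¹ u B ≡ u` with an error which is polynomial of level `(m + 1) + m ≥ m + 2`; so
`dz (A * B) = dz A * dz B * rho` with `rho` polynomial of level `m + 2`.
`iter_mul`: `dz^[n] (A * B) n0 ≡ dz^[n] A n0 * dz^[n] B n0 mod F (m + n + 1)`, by induction on `n` from
`dz_mul_mod`, in the form: `dz^[n] (A * B * R) ≡ ...` for polynomial `R` of level `m + 1` (then
`dz^[n] R n0 ∈ F (m + 1 + n)`), generalizing `m A B R`.
`leib_dz_cm`: for `E` of level `i`, `δ` of level `j` (`1 ≤ i`, `1 ≤ j`):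
`dz (cm E δ) = cm (dz E) δ * cm E (dz δ) * R` with `R` polynomial of level `i + j + 2`
(expand `cm (E * dz E) (δ * dz δ)`; `f (n + 1) = f n * dz f n`).
`leibniz`: induction on `n` generalizing `i j E δ`, from `leib_dz_cm`, `iter_mul` and Pascal's rule; the factors
commute modulo `F (i + j + n + 1)` because they all lie in `F (i + j + n)` and `i + j + n ≥ 1`.
-/

namespace Pool.Nil

open Finset

variable {G : Type*} [Group G] {F : ℕ → Subgroup G}

/-- the commutator `x⁻¹ y⁻¹ x y` -/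
def cm (x y : G) : G := x⁻¹ * y⁻¹ * x * y

/-- congruence modulo a subgroup -/
def Cg (N : Subgroup G) (x y : G) : Prop := x⁻¹ * y ∈ N

lemma normal_F (hF : Filt F) (h0 : F 0 = ⊤) (m : ℕ) : (F m).Normal := by
  refine ⟨fun x hx y => hF.conj hx ?_⟩
  rw [h0]
  exact Subgroup.mem_top _

lemma cm_mem (hF : Filt F) {i j : ℕ} {x y : G} (hx : x ∈ F i) (hy : y ∈ F j) :
    cm x y ∈ F (i + j) := by
  have h := hF.comm i j _ ((F i).inv_mem hx) _ ((F j).inv_mem hy)
  simpa [cm] using h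

lemma leib_isSeq_cm (hF : Filt F) {i j : ℕ} {f g : ℤ → G} (hf : IsSeq F i f) (hg : IsSeq F j g) :
    IsSeq F (i + j) (f⁻¹ * g⁻¹ * f * g) := by
  have h := (hf.inv hF).comm hF (hg.inv hF)
  rwa [inv_inv, inv_inv] at h

lemma leib_isSeq_conj (hF : Filt F) {i j : ℕ} {f g : ℤ → G} (hg : IsSeq F j g) (hf : IsSeq F i f) :
    IsSeq F i (g⁻¹ * f * g) := by
  have h := (hg.inv hF).conj hF hf
  rwa [inv_inv] at h

lemma leib_dz_mul (hF : Filt F) {m : ℕ} (hm : 1 ≤ m) {A B R : ℤ → G}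
    (hA : IsSeq F m A) (hB : IsSeq F m B) (hR : IsSeq F (m + 1) R) :
    ∃ R' : ℤ → G, IsSeq F (m + 1 + 1) R' ∧ dz (A * B * R) = dz A * dz B * R' := by
  have hu : IsSeq F (m + 1) (dz A) := hA.diff
  have hv : IsSeq F (m + 1) (dz B) := hB.diff
  have hr : IsSeq F (m + 1 + 1) (dz R) := hR.diff
  have k1 : IsSeq F (m + 1 + 1) ((dz A)⁻¹ * B⁻¹ * dz A * B) :=
    (leib_isSeq_cm hF hu hB).le hF (by omega)
  have k2 : IsSeq F (m + 1 + 1) ((dz A)⁻¹ * R⁻¹ * dz A * R) :=
    (leib_isSeq_cm hF hu hR).le hF (by omega)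
  have k3 : IsSeq F (m + 1 + 1) ((dz B)⁻¹ * R⁻¹ * dz B * R) :=
    (leib_isSeq_cm hF hv hR).le hF (by omega)
  refine ⟨((dz B)⁻¹ * ((dz A)⁻¹ * R⁻¹ * dz A * R) * dz B) *
    ((R * dz B)⁻¹ * ((dz A)⁻¹ * B⁻¹ * dz A * B) * (R * dz B)) *
    ((dz B)⁻¹ * R⁻¹ * dz B * R) * dz R, ?_, ?_⟩
  · exact (((leib_isSeq_conj hF hv k2).mul hF (leib_isSeq_conj hF (hR.mul hF hv) k1)).mul hF k3).mul hF hr
  · funext t
    simp only [dz, Pi.mul_apply, Pi.inv_apply]
    group

theorem leib_iter_mul (hF : Filt F) (n : ℕ) : ∀ {m : ℕ}, 1 ≤ m → ∀ {A B R : ℤ → G},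
    IsSeq F m A → IsSeq F m B → IsSeq F (m + 1) R → ∀ n0 : ℤ,
    Cg (F (m + n + 1)) (dz^[n] (A * B * R) n0) (dz^[n] A n0 * dz^[n] B n0) := by
  induction n with
  | zero =>
    intro m _ A B R _ _ hR n0
    have e : (A * B * R) n0 = A n0 * B n0 * R n0 := rfl
    simp only [Function.iterate_zero, id_eq, Cg]
    rw [e]
    have e2 : (A n0 * B n0 * R n0)⁻¹ * (A n0 * B n0) = (R n0)⁻¹ := by group
    rw [e2]
    exact (F _).inv_mem (hR.val n0)
  | succ n ih =>
    intro m hm A B R hA hB hR n0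
    obtain ⟨R', hR', e⟩ := leib_dz_mul hF hm hA hB hR
    simp only [Function.iterate_succ_apply]
    rw [e]
    have h := ih (m := m + 1) (by omega) hA.diff hB.diff hR' n0
    rwa [show m + 1 + n + 1 = m + (n + 1) + 1 by ring] at h

theorem iter_mul (hF : Filt F) (h0 : F 0 = ⊤) {m : ℕ} (hm : 1 ≤ m) {A B : ℤ → G}
    (hA : IsSeq F m A) (hB : IsSeq F m B) (n : ℕ) (n0 : ℤ) :
    Cg (F (m + n + 1)) (dz^[n] (A * B) n0) (dz^[n] A n0 * dz^[n] B n0) := by
  have h := leib_iter_mul hF n hm hA hB (R := fun _ => 1) (IsSeq.const (one_mem _)) n0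
  have e : A * B * (fun _ => (1 : G)) = A * B := by
    funext t
    simp
  rwa [e] at h

/-- the product `∏_{a ≤ n} cm (dz^a E) (dz^{n-a} δ)^{choose n a}` (in the order of `a`) -/
def lprod (E δ : ℤ → G) (n : ℕ) (n0 : ℤ) : G :=
  ((List.range (n + 1)).map fun a => cm (dz^[a] E n0) (dz^[n - a] δ n0) ^ (n.choose a)).prod

lemma leib_word1 {c p q u v w : G} :
    p * q * (((q⁻¹ * p⁻¹ * q * p) * (p⁻¹ * ((q⁻¹ * c⁻¹ * q * c) *
      (c⁻¹ * (q⁻¹ * u⁻¹ * q * u) * c) * (c⁻¹ * (v * u)⁻¹ * c * (v * u)) * w) * p) *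
      (p⁻¹ * v⁻¹ * p * v))) =
      c⁻¹ * (u⁻¹ * q * u) * ((v * u)⁻¹ * c * (v * u)) * w * (v⁻¹ * p * v) := by
  group

lemma leib_word2 {e u d v : G} :
    (e⁻¹ * d⁻¹ * e * d)⁻¹ * (u⁻¹ * (e⁻¹ * v⁻¹ * e * v) * u) *
      ((v * u)⁻¹ * (e⁻¹ * d⁻¹ * e * d) * (v * u)) * (u⁻¹ * v⁻¹ * u * v) *
      (v⁻¹ * (u⁻¹ * d⁻¹ * u * d) * v) =
      (e⁻¹ * d⁻¹ * e * d)⁻¹ * ((e * u)⁻¹ * (d * v)⁻¹ * (e * u) * (d * v)) := by
  group

lemma leib_dz_cm (hF : Filt F) {i j : ℕ} (hi : 1 ≤ i) (hj : 1 ≤ j) {E δ : ℤ → G}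
    (hE : IsSeq F i E) (hδ : IsSeq F j δ) :
    ∃ R : ℤ → G, IsSeq F (i + j + 1 + 1) R ∧ dz (fun t => cm (E t) (δ t)) =
      (fun t => cm (dz E t) (δ t)) * (fun t => cm (E t) (dz δ t)) * R := by
  have hu : IsSeq F (i + 1) (dz E) := hE.diff
  have hv : IsSeq F (j + 1) (dz δ) := hδ.diff
  obtain ⟨c, hc⟩ : ∃ c : ℤ → G, c = E⁻¹ * δ⁻¹ * E * δ := ⟨_, rfl⟩
  obtain ⟨p, hp⟩ : ∃ p : ℤ → G, p = (dz E)⁻¹ * δ⁻¹ * dz E * δ := ⟨_, rfl⟩
  obtain ⟨q, hq⟩ : ∃ q : ℤ → G, q = E⁻¹ * (dz δ)⁻¹ * E * dz δ := ⟨_, rfl⟩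
  obtain ⟨w, hw⟩ : ∃ w : ℤ → G, w = (dz E)⁻¹ * (dz δ)⁻¹ * dz E * dz δ := ⟨_, rfl⟩
  have cS : IsSeq F (i + j) c := hc ▸ leib_isSeq_cm hF hE hδ
  have pS : IsSeq F (i + 1 + j) p := hp ▸ leib_isSeq_cm hF hu hδ
  have qS : IsSeq F (i + (j + 1)) q := hq ▸ leib_isSeq_cm hF hE hv
  have wS : IsSeq F (i + j + 1 + 1) w := hw ▸ (leib_isSeq_cm hF hu hv).le hF (by omega)
  have vuS : IsSeq F 2 (dz δ * dz E) := (hv.le hF (by omega)).mul hF (hu.le hF (by omega))
  have k1 : IsSeq F (i + j + 1 + 1) (q⁻¹ * (dz E)⁻¹ * q * dz E) :=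
    (leib_isSeq_cm hF qS hu).le hF (by omega)
  have k2 : IsSeq F (i + j + 1 + 1) (c⁻¹ * (dz δ * dz E)⁻¹ * c * (dz δ * dz E)) :=
    (leib_isSeq_cm hF cS vuS).le hF (by omega)
  have k3 : IsSeq F (i + j + 1 + 1) (p⁻¹ * (dz δ)⁻¹ * p * dz δ) :=
    (leib_isSeq_cm hF pS hv).le hF (by omega)
  have k4 : IsSeq F (i + j + 1 + 1) (q⁻¹ * c⁻¹ * q * c) :=
    (leib_isSeq_cm hF qS cS).le hF (by omega)
  have k5 : IsSeq F (i + j + 1 + 1) (q⁻¹ * p⁻¹ * q * p) :=
    (leib_isSeq_cm hF qS pS).le hF (by omega)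
  refine ⟨(q⁻¹ * p⁻¹ * q * p) * (p⁻¹ * ((q⁻¹ * c⁻¹ * q * c) *
      (c⁻¹ * (q⁻¹ * (dz E)⁻¹ * q * dz E) * c) *
      (c⁻¹ * (dz δ * dz E)⁻¹ * c * (dz δ * dz E)) * w) * p) *
      (p⁻¹ * (dz δ)⁻¹ * p * dz δ), ?_, ?_⟩
  · exact (k5.mul hF (leib_isSeq_conj hF pS
      (((k4.mul hF (leib_isSeq_conj hF cS k1)).mul hF k2).mul hF wS))).mul hF k3
  · have e1 : (fun t => cm (dz E t) (δ t)) = p := by rw [hp]; rfl
    have e2 : (fun t => cm (E t) (dz δ t)) = q := by rw [hq]; rfl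
    rw [e1, e2, leib_word1]
    have hEs : ∀ t, E (t + 1) = E t * dz E t := by intro t; simp only [dz]; group
    have hds : ∀ t, δ (t + 1) = δ t * dz δ t := by intro t; simp only [dz]; group
    funext t
    have h1 : dz (fun t => cm (E t) (δ t)) t =
        ((E t)⁻¹ * (δ t)⁻¹ * E t * δ t)⁻¹ *
          ((E t * dz E t)⁻¹ * (δ t * dz δ t)⁻¹ * (E t * dz E t) * (δ t * dz δ t)) := by
      rw [← hEs, ← hds]
      rfl
    rw [h1, ← leib_word2, hc, hp, hq, hw]
    rfl

lemma leib_prod_mul {Q : Type*} [Group Q] (f g : ℕ → Q) (h : ∀ a b, f a * g b = g b * f a)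
    (L : ℕ) : ((List.range L).map f).prod * ((List.range L).map g).prod =
      ((List.range L).map fun a => f a * g a).prod := by
  induction L with
  | zero => simp
  | succ L ih =>
    have hc : Commute (f L) ((List.range L).map g).prod := by
      refine Commute.list_prod_right _ _ fun x hx => ?_
      obtain ⟨b, _, rfl⟩ := List.mem_map.1 hx
      exact h L b
    rw [List.prod_range_succ, List.prod_range_succ, List.prod_range_succ, ← ih]
    calc ((List.range L).map f).prod * f L * (((List.range L).map g).prod * g L)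
        = ((List.range L).map f).prod * (f L * ((List.range L).map g).prod) * g L := by group
      _ = ((List.range L).map f).prod * (((List.range L).map g).prod * f L) * g L := by
          rw [hc.eq]
      _ = _ := by group

lemma leib_pascal {Q : Type*} [Group Q] (x : ℕ → Q) (h : ∀ a b, x a * x b = x b * x a) (n : ℕ) :
    ((List.range (n + 1)).map fun a => x (a + 1) ^ (n.choose a)).prod *
      ((List.range (n + 1)).map fun a => x a ^ (n.choose a)).prod =
      ((List.range (n + 1 + 1)).map fun a => x a ^ ((n + 1).choose a)).prod := by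
  have hc : ∀ a b (k l : ℕ), x a ^ k * x b ^ l = x b ^ l * x a ^ k := fun a b k l =>
    (Commute.pow_pow (h a b) k l).eq
  let y : ℕ → Q := fun a => match a with
    | 0 => 1
    | a + 1 => x (a + 1) ^ (n.choose a)
  have e1 : ((List.range (n + 1)).map fun a => x (a + 1) ^ (n.choose a)).prod =
      ((List.range (n + 1 + 1)).map y).prod := by
    rw [List.prod_range_succ' y (n + 1)]
    simp only [y, one_mul]
  have e2 : ((List.range (n + 1)).map fun a => x a ^ (n.choose a)).prod =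
      ((List.range (n + 1 + 1)).map fun a => x a ^ (n.choose a)).prod := by
    rw [List.prod_range_succ _ (n + 1)]
    simp
  rw [e1, e2, leib_prod_mul]
  · congr 1
    refine List.map_congr_left fun a _ => ?_
    cases a with
    | zero => simp [y]
    | succ a =>
      simp only [y]
      rw [Nat.choose_succ_succ, pow_add]
  · intro a b
    cases a with
    | zero => simp [y]
    | succ a => exact hc _ _ _ _

lemma leib_iter {i : ℕ} {f : ℤ → G} (hf : IsSeq F i f) (a : ℕ) : IsSeq F (i + a) (dz^[a] f) := by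
  induction a with
  | zero => exact hf
  | succ a ih =>
    rw [Function.iterate_succ_apply']
    exact ih.diff

lemma leib_cg_iff {N : Subgroup G} {x y : G} :
    Cg N x y ↔ (QuotientGroup.mk x : G ⧸ N) = QuotientGroup.mk y := QuotientGroup.eq.symm

theorem leibniz (hF : Filt F) (h0 : F 0 = ⊤) {i j : ℕ} (hi : 1 ≤ i) (hj : 1 ≤ j) {E δ : ℤ → G}
    (hE : IsSeq F i E) (hδ : IsSeq F j δ) (n : ℕ) (n0 : ℤ) :
    Cg (F (i + j + n + 1)) (dz^[n] (fun t => cm (E t) (δ t)) n0) (lprod E δ n n0) := by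
  induction n generalizing i j E δ with
  | zero =>
    simp [Cg, lprod]
  | succ n ih =>
    obtain ⟨R, hR, e⟩ := leib_dz_cm hF hi hj hE hδ
    have hP : IsSeq F (i + j + 1) (fun t => cm (dz E t) (δ t)) :=
      (leib_isSeq_cm hF hE.diff hδ).le hF (by omega)
    have hQ : IsSeq F (i + j + 1) (fun t => cm (E t) (dz δ t)) :=
      (leib_isSeq_cm hF hE hδ.diff).le hF (by omega)
    have h1 := leib_iter_mul hF n (by omega) hP hQ hR n0
    have h2 := ih (i := i + 1) (j := j) (by omega) hj hE.diff hδ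
    have h3 := ih (i := i) (j := j + 1) hi (by omega) hE hδ.diff
    rw [← e] at h1
    rw [show i + j + 1 + n + 1 = i + j + (n + 1) + 1 by ring] at h1
    rw [show i + 1 + j + n + 1 = i + j + (n + 1) + 1 by ring] at h2
    rw [show i + (j + 1) + n + 1 = i + j + (n + 1) + 1 by ring] at h3
    have hN : (F (i + j + (n + 1) + 1)).Normal := normal_F hF h0 _
    rw [Function.iterate_succ_apply]
    rw [leib_cg_iff] at h1 h2 h3 ⊢
    rw [h1, QuotientGroup.mk_mul, h2, h3]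
    -- the commuting family
    let x : ℕ → G := fun a => cm (dz^[a] E n0) (dz^[n + 1 - a] δ n0)
    have hx : ∀ a, x a ∈ F (i + j + (n + 1)) := fun a =>
      hF.le (by omega) (cm_mem hF ((leib_iter hE a).val n0) ((leib_iter hδ (n + 1 - a)).val n0))
    have hcomm : ∀ a b, (QuotientGroup.mk (x a) : G ⧸ F (i + j + (n + 1) + 1)) *
        QuotientGroup.mk (x b) = QuotientGroup.mk (x b) * QuotientGroup.mk (x a) := by
      intro a b
      rw [← QuotientGroup.mk_mul, ← QuotientGroup.mk_mul, QuotientGroup.eq]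
      have h4 := cm_mem hF (hx b) (hx a)
      have h5 : (x a * x b)⁻¹ * (x b * x a) = cm (x b) (x a) := by
        simp only [cm]
        group
      rw [h5]
      exact hF.le (by omega) h4
    have h6 := leib_pascal (fun a => (QuotientGroup.mk (x a) : G ⧸ F (i + j + (n + 1) + 1))) hcomm n
    have hmap : ∀ (l : List ℕ) (f : ℕ → G),
        (QuotientGroup.mk (l.map f).prod : G ⧸ F (i + j + (n + 1) + 1)) =
          (l.map fun a => (QuotientGroup.mk (f a) : G ⧸ F (i + j + (n + 1) + 1))).prod := by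
      intro l f
      have := map_list_prod (QuotientGroup.mk' (F (i + j + (n + 1) + 1))) (l.map f)
      rw [List.map_map] at this
      exact this
    have e3 : lprod (dz E) δ n n0 =
        ((List.range (n + 1)).map fun a => x (a + 1) ^ (n.choose a)).prod := by
      unfold lprod
      congr 1
      refine List.map_congr_left fun a _ => ?_
      simp only [x, Function.iterate_succ_apply]
      rw [Nat.add_sub_add_right]
    have e4 : lprod E (dz δ) n n0 =
        ((List.range (n + 1)).map fun a => x a ^ (n.choose a)).prod := by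
      unfold lprod
      congr 1
      refine List.map_congr_left fun a ha => ?_
      rw [List.mem_range] at ha
      simp only [x]
      rw [← Function.iterate_succ_apply, show (n - a).succ = n + 1 - a by omega]
    have e5 : lprod E δ (n + 1) n0 =
        ((List.range (n + 1 + 1)).map fun a => x a ^ ((n + 1).choose a)).prod := rfl
    rw [e3, e4, e5, hmap, hmap, hmap]
    exact h6

end Pool.Nil
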