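import Pool.Agent.Nil.Brack
import Pool.Agent.Nil.Leib

set_option autoImplicit false

/-!
# Nil: the T-words generate the filtration

`g : ℤ → G` is a polynomial sequence with `g 0 = 1`, `b k = (dz^k g)(0)`, `F = FB b`.
`Tk g k u = (dz^k (t ↦ g(t)⁻¹ u g(t)))(0)` and the T-words are `b k` and `Tk g k u`, `u` a T-word.

PROOFS.  Let `E t = (g t)⁻¹ u g t`, `δ = dz g`; `E` is polynomial of level `i` if `u ∈ F i`, `δ` of level `1`,
`dz E = cm E δ`, `E 0 = u`, `dz^[k] E 0 = Tk g k u`, `dz^[k] δ 0 = b (k + 1)`.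
(f1) `Tk g k u ∈ F (i + k)` for `u ∈ F i`.
(f2) for `u, u' ∈ F i`, `i ≥ 1`: `Tk g k (u * u') ≡ Tk g k u * Tk g k u' mod F (i + k + 1)` (`iter_mul`); also
     `Tk g k u⁻¹ ≡ (Tk g k u)⁻¹`, and `Tk g k u ∈ F (i + k + 1)` for `u ∈ F (i + 1)`.
(f3) for `k ≥ 1`, `u ∈ F i`: `Tk g k u ≡ ∏_{a < k} cm (Tk g a u) (b (k - a))^{choose (k-1) a} mod F (i + k + 1)`
     (`leibniz` with `n = k - 1`), where `Tk g 0 u = u`.
(f4) `u ↦ cm u y` (`y ∈ F j`) is additive from `F i` to `F (i + j)` modulo `F (i + j + 1)`, and maps `F (i + 1)` into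
     `F (i + j + 1)`; same in the second variable.
Let `Ga w = closure {u | Ta w u} ⊔ F (w + 1)`.
CLAIM 1 (strong induction on `k ≥ 1`): for all `i ≥ 1`, `u ∈ Ga i`: `cm u (b k) ∈ Ga (i + k)`.  By (f2)
`Tk g a u ∈ Ga (i + a)` for `a ≥ 1`; by the induction hypothesis `cm (Tk g a u) (b (k - a)) ∈ Ga (i + k)` for
`1 ≤ a < k`; (f3) expresses `cm u (b k)` modulo `F (i + k + 1) ≤ Ga (i + k)` by `Tk g k u` and these.
CLAIM 2: for `Br b j x` and all `i ≥ 1`, `u ∈ Ga i`: `cm u x ∈ Ga (i + j)`.  Induction on `Br`; for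
`x = y z y⁻¹ z⁻¹ ` (`Br` of weights `j1`, `j2`): modulo `F (i + j + 1)`, the Jacobi identity
`cm u x ≡ ± (cm (cm u y) z) ∓ (cm (cm u z) y)` (from the Hall-Witt identity), both in `Ga (i + j)`.
CLAIM 3: `Br b j x → x ∈ Ga j` (for commutators: `x y x⁻¹ y⁻¹ ≡ cm x y` modulo `F (i + j + 1)`, claim 2).
So `F w ≤ Ga w`, because `F w` is generated by the `x` with `Br b i x`, `i ≥ w` (`i > w` : `x ∈ F (w + 1)`).
`finite_Ta`: induction on `w` (a T-word of weight `w` is `b w` or `Tk g k u` with `u` a T-word of weight `w - k`).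
-/

namespace Pool.Nil

open Finset

variable {G : Type*} [Group G]

/-- the elements `b k` of a sequence -/
def bb (g : ℤ → G) (k : ℕ) : G := dz^[k] g 0

/-- `k`-th difference at zero of the conjugates of `u` -/
def Tk (g : ℤ → G) (k : ℕ) (u : G) : G := dz^[k] (fun t => (g t)⁻¹ * u * g t) 0

/-- T-words -/
inductive Ta (g : ℤ → G) : ℕ → G → Prop
  | base (k : ℕ) (hk : 1 ≤ k) : Ta g k (bb g k)
  | step {i : ℕ} {u : G} (k : ℕ) (hk : 1 ≤ k) (hu : Ta g i u) : Ta g (i + k) (Tk g k u)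

lemma finite_Ta (g : ℤ → G) (w : ℕ) : {u | Ta g w u}.Finite := by
  induction w using Nat.strong_induction_on with
  | _ w ih =>
    have h1 : ({bb g w} ∪ ⋃ k ∈ Set.Icc 1 w, Tk g k '' {u | Ta g (w - k) u}).Finite := by
      refine (Set.finite_singleton _).union ((Set.finite_Icc 1 w).biUnion fun k hk => ?_)
      rw [Set.mem_Icc] at hk
      exact (ih (w - k) (by omega)).image _
    refine h1.subset ?_
    intro u hu
    have hu' : Ta g w u := hu
    cases hu' with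
    | base k hk => exact Or.inl rfl
    | @step i u' k hk hu' =>
      right
      rw [Set.mem_iUnion₂]
      refine ⟨k, Set.mem_Icc.2 ⟨hk, by omega⟩, u', ?_, rfl⟩
      rw [Nat.add_sub_cancel]
      exact hu'

namespace Gen

lemma FB_anti (b : ℕ → G) {i j : ℕ} (h : i ≤ j) : FB b j ≤ FB b i := by
  unfold FB
  apply Subgroup.closure_mono
  rintro x ⟨k, hk, hx⟩
  exact ⟨k, h.trans hk, hx⟩

lemma iter_seq {F : ℕ → Subgroup G} {i : ℕ} {f : ℤ → G} (hf : IsSeq F i f) (k : ℕ) :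
    IsSeq F (i + k) (dz^[k] f) := by
  induction k with
  | zero => exact hf
  | succ k ih =>
    rw [Function.iterate_succ_apply']
    exact ih.diff

end Gen

open Gen

/-- the sequence is polynomial for the filtration generated by its differences at zero -/
theorem isSeq_FB {g : ℤ → G} {Fc : ℕ → Subgroup G} (hF : Filt Fc) (h0 : Fc 0 = ⊤) {N : ℕ}
    (hN : Fc N = ⊥) (hg : IsSeq Fc 0 g) (hg0 : g 0 = 1) (i : ℕ) :
    IsSeq (FB (bb g)) i (dz^[i] g) := by
  have key : ∀ d i : ℕ, N ≤ i + d → IsSeq (FB (bb g)) i (dz^[i] g) := by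
    intro d
    induction d with
    | zero =>
      intro i hi
      have h1 : dz^[i] g = fun _ => 1 := by
        funext n
        have h2 : dz^[i] g n ∈ Fc (0 + i) := (iter_seq hg i).val n
        have h3 : dz^[i] g n ∈ Fc N := hF.le (by omega) h2
        rw [hN, Subgroup.mem_bot] at h3
        exact h3
      rw [h1]
      exact IsSeq.const (one_mem _)
    | succ d ih =>
      intro i hi
      have h2 := ih (i + 1) (by omega)
      rw [Function.iterate_succ_apply'] at h2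
      refine IsSeq.intro ?_ h2
      have hstep : ∀ n, dz^[i] g (n + 1) = dz^[i] g n * dz (dz^[i] g) n := by
        intro n
        simp [dz]
      have hv : ∀ n, dz (dz^[i] g) n ∈ FB (bb g) i := fun n =>
        FB_anti _ (Nat.le_succ i) (h2.val n)
      intro n
      induction n using Int.induction_on with
      | zero =>
        rcases Nat.eq_zero_or_pos i with h | h
        · subst h
          show g 0 ∈ _
          rw [hg0]
          exact one_mem _
        · exact mem_FB (Br.base i h) le_rfl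
      | succ n ihn =>
        rw [hstep]
        exact mul_mem ihn (hv _)
      | pred n ihn =>
        have h3 := hstep (-(n : ℤ) - 1)
        rw [sub_add_cancel] at h3
        have h4 : dz^[i] g (-(n : ℤ) - 1) = dz^[i] g (-(n : ℤ)) *
            (dz (dz^[i] g) (-(n : ℤ) - 1))⁻¹ := by
          rw [h3, mul_inv_cancel_right]
        rw [h4]
        exact mul_mem ihn (inv_mem (hv _))
  exact key N i (by omega)

namespace Gen

/-- the conjugates of `u` -/
def Ec (g : ℤ → G) (u : G) : ℤ → G := fun t => (g t)⁻¹ * u * g t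

variable {F : ℕ → Subgroup G} {g : ℤ → G}

lemma Ec_seq (hF : Filt F) (hs : IsSeq F 0 g) {i : ℕ} {u : G} (hu : u ∈ F i) :
    IsSeq F i (Ec g u) := by
  have h := (hs.inv hF).conj hF (IsSeq.const (i := i) hu)
  have e : Ec g u = g⁻¹ * (fun _ => u) * (g⁻¹)⁻¹ := by
    funext t
    simp [Ec]
  rw [e]
  exact h

lemma Tk_mem (hF : Filt F) (hs : IsSeq F 0 g) {i : ℕ} {u : G} (hu : u ∈ F i) (k : ℕ) :
    Tk g k u ∈ F (i + k) :=
  (iter_seq (Ec_seq hF hs hu) k).val 0

end Gen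

lemma Ta_mem {g : ℤ → G} (hF : Filt (FB (bb g))) (h0 : FB (bb g) 0 = ⊤)
    (hs : IsSeq (FB (bb g)) 0 g) {w : ℕ} {u : G} (h : Ta g w u) : u ∈ FB (bb g) w := by
  induction h with
  | base k hk => exact mem_FB (Br.base k hk) le_rfl
  | step k hk hu ih => exact Tk_mem hF hs ih k

namespace Gen

variable {F : ℕ → Subgroup G} {g : ℤ → G}

lemma Cg.q {N : Subgroup G} [N.Normal] {x y : G} (h : Cg N x y) :
    QuotientGroup.mk' N x = QuotientGroup.mk' N y := QuotientGroup.eq.2 h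

lemma cg_of_q {N : Subgroup G} [N.Normal] {x y : G}
    (h : QuotientGroup.mk' N x = QuotientGroup.mk' N y) : Cg N x y := QuotientGroup.eq.1 h

lemma q_one {N : Subgroup G} [N.Normal] {x : G} (h : x ∈ N) : QuotientGroup.mk' N x = 1 :=
  (QuotientGroup.eq_one_iff x).2 h

lemma cm_inv (x y : G) : (cm x y)⁻¹ = cm y x := by
  simp [cm, mul_assoc]

lemma cm_one (y : G) : cm 1 y = 1 := by simp [cm]

lemma cm_one' (y : G) : cm y 1 = 1 := by simp [cm]

/-- commutators with elements of weight `m` vanish modulo `F (m + 1)` -/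
lemma central (hF : Filt F) (h1 : F 1 = ⊤) {m : ℕ} {c : G} (hc : c ∈ F m) (x : G) :
    cm c x ∈ F (m + 1) := cm_mem hF hc (by rw [h1]; exact Subgroup.mem_top _)

lemma q_central (hF : Filt F) (h1 : F 1 = ⊤) {m : ℕ} [(F (m + 1)).Normal] {c : G}
    (hc : c ∈ F m) (x : G) :
    QuotientGroup.mk' (F (m + 1)) c * QuotientGroup.mk' (F (m + 1)) x =
      QuotientGroup.mk' (F (m + 1)) x * QuotientGroup.mk' (F (m + 1)) c := by
  have h := q_one (central hF h1 hc x)
  have e : cm c x = (x * c)⁻¹ * (c * x) := by simp [cm, mul_assoc]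
  rw [e, map_mul, map_inv, inv_mul_eq_one] at h
  rw [← map_mul, ← map_mul, h]

lemma q_left (hF : Filt F) (h1 : F 1 = ⊤) {i j m : ℕ} [(F (m + 1)).Normal] (hm : m ≤ i + j)
    {u y : G} (hu : u ∈ F i) (hy : y ∈ F j) (u' : G) :
    QuotientGroup.mk' (F (m + 1)) (cm (u * u') y) =
      QuotientGroup.mk' (F (m + 1)) (cm u y) * QuotientGroup.mk' (F (m + 1)) (cm u' y) := by
  have h := q_one (central hF h1 (hF.le hm (cm_mem hF hu hy)) u')
  have e : cm (u * u') y = cm u y * cm (cm u y) u' * cm u' y := by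
    simp only [cm]
    group
  rw [e, map_mul, map_mul, h, mul_one]

lemma q_right (hF : Filt F) (h1 : F 1 = ⊤) {i j m : ℕ} [(F (m + 1)).Normal] (hm : m ≤ i + j)
    {u y : G} (hu : u ∈ F i) (hy : y ∈ F j) (y' : G) :
    QuotientGroup.mk' (F (m + 1)) (cm u (y * y')) =
      QuotientGroup.mk' (F (m + 1)) (cm u y') * QuotientGroup.mk' (F (m + 1)) (cm u y) := by
  have h := q_one (central hF h1 (hF.le hm (cm_mem hF hu hy)) y')
  have e : cm u (y * y') = cm u y' * (cm u y * cm (cm u y) y') := by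
    simp only [cm]
    group
  rw [e, map_mul, map_mul, h, mul_one]

lemma q_left_inv (hF : Filt F) (h1 : F 1 = ⊤) {i j m : ℕ} [(F (m + 1)).Normal] (hm : m ≤ i + j)
    {u y : G} (hu : u ∈ F i) (hy : y ∈ F j) :
    QuotientGroup.mk' (F (m + 1)) (cm u⁻¹ y) = (QuotientGroup.mk' (F (m + 1)) (cm u y))⁻¹ := by
  have h := q_left hF h1 hm hu hy u⁻¹
  rw [mul_inv_cancel, cm_one, map_one] at h
  exact (inv_eq_of_mul_eq_one_right h.symm).symm

lemma q_right_inv (hF : Filt F) (h1 : F 1 = ⊤) {i j m : ℕ} [(F (m + 1)).Normal]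
    (hm : m ≤ i + j) {u y : G} (hu : u ∈ F i) (hy : y ∈ F j) :
    QuotientGroup.mk' (F (m + 1)) (cm u y⁻¹) = (QuotientGroup.mk' (F (m + 1)) (cm u y))⁻¹ := by
  have h := q_right hF h1 hm hu hy y⁻¹
  rw [mul_inv_cancel, cm_one', map_one] at h
  exact (inv_eq_of_mul_eq_one_left h.symm).symm

/-- `cm u y` depends on `u` modulo `F (i + 1)` only -/
lemma q_congr_left (hF : Filt F) (h1 : F 1 = ⊤) {i j m : ℕ} [(F (m + 1)).Normal]
    (hm : m ≤ i + j) {u u' y : G} (hu : u ∈ F i) (hy : y ∈ F j) (h : Cg (F (i + 1)) u u') :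
    QuotientGroup.mk' (F (m + 1)) (cm u' y) = QuotientGroup.mk' (F (m + 1)) (cm u y) := by
  have e : u' = u * (u⁻¹ * u') := by group
  have h2 : cm (u⁻¹ * u') y ∈ F (m + 1) := hF.le (by omega) (cm_mem hF h hy)
  rw [e, q_left hF h1 hm hu hy, q_one h2, mul_one]

lemma q_congr_right (hF : Filt F) (h1 : F 1 = ⊤) {i j m : ℕ} [(F (m + 1)).Normal]
    (hm : m ≤ i + j) {u y y' : G} (hu : u ∈ F i) (hy : y ∈ F j) (h : Cg (F (j + 1)) y y') :
    QuotientGroup.mk' (F (m + 1)) (cm u y') = QuotientGroup.mk' (F (m + 1)) (cm u y) := by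
  have e : y' = y * (y⁻¹ * y') := by group
  have h2 : cm u (y⁻¹ * y') ∈ F (m + 1) := hF.le (by omega) (cm_mem hF hu h)
  rw [e, q_right hF h1 hm hu hy, q_one h2, one_mul]

/-- Hall-Witt identity -/
lemma hall_witt (x y z : G) : (y⁻¹ * cm (cm x y⁻¹) z * y) * (z⁻¹ * cm (cm y z⁻¹) x * z) *
    (x⁻¹ * cm (cm z x⁻¹) y * x) = 1 := by
  simp only [cm]
  group

lemma q_hw_term (hF : Filt F) (h0 : F 0 = ⊤) (h1 : F 1 = ⊤) {i j k m : ℕ}
    [(F (m + 1)).Normal] (hm : i + j + k = m) {x y z : G} (hx : x ∈ F i) (hy : y ∈ F j)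
    (hz : z ∈ F k) : QuotientGroup.mk' (F (m + 1)) (y⁻¹ * cm (cm x y⁻¹) z * y) =
      (QuotientGroup.mk' (F (m + 1)) (cm (cm x y) z))⁻¹ := by
  have hyi := (F j).inv_mem hy
  have hc : cm (cm x y⁻¹) z ∈ F m := by
    rw [← hm]
    exact cm_mem hF (cm_mem hF hx hyi) hz
  have e1 : QuotientGroup.mk' (F (m + 1)) (y⁻¹ * cm (cm x y⁻¹) z * y) =
      QuotientGroup.mk' (F (m + 1)) (cm (cm x y⁻¹) z) := by
    rw [mul_assoc, map_mul, map_mul, q_central hF h1 hc y, ← map_mul, ← map_mul,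
      inv_mul_cancel_left]
  rw [e1]
  have := normal_F hF h0 (i + j + 1)
  have h3 : Cg (F (i + j + 1)) (cm x y)⁻¹ (cm x y⁻¹) := by
    apply cg_of_q
    rw [map_inv, q_right_inv hF h1 le_rfl hx hy]
  rw [q_congr_left hF h1 hm.ge ((F (i + j)).inv_mem (cm_mem hF hx hy)) hz h3,
    q_left_inv hF h1 hm.ge (cm_mem hF hx hy) hz]

/-- the Jacobi identity modulo the filtration -/
lemma q_jacobi (hF : Filt F) (h0 : F 0 = ⊤) (h1 : F 1 = ⊤) {i j k m : ℕ}
    [(F (m + 1)).Normal] (hm : i + j + k = m) {x y z : G} (hx : x ∈ F i) (hy : y ∈ F j)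
    (hz : z ∈ F k) : QuotientGroup.mk' (F (m + 1)) (cm x (y * z * y⁻¹ * z⁻¹)) =
      QuotientGroup.mk' (F (m + 1)) (cm (cm x y) z) *
        (QuotientGroup.mk' (F (m + 1)) (cm (cm x z) y))⁻¹ := by
  have t1 := q_hw_term hF h0 h1 hm hx hy hz
  have t2 := q_hw_term hF h0 h1 (m := m) (by omega) hy hz hx
  have t3 := q_hw_term hF h0 h1 (m := m) (by omega) hz hx hy
  have h := congrArg (QuotientGroup.mk' (F (m + 1))) (hall_witt x y z)
  rw [map_mul, map_mul, t1, t2, t3, map_one] at h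
  -- the third term
  have h4 : QuotientGroup.mk' (F (m + 1)) (cm (cm z x) y) =
      (QuotientGroup.mk' (F (m + 1)) (cm (cm x z) y))⁻¹ := by
    rw [← cm_inv x z]
    exact q_left_inv hF h1 (i := i + k) (j := j) (by omega) (cm_mem hF hx hz) hy
  -- the term on the left
  have h5 : QuotientGroup.mk' (F (m + 1)) (cm x (y * z * y⁻¹ * z⁻¹)) =
      (QuotientGroup.mk' (F (m + 1)) (cm (cm y z) x))⁻¹ := by
    have e : y * z * y⁻¹ * z⁻¹ = cm y⁻¹ z⁻¹ := by simp [cm]
    rw [e, ← cm_inv _ x, map_inv]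
    congr 1
    have := normal_F hF h0 (j + k + 1)
    have h6 : Cg (F (j + k + 1)) (cm y z) (cm y⁻¹ z⁻¹) := by
      apply cg_of_q
      rw [q_left_inv hF h1 le_rfl hy ((F k).inv_mem hz), q_right_inv hF h1 le_rfl hy hz, inv_inv]
    exact q_congr_left hF h1 (by omega) (cm_mem hF hy hz) hx h6
  rw [h5]
  rw [h4, inv_inv] at h
  have c1 : cm (cm x y) z ∈ F m := by
    rw [← hm]
    exact cm_mem hF (cm_mem hF hx hy) hz
  have c2 : cm (cm x z) y ∈ F m := by
    have := cm_mem hF (cm_mem hF hx hz) hy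
    rwa [show i + k + j = m by omega] at this
  have k2 := q_central hF h1 c2 (cm (cm x y) z)
  set A := QuotientGroup.mk' (F (m + 1)) (cm (cm x y) z)
  set B := QuotientGroup.mk' (F (m + 1)) (cm (cm y z) x)
  set D := QuotientGroup.mk' (F (m + 1)) (cm (cm x z) y)
  -- h : A⁻¹ * B⁻¹ * D = 1
  have h7 : B⁻¹ = A * D⁻¹ := by
    have h8 : A⁻¹ * B⁻¹ = D⁻¹ := mul_eq_one_iff_eq_inv.1 h
    rw [inv_mul_eq_iff_eq_mul] at h8
    exact h8
  exact h7

/-- the subgroup generated by the T-words of weight `w` and `F (w + 1)` -/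
def Ga (g : ℤ → G) (F : ℕ → Subgroup G) (w : ℕ) : Subgroup G :=
  Subgroup.closure {u | Ta g w u} ⊔ F (w + 1)

lemma le_Ga (w : ℕ) : F (w + 1) ≤ Ga g F w := le_sup_right

lemma Ta_Ga {w : ℕ} {u : G} (h : Ta g w u) : u ∈ Ga g F w :=
  (le_sup_left : _ ≤ Ga g F w) (Subgroup.subset_closure h)

lemma Ga_of_q {w : ℕ} [(F (w + 1)).Normal] {x y : G} (hy : y ∈ Ga g F w)
    (h : QuotientGroup.mk' (F (w + 1)) x = QuotientGroup.mk' (F (w + 1)) y) : x ∈ Ga g F w := by
  have h1 : y⁻¹ * x ∈ F (w + 1) := cg_of_q h.symm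
  have e : x = y * (y⁻¹ * x) := by group
  rw [e]
  exact mul_mem hy (le_Ga w h1)

/-- closure induction for `Ga` -/
lemma Ga_eq (w : ℕ) : Ga g F w = Subgroup.closure ({u | Ta g w u} ∪ (F (w + 1) : Set G)) := by
  rw [Ga, Subgroup.closure_union, Subgroup.closure_eq]

lemma Ga_le (hF : Filt F) (hT : ∀ w u, Ta g w u → u ∈ F w) (w : ℕ) : Ga g F w ≤ F w := by
  refine sup_le ?_ (hF.anti w)
  rw [Subgroup.closure_le]
  exact fun u hu => hT w u hu

lemma Tk_one (g : ℤ → G) (k : ℕ) : Tk g k 1 = 1 := by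
  have h : ∀ k : ℕ, (dz^[k] fun _ : ℤ => (1 : G)) = fun _ => 1 := by
    intro k
    induction k with
    | zero => rfl
    | succ k ih =>
      rw [Function.iterate_succ_apply', ih]
      funext n
      simp [dz]
  unfold Tk
  have e : (fun t => (g t)⁻¹ * 1 * g t) = fun _ : ℤ => (1 : G) := by
    funext t
    simp
  rw [e, h]

lemma Tk_mul (hF : Filt F) (h0 : F 0 = ⊤) (hs : IsSeq F 0 g) {i : ℕ} (hi : 1 ≤ i) {u u' : G}
    (hu : u ∈ F i) (hu' : u' ∈ F i) (k : ℕ) :
    Cg (F (i + k + 1)) (Tk g k (u * u')) (Tk g k u * Tk g k u') := by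
  have h := iter_mul hF h0 hi (Ec_seq hF hs hu) (Ec_seq hF hs hu') k 0
  have e : Ec g u * Ec g u' = Ec g (u * u') := by
    funext t
    simp only [Ec, Pi.mul_apply]
    group
  rw [e] at h
  exact h

/-- `Tk g k` maps `Ga i` to `Ga (i + k)` -/
lemma Tk_Ga (hF : Filt F) (h0 : F 0 = ⊤) (hs : IsSeq F 0 g)
    (hT : ∀ w u, Ta g w u → u ∈ F w) {i k : ℕ} (hi : 1 ≤ i) (hk : 1 ≤ k) {u : G}
    (hu : u ∈ Ga g F i) : Tk g k u ∈ Ga g F (i + k) := by
  have := normal_F hF h0 (i + k + 1)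
  have hle := Ga_le hF hT i
  rw [Ga_eq] at hu
  have key : ∀ v (hv : v ∈ Subgroup.closure ({u | Ta g i u} ∪ (F (i + 1) : Set G))),
      Tk g k v ∈ Ga g F (i + k) := by
    intro v hv
    induction hv using Subgroup.closure_induction with
    | mem x hx =>
      rcases hx with hx | hx
      · exact Ta_Ga (Ta.step k hk hx)
      · have h := Tk_mem hF hs (show x ∈ F (i + 1) from hx) k
        rw [show i + 1 + k = i + k + 1 by omega] at h
        exact le_Ga _ h
    | one =>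
      rw [Tk_one]
      exact one_mem _
    | mul x y hx hy ihx ihy =>
      rw [← Ga_eq] at hx hy
      exact Ga_of_q (mul_mem ihx ihy) (Cg.q (Tk_mul hF h0 hs hi (hle hx) (hle hy) k))
    | inv x hx ihx =>
      rw [← Ga_eq] at hx
      have h := Cg.q (Tk_mul hF h0 hs hi (hle hx) ((F i).inv_mem (hle hx)) k)
      rw [mul_inv_cancel, Tk_one, map_one, map_mul] at h
      refine Ga_of_q (inv_mem ihx) ?_
      rw [map_inv]
      exact (inv_eq_of_mul_eq_one_right h.symm).symm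
  exact key u hu

lemma dz_Ec (g : ℤ → G) (u : G) : dz (Ec g u) = fun t => cm (Ec g u t) (dz g t) := by
  funext t
  simp only [dz, Ec, cm]
  group

/-- claim 1 -/
lemma claim1 (hF : Filt F) (h0 : F 0 = ⊤) (h1 : F 1 = ⊤) (hs : IsSeq F 0 g)
    (hT : ∀ w u, Ta g w u → u ∈ F w) (k : ℕ) : 1 ≤ k → ∀ i : ℕ, 1 ≤ i → ∀ u ∈ Ga g F i,
      cm u (bb g k) ∈ Ga g F (i + k) := by
  induction k using Nat.strong_induction_on with
  | _ k ih =>
    intro hk i hi u hu
    have := normal_F hF h0 (i + k + 1)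
    have huF : u ∈ F i := Ga_le hF hT i hu
    have hb : ∀ k : ℕ, 1 ≤ k → bb g k ∈ F k := fun k hk => hT k _ (Ta.base k hk)
    obtain ⟨n, rfl⟩ : ∃ n, k = n + 1 := ⟨k - 1, by omega⟩
    have hL := leibniz hF h0 hi le_rfl (Ec_seq hF hs huF)
      (show IsSeq F 1 (dz g) by simpa using hs.diff) n 0
    rw [← dz_Ec, ← Function.iterate_succ_apply, show i + 1 + n + 1 = i + (n + 1) + 1 by omega]
      at hL
    have hL2 : Cg (F (i + (n + 1) + 1)) (Tk g (n + 1) u) (lprod (Ec g u) (dz g) n 0) := hL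
    -- the first factor
    have hT0 : Cg (F (i + 1)) u (Ec g u 0) := by
      have h := cm_mem hF huF (show g 0 ∈ F 1 by rw [h1]; exact Subgroup.mem_top _)
      have e : u⁻¹ * Ec g u 0 = cm u (g 0) := by
        simp only [Ec, cm]
        group
      show u⁻¹ * Ec g u 0 ∈ _
      rw [e]
      exact h
    have hprod : lprod (Ec g u) (dz g) n 0 = cm (Ec g u 0) (bb g (n + 1)) *
        ((List.range n).map fun a => cm (dz^[a + 1] (Ec g u) 0) (dz^[n - (a + 1)] (dz g) 0) ^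
          (n.choose (a + 1))).prod := by
      unfold lprod
      rw [List.range_succ_eq_map, List.map_cons, List.prod_cons, List.map_map,
        Nat.choose_zero_right, pow_one]
      rfl
    have hrest : ((List.range n).map fun a =>
        cm (dz^[a + 1] (Ec g u) 0) (dz^[n - (a + 1)] (dz g) 0) ^ (n.choose (a + 1))).prod ∈
          Ga g F (i + (n + 1)) := by
      apply Subgroup.list_prod_mem
      intro x hx
      rw [List.mem_map] at hx
      obtain ⟨a, ha, rfl⟩ := hx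
      rw [List.mem_range] at ha
      apply Subgroup.pow_mem
      have h3 : Tk g (a + 1) u ∈ Ga g F (i + (a + 1)) :=
        Tk_Ga hF h0 hs hT hi (by omega) hu
      have h4 : dz^[n - (a + 1)] (dz g) 0 = bb g (n - a) := by
        rw [show n - a = (n - (a + 1)) + 1 by omega]
        rfl
      rw [h4]
      have h5 := ih (n - a) (by omega) (by omega) (i + (a + 1)) (by omega) _ h3
      rw [show i + (a + 1) + (n - a) = i + (n + 1) by omega] at h5
      exact h5
    have hTk : Tk g (n + 1) u ∈ Ga g F (i + (n + 1)) := Tk_Ga hF h0 hs hT hi hk hu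
    have h6 : cm (Ec g u 0) (bb g (n + 1)) ∈ Ga g F (i + (n + 1)) := by
      refine Ga_of_q (mul_mem hTk (inv_mem hrest)) ?_
      rw [map_mul, map_inv, Cg.q hL2, hprod, map_mul, mul_inv_cancel_right]
    refine Ga_of_q h6 ?_
    exact (q_congr_left hF h1 le_rfl huF (hb _ hk) hT0).symm

/-- claim 2 -/
lemma claim2 (hF : Filt F) (h0 : F 0 = ⊤) (h1 : F 1 = ⊤) (hs : IsSeq F 0 g)
    (hT : ∀ w u, Ta g w u → u ∈ F w) (hB : ∀ j x, Br (bb g) j x → x ∈ F j) {j : ℕ} {x : G}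
    (hx : Br (bb g) j x) : ∀ i : ℕ, 1 ≤ i → ∀ u ∈ Ga g F i, cm u x ∈ Ga g F (i + j) := by
  induction hx with
  | base k hk => exact claim1 hF h0 h1 hs hT k hk
  | @comm j1 j2 y z hy hz ihy ihz =>
    intro i hi u hu
    have := normal_F hF h0 (i + (j1 + j2) + 1)
    have huF : u ∈ F i := Ga_le hF hT i hu
    have p1 := ihz (i + j1) (by omega) _ (ihy i hi u hu)
    have p2 := ihy (i + j2) (by omega) _ (ihz i hi u hu)
    rw [show i + j1 + j2 = i + (j1 + j2) by omega] at p1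
    rw [show i + j2 + j1 = i + (j1 + j2) by omega] at p2
    refine Ga_of_q (mul_mem p1 (inv_mem p2)) ?_
    rw [map_mul, map_inv]
    exact q_jacobi hF h0 h1 (by omega) huF (hB _ _ hy) (hB _ _ hz)

/-- claim 3 -/
lemma claim3 (hF : Filt F) (h0 : F 0 = ⊤) (h1 : F 1 = ⊤) (hs : IsSeq F 0 g)
    (hT : ∀ w u, Ta g w u → u ∈ F w) (hB : ∀ j x, Br (bb g) j x → x ∈ F j) {j : ℕ} {x : G}
    (hx : Br (bb g) j x) : x ∈ Ga g F j := by
  induction hx with
  | base k hk => exact Ta_Ga (Ta.base k hk)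
  | @comm j1 j2 y z hy hz ihy ihz =>
    have := normal_F hF h0 (j1 + j2 + 1)
    have h2 := claim2 hF h0 h1 hs hT hB hz j1 (Br_pos hy) y ihy
    refine Ga_of_q h2 ?_
    have e : y * z * y⁻¹ * z⁻¹ = cm y⁻¹ z⁻¹ := by simp [cm]
    rw [e, q_left_inv hF h1 le_rfl (hB _ _ hy) ((F j2).inv_mem (hB _ _ hz)),
      q_right_inv hF h1 le_rfl (hB _ _ hy) (hB _ _ hz), inv_inv]

end Gen

theorem gen_Ta {g : ℤ → G} (hF : Filt (FB (bb g))) (h0 : FB (bb g) 0 = ⊤)
    (hs : IsSeq (FB (bb g)) 0 g) (w : ℕ) (hw : 1 ≤ w) :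
    FB (bb g) w ≤ Subgroup.closure {u | Ta g w u} ⊔ FB (bb g) (w + 1) := by
  have h1 : FB (bb g) 1 = ⊤ := by rw [← FB_one, h0]
  have hT : ∀ w u, Ta g w u → u ∈ FB (bb g) w := fun w u h => Ta_mem hF h0 hs h
  have hB : ∀ j x, Br (bb g) j x → x ∈ FB (bb g) j := fun j x h => mem_FB h le_rfl
  have h : FB (bb g) w ≤ Ga g (FB (bb g)) w := by
    have h2 : {x | ∃ i, w ≤ i ∧ Br (bb g) i x} ⊆ (Ga g (FB (bb g)) w : Set G) := by
      rintro x ⟨i, hi, hx⟩
      rcases hi.lt_or_eq with hlt | rfl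
      · exact le_Ga w (mem_FB hx hlt)
      · exact claim3 hF h0 h1 hs hT hB hx
    have h3 := (Subgroup.closure_le (K := Ga g (FB (bb g)) w)).2 h2
    exact h3
  exact h

end Pool.Nil
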