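import Pool.Agent.Nil.Word
import Pool.Agent.Nil.Coord

set_option autoImplicit false

/-!
# Nil: the top form of the iterated differences of words

`dirs.zip a` are the directions with amounts `a`.

PROOF of `kc_coord`.  Let `k = w i`, variables `V = Unit ⊕ (Fin s ⊕ (Fin s ⊕ Fin k))` (for `n, m, t, a`), all of weight
one, `f x = ddl (dirs.zip (List.ofFn a)) (word g s n m) t` with `dirs` from `base_word` for `c i`.
(1) `f` is polynomial of level `0` (`isPol_word`): more generally for `A : Fin s → Finset (Fin k)` and every list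
`B` of distinct elements of `Fin k` not in any `A l`, the map
`x ↦ ddl (dirs'.zip (B.map a)) (word g s n m) (fun l ↦ t_l + ∑_{v ∈ A l} a_v)` is polynomial (`dirs'.length = B.length`):
induction on `B`, for functions `Wd x t` instead of `word`, starting with `isPol_comp_sum` for the factors
`g (n + t_l + ∑ ..)`, `g (n + m_l)` and `IsPol.mul, inv, prod`.
(2) `f x = 1` if some `a_v = 0` (`ddl_one`).
(3) `coord` with `j = 0`, `P0 = 0`, `H = {{a_v}}` gives `f x = kap c (s x)`, `s j' ∈ WP 1 H (w j')`.  By `WP_top`: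
`s j' = 0` for `w j' < k` and `s j' = al j' * ∏ a_v` for `w j' = k`.  So modulo `F (k + 1)`
`f x ≡ (kap c al)^{∏ a}` (`al j' = 0` for `w j' ≠ k`; `kap_split`, `kap_abel` and induction for the power).
At the base point `n = 0, m = 0, t = 0, a = 1` this gives `kap c al ≡ c i` (`base_word`, `word_zero`).
So `rr x = (c i ^ ∏ a)⁻¹ * f x ∈ F (k + 1)` for all `x`; it is polynomial (`isPol_zpow`, `prod_mem`) and `1` if some
`a_v = 0`.
(4) `coord` with `j = k`, `P0 = 0`, `H = {{a_v}}` for `rr`: `rr x = kap c (y x)`, `y j' ∈ WP 1 H (w j')` and `y j' = 0` for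
`w j' ≤ k`.  Divisibility: `WP_dvd` with `S = {a_v}` (`k ≥ 1`, take `v = 0`), `om = 1`.  Size: `WP_size1` with `X = N`.
`C` is the maximum of the constants over `j'`.
-/

namespace Pool.Nil.KC

open Finset

variable {G : Type*} [Group G]

lemma cg_mul {F : ℕ → Subgroup G} (hF : Filt F) {m : ℕ} {x x' y y' : G} (hx' : x' ∈ F 0)
    (h : x⁻¹ * y ∈ F m) (h' : x'⁻¹ * y' ∈ F m) : (x * x')⁻¹ * (y * y') ∈ F m := by
  have e : (x * x')⁻¹ * (y * y') = (x'⁻¹ * (x⁻¹ * y) * x'⁻¹⁻¹) * (x'⁻¹ * y') := by group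
  rw [e]
  exact (F m).mul_mem (hF.conj h ((F 0).inv_mem hx')) h'

lemma cg_symm {N : Subgroup G} {x y : G} (h : x⁻¹ * y ∈ N) : y⁻¹ * x ∈ N := by
  have e : y⁻¹ * x = (x⁻¹ * y)⁻¹ := by group
  rw [e]
  exact N.inv_mem h

lemma cg_trans {N : Subgroup G} {x y z : G} (h : x⁻¹ * y ∈ N) (h' : y⁻¹ * z ∈ N) :
    x⁻¹ * z ∈ N := by
  have e : x⁻¹ * z = (x⁻¹ * y) * (y⁻¹ * z) := by group
  rw [e]
  exact N.mul_mem h h'

lemma cg_inv {F : ℕ → Subgroup G} (hF : Filt F) {m : ℕ} {x y : G} (hx : x ∈ F 0)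
    (h : x⁻¹ * y ∈ F m) : (x⁻¹)⁻¹ * y⁻¹ ∈ F m := by
  have e : (x⁻¹)⁻¹ * y⁻¹ = x * (x⁻¹ * y)⁻¹ * x⁻¹ := by group
  rw [e]
  exact hF.conj ((F m).inv_mem h) hx

lemma cg_pow {F : ℕ → Subgroup G} (hF : Filt F) {m : ℕ} {x y : G} (hx : x ∈ F 0)
    (h : x⁻¹ * y ∈ F m) (n : ℕ) : (x ^ n)⁻¹ * y ^ n ∈ F m := by
  induction n with
  | zero => simp
  | succ n ih =>
    rw [pow_succ, pow_succ]
    exact cg_mul hF hx ih h

lemma cg_zpow {F : ℕ → Subgroup G} (hF : Filt F) {m : ℕ} {x y : G} (hx : x ∈ F 0)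
    (h : x⁻¹ * y ∈ F m) (z : ℤ) : (x ^ z)⁻¹ * y ^ z ∈ F m := by
  cases z with
  | ofNat n => simpa using cg_pow hF hx h n
  | negSucc n =>
    rw [zpow_negSucc, zpow_negSucc]
    exact cg_inv hF ((F 0).pow_mem hx _) (cg_pow hF hx h _)

/-- powers modulo the next term -/
lemma kap_smul {F : ℕ → Subgroup G} (hF : Filt F) {r : ℕ} {c : Fin r → G} {w : Fin r → ℕ}
    (hc : ∀ i, c i ∈ F (w i)) {u : ℕ} (hu : 1 ≤ u) {x : Fin r → ℤ} (hx : ∀ i, w i < u → x i = 0)
    (z : ℤ) : (kap c (z • x))⁻¹ * (kap c x) ^ z ∈ F (u + 1) := by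
  have hk : kap c x ∈ F 0 := hF.le (Nat.zero_le u) (kap_mem hF hc hx)
  have hz : ∀ z : ℤ, ∀ i, w i < u → (z • x) i = 0 := by
    intro z i hi
    simp [hx i hi]
  induction z using Int.induction_on with
  | zero => simp [kap_zero]
  | succ n ih =>
    have h1 := kap_abel hF hc hu (hz n) hx
    have e : ((n : ℤ) + 1) • x = (n : ℤ) • x + x := by rw [add_smul, one_smul]
    rw [e, zpow_add_one]
    refine cg_trans h1 (cg_mul hF hk ih ?_)
    simp
  | pred n ih =>
    have h1 := kap_abel hF hc hu (hz (-(n : ℤ) - 1)) hx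
    have e : (-(n : ℤ) - 1) • x + x = (-(n : ℤ)) • x := by
      rw [sub_smul, one_smul, sub_add_cancel]
    rw [e] at h1
    have h2 : (kap c ((-(n : ℤ) - 1) • x) * kap c x)⁻¹ * kap c x ^ (-(n : ℤ)) ∈ F (u + 1) :=
      cg_trans (cg_symm h1) ih
    have h3 := cg_mul hF ((F 0).inv_mem hk) h2
      (show ((kap c x)⁻¹)⁻¹ * (kap c x)⁻¹ ∈ F (u + 1) by simp)
    rw [zpow_sub_one]
    simpa using h3

lemma isPol_ddl {V : Type*} [DecidableEq V] {F : ℕ → Subgroup G} (hF : Filt F) {s : ℕ}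
    {om : V → ℕ} (dirs : List (Fin s)) : ∀ (B : List V) (E : Finset V)
    (Wd : (V → ℤ) → (Fin s → ℤ) → G)
    (_ : ∀ A : Fin s → Finset V, (∀ l, ∀ v ∈ A l, v ∉ E) →
      IsPol F om 0 (fun x => Wd x (fun l => ∑ v ∈ A l, x v)))
    (_ : B.Nodup) (_ : ∀ v ∈ B, v ∉ E) (A : Fin s → Finset V)
    (_ : ∀ l, ∀ v ∈ A l, v ∉ E ∧ v ∉ B),
    IsPol F om 0 (fun x => ddl (dirs.zip (B.map x)) (Wd x) (fun l => ∑ v ∈ A l, x v)) := by
  induction dirs with
  | nil =>
    intro B E Wd hW hB hBE A hA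
    simpa [ddl] using hW A (fun l v hv => (hA l v hv).1)
  | cons l dirs ih =>
    intro B E Wd hW hB hBE A hA
    cases B with
    | nil => simpa [ddl] using hW A (fun l v hv => (hA l v hv).1)
    | cons v B =>
      simp only [List.map_cons, List.zip_cons_cons, ddl]
      refine ih B (insert v E) (fun x t => (Wd x t)⁻¹ * Wd x (sft t l (x v))) ?_ ?_ ?_ A ?_
      · intro A' hA'
        have h1 := hW A' (fun l v hv h => hA' l v hv (Finset.mem_insert_of_mem h))
        have h2 := hW (Function.update A' l (insert v (A' l))) (by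
          intro l' u hu
          by_cases hl : l' = l
          · subst hl
            rw [Function.update_self, Finset.mem_insert] at hu
            rcases hu with rfl | hu
            · exact hBE _ (by simp)
            · exact fun h => hA' _ _ hu (Finset.mem_insert_of_mem h)
          · rw [Function.update_of_ne hl] at hu
            exact fun h => hA' _ _ hu (Finset.mem_insert_of_mem h))
        have e : ∀ x : V → ℤ, (fun l' => ∑ u ∈ Function.update A' l (insert v (A' l)) l', x u) =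
            sft (fun l' => ∑ u ∈ A' l', x u) l (x v) := by
          intro x
          funext l'
          unfold sft
          by_cases hl : l' = l
          · subst hl
            rw [Function.update_self, Function.update_self, Finset.sum_insert, add_comm]
            exact fun h => hA' _ _ h (Finset.mem_insert_self _ _)
          · rw [Function.update_of_ne hl, Function.update_of_ne hl]
        simp only [e] at h2
        exact (h1.inv hF).mul hF h2
      · exact (List.nodup_cons.1 hB).2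
      · intro u hu h
        rcases Finset.mem_insert.1 h with rfl | h
        · exact (List.nodup_cons.1 hB).1 hu
        · exact hBE u (by simp [hu]) h
      · intro l' u hu
        have h := hA l' u hu
        refine ⟨fun h' => ?_, fun h' => h.2 (by simp [h'])⟩
        rcases Finset.mem_insert.1 h' with rfl | h'
        · exact h.2 (by simp)
        · exact h.1 h'

/-- the variables -/
abbrev Va (s k : ℕ) : Type := Unit ⊕ (Fin s ⊕ (Fin s ⊕ Fin k))

/-- the weights -/
abbrev om1 (s k : ℕ) : Va s k → ℕ := fun _ => 1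

abbrev vn {s k : ℕ} : Va s k := Sum.inl ()
abbrev vm {s k : ℕ} (l : Fin s) : Va s k := Sum.inr (Sum.inl l)
abbrev vt {s k : ℕ} (l : Fin s) : Va s k := Sum.inr (Sum.inr (Sum.inl l))
abbrev va {s k : ℕ} (v : Fin k) : Va s k := Sum.inr (Sum.inr (Sum.inr v))

lemma va_inj {s k : ℕ} : Function.Injective (va : Fin k → Va s k) := by
  intro a b h
  simpa [va] using h

/-- the set of the amounts -/
def As (s k : ℕ) : Finset (Va s k) := Finset.univ.map ⟨va, va_inj⟩

lemma sum_As (s k : ℕ) : ∑ v ∈ As s k, om1 s k v = k := by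
  simp [As]

lemma prod_As {s k : ℕ} (x : Va s k → ℤ) : ∏ v ∈ As s k, x v = ∏ v : Fin k, x (va v) := by
  simp [As]

/-- the function -/
def ff (g : ℤ → G) (s k : ℕ) (dirs : List (Fin s)) (x : Va s k → ℤ) : G :=
  ddl (dirs.zip (List.ofFn fun v : Fin k => x (va v)))
    (word g s (x vn) (fun l => x (vm l))) (fun l => x (vt l))

lemma isPol_word {F : ℕ → Subgroup G} (hF : Filt F) {g : ℤ → G} (hg : IsSeq F 0 g) {s k : ℕ}
    (A : Fin s → Finset (Va s k)) (hA : ∀ l, ∀ v ∈ A l, v ∉ ({vn} : Finset (Va s k))) :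
    IsPol F (om1 s k) 0 (fun x => word g s (x vn) (fun l => x (vm l))
      (fun l => ∑ v ∈ A l, x v)) := by
  unfold word
  have e : (fun x : Va s k → ℤ => (List.ofFn fun l : Fin s => (g (x vn + x (vm l)))⁻¹ *
      g (x vn + ∑ v ∈ A l, x v)).prod) =
      (List.ofFn fun l : Fin s => (fun x : Va s k → ℤ => (g (x vn + x (vm l)))⁻¹ *
      g (x vn + ∑ v ∈ A l, x v))).prod := by
    funext x
    rw [Pi.list_prod_apply, List.map_ofFn]
    rfl
  rw [e]
  refine IsPol.prod hF _ ?_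
  intro f hf
  rw [List.mem_ofFn] at hf
  obtain ⟨l, rfl⟩ := hf
  have h1 : IsPol F (om1 s k) 0 (fun x : Va s k → ℤ => g (x vn + x (vm l))) := by
    have h := isPol_comp_sum (om := om1 s k) ({vn, vm l} : Finset (Va s k)) (fun _ _ => rfl) hg
    have e : (fun x : Va s k → ℤ => g (∑ v ∈ ({vn, vm l} : Finset (Va s k)), x v)) =
        (fun x : Va s k → ℤ => g (x vn + x (vm l))) := by
      funext x
      rw [Finset.sum_pair (by simp [vn, vm])]
    rwa [e] at h
  have h2 : IsPol F (om1 s k) 0 (fun x : Va s k → ℤ => g (x vn + ∑ v ∈ A l, x v)) := by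
    have h := isPol_comp_sum (om := om1 s k) (insert vn (A l)) (fun _ _ => rfl) hg
    have e : (fun x : Va s k → ℤ => g (∑ v ∈ insert vn (A l), x v)) =
        (fun x : Va s k → ℤ => g (x vn + ∑ v ∈ A l, x v)) := by
      funext x
      rw [Finset.sum_insert]
      intro h
      exact hA l _ h (by simp)
    rwa [e] at h
  exact (h1.inv hF).mul hF h2

lemma isPol_ff {F : ℕ → Subgroup G} (hF : Filt F) {g : ℤ → G} (hg : IsSeq F 0 g) {s k : ℕ}
    (dirs : List (Fin s)) : IsPol F (om1 s k) 0 (ff g s k dirs) := by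
  have h := isPol_ddl hF (om := om1 s k) dirs (List.ofFn fun v : Fin k => (va v : Va s k))
    ({vn} : Finset (Va s k)) (fun x => word g s (x vn) (fun l => x (vm l)))
    (fun A hA => isPol_word hF hg A hA) (List.nodup_ofFn.2 va_inj) (by
      intro v hv
      rw [List.mem_ofFn] at hv
      obtain ⟨u, rfl⟩ := hv
      simp [va, vn]) (fun l => {vt l}) (by
      intro l v hv
      rw [Finset.mem_singleton] at hv
      subst hv
      refine ⟨by simp [vt, vn], ?_⟩
      rw [List.mem_ofFn]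
      rintro ⟨u, hu⟩
      simp [va, vt] at hu)
  have e : (fun x : Va s k → ℤ => ddl (dirs.zip ((List.ofFn fun v : Fin k => (va v : Va s k)).map x))
      (word g s (x vn) (fun l => x (vm l))) (fun l => ∑ v ∈ ({vt l} : Finset (Va s k)), x v)) =
      ff g s k dirs := by
    funext x
    unfold ff
    rw [List.map_ofFn]
    simp only [Finset.sum_singleton]
    rfl
  rwa [e] at h

lemma ff_one (g : ℤ → G) {s k : ℕ} {dirs : List (Fin s)} (hd : dirs.length = k)
    {x : Va s k → ℤ} {v : Fin k} (hv : x (va v) = 0) : ff g s k dirs x = 1 := by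
  unfold ff
  refine ddl_one ⟨(dirs.get (v.cast hd.symm), x (va v)), ?_, hv⟩ _ _
  have hl : (v : ℕ) < (dirs.zip (List.ofFn fun v : Fin k => x (va v))).length := by
    rw [List.length_zip, List.length_ofFn, hd, min_self]
    exact v.2
  have h := List.getElem_mem hl
  rw [List.getElem_zip] at h
  simpa using h

end Pool.Nil.KC

namespace Pool.Nil

open Finset

variable {G : Type*} [Group G]

theorem kc_coord {F : ℕ → Subgroup G} {D r : ℕ} {c : Fin r → G} {w : Fin r → ℕ}
    (hA : Adapted F D c w) (h0 : F 0 = F 1) {W : ℕ} (hW : ∀ k : ℕ, 1 ≤ k → k ≤ D → k ∣ W)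
    {g : ℤ → G} (hg : IsSeq F 0 g) (hg0 : g 0 = 1) {s : ℕ} (hs : D ≤ s) (i : Fin r)
    (hi : Ta g (w i) (c i)) :
    ∃ (dirs : List (Fin s)) (C : ℝ), dirs.length = w i ∧ 0 ≤ C ∧
      ∀ (n : ℤ) (m t : Fin s → ℤ) (a : List ℤ), a.length = w i → ∃ y : Fin r → ℤ,
        ddl (dirs.zip a) (word g s n m) t = c i ^ a.prod * kap c y ∧
        (∀ j, w j ≤ w i → y j = 0) ∧
        (∀ Q : ℕ, (∀ b ∈ a, ((md W D Q 1 : ℕ) : ℤ) ∣ b) → ∀ j, ((md W D Q (w j) : ℕ) : ℤ) ∣ y j) ∧
        (∀ N ze : ℝ, 1 ≤ N → 0 ≤ ze → ze ≤ 1 → |(n : ℝ)| ≤ N → (∀ l, |(m l : ℝ)| ≤ N) →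
          (∀ l, |(t l : ℝ)| ≤ N) → (∀ b ∈ a, |(b : ℝ)| ≤ ze * N) →
          ∀ j, |(y j : ℝ)| ≤ C * ze * N ^ w j) := by
  classical
  obtain ⟨dirs, hdl, hbase⟩ := base_word hg0 hi ((hA.le_D i).trans hs)
  have hF := hA.filt
  obtain ⟨k, hk⟩ : ∃ k, k = w i := ⟨_, rfl⟩
  have hk1 : 1 ≤ k := hk ▸ hA.one_le i
  have hdk : dirs.length = k := hdl.trans hk.symm
  have hom : ∀ v, 1 ≤ KC.om1 s k v := fun _ => le_rfl
  have hf : IsPol F (KC.om1 s k) 0 (KC.ff g s k dirs) := KC.isPol_ff hF hg dirs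
  have hH1 : ∀ S ∈ {S : Set (KC.Va s k) | ∃ v ∈ KC.As s k, S = {v}}, ∀ x : KC.Va s k → ℤ,
      (∀ v ∈ S, x v = 0) → KC.ff g s k dirs x = 1 ∧ ∏ v ∈ KC.As s k, x v = 0 := by
    rintro S ⟨v, hv, rfl⟩ x hx
    refine ⟨?_, Finset.prod_eq_zero hv (hx v rfl)⟩
    obtain ⟨u, rfl⟩ : ∃ u, KC.va u = v := by simpa [KC.As] using hv
    exact KC.ff_one g hdk (hx _ rfl)
  obtain ⟨sx, hsx, -, hfs⟩ := coord hA hom (KC.ff g s k dirs) hf 0
    (fun x => by rw [zero_add, ← h0]; exact hf.val x)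
    {S : Set (KC.Va s k) | ∃ v ∈ KC.As s k, S = {v}} (fun _ => 0)
    (fun _ => Submodule.zero_mem _) (fun _ _ => rfl) (by
      intro S hS x hx
      rw [(hH1 S hS x hx).1]
      exact (kap_zero c).symm)
  simp only [Pi.zero_apply, zero_add] at hfs
  have hlow : ∀ j, w j < k → sx j = 0 := fun j hj =>
    (WP_top hom _ (hsx j)).1 (by rw [KC.sum_As]; exact hj)
  have htop : ∀ j, ∃ a : ℤ, w j = k → ∀ x, sx j x = a * ∏ v ∈ KC.As s k, x v := by
    intro j
    by_cases hj : w j = k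
    · obtain ⟨a, ha⟩ := (WP_top hom _ (hsx j)).2 (by rw [KC.sum_As]; exact hj)
      exact ⟨a, fun _ => ha⟩
    · exact ⟨0, fun h => absurd h hj⟩
  choose al' hal' using htop
  obtain ⟨al, hal⟩ : ∃ al : Fin r → ℤ, al = fun j => if w j = k then al' j else 0 := ⟨_, rfl⟩
  have hal0 : ∀ j, w j < k → al j = 0 := fun j hj => by rw [hal]; exact if_neg hj.ne
  have hlo : ∀ x, lo w (k + 1) (fun j => sx j x) = (∏ v ∈ KC.As s k, x v) • al := by
    intro x
    funext j
    simp only [lo, Pi.smul_apply, smul_eq_mul, hal]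
    rcases lt_trichotomy (w j) k with h | h | h
    · rw [if_pos (by omega), if_neg h.ne, hlow j h]
      simp
    · rw [if_pos (by omega), if_pos h, hal' j h x, mul_comm]
    · rw [if_neg (by omega), if_neg h.ne', mul_zero]
  have hkal : kap c al ∈ F 0 := hF.le (Nat.zero_le k) (kap_mem hF hA.mem hal0)
  have hcong : ∀ x, ((kap c al) ^ (∏ v ∈ KC.As s k, x v))⁻¹ * KC.ff g s k dirs x ∈ F (k + 1) := by
    intro x
    refine KC.cg_trans (KC.cg_symm (KC.kap_smul hF hA.mem hk1 hal0 _)) ?_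
    rw [hfs x, kap_split c w hA.mono (k + 1) (fun j => sx j x), hlo x, inv_mul_cancel_left]
    exact kap_mem hF hA.mem (fun j hj => if_neg (by omega))
  have hci : (kap c al)⁻¹ * c i ∈ F (k + 1) := by
    have h := hcong (Sum.elim (fun _ => 0) (Sum.elim (fun _ => 0)
      (Sum.elim (fun _ => 0) (fun _ => 1))))
    rw [KC.prod_As] at h
    have e : KC.ff g s k dirs (Sum.elim (fun _ => 0) (Sum.elim (fun _ => 0)
      (Sum.elim (fun _ => 0) (fun _ => 1)))) = c i := by
      rw [← hbase]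
      unfold KC.ff
      have e1 : ∀ L : List (Fin s), L.zip (List.replicate L.length (1 : ℤ)) =
          L.map fun l => (l, (1 : ℤ)) := by
        intro L
        induction L with
        | nil => rfl
        | cons l L ih =>
          rw [List.length_cons, List.replicate_succ, List.zip_cons_cons, ih, List.map_cons]
      have e2 : word g s 0 (fun _ => 0) = pw g s := by
        funext t
        exact word_zero hg0 t
      simp only [Sum.elim_inl, Sum.elim_inr]
      rw [List.ofFn_const, ← hdk, e1, e2]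
      rfl
    rw [e] at h
    simpa using h
  have hP : (fun x : KC.Va s k → ℤ => ∏ v ∈ KC.As s k, x v) ∈ WP (KC.om1 s k) ∅ k :=
    WP_mono (Set.empty_subset _) (le_of_eq (KC.sum_As s k)) (prod_mem (KC.As s k))
  have hmem : c i ∈ F (0 + k) := by
    rw [zero_add, hk]
    exact hA.mem i
  have hrr : IsPol F (KC.om1 s k) 0
      ((fun x : KC.Va s k → ℤ => c i ^ ∏ v ∈ KC.As s k, x v)⁻¹ * KC.ff g s k dirs) :=
    ((isPol_zpow hF hmem hP).inv hF).mul hF hf
  have hrrv : ∀ x, ((fun x : KC.Va s k → ℤ => c i ^ ∏ v ∈ KC.As s k, x v)⁻¹ *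
      KC.ff g s k dirs) x ∈ F (k + 1) := by
    intro x
    exact KC.cg_trans (KC.cg_symm (KC.cg_zpow hF hkal hci _)) (hcong x)
  obtain ⟨sy, hsy, hsy0, hrs⟩ := coord hA hom _ hrr k hrrv
    {S : Set (KC.Va s k) | ∃ v ∈ KC.As s k, S = {v}} (fun _ => 0)
    (fun _ => Submodule.zero_mem _) (fun _ _ => rfl) (by
      intro S hS x hx
      have h := hH1 S hS x hx
      simp only [Pi.mul_apply, Pi.inv_apply]
      rw [h.1, h.2, zpow_zero, inv_one, one_mul]
      exact (kap_zero c).symm)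
  simp only [Pi.zero_apply, zero_add, Pi.mul_apply, Pi.inv_apply] at hrs
  have hv0 : ({KC.va ⟨0, hk1⟩} : Set (KC.Va s k)) ∈
      {S : Set (KC.Va s k) | ∃ v ∈ KC.As s k, S = {v}} := ⟨_, by simp [KC.As], rfl⟩
  choose C hC0 hC using fun j => WP_size1 (hsy j) hv0
  refine ⟨dirs, ∑ j, C j, hdl, Finset.sum_nonneg fun j _ => hC0 j, ?_⟩
  intro n m t a ha
  obtain ⟨a', rfl⟩ : ∃ a' : Fin k → ℤ, a = List.ofFn a' := by
    refine ⟨fun v => a.get (v.cast (hk.trans ha.symm)), ?_⟩
    refine List.ext_getElem (by simp [ha, hk]) ?_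
    intro j h1 h2
    simp
  obtain ⟨x, hx⟩ : ∃ x : KC.Va s k → ℤ, x = Sum.elim (fun _ => n) (Sum.elim m (Sum.elim t a')) :=
    ⟨_, rfl⟩
  have hxa : ∀ v, x (KC.va v) = a' v := fun v => by rw [hx]; rfl
  refine ⟨fun j => sy j x, ?_, ?_, ?_, ?_⟩
  · rw [← hrs x, KC.prod_As, List.prod_ofFn]
    simp only [hxa]
    rw [mul_inv_cancel_left]
    unfold KC.ff
    rw [hx]
    rfl
  · intro j hj
    have h := hsy0 j (by omega)
    simp only [h]
    rfl
  · intro Q hQ j
    unfold md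
    refine WP_dvd hom hW (hA.le_D j) (hsy j) hv0 ?_
    intro v hv
    rw [Set.mem_singleton_iff] at hv
    rw [hv, hxa]
    exact hQ _ (by simp)
  · intro N ze hN hze0 hze1 hn hm ht hb j
    have hN0 : (0 : ℝ) ≤ N := by linarith
    have hb' : ∀ v, |(a' v : ℝ)| ≤ ze * N := fun v => hb _ (by simp)
    have h := hC j N ze x hN hze0 hze1 ?_ ?_
    · refine h.trans ?_
      have h1 : C j ≤ ∑ j, C j := Finset.single_le_sum (fun j _ => hC0 j) (Finset.mem_univ j)
      have h2 : 0 ≤ ze * N ^ w j := mul_nonneg hze0 (pow_nonneg hN0 _)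
      nlinarith
    · intro v
      rw [pow_one, hx]
      rcases v with v | v | v | v
      · exact hn
      · exact hm v
      · exact ht v
      · refine (hb' v).trans ?_
        nlinarith
    · intro v hv
      rw [Set.mem_singleton_iff] at hv
      rw [pow_one, hv, hxa]
      exact hb' _

end Pool.Nil
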