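import Pool.Agent.Nil.Rep

set_option autoImplicit false

/-!
# Nil: van der Corput in a unitary representation

PROOFS.
`vdc_one` (`‖z‖ = 1`, `E_t` = average over the cube): `E_t Uo (Wd t) z` is within `2 H0 / M` of
`E_t E_h Uo (Wd (t + h e_l)) z`, `h ∈ [0, H0)` (`avg_cube_shift`), and
`‖E_t E_h Uo (Wd (t + h e_l)) z‖^2 ≤ E_t ‖E_h ..‖^2 = E_{h, h'} re E_t ⟪Uo (Wd (t + h' e)) z, Uo (Wd (t + h e)) z⟫ =
E_{h, h'} re E_t Ψ (t + h' e)` with `Ψ t = ⟪z, Uo ((Wd t)⁻¹ * Wd (t + (h - h') e)) z⟫`; by `avg_cube_shift` this is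
within `2 H0 / M` of `E_{h,h'} re E_t Ψ t ≤ E_{h, h'} ‖E_t Uo ((Wd t)⁻¹ Wd (sft t l (h - h'))) z‖`.  As all
quantities are `≤ 1`: `x ≤ y + a` implies `x^2 ≤ y^2 + 2 a + a^2`.
`vdc_iter`: induction on `dirs`.  For `dirs = l :: L`, with `x = ‖E_t Uo (Wd t) z‖ ≤ 1`, `eps = 10 H0 / M`:
`x^(2^(k+1)) = (x^2)^(2^k) ≤ (E_{a} y_a + eps)^(2^k)`, and `(y + eps)^n ≤ y^n + n 2^n eps` for `0 ≤ y, eps ≤ 1` (if
`eps ≥ 1` the claim is trivial as `x ≤ 1`), `(E y)^n ≤ E y^n` (`inner_le_nnorm_mul_nnorm` or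
`Real.pow_arith_mean_le_arith_mean_pow`), and the induction hypothesis for every function
`t ↦ (Wd t)⁻¹ * Wd (sft t l (h - h'))`.  The average over `cube (k + 1) H0` is the average over the first
coordinate of the average over `cube k H0`.
-/

namespace Pool.Nil

open Finset

variable {G : Type*} [Group G] {H : Type*} [NormedAddCommGroup H] [InnerProductSpace ℂ H]
  [CompleteSpace H] {s : ℕ}

namespace VdcHAux

/-- the real part of the inner product, as a real linear map -/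
noncomputable def reL (y : H) : H →L[ℝ] ℝ :=
  Complex.reCLM.comp ((innerSL ℂ y).restrictScalars ℝ)

omit [CompleteSpace H] in
lemma reL_apply (y x : H) : reL y x = (inner ℂ y x).re := rfl

omit [CompleteSpace H] in
lemma reL_symm (y x : H) : reL y x = reL x y := by
  rw [reL_apply, reL_apply, ← inner_conj_symm, Complex.conj_re]

omit [CompleteSpace H] in
lemma reL_self (x : H) : reL x x = ‖x‖ ^ 2 := by
  rw [reL_apply]
  exact (norm_sq_eq_re_inner (𝕜 := ℂ) x).symm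

omit [CompleteSpace H] in
lemma reL_le (y x : H) : reL y x ≤ ‖y‖ * ‖x‖ := by
  rw [reL_apply]
  exact re_inner_le_norm (𝕜 := ℂ) y x

omit [CompleteSpace H] in
lemma abs_reL_le (y x : H) : |reL y x| ≤ ‖y‖ * ‖x‖ := by
  rw [reL_apply]
  exact (Complex.abs_re_le_norm _).trans (norm_inner_le_norm y x)

omit [CompleteSpace H] in
lemma sq_norm_avg {α : Type*} (S : Finset α) (f : α → H) :
    ‖avg S f‖ ^ 2 = avg S (fun a => avg S (fun b => reL (f b) (f a))) := by
  rw [← reL_self, map_avg]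
  apply avg_congr
  intro a _
  rw [reL_symm, map_avg]
  apply avg_congr
  intro b _
  rw [reL_symm]

lemma reL_Uo (U : G →* (H ≃ₗᵢ[ℂ] H)) (x y : G) (z : H) :
    reL (Uo U x z) (Uo U y z) = reL z (Uo U (x⁻¹ * y) z) := by
  rw [reL_apply, reL_apply]
  congr 1
  rw [Uo_mul, ← adjoint_Uo]
  show _ = inner ℂ z ((ContinuousLinearMap.adjoint (Uo U x)) (Uo U y z))
  rw [ContinuousLinearMap.adjoint_inner_right]

lemma pow_le_add {u Y eps : ℝ} (hu0 : 0 ≤ u) (hu1 : u ≤ 1) (hY0 : 0 ≤ Y) (hY1 : Y ≤ 1)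
    (he : 0 ≤ eps) (h : u ≤ Y + eps) (n : ℕ) : u ^ n ≤ Y ^ n + n * eps := by
  induction n with
  | zero => simp
  | succ n ih =>
    have h1 : u ^ (n + 1) ≤ u * (Y ^ n + n * eps) := by
      rw [pow_succ, mul_comm]
      exact mul_le_mul_of_nonneg_left ih hu0
    have h2 : u * Y ^ n ≤ (Y + eps) * Y ^ n := mul_le_mul_of_nonneg_right h (pow_nonneg hY0 n)
    have h3 : eps * Y ^ n ≤ eps * 1 := mul_le_mul_of_nonneg_left (pow_le_one₀ hY0 hY1) he
    have h4 : u * (n * eps) ≤ 1 * (n * eps) := mul_le_mul_of_nonneg_right hu1 (by positivity)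
    push_cast
    rw [pow_succ Y]
    nlinarith

lemma avg_pow_le {α : Type*} {S : Finset α} (hS : S.Nonempty) {f : α → ℝ} (hf : ∀ a ∈ S, 0 ≤ f a)
    (n : ℕ) : (avg S f) ^ n ≤ avg S (fun a => f a ^ n) := by
  have hc : (0 : ℝ) < S.card := by
    have := hS.card_pos
    positivity
  have h := Real.pow_arith_mean_le_arith_mean_pow S (fun _ => (S.card : ℝ)⁻¹) f
    (fun _ _ => by positivity) (by rw [sum_const, nsmul_eq_mul, mul_inv_cancel₀ hc.ne']) hf n
  simp only [avg, smul_eq_mul, mul_sum]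
  exact h

lemma avg_cube_succ {E : Type*} [NormedAddCommGroup E] [NormedSpace ℝ E] (k M : ℕ)
    (f : (Fin (k + 1) → ℤ) → E) :
    avg (cube (k + 1) M) f = avg (Ico 0 (M : ℤ)) (fun a => avg (cube k M) (fun g =>
      f (Fin.cons a g))) := by
  have hcard : (cube (k + 1) M).card = (Ico 0 (M : ℤ)).card * (cube k M).card := by
    simp only [cube, Fintype.card_piFinset, prod_const, card_univ, Fintype.card_fin]
    rw [pow_succ, mul_comm]
  have hsum : ∑ t ∈ cube (k + 1) M, f t =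
      ∑ a ∈ Ico 0 (M : ℤ), ∑ g ∈ cube k M, f (Fin.cons a g) := by
    rw [← sum_product']
    symm
    refine sum_nbij' (fun p : ℤ × (Fin k → ℤ) => (Fin.cons p.1 p.2 : Fin (k + 1) → ℤ))
      (fun t => (t 0, Fin.tail t)) ?_ ?_ ?_ ?_ ?_
    · rintro ⟨a, g⟩ hp
      simp only [mem_product, cube, Fintype.mem_piFinset] at hp ⊢
      intro i
      refine Fin.cases ?_ (fun j => ?_) i
      · simpa using hp.1
      · simpa using hp.2 j
    · intro t ht
      simp only [mem_product, cube, Fintype.mem_piFinset] at ht ⊢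
      exact ⟨ht 0, fun i => ht i.succ⟩
    · rintro ⟨a, g⟩ _
      simp
    · intro t _
      simp
    · rintro ⟨a, g⟩ _
      rfl
  simp only [avg, ← smul_sum]
  rw [smul_smul, hcard, hsum]
  push_cast
  rw [mul_inv]

lemma shift {E : Type*} [NormedAddCommGroup E] [NormedSpace ℝ E] {M H0 : ℕ} (hM : 1 ≤ M)
    (l : Fin s) (f : (Fin s → ℤ) → E) (hf : ∀ t, ‖f t‖ ≤ 1) (h : ℤ) (hh : h ∈ Ico 0 (H0 : ℤ)) :
    ‖avg (cube s M) (fun t => f (sft t l h)) - avg (cube s M) f‖ ≤ 2 * ((H0 : ℝ) / M) := by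
  have hM0 : (0 : ℝ) < M := by exact_mod_cast hM
  rw [mem_Ico] at hh
  obtain ⟨n, rfl⟩ := Int.eq_ofNat_of_zero_le hh.1
  have hn : (n : ℝ) ≤ H0 := by exact_mod_cast hh.2.le
  refine (avg_cube_shift hM l n hf).trans ?_
  rw [mul_one, mul_div_assoc]
  exact mul_le_mul_of_nonneg_left (div_le_div_of_nonneg_right hn hM0.le) (by norm_num)

end VdcHAux

theorem vdc_one (U : G →* (H ≃ₗᵢ[ℂ] H)) (Wd : (Fin s → ℤ) → G) (l : Fin s) (M H0 : ℕ)
    (hH0 : 1 ≤ H0) (hHM : H0 ≤ M) (z : H) (hz : ‖z‖ = 1) :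
    ‖avg (cube s M) (fun t => Uo U (Wd t) z)‖ ^ 2 ≤
      avg (Ico 0 (H0 : ℤ)) (fun h => avg (Ico 0 (H0 : ℤ)) (fun h' =>
        ‖avg (cube s M) (fun t => Uo U ((Wd t)⁻¹ * Wd (sft t l (h - h'))) z)‖)) +
      10 * ((H0 : ℝ) / M) := by
  have hM : 1 ≤ M := hH0.trans hHM
  have hM0 : (0 : ℝ) < M := by exact_mod_cast hM
  have hH : (0 : ℝ) < H0 := by exact_mod_cast hH0
  have hne : (Ico 0 (H0 : ℤ)).Nonempty := ⟨0, by simpa using (by omega : 0 < H0)⟩
  have hr : (0 : ℝ) ≤ (H0 : ℝ) / M := by positivity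
  set F : (Fin s → ℤ) → H := fun t => Uo U (Wd t) z with hF
  have hF1 : ∀ t, ‖F t‖ = 1 := fun t => by rw [hF]; simp only; rw [norm_Uo_apply, hz]
  set X : H := avg (cube s M) (fun t => avg (Ico 0 (H0 : ℤ)) (fun h => F (sft t l h))) with hX
  have h1 : ‖X - avg (cube s M) F‖ ≤ 2 * ((H0 : ℝ) / M) := by
    rw [hX, avg_comm, ← avg_const hne (avg (cube s M) F), ← avg_sub]
    exact norm_avg_le_const (by positivity) fun h hh => VdcHAux.shift hM l F (fun t => (hF1 t).le) h hh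
  have hA1 : ‖avg (cube s M) F‖ ≤ 1 := norm_avg_le_const zero_le_one fun t _ => (hF1 t).le
  have hX1 : ‖X‖ ≤ 1 := norm_avg_le_const zero_le_one fun t _ =>
    norm_avg_le_const zero_le_one fun h _ => (hF1 _).le
  have h2 : ‖avg (cube s M) F‖ ^ 2 ≤ ‖X‖ ^ 2 + 4 * ((H0 : ℝ) / M) := by
    have h3 : ‖avg (cube s M) F‖ ≤ ‖X‖ + 2 * ((H0 : ℝ) / M) := by
      have := norm_sub_norm_le (avg (cube s M) F) X
      rw [norm_sub_rev] at this
      linarith
    nlinarith [norm_nonneg (avg (cube s M) F), norm_nonneg X]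
  have h4 : ‖X‖ ^ 2 ≤ avg (Ico 0 (H0 : ℤ)) (fun h => avg (Ico 0 (H0 : ℤ)) (fun h' =>
      avg (cube s M) (fun t => VdcHAux.reL (F (sft t l h')) (F (sft t l h))))) := by
    refine (sq_norm_avg_le _ _).trans (le_of_eq ?_)
    simp only [VdcHAux.sq_norm_avg]
    rw [avg_comm]
    apply avg_congr
    intro h _
    rw [avg_comm]
  have h5 : ∀ h ∈ Ico 0 (H0 : ℤ), ∀ h' ∈ Ico 0 (H0 : ℤ),
      avg (cube s M) (fun t => VdcHAux.reL (F (sft t l h')) (F (sft t l h))) ≤
      ‖avg (cube s M) (fun t => Uo U ((Wd t)⁻¹ * Wd (sft t l (h - h'))) z)‖ +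
        2 * ((H0 : ℝ) / M) := by
    intro h _ h' hh'
    have e1 : ∀ t, sft (sft t l h') l (h - h') = sft t l h := by
      intro t
      unfold sft
      rw [Function.update_self, Function.update_idem]
      congr 1
      ring
    have h6 := VdcHAux.shift hM l (fun t => VdcHAux.reL (F t) (F (sft t l (h - h')))) (fun t => by
      rw [Real.norm_eq_abs]
      refine (VdcHAux.abs_reL_le _ _).trans ?_
      rw [hF1, hF1, mul_one]) h' hh'
    simp only [e1] at h6
    rw [Real.norm_eq_abs] at h6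
    have h7 := le_of_abs_le h6
    have h8 : avg (cube s M) (fun t => VdcHAux.reL (F t) (F (sft t l (h - h')))) ≤
        ‖avg (cube s M) (fun t => Uo U ((Wd t)⁻¹ * Wd (sft t l (h - h'))) z)‖ := by
      have e2 : avg (cube s M) (fun t => VdcHAux.reL (F t) (F (sft t l (h - h')))) =
          VdcHAux.reL z (avg (cube s M) (fun t => Uo U ((Wd t)⁻¹ * Wd (sft t l (h - h'))) z)) := by
        rw [map_avg]
        apply avg_congr
        intro t _
        exact VdcHAux.reL_Uo U _ _ z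
      rw [e2]
      refine (VdcHAux.reL_le _ _).trans ?_
      rw [hz, one_mul]
    linarith
  have h9 : avg (Ico 0 (H0 : ℤ)) (fun h => avg (Ico 0 (H0 : ℤ)) (fun h' =>
      avg (cube s M) (fun t => VdcHAux.reL (F (sft t l h')) (F (sft t l h))))) ≤
      avg (Ico 0 (H0 : ℤ)) (fun h => avg (Ico 0 (H0 : ℤ)) (fun h' =>
        ‖avg (cube s M) (fun t => Uo U ((Wd t)⁻¹ * Wd (sft t l (h - h'))) z)‖)) +
        2 * ((H0 : ℝ) / M) := by
    have h10 : avg (Ico 0 (H0 : ℤ)) (fun h => avg (Ico 0 (H0 : ℤ)) (fun h' =>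
        ‖avg (cube s M) (fun t => Uo U ((Wd t)⁻¹ * Wd (sft t l (h - h'))) z)‖ +
          2 * ((H0 : ℝ) / M))) =
        avg (Ico 0 (H0 : ℤ)) (fun h => avg (Ico 0 (H0 : ℤ)) (fun h' =>
        ‖avg (cube s M) (fun t => Uo U ((Wd t)⁻¹ * Wd (sft t l (h - h'))) z)‖)) +
        2 * ((H0 : ℝ) / M) := by
      have e3 : ∀ h : ℤ, avg (Ico 0 (H0 : ℤ)) (fun h' =>
          ‖avg (cube s M) (fun t => Uo U ((Wd t)⁻¹ * Wd (sft t l (h - h'))) z)‖ +
            2 * ((H0 : ℝ) / M)) = avg (Ico 0 (H0 : ℤ)) (fun h' =>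
          ‖avg (cube s M) (fun t => Uo U ((Wd t)⁻¹ * Wd (sft t l (h - h'))) z)‖) +
            2 * ((H0 : ℝ) / M) := fun h => by rw [avg_add, avg_const hne]
      simp only [e3]
      rw [avg_add, avg_const hne]
    rw [← h10]
    exact avg_mono fun h hh => avg_mono fun h' hh' => h5 h hh h' hh'
  linarith

theorem vdc_iter (U : G →* (H ≃ₗᵢ[ℂ] H)) (k : ℕ) : ∃ C : ℝ, 0 ≤ C ∧
    ∀ (dirs : List (Fin s)), dirs.length = k → ∀ (Wd : (Fin s → ℤ) → G) (M H0 : ℕ),
    1 ≤ H0 → H0 ≤ M → ∀ z : H, ‖z‖ = 1 →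
    ‖avg (cube s M) (fun t => Uo U (Wd t) z)‖ ^ (2 ^ k) ≤
      avg (cube k H0) (fun h => avg (cube k H0) (fun h' =>
        ‖avg (cube s M) (fun t =>
          Uo U (ddl (dirs.zip (List.ofFn fun i => h i - h' i)) Wd t) z)‖)) +
      C * ((H0 : ℝ) / M) := by
  induction k with
  | zero =>
    refine ⟨0, le_rfl, fun dirs hd Wd M H0 hH0 hHM z hz => ?_⟩
    have h0 : dirs = [] := List.length_eq_zero_iff.mp hd
    subst h0
    have hne : (cube 0 H0).Nonempty := ⟨fun i => i.elim0, Fintype.mem_piFinset.mpr fun i => i.elim0⟩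
    simp only [List.zip_nil_left, ddl, pow_zero, pow_one, zero_mul, add_zero]
    rw [avg_const hne, avg_const hne]
  | succ k ih =>
    obtain ⟨C, hC, hih⟩ := ih
    refine ⟨C + 2 ^ k * 10, by positivity, fun dirs hd Wd M H0 hH0 hHM z hz => ?_⟩
    match dirs, hd with
    | l :: L, hd =>
      have hL : L.length = k := by simpa using hd
      have hM : 1 ≤ M := hH0.trans hHM
      have hM0 : (0 : ℝ) < M := by exact_mod_cast hM
      have hH : (0 : ℝ) < H0 := by exact_mod_cast hH0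
      have hne : (Ico 0 (H0 : ℤ)).Nonempty := ⟨0, by simpa using (by omega : 0 < H0)⟩
      have hr : (0 : ℝ) ≤ (H0 : ℝ) / M := by positivity
      have hx1 : ‖avg (cube s M) (fun t => Uo U (Wd t) z)‖ ≤ 1 :=
        norm_avg_le_const zero_le_one fun t _ => by rw [norm_Uo_apply, hz]
      have h1 := vdc_one U Wd l M H0 hH0 hHM z hz
      set y : ℤ → ℤ → ℝ := fun a b =>
        ‖avg (cube s M) (fun t => Uo U ((Wd t)⁻¹ * Wd (sft t l (a - b))) z)‖ with hy
      have hy0 : ∀ a b, 0 ≤ y a b := fun a b => norm_nonneg _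
      have hy1 : ∀ a b, y a b ≤ 1 := fun a b =>
        norm_avg_le_const zero_le_one fun t _ => by rw [norm_Uo_apply, hz]
      have h2 := VdcHAux.pow_le_add (u := ‖avg (cube s M) (fun t => Uo U (Wd t) z)‖ ^ 2)
        (Y := avg (Ico 0 (H0 : ℤ)) (fun a => avg (Ico 0 (H0 : ℤ)) (fun b => y a b)))
        (eps := 10 * ((H0 : ℝ) / M)) (by positivity) (pow_le_one₀ (norm_nonneg _) hx1)
        (avg_nonneg fun a _ => avg_nonneg fun b _ => hy0 a b)
        (avg_le_const zero_le_one fun a _ => avg_le_const zero_le_one fun b _ => hy1 a b)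
        (by positivity) h1 (2 ^ k)
      have h3 : (avg (Ico 0 (H0 : ℤ)) (fun a => avg (Ico 0 (H0 : ℤ)) (fun b => y a b))) ^ (2 ^ k) ≤
          avg (Ico 0 (H0 : ℤ)) (fun a => avg (Ico 0 (H0 : ℤ)) (fun b => y a b ^ (2 ^ k))) := by
        refine (VdcHAux.avg_pow_le hne (fun a _ => avg_nonneg fun b _ => hy0 a b) _).trans ?_
        exact avg_mono fun a _ => VdcHAux.avg_pow_le hne (fun b _ => hy0 a b) _
      have h4 : ∀ a b : ℤ, y a b ^ (2 ^ k) ≤
          avg (cube k H0) (fun g => avg (cube k H0) (fun g' =>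
            ‖avg (cube s M) (fun t => Uo U (ddl ((l :: L).zip (List.ofFn fun i : Fin (k + 1) =>
              (Fin.cons a g : Fin (k + 1) → ℤ) i - (Fin.cons b g' : Fin (k + 1) → ℤ) i))
                Wd t) z)‖)) + C * ((H0 : ℝ) / M) := by
        intro a b
        have h5 := hih L hL (fun t => (Wd t)⁻¹ * Wd (sft t l (a - b))) M H0 hH0 hHM z hz
        simp only [List.ofFn_succ, Fin.cons_zero, Fin.cons_succ, List.zip_cons_cons, ddl]
        exact h5
      have h6 : avg (Ico 0 (H0 : ℤ)) (fun a => avg (Ico 0 (H0 : ℤ)) (fun b => y a b ^ (2 ^ k))) ≤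
          avg (cube (k + 1) H0) (fun h => avg (cube (k + 1) H0) (fun h' =>
            ‖avg (cube s M) (fun t => Uo U (ddl ((l :: L).zip (List.ofFn fun i => h i - h' i))
              Wd t) z)‖)) + C * ((H0 : ℝ) / M) := by
        refine (avg_mono fun a _ => avg_mono fun b _ => h4 a b).trans (le_of_eq ?_)
        simp only [avg_add, avg_const hne, VdcHAux.avg_cube_succ]
        congr 1
        apply avg_congr
        intro a _
        rw [avg_comm]
      rw [pow_succ 2 k, mul_comm, pow_mul]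
      refine h2.trans ?_
      have h7 := h3.trans h6
      push_cast
      linarith

end Pool.Nil
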