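import Pool.Agent.Nil.Moment
import Pool.Agent.Nil.VdcH
import Pool.Agent.PolyMax.Basic

set_option autoImplicit false

/-!
# Nil: large window averages of a vector force large exponential sums, up to errors

`Fw` is the full iterated difference (directions `dirs0` then `lst`, amounts `lam (h_i - h'_i)` then
`lam x`) of the word at the point `lam t` with the coordinate `lst` set to zero.

PROOF of `kca`.  Let `s = 2^e`, `Wd t = word g s n (lam m) (lam t)` for fixed `m`.
(1) `moment` and `words`: `‖A z‖^(2^(e+1)) ≤ ‖avg_m avg_t Uo (Wd t) z‖ ≤ avg_m ‖avg_t Uo (Wd t) z‖`.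
(2) power mean and `vdc_iter` (directions `dirs0`, `k = dirs0.length`):
`‖A z‖^(2^(e+1) 2^k) ≤ avg_m avg_{h,h'} ‖avg_t Uo (Dd t) z‖ + C H0 / M`, `Dd = ddl (dirs0.zip (h - h')) Wd`.
(3) `Dd t = ddl (dirs0.zip (lam (h - h'))) (word g s n (lam m)) (lam t)` (`sft (lam t) l (lam a) = lam (sft t l a)`).
(4) `avg_cube_coord` in the coordinate `lst`; with `t0 = update t lst 0`:
`Dd (update t lst x) = Dd t0 * Fw ..` (`ddl_append` for the one element list, `sft (lam t0) lst (lam x) = lam (update t lst x)`).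
So `‖avg_t Uo (Dd t) z‖ ≤ avg_t ‖avg_x Uo (Fw ..) z‖`, and for every `t`
`‖avg_x Uo (Fw ..) z‖ ≤ ‖avg_x e (be ∏ (h - h') x)‖ + avg_x ‖Uo (Fw ..) z - e (be ∏ (h - h') x) • z‖` (`‖z‖ = 1`).
-/

namespace Pool.Nil

open Finset

variable {G : Type*} [Group G] {H : Type*} [NormedAddCommGroup H] [InnerProductSpace ℂ H]
  [CompleteSpace H]

/-- the full iterated difference -/
def Fw (g : ℤ → G) {s k : ℕ} (dirs0 : List (Fin s)) (lst : Fin s) (n lam : ℤ) (h h' : Fin k → ℤ)
    (m t : Fin s → ℤ) (x : ℤ) : G :=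
  ddl ((dirs0 ++ [lst]).zip ((List.ofFn fun i => lam * (h i - h' i)) ++ [lam * x]))
    (word g s n (fun l => lam * m l)) (fun l => lam * (Function.update t lst 0) l)

namespace KCAAux

lemma scale_sft {s : ℕ} (lam : ℤ) (t : Fin s → ℤ) (l : Fin s) (a : ℤ) :
    (fun i => lam * sft t l a i) = sft (fun i => lam * t i) l (lam * a) := by
  funext i
  unfold sft
  by_cases h : i = l
  · subst h
    rw [Function.update_self, Function.update_self, mul_add]
  · rw [Function.update_of_ne h, Function.update_of_ne h]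

lemma ddl_scale {s : ℕ} (lam : ℤ) (L : List (Fin s × ℤ)) : ∀ (Wd : (Fin s → ℤ) → G)
    (t : Fin s → ℤ), ddl L (fun t => Wd (fun l => lam * t l)) t =
      ddl (L.map fun p => (p.1, lam * p.2)) Wd (fun l => lam * t l) := by
  induction L with
  | nil => intro Wd t; rfl
  | cons p L ih =>
    intro Wd t
    simp only [ddl, List.map_cons, scale_sft]
    exact ih (fun u => (Wd u)⁻¹ * Wd (sft u p.1 (lam * p.2))) t

lemma zip_scale {s k : ℕ} (lam : ℤ) (L : List (Fin s)) (a : Fin k → ℤ) :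
    (L.zip (List.ofFn a)).map (fun p => (p.1, lam * p.2)) =
      L.zip (List.ofFn fun i => lam * a i) := by
  have h : (List.ofFn fun i => lam * a i) = (List.ofFn a).map (fun x => lam * x) := by
    rw [List.map_ofFn]
    rfl
  rw [h, List.zip_map_right]
  rfl

lemma fw_eq (g : ℤ → G) {s k : ℕ} (dirs0 : List (Fin s)) (hd : dirs0.length = k) (lst : Fin s)
    (n lam : ℤ) (h h' : Fin k → ℤ) (m t : Fin s → ℤ) (x : ℤ) :
    ddl (dirs0.zip (List.ofFn fun i => h i - h' i))
        (fun t => word g s n (fun l => lam * m l) (fun l => lam * t l)) (Function.update t lst x) =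
      ddl (dirs0.zip (List.ofFn fun i => h i - h' i))
        (fun t => word g s n (fun l => lam * m l) (fun l => lam * t l)) (Function.update t lst 0) *
      Fw g dirs0 lst n lam h h' m t x := by
  unfold Fw
  rw [ddl_scale, ddl_scale, zip_scale,
    List.zip_append (by rw [hd, List.length_ofFn]), ddl_append]
  have e : sft (fun l => lam * Function.update t lst 0 l) lst (lam * x) =
      fun l => lam * Function.update t lst x l := by
    funext i
    unfold sft
    by_cases hi : i = lst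
    · subst hi
      simp [Function.update_self]
    · simp [Function.update_of_ne hi]
  simp only [List.zip_cons_cons, List.zip_nil_left, ddl]
  rw [e, mul_inv_cancel_left]

lemma pow_avg_le {α : Type*} {s : Finset α} (hs : s.Nonempty) {f : α → ℝ}
    (hf : ∀ a ∈ s, 0 ≤ f a) (p : ℕ) : avg s f ^ p ≤ avg s (fun a => f a ^ p) := by
  have hc : (s.card : ℝ) ≠ 0 := by
    have := hs.card_pos
    positivity
  have h := Real.pow_arith_mean_le_arith_mean_pow s (fun _ => (s.card : ℝ)⁻¹) f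
    (fun _ _ => by positivity) (by rw [sum_const, nsmul_eq_mul, mul_inv_cancel₀ hc]) hf p
  unfold avg
  rw [smul_eq_mul, smul_eq_mul, mul_sum, mul_sum]
  exact h

lemma cube_nonempty (s : ℕ) {M : ℕ} (hM : 1 ≤ M) : (cube s M).Nonempty := by
  refine ⟨fun _ => 0, ?_⟩
  unfold cube
  rw [Fintype.mem_piFinset]
  intro _
  rw [mem_Ico]
  omega

lemma avg_apply {α : Type*} (s : Finset α) (f : α → H →L[ℂ] H) (z : H) :
    (avg s f) z = avg s (fun a => f a z) := by
  unfold avg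
  rw [ContinuousLinearMap.smul_apply, ContinuousLinearMap.sum_apply]

lemma avg_smul_vec {α : Type*} (s : Finset α) (f : α → ℂ) (z : H) :
    avg s (fun a => f a • z) = (avg s f) • z := by
  unfold avg
  rw [← Finset.sum_smul, smul_assoc]

lemma Uo_avg {α : Type*} (U : G →* (H ≃ₗᵢ[ℂ] H)) (x : G) (s : Finset α) (f : α → H) :
    Uo U x (avg s f) = avg s (fun a => Uo U x (f a)) := by
  unfold avg
  rw [← map_sum]
  have h1 : ((s.card : ℝ)⁻¹) • (∑ a ∈ s, f a) = (((s.card : ℝ)⁻¹ : ℝ) : ℂ) • (∑ a ∈ s, f a) :=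
    (Complex.coe_smul _ _).symm
  rw [h1, map_smul, Complex.coe_smul]

lemma inner_bound (U : G →* (H ≃ₗᵢ[ℂ] H)) (s : Finset ℤ) (F : ℤ → G) (c : ℤ → ℂ) (z : H)
    (hz : ‖z‖ = 1) :
    ‖avg s (fun x => Uo U (F x) z)‖ ≤ ‖avg s c‖ + avg s (fun x => ‖Uo U (F x) z - c x • z‖) := by
  have h1 : avg s (fun x => Uo U (F x) z) =
      (avg s c) • z + avg s (fun x => Uo U (F x) z - c x • z) := by
    rw [← avg_smul_vec, ← avg_add]
    refine avg_congr fun x _ => ?_
    abel
  rw [h1]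
  refine (norm_add_le _ _).trans (add_le_add ?_ (norm_avg_le _ _))
  rw [norm_smul, hz, mul_one]

/-- the bound for fixed `m, h, h'` -/
lemma fixed (U : G →* (H ≃ₗᵢ[ℂ] H)) (g : ℤ → G) {s k : ℕ} (dirs0 : List (Fin s))
    (hd : dirs0.length = k) (lst : Fin s) (n lam : ℤ) {M : ℕ} (hM : 1 ≤ M) (h h' : Fin k → ℤ)
    (m : Fin s → ℤ) (c : ℤ → ℂ) (z : H) (hz : ‖z‖ = 1) :
    ‖avg (cube s M) (fun t => Uo U (ddl (dirs0.zip (List.ofFn fun i => h i - h' i))
      (fun t => word g s n (fun l => lam * m l) (fun l => lam * t l)) t) z)‖ ≤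
      ‖avg (Ico 0 (M : ℤ)) c‖ + avg (cube s M) (fun t => avg (Ico 0 (M : ℤ)) (fun x =>
        ‖Uo U (Fw g dirs0 lst n lam h h' m t x) z - c x • z‖)) := by
  rw [avg_cube_coord hM lst, ← avg_const (cube_nonempty s hM) (‖avg (Ico 0 (M : ℤ)) c‖), ← avg_add]
  refine (norm_avg_le _ _).trans (avg_mono fun t _ => ?_)
  have e : avg (Ico 0 (M : ℤ)) (fun x => Uo U (ddl (dirs0.zip (List.ofFn fun i => h i - h' i))
      (fun t => word g s n (fun l => lam * m l) (fun l => lam * t l)) (Function.update t lst x)) z) =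
      Uo U (ddl (dirs0.zip (List.ofFn fun i => h i - h' i))
        (fun t => word g s n (fun l => lam * m l) (fun l => lam * t l)) (Function.update t lst 0))
        (avg (Ico 0 (M : ℤ)) (fun x => Uo U (Fw g dirs0 lst n lam h h' m t x) z)) := by
    rw [Uo_avg]
    refine avg_congr fun x _ => ?_
    rw [fw_eq g dirs0 hd lst n lam h h' m t x, Uo_mul]
    rfl
  rw [e, norm_Uo_apply]
  exact inner_bound U _ _ c z hz

end KCAAux

theorem kca (U : G →* (H ≃ₗᵢ[ℂ] H)) (g : ℤ → G) (e k : ℕ) : ∃ C : ℝ, 0 ≤ C ∧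
    ∀ (dirs0 : List (Fin (2 ^ e))) (lst : Fin (2 ^ e)), dirs0.length = k →
    ∀ (n : ℤ) (lam M H0 : ℕ) (be : ℝ) (z : H), 1 ≤ H0 → H0 ≤ M → ‖z‖ = 1 →
    ‖Aw U g n lam M z‖ ^ (2 ^ (e + 1) * 2 ^ k) ≤
      avg (cube k H0) (fun h => avg (cube k H0) (fun h' =>
        ‖avg (Ico 0 (M : ℤ)) (fun x => Pool.PolyMax.e (be * (∏ i, ((h i : ℝ) - h' i)) * x))‖)) +
      C * ((H0 : ℝ) / M) +
      avg (cube k H0) (fun h => avg (cube k H0) (fun h' => avg (cube (2 ^ e) M) (fun m =>
        avg (cube (2 ^ e) M) (fun t => avg (Ico 0 (M : ℤ)) (fun x =>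
          ‖Uo U (Fw g dirs0 lst n lam h h' m t x) z -
            Pool.PolyMax.e (be * (∏ i, ((h i : ℝ) - h' i)) * x) • z‖))))) := by
  obtain ⟨C, hC, hv⟩ := vdc_iter (s := 2 ^ e) U k
  refine ⟨C, hC, ?_⟩
  intro dirs0 lst hd n lam M H0 be z hH0 hHM hz
  have hM : 1 ≤ M := hH0.trans hHM
  have hne := KCAAux.cube_nonempty (2 ^ e) hM
  -- (1)
  have h1 := moment (Aw U g n lam M) e z
  rw [hz, one_pow, one_mul, words, KCAAux.avg_apply] at h1
  have h2 : ‖Aw U g n lam M z‖ ^ (2 ^ (e + 1)) ≤ avg (cube (2 ^ e) M) (fun m =>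
      ‖avg (cube (2 ^ e) M) (fun t => Uo U (word g (2 ^ e) n (fun l => (lam : ℤ) * m l)
        (fun l => lam * t l)) z)‖) := by
    refine h1.trans ((norm_avg_le _ _).trans (le_of_eq (avg_congr fun m _ => ?_)))
    rw [KCAAux.avg_apply]
  -- (2)
  have h3 : ‖Aw U g n lam M z‖ ^ (2 ^ (e + 1) * 2 ^ k) ≤ avg (cube (2 ^ e) M) (fun m =>
      ‖avg (cube (2 ^ e) M) (fun t => Uo U (word g (2 ^ e) n (fun l => (lam : ℤ) * m l)
        (fun l => lam * t l)) z)‖ ^ (2 ^ k)) := by
    rw [pow_mul]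
    exact (pow_le_pow_left₀ (by positivity) h2 _).trans
      (KCAAux.pow_avg_le hne (fun m _ => norm_nonneg _) _)
  refine h3.trans ?_
  have h4 : ∀ m : Fin (2 ^ e) → ℤ,
      ‖avg (cube (2 ^ e) M) (fun t => Uo U (word g (2 ^ e) n (fun l => (lam : ℤ) * m l)
        (fun l => lam * t l)) z)‖ ^ (2 ^ k) ≤
      avg (cube k H0) (fun h => avg (cube k H0) (fun h' =>
        (‖avg (Ico 0 (M : ℤ)) (fun x => Pool.PolyMax.e (be * (∏ i, ((h i : ℝ) - h' i)) * x))‖ +
        avg (cube (2 ^ e) M) (fun t => avg (Ico 0 (M : ℤ)) (fun x =>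
          ‖Uo U (Fw g dirs0 lst n lam h h' m t x) z -
            Pool.PolyMax.e (be * (∏ i, ((h i : ℝ) - h' i)) * x) • z‖))))) +
      C * ((H0 : ℝ) / M) := by
    intro m
    refine (hv dirs0 hd (fun t => word g (2 ^ e) n (fun l => (lam : ℤ) * m l)
        (fun l => lam * t l)) M H0 hH0 hHM z hz).trans (add_le_add ?_ le_rfl)
    refine avg_mono fun h _ => avg_mono fun h' _ => ?_
    exact KCAAux.fixed U g dirs0 hd lst n lam hM h h' m
      (fun x => Pool.PolyMax.e (be * (∏ i, ((h i : ℝ) - h' i)) * x)) z hz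
  refine (avg_mono fun m _ => h4 m).trans (le_of_eq ?_)
  rw [avg_add, avg_const hne]
  simp only [avg_add]
  rw [avg_const hne, add_right_comm]
  congr 1
  rw [avg_comm (cube (2 ^ e) M) (cube k H0)]
  refine avg_congr fun h _ => ?_
  rw [avg_comm (cube (2 ^ e) M) (cube k H0)]

end Pool.Nil
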