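import Pool.Agent.Nil.Avg
import Pool.Agent.PolyMax.Vino

set_option autoImplicit false

/-!
# Nil: recurrence for products

`Pool.PolyMax.dz x` is the distance of `x` to the nearest integer, `Pool.PolyMax.e x = exp (2 pi i x)`.

PROOF of `recur`.  Put `F (ga) = ‖avg (Ico 0 M) (fun x => e (ga x))‖`.  If `F (ga) ≥ 1 / Y` then
`dz ga ≤ Y / M` (geometric sum).  Put `S_0 = F` and `S_{k+1} (ga) = ∑_{a, b ∈ [0, H0)} S_k (ga (a - b))`.
Claim by induction on `k`: there is `C` such that `S_k (be) ≥ H0^{2k} / Y` (`Y ≥ 2`, `Y^C ≤ H0 ≤ M`)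
implies that there is `1 ≤ q ≤ Y^C` with `dz (q be) ≤ Y^C / (M H0^k)`.
Step: at least `H0^2 / (2 Y)` pairs `(a, b)` satisfy `S_k (be (a - b)) ≥ H0^{2k} / (2 Y)`; apply the induction
hypothesis to them, use the pigeonhole principle for `q`, then the differences `|a - b|` (every value is
taken by at most `2 H0` pairs) and `Pool.PolyMax.vino`.
-/

namespace Pool.Nil

open Finset

namespace RecurAux

open Pool.PolyMax

lemma card_cube (k H : ℕ) : (cube k H).card = H ^ k := by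
  unfold cube
  rw [Fintype.card_piFinset]
  simp

lemma sum_cube_succ (k H : ℕ) (f : (Fin (k + 1) → ℤ) → ℝ) :
    ∑ h ∈ cube (k + 1) H, f h = ∑ a ∈ Ico 0 (H : ℤ), ∑ t ∈ cube k H, f (Fin.cons a t) := by
  rw [← Finset.sum_product']
  refine Finset.sum_nbij' (fun h => (h 0, Fin.tail h)) (fun p => Fin.cons p.1 p.2) ?_ ?_ ?_ ?_ ?_
  · intro h hh
    rw [cube, Fintype.mem_piFinset] at hh
    rw [mem_product]
    refine ⟨hh 0, ?_⟩
    rw [cube, Fintype.mem_piFinset]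
    intro i
    exact hh i.succ
  · intro p hp
    rw [mem_product, cube, Fintype.mem_piFinset] at hp
    rw [cube, Fintype.mem_piFinset]
    intro i
    refine Fin.cases ?_ (fun j => ?_) i
    · exact hp.1
    · exact hp.2 j
  · intro h _
    exact Fin.cons_self_tail h
  · intro p _
    simp
  · intro h _
    rw [Fin.cons_self_tail]

/-- the average of the character -/
noncomputable def F (M : ℕ) (ga : ℝ) : ℝ := ‖avg (Ico 0 (M : ℤ)) (fun x => e (ga * x))‖

lemma sum_Ico_range (M : ℕ) (f : ℤ → ℂ) :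
    ∑ x ∈ Ico 0 (M : ℤ), f x = ∑ n ∈ range M, f (n : ℤ) := by
  refine Finset.sum_nbij' (fun x => x.toNat) (fun n => (n : ℤ)) ?_ ?_ ?_ ?_ ?_
  · intro x hx
    rw [mem_Ico] at hx
    rw [mem_range]
    omega
  · intro n hn
    rw [mem_range] at hn
    rw [mem_Ico]
    omega
  · intro x hx
    rw [mem_Ico] at hx
    exact Int.toNat_of_nonneg hx.1
  · intro n _
    simp
  · intro x hx
    rw [mem_Ico] at hx
    rw [Int.toNat_of_nonneg hx.1]

lemma F_nonneg (M : ℕ) (ga : ℝ) : 0 ≤ F M ga := norm_nonneg _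

lemma F_eq (M : ℕ) (ga : ℝ) : F M ga = (M : ℝ)⁻¹ * ‖∑ n ∈ range M, e ((n : ℝ) * ga)‖ := by
  unfold F avg
  rw [norm_smul, sum_Ico_range, Int.card_Ico]
  simp only [sub_zero, Int.toNat_natCast, norm_inv, RCLike.norm_natCast, Int.cast_natCast]
  congr 3
  funext n
  rw [mul_comm]

lemma F_le_one (M : ℕ) (ga : ℝ) : F M ga ≤ 1 := by
  rw [F_eq]
  rcases Nat.eq_zero_or_pos M with rfl | hM
  · simp
  · have h1 : ‖∑ n ∈ range M, e ((n : ℝ) * ga)‖ ≤ M := by
      refine (norm_sum_le _ _).trans ?_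
      refine (Finset.sum_le_sum (g := fun _ => (1 : ℝ)) ?_).trans ?_
      · intro n _
        unfold e
        rw [Complex.norm_exp]
        simp
      · simp
    have hM' : (0 : ℝ) < M := by exact_mod_cast hM
    rw [inv_mul_le_iff₀ hM', mul_one]
    exact h1

lemma dz_of_F {M : ℕ} (hM : 1 ≤ M) {ga Y : ℝ} (hY : 0 < Y) (h : Y⁻¹ ≤ F M ga) :
    dz ga ≤ Y / M := by
  have hM' : (0 : ℝ) < M := by exact_mod_cast hM
  have h1 := geom_bound ga M
  rw [F_eq] at h
  have h2 : (M : ℝ) * Y⁻¹ ≤ ‖∑ n ∈ range M, e ((n : ℝ) * ga)‖ := by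
    have := mul_le_mul_of_nonneg_left h hM'.le
    rwa [← mul_assoc, mul_inv_cancel₀ hM'.ne', one_mul] at this
  have h3 := dz_nonneg ga
  have h4 : (M : ℝ) * Y⁻¹ * (2 * dz ga) ≤ 1 :=
    (mul_le_mul_of_nonneg_right h2 (by linarith)).trans h1
  rw [le_div_iff₀ hM']
  have h5 : (M : ℝ) * Y⁻¹ * (2 * dz ga) * Y ≤ 1 * Y := mul_le_mul_of_nonneg_right h4 hY.le
  have h6 : (M : ℝ) * Y⁻¹ * (2 * dz ga) * Y = 2 * (dz ga * M) := by
    field_simp
  rw [h6] at h5
  have h7 : 0 ≤ dz ga * M := mul_nonneg h3 hM'.le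
  linarith

/-- the iterated sums -/
noncomputable def S (M H : ℕ) : ℕ → ℝ → ℝ
  | 0, ga => F M ga
  | k + 1, ga => ∑ a ∈ Ico 0 (H : ℤ), ∑ b ∈ Ico 0 (H : ℤ), S M H k (ga * ((a : ℝ) - b))

lemma S_bound (M H k : ℕ) (ga : ℝ) : 0 ≤ S M H k ga ∧ S M H k ga ≤ (H : ℝ) ^ (2 * k) := by
  induction k generalizing ga with
  | zero =>
    refine ⟨F_nonneg _ _, ?_⟩
    rw [mul_zero, pow_zero]
    exact F_le_one M ga
  | succ k ih =>
    refine ⟨Finset.sum_nonneg fun a _ => Finset.sum_nonneg fun b _ => (ih _).1, ?_⟩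
    have h1 : S M H (k + 1) ga ≤ ∑ a ∈ Ico 0 (H : ℤ), ∑ b ∈ Ico 0 (H : ℤ), (H : ℝ) ^ (2 * k) :=
      Finset.sum_le_sum fun a _ => Finset.sum_le_sum fun b _ => (ih _).2
    refine h1.trans (le_of_eq ?_)
    simp only [sum_const, Int.card_Ico, sub_zero, Int.toNat_natCast, nsmul_eq_mul]
    ring

lemma S_eq (M H k : ℕ) (ga : ℝ) : ∑ h ∈ cube k H, ∑ h' ∈ cube k H,
    F M (ga * (∏ i, ((h i : ℝ) - h' i))) = S M H k ga := by
  induction k generalizing ga with
  | zero =>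
    have h1 : cube 0 H = {fun i => i.elim0} := by
      ext f
      simp [cube, eq_iff_true_of_subsingleton]
    rw [h1]
    simp [S]
  | succ k ih =>
    rw [sum_cube_succ]
    simp_rw [sum_cube_succ]
    unfold S
    refine Finset.sum_congr rfl fun a _ => ?_
    rw [Finset.sum_comm]
    refine Finset.sum_congr rfl fun b _ => ?_
    rw [← ih]
    refine Finset.sum_congr rfl fun t _ => Finset.sum_congr rfl fun t' _ => ?_
    rw [Fin.prod_univ_succ]
    simp only [Fin.cons_zero, Fin.cons_succ]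
    rw [mul_assoc]

lemma avg_eq (M H k : ℕ) (ga : ℝ) : avg (cube k H) (fun h => avg (cube k H) (fun h' =>
      ‖avg (Ico 0 (M : ℤ)) (fun x => e (ga * (∏ i, ((h i : ℝ) - h' i)) * x))‖)) =
    ((H : ℝ) ^ (2 * k))⁻¹ * S M H k ga := by
  rw [← S_eq]
  simp only [avg, card_cube, smul_eq_mul, F]
  rw [← Finset.mul_sum, ← mul_assoc, ← mul_inv, ← Nat.cast_mul, ← pow_add, two_mul]
  push_cast
  rfl

/-- many pairs with differences close to integers: many small multiples -/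
lemma diff_card (H : ℕ) (P : Finset (ℤ × ℤ)) (hP : P ⊆ Ico 0 (H : ℤ) ×ˢ Ico 0 (H : ℤ))
    (D : Finset ℕ) (hD : ∀ p ∈ P, p.1 ≠ p.2 → (p.1 - p.2).natAbs ∈ D) :
    P.card ≤ H + 2 * H * D.card := by
  classical
  have h1 : P ⊆ ((Ico 0 (H : ℤ)).image fun a => (a, a)) ∪
      ((Ico 0 (H : ℤ) ×ˢ D).image fun p => (p.1 + p.2, p.1)) ∪
      ((Ico 0 (H : ℤ) ×ˢ D).image fun p => (p.1, p.1 + (p.2 : ℤ))) := by
    intro p hp
    have h2 := hP hp
    rw [mem_product] at h2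
    rcases lt_trichotomy p.1 p.2 with h | h | h
    · rw [mem_union]
      right
      rw [mem_image]
      refine ⟨(p.1, (p.1 - p.2).natAbs), ?_, ?_⟩
      · rw [mem_product]
        exact ⟨h2.1, hD p hp h.ne⟩
      · refine Prod.ext rfl ?_
        show p.1 + (((p.1 - p.2).natAbs : ℕ) : ℤ) = p.2
        omega
    · rw [mem_union, mem_union]
      left
      left
      rw [mem_image]
      exact ⟨p.1, h2.1, Prod.ext rfl h⟩
    · rw [mem_union, mem_union]
      left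
      right
      rw [mem_image]
      refine ⟨(p.2, (p.1 - p.2).natAbs), ?_, ?_⟩
      · rw [mem_product]
        exact ⟨h2.2, hD p hp h.ne'⟩
      · refine Prod.ext ?_ rfl
        show p.2 + (((p.1 - p.2).natAbs : ℕ) : ℤ) = p.1
        omega
  have h3 := card_le_card h1
  have h4 := card_union_le (((Ico 0 (H : ℤ)).image fun a => (a, a)) ∪
      ((Ico 0 (H : ℤ) ×ˢ D).image fun p => (p.1 + (p.2 : ℤ), p.1)))
      ((Ico 0 (H : ℤ) ×ˢ D).image fun p => (p.1, p.1 + (p.2 : ℤ)))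
  have h5 := card_union_le ((Ico 0 (H : ℤ)).image fun a => (a, a))
      ((Ico 0 (H : ℤ) ×ˢ D).image fun p => (p.1 + (p.2 : ℤ), p.1))
  have h6 : ((Ico 0 (H : ℤ)).image fun a => (a, a)).card ≤ H := by
    refine card_image_le.trans ?_
    simp
  have h7 : ((Ico 0 (H : ℤ) ×ˢ D).image fun p => (p.1 + (p.2 : ℤ), p.1)).card ≤ H * D.card := by
    refine card_image_le.trans ?_
    rw [card_product]
    simp
  have h8 : ((Ico 0 (H : ℤ) ×ˢ D).image fun p => (p.1, p.1 + (p.2 : ℤ))).card ≤ H * D.card := by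
    refine card_image_le.trans ?_
    rw [card_product]
    simp
  nlinarith

lemma vino_pairs (H : ℕ) (ga Z eps : ℝ) (hZ : 1 ≤ Z) (he : 0 ≤ eps) (heZ : 400 * Z * eps ≤ 1)
    (hH : 32 * Z ≤ H) (P : Finset (ℤ × ℤ)) (hP : P ⊆ Ico 0 (H : ℤ) ×ˢ Ico 0 (H : ℤ))
    (hc : (H : ℝ) ^ 2 ≤ Z * P.card) (hd : ∀ p ∈ P, dz (ga * ((p.1 : ℝ) - p.2)) ≤ eps) :
    ∃ q : ℕ, 1 ≤ q ∧ (q : ℝ) ≤ 4 * Z ∧ dz (q * ga) ≤ 16 * Z ^ 2 * eps / H := by
  classical
  have hZ0 : 0 < Z := by linarith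
  have hH0 : (0 : ℝ) < H := by linarith
  set D : Finset ℕ := (Icc 1 H).filter fun h => dz ((h : ℝ) * ga) ≤ eps with hDdef
  have h1 : P.card ≤ H + 2 * H * D.card := by
    refine diff_card H P hP D fun p hp hne => ?_
    have h2 := hP hp
    rw [mem_product, mem_Ico, mem_Ico] at h2
    rw [hDdef, mem_filter, mem_Icc]
    refine ⟨⟨?_, ?_⟩, ?_⟩
    · omega
    · omega
    · have h3 := hd p hp
      rcases le_total p.2 p.1 with h | h
      · have h4 : (((p.1 - p.2).natAbs : ℕ) : ℝ) = (p.1 : ℝ) - p.2 := by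
          have : (((p.1 - p.2).natAbs : ℕ) : ℤ) = p.1 - p.2 := by omega
          rw [← Int.cast_natCast, this]
          push_cast
          ring
        rw [h4, mul_comm]
        exact h3
      · have h4 : (((p.1 - p.2).natAbs : ℕ) : ℝ) = -((p.1 : ℝ) - p.2) := by
          have : (((p.1 - p.2).natAbs : ℕ) : ℤ) = -(p.1 - p.2) := by omega
          rw [← Int.cast_natCast, this]
          push_cast
          ring
        rw [h4, neg_mul, dz_neg, mul_comm]
        exact h3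
  have h1' : (P.card : ℝ) ≤ H + 2 * H * D.card := by exact_mod_cast h1
  have h2 : (H : ℝ) ≤ 4 * Z * D.card := by
    have h3 : (H : ℝ) ^ 2 ≤ Z * (H + 2 * H * D.card) :=
      hc.trans (mul_le_mul_of_nonneg_left h1' hZ0.le)
    have h4 : (H : ℝ) * H ≤ H * (Z * (1 + 2 * D.card)) := by
      calc (H : ℝ) * H = (H : ℝ) ^ 2 := by ring
        _ ≤ _ := h3
        _ = _ := by ring
    have h5 := le_of_mul_le_mul_left h4 hH0
    nlinarith
  have hdel : (0 : ℝ) < 1 / (4 * Z) := by positivity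
  obtain ⟨q, hq1, hq2, hq3⟩ := vino ga H (1 / (4 * Z)) eps hdel
    (by rw [div_le_one (by positivity)]; linarith) he
    (by rw [le_div_iff₀ (by positivity)]; linarith)
    (by rw [one_div, inv_mul_eq_div, le_div_iff₀ (by positivity)]; linarith)
    D (filter_subset _ _)
    (by rw [one_div, inv_mul_eq_div, div_le_iff₀ (by positivity)]; linarith)
    (fun h hh => (mem_filter.1 hh).2)
  refine ⟨q, hq1, ?_, ?_⟩
  · rwa [mul_one_div, div_le_one (by positivity)] at hq2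
  · rw [le_div_iff₀ hH0]
    have h3 : dz (q * ga) * ((1 / (4 * Z)) ^ 2 * H) = dz (q * ga) * H / (16 * Z ^ 2) := by
      field_simp
      ring
    rw [h3, div_le_iff₀ (by positivity)] at hq3
    linarith

/-- pigeonhole -/
lemma pigeon {α : Type*} (P : Finset α) (N : ℕ) (f : α → ℕ)
    (hf : ∀ p ∈ P, f p ∈ Icc 1 N) (hP : P.Nonempty) :
    ∃ q ∈ Icc 1 N, P.card ≤ N * (P.filter fun p => f p = q).card := by
  classical
  by_contra hcon
  push Not at hcon
  have h1 : P.card = ∑ q ∈ Icc 1 N, (P.filter fun p => f p = q).card :=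
    Finset.card_eq_sum_card_fiberwise hf
  have hN : 0 < N := by
    obtain ⟨p, hp⟩ := hP
    have := mem_Icc.1 (hf p hp)
    omega
  have h2 : N * ∑ q ∈ Icc 1 N, (P.filter fun p => f p = q).card < ∑ q ∈ Icc 1 N, P.card := by
    rw [Finset.mul_sum]
    refine Finset.sum_lt_sum_of_nonempty ?_ fun q hq => hcon q hq
    exact ⟨1, by rw [mem_Icc]; omega⟩
  rw [← h1, Finset.sum_const, Nat.card_Icc, smul_eq_mul, Nat.add_sub_cancel] at h2
  exact lt_irrefl _ h2

/-- the inductive claim -/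
lemma claim (k : ℕ) : ∃ C : ℕ, ∀ (Y : ℝ), 2 ≤ Y → ∀ (M H : ℕ) (be : ℝ), H ≤ M → Y ^ C ≤ H →
    (H : ℝ) ^ (2 * k) ≤ Y * S M H k be →
    ∃ q : ℕ, 1 ≤ q ∧ (q : ℝ) ≤ Y ^ C ∧ dz (q * be) ≤ Y ^ C / (M * (H : ℝ) ^ k) := by
  classical
  induction k with
  | zero =>
    refine ⟨1, fun Y hY M H be hHM hH h => ⟨1, le_rfl, ?_, ?_⟩⟩
    · rw [pow_one, Nat.cast_one]
      linarith
    · rw [pow_one] at hH
      have hH1 : (1 : ℝ) < H := by linarith
      have hH2 : 1 < H := by exact_mod_cast hH1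
      have hY0 : 0 < Y := by linarith
      have h1 : Y⁻¹ ≤ F M be := by
        rw [mul_zero, pow_zero] at h
        rw [inv_le_iff_one_le_mul₀' hY0]
        exact h
      have h2 := dz_of_F (by omega : 1 ≤ M) hY0 h1
      rw [Nat.cast_one, one_mul, pow_zero, mul_one, pow_one]
      exact h2
  | succ k ih =>
    obtain ⟨C, hC⟩ := ih
    refine ⟨6 * C + 20, fun Y hY M H be hHM hH h => ?_⟩
    have hY0 : 0 < Y := by linarith
    have hY1 : 1 ≤ Y := by linarith
    have hH1 : (1 : ℝ) ≤ H := (one_le_pow₀ hY1).trans hH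
    have hH0 : (0 : ℝ) < H := by linarith
    have hM0 : (0 : ℝ) < M := hH0.trans_le (by exact_mod_cast hHM)
    -- the good pairs
    set Q := Ico 0 (H : ℤ) ×ˢ Ico 0 (H : ℤ) with hQ
    set P := Q.filter fun p => (H : ℝ) ^ (2 * k) ≤ Y ^ 2 * S M H k (be * ((p.1 : ℝ) - p.2)) with hPdef
    have hQc : (Q.card : ℝ) = (H : ℝ) ^ 2 := by
      rw [hQ, card_product]
      simp only [Int.card_Ico, sub_zero, Int.toNat_natCast]
      push_cast
      ring
    have hPc : (H : ℝ) ^ 2 ≤ 2 * Y * P.card := by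
      have h1 : S M H (k + 1) be = ∑ p ∈ Q, S M H k (be * ((p.1 : ℝ) - p.2)) := by
        rw [hQ, Finset.sum_product]
        rfl
      have h2 : ∑ p ∈ Q, S M H k (be * ((p.1 : ℝ) - p.2)) ≤
          (P.card : ℝ) * (H : ℝ) ^ (2 * k) + (H : ℝ) ^ 2 * ((H : ℝ) ^ (2 * k) / Y ^ 2) := by
        rw [← Finset.sum_filter_add_sum_filter_not Q
          (fun p => (H : ℝ) ^ (2 * k) ≤ Y ^ 2 * S M H k (be * ((p.1 : ℝ) - p.2)))]
        refine add_le_add ?_ ?_
        · refine (Finset.sum_le_sum fun p _ => (S_bound M H k _).2).trans ?_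
          rw [sum_const, nsmul_eq_mul]
        · have h3 : ∀ p ∈ Q.filter (fun p => ¬ (H : ℝ) ^ (2 * k) ≤
              Y ^ 2 * S M H k (be * ((p.1 : ℝ) - p.2))),
              S M H k (be * ((p.1 : ℝ) - p.2)) ≤ (H : ℝ) ^ (2 * k) / Y ^ 2 := by
            intro p hp
            have h4 := (mem_filter.1 hp).2
            push Not at h4
            rw [le_div_iff₀ (by positivity)]
            linarith
          refine (Finset.sum_le_sum h3).trans ?_
          rw [sum_const, nsmul_eq_mul]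
          refine mul_le_mul_of_nonneg_right ?_ (by positivity)
          rw [← hQc]
          exact_mod_cast card_filter_le _ _
      rw [h1] at h
      have h5 := h.trans (mul_le_mul_of_nonneg_left h2 hY0.le)
      have hHk : (0 : ℝ) < (H : ℝ) ^ (2 * k) := by positivity
      have h6 : (H : ℝ) ^ (2 * k) * (H : ℝ) ^ 2 ≤
          (H : ℝ) ^ (2 * k) * (Y * P.card + (H : ℝ) ^ 2 / Y) := by
        calc (H : ℝ) ^ (2 * k) * (H : ℝ) ^ 2 = (H : ℝ) ^ (2 * (k + 1)) := by ring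
          _ ≤ _ := h5
          _ = _ := by
            field_simp
      have h7 := le_of_mul_le_mul_left h6 hHk
      have h8 : (H : ℝ) ^ 2 / Y ≤ (H : ℝ) ^ 2 / 2 := by
        apply div_le_div_of_nonneg_left (by positivity) (by norm_num) hY
      linarith
    -- the induction hypothesis
    have hYC : (Y ^ 2) ^ C ≤ H := by
      refine le_trans ?_ hH
      rw [← pow_mul]
      exact pow_le_pow_right₀ hY1 (by omega)
    have hY2 : 2 ≤ Y ^ 2 := by nlinarith
    have hex : ∀ p : ℤ × ℤ, ∃ q : ℕ, p ∈ P → (1 ≤ q ∧ (q : ℝ) ≤ (Y ^ 2) ^ C ∧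
        dz (q * (be * ((p.1 : ℝ) - p.2))) ≤ (Y ^ 2) ^ C / (M * (H : ℝ) ^ k)) := by
      intro p
      by_cases hp : p ∈ P
      · obtain ⟨q, hq⟩ := hC (Y ^ 2) hY2 M H (be * ((p.1 : ℝ) - p.2)) hHM hYC (mem_filter.1 hp).2
        exact ⟨q, fun _ => hq⟩
      · exact ⟨0, fun h => absurd h hp⟩
    choose f hf using hex
    have hPne : P.Nonempty := by
      rw [← card_pos]
      by_contra hcon
      have : P.card = 0 := by omega
      rw [this, Nat.cast_zero, mul_zero] at hPc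
      have : 0 < (H : ℝ) ^ 2 := by positivity
      linarith
    obtain ⟨q, hq, hqc⟩ := pigeon P ⌊(Y ^ 2) ^ C⌋₊ f (fun p hp => by
      rw [mem_Icc]
      exact ⟨(hf p hp).1, Nat.le_floor (hf p hp).2.1⟩) hPne
    rw [mem_Icc] at hq
    have hqY : (q : ℝ) ≤ Y ^ (2 * C) := by
      rw [pow_mul]
      exact (Nat.le_floor_iff (by positivity)).1 hq.2
    set P' := P.filter fun p => f p = q with hP'
    set ep : ℝ := Y ^ (2 * C) / (M * (H : ℝ) ^ k) with hep
    have hep0 : 0 ≤ ep := by positivity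
    set Z : ℝ := Y ^ (2 * C + 2) with hZ
    have hZ1 : 1 ≤ Z := one_le_pow₀ hY1
    have hPP : (H : ℝ) ^ 2 ≤ Z * P'.card := by
      have h1 : (P.card : ℝ) ≤ Y ^ (2 * C) * P'.card := by
        have h2 : (P.card : ℝ) ≤ (⌊(Y ^ 2) ^ C⌋₊ : ℝ) * P'.card := by exact_mod_cast hqc
        refine h2.trans (mul_le_mul_of_nonneg_right ?_ (Nat.cast_nonneg _))
        rw [pow_mul]
        exact Nat.floor_le (by positivity)
      have h3 : 2 * Y * (P.card : ℝ) ≤ Y ^ 2 * (Y ^ (2 * C) * P'.card) := by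
        have h4 : 2 * Y ≤ Y ^ 2 := by nlinarith
        exact mul_le_mul h4 h1 (Nat.cast_nonneg _) (by positivity)
      calc (H : ℝ) ^ 2 ≤ _ := hPc
        _ ≤ _ := h3
        _ = _ := by rw [hZ]; ring
    -- powers of two
    have h16 : ∀ j : ℕ, (2 : ℝ) ^ j ≤ Y ^ j := fun j => pow_le_pow_left₀ (by norm_num) hY j
    have heZ : 400 * Z * ep ≤ 1 := by
      have h1 : 400 * Z * ep = 400 * (Y ^ (2 * C + 2) * Y ^ (2 * C)) / (M * (H : ℝ) ^ k) := by
        rw [hep, hZ]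
        ring
      rw [h1, div_le_one (by positivity)]
      have h2 : (H : ℝ) ≤ M * (H : ℝ) ^ k := by
        calc (H : ℝ) ≤ M * 1 := by rw [mul_one]; exact_mod_cast hHM
          _ ≤ M * (H : ℝ) ^ k := mul_le_mul_of_nonneg_left (one_le_pow₀ hH1) hM0.le
      refine le_trans ?_ (hH.trans h2)
      rw [← pow_add]
      have h3 : (400 : ℝ) ≤ Y ^ 9 := (by norm_num : (400 : ℝ) ≤ 2 ^ 9).trans (h16 9)
      calc 400 * Y ^ (2 * C + 2 + 2 * C) ≤ Y ^ 9 * Y ^ (2 * C + 2 + 2 * C) :=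
            mul_le_mul_of_nonneg_right h3 (by positivity)
        _ = Y ^ (9 + (2 * C + 2 + 2 * C)) := by rw [← pow_add]
        _ ≤ Y ^ (6 * C + 20) := pow_le_pow_right₀ hY1 (by omega)
    have h32 : 32 * Z ≤ H := by
      refine le_trans ?_ hH
      have h3 : (32 : ℝ) ≤ Y ^ 5 := (by norm_num : (32 : ℝ) ≤ 2 ^ 5).trans (h16 5)
      calc 32 * Z ≤ Y ^ 5 * Y ^ (2 * C + 2) :=
            mul_le_mul_of_nonneg_right h3 (by positivity)
        _ = Y ^ (5 + (2 * C + 2)) := by rw [← pow_add]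
        _ ≤ Y ^ (6 * C + 20) := pow_le_pow_right₀ hY1 (by omega)
    obtain ⟨q', hq'1, hq'2, hq'3⟩ := vino_pairs H (q * be) Z ep hZ1 hep0 heZ h32 P'
      ((filter_subset _ _).trans (filter_subset _ _)) hPP (by
        intro p hp
        have h1 := mem_filter.1 hp
        have h2 := (hf p h1.1).2.2
        rw [h1.2, ← pow_mul, ← mul_assoc] at h2
        exact h2)
    refine ⟨q' * q, Nat.mul_pos hq'1 hq.1, ?_, ?_⟩
    · push_cast
      calc (q' : ℝ) * q ≤ (4 * Z) * Y ^ (2 * C) :=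
            mul_le_mul hq'2 hqY (Nat.cast_nonneg _) (by positivity)
        _ ≤ (Y ^ 2 * Y ^ (2 * C + 2)) * Y ^ (2 * C) := by
            refine mul_le_mul_of_nonneg_right ?_ (by positivity)
            refine mul_le_mul_of_nonneg_right ?_ (by positivity)
            exact (by norm_num : (4 : ℝ) ≤ 2 ^ 2).trans (h16 2)
        _ = Y ^ (2 + (2 * C + 2) + 2 * C) := by rw [← pow_add, ← pow_add]
        _ ≤ Y ^ (6 * C + 20) := pow_le_pow_right₀ hY1 (by omega)
    · push_cast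
      rw [mul_assoc]
      refine hq'3.trans ?_
      have h1 : 16 * Z ^ 2 * ep / H =
          16 * Y ^ (6 * C + 4) / (M * (H : ℝ) ^ (k + 1)) := by
        rw [hep, hZ]
        field_simp
        ring
      rw [h1]
      refine div_le_div_of_nonneg_right ?_ (by positivity)
      calc 16 * Y ^ (6 * C + 4) ≤ Y ^ 4 * Y ^ (6 * C + 4) := by
            refine mul_le_mul_of_nonneg_right ?_ (by positivity)
            exact (by norm_num : (16 : ℝ) ≤ 2 ^ 4).trans (h16 4)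
        _ = Y ^ (4 + (6 * C + 4)) := by rw [← pow_add]
        _ ≤ Y ^ (6 * C + 20) := pow_le_pow_right₀ hY1 (by omega)

end RecurAux

theorem recur (k : ℕ) : ∃ C : ℕ, ∀ (X : ℝ), 2 ≤ X → ∀ (M H0 : ℕ) (be : ℝ), 1 ≤ H0 → H0 ≤ M →
    (M : ℝ) ≤ X * H0 → X ^ C ≤ M →
    X⁻¹ ≤ avg (cube k H0) (fun h => avg (cube k H0) (fun h' =>
      ‖avg (Ico 0 (M : ℤ)) (fun x => Pool.PolyMax.e (be * (∏ i, ((h i : ℝ) - h' i)) * x))‖)) →
    ∃ q : ℕ, 1 ≤ q ∧ (q : ℝ) ≤ X ^ C ∧
      Pool.PolyMax.dz (q * be) ≤ X ^ C / (M : ℝ) ^ (k + 1) := by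
  obtain ⟨C, hC⟩ := RecurAux.claim k
  refine ⟨C + k + 1, fun X hX M H0 be hH1 hHM hMX hXM h => ?_⟩
  have hX0 : 0 < X := by linarith
  have hX1 : 1 ≤ X := by linarith
  have hH0 : (0 : ℝ) < H0 := by exact_mod_cast hH1
  have hM0 : (0 : ℝ) < M := hH0.trans_le (by exact_mod_cast hHM)
  rw [RecurAux.avg_eq] at h
  have hHC : X ^ C ≤ H0 := by
    have h1 : X * X ^ C ≤ X * H0 := by
      calc X * X ^ C = X ^ (C + 1) := by ring
        _ ≤ X ^ (C + k + 1) := pow_le_pow_right₀ hX1 (by omega)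
        _ ≤ M := hXM
        _ ≤ _ := hMX
    exact le_of_mul_le_mul_left h1 hX0
  obtain ⟨q, hq1, hq2, hq3⟩ := hC X hX M H0 be hHM hHC (by
    have h1 := mul_le_mul_of_nonneg_left h (by positivity : 0 ≤ X * (H0 : ℝ) ^ (2 * k))
    have h2 : X * (H0 : ℝ) ^ (2 * k) * X⁻¹ = (H0 : ℝ) ^ (2 * k) := by
      field_simp
    have h3 : X * (H0 : ℝ) ^ (2 * k) * (((H0 : ℝ) ^ (2 * k))⁻¹ * RecurAux.S M H0 k be) =
        X * RecurAux.S M H0 k be := by
      field_simp
    rw [h2, h3] at h1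
    exact h1)
  refine ⟨q, hq1, hq2.trans (pow_le_pow_right₀ hX1 (by omega)), hq3.trans ?_⟩
  rw [div_le_div_iff₀ (by positivity) (by positivity)]
  have h4 : (M : ℝ) ^ k ≤ X ^ k * (H0 : ℝ) ^ k := by
    rw [← mul_pow]
    exact pow_le_pow_left₀ hM0.le hMX k
  calc X ^ C * (M : ℝ) ^ (k + 1) = X ^ C * M * (M : ℝ) ^ k := by ring
    _ ≤ X ^ C * M * (X ^ k * (H0 : ℝ) ^ k) := mul_le_mul_of_nonneg_left h4 (by positivity)
    _ = X ^ (C + k) * (M * (H0 : ℝ) ^ k) := by ring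
    _ ≤ X ^ (C + k + 1) * (M * (H0 : ℝ) ^ k) :=
        mul_le_mul_of_nonneg_right (pow_le_pow_right₀ hX1 (by omega)) (by positivity)

end Pool.Nil
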