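import Pool.Agent.Nil.LevErr
import Pool.Agent.Nil.Recur

set_option autoImplicit false

/-!
# Nil: trichotomy for the Fourier coefficients

PROOF of `lev_dich`.  Let `j = w i = k + 1`, `fr.dirs i = dirs0 ++ [lst]` (`dirs_len`), `s = 2^e`, `cc = 2^(e+1) 2^k`, `C1` the
constant of `kca`, `H0 = ⌈M / X^b⌉` with `b` such that `2 C1 X^(-b) ≤ X^(-2 cc) / 4` for all `X ≥ 2` (`M ≥ X^b`, so
`H0 ≤ 2 M / X^b`), `H0 ≥ 1`.  Let `Err xi` be the average over all parameters of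
`‖Uo (Fw ..) z - e (..) • z‖`, `z = hat (VV ..) xi`.  By Cauchy-Schwarz (`sq_norm_avg_le` repeatedly) and `fw_err`:
`∑ Err^2 ≤ K X^D (lam M / N) ‖v‖^2`.
Fix `xi`, `z ≠ 0`, and suppose `‖A z‖ > X^(-2) ‖z‖`.  `kca` for `z / ‖z‖` gives
`X^(-2 cc) ≤ main + C1 H0 / M + Err xi / ‖z‖`.  So `main ≥ X^(-2 cc) / 4 ≥ (X^(2 cc + 2))⁻¹` or
`Err xi ≥ X^(-2 cc) / 4 ‖z‖`; in the second case `‖A z‖ ≤ ‖z‖ ≤ X^(2 cc + 2) Err xi`.  In the first case `recur` with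
`X^(2 cc + 2)` (or `X^(b + 2 cc + 2)`, so that `M ≤ X' H0`) in place of `X`.
-/

namespace Pool.Nil

open Finset

variable {G : Type*} [Group G] {H : Type*} [NormedAddCommGroup H] [InnerProductSpace ℂ H]
  [CompleteSpace H]

namespace LevDichAux

/-- the error: the average over all parameters -/
noncomputable def EE (U : G →* (H ≃ₗᵢ[ℂ] H)) (g : ℤ → G) {s : ℕ} (k : ℕ) (dirs0 : List (Fin s))
    (lst : Fin s) (n : ℤ) (lam M H0 : ℕ) (be : ℝ) (z : H) : ℝ :=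
  avg (cube k H0) (fun h => avg (cube k H0) (fun h' => avg (cube s M) (fun m =>
    avg (cube s M) (fun t => avg (Ico 0 (M : ℤ)) (fun x =>
      ‖Uo U (Fw g dirs0 lst n lam h h' m t x) z -
        Pool.PolyMax.e (be * (∏ i, ((h i : ℝ) - h' i)) * x) • z‖)))))

/-- the main term -/
noncomputable def MM (k H0 M : ℕ) (be : ℝ) : ℝ :=
  avg (cube k H0) (fun h => avg (cube k H0) (fun h' =>
    ‖avg (Ico 0 (M : ℤ)) (fun x => Pool.PolyMax.e (be * (∏ i, ((h i : ℝ) - h' i)) * x))‖))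

lemma EE_nonneg (U : G →* (H ≃ₗᵢ[ℂ] H)) (g : ℤ → G) {s : ℕ} (k : ℕ) (dirs0 : List (Fin s))
    (lst : Fin s) (n : ℤ) (lam M H0 : ℕ) (be : ℝ) (z : H) :
    0 ≤ EE U g k dirs0 lst n lam M H0 be z :=
  avg_nonneg fun _ _ => avg_nonneg fun _ _ => avg_nonneg fun _ _ => avg_nonneg fun _ _ =>
    avg_nonneg fun _ _ => norm_nonneg _

lemma EE_smul (U : G →* (H ≃ₗᵢ[ℂ] H)) (g : ℤ → G) {s : ℕ} (k : ℕ) (dirs0 : List (Fin s))
    (lst : Fin s) (n : ℤ) (lam M H0 : ℕ) (be : ℝ) (z : H) (c : ℂ) :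
    EE U g k dirs0 lst n lam M H0 be (c • z) = ‖c‖ * EE U g k dirs0 lst n lam M H0 be z := by
  have h1 : ∀ (h h' : Fin k → ℤ) (m t : Fin s → ℤ) (x : ℤ),
      ‖Uo U (Fw g dirs0 lst n lam h h' m t x) (c • z) -
        Pool.PolyMax.e (be * (∏ i, ((h i : ℝ) - h' i)) * x) • c • z‖ =
      ‖c‖ • ‖Uo U (Fw g dirs0 lst n lam h h' m t x) z -
        Pool.PolyMax.e (be * (∏ i, ((h i : ℝ) - h' i)) * x) • z‖ := by
    intro h h' m t x
    rw [map_smul, smul_comm _ c z, ← smul_sub, norm_smul, smul_eq_mul]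
  unfold EE
  simp only [h1, avg_smul]
  rw [smul_eq_mul]

lemma sum_sq_avg {ι α : Type*} [Fintype ι] (S : Finset α) (f : ι → α → ℝ) {B : ℝ} (hB : 0 ≤ B)
    (h : ∀ a ∈ S, ∑ xi, f xi a ^ 2 ≤ B) : ∑ xi, (avg S (f xi)) ^ 2 ≤ B := by
  have h1 : ∀ xi, (avg S (f xi)) ^ 2 ≤ avg S (fun a => f xi a ^ 2) := by
    intro xi
    have := sq_norm_avg_le S (f xi)
    simpa only [Real.norm_eq_abs, sq_abs] using this
  have h2 : ∑ xi, avg S (fun a => f xi a ^ 2) = avg S (fun a => ∑ xi, f xi a ^ 2) := by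
    unfold avg
    rw [← Finset.smul_sum, Finset.sum_comm]
  calc ∑ xi, (avg S (f xi)) ^ 2 ≤ ∑ xi, avg S (fun a => f xi a ^ 2) :=
        Finset.sum_le_sum fun xi _ => h1 xi
    _ = avg S (fun a => ∑ xi, f xi a ^ 2) := h2
    _ ≤ B := avg_le_const hB h

lemma EE_sq {ι : Type*} [Fintype ι] (U : G →* (H ≃ₗᵢ[ℂ] H)) (g : ℤ → G) {s : ℕ} (k : ℕ)
    (dirs0 : List (Fin s)) (lst : Fin s) (n : ℤ) (lam M H0 : ℕ) (be : ι → ℝ) (z : ι → H) {B : ℝ}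
    (hB : 0 ≤ B)
    (h : ∀ h ∈ cube k H0, ∀ h' ∈ cube k H0, ∀ m ∈ cube s M, ∀ t ∈ cube s M, ∀ x ∈ Ico 0 (M : ℤ),
      ∑ xi, ‖Uo U (Fw g dirs0 lst n lam h h' m t x) (z xi) -
        Pool.PolyMax.e (be xi * (∏ i, ((h i : ℝ) - h' i)) * x) • z xi‖ ^ 2 ≤ B) :
    ∑ xi, (EE U g k dirs0 lst n lam M H0 (be xi) (z xi)) ^ 2 ≤ B := by
  have h1 : ∀ xi, EE U g k dirs0 lst n lam M H0 (be xi) (z xi) =
      avg (cube k H0 ×ˢ (cube k H0 ×ˢ (cube s M ×ˢ (cube s M ×ˢ Ico 0 (M : ℤ)))))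
        (fun p => ‖Uo U (Fw g dirs0 lst n lam p.1 p.2.1 p.2.2.1 p.2.2.2.1 p.2.2.2.2) (z xi) -
          Pool.PolyMax.e (be xi * (∏ i, ((p.1 i : ℝ) - p.2.1 i)) * p.2.2.2.2) • z xi‖) := by
    intro xi
    unfold EE
    rw [avg_product]
    simp only [avg_product]
  simp only [h1]
  refine sum_sq_avg _ _ hB ?_
  rintro ⟨a, b, c, d, e⟩ hp
  simp only [Finset.mem_product] at hp
  exact h a hp.1 b hp.2.1 c hp.2.2.1 d hp.2.2.2.1 e hp.2.2.2.2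

theorem kca_s (U : G →* (H ≃ₗᵢ[ℂ] H)) (g : ℤ → G) {s e : ℕ} (hs : s = 2 ^ e) (k : ℕ) :
    ∃ C : ℝ, 0 ≤ C ∧ ∀ (dirs0 : List (Fin s)) (lst : Fin s), dirs0.length = k →
    ∀ (n : ℤ) (lam M H0 : ℕ) (be : ℝ) (z : H), 1 ≤ H0 → H0 ≤ M → z ≠ 0 →
    (‖Aw U g n lam M z‖ / ‖z‖) ^ (2 ^ (e + 1) * 2 ^ k) ≤
      MM k H0 M be + C * ((H0 : ℝ) / M) + EE U g k dirs0 lst n lam M H0 be z / ‖z‖ := by
  subst hs
  obtain ⟨C, hC, h⟩ := kca U g e k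
  refine ⟨C, hC, fun dirs0 lst hd n lam M H0 be z h1 h2 hz => ?_⟩
  have hz0 : 0 < ‖z‖ := norm_pos_iff.2 hz
  have hc : ‖((‖z‖⁻¹ : ℝ) : ℂ)‖ = ‖z‖⁻¹ := by
    rw [Complex.norm_real, Real.norm_eq_abs, abs_of_pos (inv_pos.2 hz0)]
  have hz1 : ‖((‖z‖⁻¹ : ℝ) : ℂ) • z‖ = 1 := by
    rw [norm_smul, hc, inv_mul_cancel₀ hz0.ne']
  have h3 := h dirs0 lst hd n lam M H0 be (((‖z‖⁻¹ : ℝ) : ℂ) • z) h1 h2 hz1
  have h4 : ‖Aw U g n lam M (((‖z‖⁻¹ : ℝ) : ℂ) • z)‖ = ‖Aw U g n lam M z‖ / ‖z‖ := by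
    rw [map_smul, norm_smul, hc, div_eq_inv_mul]
  have h5 : EE U g k dirs0 lst n lam M H0 be (((‖z‖⁻¹ : ℝ) : ℂ) • z) =
      EE U g k dirs0 lst n lam M H0 be z / ‖z‖ := by
    rw [EE_smul, hc, div_eq_inv_mul]
  rw [h4] at h3
  rw [← h5]
  exact h3

/-- the real inequalities -/
lemma core {X an zn E mn C1 hm : ℝ} {cc : ℕ} (hX : 2 ≤ X) (hzn : 0 < zn) (hE : 0 ≤ E)
    (haz : an ≤ zn) (hlt : (X ^ 2)⁻¹ * zn < an)
    (hk : (an / zn) ^ cc ≤ mn + C1 * hm + E / zn)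
    (hh : C1 * hm ≤ (X ^ (2 * cc))⁻¹ / 4) :
    (X ^ (2 * cc + 2))⁻¹ ≤ mn ∨ an ≤ X ^ (2 * cc + 2) * E := by
  have hX0 : 0 < X := by linarith
  have hX2 : 4 ≤ X ^ 2 := by nlinarith
  obtain ⟨η, hη⟩ : ∃ η : ℝ, η = (X ^ (2 * cc))⁻¹ := ⟨_, rfl⟩
  have hη0 : 0 < η := by rw [hη]; positivity
  have h1 : η ≤ (an / zn) ^ cc := by
    have h2 : (X ^ 2)⁻¹ ≤ an / zn := by
      rw [le_div_iff₀ hzn]
      exact hlt.le
    have h3 : ((X ^ 2)⁻¹) ^ cc ≤ (an / zn) ^ cc := pow_le_pow_left₀ (by positivity) h2 cc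
    rw [hη, pow_mul, ← inv_pow]
    exact h3
  have e1 : (X ^ (2 * cc + 2))⁻¹ = η / X ^ 2 := by
    rw [hη, pow_add, mul_inv, div_eq_mul_inv]
  have e2 : (X ^ (2 * cc + 2))⁻¹ ≤ η / 4 := by
    rw [e1]
    exact div_le_div_of_nonneg_left hη0.le (by norm_num) hX2
  rw [← hη] at hh
  by_cases hm' : η / 4 ≤ mn
  · left
    exact e2.trans hm'
  · right
    push Not at hm'
    have h4 : η / 4 ≤ E / zn := by linarith
    rw [le_div_iff₀ hzn] at h4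
    have h5 : (X ^ (2 * cc + 2))⁻¹ * zn ≤ E :=
      (mul_le_mul_of_nonneg_right e2 hzn.le).trans h4
    have h6 : 0 < X ^ (2 * cc + 2) := by positivity
    calc an ≤ zn := haz
      _ = X ^ (2 * cc + 2) * ((X ^ (2 * cc + 2))⁻¹ * zn) := by
          rw [mul_inv_cancel_left₀ h6.ne']
      _ ≤ X ^ (2 * cc + 2) * E := mul_le_mul_of_nonneg_left h5 h6.le

end LevDichAux

open LevDichAux

namespace Frame

variable {g : ℤ → G} (fr : Frame g) (U : G →* (H ≃ₗᵢ[ℂ] H))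

theorem lev_dich (i : Fin fr.r) : ∃ C : ℕ, ∀ (X : ℝ) (Q lam M n : ℕ) (N R : ℝ) (L : ℕ)
    [NeZero L] (v : H), 2 ≤ X → 1 ≤ Q → 1 ≤ lam → md fr.W fr.D Q 1 ∣ lam → 1 ≤ R → R ≤ N →
    N ≤ X * R → (n : ℝ) + lam * M ≤ N → X ^ C ≤ M →
    (L : ℝ) * (md fr.W fr.D Q (fr.w i) : ℕ) ≤ R ^ fr.w i →
    R ^ fr.w i ≤ 2 * (L : ℝ) * (md fr.W fr.D Q (fr.w i) : ℕ) →
    ∃ Err : (Fin fr.r → ZMod L) → ℝ, (∀ xi, 0 ≤ Err xi) ∧
      ∑ xi, Err xi ^ 2 ≤ X ^ C * (lam * M / N) * ‖v‖ ^ 2 ∧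
      ∀ xi, ‖Aw U g n lam M (hat (fr.VV U (fr.w i) Q R v) xi)‖ ≤
          (X ^ 2)⁻¹ * ‖hat (fr.VV U (fr.w i) Q R v) xi‖ ∨
        (∃ q : ℕ, 1 ≤ q ∧ (q : ℝ) ≤ X ^ C ∧
          Pool.PolyMax.dz (q * fr.bet (fr.w i) Q lam xi i) ≤ X ^ C / (M : ℝ) ^ fr.w i) ∨
        ‖Aw U g n lam M (hat (fr.VV U (fr.w i) Q R v) xi)‖ ≤ X ^ C * Err xi := by
  obtain ⟨k, hk⟩ : ∃ k, fr.w i = k + 1 := ⟨fr.w i - 1, by have := fr.one_le_w i; omega⟩
  have hlen := fr.dirs_len i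
  have hne : fr.dirs i ≠ [] := by
    intro h
    rw [h, hk] at hlen
    simp at hlen
  obtain ⟨dirs0, lst, hd⟩ : ∃ dirs0 lst, fr.dirs i = dirs0 ++ [lst] :=
    ⟨(fr.dirs i).dropLast, (fr.dirs i).getLast hne, (List.dropLast_append_getLast hne).symm⟩
  have hd0 : dirs0.length = k := by
    rw [hd, List.length_append, hk] at hlen
    simpa using hlen
  obtain ⟨K, hK, hfw⟩ := fr.fw_err U i k dirs0 lst hd0 hk hd
  obtain ⟨C1, hC1, hkca⟩ := kca_s U g fr.s_eq k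
  obtain ⟨C2, hrec⟩ := recur k
  obtain ⟨b0, hb0⟩ := pow_unbounded_of_one_lt (8 * C1) (one_lt_two (α := ℝ))
  obtain ⟨ka, hka⟩ := pow_unbounded_of_one_lt K (one_lt_two (α := ℝ))
  obtain ⟨cc, hcc⟩ : ∃ cc, cc = 2 ^ (fr.e + 1) * 2 ^ k := ⟨_, rfl⟩
  obtain ⟨b, hb⟩ : ∃ b, b = b0 + 2 * cc := ⟨_, rfl⟩
  obtain ⟨B, hB⟩ : ∃ B, B = b + (2 * cc + 2) := ⟨_, rfl⟩
  obtain ⟨C, hC⟩ : ∃ C, C = ka + fr.D + B + B * C2 := ⟨_, rfl⟩
  refine ⟨C, ?_⟩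
  intro X Q lam M n N R L _ v hX hQ hlam hmd hR hRN hNX hn hM hL1 hL2
  rw [hk] at hL1 hL2 ⊢
  have hX1 : 1 ≤ X := by linarith
  have hX0 : 0 < X := by linarith
  have hpow : ∀ {a c : ℕ}, a ≤ c → X ^ a ≤ X ^ c := fun h => pow_le_pow_right₀ hX1 h
  have hMb : X ^ b ≤ M := (hpow (by omega)).trans hM
  have hXb : 0 < X ^ b := by positivity
  have hM0 : (0 : ℝ) < M := hXb.trans_le hMb
  obtain ⟨H0, hH0⟩ : ∃ H0 : ℕ, H0 = ⌈(M : ℝ) / X ^ b⌉₊ := ⟨_, rfl⟩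
  have hMX : 1 ≤ (M : ℝ) / X ^ b := by
    rw [le_div_iff₀ hXb, one_mul]
    exact hMb
  have hH1 : 1 ≤ H0 := by
    rw [hH0, Nat.one_le_ceil_iff]
    linarith
  have hHM : H0 ≤ M := by
    rw [hH0, Nat.ceil_le]
    exact div_le_self hM0.le (one_le_pow₀ hX1)
  have hHlow : (M : ℝ) / X ^ b ≤ H0 := by
    rw [hH0]
    exact Nat.le_ceil _
  have hHup : (H0 : ℝ) ≤ 2 * (M / X ^ b) := by
    have := Nat.ceil_lt_add_one (a := (M : ℝ) / X ^ b) (by linarith)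
    rw [← hH0] at this
    linarith
  have hN0 : 0 < N := by linarith
  have hze : 0 ≤ (lam : ℝ) * M / N := by positivity
  have hBB : 0 ≤ K * X ^ fr.D * (lam * M / N) * ‖v‖ ^ 2 := by
    have : 0 ≤ K := by linarith
    positivity
  refine ⟨fun xi => EE U g k dirs0 lst n lam M H0 (fr.bet (k + 1) Q lam xi i)
    (hat (fr.VV U (k + 1) Q R v) xi), fun xi => EE_nonneg _ _ _ _ _ _ _ _ _ _ _, ?_, ?_⟩
  · refine (EE_sq U g k dirs0 lst n lam M H0 (fun xi => fr.bet (k + 1) Q lam xi i)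
      (fun xi => hat (fr.VV U (k + 1) Q R v) xi) hBB
      (hfw X Q lam M H0 n N R L v hX hQ hlam hmd hR hRN hNX hn hHM hL1 hL2)).trans ?_
    refine mul_le_mul_of_nonneg_right (mul_le_mul_of_nonneg_right ?_ hze) (by positivity)
    have h1 : K ≤ X ^ ka := hka.le.trans (pow_le_pow_left₀ (by norm_num) hX ka)
    calc K * X ^ fr.D ≤ X ^ ka * X ^ fr.D := mul_le_mul_of_nonneg_right h1 (by positivity)
      _ = X ^ (ka + fr.D) := (pow_add _ _ _).symm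
      _ ≤ X ^ C := hpow (by omega)
  · intro xi
    by_cases hlt : ‖Aw U g n lam M (hat (fr.VV U (k + 1) Q R v) xi)‖ ≤
          (X ^ 2)⁻¹ * ‖hat (fr.VV U (k + 1) Q R v) xi‖
    · exact Or.inl hlt
    push Not at hlt
    right
    have hz : hat (fr.VV U (k + 1) Q R v) xi ≠ 0 := by
      intro h0
      rw [h0] at hlt
      simp at hlt
    have hzn : 0 < ‖hat (fr.VV U (k + 1) Q R v) xi‖ := norm_pos_iff.2 hz
    have hk1 := hkca dirs0 lst hd0 n lam M H0 (fr.bet (k + 1) Q lam xi i) _ hH1 hHM hz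
    rw [← hcc] at hk1
    have haz : ‖Aw U g n lam M (hat (fr.VV U (k + 1) Q R v) xi)‖ ≤
        ‖hat (fr.VV U (k + 1) Q R v) xi‖ := by
      have := (Aw U g n lam M).le_of_opNorm_le (norm_Aw_le U g n lam M)
        (hat (fr.VV U (k + 1) Q R v) xi)
      rwa [one_mul] at this
    have hhm : C1 * ((H0 : ℝ) / M) ≤ (X ^ (2 * cc))⁻¹ / 4 := by
      have h1 : (H0 : ℝ) / M ≤ 2 / X ^ b := by
        rw [div_le_div_iff₀ hM0 hXb]
        calc (H0 : ℝ) * X ^ b ≤ 2 * (M / X ^ b) * X ^ b :=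
              mul_le_mul_of_nonneg_right hHup hXb.le
          _ = 2 * M := by field_simp
      have h2 : 8 * C1 * X ^ (2 * cc) ≤ X ^ b := by
        rw [hb, pow_add]
        refine mul_le_mul_of_nonneg_right ?_ (by positivity)
        exact hb0.le.trans (pow_le_pow_left₀ (by norm_num) hX b0)
      have h3 : 0 < X ^ (2 * cc) := by positivity
      calc C1 * ((H0 : ℝ) / M) ≤ C1 * (2 / X ^ b) := mul_le_mul_of_nonneg_left h1 hC1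
        _ ≤ (X ^ (2 * cc))⁻¹ / 4 := by
            rw [inv_eq_one_div, div_div, mul_div_assoc', div_le_div_iff₀ hXb (by positivity)]
            nlinarith
    rcases core hX hzn (EE_nonneg _ _ _ _ _ _ _ _ _ _ _) haz hlt hk1 hhm with h | h
    · left
      have hXB : 2 ≤ X ^ B := by
        calc (2 : ℝ) ≤ X := hX
          _ = X ^ 1 := (pow_one X).symm
          _ ≤ X ^ B := hpow (by omega)
      obtain ⟨q, hq1, hq2, hq3⟩ := hrec (X ^ B) hXB M H0 (fr.bet (k + 1) Q lam xi i) hH1 hHM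
        (by
          have h1 : (M : ℝ) ≤ H0 * X ^ b := (div_le_iff₀ hXb).1 hHlow
          have h2 : (0 : ℝ) ≤ H0 := Nat.cast_nonneg _
          calc (M : ℝ) ≤ H0 * X ^ b := h1
            _ ≤ H0 * X ^ B := mul_le_mul_of_nonneg_left (hpow (by omega)) h2
            _ = X ^ B * H0 := mul_comm _ _)
        (by
          rw [← pow_mul]
          exact (hpow (by omega)).trans hM)
        (by
          refine le_trans ?_ h
          exact inv_anti₀ (by positivity) (hpow (by omega)))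
      rw [← pow_mul] at hq2 hq3
      have h5 : X ^ (B * C2) ≤ X ^ C := hpow (by omega)
      refine ⟨q, hq1, hq2.trans h5, hq3.trans ?_⟩
      exact div_le_div_of_nonneg_right h5 (by positivity)
    · right
      refine h.trans ?_
      exact mul_le_mul_of_nonneg_right (hpow (by omega)) (EE_nonneg _ _ _ _ _ _ _ _ _ _ _)

end Frame

end Pool.Nil
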