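import Pool.Agent.Nil.FourPack
import Pool.Agent.Nil.KCA

set_option autoImplicit false

/-!
# Nil: the iterated differences act on the Fourier coefficients almost by scalars

`bet` is the frequency of the coordinate `i` in the normalization of the window.

PROOF of `fw_err`.  If `K X^D (lam M / N) ≥ 4` the claim follows from `four0` (every summand is at most
`4 ‖hat ..‖^2`).  Let `ze = lam M / N`.  By `fr.kc` with the amounts
`a = (lam (h_l - h'_l))_l ++ [lam x]` (`dirs i = dirs0 ++ [lst]`, all `|a| ≤ lam M = ze N`, `|n| ≤ N`, `|lam m_l|, |lam t_l| ≤ N`,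
all divisible by `md W D Q 1`): `Fw .. = c i ^ a.prod * kap c y'` with `kap c y' ∈ Sm (j + 1) Q N (C0 ze) ⊆
Sm (j + 1) Q R (C0 ze X^D)` (`Sm_down`; `j = w i`).
`a.prod = lam^j ∏ (h - h') x = md * y i` with the integer `y i = (lam^j / md) ∏ (h - h') x` (`md W D Q j ∣ lam^j`, since
`md W D Q j ∣ md W D Q 1 ∣ lam` and `j ≥ 1`), `y` supported at `i`; `|md y i| ≤ (ze N)^j ≤ ze X^D R^j`, so
`|y i| ≤ 2 ze X^D L`.  `phz xi y = bet * ∏ (h - h') * x`.  `four1` for `y` (with `kap c (Pi.single i b) = c i ^ b`) and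
`four2` for `z = kap c y'` (`‖Uo (x * z) f - e f‖ ≤ ‖Uo z f - f‖ + ‖Uo x f - e f‖`, `(a + b)^2 ≤ 2 a^2 + 2 b^2`).
-/

namespace Pool.Nil

open Finset

namespace LevErrAux

/-- the product of the amounts -/
lemma prod_amt {k : ℕ} (lam : ℤ) (d : Fin k → ℤ) (x : ℤ) :
    ((List.ofFn fun i => lam * d i) ++ [lam * x]).prod = lam ^ (k + 1) * ((∏ i, d i) * x) := by
  rw [List.prod_append, List.prod_ofFn, Finset.prod_mul_distrib, List.prod_singleton,
    Finset.prod_const, Finset.card_univ, Fintype.card_fin]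
  ring

/-- the amounts are bounded -/
lemma abs_prod_le {k : ℕ} (B : ℝ) (d : Fin k → ℤ) (x : ℤ) (hd : ∀ i, |(d i : ℝ)| ≤ B)
    (hx : |(x : ℝ)| ≤ B) : |(((∏ i, d i) * x : ℤ) : ℝ)| ≤ B ^ (k + 1) := by
  rw [Int.cast_mul, Int.cast_prod, abs_mul, Finset.abs_prod, pow_succ]
  have hB : 0 ≤ B := (abs_nonneg _).trans hx
  refine mul_le_mul ?_ hx (abs_nonneg _) (pow_nonneg hB _)
  calc ∏ i, |(d i : ℝ)| ≤ ∏ _i : Fin k, B :=
        Finset.prod_le_prod (fun i _ => abs_nonneg _) fun i _ => hd i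
    _ = B ^ k := by rw [Finset.prod_const, Finset.card_univ, Fintype.card_fin]

lemma cube_abs {s M : ℕ} {t : Fin s → ℤ} (ht : t ∈ cube s M) (l : Fin s) :
    0 ≤ t l ∧ t l < M := by
  unfold cube at ht
  rw [Fintype.mem_piFinset] at ht
  exact Finset.mem_Ico.1 (ht l)

lemma diff_abs {a b : ℤ} {n : ℕ} (ha : 0 ≤ a ∧ a < n) (hb : 0 ≤ b ∧ b < n) :
    |((a - b : ℤ) : ℝ)| ≤ n := by
  have h : |a - b| ≤ (n : ℤ) := by
    rw [abs_le]
    constructor <;> omega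
  have h2 : ((|a - b| : ℤ) : ℝ) ≤ ((n : ℤ) : ℝ) := by exact_mod_cast h
  rwa [Int.cast_abs, Int.cast_natCast] at h2

lemma one_abs {a : ℤ} {n : ℕ} (ha : 0 ≤ a ∧ a < n) : |((a : ℤ) : ℝ)| ≤ n := by
  have h : |a| ≤ (n : ℤ) := by
    rw [abs_le]
    constructor <;> omega
  have h2 : ((|a| : ℤ) : ℝ) ≤ ((n : ℤ) : ℝ) := by exact_mod_cast h
  rwa [Int.cast_abs, Int.cast_natCast] at h2

lemma phz_single {r L : ℕ} [NeZero L] (xi : Fin r → ZMod L) (i : Fin r) (b : ℤ) :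
    phz xi (Pi.single i b) = ((xi i).val : ℝ) * b / L := by
  unfold phz
  rw [Finset.sum_eq_single i]
  · rw [Pi.single_eq_same]
  · intro j _ hj
    rw [Pi.single_eq_of_ne hj, Int.cast_zero, mul_zero]
  · intro h
    exact absurd (Finset.mem_univ i) h

lemma sq_add_le (a b : ℝ) : (a + b) ^ 2 ≤ 2 * b ^ 2 + 2 * a ^ 2 := by
  have h := sq_nonneg (a - b)
  have e : 2 * b ^ 2 + 2 * a ^ 2 = (a + b) ^ 2 + (a - b) ^ 2 := by ring
  rw [e]
  linarith

end LevErrAux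

open LevErrAux

variable {G : Type*} [Group G] {H : Type*} [NormedAddCommGroup H] [InnerProductSpace ℂ H]
  [CompleteSpace H]

namespace Frame

variable {g : ℤ → G} (fr : Frame g) (U : G →* (H ≃ₗᵢ[ℂ] H))

/-- the frequency of the coordinate `i` -/
noncomputable def bet (j Q lam : ℕ) {L : ℕ} (xi : Fin fr.r → ZMod L) (i : Fin fr.r) : ℝ :=
  (lam : ℝ) ^ j / (md fr.W fr.D Q j : ℕ) * (((xi i).val : ℝ) / L)

theorem fw_err (i : Fin fr.r) (k : ℕ) (dirs0 : List (Fin fr.s)) (lst : Fin fr.s)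
    (hk : dirs0.length = k) (hi : fr.w i = k + 1) (hd : fr.dirs i = dirs0 ++ [lst]) :
    ∃ K : ℝ, 1 ≤ K ∧ ∀ (X : ℝ) (Q lam M H0 n : ℕ) (N R : ℝ) (L : ℕ) [NeZero L] (v : H),
      2 ≤ X → 1 ≤ Q → 1 ≤ lam → md fr.W fr.D Q 1 ∣ lam → 1 ≤ R → R ≤ N → N ≤ X * R →
      (n : ℝ) + lam * M ≤ N → H0 ≤ M → (L : ℝ) * (md fr.W fr.D Q (k + 1) : ℕ) ≤ R ^ (k + 1) →
      R ^ (k + 1) ≤ 2 * (L : ℝ) * (md fr.W fr.D Q (k + 1) : ℕ) →
      ∀ h ∈ cube k H0, ∀ h' ∈ cube k H0, ∀ m ∈ cube fr.s M, ∀ t ∈ cube fr.s M,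
      ∀ x ∈ Ico 0 (M : ℤ),
        ∑ xi : Fin fr.r → ZMod L,
          ‖Uo U (Fw g dirs0 lst n lam h h' m t x) (hat (fr.VV U (k + 1) Q R v) xi) -
            Pool.PolyMax.e (fr.bet (k + 1) Q lam xi i * (∏ l, ((h l : ℝ) - h' l)) * x) •
              hat (fr.VV U (k + 1) Q R v) xi‖ ^ 2 ≤
          K * X ^ fr.D * (lam * M / N) * ‖v‖ ^ 2 := by
  obtain ⟨K1, hK1, h1⟩ := fr.four1 U
  obtain ⟨K2, hK2, h2⟩ := fr.four2 U
  have hC0 : 1 ≤ fr.C0 := fr.one_le_C0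
  have hC0' : 0 ≤ fr.C0 := by linarith
  have hKC : 0 ≤ K2 * fr.C0 := mul_nonneg (by linarith) hC0'
  refine ⟨4 * fr.C0 + 8 + 4 * K1 + 2 * (K2 * fr.C0), by linarith, ?_⟩
  intro X Q lam M H0 n N R L _ v hX hQ hlam hmd hR hRN hNX hn hH0 hL1 hL2 h hh h' hh' m hm t ht x hx
  set K : ℝ := 4 * fr.C0 + 8 + 4 * K1 + 2 * (K2 * fr.C0) with hK
  have hN : 1 ≤ N := hR.trans hRN
  have hN0 : 0 < N := by linarith
  have hR0 : 0 < R := by linarith
  have hlM : (0 : ℝ) ≤ (lam : ℝ) * M := by positivity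
  have hze0 : 0 ≤ (lam : ℝ) * M / N := div_nonneg hlM hN0.le
  set ze : ℝ := (lam : ℝ) * M / N with hze
  have hzeN : ze * N = (lam : ℝ) * M := by
    rw [hze]
    field_simp
  have hZ1 : 1 ≤ X ^ fr.D := one_le_pow₀ (by linarith)
  have hZ0 : 0 ≤ X ^ fr.D := by linarith
  set Z : ℝ := X ^ fr.D with hZ
  set V := fr.VV U (k + 1) Q R (L := L) v with hV
  have h0 : ∑ xi : Fin fr.r → ZMod L, ‖hat V xi‖ ^ 2 ≤ ‖v‖ ^ 2 := fr.four0 U (k + 1) Q R L v
  have hv0 : 0 ≤ ‖v‖ ^ 2 := by positivity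
  by_cases hbig : 4 ≤ K * Z * ze
  · calc _ ≤ ∑ xi : Fin fr.r → ZMod L, 4 * ‖hat V xi‖ ^ 2 := by
          refine Finset.sum_le_sum fun xi _ => ?_
          have h3 : ‖Uo U (Fw g dirs0 lst n lam h h' m t x) (hat V xi) -
            Pool.PolyMax.e (fr.bet (k + 1) Q lam xi i * (∏ l, ((h l : ℝ) - h' l)) * x) •
              hat V xi‖ ≤ 2 * ‖hat V xi‖ := by
            refine (norm_sub_le _ _).trans ?_
            rw [norm_Uo_apply, norm_smul, Pool.PolyMax.norm_e, one_mul]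
            linarith
          calc _ ≤ (2 * ‖hat V xi‖) ^ 2 := pow_le_pow_left₀ (norm_nonneg _) h3 2
            _ = 4 * ‖hat V xi‖ ^ 2 := by ring
      _ = 4 * ∑ xi : Fin fr.r → ZMod L, ‖hat V xi‖ ^ 2 := by rw [Finset.mul_sum]
      _ ≤ 4 * ‖v‖ ^ 2 := by linarith
      _ ≤ K * Z * ze * ‖v‖ ^ 2 := mul_le_mul_of_nonneg_right hbig hv0
  push Not at hbig
  -- sizes of the parameters
  have hzZ : 0 ≤ ze * Z := mul_nonneg hze0 hZ0
  have hKzZ : K * (ze * Z) < 4 := by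
    have : K * (ze * Z) = K * Z * ze := by ring
    rw [this]
    exact hbig
  have hd1 : fr.C0 * ze * Z ≤ 1 := by
    have h3 : 4 * fr.C0 * (ze * Z) ≤ K * (ze * Z) :=
      mul_le_mul_of_nonneg_right (by rw [hK]; linarith) hzZ
    have h4 : fr.C0 * ze * Z = fr.C0 * (ze * Z) := by ring
    rw [h4]
    linarith
  have hth : 2 * (ze * Z) ≤ 1 := by
    have h3 : 8 * (ze * Z) ≤ K * (ze * Z) :=
      mul_le_mul_of_nonneg_right (by rw [hK]; linarith) hzZ
    linarith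
  have hze1 : ze ≤ 1 := by
    have h3 : ze * 1 ≤ ze * Z := mul_le_mul_of_nonneg_left hZ1 hze0
    linarith
  -- the amounts
  obtain ⟨a, ha⟩ : ∃ a : List ℤ, a = (List.ofFn fun i => (lam : ℤ) * (h i - h' i)) ++
    [(lam : ℤ) * x] := ⟨_, rfl⟩
  have halen : a.length = fr.w i := by
    rw [ha, List.length_append, List.length_ofFn, List.length_singleton, hi]
  have hx' : 0 ≤ x ∧ x < (M : ℤ) := Finset.mem_Ico.1 hx
  have hH0' : (H0 : ℝ) ≤ M := by exact_mod_cast hH0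
  have hdif : ∀ l, |((h l - h' l : ℤ) : ℝ)| ≤ M := fun l =>
    (diff_abs (cube_abs hh l) (cube_abs hh' l)).trans hH0'
  have hxM : |(x : ℝ)| ≤ M := one_abs hx'
  have hlam0 : (0 : ℝ) ≤ lam := Nat.cast_nonneg _
  have habs : ∀ b ∈ a, |(b : ℝ)| ≤ ze * N := by
    intro b hb
    rw [hzeN]
    rw [ha, List.mem_append, List.mem_ofFn, List.mem_singleton] at hb
    rcases hb with ⟨l, rfl⟩ | rfl
    · rw [Int.cast_mul, Int.cast_natCast, abs_mul, abs_of_nonneg hlam0]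
      exact mul_le_mul_of_nonneg_left (hdif l) hlam0
    · rw [Int.cast_mul, Int.cast_natCast, abs_mul, abs_of_nonneg hlam0]
      exact mul_le_mul_of_nonneg_left hxM hlam0
  have hdvd : ∀ b ∈ a, ((md fr.W fr.D Q 1 : ℕ) : ℤ) ∣ b := by
    intro b hb
    have hl : ((md fr.W fr.D Q 1 : ℕ) : ℤ) ∣ (lam : ℤ) := by exact_mod_cast hmd
    rw [ha, List.mem_append, List.mem_ofFn, List.mem_singleton] at hb
    rcases hb with ⟨l, rfl⟩ | rfl
    · exact hl.mul_right _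
    · exact hl.mul_right _
  obtain ⟨y', hy1, hy2, hy3, hy4⟩ := fr.kc i n (fun l => (lam : ℤ) * m l)
    (fun l => (lam : ℤ) * (Function.update t lst 0) l) a halen
  have hFw : Fw g dirs0 lst n lam h h' m t x = fr.c i ^ a.prod * kap fr.c y' := by
    rw [← hy1, hd, ha]
    rfl
  have hnN : (n : ℝ) ≤ N := by linarith
  have hlMN : (lam : ℝ) * M ≤ N := by
    have : (0 : ℝ) ≤ n := Nat.cast_nonneg _
    linarith
  have hy4' := hy4 N ze hN hze0 hze1
    (by rw [Int.cast_natCast, abs_of_nonneg (Nat.cast_nonneg _)]; exact hnN)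
    (fun l => by
      rw [Int.cast_mul, Int.cast_natCast, abs_mul, abs_of_nonneg hlam0]
      exact (mul_le_mul_of_nonneg_left (one_abs (cube_abs hm l)) hlam0).trans hlMN)
    (fun l => by
      rw [Int.cast_mul, Int.cast_natCast, abs_mul, abs_of_nonneg hlam0]
      refine (mul_le_mul_of_nonneg_left ?_ hlam0).trans hlMN
      by_cases hl : l = lst
      · subst hl
        rw [Function.update_self, Int.cast_zero, abs_zero]
        exact Nat.cast_nonneg _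
      · rw [Function.update_of_ne hl]
        exact one_abs (cube_abs ht l)) habs
  -- the second factor
  have hdel0 : 0 ≤ fr.C0 * ze := mul_nonneg hC0' hze0
  have hz : kap fr.c y' ∈ fr.Sm (k + 1 + 1) Q R (fr.C0 * ze * Z) := by
    have h3 : kap fr.c y' ∈ fr.Sm (k + 1 + 1) Q N (fr.C0 * ze) := by
      refine ⟨y', rfl, fun j hj => hy2 j (by omega), fun j => ?_, hy4'⟩
      exact hy3 Q hdvd j
    refine fr.Sm_mono hR0.le le_rfl ?_ (fr.Sm_down hR hRN hdel0 h3)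
    refine mul_le_mul_of_nonneg_left ?_ hdel0
    exact pow_le_pow_left₀ (div_nonneg hN0.le hR0.le) ((div_le_iff₀ hR0).2 hNX) _
  have h2' := h2 (k + 1) Q R (fr.C0 * ze * Z) L v (kap fr.c y') (by omega) hQ hR hL1
    (mul_nonneg hdel0 hZ0) hd1 hz
  -- the first factor
  have hWp : 1 ≤ fr.W := fr.W_pos
  have hkD : k + 1 ≤ fr.D := by
    rw [← hi]
    exact fr.w_le i
  have hqd : md fr.W fr.D Q (k + 1) ∣ lam ^ (k + 1) := by
    have h3 : md fr.W fr.D Q (k + 1) ∣ md fr.W fr.D Q 1 := by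
      unfold md
      exact Nat.mul_dvd_mul (pow_dvd_pow _ (by omega)) dvd_rfl
    exact (h3.trans hmd).trans (dvd_pow_self _ (by omega))
  have hqpos : 0 < md fr.W fr.D Q (k + 1) := by
    unfold md
    exact Nat.mul_pos (Nat.pow_pos (by omega)) (by omega)
  obtain ⟨c', hc'⟩ := hqd
  obtain ⟨q, hq⟩ : ∃ q : ℕ, q = md fr.W fr.D Q (k + 1) := ⟨_, rfl⟩
  rw [← hq] at hc' hqpos hL1 hL2
  obtain ⟨P, hP⟩ : ∃ P : ℤ, P = (∏ l, (h l - h' l)) * x := ⟨_, rfl⟩
  have hPr : (P : ℝ) = (∏ l, ((h l : ℝ) - h' l)) * x := by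
    rw [hP]
    push_cast
    ring
  have haprod : a.prod = (q : ℤ) * ((c' : ℤ) * P) := by
    rw [ha, prod_amt (lam : ℤ) (fun i => h i - h' i) x, ← hP]
    have h3 : (lam : ℤ) ^ (k + 1) = (q : ℤ) * c' := by exact_mod_cast hc'
    rw [h3]
    ring
  have hq0 : (0 : ℝ) < q := by exact_mod_cast hqpos
  have hlamr : (lam : ℝ) ^ (k + 1) = (q : ℝ) * c' := by exact_mod_cast hc'
  have hPle : |(P : ℝ)| ≤ (M : ℝ) ^ (k + 1) := by
    rw [hP]
    exact abs_prod_le (M : ℝ) (fun i => h i - h' i) x hdif hxM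
  have hL0 : (0 : ℝ) ≤ L := Nat.cast_nonneg _
  have hsize : |(((c' : ℤ) * P : ℤ) : ℝ)| ≤ 2 * (ze * Z) * L := by
    have h3 : (q : ℝ) * |(((c' : ℤ) * P : ℤ) : ℝ)| ≤ (q : ℝ) * (2 * (ze * Z) * L) := by
      have e1 : (q : ℝ) * |(((c' : ℤ) * P : ℤ) : ℝ)| = (lam : ℝ) ^ (k + 1) * |(P : ℝ)| := by
        rw [Int.cast_mul, Int.cast_natCast, abs_mul, abs_of_nonneg (Nat.cast_nonneg c'), hlamr]
        ring
      rw [e1]
      have e2 : (ze * N) ^ (k + 1) ≤ ze * Z * R ^ (k + 1) := by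
        have e3 : ze ^ (k + 1) ≤ ze := by
          calc ze ^ (k + 1) = ze ^ k * ze := pow_succ _ _
            _ ≤ 1 * ze := mul_le_mul_of_nonneg_right (pow_le_one₀ hze0 hze1) hze0
            _ = ze := one_mul _
        have e4 : N ^ (k + 1) ≤ Z * R ^ (k + 1) := by
          calc N ^ (k + 1) ≤ (X * R) ^ (k + 1) := pow_le_pow_left₀ hN0.le hNX _
            _ = X ^ (k + 1) * R ^ (k + 1) := mul_pow _ _ _
            _ ≤ Z * R ^ (k + 1) := by
                refine mul_le_mul_of_nonneg_right ?_ (pow_nonneg hR0.le _)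
                exact pow_le_pow_right₀ (by linarith) hkD
        calc (ze * N) ^ (k + 1) = ze ^ (k + 1) * N ^ (k + 1) := mul_pow _ _ _
          _ ≤ ze * (Z * R ^ (k + 1)) := mul_le_mul e3 e4 (pow_nonneg hN0.le _) hze0
          _ = ze * Z * R ^ (k + 1) := by ring
      calc (lam : ℝ) ^ (k + 1) * |(P : ℝ)| ≤ (lam : ℝ) ^ (k + 1) * (M : ℝ) ^ (k + 1) :=
            mul_le_mul_of_nonneg_left hPle (pow_nonneg hlam0 _)
        _ = (ze * N) ^ (k + 1) := by rw [hzeN, mul_pow]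
        _ ≤ ze * Z * R ^ (k + 1) := e2
        _ ≤ ze * Z * (2 * (L : ℝ) * q) := mul_le_mul_of_nonneg_left hL2 hzZ
        _ = (q : ℝ) * (2 * (ze * Z) * L) := by ring
    exact le_of_mul_le_mul_left h3 hq0
  have h1' := h1 (k + 1) Q R (2 * (ze * Z)) L v (Pi.single i ((c' : ℤ) * P)) (by omega) hQ hR
    (by rw [← hq]; exact hL1) (by linarith) hth
    (fun j hj => by
      rw [Pi.single_eq_of_ne]
      rintro rfl
      exact hj hi)
    (fun j => by
      by_cases hj : j = i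
      · subst hj
        rw [Pi.single_eq_same]
        exact hsize
      · rw [Pi.single_eq_of_ne hj, Int.cast_zero, abs_zero]
        exact mul_nonneg (by linarith) hL0)
  have hkap : kap fr.c (fun j => ((md fr.W fr.D Q (k + 1) : ℕ) : ℤ) *
      (Pi.single i ((c' : ℤ) * P) : Fin fr.r → ℤ) j) = fr.c i ^ a.prod := by
    rw [haprod, ← kap_single, ← hq]
    congr 1
    funext j
    by_cases hj : j = i
    · subst hj
      rw [Pi.single_eq_same, Pi.single_eq_same]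
    · rw [Pi.single_eq_of_ne hj, Pi.single_eq_of_ne hj, mul_zero]
  rw [hkap] at h1'
  have hphase : ∀ xi : Fin fr.r → ZMod L, phz xi (Pi.single i ((c' : ℤ) * P)) =
      fr.bet (k + 1) Q lam xi i * (∏ l, ((h l : ℝ) - h' l)) * x := by
    intro xi
    rw [phz_single]
    unfold bet
    rw [← hq, hlamr, Int.cast_mul, Int.cast_natCast, hPr]
    field_simp
  -- the combination
  have hcomb : ∀ xi : Fin fr.r → ZMod L,
      ‖Uo U (Fw g dirs0 lst n lam h h' m t x) (hat V xi) -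
        Pool.PolyMax.e (fr.bet (k + 1) Q lam xi i * (∏ l, ((h l : ℝ) - h' l)) * x) •
          hat V xi‖ ^ 2 ≤
      2 * ‖Uo U (fr.c i ^ a.prod) (hat V xi) -
        Pool.PolyMax.e (phz xi (Pi.single i ((c' : ℤ) * P))) • hat V xi‖ ^ 2 +
      2 * ‖Uo U (kap fr.c y') (hat V xi) - hat V xi‖ ^ 2 := by
    intro xi
    rw [hFw, Uo_mul, hphase]
    set E := Pool.PolyMax.e (fr.bet (k + 1) Q lam xi i * (∏ l, ((h l : ℝ) - h' l)) * x) with hE
    have e1 : (Uo U (fr.c i ^ a.prod) * Uo U (kap fr.c y')) (hat V xi) - E • hat V xi =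
        Uo U (fr.c i ^ a.prod) (Uo U (kap fr.c y') (hat V xi) - hat V xi) +
          (Uo U (fr.c i ^ a.prod) (hat V xi) - E • hat V xi) := by
      rw [map_sub]
      show Uo U (fr.c i ^ a.prod) (Uo U (kap fr.c y') (hat V xi)) - E • hat V xi = _
      abel
    rw [e1]
    have e2 := norm_add_le (Uo U (fr.c i ^ a.prod) (Uo U (kap fr.c y') (hat V xi) - hat V xi))
      (Uo U (fr.c i ^ a.prod) (hat V xi) - E • hat V xi)
    rw [norm_Uo_apply] at e2
    exact (pow_le_pow_left₀ (norm_nonneg _) e2 2).trans (sq_add_le _ _)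
  calc _ ≤ ∑ xi : Fin fr.r → ZMod L, (2 * ‖Uo U (fr.c i ^ a.prod) (hat V xi) -
        Pool.PolyMax.e (phz xi (Pi.single i ((c' : ℤ) * P))) • hat V xi‖ ^ 2 +
      2 * ‖Uo U (kap fr.c y') (hat V xi) - hat V xi‖ ^ 2) :=
        Finset.sum_le_sum fun xi _ => hcomb xi
    _ = 2 * ∑ xi : Fin fr.r → ZMod L, ‖Uo U (fr.c i ^ a.prod) (hat V xi) -
        Pool.PolyMax.e (phz xi (Pi.single i ((c' : ℤ) * P))) • hat V xi‖ ^ 2 +
      2 * ∑ xi : Fin fr.r → ZMod L, ‖Uo U (kap fr.c y') (hat V xi) - hat V xi‖ ^ 2 := by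
        rw [Finset.sum_add_distrib, Finset.mul_sum, Finset.mul_sum]
    _ ≤ 2 * (K1 * (2 * (ze * Z)) * ‖v‖ ^ 2) + 2 * (K2 * (fr.C0 * ze * Z) * ‖v‖ ^ 2) := by
        linarith [h1', h2']
    _ = (4 * K1 + 2 * (K2 * fr.C0)) * (ze * Z * ‖v‖ ^ 2) := by ring
    _ ≤ K * (ze * Z * ‖v‖ ^ 2) := by
        refine mul_le_mul_of_nonneg_right ?_ (mul_nonneg hzZ hv0)
        rw [hK]
        linarith
    _ = K * Z * ze * ‖v‖ ^ 2 := by ring

end Frame

end Pool.Nil
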