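import Pool.Agent.Nil.LevErr

set_option autoImplicit false

/-!
# Nil: major frequencies

PROOF of `lev_maj`.  Let `S = Sj j (q lam^j) rho`, an average over `t` in a box, `t` supported on the coordinates
of weight `j`, `|t i| ≤ T = ⌊rho^j / (q lam^j)⌋`, of `Uo (kap c (q lam^j t))`, and `q lam^j t = md * y` with
`y = q (lam^j / md) t`, `|md y i| ≤ rho^j ≤ (rho / R) R^j`, so `|y i| ≤ 2 (rho / R) L`.  With
`phz xi y = ∑_i q bet_i t_i`, let `Err xi = avg_t ‖Uo (kap c (md y)) z - e (phz xi y) • z‖`, `z = hat (VV ..) xi`;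
`∑ Err^2 ≤ K (rho / R) ‖v‖^2` by `four1` (if `2 rho / R > 1` trivially, `four0`).
If `dz (q bet_i) * (rho^j / (q lam^j)) ≤ 1 / (100 (r + 1))` for all `i` of weight `j`, then
`‖e (q bet_i t_i) - 1‖ ≤ 2 pi dz (q bet_i t_i) ≤ 2 pi |t_i| dz (q bet_i) ≤ 2 pi / (100 (r + 1))`, so
`a = avg_t e (phz xi y)` has `‖a - 1‖ ≤ 1 / 2`, `‖a‖ ≥ 1/2`, and `‖S z - a • z‖ ≤ Err xi`.  So
`‖T z‖ = ‖a⁻¹ (T (S z) - T (S z - a z))‖ ≤ 2 ‖T (S z)‖ + 2 Err xi` for `‖T‖ ≤ 1`.
-/

namespace Pool.Nil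

open Finset

variable {G : Type*} [Group G] {H : Type*} [NormedAddCommGroup H] [InnerProductSpace ℂ H]
  [CompleteSpace H]

namespace LevMajAux

set_option linter.unusedSectionVars false

/-- evaluation of an average of operators -/
lemma avg_apply {α : Type*} (s : Finset α) (F : α → H →L[ℂ] H) (z : H) :
    (avg s F) z = avg s (fun t => F t z) := by
  unfold avg
  rw [smul_apply, _root_.sum_apply]

lemma avg_smul_const {α : Type*} (s : Finset α) (f : α → ℂ) (z : H) :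
    avg s (fun t => f t • z) = (avg s f) • z := by
  unfold avg
  rw [smul_assoc, Finset.sum_smul]

/-- the final algebra -/
lemma concl {T : H →L[ℂ] H} (hT : ‖T‖ ≤ 1) {z w : H} {a : ℂ} {E : ℝ} (ha : ‖a - 1‖ ≤ 1 / 2)
    (hw : ‖w - a • z‖ ≤ E) : ‖T z‖ ≤ 2 * ‖T w‖ + 2 * E := by
  have h1 : 1 / 2 ≤ ‖a‖ := by
    have h2 : ‖(1 : ℂ)‖ ≤ ‖a‖ + ‖a - 1‖ := by
      calc ‖(1 : ℂ)‖ = ‖a - (a - 1)‖ := by congr 1; ring
        _ ≤ ‖a‖ + ‖a - 1‖ := norm_sub_le _ _
    rw [norm_one] at h2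
    linarith
  have h3 : a • T z = T w - T (w - a • z) := by
    rw [map_sub, map_smul]
    abel
  have h4 : ‖T (w - a • z)‖ ≤ E := by
    refine (T.le_opNorm _).trans ?_
    calc ‖T‖ * ‖w - a • z‖ ≤ 1 * ‖w - a • z‖ := by gcongr
      _ ≤ E := by rw [one_mul]; exact hw
  have h5 : ‖a‖ * ‖T z‖ ≤ ‖T w‖ + E := by
    rw [← norm_smul, h3]
    exact (norm_sub_le _ _).trans (by gcongr)
  nlinarith [norm_nonneg (T z)]

lemma md_dvd (W D Q j : ℕ) (hj : 1 ≤ j) : md W D Q j ∣ md W D Q 1 := by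
  unfold md
  exact Nat.mul_dvd_mul_right (pow_dvd_pow _ (by omega)) _

lemma phase {r : ℕ} {x : Fin r → ℝ} {b : Fin r → ℝ} {t : Fin r → ℤ} (B : ℝ)
    (hx : ∀ i, x i = (t i : ℝ) * b i)
    (hb : ∀ i, |(t i : ℝ)| * Pool.PolyMax.dz (b i) ≤ 1 / (100 * (r + 1)))
    (hB : B = ∑ i, x i) : ‖Pool.PolyMax.e B - 1‖ ≤ 1 / 2 := by
  have h1 : Pool.PolyMax.dz B ≤ 1 / 100 := by
    rw [hB]
    refine (Pool.PolyMax.dz_sum_le _ _).trans ?_
    calc ∑ i, Pool.PolyMax.dz (x i) ≤ ∑ _i : Fin r, (1 / (100 * (r + 1)) : ℝ) := by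
          refine Finset.sum_le_sum fun i _ => ?_
          rw [hx i]
          exact (Pool.PolyMax.dz_int_mul_le (t i) (b i)).trans (hb i)
      _ = r * (1 / (100 * (r + 1)) : ℝ) := by
          rw [Finset.sum_const, Finset.card_univ, Fintype.card_fin, nsmul_eq_mul]
      _ ≤ 1 / 100 := by
          rw [mul_one_div, div_le_div_iff₀ (by positivity) (by norm_num)]
          nlinarith
  refine (Pool.PolyMax.norm_e_sub_one_le_dz B).trans ?_
  have h2 := Real.pi_lt_four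
  have h3 := Real.pi_pos
  have h4 := Pool.PolyMax.dz_nonneg B
  nlinarith

end LevMajAux

open LevMajAux

namespace Frame

variable {g : ℤ → G} (fr : Frame g) (U : G →* (H ≃ₗᵢ[ℂ] H))

theorem lev_maj (j : ℕ) (hj : 1 ≤ j) : ∃ K : ℝ, 1 ≤ K ∧ ∀ (Q lam q : ℕ) (R rho : ℝ) (L : ℕ)
    [NeZero L] (v : H), 1 ≤ Q → 1 ≤ lam → 1 ≤ q → md fr.W fr.D Q 1 ∣ lam → 1 ≤ rho → rho ≤ R →
    (L : ℝ) * (md fr.W fr.D Q j : ℕ) ≤ R ^ j → R ^ j ≤ 2 * (L : ℝ) * (md fr.W fr.D Q j : ℕ) →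
    ∃ Err : (Fin fr.r → ZMod L) → ℝ, (∀ xi, 0 ≤ Err xi) ∧
      ∑ xi, Err xi ^ 2 ≤ K * (rho / R) * ‖v‖ ^ 2 ∧
      ∀ xi, (∀ i, fr.w i = j → Pool.PolyMax.dz (q * fr.bet j Q lam xi i) *
          (rho ^ j / (q * (lam : ℝ) ^ j)) ≤ 1 / (100 * (fr.r + 1))) →
        ∀ T : H →L[ℂ] H, ‖T‖ ≤ 1 → ‖T (hat (fr.VV U j Q R v) xi)‖ ≤
          2 * ‖T (fr.Sj U j (q * lam ^ j) rho (hat (fr.VV U j Q R v) xi))‖ + 2 * Err xi := by
  obtain ⟨K1, hK1, h4⟩ := fr.four1 U
  refine ⟨2 * K1 + 8, by linarith, ?_⟩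
  intro Q lam q R rho L _ v hQ hlam hq hdvd hrho hrhoR hL1 hL2
  have hR : 1 ≤ R := hrho.trans hrhoR
  have hR0 : 0 < R := by linarith
  have hrho0 : 0 < rho := by linarith
  set d : ℕ := md fr.W fr.D Q j with hd
  have hdpos : 0 < d := by
    rw [hd]
    unfold md
    exact Nat.mul_pos (pow_pos fr.W_pos _) hQ
  have hdlam : d ∣ lam ^ j :=
    ((md_dvd _ _ _ _ hj).trans hdvd).trans (dvd_pow_self _ (by omega))
  obtain ⟨u, hu⟩ := hdlam
  have hdR : (0 : ℝ) < d := by exact_mod_cast hdpos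
  have hlamR : (0 : ℝ) < lam := by exact_mod_cast hlam
  have hqR : (0 : ℝ) < q := by exact_mod_cast hq
  have hLpos : (0 : ℝ) < L := by exact_mod_cast (NeZero.pos L)
  have huR : (lam : ℝ) ^ j = d * u := by exact_mod_cast hu
  set M : Fin fr.r → ℕ := fun i => if fr.w i = j then
    ⌊rho ^ j / ((q * lam ^ j : ℕ) : ℝ)⌋₊ else 0 with hM
  set z : (Fin fr.r → ZMod L) → H := fun xi => hat (fr.VV U j Q R v) xi with hz
  let Y : (Fin fr.r → ℤ) → Fin fr.r → ℤ := fun t i => (q * u : ℕ) * t i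
  let Ter : (Fin fr.r → ZMod L) → (Fin fr.r → ℤ) → H := fun xi t =>
    Uo U (kap fr.c (fun i => ((q * lam ^ j : ℕ) : ℤ) * t i)) (z xi) -
      Pool.PolyMax.e (phz xi (Y t)) • z xi
  have hYd : ∀ t : Fin fr.r → ℤ, (fun i => ((q * lam ^ j : ℕ) : ℤ) * t i) =
      (fun i => (d : ℤ) * Y t i) := by
    intro t
    funext i
    show ((q * lam ^ j : ℕ) : ℤ) * t i = (d : ℤ) * ((q * u : ℕ) * t i)
    rw [hu]
    push_cast
    ring
  have hbox : ∀ t ∈ bx M, (∀ i, fr.w i ≠ j → t i = 0) ∧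
      ∀ i, |(t i : ℝ)| ≤ rho ^ j / (q * (lam : ℝ) ^ j) := by
    intro t ht
    rw [mem_bx] at ht
    have h0 : 0 ≤ rho ^ j / (q * (lam : ℝ) ^ j) := by positivity
    refine ⟨fun i hi => ?_, fun i => ?_⟩
    · have h1 := ht i
      rw [hM] at h1
      simp only [if_neg hi, Nat.cast_zero] at h1
      exact abs_eq_zero.1 (le_antisymm h1 (abs_nonneg _))
    · by_cases hi : fr.w i = j
      · have h1 := ht i
        rw [hM] at h1
        simp only [if_pos hi] at h1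
        have h2 : |(t i : ℝ)| ≤ ((⌊rho ^ j / ((q * lam ^ j : ℕ) : ℝ)⌋₊ : ℕ) : ℝ) := by
          exact_mod_cast h1
        refine h2.trans ((Nat.floor_le (by positivity)).trans (le_of_eq ?_))
        push_cast
        ring
      · have h1 := ht i
        rw [hM] at h1
        simp only [if_neg hi, Nat.cast_zero] at h1
        have h2 : t i = 0 := abs_eq_zero.1 (le_antisymm h1 (abs_nonneg _))
        rw [h2, Int.cast_zero, abs_zero]
        exact h0
  -- the size of the coordinates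
  have hsize : ∀ t ∈ bx M, ∀ i, |(Y t i : ℝ)| ≤ 2 * (rho / R) * L := by
    intro t ht i
    have h1 := (hbox t ht).2 i
    have h2 : (d : ℝ) * |(Y t i : ℝ)| = q * (lam : ℝ) ^ j * |(t i : ℝ)| := by
      show (d : ℝ) * |(((q * u : ℕ) * t i : ℤ) : ℝ)| = _
      push_cast
      rw [abs_mul, abs_mul, abs_of_pos hqR, abs_of_nonneg (Nat.cast_nonneg u : (0 : ℝ) ≤ u), huR]
      ring
    have h3 : q * (lam : ℝ) ^ j * |(t i : ℝ)| ≤ rho ^ j := by
      rw [le_div_iff₀ (by positivity)] at h1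
      linarith
    have h4 : rho ^ j ≤ (rho / R) * R ^ j := by
      obtain ⟨j', rfl⟩ : ∃ j', j = j' + 1 := ⟨j - 1, by omega⟩
      have h5 : (rho / R) * R ^ (j' + 1) = rho * R ^ j' := by
        rw [pow_succ]
        field_simp
      rw [h5, pow_succ, mul_comm]
      exact mul_le_mul_of_nonneg_left (pow_le_pow_left₀ hrho0.le hrhoR _) hrho0.le
    have h5 : (d : ℝ) * |(Y t i : ℝ)| ≤ d * (2 * (rho / R) * L) := by
      rw [h2]
      refine h3.trans (h4.trans ?_)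
      have h6 : (rho / R) * R ^ j ≤ (rho / R) * (2 * (L : ℝ) * d) :=
        mul_le_mul_of_nonneg_left hL2 (by positivity)
      refine h6.trans (le_of_eq ?_)
      ring
    exact le_of_mul_le_mul_left h5 hdR
  have hterm : ∀ t ∈ bx M, ∑ xi, ‖Ter xi t‖ ^ 2 ≤ (2 * K1 + 8) * (rho / R) * ‖v‖ ^ 2 := by
    intro t ht
    have hv : 0 ≤ ‖v‖ ^ 2 := by positivity
    have hrR : 0 ≤ rho / R := by positivity
    rcases le_or_gt (2 * (rho / R)) 1 with hle | hgt
    · have h5 := h4 j Q R (2 * (rho / R)) L v (Y t) hj hQ hR hL1 (by positivity) hle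
        (fun i hi => by
          show (((q * u : ℕ) : ℤ) * t i) = 0
          rw [(hbox t ht).1 i hi, mul_zero]) (hsize t ht)
      have h6 : ∑ xi, ‖Ter xi t‖ ^ 2 ≤ K1 * (2 * (rho / R)) * ‖v‖ ^ 2 := by
        refine le_trans (le_of_eq (Finset.sum_congr rfl fun xi _ => ?_)) h5
        show ‖Uo U (kap fr.c (fun i => ((q * lam ^ j : ℕ) : ℤ) * t i)) (z xi) -
          Pool.PolyMax.e (phz xi (Y t)) • z xi‖ ^ 2 = _
        rw [hYd t]
      refine h6.trans ?_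
      nlinarith [mul_nonneg hrR hv]
    · have h5 := fr.four0 U j Q R L v
      have h6 : ∀ xi, ‖Ter xi t‖ ^ 2 ≤ 4 * ‖z xi‖ ^ 2 := by
        intro xi
        have h7 : ‖Ter xi t‖ ≤ 2 * ‖z xi‖ := by
          refine (norm_sub_le _ _).trans (le_of_eq ?_)
          rw [norm_Uo_apply, norm_smul, Pool.PolyMax.norm_e]
          ring
        calc ‖Ter xi t‖ ^ 2 ≤ (2 * ‖z xi‖) ^ 2 := pow_le_pow_left₀ (norm_nonneg _) h7 2
          _ = 4 * ‖z xi‖ ^ 2 := by ring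
      have h7 : ∑ xi, ‖Ter xi t‖ ^ 2 ≤ 4 * ‖v‖ ^ 2 := by
        refine (Finset.sum_le_sum fun xi _ => h6 xi).trans ?_
        rw [← Finset.mul_sum]
        exact mul_le_mul_of_nonneg_left h5 (by norm_num)
      refine h7.trans ?_
      have h8 : ‖v‖ ^ 2 ≤ 2 * (rho / R) * ‖v‖ ^ 2 := le_mul_of_one_le_left hv hgt.le
      have h9 : 0 ≤ K1 * ((rho / R) * ‖v‖ ^ 2) := by positivity
      nlinarith
  have hne : (bx M).Nonempty := bx_nonempty M
  have hcard : (0 : ℝ) < ((bx M).card : ℝ) := by exact_mod_cast hne.card_pos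
  refine ⟨fun xi => avg (bx M) (fun t => ‖Ter xi t‖), fun xi =>
    avg_nonneg fun t _ => norm_nonneg _, ?_, ?_⟩
  · have h1 : ∀ xi, (avg (bx M) (fun t => ‖Ter xi t‖)) ^ 2 ≤
        avg (bx M) (fun t => ‖Ter xi t‖ ^ 2) := by
      intro xi
      have h2 := sq_norm_avg_le (bx M) (fun t => ‖Ter xi t‖)
      simp only [Real.norm_eq_abs, sq_abs] at h2
      simpa using h2
    have h2 : ∑ xi, avg (bx M) (fun t => ‖Ter xi t‖ ^ 2) =
        avg (bx M) (fun t => ∑ xi, ‖Ter xi t‖ ^ 2) := by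
      unfold avg
      rw [← Finset.smul_sum, Finset.sum_comm]
    calc ∑ xi, (avg (bx M) (fun t => ‖Ter xi t‖)) ^ 2
        ≤ ∑ xi, avg (bx M) (fun t => ‖Ter xi t‖ ^ 2) := Finset.sum_le_sum fun xi _ => h1 xi
      _ = avg (bx M) (fun t => ∑ xi, ‖Ter xi t‖ ^ 2) := h2
      _ ≤ avg (bx M) (fun _ => (2 * K1 + 8) * (rho / R) * ‖v‖ ^ 2) := avg_mono hterm
      _ = (2 * K1 + 8) * (rho / R) * ‖v‖ ^ 2 := avg_const hne _
  · intro xi hxi T hT
    have hS : fr.Sj U j (q * lam ^ j) rho (z xi) =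
        avg (bx M) (fun t => Uo U (kap fr.c (fun i => ((q * lam ^ j : ℕ) : ℤ) * t i)) (z xi)) := by
      show (BM U fr.c (fun _ => q * lam ^ j) M) (z xi) = _
      unfold BM
      rw [avg_apply]
    set a : ℂ := avg (bx M) (fun t => Pool.PolyMax.e (phz xi (Y t))) with ha
    have hSa : fr.Sj U j (q * lam ^ j) rho (z xi) - a • z xi = avg (bx M) (fun t => Ter xi t) := by
      rw [hS, ha, ← avg_smul_const, ← avg_sub]
    have hE : ‖fr.Sj U j (q * lam ^ j) rho (z xi) - a • z xi‖ ≤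
        avg (bx M) (fun t => ‖Ter xi t‖) := by
      rw [hSa]
      exact norm_avg_le _ _
    refine concl hT ?_ hE
    have h1 : a - 1 = avg (bx M) (fun t => Pool.PolyMax.e (phz xi (Y t)) - 1) := by
      rw [avg_sub, avg_const hne]
    rw [h1]
    refine norm_avg_le_const (by norm_num) fun t ht => ?_
    refine phase (x := fun i => (t i : ℝ) * (q * fr.bet j Q lam xi i))
      (b := fun i => q * fr.bet j Q lam xi i) (t := t) _ (fun i => rfl) ?_ ?_
    · intro i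
      by_cases hi : fr.w i = j
      · have h2 := hxi i hi
        have h3 := (hbox t ht).2 i
        calc |(t i : ℝ)| * Pool.PolyMax.dz (q * fr.bet j Q lam xi i)
            ≤ rho ^ j / (q * (lam : ℝ) ^ j) * Pool.PolyMax.dz (q * fr.bet j Q lam xi i) :=
              mul_le_mul_of_nonneg_right h3 (Pool.PolyMax.dz_nonneg _)
          _ = Pool.PolyMax.dz (q * fr.bet j Q lam xi i) * (rho ^ j / (q * (lam : ℝ) ^ j)) :=
              mul_comm _ _
          _ ≤ _ := h2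
      · rw [(hbox t ht).1 i hi, Int.cast_zero, abs_zero, zero_mul]
        positivity
    · unfold phz bet
      rw [Finset.sum_div]
      refine Finset.sum_congr rfl fun i _ => ?_
      show ((xi i).val : ℝ) * (((q * u : ℕ) * t i : ℤ) : ℝ) / L =
        (t i : ℝ) * (q * ((lam : ℝ) ^ j / (md fr.W fr.D Q j : ℕ) * (((xi i).val : ℝ) / L)))
      rw [← hd, huR]
      push_cast
      field_simp

end Frame

end Pool.Nil
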