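import Pool.Agent.Nil.LevDich
import Pool.Agent.Nil.LevMaj

set_option autoImplicit false

/-!
# Nil: the level inequality

PROOF of `level`.  Let `md = md W D Q j`, `L = ⌊R^j / md⌋ ≥ 1` (`R^j ≥ md` as `R ≥ N / X` and `N ≥ (Q lam X)^C`), so
`L md ≤ R^j ≤ 2 L md`.  `A = Aw U g n lam M`, `u = Bj j Q R v`, `z_xi = hat (VV ..) xi`, `ze = lam M / N ∈ [X^(-a-1), X^(-a)]`.
The elements `(g n)⁻¹ g (n + lam m)` are in `Sa 1 N (K ze) ⊆ Sa 1 R (K ze X^D)` (`window`, `Sa_down`).  `four3`: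
`‖A u‖^2 ≤ 2 ∑ ‖A z_xi‖^2 + K X^D ze ‖v‖^2`.
Let `C1` be the maximum of the constants of `lev_dich` over all `i` with `w i = j`, `Err_i` the error functions.  For
every `xi` one of the following holds.
(1) `‖A z_xi‖ ≤ X^(-2) ‖z_xi‖`.
(2) `‖A z_xi‖ ≤ X^C1 Err_i xi` for some `i`.
(3) for every `i` of weight `j` there is `q_i ≤ X^C1` with `dz (q_i bet_i) ≤ X^C1 / M^j`.  Then `q = ∏ q_i ≤ X^(C1 r)` and
`dz (q bet_i) ≤ X^(C1 (r + 1)) / M^j` for all `i`; with `C2 = C1 (r + 1)`: let `b = C2 + a + 20 + r`-like be so large that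
`X^C2 / M^j * (rho^j / (q lam^j)) ≤ X^C2 (rho / (lam M))^j ≤ X^(C2 + a + 1 - b) ≤ 1 / (100 (r + 1))`, `rho = N / X^b`; `lev_maj`:
`‖A z_xi‖^2 ≤ 8 ‖A S_q z_xi‖^2 + 8 Err'_q(xi)^2`.
Sum over `xi`, over all `q ≤ X^C2` in case (3):
`∑ ‖A z_xi‖^2 ≤ X^(-4) ‖v‖^2 + X^(2 C1) r X^C1 ze ‖v‖^2 + 8 ∑_q (∑_xi ‖A S_q z_xi‖^2 + K (rho / R) ‖v‖^2)`,
and `A S_q` is the average of `Uo ((g n)⁻¹ g (n + lam m) kap c (q lam^j t))`, with elements in
`Sa 1 R (K (K ze X^D + rho / R))` (`sa_mul`), so `four3` again: `∑_xi ‖A S_q z_xi‖^2 ≤ 2 ‖A S_q u‖^2 + K' (X^D ze + rho / R) ‖v‖^2`.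
Choose `q` with the largest `‖A S_q u‖`.  As `ze ≤ X^(-a)`, `rho / R ≤ X^(1 - b)`, all error terms together are at most
`(X^(-4) + X^(C3 - a) + X^(C3 - b)) ‖v‖^2` with `C3` depending on `C1, r, D, K` only (constants are absorbed in powers of
`X ≥ 2`): first choose `a ≥ C3 + 4`-like, then `b`.  So `‖A u‖^2 ≤ X^(-2) ‖v‖^2 + X^C ‖A S_q u‖^2`.
(`4 X^(-4) ≤ X^(-2)`; if necessary use a slightly larger power of `X` in `lev_dich`, i.e. apply it with `X^2`.)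
The hypothesis `X^C ≤ M` of `lev_dich` follows from `N ≤ X^(a+1) lam M` and `(Q lam X)^C ≤ N`.
-/

namespace Pool.Nil

open Finset

variable {G : Type*} [Group G] {H : Type*} [NormedAddCommGroup H] [InnerProductSpace ℂ H]
  [CompleteSpace H]

namespace LevelAux

omit [CompleteSpace H] in
lemma avg_mul_avg {α β : Type*} (s : Finset α) (t : Finset β) (f : α → H →L[ℂ] H)
    (f' : β → H →L[ℂ] H) :
    avg s f * avg t f' = avg (s ×ˢ t) (fun p => f p.1 * f' p.2) := by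
  rw [avg_product]
  unfold avg
  rw [smul_mul_assoc, Finset.sum_mul]
  congr 1
  refine Finset.sum_congr rfl fun a _ => ?_
  rw [mul_smul_comm, Finset.mul_sum]

variable {g : ℤ → G} (fr : Frame g) (U : G →* (H ≃ₗᵢ[ℂ] H))

lemma win_mem : ∃ K : ℝ, 1 ≤ K ∧ ∀ (X : ℝ) (lam M n : ℕ) (N R : ℝ), 1 ≤ R → R ≤ N →
    N ≤ X * R → (n : ℝ) + lam * M ≤ N → ∀ m ∈ range M,
    (g n)⁻¹ * g (n + lam * (m : ℕ)) ∈ fr.Sa 1 R (K * (X ^ fr.D * (lam * M / N))) := by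
  obtain ⟨K, hK, hw⟩ := fr.window
  refine ⟨K, hK, fun X lam M n N R hR hRN hNX hn m hm => ?_⟩
  have hN : 1 ≤ N := hR.trans hRN
  have hN0 : 0 < N := by linarith
  have hn0 : (0 : ℝ) ≤ n := Nat.cast_nonneg n
  have hlM : (0 : ℝ) ≤ lam * M := by positivity
  have hze0 : 0 ≤ (lam : ℝ) * M / N := by positivity
  have hze1 : (lam : ℝ) * M / N ≤ 1 := by
    rw [div_le_one hN0]
    linarith
  have h1 : |((n : ℤ) : ℝ)| ≤ N := by
    rw [Int.cast_natCast, abs_of_nonneg hn0]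
    linarith
  have h2 : |(((lam : ℤ) * (m : ℤ) : ℤ) : ℝ)| ≤ ((lam : ℝ) * M / N) * N := by
    rw [div_mul_cancel₀ _ hN0.ne']
    push_cast
    rw [abs_of_nonneg (by positivity)]
    have h : (m : ℝ) ≤ M := by exact_mod_cast (mem_range.1 hm).le
    gcongr
  have h3 := (hw N _ n (lam * m) hN hze0 hze1 h1 h2).1
  have h4 := fr.Sa_down hR hRN (by positivity) h3
  refine fr.Sa_mono (by linarith) le_rfl ?_ h4
  have h5 : (N / R) ^ fr.D ≤ X ^ fr.D := by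
    apply pow_le_pow_left₀ (by positivity)
    rw [div_le_iff₀ (by linarith)]
    exact hNX
  calc K * ((lam : ℝ) * M / N) * (N / R) ^ fr.D ≤ K * ((lam : ℝ) * M / N) * X ^ fr.D := by gcongr
    _ = K * (X ^ fr.D * (lam * M / N)) := by ring

lemma sj_mem (j q : ℕ) (hq : 1 ≤ q) {rho R : ℝ} (hr : 1 ≤ rho) (hR : rho ≤ R)
    {t : Fin fr.r → ℤ}
    (ht : t ∈ bx (fun i => if fr.w i = j then ⌊rho ^ j / (q : ℝ)⌋₊ else 0)) :
    kap fr.c (fun i => (q : ℤ) * t i) ∈ fr.Sa 1 R (rho / R) := by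
  have hr0 : 0 < rho := by linarith
  have hq0 : (0 : ℝ) < q := by exact_mod_cast hq
  have h0 : kap fr.c (fun i => (q : ℤ) * t i) ∈ fr.Sa 1 rho 1 := by
    refine ⟨_, rfl, fun i hi => absurd (fr.one_le_w i) (by omega), fun i => ?_⟩
    have h1 := mem_bx.1 ht i
    by_cases hi : fr.w i = j
    · rw [if_pos hi] at h1
      rw [hi, one_mul]
      have h2 : |((t i : ℤ) : ℝ)| ≤ (⌊rho ^ j / (q : ℝ)⌋₊ : ℝ) := by exact_mod_cast h1
      have h3 : (⌊rho ^ j / (q : ℝ)⌋₊ : ℝ) ≤ rho ^ j / q := Nat.floor_le (by positivity)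
      push_cast
      rw [abs_mul, abs_of_nonneg hq0.le]
      calc (q : ℝ) * |((t i : ℤ) : ℝ)| ≤ q * (rho ^ j / q) := by
            gcongr
            exact h2.trans h3
        _ = rho ^ j := by field_simp
    · rw [if_neg hi] at h1
      have h2 : t i = 0 := by simpa using h1
      rw [h2]
      simp only [mul_zero, Int.cast_zero, abs_zero, one_mul]
      positivity
  have h := fr.Sa_up hr hR zero_le_one h0
  rwa [one_mul] at h

lemma comp_avg (n : ℤ) (lam M j q : ℕ) (rho : ℝ) :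
    Aw U g n lam M * fr.Sj U j q rho =
      avg (range M ×ˢ bx (fun i : Fin fr.r => if fr.w i = j then ⌊rho ^ j / (q : ℝ)⌋₊ else 0))
        (fun p => Uo U (((g n)⁻¹ * g (n + lam * (p.1 : ℕ))) *
          kap fr.c (fun i => (q : ℤ) * p.2 i))) := by
  unfold Aw Frame.Sj BM
  rw [avg_mul_avg]
  congr 1
  funext p
  rw [Uo_mul U ((g n)⁻¹ * g (n + lam * (p.1 : ℕ)))]

theorem tri (j : ℕ) : ∃ C1 : ℕ, ∀ (X : ℝ) (Q lam M n : ℕ) (N R : ℝ) (L : ℕ)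
    [NeZero L] (v : H), 2 ≤ X → 1 ≤ Q → 1 ≤ lam → md fr.W fr.D Q 1 ∣ lam → 1 ≤ R → R ≤ N →
    N ≤ X * R → (n : ℝ) + lam * M ≤ N → X ^ C1 ≤ M →
    (L : ℝ) * (md fr.W fr.D Q j : ℕ) ≤ R ^ j →
    R ^ j ≤ 2 * (L : ℝ) * (md fr.W fr.D Q j : ℕ) →
    ∃ E : (Fin fr.r → ZMod L) → ℝ, (∀ xi, 0 ≤ E xi) ∧
      ∑ xi, E xi ^ 2 ≤ fr.r * (X ^ C1 * (lam * M / N) * ‖v‖ ^ 2) ∧
      ∀ xi, ‖Aw U g n lam M (hat (fr.VV U j Q R v) xi)‖ ≤
          (X ^ 2)⁻¹ * ‖hat (fr.VV U j Q R v) xi‖ ∨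
        ‖Aw U g n lam M (hat (fr.VV U j Q R v) xi)‖ ≤ X ^ C1 * E xi ∨
        (∃ q : ℕ, 1 ≤ q ∧ (q : ℝ) ≤ X ^ (C1 * (fr.r + 1)) ∧ ∀ i, fr.w i = j →
          Pool.PolyMax.dz (q * fr.bet j Q lam xi i) ≤ X ^ (C1 * (fr.r + 1)) / (M : ℝ) ^ j) := by
  classical
  have hex : ∀ i : Fin fr.r, ∃ C : ℕ, fr.w i = j → ∀ (X : ℝ) (Q lam M n : ℕ) (N R : ℝ) (L : ℕ)
      [NeZero L] (v : H), 2 ≤ X → 1 ≤ Q → 1 ≤ lam → md fr.W fr.D Q 1 ∣ lam → 1 ≤ R → R ≤ N →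
      N ≤ X * R → (n : ℝ) + lam * M ≤ N → X ^ C ≤ M →
      (L : ℝ) * (md fr.W fr.D Q j : ℕ) ≤ R ^ j →
      R ^ j ≤ 2 * (L : ℝ) * (md fr.W fr.D Q j : ℕ) →
      ∃ Err : (Fin fr.r → ZMod L) → ℝ, (∀ xi, 0 ≤ Err xi) ∧
        ∑ xi, Err xi ^ 2 ≤ X ^ C * (lam * M / N) * ‖v‖ ^ 2 ∧
        ∀ xi, ‖Aw U g n lam M (hat (fr.VV U j Q R v) xi)‖ ≤
            (X ^ 2)⁻¹ * ‖hat (fr.VV U j Q R v) xi‖ ∨
          (∃ q : ℕ, 1 ≤ q ∧ (q : ℝ) ≤ X ^ C ∧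
            Pool.PolyMax.dz (q * fr.bet j Q lam xi i) ≤ X ^ C / (M : ℝ) ^ j) ∨
          ‖Aw U g n lam M (hat (fr.VV U j Q R v) xi)‖ ≤ X ^ C * Err xi := by
    intro i
    by_cases hi : fr.w i = j
    · subst hi
      obtain ⟨C, hC⟩ := fr.lev_dich U i
      exact ⟨C, fun _ => hC⟩
    · exact ⟨0, fun h => absurd h hi⟩
  choose C hC using hex
  refine ⟨∑ i, C i, ?_⟩
  intro X Q lam M n N R L _ v hX hQ hlam hdvd hR hRN hNX hn hM hL1 hL2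
  have hX1 : 1 ≤ X := by linarith
  have hX0 : 0 < X := by linarith
  have hCle : ∀ i, C i ≤ ∑ i, C i := fun i =>
    Finset.single_le_sum (fun i _ => Nat.zero_le _) (Finset.mem_univ i)
  have hN0 : 0 < N := by linarith
  have hpow : ∀ i, X ^ C i ≤ X ^ (∑ i, C i) := fun i => pow_le_pow_right₀ hX1 (hCle i)
  have hze : 0 ≤ (lam : ℝ) * M / N := by positivity
  have hM0 : (0 : ℝ) < M := lt_of_lt_of_le (by positivity) hM
  have hErr : ∀ i : Fin fr.r, ∃ Err : (Fin fr.r → ZMod L) → ℝ, (∀ xi, 0 ≤ Err xi) ∧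
        ∑ xi, Err xi ^ 2 ≤ X ^ (∑ i, C i) * (lam * M / N) * ‖v‖ ^ 2 ∧
        ∀ xi, fr.w i = j → (‖Aw U g n lam M (hat (fr.VV U j Q R v) xi)‖ ≤
            (X ^ 2)⁻¹ * ‖hat (fr.VV U j Q R v) xi‖ ∨
          (∃ q : ℕ, 1 ≤ q ∧ (q : ℝ) ≤ X ^ (∑ i, C i) ∧
            Pool.PolyMax.dz (q * fr.bet j Q lam xi i) ≤ X ^ (∑ i, C i) / (M : ℝ) ^ j) ∨
          ‖Aw U g n lam M (hat (fr.VV U j Q R v) xi)‖ ≤ X ^ (∑ i, C i) * Err xi) := by
    intro i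
    by_cases hi : fr.w i = j
    · obtain ⟨Err, h1, h2, h3⟩ := hC i hi X Q lam M n N R L v hX hQ hlam hdvd hR hRN hNX hn
        ((hpow i).trans hM) hL1 hL2
      refine ⟨Err, h1, h2.trans ?_, fun xi _ => ?_⟩
      · have := hpow i
        gcongr
      · rcases h3 xi with h | ⟨q, hq1, hq2, hq3⟩ | h
        · exact Or.inl h
        · refine Or.inr (Or.inl ⟨q, hq1, hq2.trans (hpow i), hq3.trans ?_⟩)
          have := hpow i
          gcongr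
        · refine Or.inr (Or.inr (h.trans ?_))
          have := hpow i
          have h4 := h1 xi
          gcongr
    · refine ⟨fun _ => 0, fun _ => le_rfl, ?_, fun xi h => absurd h hi⟩
      simp only [ne_eq, OfNat.ofNat_ne_zero, not_false_eq_true, zero_pow, Finset.sum_const_zero]
      positivity
  clear hC
  choose Err hE0 hE2 hE3 using hErr
  have hS0 : ∀ xi, 0 ≤ ∑ i, Err i xi ^ 2 := fun xi => Finset.sum_nonneg fun i _ => sq_nonneg _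
  refine ⟨fun xi => Real.sqrt (∑ i, Err i xi ^ 2), fun xi => Real.sqrt_nonneg _, ?_, ?_⟩
  · calc ∑ xi, Real.sqrt (∑ i, Err i xi ^ 2) ^ 2 = ∑ xi, ∑ i, Err i xi ^ 2 :=
          Finset.sum_congr rfl fun xi _ => Real.sq_sqrt (hS0 xi)
      _ = ∑ i, ∑ xi, Err i xi ^ 2 := Finset.sum_comm
      _ ≤ ∑ i : Fin fr.r, X ^ (∑ i, C i) * (lam * M / N) * ‖v‖ ^ 2 :=
          Finset.sum_le_sum fun i _ => hE2 i
      _ = fr.r * (X ^ (∑ i, C i) * (lam * M / N) * ‖v‖ ^ 2) := by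
          rw [Finset.sum_const, Finset.card_univ, Fintype.card_fin, nsmul_eq_mul]
  · intro xi
    by_cases h1 : ‖Aw U g n lam M (hat (fr.VV U j Q R v) xi)‖ ≤
      (X ^ 2)⁻¹ * ‖hat (fr.VV U j Q R v) xi‖
    · exact Or.inl h1
    by_cases h2 : ‖Aw U g n lam M (hat (fr.VV U j Q R v) xi)‖ ≤
      X ^ (∑ i, C i) * Real.sqrt (∑ i, Err i xi ^ 2)
    · exact Or.inr (Or.inl h2)
    refine Or.inr (Or.inr ?_)
    have hq : ∀ i : Fin fr.r, ∃ q : ℕ, 1 ≤ q ∧ (q : ℝ) ≤ X ^ (∑ i, C i) ∧ (fr.w i = j →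
        Pool.PolyMax.dz (q * fr.bet j Q lam xi i) ≤ X ^ (∑ i, C i) / (M : ℝ) ^ j) := by
      intro i
      by_cases hi : fr.w i = j
      · rcases hE3 i xi hi with h | ⟨q, hq1, hq2, hq3⟩ | h
        · exact absurd h h1
        · exact ⟨q, hq1, hq2, fun _ => hq3⟩
        · refine absurd (h.trans ?_) h2
          have h5 : Err i xi ≤ Real.sqrt (∑ i, Err i xi ^ 2) := by
            refine Real.le_sqrt_of_sq_le ?_
            exact Finset.single_le_sum (f := fun i => Err i xi ^ 2) (fun i _ => sq_nonneg _)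
              (Finset.mem_univ i)
          gcongr
      · refine ⟨1, le_rfl, ?_, fun h => absurd h hi⟩
        rw [Nat.cast_one]
        exact one_le_pow₀ hX1
    choose q hq1 hq2 hq3 using hq
    have hprod : ((∏ i, q i : ℕ) : ℝ) ≤ X ^ ((∑ i, C i) * fr.r) := by
      push_cast
      calc ∏ i, (q i : ℝ) ≤ ∏ i : Fin fr.r, X ^ (∑ i, C i) :=
            Finset.prod_le_prod (fun i _ => Nat.cast_nonneg _) fun i _ => hq2 i
        _ = X ^ ((∑ i, C i) * fr.r) := by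
            rw [Finset.prod_const, Finset.card_univ, Fintype.card_fin, pow_mul]
    refine ⟨∏ i, q i, ?_, ?_, ?_⟩
    · exact Nat.one_le_iff_ne_zero.2 (Finset.prod_ne_zero_iff.2 fun i _ =>
        Nat.one_le_iff_ne_zero.1 (hq1 i))
    · refine hprod.trans (pow_le_pow_right₀ hX1 ?_)
      exact Nat.mul_le_mul_left _ (Nat.le_succ _)
    · intro i hi
      have h6 : ((∏ i, q i : ℕ)) = (∏ i ∈ Finset.univ.erase i, q i) * q i := by
        rw [Finset.prod_erase_mul _ _ (Finset.mem_univ i)]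
      have h7 : ((∏ i ∈ Finset.univ.erase i, q i : ℕ) : ℝ) ≤ X ^ ((∑ i, C i) * fr.r) := by
        refine le_trans ?_ hprod
        exact_mod_cast h6 ▸ Nat.le_mul_of_pos_right _ (hq1 i)
      rw [h6, Nat.cast_mul, mul_assoc]
      refine (Pool.PolyMax.dz_nat_mul_le _ _).trans ?_
      calc ((∏ i ∈ Finset.univ.erase i, q i : ℕ) : ℝ) * Pool.PolyMax.dz (q i * fr.bet j Q lam xi i)
          ≤ X ^ ((∑ i, C i) * fr.r) * (X ^ (∑ i, C i) / (M : ℝ) ^ j) :=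
            mul_le_mul h7 (hq3 i hi) (Pool.PolyMax.dz_nonneg _) (by positivity)
        _ = X ^ ((∑ i, C i) * (fr.r + 1)) / (M : ℝ) ^ j := by
            rw [← mul_div_assoc, ← pow_add, mul_add, mul_one]

lemma sum_bound {ι : Type*} [Fintype ι] (az zn E : ι → ℝ) (asz E' : ℕ → ι → ℝ) (P : ℕ)
    {c Y : ℝ} (h0 : ∀ x, 0 ≤ az x)
    (h : ∀ x, az x ≤ c * zn x ∨ az x ≤ Y * E x ∨
      ∃ q ∈ Icc 1 P, az x ≤ 2 * asz q x + 2 * E' q x) :
    ∑ x, az x ^ 2 ≤ c ^ 2 * ∑ x, zn x ^ 2 + Y ^ 2 * ∑ x, E x ^ 2 +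
      8 * ∑ q ∈ Icc 1 P, (∑ x, asz q x ^ 2 + ∑ x, E' q x ^ 2) := by
  have hpt : ∀ x, az x ^ 2 ≤ c ^ 2 * zn x ^ 2 + Y ^ 2 * E x ^ 2 +
      8 * ∑ q ∈ Icc 1 P, (asz q x ^ 2 + E' q x ^ 2) := by
    intro x
    have hs : ∀ q ∈ Icc 1 P, 0 ≤ asz q x ^ 2 + E' q x ^ 2 := fun q _ => by positivity
    have hs0 : 0 ≤ ∑ q ∈ Icc 1 P, (asz q x ^ 2 + E' q x ^ 2) := Finset.sum_nonneg hs
    have h1 : 0 ≤ c ^ 2 * zn x ^ 2 := by positivity
    have h2 : 0 ≤ Y ^ 2 * E x ^ 2 := by positivity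
    rcases h x with h3 | h3 | ⟨q, hq, h3⟩
    · have h4 : az x ^ 2 ≤ (c * zn x) ^ 2 := pow_le_pow_left₀ (h0 x) h3 2
      rw [mul_pow] at h4
      linarith
    · have h4 : az x ^ 2 ≤ (Y * E x) ^ 2 := pow_le_pow_left₀ (h0 x) h3 2
      rw [mul_pow] at h4
      linarith
    · have h4 : az x ^ 2 ≤ (2 * asz q x + 2 * E' q x) ^ 2 := pow_le_pow_left₀ (h0 x) h3 2
      have h5 : asz q x ^ 2 + E' q x ^ 2 ≤ ∑ q ∈ Icc 1 P, (asz q x ^ 2 + E' q x ^ 2) :=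
        Finset.single_le_sum (f := fun q => asz q x ^ 2 + E' q x ^ 2) hs hq
      have h6 := sq_nonneg (asz q x - E' q x)
      have h7 : (2 * asz q x + 2 * E' q x) ^ 2 =
          8 * (asz q x ^ 2 + E' q x ^ 2) - 4 * (asz q x - E' q x) ^ 2 := by ring
      linarith
  calc ∑ x, az x ^ 2 ≤ ∑ x, (c ^ 2 * zn x ^ 2 + Y ^ 2 * E x ^ 2 +
      8 * ∑ q ∈ Icc 1 P, (asz q x ^ 2 + E' q x ^ 2)) := Finset.sum_le_sum fun x _ => hpt x
    _ = _ := by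
      rw [Finset.sum_add_distrib, Finset.sum_add_distrib, ← Finset.mul_sum, ← Finset.mul_sum,
        ← Finset.mul_sum, Finset.sum_comm]
      simp only [Finset.sum_add_distrib]

theorem core (j : ℕ) (hj : 1 ≤ j) : ∃ (C1 : ℕ) (K : ℝ), 1 ≤ K ∧
    ∀ (X : ℝ) (Q lam M n : ℕ) (N R rho : ℝ) (L : ℕ) [NeZero L] (v : H), 2 ≤ X → 1 ≤ Q →
    1 ≤ lam → md fr.W fr.D Q 1 ∣ lam → 1 ≤ R → R ≤ N → N ≤ X * R → (n : ℝ) + lam * M ≤ N →
    X ^ C1 ≤ M → (L : ℝ) * (md fr.W fr.D Q j : ℕ) ≤ R ^ j →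
    R ^ j ≤ 2 * (L : ℝ) * (md fr.W fr.D Q j : ℕ) → 1 ≤ rho → rho ≤ R →
    K ^ 2 * (X ^ fr.D * (lam * M / N) + rho / R) ≤ 1 →
    X ^ (C1 * (fr.r + 1)) / (M : ℝ) ^ j * (rho ^ j / (lam : ℝ) ^ j) ≤ 1 / (100 * (fr.r + 1)) →
    ∃ q : ℕ, 1 ≤ q ∧ (q : ℝ) ≤ X ^ (C1 * (fr.r + 1)) ∧
      ‖Aw U g n lam M (fr.Bj U j Q R v)‖ ^ 2 ≤
        (2 * ((X ^ 2)⁻¹) ^ 2 + (2 * fr.r + 33 * K ^ 3) * X ^ (3 * C1 + C1 * (fr.r + 1)) *
          (X ^ fr.D * (lam * M / N) + rho / R)) * ‖v‖ ^ 2 +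
        32 * X ^ (C1 * (fr.r + 1)) *
          ‖Aw U g n lam M (fr.Sj U j (q * lam ^ j) rho (fr.Bj U j Q R v))‖ ^ 2 := by
  obtain ⟨C1, hC1⟩ := tri fr U j
  obtain ⟨Kw, hKw, hwin⟩ := win_mem fr
  obtain ⟨K0, hcon⟩ := fr.exists_consts
  obtain ⟨K3, hK3, hfour⟩ := fr.four3 U
  obtain ⟨Km, hKm, hmaj⟩ := fr.lev_maj U j hj
  have hK0 := hcon.one_le
  obtain ⟨K, hKdef⟩ : ∃ K, K = max (max Kw K0) (max K3 Km) := ⟨_, rfl⟩
  have hwK : Kw ≤ K := by rw [hKdef]; exact (le_max_left _ _).trans (le_max_left _ _)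
  have h0K : K0 ≤ K := by rw [hKdef]; exact (le_max_right _ _).trans (le_max_left _ _)
  have h3K : K3 ≤ K := by rw [hKdef]; exact (le_max_left _ _).trans (le_max_right _ _)
  have hmK : Km ≤ K := by rw [hKdef]; exact (le_max_right _ _).trans (le_max_right _ _)
  clear hKdef
  have hK1 : 1 ≤ K := hKw.trans hwK
  have hK0' : 0 < K := by linarith
  refine ⟨C1, K, hK1, ?_⟩
  intro X Q lam M n N R rho L _ v hX hQ hlam hdvd hR hRN hNX hn hM hL1 hL2 hrho hrhoR hsm hdz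
  have hX1 : 1 ≤ X := by linarith
  have hX0 : 0 < X := by linarith
  have hN0 : 0 < N := by linarith
  have hR0 : 0 < R := by linarith
  have hrho0 : 0 < rho := by linarith
  have hlam0 : (0 : ℝ) < lam := by exact_mod_cast hlam
  have hM0 : (0 : ℝ) < M := lt_of_lt_of_le (by positivity) hM
  obtain ⟨ze, hze⟩ : ∃ ze : ℝ, ze = lam * M / N := ⟨_, rfl⟩
  obtain ⟨d, hd⟩ : ∃ d : ℝ, d = X ^ fr.D * (lam * M / N) := ⟨_, rfl⟩
  obtain ⟨th, hth⟩ : ∃ th : ℝ, th = rho / R := ⟨_, rfl⟩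
  have hze0 : 0 ≤ ze := by rw [hze]; positivity
  have hd0 : 0 ≤ d := by rw [hd]; positivity
  have hth0 : 0 ≤ th := by rw [hth]; positivity
  have hzed : ze ≤ d := by
    rw [hze, hd]
    exact le_mul_of_one_le_left (by positivity) (one_le_pow₀ hX1)
  have hth1 : th ≤ 1 := by rw [hth, div_le_one hR0]; exact hrhoR
  rw [← hd, ← hth] at hsm
  have hKK : 1 ≤ K ^ 2 := one_le_pow₀ hK1
  have hK2 : K ≤ K ^ 2 := le_self_pow₀ hK1 (by norm_num)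
  have hdt : K ^ 2 * d ≤ K ^ 2 * (d + th) := by
    refine mul_le_mul_of_nonneg_left ?_ (by positivity)
    linarith
  have hKd1 : K * d ≤ 1 := by
    have : K * d ≤ K ^ 2 * d := mul_le_mul_of_nonneg_right hK2 hd0
    linarith
  -- the window
  have hwin1 : ∀ m ∈ range M, (g n)⁻¹ * g (n + lam * (m : ℕ)) ∈ fr.Sa 1 R (K * d) := by
    intro m hm
    refine fr.Sa_mono hR0.le le_rfl ?_ (hwin X lam M n N R hR hRN hNX hn m hm)
    rw [← hd]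
    exact mul_le_mul_of_nonneg_right hwK hd0
  have hF2 := (hfour j Q R (K * d) L v (range M)
    (fun m : ℕ => (g n)⁻¹ * g (n + lam * (m : ℕ))) hj hQ hR hL1 (by positivity) hKd1 hwin1).2
  have hAw : avg (range M) (fun m : ℕ => Uo U ((g n)⁻¹ * g (n + lam * (m : ℕ)))) =
    Aw U g n lam M := rfl
  rw [hAw] at hF2
  -- the composite
  have hF1 : ∀ q : ℕ, 1 ≤ q → ∑ xi : Fin fr.r → ZMod L,
      ‖Aw U g n lam M (fr.Sj U j (q * lam ^ j) rho (hat (fr.VV U j Q R v) xi))‖ ^ 2 ≤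
      2 * ‖Aw U g n lam M (fr.Sj U j (q * lam ^ j) rho (fr.Bj U j Q R v))‖ ^ 2 +
        K * (K ^ 2 * (d + th)) * ‖v‖ ^ 2 := by
    intro q hq
    have hql : 1 ≤ q * lam ^ j := Nat.one_le_iff_ne_zero.2 (mul_ne_zero (by omega)
      (pow_ne_zero _ (by omega)))
    have hmem : ∀ p ∈ range M ×ˢ bx (fun i : Fin fr.r =>
        if fr.w i = j then ⌊rho ^ j / ((q * lam ^ j : ℕ) : ℝ)⌋₊ else 0),
        ((g n)⁻¹ * g (n + lam * (p.1 : ℕ))) *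
          kap fr.c (fun i => ((q * lam ^ j : ℕ) : ℤ) * p.2 i) ∈
          fr.Sa 1 R (K ^ 2 * (d + th)) := by
      intro p hp
      rw [Finset.mem_product] at hp
      have h1 := hwin1 p.1 hp.1
      have h2 := sj_mem fr j (q * lam ^ j) hql hrho hrhoR hp.2
      rw [← hth] at h2
      have h3 := hcon.sa_mul 1 R (K * d) th _ _ hR (by positivity) hKd1 hth0 hth1 h1 h2
      refine fr.Sa_mono hR0.le le_rfl ?_ h3
      calc K0 * (K * d + th) ≤ K * (K * d + K * th) := by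
            gcongr
            exact le_mul_of_one_le_left hth0 hK1
        _ = K ^ 2 * (d + th) := by ring
    have h := (hfour j Q R (K ^ 2 * (d + th)) L v _ _ hj hQ hR hL1 (by positivity) hsm hmem).1
    rw [← comp_avg] at h
    refine h.trans ?_
    have h9 : K3 * (K ^ 2 * (d + th)) * ‖v‖ ^ 2 ≤ K * (K ^ 2 * (d + th)) * ‖v‖ ^ 2 := by
      gcongr
    exact add_le_add le_rfl h9
  -- the error functions
  obtain ⟨E, hE0, hE2, hE3⟩ := hC1 X Q lam M n N R L v hX hQ hlam hdvd hR hRN hNX hn hM hL1 hL2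
  rw [← hze] at hE2
  have hmj : ∀ q : ℕ, ∃ Err : (Fin fr.r → ZMod L) → ℝ, (1 ≤ q → (∀ xi, 0 ≤ Err xi) ∧
      ∑ xi, Err xi ^ 2 ≤ Km * (rho / R) * ‖v‖ ^ 2 ∧
      ∀ xi, (∀ i, fr.w i = j → Pool.PolyMax.dz (q * fr.bet j Q lam xi i) *
          (rho ^ j / (q * (lam : ℝ) ^ j)) ≤ 1 / (100 * (fr.r + 1))) →
        ∀ T : H →L[ℂ] H, ‖T‖ ≤ 1 → ‖T (hat (fr.VV U j Q R v) xi)‖ ≤
          2 * ‖T (fr.Sj U j (q * lam ^ j) rho (hat (fr.VV U j Q R v) xi))‖ + 2 * Err xi) := by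
    intro q
    by_cases hq : 1 ≤ q
    · obtain ⟨Err, h1, h2, h3⟩ := hmaj Q lam q R rho L v hQ hlam hq hdvd hrho hrhoR hL1 hL2
      exact ⟨Err, fun _ => ⟨h1, h2, h3⟩⟩
    · exact ⟨fun _ => 0, fun h => absurd h hq⟩
  choose E' hE' using hmj
  obtain ⟨P, hP⟩ : ∃ P : ℕ, P = ⌊X ^ (C1 * (fr.r + 1))⌋₊ := ⟨_, rfl⟩
  have hXP : 1 ≤ X ^ (C1 * (fr.r + 1)) := one_le_pow₀ hX1
  have hP1 : 1 ≤ P := by
    rw [hP]
    exact Nat.le_floor (by rw [Nat.cast_one]; exact hXP)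
  have hPX : (P : ℝ) ≤ X ^ (C1 * (fr.r + 1)) := by
    rw [hP]
    exact Nat.floor_le (by positivity)
  -- the sum
  have hsum := sum_bound (ι := Fin fr.r → ZMod L)
    (fun xi => ‖Aw U g n lam M (hat (fr.VV U j Q R v) xi)‖)
    (fun xi => ‖hat (fr.VV U j Q R v) xi‖) E
    (fun q xi => ‖Aw U g n lam M (fr.Sj U j (q * lam ^ j) rho (hat (fr.VV U j Q R v) xi))‖)
    E' P (c := (X ^ 2)⁻¹) (Y := X ^ C1) (fun xi => norm_nonneg _) (by
      intro xi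
      rcases hE3 xi with h | h | ⟨q, hq1, hq2, hq3⟩
      · exact Or.inl h
      · exact Or.inr (Or.inl h)
      · refine Or.inr (Or.inr ⟨q, ?_, ?_⟩)
        · rw [Finset.mem_Icc]
          refine ⟨hq1, ?_⟩
          rw [hP]
          exact Nat.le_floor hq2
        · refine (hE' q hq1).2.2 xi ?_ _ (norm_Aw_le U g n lam M)
          intro i hi
          refine le_trans ?_ hdz
          have hq0 : (1 : ℝ) ≤ q := by exact_mod_cast hq1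
          have hl : (0 : ℝ) < (lam : ℝ) ^ j := by positivity
          refine mul_le_mul (hq3 i hi) ?_ (by positivity) (by positivity)
          refine div_le_div_of_nonneg_left (by positivity) hl ?_
          exact le_mul_of_one_le_left hl.le hq0)
  -- choose the best modulus
  obtain ⟨q, hq, hqmax⟩ := Finset.exists_max_image (Icc 1 P) (fun q : ℕ =>
    ‖Aw U g n lam M (fr.Sj U j (q * lam ^ j) rho (fr.Bj U j Q R v))‖) ⟨1, by
      rw [Finset.mem_Icc]; exact ⟨le_rfl, hP1⟩⟩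
  have hq1 := (Finset.mem_Icc.1 hq).1
  have hq2 := (Finset.mem_Icc.1 hq).2
  refine ⟨q, hq1, le_trans (by exact_mod_cast hq2) hPX, ?_⟩
  obtain ⟨V, hV⟩ : ∃ V : ℝ, V = ‖v‖ ^ 2 := ⟨_, rfl⟩
  obtain ⟨B, hB⟩ : ∃ B : ℝ, B =
    ‖Aw U g n lam M (fr.Sj U j (q * lam ^ j) rho (fr.Bj U j Q R v))‖ ^ 2 := ⟨_, rfl⟩
  have hV0 : 0 ≤ V := by rw [hV]; positivity
  have hB0 : 0 ≤ B := by rw [hB]; positivity
  have hinner : ∑ q ∈ Icc 1 P, (∑ xi : Fin fr.r → ZMod L,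
      ‖Aw U g n lam M (fr.Sj U j (q * lam ^ j) rho (hat (fr.VV U j Q R v) xi))‖ ^ 2 +
      ∑ xi, E' q xi ^ 2) ≤ X ^ (C1 * (fr.r + 1)) * (2 * B + 2 * K ^ 3 * (d + th) * V) := by
    calc _ ≤ ∑ q ∈ Icc 1 P, (2 * B + 2 * K ^ 3 * (d + th) * V) := by
          refine Finset.sum_le_sum fun q' hq' => ?_
          have h1 := hF1 q' (Finset.mem_Icc.1 hq').1
          have h2 := (hE' q' (Finset.mem_Icc.1 hq').1).2.1
          have h3 := hqmax q' hq'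
          have h4 : ‖Aw U g n lam M (fr.Sj U j (q' * lam ^ j) rho (fr.Bj U j Q R v))‖ ^ 2 ≤ B := by
            rw [hB]
            exact pow_le_pow_left₀ (norm_nonneg _) h3 2
          rw [← hV] at h1 h2
          rw [← hth] at h2
          have h5 : Km * th * V ≤ K ^ 3 * (d + th) * V := by
            have h6 : K ≤ K ^ 3 := le_self_pow₀ hK1 (by norm_num)
            have h7 : Km ≤ K ^ 3 := hmK.trans h6
            gcongr
            linarith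
          have h8 : K * (K ^ 2 * (d + th)) * V = K ^ 3 * (d + th) * V := by ring
          linarith
      _ = (P : ℝ) * (2 * B + 2 * K ^ 3 * (d + th) * V) := by
          rw [Finset.sum_const, Nat.card_Icc, nsmul_eq_mul]
          simp
      _ ≤ _ := by
          refine mul_le_mul_of_nonneg_right hPX ?_
          positivity
  have hz := fr.four0 U j Q R L v
  rw [← hV] at hz hE2 hF2
  have hc0 : 0 ≤ ((X ^ 2)⁻¹) ^ 2 := by positivity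
  have hz' : ((X ^ 2)⁻¹) ^ 2 * ∑ xi : Fin fr.r → ZMod L, ‖hat (fr.VV U j Q R v) xi‖ ^ 2 ≤
      ((X ^ 2)⁻¹) ^ 2 * V := mul_le_mul_of_nonneg_left hz hc0
  have hE2' : (X ^ C1) ^ 2 * ∑ xi, E xi ^ 2 ≤ fr.r * X ^ (3 * C1) * d * V := by
    calc (X ^ C1) ^ 2 * ∑ xi, E xi ^ 2 ≤ (X ^ C1) ^ 2 * (fr.r * (X ^ C1 * ze * V)) :=
          mul_le_mul_of_nonneg_left hE2 (by positivity)
      _ = fr.r * X ^ (3 * C1) * ze * V := by ring
      _ ≤ fr.r * X ^ (3 * C1) * d * V := by gcongr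
  rw [← hd, ← hth, ← hV, ← hB]
  -- collect
  have hT1 : fr.r * X ^ (3 * C1) * d * V ≤
      fr.r * X ^ (3 * C1 + C1 * (fr.r + 1)) * (d + th) * V := by
    have h1 : X ^ (3 * C1) ≤ X ^ (3 * C1 + C1 * (fr.r + 1)) :=
      pow_le_pow_right₀ hX1 (Nat.le_add_right _ _)
    gcongr
    linarith
  have hT2 : X ^ (C1 * (fr.r + 1)) * (2 * K ^ 3 * (d + th) * V) ≤
      2 * K ^ 3 * X ^ (3 * C1 + C1 * (fr.r + 1)) * (d + th) * V := by
    have h1 : X ^ (C1 * (fr.r + 1)) ≤ X ^ (3 * C1 + C1 * (fr.r + 1)) :=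
      pow_le_pow_right₀ hX1 (Nat.le_add_left _ _)
    calc X ^ (C1 * (fr.r + 1)) * (2 * K ^ 3 * (d + th) * V) ≤
        X ^ (3 * C1 + C1 * (fr.r + 1)) * (2 * K ^ 3 * (d + th) * V) := by gcongr
      _ = _ := by ring
  have hT3 : K3 * (K * d) * V ≤ K ^ 3 * X ^ (3 * C1 + C1 * (fr.r + 1)) * (d + th) * V := by
    have h1 : 1 ≤ X ^ (3 * C1 + C1 * (fr.r + 1)) := one_le_pow₀ hX1
    have h2 : K3 * K ≤ K ^ 3 := by
      calc K3 * K ≤ K * K := by gcongr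
        _ ≤ K ^ 3 := by
          rw [← sq]
          exact pow_le_pow_right₀ hK1 (by norm_num)
    calc K3 * (K * d) * V = K3 * K * 1 * d * V := by ring
      _ ≤ K ^ 3 * X ^ (3 * C1 + C1 * (fr.r + 1)) * (d + th) * V := by
          gcongr
          linarith
  have hmain := hF2
  have e1 : (2 * ((X ^ 2)⁻¹) ^ 2 + (2 * fr.r + 33 * K ^ 3) * X ^ (3 * C1 + C1 * (fr.r + 1)) *
      (d + th)) * V = 2 * (((X ^ 2)⁻¹) ^ 2 * V) +
      2 * (fr.r * X ^ (3 * C1 + C1 * (fr.r + 1)) * (d + th) * V) +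
      16 * (2 * K ^ 3 * X ^ (3 * C1 + C1 * (fr.r + 1)) * (d + th) * V) +
      K ^ 3 * X ^ (3 * C1 + C1 * (fr.r + 1)) * (d + th) * V := by ring
  have e2 : X ^ (C1 * (fr.r + 1)) * (2 * B + 2 * K ^ 3 * (d + th) * V) =
      2 * (X ^ (C1 * (fr.r + 1)) * B) +
        X ^ (C1 * (fr.r + 1)) * (2 * K ^ 3 * (d + th) * V) := by ring
  have e3 : 32 * X ^ (C1 * (fr.r + 1)) * B = 32 * (X ^ (C1 * (fr.r + 1)) * B) := by ring
  rw [e1, e3]
  rw [e2] at hinner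
  linarith

end LevelAux

namespace Frame

variable {g : ℤ → G} (fr : Frame g) (U : G →* (H ≃ₗᵢ[ℂ] H))

theorem level (j : ℕ) (hj : 1 ≤ j) (hjD : j ≤ fr.D) : ∃ a b C : ℕ, 1 ≤ b ∧
    ∀ (X : ℝ) (Q lam M n : ℕ) (N R : ℝ), 2 ≤ X → 1 ≤ Q → 1 ≤ lam → md fr.W fr.D Q 1 ∣ lam → 1 ≤ R → R ≤ N → N ≤ X * R →
    (n : ℝ) + lam * M ≤ N → X ^ a * (lam * M) ≤ N → N ≤ X ^ (a + 1) * (lam * M) →
    ((Q : ℝ) * lam * X) ^ C ≤ N → ∀ v : H, ∃ q : ℕ, 1 ≤ q ∧ (q : ℝ) ≤ X ^ C ∧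
      ‖Aw U g n lam M (fr.Bj U j Q R v)‖ ≤ X⁻¹ * ‖v‖ +
        X ^ C * ‖Aw U g n lam M (fr.Sj U j (q * lam ^ j) (N / X ^ b) (fr.Bj U j Q R v))‖ := by
  obtain ⟨C1, K, hK, hcore⟩ := LevelAux.core fr U j hj
  have hK0 : 0 < K := by linarith
  obtain ⟨k, hk⟩ := pow_unbounded_of_one_lt (2 * (fr.r : ℝ) + 33 * K ^ 3 + 100 * (fr.r + 1))
    one_lt_two
  obtain ⟨C2, hC2⟩ : ∃ C2 : ℕ, C2 = C1 * (fr.r + 1) := ⟨_, rfl⟩
  obtain ⟨E, hE⟩ : ∃ E : ℕ, E = 3 * C1 + C2 := ⟨_, rfl⟩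
  obtain ⟨a, ha⟩ : ∃ a : ℕ, a = k + E + fr.D + 4 := ⟨_, rfl⟩
  obtain ⟨b, hb⟩ : ∃ b : ℕ, b = (a + 1) + (k + E + 5) := ⟨_, rfl⟩
  obtain ⟨C, hC⟩ : ∃ C : ℕ, C = a + b + C1 + C2 + E + 10 := ⟨_, rfl⟩
  refine ⟨a, b, C, by omega, ?_⟩
  intro X Q lam M n N R hX hQ hlam hdvd hR hRN hNX hn ha1 ha2 hCN v
  have hX1 : 1 ≤ X := by linarith
  have hX0 : 0 < X := by linarith
  have hN1 : 1 ≤ N := hR.trans hRN
  have hN0 : 0 < N := by linarith
  have hR0 : 0 < R := by linarith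
  have hr0 : (0 : ℝ) ≤ fr.r := Nat.cast_nonneg _
  have hQ1 : (1 : ℝ) ≤ Q := by exact_mod_cast hQ
  have hlam1 : (1 : ℝ) ≤ lam := by exact_mod_cast hlam
  have hlam0 : (0 : ℝ) < lam := by linarith
  have hkX : 2 * (fr.r : ℝ) + 33 * K ^ 3 + 100 * (fr.r + 1) ≤ X ^ k :=
    hk.le.trans (pow_le_pow_left₀ (by norm_num) hX k)
  have hM0 : (0 : ℝ) < M := by
    by_contra hcon
    have h1 : (M : ℝ) = 0 := le_antisymm (not_lt.1 hcon) (Nat.cast_nonneg _)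
    rw [h1, mul_zero, mul_zero] at ha2
    linarith
  have hlX : (lam : ℝ) * X ≤ Q * lam * X := by
    rw [mul_assoc]
    exact le_mul_of_one_le_left (by positivity) hQ1
  have hlXC : ((lam : ℝ) * X) ^ C ≤ N := (pow_le_pow_left₀ (by positivity) hlX C).trans hCN
  have hlX1 : 1 ≤ (lam : ℝ) * X := one_le_mul_of_one_le_of_one_le hlam1 hX1
  have hXC : X ^ C ≤ N := by
    refine le_trans ?_ hlXC
    refine pow_le_pow_left₀ hX0.le ?_ C
    exact le_mul_of_one_le_left hX0.le hlam1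
  -- the modulus
  have hmdlam : md fr.W fr.D Q j ∣ lam := by
    refine dvd_trans ?_ hdvd
    unfold md
    exact Nat.mul_dvd_mul_right (pow_dvd_pow _ (by omega)) Q
  have hmd0 : 0 < md fr.W fr.D Q j := Nat.pos_of_dvd_of_pos hmdlam (by omega)
  have hmd0' : (0 : ℝ) < (md fr.W fr.D Q j : ℕ) := by exact_mod_cast hmd0
  have hlamR : (lam : ℝ) ≤ R := by
    have h1 : (lam : ℝ) * X ≤ X * R := by
      refine le_trans ?_ (hlXC.trans hNX)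
      exact le_self_pow₀ hlX1 (by omega)
    rw [mul_comm X R] at h1
    exact le_of_mul_le_mul_right h1 hX0
  have hmdR : ((md fr.W fr.D Q j : ℕ) : ℝ) ≤ R ^ j := by
    have h1 : ((md fr.W fr.D Q j : ℕ) : ℝ) ≤ lam := by
      exact_mod_cast Nat.le_of_dvd (by omega) hmdlam
    exact (h1.trans hlamR).trans (le_self_pow₀ hR (by omega))
  obtain ⟨L, hL⟩ : ∃ L : ℕ, L = ⌊R ^ j / (md fr.W fr.D Q j : ℕ)⌋₊ := ⟨_, rfl⟩
  have hLpos : 1 ≤ L := by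
    rw [hL]
    refine Nat.le_floor ?_
    rw [Nat.cast_one, one_le_div hmd0']
    exact hmdR
  have : NeZero L := ⟨by omega⟩
  have hL1 : (L : ℝ) * (md fr.W fr.D Q j : ℕ) ≤ R ^ j := by
    have h1 : (L : ℝ) ≤ R ^ j / (md fr.W fr.D Q j : ℕ) := by
      rw [hL]
      exact Nat.floor_le (by positivity)
    rwa [le_div_iff₀ hmd0'] at h1
  have hL2 : R ^ j ≤ 2 * (L : ℝ) * (md fr.W fr.D Q j : ℕ) := by
    have h1 : R ^ j / (md fr.W fr.D Q j : ℕ) < (L : ℝ) + 1 := by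
      rw [hL]
      exact Nat.lt_floor_add_one _
    have h2 : (1 : ℝ) ≤ L := by exact_mod_cast hLpos
    rw [div_lt_iff₀ hmd0'] at h1
    have h3 : ((L : ℝ) + 1) * (md fr.W fr.D Q j : ℕ) ≤ 2 * (L : ℝ) * (md fr.W fr.D Q j : ℕ) :=
      mul_le_mul_of_nonneg_right (by linarith) hmd0'.le
    linarith
  -- `M` is large
  have hM1 : X ^ C1 ≤ M := by
    have h1 : (lam : ℝ) * X ^ (C1 + (a + 1)) ≤ ((lam : ℝ) * X) ^ C := by
      rw [mul_pow]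
      refine mul_le_mul (le_self_pow₀ hlam1 (by omega)) (pow_le_pow_right₀ hX1 (by omega))
        (by positivity) (by positivity)
    have h2 : (lam : ℝ) * X ^ (C1 + (a + 1)) ≤ X ^ (a + 1) * (lam * M) :=
      h1.trans (hlXC.trans ha2)
    have h3 : (lam * X ^ (a + 1)) * X ^ C1 ≤ (lam * X ^ (a + 1)) * (M : ℝ) := by
      calc (lam * X ^ (a + 1)) * X ^ C1 = lam * X ^ (C1 + (a + 1)) := by ring
        _ ≤ _ := h2
        _ = _ := by ring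
    exact le_of_mul_le_mul_left h3 (by positivity)
  -- the radius
  have hXb : 0 < X ^ b := by positivity
  have hrho1 : 1 ≤ N / X ^ b := by
    rw [one_le_div hXb]
    exact (pow_le_pow_right₀ hX1 (by omega)).trans hXC
  have hrhoR : N / X ^ b ≤ R := by
    rw [div_le_iff₀ hXb]
    calc N ≤ X * R := hNX
      _ ≤ X ^ b * R := by
        gcongr
        exact le_self_pow₀ hX1 (by omega)
      _ = R * X ^ b := mul_comm _ _
  obtain ⟨s, hs⟩ : ∃ s : ℝ, s = X ^ (k + E + 4) := ⟨_, rfl⟩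
  have hs0 : 0 < s := by rw [hs]; positivity
  have hd : X ^ fr.D * (lam * M / N) ≤ s⁻¹ := by
    rw [← mul_div_assoc, div_le_iff₀ hN0, ← div_eq_inv_mul, le_div_iff₀ hs0]
    calc X ^ fr.D * (lam * M) * s = X ^ a * (lam * M) := by rw [hs, ha]; ring
      _ ≤ N := ha1
  have hth : N / X ^ b / R ≤ s⁻¹ := by
    rw [div_div, div_le_iff₀ (by positivity), ← div_eq_inv_mul, le_div_iff₀ hs0]
    calc N * s ≤ X * R * s := by gcongr
      _ = X ^ (k + E + 4 + 1) * R := by rw [hs]; ring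
      _ ≤ X ^ b * R := by
        refine mul_le_mul_of_nonneg_right (pow_le_pow_right₀ hX1 (by omega)) hR0.le
  have hsum : X ^ fr.D * (lam * M / N) + N / X ^ b / R ≤ 2 * s⁻¹ := by linarith
  have hXk : 0 < X ^ k := by positivity
  have hsE : X ^ k * (X ^ E * s⁻¹) = (X ^ 4)⁻¹ := by
    rw [hs, pow_add, pow_add]
    field_simp
  have hX4 : 4 * (X ^ 4)⁻¹ ≤ (X ^ 2)⁻¹ := by
    rw [← div_eq_mul_inv, div_le_iff₀ (by positivity)]
    have h1 : (X ^ 2)⁻¹ * X ^ 4 = X ^ 2 := by field_simp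
    rw [h1]
    calc (4 : ℝ) = 2 ^ 2 := by norm_num
      _ ≤ X ^ 2 := pow_le_pow_left₀ (by norm_num) hX 2
  have hX21 : (X ^ 2)⁻¹ ≤ 1 := inv_le_one_of_one_le₀ (one_le_pow₀ hX1)
  have hK3 : K ^ 2 ≤ K ^ 3 := pow_le_pow_right₀ hK (by norm_num)
  have hK30 : 0 < K ^ 3 := by positivity
  have hsm : K ^ 2 * (X ^ fr.D * (lam * M / N) + N / X ^ b / R) ≤ 1 := by
    calc K ^ 2 * (X ^ fr.D * (lam * M / N) + N / X ^ b / R) ≤ X ^ k * (2 * s⁻¹) := by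
          refine mul_le_mul ?_ hsum (by positivity) (by positivity)
          refine le_trans ?_ hkX
          linarith
      _ ≤ X ^ k * (2 * (X ^ E * s⁻¹)) := by
          gcongr
          exact le_mul_of_one_le_left (by positivity) (one_le_pow₀ hX1)
      _ = 2 * (X ^ 4)⁻¹ := by rw [← hsE]; ring
      _ ≤ 1 := by
        have h1 : 0 < (X ^ 4)⁻¹ := by positivity
        linarith
  -- the frequencies
  have hdz : X ^ (C1 * (fr.r + 1)) / (M : ℝ) ^ j * ((N / X ^ b) ^ j / (lam : ℝ) ^ j) ≤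
      1 / (100 * (fr.r + 1)) := by
    rw [← hC2]
    have h1 : X ^ C2 / (M : ℝ) ^ j * ((N / X ^ b) ^ j / (lam : ℝ) ^ j) =
        X ^ C2 * ((N / X ^ b) / (lam * M)) ^ j := by
      rw [div_pow (N / X ^ b) ((lam : ℝ) * M) j, mul_pow]
      field_simp
    have h2 : (N / X ^ b) / (lam * M) ≤ (X ^ (k + E + 5))⁻¹ := by
      rw [div_div, div_le_iff₀ (by positivity), ← div_eq_inv_mul, le_div_iff₀ (by positivity)]
      calc N * X ^ (k + E + 5) ≤ X ^ (a + 1) * (lam * M) * X ^ (k + E + 5) := by gcongr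
        _ = X ^ b * (lam * M) := by rw [hb, pow_add X (a + 1)]; ring
    have h3 : (X ^ (k + E + 5))⁻¹ ≤ 1 := inv_le_one_of_one_le₀ (one_le_pow₀ hX1)
    have h4 : ((N / X ^ b) / (lam * M)) ^ j ≤ (X ^ (k + E + 5))⁻¹ := by
      refine (pow_le_pow_left₀ (by positivity) h2 j).trans ?_
      exact pow_le_of_le_one (by positivity) h3 (by omega)
    rw [h1]
    calc X ^ C2 * ((N / X ^ b) / (lam * M)) ^ j ≤ X ^ C2 * (X ^ (k + E + 5))⁻¹ := by gcongr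
      _ ≤ (X ^ k)⁻¹ := by
        rw [← div_eq_mul_inv, div_le_iff₀ (by positivity), ← div_eq_inv_mul,
          le_div_iff₀ hXk, ← pow_add]
        exact pow_le_pow_right₀ hX1 (by omega)
      _ ≤ (100 * ((fr.r : ℝ) + 1))⁻¹ := by
        refine inv_anti₀ (by positivity) ?_
        linarith
      _ = 1 / (100 * (fr.r + 1)) := (one_div _).symm
  obtain ⟨q, hq1, hq2, hq3⟩ := hcore X Q lam M n N R (N / X ^ b) L v hX hQ hlam hdvd hR hRN hNX hn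
    hM1 hL1 hL2 hrho1 hrhoR hsm hdz
  rw [← hC2] at hq2 hq3
  rw [← hE] at hq3
  refine ⟨q, hq1, hq2.trans (pow_le_pow_right₀ hX1 (by omega)), ?_⟩
  obtain ⟨B, hB⟩ : ∃ B : ℝ, B =
    ‖Aw U g n lam M (fr.Sj U j (q * lam ^ j) (N / X ^ b) (fr.Bj U j Q R v))‖ := ⟨_, rfl⟩
  obtain ⟨T, hT⟩ : ∃ T : ℝ, T = ‖Aw U g n lam M (fr.Bj U j Q R v)‖ := ⟨_, rfl⟩
  have hB0 : 0 ≤ B := by rw [hB]; exact norm_nonneg _
  have hv0 : 0 ≤ ‖v‖ := norm_nonneg v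
  rw [← hB, ← hT] at hq3 ⊢
  have hcoef : 2 * ((X ^ 2)⁻¹) ^ 2 + (2 * (fr.r : ℝ) + 33 * K ^ 3) * X ^ E *
      (X ^ fr.D * (lam * M / N) + N / X ^ b / R) ≤ (X ^ 2)⁻¹ := by
    have h1 : (2 * (fr.r : ℝ) + 33 * K ^ 3) * X ^ E *
        (X ^ fr.D * (lam * M / N) + N / X ^ b / R) ≤ X ^ k * X ^ E * (2 * s⁻¹) := by
      refine mul_le_mul ?_ hsum (by positivity) (by positivity)
      refine mul_le_mul_of_nonneg_right ?_ (by positivity)
      linarith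
    have h2 : X ^ k * X ^ E * (2 * s⁻¹) = 2 * (X ^ 4)⁻¹ := by rw [← hsE]; ring
    have h3 : ((X ^ 2)⁻¹) ^ 2 = (X ^ 4)⁻¹ := by
      rw [inv_pow, ← pow_mul]
    rw [h3]
    linarith
  have h32 : 32 * X ^ C2 ≤ (X ^ C) ^ 2 := by
    have h1 : (32 : ℝ) ≤ X ^ 5 := by
      calc (32 : ℝ) = 2 ^ 5 := by norm_num
        _ ≤ X ^ 5 := pow_le_pow_left₀ (by norm_num) hX 5
    calc 32 * X ^ C2 ≤ X ^ 5 * X ^ C2 := by gcongr
      _ = X ^ (5 + C2) := (pow_add _ _ _).symm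
      _ ≤ X ^ (C * 2) := pow_le_pow_right₀ hX1 (by omega)
      _ = (X ^ C) ^ 2 := pow_mul _ _ _
  have hfin : T ^ 2 ≤ (X⁻¹ * ‖v‖ + X ^ C * B) ^ 2 := by
    calc T ^ 2 ≤ _ := hq3
      _ ≤ (X ^ 2)⁻¹ * ‖v‖ ^ 2 + (X ^ C) ^ 2 * B ^ 2 := by
        refine add_le_add ?_ ?_
        · exact mul_le_mul_of_nonneg_right hcoef (by positivity)
        · exact mul_le_mul_of_nonneg_right h32 (by positivity)
      _ ≤ (X ^ 2)⁻¹ * ‖v‖ ^ 2 + (X ^ C) ^ 2 * B ^ 2 + 2 * (X⁻¹ * ‖v‖) * (X ^ C * B) := by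
        have : 0 ≤ 2 * (X⁻¹ * ‖v‖) * (X ^ C * B) := by positivity
        linarith
      _ = _ := by
        rw [← inv_pow]
        ring
  exact le_of_sq_le_sq hfin (by positivity)

end Frame

end Pool.Nil
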