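import Pool.Agent.Nil.N2

set_option autoImplicit false

/-!
# Nil: maximal norms and almost everywhere convergence of sequences in `L²`

`MS S F` is the `L²` norm of `sup_{k ∈ S} |F k|`.

PROOFS.  The sup functions are a.e. measurable (countable suprema, `AEMeasurable.biSup` with `S.to_countable`).
For the additivity lemmas use `Lp.coeFn_add`, `Lp.coeFn_sub` and the corresponding statement for finite sums (`Lp.coeFn_finset_sum`
or an induction) for all the countably many indices at once (`ae_all_iff`).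
`MS_sum_le`: `‖∑ j ∈ J k, G j k x‖ₑ ≤ ∑ j ∈ J k, ‖G j k x‖ₑ ≤ ∑' j, ⨆ k' ∈ {k' ∈ S | j ∈ J k'}, ‖G j k' x‖ₑ`, then `n2_tsum_le`.
`MS_cover`: `⨆ k ∈ S ≤ ∑' i, ⨆ k ∈ I i`.
`MS_le_of_sq`: `n2_iSup_le` (with `w k = 0` for `k ∉ S`), `n2_Lp` and `ENNReal.tsum_eq_iSup_sum`.
`cz_of_sq`: `∑ k ≥ k0, ‖F k‖^2 < ∞`, so `∫⁻ ∑' ‖F k x‖ₑ^2 < ∞`, so the series converges a.e. and its terms tend to `0`
(`ENNReal.tendsto_cofinite_zero_of_tsum_ne_top`).
`cv_closure`: let `w x = ⨅ k0, ⨆ k ≥ k0, ⨆ l ≥ k0, ‖F k x - F l x‖ₑ` (a.e. measurable).  For a decomposition as in the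
hypothesis: `w x ≤ 2 * ⨆ k ≥ k0, ‖F'' k x‖ₑ` for a.e. `x`, since `F' k x` is a Cauchy sequence: for every `eta > 0` there
is `k1 ≥ k0` with `‖F' k x - F' l x‖ₑ ≤ eta` for `k, l ≥ k1`.  So `n2 μ w ≤ 2 ε` for every `ε > 0`, `w = 0` a.e.
(`ae_zero_of_n2`), and if `w x = 0` then `F k x` is a Cauchy sequence.
`cz_closure`: the same with `w x = ⨅ k0, ⨆ k ≥ k0, ‖F k x‖ₑ`.
-/

namespace Pool.Nil

open Finset MeasureTheory Filter Topology
open scoped ENNReal NNReal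

variable {α : Type*} [MeasurableSpace α] {μ : Measure α}

/-- the `L²` norm of the supremum -/
noncomputable def MS (S : Set ℕ) (F : ℕ → Lp ℂ 2 μ) : ℝ≥0∞ := n2 μ (fun x => ⨆ k ∈ S, ‖F k x‖ₑ)

/-- almost everywhere convergence -/
def Cv (F : ℕ → Lp ℂ 2 μ) : Prop := ∀ᵐ x ∂μ, ∃ L : ℂ, Tendsto (fun k => F k x) atTop (𝓝 L)

/-- almost everywhere convergence to zero -/
def Cz (F : ℕ → Lp ℂ 2 μ) : Prop := ∀ᵐ x ∂μ, Tendsto (fun k => F k x) atTop (𝓝 0)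

namespace MSAux

lemma aem (f : Lp ℂ 2 μ) : AEMeasurable (fun x => ‖f x‖ₑ) μ :=
  (Lp.aestronglyMeasurable f).enorm

lemma aemS (S : Set ℕ) (F : ℕ → Lp ℂ 2 μ) : AEMeasurable (fun x => ⨆ k ∈ S, ‖F k x‖ₑ) μ :=
  AEMeasurable.biSup S S.to_countable (fun k _ => aem (F k))

lemma coe_sum (s : Finset ℕ) (G : ℕ → Lp ℂ 2 μ) :
    ∀ᵐ x ∂μ, (∑ j ∈ s, G j : Lp ℂ 2 μ) x = ∑ j ∈ s, G j x := by
  classical
  induction s using Finset.induction_on with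
  | empty =>
    filter_upwards [Lp.coeFn_zero ℂ 2 μ] with x hx
    simpa using hx
  | insert a s ha ih =>
    rw [Finset.sum_insert ha]
    filter_upwards [ih, Lp.coeFn_add (G a) (∑ j ∈ s, G j)] with x hx hx'
    rw [hx', Finset.sum_insert ha, Pi.add_apply, hx]

end MSAux

lemma MS_mono_set {S S' : Set ℕ} (h : S ⊆ S') (F : ℕ → Lp ℂ 2 μ) : MS S F ≤ MS S' F := by
  refine n2_mono (Eventually.of_forall fun x => ?_)
  exact biSup_mono fun k hk => h hk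

lemma MS_congr {S : Set ℕ} {F F' : ℕ → Lp ℂ 2 μ} (h : ∀ k ∈ S, F k = F' k) : MS S F = MS S F' := by
  refine n2_congr (Eventually.of_forall fun x => ?_)
  exact iSup_congr fun k => iSup_congr fun hk => by rw [h k hk]

lemma MS_add (S : Set ℕ) (F F' : ℕ → Lp ℂ 2 μ) :
    MS S (fun k => F k + F' k) ≤ MS S F + MS S F' := by
  refine le_trans (n2_mono ?_) (n2_add (MSAux.aemS S F) (MSAux.aemS S F'))
  have h : ∀ᵐ x ∂μ, ∀ k, (F k + F' k : Lp ℂ 2 μ) x = F k x + F' k x := by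
    rw [ae_all_iff]
    intro k
    exact Lp.coeFn_add (F k) (F' k)
  filter_upwards [h] with x hx
  refine iSup₂_le fun k hk => ?_
  rw [hx k]
  refine le_trans (enorm_add_le _ _) (add_le_add ?_ ?_)
  · exact le_iSup₂_of_le k hk le_rfl
  · exact le_iSup₂_of_le k hk le_rfl

/-- pointwise domination -/
lemma MS_le_n2 {S : Set ℕ} {F : ℕ → Lp ℂ 2 μ} {w : α → ℝ≥0∞}
    (h : ∀ k ∈ S, ∀ᵐ x ∂μ, ‖F k x‖ₑ ≤ w x) : MS S F ≤ n2 μ w := by
  refine n2_mono ?_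
  have h' : ∀ᵐ x ∂μ, ∀ k, k ∈ S → ‖F k x‖ₑ ≤ w x := by
    rw [ae_all_iff]
    intro k
    by_cases hk : k ∈ S
    · filter_upwards [h k hk] with x hx _ using hx
    · exact Eventually.of_forall fun x hk' => absurd hk' hk
  filter_upwards [h'] with x hx
  exact iSup₂_le hx

lemma MS_cover {S : Set ℕ} {I : ℕ → Set ℕ} (h : S ⊆ ⋃ i, I i) (F : ℕ → Lp ℂ 2 μ) :
    MS S F ≤ ∑' i, MS (I i) F := by
  refine le_trans (n2_mono (Eventually.of_forall fun x => ?_)) (n2_tsum_le fun i => MSAux.aemS (I i) F)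
  refine iSup₂_le fun k hk => ?_
  obtain ⟨i, hi⟩ := Set.mem_iUnion.1 (h hk)
  refine le_trans ?_ (ENNReal.le_tsum i)
  exact le_iSup₂_of_le k hi le_rfl

lemma MS_sum_le (S : Set ℕ) (J : ℕ → Finset ℕ) (G : ℕ → ℕ → Lp ℂ 2 μ) :
    MS S (fun k => ∑ j ∈ J k, G j k) ≤ ∑' j, MS {k | k ∈ S ∧ j ∈ J k} (G j) := by
  refine le_trans (n2_mono ?_) (n2_tsum_le fun j => MSAux.aemS {k | k ∈ S ∧ j ∈ J k} (G j))
  have h : ∀ᵐ x ∂μ, ∀ k, (∑ j ∈ J k, G j k : Lp ℂ 2 μ) x = ∑ j ∈ J k, G j k x := by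
    rw [ae_all_iff]
    intro k
    exact MSAux.coe_sum (J k) (fun j => G j k)
  filter_upwards [h] with x hx
  refine iSup₂_le fun k hk => ?_
  rw [hx k]
  refine le_trans (enorm_sum_le _ _) ?_
  refine le_trans (Finset.sum_le_sum ?_) (ENNReal.sum_le_tsum (J k))
  intro j hj
  exact le_iSup₂_of_le (f := fun k' (_ : k' ∈ {k | k ∈ S ∧ j ∈ J k}) => ‖G j k' x‖ₑ) k ⟨hk, hj⟩ le_rfl

lemma MS_le_of_sq {S : Set ℕ} {F : ℕ → Lp ℂ 2 μ} {B : ℝ} (hB : 0 ≤ B)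
    (h : ∀ s : Finset ℕ, (∀ k ∈ s, k ∈ S) → ∑ k ∈ s, ‖F k‖ ^ 2 ≤ B ^ 2) :
    MS S F ≤ ENNReal.ofReal B := by
  classical
  have hw : ∀ j, AEMeasurable (fun x => if j ∈ S then ‖F j x‖ₑ else 0) μ := by
    intro j
    by_cases hj : j ∈ S
    · simp only [hj, if_true]
      exact MSAux.aem (F j)
    · simp only [hj, if_false]
      exact aemeasurable_const
  have h1 := n2_iSup_le hw
  have h2 : MS S F = n2 μ (fun x => ⨆ j, if j ∈ S then ‖F j x‖ₑ else 0) := by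
    refine n2_congr (Eventually.of_forall fun x => ?_)
    refine iSup_congr fun k => ?_
    by_cases hk : k ∈ S
    · simp [hk]
    · simp [hk]
  have h3 : ∀ j, n2 μ (fun x => if j ∈ S then ‖F j x‖ₑ else 0) ^ 2 =
      if j ∈ S then ENNReal.ofReal (‖F j‖ ^ 2) else 0 := by
    intro j
    by_cases hj : j ∈ S
    · simp only [hj, if_true]
      rw [n2_Lp, ENNReal.ofReal_pow (norm_nonneg _), ofReal_norm]
    · simp only [hj, if_false]
      rw [n2_zero]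
      simp
  have h4 : (∑' j, n2 μ (fun x => if j ∈ S then ‖F j x‖ₑ else 0) ^ 2) ≤ ENNReal.ofReal (B ^ 2) := by
    rw [ENNReal.tsum_eq_iSup_sum]
    refine iSup_le fun s => ?_
    simp only [h3]
    rw [← Finset.sum_filter, ← ENNReal.ofReal_sum_of_nonneg (fun i _ => by positivity)]
    refine ENNReal.ofReal_le_ofReal (h _ fun k hk => ?_)
    exact (Finset.mem_filter.1 hk).2
  rw [← h2] at h1
  have h5 := le_trans h1 h4
  rw [ENNReal.ofReal_pow hB] at h5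
  exact (ENNReal.pow_le_pow_left_iff two_ne_zero).1 h5

lemma MS_finset_le (s : Finset ℕ) (F : ℕ → Lp ℂ 2 μ) :
    MS (s : Set ℕ) F ≤ ∑ k ∈ s, ‖F k‖ₑ := by
  have h1 := n2_sum_le (μ := μ) s (w := fun k x => ‖F k x‖ₑ) (fun i _ => MSAux.aem (F i))
  simp only [n2_Lp] at h1
  refine le_trans (n2_mono (Eventually.of_forall fun x => ?_)) h1
  refine iSup₂_le fun k hk => ?_
  exact Finset.single_le_sum (f := fun k => ‖F k x‖ₑ) (fun i _ => bot_le) (Finset.mem_coe.1 hk)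

lemma Cz.cv {F : ℕ → Lp ℂ 2 μ} (h : Cz F) : Cv F := by
  filter_upwards [h] with x hx using ⟨0, hx⟩

lemma Cv.congr {F F' : ℕ → Lp ℂ 2 μ} (h : Cv F) {k0 : ℕ} (h' : ∀ k, k0 ≤ k → F k = F' k) :
    Cv F' := by
  filter_upwards [h] with x hx
  obtain ⟨L, hL⟩ := hx
  refine ⟨L, hL.congr' ?_⟩
  filter_upwards [eventually_ge_atTop k0] with k hk
  rw [h' k hk]

lemma Cv.add {F F' : ℕ → Lp ℂ 2 μ} (h : Cv F) (h' : Cv F') : Cv (fun k => F k + F' k) := by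
  have h1 : ∀ᵐ x ∂μ, ∀ k, (F k + F' k : Lp ℂ 2 μ) x = F k x + F' k x := by
    rw [ae_all_iff]
    intro k
    exact Lp.coeFn_add (F k) (F' k)
  filter_upwards [h, h', h1] with x hx hx' hx1
  obtain ⟨L, hL⟩ := hx
  obtain ⟨L', hL'⟩ := hx'
  refine ⟨L + L', ?_⟩
  simp only [hx1]
  exact hL.add hL'

lemma Cz.add {F F' : ℕ → Lp ℂ 2 μ} (h : Cz F) (h' : Cz F') : Cz (fun k => F k + F' k) := by
  have h1 : ∀ᵐ x ∂μ, ∀ k, (F k + F' k : Lp ℂ 2 μ) x = F k x + F' k x := by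
    rw [ae_all_iff]
    intro k
    exact Lp.coeFn_add (F k) (F' k)
  filter_upwards [h, h', h1] with x hx hx' hx1
  simp only [hx1]
  simpa using hx.add hx'

lemma cv_const (f : Lp ℂ 2 μ) : Cv (fun _ => f) :=
  Eventually.of_forall fun x => ⟨f x, tendsto_const_nhds⟩

lemma Cv.sum {ι : Type*} {s : Finset ι} {F : ι → ℕ → Lp ℂ 2 μ} (h : ∀ i ∈ s, Cv (F i)) :
    Cv (fun k => ∑ i ∈ s, F i k) := by
  classical
  induction s using Finset.induction_on with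
  | empty =>
    simp only [Finset.sum_empty]
    exact cv_const 0
  | insert a s ha ih =>
    simp only [Finset.sum_insert ha]
    exact (h a (Finset.mem_insert_self a s)).add (ih fun i hi => h i (Finset.mem_insert_of_mem hi))

lemma cz_of_sq {F : ℕ → Lp ℂ 2 μ} {k0 : ℕ} {B : ℝ}
    (h : ∀ s : Finset ℕ, (∀ k ∈ s, k0 ≤ k) → ∑ k ∈ s, ‖F k‖ ^ 2 ≤ B) : Cz F := by
  classical
  have h3 : ∀ j, ∫⁻ x, ‖F j x‖ₑ ^ 2 ∂μ = ENNReal.ofReal (‖F j‖ ^ 2) := by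
    intro j
    rw [← n2_sq, n2_Lp, ENNReal.ofReal_pow (norm_nonneg _), ofReal_norm]
  have h4 : ∫⁻ x, ∑' j, (if k0 ≤ j then ‖F j x‖ₑ ^ 2 else 0) ∂μ ≤ ENNReal.ofReal B := by
    rw [lintegral_tsum]
    · rw [ENNReal.tsum_eq_iSup_sum]
      refine iSup_le fun s => ?_
      have h5 : ∀ j, ∫⁻ x, (if k0 ≤ j then ‖F j x‖ₑ ^ 2 else 0) ∂μ =
          if k0 ≤ j then ENNReal.ofReal (‖F j‖ ^ 2) else 0 := by
        intro j
        by_cases hj : k0 ≤ j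
        · simp only [hj, if_true, h3]
        · simp [hj]
      simp only [h5]
      rw [← Finset.sum_filter, ← ENNReal.ofReal_sum_of_nonneg (fun i _ => by positivity)]
      refine ENNReal.ofReal_le_ofReal (h _ fun k hk => ?_)
      exact (Finset.mem_filter.1 hk).2
    · intro j
      by_cases hj : k0 ≤ j
      · simp only [hj, if_true]
        exact (MSAux.aem (F j)).pow_const 2
      · simp only [hj, if_false]
        exact aemeasurable_const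
  have h6 : AEMeasurable (fun x => ∑' j, (if k0 ≤ j then ‖F j x‖ₑ ^ 2 else 0)) μ := by
    refine AEMeasurable.ennreal_tsum fun j => ?_
    by_cases hj : k0 ≤ j
    · simp only [hj, if_true]
      exact (MSAux.aem (F j)).pow_const 2
    · simp only [hj, if_false]
      exact aemeasurable_const
  have h7 := ae_lt_top' h6 (ne_of_lt (lt_of_le_of_lt h4 ENNReal.ofReal_lt_top))
  filter_upwards [h7] with x hx
  have h8 := ENNReal.tendsto_cofinite_zero_of_tsum_ne_top hx.ne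
  rw [Nat.cofinite_eq_atTop] at h8
  rw [tendsto_zero_iff_enorm_tendsto_zero]
  have h9 : Tendsto (fun j => ‖F j x‖ₑ ^ 2) atTop (𝓝 0) := by
    refine h8.congr' ?_
    filter_upwards [eventually_ge_atTop k0] with j hj
    simp [hj]
  have h10 : Tendsto (fun j => (‖F j x‖ₑ ^ 2) ^ (1 / 2 : ℝ)) atTop (𝓝 ((0 : ℝ≥0∞) ^ (1 / 2 : ℝ))) :=
    (ENNReal.continuous_rpow_const.tendsto 0).comp h9
  rw [ENNReal.zero_rpow_of_pos (by norm_num)] at h10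
  refine h10.congr fun j => ?_
  rw [← ENNReal.rpow_natCast, ← ENNReal.rpow_mul]
  norm_num

namespace MSAux

lemma aemC (F : ℕ → Lp ℂ 2 μ) :
    AEMeasurable (fun x => ⨅ k0 : ℕ, ⨆ p ∈ {p : ℕ × ℕ | k0 ≤ p.1 ∧ k0 ≤ p.2}, ‖F p.1 x - F p.2 x‖ₑ) μ := by
  refine AEMeasurable.iInf fun k0 => ?_
  refine AEMeasurable.biSup _ (Set.to_countable _) fun p _ => ?_
  exact ((Lp.aestronglyMeasurable (F p.1)).sub (Lp.aestronglyMeasurable (F p.2))).enorm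

lemma aemZ (F : ℕ → Lp ℂ 2 μ) :
    AEMeasurable (fun x => ⨅ k0 : ℕ, ⨆ k ∈ {k : ℕ | k0 ≤ k}, ‖F k x‖ₑ) μ := by
  refine AEMeasurable.iInf fun k0 => ?_
  exact aemS _ F

lemma ae_decomp {F F' F'' : ℕ → Lp ℂ 2 μ} {k0 : ℕ} (h : ∀ k, k0 ≤ k → F k = F' k + F'' k) :
    ∀ᵐ x ∂μ, ∀ k, k0 ≤ k → F k x = F' k x + F'' k x := by
  rw [ae_all_iff]
  intro k
  by_cases hk : k0 ≤ k
  · rw [h k hk]
    filter_upwards [Lp.coeFn_add (F' k) (F'' k)] with x hx _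
    rw [hx]
    rfl
  · exact Eventually.of_forall fun x hk' => absurd hk' hk

end MSAux

theorem cv_closure {F : ℕ → Lp ℂ 2 μ}
    (h : ∀ ε : ℝ, 0 < ε → ∃ (k0 : ℕ) (F' F'' : ℕ → Lp ℂ 2 μ),
      (∀ k, k0 ≤ k → F k = F' k + F'' k) ∧ Cv F' ∧ MS {k | k0 ≤ k} F'' ≤ ENNReal.ofReal ε) :
    Cv F := by
  have hw := MSAux.aemC F
  have h0 : ∀ᵐ x ∂μ, (⨅ k0 : ℕ, ⨆ p ∈ {p : ℕ × ℕ | k0 ≤ p.1 ∧ k0 ≤ p.2}, ‖F p.1 x - F p.2 x‖ₑ) = 0 := by
    refine ae_zero_of_n2 hw fun ε hε => ?_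
    obtain ⟨k0, F', F'', h1, h2, h3⟩ := h (ε / 2) (by positivity)
    have h4 : ∀ᵐ x ∂μ, (⨅ k0 : ℕ, ⨆ p ∈ {p : ℕ × ℕ | k0 ≤ p.1 ∧ k0 ≤ p.2}, ‖F p.1 x - F p.2 x‖ₑ) ≤
        2 * ⨆ k ∈ {k | k0 ≤ k}, ‖F'' k x‖ₑ := by
      filter_upwards [MSAux.ae_decomp h1, h2] with x hx1 hx2
      obtain ⟨L, hL⟩ := hx2
      refine ENNReal.le_of_forall_pos_le_add fun η hη _ => ?_
      have h5 : CauchySeq (fun k => F' k x) := hL.cauchySeq
      obtain ⟨N, hN⟩ := Metric.cauchySeq_iff.1 h5 η (by exact_mod_cast hη)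
      refine iInf_le_of_le (max k0 N) ?_
      refine iSup₂_le fun p hp => ?_
      have hp1 : k0 ≤ p.1 := le_trans (le_max_left _ _) hp.1
      have hp2 : k0 ≤ p.2 := le_trans (le_max_left _ _) hp.2
      have hp3 : N ≤ p.1 := le_trans (le_max_right _ _) hp.1
      have hp4 : N ≤ p.2 := le_trans (le_max_right _ _) hp.2
      rw [hx1 p.1 hp1, hx1 p.2 hp2]
      have e1 : F' p.1 x + F'' p.1 x - (F' p.2 x + F'' p.2 x) =
          (F'' p.1 x - F'' p.2 x) + (F' p.1 x - F' p.2 x) := by ring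
      rw [e1]
      refine le_trans (enorm_add_le _ _) (add_le_add ?_ ?_)
      · refine le_trans enorm_sub_le ?_
        rw [two_mul]
        refine add_le_add ?_ ?_
        · exact le_iSup₂_of_le (f := fun k (_ : k ∈ {k | k0 ≤ k}) => ‖F'' k x‖ₑ) p.1 hp1 le_rfl
        · exact le_iSup₂_of_le (f := fun k (_ : k ∈ {k | k0 ≤ k}) => ‖F'' k x‖ₑ) p.2 hp2 le_rfl
      · have := (hN p.1 hp3 p.2 hp4).le
        rw [dist_eq_norm] at this
        rw [← ofReal_norm, ← ENNReal.ofReal_coe_nnreal]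
        exact ENNReal.ofReal_le_ofReal this
    refine le_trans (n2_mono h4) ?_
    rw [n2_const_mul (by norm_num)]
    have h6 : n2 μ (fun x => ⨆ k ∈ {k | k0 ≤ k}, ‖F'' k x‖ₑ) ≤ ENNReal.ofReal (ε / 2) := h3
    refine le_trans (mul_le_mul_right h6 2) ?_
    rw [show (2 : ℝ≥0∞) = ENNReal.ofReal 2 by norm_num, ← ENNReal.ofReal_mul (by norm_num)]
    exact ENNReal.ofReal_le_ofReal (by linarith)
  filter_upwards [h0] with x hx
  have h7 : CauchySeq (fun k => F k x) := by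
    rw [Metric.cauchySeq_iff]
    intro ε hε
    have h8 : (⨅ k0 : ℕ, ⨆ p ∈ {p : ℕ × ℕ | k0 ≤ p.1 ∧ k0 ≤ p.2}, ‖F p.1 x - F p.2 x‖ₑ) <
        ENNReal.ofReal ε :=
      lt_of_eq_of_lt hx (ENNReal.ofReal_pos.2 hε)
    obtain ⟨N, hN⟩ := iInf_lt_iff.1 h8
    refine ⟨N, fun m hm n hn => ?_⟩
    have h9 : ‖F m x - F n x‖ₑ < ENNReal.ofReal ε := by
      refine lt_of_le_of_lt ?_ hN
      exact le_iSup₂_of_le (f := fun (p : ℕ × ℕ) (_ : p ∈ {p : ℕ × ℕ | N ≤ p.1 ∧ N ≤ p.2}) =>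
        ‖F p.1 x - F p.2 x‖ₑ) (m, n) ⟨hm, hn⟩ le_rfl
    rw [← ofReal_norm] at h9
    rw [dist_eq_norm]
    exact (ENNReal.ofReal_lt_ofReal_iff hε).1 h9
  exact cauchySeq_tendsto_of_complete h7

theorem cz_closure {F : ℕ → Lp ℂ 2 μ}
    (h : ∀ ε : ℝ, 0 < ε → ∃ (k0 : ℕ) (F' F'' : ℕ → Lp ℂ 2 μ),
      (∀ k, k0 ≤ k → F k = F' k + F'' k) ∧ Cz F' ∧ MS {k | k0 ≤ k} F'' ≤ ENNReal.ofReal ε) :
    Cz F := by
  have hw := MSAux.aemZ F
  have h0 : ∀ᵐ x ∂μ, (⨅ k0 : ℕ, ⨆ k ∈ {k : ℕ | k0 ≤ k}, ‖F k x‖ₑ) = 0 := by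
    refine ae_zero_of_n2 hw fun ε hε => ?_
    obtain ⟨k0, F', F'', h1, h2, h3⟩ := h ε hε
    have h4 : ∀ᵐ x ∂μ, (⨅ k0 : ℕ, ⨆ k ∈ {k : ℕ | k0 ≤ k}, ‖F k x‖ₑ) ≤
        ⨆ k ∈ {k | k0 ≤ k}, ‖F'' k x‖ₑ := by
      filter_upwards [MSAux.ae_decomp h1, h2] with x hx1 hx2
      refine ENNReal.le_of_forall_pos_le_add fun η hη _ => ?_
      obtain ⟨N, hN⟩ := Metric.tendsto_atTop.1 hx2 η (by exact_mod_cast hη)
      refine iInf_le_of_le (max k0 N) ?_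
      refine iSup₂_le fun p hp => ?_
      have hp1 : k0 ≤ p := le_trans (le_max_left _ _) hp
      have hp3 : N ≤ p := le_trans (le_max_right _ _) hp
      rw [hx1 p hp1, add_comm]
      refine le_trans (enorm_add_le _ _) (add_le_add ?_ ?_)
      · exact le_iSup₂_of_le (f := fun k (_ : k ∈ {k | k0 ≤ k}) => ‖F'' k x‖ₑ) p hp1 le_rfl
      · have := (hN p hp3).le
        rw [dist_eq_norm, sub_zero] at this
        rw [← ofReal_norm, ← ENNReal.ofReal_coe_nnreal]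
        exact ENNReal.ofReal_le_ofReal this
    exact le_trans (n2_mono h4) h3
  filter_upwards [h0] with x hx
  rw [Metric.tendsto_atTop]
  intro ε hε
  have h8 : (⨅ k0 : ℕ, ⨆ k ∈ {k : ℕ | k0 ≤ k}, ‖F k x‖ₑ) < ENNReal.ofReal ε :=
    lt_of_eq_of_lt hx (ENNReal.ofReal_pos.2 hε)
  obtain ⟨N, hN⟩ := iInf_lt_iff.1 h8
  refine ⟨N, fun n hn => ?_⟩
  have h9 : ‖F n x‖ₑ < ENNReal.ofReal ε := by
    refine lt_of_le_of_lt ?_ hN
    exact le_iSup₂_of_le (f := fun k (_ : k ∈ {k : ℕ | N ≤ k}) => ‖F k x‖ₑ) n hn le_rfl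
  rw [← ofReal_norm] at h9
  rw [dist_eq_norm, sub_zero]
  exact (ENNReal.ofReal_lt_ofReal_iff hε).1 h9

end Pool.Nil
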