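import Pool.Agent.Nil.Rep

set_option autoImplicit false

/-!
# Nil: high powers of `A* A`

PROOFS.
`moment`: `S = A* A` is self adjoint, `‖A v‖^2 = re ⟪S v, v⟫ ≤ ‖S v‖ ‖v‖`, and
`‖S^k v‖^2 = re ⟪S^{2k} v, v⟫ ≤ ‖S^{2k} v‖ ‖v‖`; induction on `e`.
`words`: for `A = avg (range M) (fun m => Uo ((g n)⁻¹ * g (n + lam m)))`:
`A* A = avg_m avg_t Uo ((g (n + lam m))⁻¹ * g (n + lam t))` (`adjoint_Uo`), and the `s`-th power is the average
over `cube s M × cube s M` of `Uo (word ..)` : prove by induction on `s` that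
`(A* A)^s = avg (cube s M) (fun m => avg (cube s M) (fun t => Uo (word g s n (lam m) (lam t))))`
(`Fin.consEquiv` or `Fin.snoc`, `List.ofFn_succ`, bijection of `cube (s+1) M` with `Ico 0 M ×ˢ cube s M`).
-/

namespace Pool.Nil

open Finset

variable {G : Type*} [Group G] {H : Type*} [NormedAddCommGroup H] [InnerProductSpace ℂ H]
  [CompleteSpace H]

/-- the average of the window of length `M` with step `lam` at `n` -/
noncomputable def Aw (U : G →* (H ≃ₗᵢ[ℂ] H)) (g : ℤ → G) (n : ℤ) (lam M : ℕ) : H →L[ℂ] H :=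
  avg (range M) (fun m : ℕ => Uo U ((g n)⁻¹ * g (n + lam * m)))

namespace MomentAux

lemma adjoint_real_smul (c : ℝ) (A : H →L[ℂ] H) :
    ContinuousLinearMap.adjoint (c • A) = c • ContinuousLinearMap.adjoint A := by
  have h1 : c • A = (c : ℂ) • A := (Complex.coe_smul c A).symm
  have h2 : c • ContinuousLinearMap.adjoint A = (c : ℂ) • ContinuousLinearMap.adjoint A :=
    (Complex.coe_smul c _).symm
  rw [h1, h2, map_smulₛₗ]
  simp

lemma adjoint_avg {α : Type*} (s : Finset α) (f : α → H →L[ℂ] H) :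
    ContinuousLinearMap.adjoint (avg s f) = avg s (fun a => ContinuousLinearMap.adjoint (f a)) := by
  unfold avg
  rw [adjoint_real_smul, map_sum]

lemma avg_mul {α : Type*} (s : Finset α) (f : α → H →L[ℂ] H) (B : H →L[ℂ] H) :
    avg s f * B = avg s (fun a => f a * B) := by
  unfold avg
  rw [smul_mul_assoc, Finset.sum_mul]

lemma mul_avg {α : Type*} (s : Finset α) (f : α → H →L[ℂ] H) (B : H →L[ℂ] H) :
    B * avg s f = avg s (fun a => B * f a) := by
  unfold avg
  rw [mul_smul_comm, Finset.mul_sum]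

lemma avg_range_Ico {E : Type*} [NormedAddCommGroup E] [NormedSpace ℝ E] (M : ℕ) (f : ℤ → E) :
    avg (range M) (fun m : ℕ => f (m : ℤ)) = avg (Ico 0 (M : ℤ)) f := by
  unfold avg
  have h1 : (Ico 0 (M : ℤ)).card = (range M).card := by simp
  have h2 : ∑ m ∈ range M, f (m : ℤ) = ∑ x ∈ Ico 0 (M : ℤ), f x := by
    refine Finset.sum_nbij' (fun m : ℕ => (m : ℤ)) (fun x : ℤ => x.toNat) ?_ ?_ ?_ ?_ ?_
    · intro m hm
      rw [Finset.mem_range] at hm
      rw [Finset.mem_Ico]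
      omega
    · intro x hx
      rw [Finset.mem_Ico] at hx
      rw [Finset.mem_range]
      omega
    · intro m _
      exact Int.toNat_natCast m
    · intro x hx
      rw [Finset.mem_Ico] at hx
      exact Int.toNat_of_nonneg hx.1
    · intro m _
      rfl
  rw [h1, h2]

lemma avg_cube_succ {E : Type*} [NormedAddCommGroup E] [NormedSpace ℝ E] (s M : ℕ)
    (f : (Fin (s + 1) → ℤ) → E) :
    avg (cube (s + 1) M) f = avg (Ico 0 (M : ℤ)) (fun x => avg (cube s M) (fun m =>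
      f (Fin.cons x m))) := by
  classical
  have h1 : cube (s + 1) M = (Ico 0 (M : ℤ) ×ˢ cube s M).map
      (Fin.consEquiv (fun _ : Fin (s + 1) => ℤ)).toEmbedding := by
    ext t
    rw [Finset.mem_map_equiv, Finset.mem_product]
    unfold cube
    rw [Fintype.mem_piFinset, Fintype.mem_piFinset, Fin.forall_fin_succ]
    rfl
  rw [h1, avg_map_equiv, avg_product]
  rfl

lemma word_succ (g : ℤ → G) (s : ℕ) (n : ℤ) (m0 t0 : ℤ) (m t : Fin s → ℤ) :
    word g (s + 1) n (Fin.cons m0 m) (Fin.cons t0 t) =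
      ((g (n + m0))⁻¹ * g (n + t0)) * word g s n m t := by
  unfold word
  rw [List.ofFn_succ, List.prod_cons]
  simp only [Fin.cons_zero, Fin.cons_succ]

lemma word_lam (g : ℤ → G) (s : ℕ) (n : ℤ) (lam : ℕ) (m0 t0 : ℤ) (m t : Fin s → ℤ) :
    word g (s + 1) n (fun l => (lam : ℤ) * (Fin.cons m0 m : Fin (s + 1) → ℤ) l)
      (fun l => (lam : ℤ) * (Fin.cons t0 t : Fin (s + 1) → ℤ) l) =
      ((g (n + lam * m0))⁻¹ * g (n + lam * t0)) *
        word g s n (fun l => lam * m l) (fun l => lam * t l) := by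
  unfold word
  rw [List.ofFn_succ, List.prod_cons]
  simp only [Fin.cons_zero, Fin.cons_succ]

end MomentAux

lemma norm_Aw_le (U : G →* (H ≃ₗᵢ[ℂ] H)) (g : ℤ → G) (n : ℤ) (lam M : ℕ) :
    ‖Aw U g n lam M‖ ≤ 1 :=
  norm_avg_le_const zero_le_one fun _ _ => norm_Uo_le U _

theorem moment (A : H →L[ℂ] H) (e : ℕ) (v : H) :
    ‖A v‖ ^ (2 ^ (e + 1)) ≤
      ‖v‖ ^ (2 ^ (e + 1) - 1) * ‖((ContinuousLinearMap.adjoint A * A) ^ (2 ^ e)) v‖ := by
  set S := ContinuousLinearMap.adjoint A * A with hS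
  have hsa : IsSelfAdjoint S := by
    rw [hS, ← ContinuousLinearMap.star_eq_adjoint]
    exact IsSelfAdjoint.star_mul_self A
  induction e with
  | zero =>
    have h1 : ‖A v‖ ^ 2 = RCLike.re (inner ℂ (S v) v) := by
      rw [hS]
      change ‖A v‖ ^ 2 = RCLike.re (inner ℂ (ContinuousLinearMap.adjoint A (A v)) v)
      rw [ContinuousLinearMap.adjoint_inner_left, inner_self_eq_norm_sq]
    have h2 : RCLike.re (inner ℂ (S v) v) ≤ ‖S v‖ * ‖v‖ := re_inner_le_norm _ _
    simp only [zero_add, pow_one, pow_zero]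
    norm_num
    rw [h1, mul_comm]
    exact h2
  | succ e ih =>
    have h1 : ‖(S ^ (2 ^ e)) v‖ ^ 2 ≤ ‖(S ^ (2 ^ (e + 1))) v‖ * ‖v‖ := by
      have h2 : ‖(S ^ (2 ^ e)) v‖ ^ 2 = RCLike.re (inner ℂ ((S ^ (2 ^ (e + 1))) v) v) := by
        have h3 : IsSelfAdjoint (S ^ (2 ^ e)) := hsa.pow _
        have h4 : ContinuousLinearMap.adjoint (S ^ (2 ^ e)) = S ^ (2 ^ e) := h3
        have h6 : (S ^ (2 ^ (e + 1))) v = ContinuousLinearMap.adjoint (S ^ (2 ^ e))
            ((S ^ (2 ^ e)) v) := by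
          rw [h4, pow_succ, pow_mul, sq]
          rfl
        rw [h6, ContinuousLinearMap.adjoint_inner_left, inner_self_eq_norm_sq]
      rw [h2]
      exact re_inner_le_norm _ _
    have h5 : 1 ≤ 2 ^ (e + 1) := Nat.one_le_two_pow
    calc ‖A v‖ ^ (2 ^ (e + 1 + 1)) = (‖A v‖ ^ (2 ^ (e + 1))) ^ 2 := by
          rw [← pow_mul]
          congr 1
      _ ≤ (‖v‖ ^ (2 ^ (e + 1) - 1) * ‖(S ^ (2 ^ e)) v‖) ^ 2 := by
          gcongr
      _ = (‖v‖ ^ (2 ^ (e + 1) - 1)) ^ 2 * ‖(S ^ (2 ^ e)) v‖ ^ 2 := by ring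
      _ ≤ (‖v‖ ^ (2 ^ (e + 1) - 1)) ^ 2 * (‖(S ^ (2 ^ (e + 1))) v‖ * ‖v‖) := by
          gcongr
      _ = ‖v‖ ^ (2 * (2 ^ (e + 1) - 1) + 1) * ‖(S ^ (2 ^ (e + 1))) v‖ := by
          rw [pow_succ ‖v‖ (2 * _), mul_comm 2, pow_mul]
          ring
      _ = ‖v‖ ^ (2 ^ (e + 1 + 1) - 1) * ‖(S ^ (2 ^ (e + 1))) v‖ := by
          congr 2
          rw [pow_succ 2 (e + 1)]
          omega

theorem words (U : G →* (H ≃ₗᵢ[ℂ] H)) (g : ℤ → G) (n : ℤ) (lam M : ℕ) (s : ℕ) :
    (ContinuousLinearMap.adjoint (Aw U g n lam M) * Aw U g n lam M) ^ s =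
      avg (cube s M) (fun m => avg (cube s M) (fun t =>
        Uo U (word g s n (fun l => lam * m l) (fun l => lam * t l)))) := by
  have hA : Aw U g n lam M = avg (Ico 0 (M : ℤ)) (fun x => Uo U ((g n)⁻¹ * g (n + lam * x))) :=
    MomentAux.avg_range_Ico M (fun x : ℤ => Uo U ((g n)⁻¹ * g (n + lam * x)))
  have hS : ContinuousLinearMap.adjoint (Aw U g n lam M) * Aw U g n lam M =
      avg (Ico 0 (M : ℤ)) (fun x => avg (Ico 0 (M : ℤ)) (fun y =>
        Uo U ((g (n + lam * x))⁻¹ * g (n + lam * y)))) := by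
    rw [hA, MomentAux.adjoint_avg, MomentAux.avg_mul]
    refine avg_congr fun x _ => ?_
    rw [MomentAux.mul_avg]
    refine avg_congr fun y _ => ?_
    rw [adjoint_Uo, ← Uo_mul]
    congr 1
    group
  rw [hS]
  induction s with
  | zero =>
    have hc : cube 0 M = {fun i => (Fin.elim0 i : ℤ)} := by
      ext t
      unfold cube
      rw [Fintype.mem_piFinset, Finset.mem_singleton]
      constructor
      · intro _
        funext i
        exact i.elim0
      · intro _ i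
        exact i.elim0
    rw [hc, avg_singleton, avg_singleton, pow_zero]
    unfold word
    rw [List.ofFn_zero, List.prod_nil, Uo_one]
  | succ s ih =>
    rw [pow_succ', ih, MomentAux.avg_cube_succ, MomentAux.avg_mul]
    refine avg_congr fun x _ => ?_
    rw [MomentAux.avg_mul]
    have h1 : ∀ m : Fin s → ℤ, avg (cube (s + 1) M) (fun t => Uo U (word g (s + 1) n
        (fun l => (lam : ℤ) * (Fin.cons x m : Fin (s + 1) → ℤ) l) (fun l => lam * t l))) =
        avg (Ico 0 (M : ℤ)) (fun y => Uo U ((g (n + lam * x))⁻¹ * g (n + lam * y)) *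
          avg (cube s M) (fun t => Uo U (word g s n (fun l => lam * m l) (fun l => lam * t l)))) := by
      intro m
      rw [MomentAux.avg_cube_succ]
      refine avg_congr fun y _ => ?_
      rw [MomentAux.mul_avg]
      refine avg_congr fun t _ => ?_
      rw [MomentAux.word_lam, Uo_mul]
    simp only [h1]
    rw [avg_comm (cube s M) (Ico 0 (M : ℤ))]
    refine avg_congr fun y _ => ?_
    rw [MomentAux.mul_avg]

end Pool.Nil
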