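import Pool.Agent.Nil.Filt

set_option autoImplicit false

/-!
# Nil: integer valued polynomials of bounded weighted degree

`mon k x = ∏_v choose (x v) (k v)`; `WP om H d` is the group generated by the monomials `mon k` with
`∑ k_v om_v ≤ d` such that for every `S ∈ H` some `v ∈ S` has `k_v ≥ 1`.

PROOFS.  All statements except `WP_diff` are linear in `P`: use `Submodule.span_induction` (for the
size bounds the constants add up; for `WP_dep` the statement is an equality of values), so it is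
enough to treat `P = mon k`.
-/

namespace Pool.Nil

open Finset

variable {V : Type*} [Fintype V] [DecidableEq V]

/-- products of binomial coefficients -/
def mon (k : V → ℕ) (x : V → ℤ) : ℤ := ∏ v, Ring.choose (x v) (k v)

/-- weighted degree at most `d`, every monomial contains a variable of each `S ∈ H` -/
def WP (om : V → ℕ) (H : Set (Set V)) (d : ℕ) : Submodule ℤ ((V → ℤ) → ℤ) :=
  Submodule.span ℤ {P | ∃ k : V → ℕ, ∑ v, k v * om v ≤ d ∧ (∀ S ∈ H, ∃ v ∈ S, 1 ≤ k v) ∧ P = mon k}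

variable {om : V → ℕ} {H H' : Set (Set V)} {d : ℕ} {P : (V → ℤ) → ℤ}

namespace Mono

lemma choose_rec (x : ℤ) (n : ℕ) :
    ((n + 1 : ℕ) : ℤ) * Ring.choose x (n + 1) = x * Ring.choose (x - 1) n := by
  have h := Ring.choose_smul_choose x (n := n + 1) (k := 1) (by omega)
  rw [Nat.choose_one_right, Ring.choose_one_right, nsmul_eq_mul] at h
  simpa using h

lemma choose_abs (n : ℕ) : ∀ x : ℤ, |Ring.choose x (n + 1)| ≤ |x| * (|x| + n + 1) ^ n := by
  induction n with
  | zero => intro x; simp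
  | succ n ih =>
    intro x
    have h1 := choose_rec x (n + 1)
    have h2 : ((n + 1 + 1 : ℕ) : ℤ) * |Ring.choose x (n + 1 + 1)| =
        |x| * |Ring.choose (x - 1) (n + 1)| := by
      rw [← abs_mul, ← h1, abs_mul, Nat.abs_cast]
    have h3 := ih (x - 1)
    have h4 : |x - 1| ≤ |x| + 1 := by
      calc |x - 1| ≤ |x| + |(1 : ℤ)| := abs_sub _ _
        _ = |x| + 1 := by simp
    have h5 : (1 : ℤ) ≤ ((n + 1 + 1 : ℕ) : ℤ) := by push_cast; omega
    have h0 : 0 ≤ |x| := abs_nonneg x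
    have h0' : 0 ≤ |x - 1| := abs_nonneg _
    have h6 : |Ring.choose (x - 1) (n + 1)| ≤ (|x| + (n + 1 : ℕ) + 1) ^ (n + 1) := by
      calc |Ring.choose (x - 1) (n + 1)| ≤ |x - 1| * (|x - 1| + n + 1) ^ n := h3
        _ ≤ (|x| + (n + 1 : ℕ) + 1) * (|x| + (n + 1 : ℕ) + 1) ^ n := by
          have h7 : |x - 1| ≤ |x| + (n + 1 : ℕ) + 1 := by push_cast; omega
          have h8 : |x - 1| + n + 1 ≤ |x| + (n + 1 : ℕ) + 1 := by push_cast; omega
          exact mul_le_mul h7 (pow_le_pow_left₀ (by positivity) h8 n) (by positivity)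
            (by positivity)
        _ = (|x| + (n + 1 : ℕ) + 1) ^ (n + 1) := by ring
    calc |Ring.choose x (n + 1 + 1)| ≤ ((n + 1 + 1 : ℕ) : ℤ) * |Ring.choose x (n + 1 + 1)| :=
          le_mul_of_one_le_left (abs_nonneg _) h5
      _ = |x| * |Ring.choose (x - 1) (n + 1)| := h2
      _ ≤ |x| * (|x| + (n + 1 : ℕ) + 1) ^ (n + 1) := by gcongr

lemma choose_le (x : ℤ) (k : ℕ) :
    |((Ring.choose x k : ℤ) : ℝ)| ≤ ((k : ℝ) + 1) ^ k * |(x : ℝ)| ^ k := by
  cases k with
  | zero => simp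
  | succ n =>
    have h := choose_abs n x
    have h1 : |((Ring.choose x (n + 1) : ℤ) : ℝ)| ≤ |(x : ℝ)| * (|(x : ℝ)| + n + 1) ^ n := by
      exact_mod_cast h
    refine h1.trans ?_
    rcases eq_or_ne x 0 with rfl | hx
    · simp
    · have h2 : (1 : ℝ) ≤ |(x : ℝ)| := by exact_mod_cast Int.one_le_abs hx
      have h3 : |(x : ℝ)| + n + 1 ≤ (((n + 1 : ℕ) : ℝ) + 1) * |(x : ℝ)| := by
        push_cast
        nlinarith [(Nat.cast_nonneg n : (0 : ℝ) ≤ n)]
      have h4 : |(x : ℝ)| ≤ (((n + 1 : ℕ) : ℝ) + 1) * |(x : ℝ)| := by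
        refine le_mul_of_one_le_left (by positivity) ?_
        push_cast
        linarith [(Nat.cast_nonneg n : (0 : ℝ) ≤ n)]
      calc |(x : ℝ)| * (|(x : ℝ)| + n + 1) ^ n
          ≤ ((((n + 1 : ℕ) : ℝ) + 1) * |(x : ℝ)|) * ((((n + 1 : ℕ) : ℝ) + 1) * |(x : ℝ)|) ^ n := by
            gcongr
        _ = (((n + 1 : ℕ) : ℝ) + 1) ^ (n + 1) * |(x : ℝ)| ^ (n + 1) := by
            rw [← mul_pow, pow_succ' _ n]

lemma mon_le (k : V → ℕ) (X : ℝ) (e : V → ℝ) (x : V → ℤ) (hX : 0 ≤ X) (he : ∀ u, 0 ≤ e u)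
    (hx : ∀ u, |(x u : ℝ)| ≤ e u * X ^ om u) :
    |(mon k x : ℝ)| ≤ (∏ u, ((k u : ℝ) + 1) ^ k u) * (∏ u, e u ^ k u) * X ^ (∑ u, k u * om u) := by
  rw [mon, Int.cast_prod, Finset.abs_prod, ← prod_pow_eq_pow_sum, ← prod_mul_distrib,
    ← prod_mul_distrib]
  refine prod_le_prod (fun u _ => abs_nonneg _) fun u _ => ?_
  refine (choose_le (x u) (k u)).trans ?_
  rw [mul_assoc]
  refine mul_le_mul_of_nonneg_left ?_ (by positivity)
  have h1 : e u ^ k u * X ^ (k u * om u) = (e u * X ^ om u) ^ k u := by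
    rw [mul_pow, ← pow_mul, mul_comm (om u)]
  rw [h1]
  exact pow_le_pow_left₀ (abs_nonneg _) (hx u) _

/-- generic induction for a property of `P` -/
lemma WP_induction {p : ((V → ℤ) → ℤ) → Prop} (hP : P ∈ WP om H d)
    (h1 : ∀ k : V → ℕ, ∑ v, k v * om v ≤ d → (∀ S ∈ H, ∃ v ∈ S, 1 ≤ k v) → p (mon k))
    (h0 : p 0) (ha : ∀ f g, p f → p g → p (f + g)) (hs : ∀ (a : ℤ) f, p f → p (a • f)) : p P := by
  refine Submodule.span_induction (p := fun f _ => p f) ?_ h0 (fun f g _ _ => ha f g)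
    (fun a f _ => hs a f) hP
  rintro _ ⟨k, hk, hH, rfl⟩
  exact h1 k hk hH

lemma mem_gen (k : V → ℕ) (hk : ∑ v, k v * om v ≤ d) (hH : ∀ S ∈ H, ∃ v ∈ S, 1 ≤ k v) :
    mon k ∈ WP om H d := Submodule.subset_span ⟨k, hk, hH, rfl⟩

lemma single_le (k : V → ℕ) (v : V) : k v * om v ≤ ∑ u, k u * om u :=
  single_le_sum (f := fun u => k u * om u) (fun _ _ => Nat.zero_le _) (mem_univ v)

lemma pair_le (k : V → ℕ) {v w : V} (hvw : v ≠ w) :
    k v * om v + k w * om w ≤ ∑ u, k u * om u := by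
  rw [← sum_pair (f := fun u => k u * om u) hvw]
  exact sum_le_sum_of_subset_of_nonneg (subset_univ _) fun _ _ _ => Nat.zero_le _

lemma prod_le_two (k : V → ℕ) (e : V → ℝ) (he : ∀ u, 0 ≤ e u) (he1 : ∀ u, e u ≤ 1) {v w : V}
    (hvw : v ≠ w) (hv : 1 ≤ k v) (hw : 1 ≤ k w) : ∏ u, e u ^ k u ≤ e v * e w := by
  have h1 : ∀ u, e u ^ k u ≤ (if u = v then e v else 1) * (if u = w then e w else 1) := by
    intro u
    rcases eq_or_ne u v with rfl | huv
    · rw [if_pos rfl, if_neg hvw, mul_one]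
      calc e u ^ k u ≤ e u ^ 1 := pow_le_pow_of_le_one (he u) (he1 u) hv
        _ = e u := pow_one _
    · rcases eq_or_ne u w with rfl | huw
      · rw [if_neg huv, if_pos rfl, one_mul]
        calc e u ^ k u ≤ e u ^ 1 := pow_le_pow_of_le_one (he u) (he1 u) hw
          _ = e u := pow_one _
      · rw [if_neg huv, if_neg huw, one_mul]
        exact pow_le_one₀ (he u) (he1 u)
  refine (prod_le_prod (fun u _ => pow_nonneg (he u) _) fun u _ => h1 u).trans (le_of_eq ?_)
  rw [prod_mul_distrib, prod_ite_eq', prod_ite_eq', if_pos (mem_univ _), if_pos (mem_univ _)]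

lemma prod_le_single (k : V → ℕ) (e : V → ℝ) (he : ∀ u, 0 ≤ e u) (he1 : ∀ u, e u ≤ 1) {v : V}
    (hv : 1 ≤ k v) : ∏ u, e u ^ k u ≤ e v := by
  have h1 : ∀ u, e u ^ k u ≤ (if u = v then e v else 1) := by
    intro u
    rcases eq_or_ne u v with rfl | huv
    · rw [if_pos rfl]
      calc e u ^ k u ≤ e u ^ 1 := pow_le_pow_of_le_one (he u) (he1 u) hv
        _ = e u := pow_one _
    · rw [if_neg huv]
      exact pow_le_one₀ (he u) (he1 u)
  refine (prod_le_prod (fun u _ => pow_nonneg (he u) _) fun u _ => h1 u).trans (le_of_eq ?_)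
  rw [prod_ite_eq', if_pos (mem_univ _)]

end Mono

open Mono

lemma WP_mono {d' : ℕ} (hH : H' ⊆ H) (hd : d ≤ d') : WP om H d ≤ WP om H' d' := by
  refine Submodule.span_mono ?_
  rintro _ ⟨k, hk, hS, rfl⟩
  exact ⟨k, hk.trans hd, fun S hS' => hS S (hH hS'), rfl⟩

lemma WP_zero (hP : P ∈ WP om H d) {S : Set V} (hS : S ∈ H) {x : V → ℤ} (hx : ∀ v ∈ S, x v = 0) :
    P x = 0 := by
  refine WP_induction (p := fun P => P x = 0) hP ?_ rfl ?_ ?_
  · intro k _ hk
    obtain ⟨v, hv, hkv⟩ := hk S hS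
    refine prod_eq_zero (mem_univ v) ?_
    rw [hx v hv, Ring.choose_zero_pos ℤ (by omega)]
  · intro f g hf hg
    rw [Pi.add_apply, hf, hg, add_zero]
  · intro a f hf
    rw [Pi.smul_apply, hf, smul_zero]

lemma WP_dvd (hom : ∀ v, 1 ≤ om v) {D W Q : ℕ} (hW : ∀ k : ℕ, 1 ≤ k → k ≤ D → k ∣ W) (hd : d ≤ D)
    (hP : P ∈ WP om H d) {S : Set V} (hS : S ∈ H) {x : V → ℤ}
    (hx : ∀ v ∈ S, ((W ^ (D - om v) * Q : ℕ) : ℤ) ∣ x v) : ((W ^ (D - d) * Q : ℕ) : ℤ) ∣ P x := by
  refine WP_induction (p := fun P => ((W ^ (D - d) * Q : ℕ) : ℤ) ∣ P x) hP ?_ (dvd_zero _) ?_ ?_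
  · intro k hk hkS
    obtain ⟨v, hv, hkv⟩ := hkS S hS
    have h1 : Ring.choose (x v) (k v) ∣ mon k x :=
      dvd_prod_of_mem (fun v => Ring.choose (x v) (k v)) (mem_univ v)
    refine dvd_trans ?_ h1
    have h2 : k v * om v ≤ d := (single_le k v).trans hk
    have h3 := hx v hv
    have h4 : om v ≤ k v * om v := Nat.le_mul_of_pos_left _ (by omega)
    rcases lt_or_ge (om v) d with hlt | hge
    · have h5 : k v ≤ k v * om v := Nat.le_mul_of_pos_right _ (hom v)
      obtain ⟨W', hW'⟩ := hW (k v) hkv (by omega)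
      obtain ⟨n, hn⟩ : ∃ n, k v = n + 1 := ⟨k v - 1, by omega⟩
      obtain ⟨m, hm⟩ : ∃ m, D - om v = (D - d) + 1 + m := ⟨D - om v - (D - d) - 1, by omega⟩
      have h6 : ((k v * (W ^ (D - d) * Q) : ℕ) : ℤ) ∣ x v := by
        refine dvd_trans ?_ h3
        refine Int.natCast_dvd_natCast.2 ?_
        refine ⟨W' * W ^ m, ?_⟩
        rw [hm, pow_add, pow_succ]
        nth_rw 2 [hW']
        ring
      have h7 : (k v : ℤ) * Ring.choose (x v) (k v) = x v * Ring.choose (x v - 1) n := by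
        rw [hn]
        exact choose_rec _ _
      have h8 : (k v : ℤ) * ((W ^ (D - d) * Q : ℕ) : ℤ) ∣ (k v : ℤ) * Ring.choose (x v) (k v) := by
        rw [h7]
        refine Dvd.dvd.mul_right ?_ _
        rw [← Nat.cast_mul]
        exact h6
      exact (mul_dvd_mul_iff_left (by exact_mod_cast (by omega : k v ≠ 0))).1 h8
    · have h5 : k v = 1 := by
        by_contra hne
        have h6 : 2 ≤ k v := by omega
        have h7 : 2 * om v ≤ k v * om v := Nat.mul_le_mul_right _ h6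
        have h8 := hom v
        omega
      have h6 : om v = d := by
        rw [h5, one_mul] at h2
        omega
      rw [h5, Ring.choose_one_right]
      rw [h6] at h3
      exact h3
  · intro f g hf hg
    exact dvd_add hf hg
  · intro a f hf
    rw [Pi.smul_apply, smul_eq_mul]
    exact Dvd.dvd.mul_left hf _

lemma WP_size1 (hP : P ∈ WP om H d) {S : Set V} (hS : S ∈ H) :
    ∃ C : ℝ, 0 ≤ C ∧ ∀ (X del : ℝ) (x : V → ℤ), 1 ≤ X → 0 ≤ del → del ≤ 1 →
      (∀ v, |(x v : ℝ)| ≤ X ^ om v) → (∀ v ∈ S, |(x v : ℝ)| ≤ del * X ^ om v) →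
      |(P x : ℝ)| ≤ C * del * X ^ d := by
  classical
  refine WP_induction (p := fun P => ∃ C : ℝ, 0 ≤ C ∧ ∀ (X del : ℝ) (x : V → ℤ), 1 ≤ X →
      0 ≤ del → del ≤ 1 → (∀ v, |(x v : ℝ)| ≤ X ^ om v) →
      (∀ v ∈ S, |(x v : ℝ)| ≤ del * X ^ om v) → |(P x : ℝ)| ≤ C * del * X ^ d) hP ?_ ?_ ?_ ?_
  · intro k hk hkS
    obtain ⟨v, hv, hkv⟩ := hkS S hS
    refine ⟨∏ u, ((k u : ℝ) + 1) ^ k u, by positivity, fun X del x hX hdel hdel1 hx hxS => ?_⟩
    set e : V → ℝ := fun u => if u ∈ S then del else 1 with he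
    have he0 : ∀ u, 0 ≤ e u := by
      intro u
      rw [he]
      dsimp only
      split_ifs
      · exact hdel
      · exact zero_le_one
    have he1 : ∀ u, e u ≤ 1 := by
      intro u
      rw [he]
      dsimp only
      split_ifs
      · exact hdel1
      · exact le_rfl
    have hX0 : 0 ≤ X := by linarith
    refine (mon_le (om := om) k X e x hX0 he0 fun u => ?_).trans ?_
    · rw [he]
      dsimp only
      split_ifs with hu
      · exact hxS u hu
      · rw [one_mul]; exact hx u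
    · have h1 := prod_le_single k e he0 he1 hkv
      have h2 : e v = del := by rw [he]; exact if_pos hv
      rw [h2] at h1
      have h3 : X ^ (∑ u, k u * om u) ≤ X ^ d := pow_le_pow_right₀ hX hk
      gcongr
  · exact ⟨0, le_rfl, fun X del x _ _ _ _ _ => by simp⟩
  · rintro f g ⟨C, hC, h⟩ ⟨C', hC', h'⟩
    refine ⟨C + C', by positivity, fun X del x hX hdel hdel1 hx hxS => ?_⟩
    have h1 := h X del x hX hdel hdel1 hx hxS
    have h2 := h' X del x hX hdel hdel1 hx hxS
    rw [Pi.add_apply, Int.cast_add]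
    refine (abs_add_le _ _).trans ?_
    linarith
  · rintro a f ⟨C, hC, h⟩
    refine ⟨|(a : ℝ)| * C, by positivity, fun X del x hX hdel hdel1 hx hxS => ?_⟩
    have h1 := h X del x hX hdel hdel1 hx hxS
    rw [Pi.smul_apply, smul_eq_mul, Int.cast_mul, abs_mul]
    calc |(a : ℝ)| * |(f x : ℝ)| ≤ |(a : ℝ)| * (C * del * X ^ d) := by gcongr
      _ = |(a : ℝ)| * C * del * X ^ d := by ring

lemma WP_size2 (hP : P ∈ WP om H d) {S S' : Set V} (hS : S ∈ H) (hS' : S' ∈ H)
    (hdisj : Disjoint S S') :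
    ∃ C : ℝ, 0 ≤ C ∧ ∀ (X del del' : ℝ) (x : V → ℤ), 1 ≤ X → 0 ≤ del → del ≤ 1 → 0 ≤ del' →
      del' ≤ 1 → (∀ v, |(x v : ℝ)| ≤ X ^ om v) → (∀ v ∈ S, |(x v : ℝ)| ≤ del * X ^ om v) →
      (∀ v ∈ S', |(x v : ℝ)| ≤ del' * X ^ om v) →
      |(P x : ℝ)| ≤ C * (del * del') * X ^ d := by
  classical
  refine WP_induction (p := fun P => ∃ C : ℝ, 0 ≤ C ∧ ∀ (X del del' : ℝ) (x : V → ℤ), 1 ≤ X →
      0 ≤ del → del ≤ 1 → 0 ≤ del' → del' ≤ 1 → (∀ v, |(x v : ℝ)| ≤ X ^ om v) →
      (∀ v ∈ S, |(x v : ℝ)| ≤ del * X ^ om v) → (∀ v ∈ S', |(x v : ℝ)| ≤ del' * X ^ om v) →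
      |(P x : ℝ)| ≤ C * (del * del') * X ^ d) hP ?_ ?_ ?_ ?_
  · intro k hk hkS
    obtain ⟨v, hv, hkv⟩ := hkS S hS
    obtain ⟨w, hw, hkw⟩ := hkS S' hS'
    have hvw : v ≠ w := fun h => Set.disjoint_left.1 hdisj hv (h ▸ hw)
    refine ⟨∏ u, ((k u : ℝ) + 1) ^ k u, by positivity,
      fun X del del' x hX hdel hdel1 hdel' hdel1' hx hxS hxS' => ?_⟩
    set e : V → ℝ := fun u => if u ∈ S then del else if u ∈ S' then del' else 1 with he
    have he0 : ∀ u, 0 ≤ e u := by
      intro u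
      rw [he]
      dsimp only
      split_ifs
      · exact hdel
      · exact hdel'
      · exact zero_le_one
    have he1 : ∀ u, e u ≤ 1 := by
      intro u
      rw [he]
      dsimp only
      split_ifs
      · exact hdel1
      · exact hdel1'
      · exact le_rfl
    have hX0 : 0 ≤ X := by linarith
    refine (mon_le (om := om) k X e x hX0 he0 fun u => ?_).trans ?_
    · rw [he]
      dsimp only
      split_ifs with hu hu'
      · exact hxS u hu
      · exact hxS' u hu'
      · rw [one_mul]; exact hx u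
    · have h1 := prod_le_two k e he0 he1 hvw hkv hkw
      have h2 : e v = del := by rw [he]; exact if_pos hv
      have h2' : e w = del' := by
        rw [he]
        dsimp only
        rw [if_neg (fun h => Set.disjoint_left.1 hdisj h hw), if_pos hw]
      rw [h2, h2'] at h1
      have h3 : X ^ (∑ u, k u * om u) ≤ X ^ d := pow_le_pow_right₀ hX hk
      gcongr
  · exact ⟨0, le_rfl, fun X del del' x _ _ _ _ _ _ _ _ => by simp⟩
  · rintro f g ⟨C, hC, h⟩ ⟨C', hC', h'⟩
    refine ⟨C + C', by positivity, fun X del del' x hX hdel hdel1 hdel' hdel1' hx hxS hxS' => ?_⟩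
    have h1 := h X del del' x hX hdel hdel1 hdel' hdel1' hx hxS hxS'
    have h2 := h' X del del' x hX hdel hdel1 hdel' hdel1' hx hxS hxS'
    rw [Pi.add_apply, Int.cast_add]
    refine (abs_add_le _ _).trans ?_
    linarith
  · rintro a f ⟨C, hC, h⟩
    refine ⟨|(a : ℝ)| * C, by positivity,
      fun X del del' x hX hdel hdel1 hdel' hdel1' hx hxS hxS' => ?_⟩
    have h1 := h X del del' x hX hdel hdel1 hdel' hdel1' hx hxS hxS'
    rw [Pi.smul_apply, smul_eq_mul, Int.cast_mul, abs_mul]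
    calc |(a : ℝ)| * |(f x : ℝ)| ≤ |(a : ℝ)| * (C * (del * del') * X ^ d) := by gcongr
      _ = |(a : ℝ)| * C * (del * del') * X ^ d := by ring

lemma WP_dep (hom : ∀ v, 1 ≤ om v) (hP : P ∈ WP om H d) {S S' : Set V} (hS : S ∈ H) (hS' : S' ∈ H)
    (hdisj : Disjoint S S') {x y : V → ℤ} (h : ∀ v, om v < d → x v = y v) : P x = P y := by
  refine WP_induction (p := fun P => P x = P y) hP ?_ rfl ?_ ?_
  · intro k hk hkS
    obtain ⟨v, hv, hkv⟩ := hkS S hS
    obtain ⟨w, hw, hkw⟩ := hkS S' hS'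
    have hvw : v ≠ w := fun h => Set.disjoint_left.1 hdisj hv (h ▸ hw)
    refine prod_congr rfl fun u _ => ?_
    rcases Nat.eq_zero_or_pos (k u) with h0 | h0
    · rw [h0, Ring.choose_zero_right, Ring.choose_zero_right]
    · have key : ∀ z, z ≠ u → 1 ≤ k z → om u < d := by
        intro z hz hkz
        have h1 := pair_le (om := om) k hz
        have h2 : om z ≤ k z * om z := Nat.le_mul_of_pos_left _ (by omega)
        have h3 : om u ≤ k u * om u := Nat.le_mul_of_pos_left _ h0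
        have h4 := hom z
        omega
      have h1 : om u < d := by
        rcases eq_or_ne v u with rfl | hvu
        · exact key w (Ne.symm hvw) hkw
        · exact key v hvu hkv
      rw [h u h1]
  · intro f g hf hg
    rw [Pi.add_apply, Pi.add_apply, hf, hg]
  · intro a f hf
    rw [Pi.smul_apply, Pi.smul_apply, hf]

/-- if all variables of weight `< a` in `S` and all variables of weight `< b` in `S'` vanish then `P`
vanishes, unless `a + b ≤ d` -/
lemma WP_wt (hP : P ∈ WP om H d) {S S' : Set V} (hS : S ∈ H) (hS' : S' ∈ H)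
    (hdisj : Disjoint S S') {a b : ℕ} (hab : d < a + b) {x : V → ℤ}
    (h : ∀ v ∈ S, om v < a → x v = 0) (h' : ∀ v ∈ S', om v < b → x v = 0) : P x = 0 := by
  refine WP_induction (p := fun P => P x = 0) hP ?_ rfl ?_ ?_
  · intro k hk hkS
    obtain ⟨v, hv, hkv⟩ := hkS S hS
    obtain ⟨w, hw, hkw⟩ := hkS S' hS'
    have hvw : v ≠ w := fun h => Set.disjoint_left.1 hdisj hv (h ▸ hw)
    have h1 := pair_le (om := om) k hvw
    have h2 : om v ≤ k v * om v := Nat.le_mul_of_pos_left _ (by omega)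
    have h3 : om w ≤ k w * om w := Nat.le_mul_of_pos_left _ (by omega)
    rcases lt_or_ge (om v) a with h4 | h4
    · refine prod_eq_zero (mem_univ v) ?_
      rw [h v hv h4, Ring.choose_zero_pos ℤ (by omega)]
    · refine prod_eq_zero (mem_univ w) ?_
      rw [h' w hw (by omega), Ring.choose_zero_pos ℤ (by omega)]
  · intro f g hf hg
    rw [Pi.add_apply, hf, hg, add_zero]
  · intro a f hf
    rw [Pi.smul_apply, hf, smul_zero]

lemma WP_diff (hP : P ∈ WP om ∅ d) (v : V) :
    (om v ≤ d → (fun x => P (x + Pi.single v 1) - P x) ∈ WP om ∅ (d - om v)) ∧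
      (d < om v → ∀ x, P (x + Pi.single v 1) = P x) := by
  have hmon : ∀ (k : V → ℕ) (x : V → ℤ), k v = 0 →
      mon k (x + Pi.single v 1) = mon k x := by
    intro k x hk
    refine prod_congr rfl fun u _ => ?_
    rcases eq_or_ne u v with rfl | huv
    · rw [hk, Ring.choose_zero_right, Ring.choose_zero_right]
    · rw [Pi.add_apply, Pi.single_eq_of_ne huv, add_zero]
  refine WP_induction (p := fun P => (om v ≤ d →
      (fun x => P (x + Pi.single v 1) - P x) ∈ WP om ∅ (d - om v)) ∧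
      (d < om v → ∀ x, P (x + Pi.single v 1) = P x)) hP ?_ ?_ ?_ ?_
  · intro k hk _
    constructor
    · intro hvd
      rcases Nat.eq_zero_or_pos (k v) with h0 | h0
      · have h1 : (fun x => mon k (x + Pi.single v 1) - mon k x) = 0 := by
          funext x
          rw [hmon k x h0, sub_self]
          rfl
        rw [h1]
        exact Submodule.zero_mem _
      · obtain ⟨n, hn⟩ : ∃ n, k v = n + 1 := ⟨k v - 1, by omega⟩
        have h1 : (fun x => mon k (x + Pi.single v 1) - mon k x) = mon (Function.update k v n) := by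
          funext x
          rw [mon, mon, mon, ← mul_prod_erase univ _ (mem_univ v),
            ← mul_prod_erase univ (fun u => Ring.choose (x u) (k u)) (mem_univ v),
            ← mul_prod_erase univ (fun u => Ring.choose (x u) (Function.update k v n u))
              (mem_univ v)]
          have h2 : ∏ u ∈ univ.erase v, Ring.choose ((x + Pi.single v 1 : V → ℤ) u) (k u) =
              ∏ u ∈ univ.erase v, Ring.choose (x u) (k u) := by
            refine prod_congr rfl fun u hu => ?_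
            rw [Pi.add_apply, Pi.single_eq_of_ne (ne_of_mem_erase hu), add_zero]
          have h3 : ∏ u ∈ univ.erase v, Ring.choose (x u) (Function.update k v n u) =
              ∏ u ∈ univ.erase v, Ring.choose (x u) (k u) := by
            refine prod_congr rfl fun u hu => ?_
            rw [Function.update_of_ne (ne_of_mem_erase hu)]
          rw [h2, h3, Pi.add_apply, Pi.single_eq_same, Function.update_self, hn,
            Ring.choose_succ_succ]
          ring
        rw [h1]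
        refine mem_gen _ ?_ (fun S hS => absurd hS (Set.notMem_empty S))
        rw [← add_sum_erase univ _ (mem_univ v)] at hk ⊢
        have h4 : ∑ u ∈ univ.erase v, Function.update k v n u * om u =
            ∑ u ∈ univ.erase v, k u * om u := by
          refine sum_congr rfl fun u hu => ?_
          rw [Function.update_of_ne (ne_of_mem_erase hu)]
        rw [h4, Function.update_self]
        rw [hn, add_mul, one_mul] at hk
        omega
    · intro hvd x
      refine hmon k x ?_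
      by_contra hne
      have h1 := single_le (om := om) k v
      have h2 : om v ≤ k v * om v := Nat.le_mul_of_pos_left _ (by omega)
      omega
  · refine ⟨fun _ => ?_, fun _ x => rfl⟩
    have h1 : (fun x => (0 : (V → ℤ) → ℤ) (x + Pi.single v 1) - (0 : (V → ℤ) → ℤ) x) = 0 := by
      funext x
      simp
    rw [h1]
    exact Submodule.zero_mem _
  · rintro f g ⟨hf, hf'⟩ ⟨hg, hg'⟩
    refine ⟨fun hd => ?_, fun hd x => ?_⟩
    · have h1 : (fun x => (f + g) (x + Pi.single v 1) - (f + g) x) =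
          (fun x => f (x + Pi.single v 1) - f x) + (fun x => g (x + Pi.single v 1) - g x) := by
        funext x
        simp only [Pi.add_apply]
        ring
      rw [h1]
      exact Submodule.add_mem _ (hf hd) (hg hd)
    · rw [Pi.add_apply, Pi.add_apply, hf' hd, hg' hd]
  · rintro a f ⟨hf, hf'⟩
    refine ⟨fun hd => ?_, fun hd x => ?_⟩
    · have h1 : (fun x => (a • f) (x + Pi.single v 1) - (a • f) x) =
          a • (fun x => f (x + Pi.single v 1) - f x) := by
        funext x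
        simp only [Pi.smul_apply, smul_eq_mul]
        ring
      rw [h1]
      exact Submodule.smul_mem _ _ (hf hd)
    · rw [Pi.smul_apply, Pi.smul_apply, hf' hd]

lemma var_mem (v : V) : (fun x : V → ℤ => x v) ∈ WP om {S | v ∈ S} (om v) := by
  have h1 : (fun x : V → ℤ => x v) = mon (Pi.single v 1) := by
    funext x
    rw [mon, ← mul_prod_erase univ _ (mem_univ v), Pi.single_eq_same, Ring.choose_one_right,
      prod_eq_one, mul_one]
    intro u hu
    rw [Pi.single_eq_of_ne (ne_of_mem_erase hu), Ring.choose_zero_right]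
  rw [h1]
  refine mem_gen _ ?_ (fun S hS => ⟨v, hS, by rw [Pi.single_eq_same]⟩)
  rw [← add_sum_erase univ _ (mem_univ v), Pi.single_eq_same, sum_eq_zero, one_mul, add_zero]
  intro u hu
  rw [Pi.single_eq_of_ne (ne_of_mem_erase hu), zero_mul]

/-- products of distinct variables -/
lemma prod_mem (A : Finset V) :
    (fun x : V → ℤ => ∏ v ∈ A, x v) ∈ WP om {S | ∃ v ∈ A, v ∈ S} (∑ v ∈ A, om v) := by
  have h1 : (fun x : V → ℤ => ∏ v ∈ A, x v) = mon (fun u => if u ∈ A then 1 else 0) := by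
    funext x
    rw [mon]
    have h2 : ∀ u, Ring.choose (x u) (if u ∈ A then 1 else 0) = if u ∈ A then x u else 1 := by
      intro u
      split_ifs
      · exact Ring.choose_one_right _
      · exact Ring.choose_zero_right _
    simp_rw [h2]
    rw [prod_ite_mem, univ_inter]
  rw [h1]
  refine mem_gen _ (le_of_eq ?_) ?_
  · simp_rw [ite_mul, one_mul, zero_mul]
    rw [sum_ite_mem, univ_inter]
  · rintro S ⟨v, hv, hvS⟩
    exact ⟨v, hvS, by rw [if_pos hv]⟩

/-- if `H` contains singletons `{v}`, `v ∈ A`, and `d < ∑_A om`, then `P = 0`; if `d = ∑_A om` then `P`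
is a multiple of `∏_A x_v` -/
lemma WP_top (hom : ∀ v, 1 ≤ om v) (A : Finset V) (hP : P ∈ WP om {S | ∃ v ∈ A, S = {v}} d) :
    (d < ∑ v ∈ A, om v → P = 0) ∧
      (d = ∑ v ∈ A, om v → ∃ a : ℤ, ∀ x, P x = a * ∏ v ∈ A, x v) := by
  refine WP_induction (p := fun P => (d < ∑ v ∈ A, om v → P = 0) ∧
      (d = ∑ v ∈ A, om v → ∃ a : ℤ, ∀ x, P x = a * ∏ v ∈ A, x v)) hP ?_ ?_ ?_ ?_
  · intro k hk hkS
    have hk1 : ∀ v ∈ A, 1 ≤ k v := by
      intro v hv
      obtain ⟨u, hu, hku⟩ := hkS {v} ⟨v, hv, rfl⟩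
      rw [Set.mem_singleton_iff] at hu
      rwa [hu] at hku
    have h1 : ∑ v ∈ A, om v ≤ ∑ v ∈ A, k v * om v :=
      sum_le_sum fun v hv => Nat.le_mul_of_pos_left _ (hk1 v hv)
    have h2 : ∑ v ∈ A, k v * om v ≤ ∑ v, k v * om v :=
      sum_le_sum_of_subset_of_nonneg (subset_univ _) fun _ _ _ => Nat.zero_le _
    refine ⟨fun hlt => by omega, fun heq => ⟨1, fun x => ?_⟩⟩
    have h3 : ∑ v ∈ A, om v = ∑ v ∈ A, k v * om v := by omega
    have h4 : ∀ v ∈ A, k v = 1 := by
      intro v hv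
      have h5 := (sum_eq_sum_iff_of_le fun v hv => Nat.le_mul_of_pos_left _ (hk1 v hv)).1 h3 v hv
      have h6 := hom v
      have h7 : (k v) * om v = 1 * om v := by omega
      exact Nat.eq_of_mul_eq_mul_right h6 h7
    have h5 : ∀ v, v ∉ A → k v = 0 := by
      intro v hv
      have h6 : ∑ u ∈ insert v A, k u * om u ≤ ∑ u, k u * om u :=
        sum_le_sum_of_subset_of_nonneg (subset_univ _) fun _ _ _ => Nat.zero_le _
      rw [sum_insert hv] at h6
      have h7 : k v * om v = 0 := by omega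
      have h8 := hom v
      rcases Nat.mul_eq_zero.1 h7 with h9 | h9
      · exact h9
      · omega
    rw [one_mul, mon]
    have h6 : ∀ u, Ring.choose (x u) (k u) = if u ∈ A then x u else 1 := by
      intro u
      split_ifs with hu
      · rw [h4 u hu, Ring.choose_one_right]
      · rw [h5 u hu, Ring.choose_zero_right]
    simp_rw [h6]
    rw [prod_ite_mem, univ_inter]
  · exact ⟨fun _ => rfl, fun _ => ⟨0, fun x => by simp⟩⟩
  · rintro f g ⟨hf, hf'⟩ ⟨hg, hg'⟩
    refine ⟨fun hd => by rw [hf hd, hg hd, add_zero], fun hd => ?_⟩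
    obtain ⟨a, ha⟩ := hf' hd
    obtain ⟨b, hb⟩ := hg' hd
    exact ⟨a + b, fun x => by rw [Pi.add_apply, ha, hb]; ring⟩
  · rintro a f ⟨hf, hf'⟩
    refine ⟨fun hd => by rw [hf hd, smul_zero], fun hd => ?_⟩
    obtain ⟨b, hb⟩ := hf' hd
    exact ⟨a * b, fun x => by rw [Pi.smul_apply, hb, smul_eq_mul]; ring⟩

/-- one variable -/
lemma WP_sq {P : (Unit → ℤ) → ℤ} (hP : P ∈ WP (fun _ : Unit => 1) {Set.univ} d) :
    ∃ ga : ℕ → ℤ, ∀ n : ℤ, P (fun _ => n) = ∑ k ∈ Icc 1 d, ga k * Ring.choose n k := by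
  refine WP_induction (p := fun P => ∃ ga : ℕ → ℤ, ∀ n : ℤ,
    P (fun _ => n) = ∑ k ∈ Icc 1 d, ga k * Ring.choose n k) hP ?_ ?_ ?_ ?_
  · intro k hk hkS
    obtain ⟨v, _, hkv⟩ := hkS Set.univ (Set.mem_singleton _)
    have hd : k () ≤ d := by simpa using hk
    have h1 : 1 ≤ k () := hkv
    refine ⟨fun j => if j = k () then 1 else 0, fun n => ?_⟩
    simp only [ite_mul, one_mul, zero_mul]
    rw [sum_ite_eq', if_pos (mem_Icc.2 ⟨h1, hd⟩)]
    simp [mon]
  · exact ⟨fun _ => 0, fun n => by simp⟩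
  · rintro f g ⟨a, ha⟩ ⟨b, hb⟩
    refine ⟨a + b, fun n => ?_⟩
    rw [Pi.add_apply, ha, hb, ← sum_add_distrib]
    exact sum_congr rfl fun k _ => by rw [Pi.add_apply]; ring
  · rintro c f ⟨a, ha⟩
    refine ⟨fun k => c * a k, fun n => ?_⟩
    rw [Pi.smul_apply, ha, smul_eq_mul, mul_sum]
    exact sum_congr rfl fun k _ => by ring

end Pool.Nil
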