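import Pool.Agent.Nil.KC

set_option autoImplicit false

/-!
# Nil: multiplication in coordinates

PROOF of `mul_coord`.  `coord` with `V = Fin r ⊕ Fin r`, `om = Sum.elim w w`, `j = 0`,
`f x = kap c (x ∘ inl) * kap c (x ∘ inr)` (polynomial by `isPol_kap`, `var_mem`, `IsPol.mul`; values in `F 1` by
`kap_mem`), `P0 i x = x (inl i) + x (inr i)`, `H = {range inl, range inr}` (`kap c 0 = 1`).  Put
`p x y i = s i (Sum.elim x y)`.  `p_dep`: `WP_dep` (with `om v < w i`); `p_dvd`: `WP_dvd` with `S = range inl` or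
`S = range inr`; `p_size`: `WP_size2` (`X = R`, the bounds `|x| ≤ del R^w` imply `|x| ≤ R^w`), constant = maximum
(or sum) over `i`; `p_wt`: `WP_wt`.
`seq_coord`: `coord` with `V = Unit`, `om = 1`, `f x = g (x ())` (`isSeq_iff`), `j = 0`, `P0 = 0`, `H = {univ}`, `WP_sq`.
-/

namespace Pool.Nil

open Finset

variable {G : Type*} [Group G]

theorem mul_coord {F : ℕ → Subgroup G} {D r : ℕ} {c : Fin r → G} {w : Fin r → ℕ}
    (hA : Adapted F D c w) {W : ℕ} (hW : ∀ k : ℕ, 1 ≤ k → k ≤ D → k ∣ W) :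
    ∃ (p : (Fin r → ℤ) → (Fin r → ℤ) → Fin r → ℤ) (C : ℝ), 0 ≤ C ∧
      (∀ x y, kap c x * kap c y = kap c (x + y + p x y)) ∧
      (∀ x x' y y' i, (∀ j, w j < w i → x j = x' j ∧ y j = y' j) → p x y i = p x' y' i) ∧
      (∀ (Q : ℕ) x y, ((∀ j, ((md W D Q (w j) : ℕ) : ℤ) ∣ x j) ∨
        (∀ j, ((md W D Q (w j) : ℕ) : ℤ) ∣ y j)) → ∀ i, ((md W D Q (w i) : ℕ) : ℤ) ∣ p x y i) ∧
      (∀ (R del del' : ℝ) x y, 1 ≤ R → 0 ≤ del → del ≤ 1 → 0 ≤ del' → del' ≤ 1 →
        (∀ j, |(x j : ℝ)| ≤ del * R ^ w j) → (∀ j, |(y j : ℝ)| ≤ del' * R ^ w j) →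
        ∀ i, |(p x y i : ℝ)| ≤ C * (del * del') * R ^ w i) ∧
      (∀ (a b : ℕ) x y, (∀ j, w j < a → x j = 0) → (∀ j, w j < b → y j = 0) →
        ∀ i, w i < a + b → p x y i = 0) := by
  classical
  have hF := hA.filt
  have hom : ∀ v : Fin r ⊕ Fin r, 1 ≤ Sum.elim w w v := by
    rintro (v | v)
    · exact hA.one_le v
    · exact hA.one_le v
  have hl : ∀ i, (fun x : Fin r ⊕ Fin r → ℤ => x (Sum.inl i)) ∈ WP (Sum.elim w w) ∅ (w i) :=
    fun i => WP_mono (Set.empty_subset _) le_rfl (var_mem (om := Sum.elim w w) (Sum.inl i))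
  have hr : ∀ i, (fun x : Fin r ⊕ Fin r → ℤ => x (Sum.inr i)) ∈ WP (Sum.elim w w) ∅ (w i) :=
    fun i => WP_mono (Set.empty_subset _) le_rfl (var_mem (om := Sum.elim w w) (Sum.inr i))
  have hf : IsPol F (Sum.elim w w) 0
      ((fun x : Fin r ⊕ Fin r → ℤ => kap c (fun i => x (Sum.inl i))) *
      (fun x : Fin r ⊕ Fin r → ℤ => kap c (fun i => x (Sum.inr i)))) :=
    (isPol_kap hF hA.mem hl).mul hF (isPol_kap hF hA.mem hr)
  have hk1 : ∀ x : Fin r → ℤ, kap c x ∈ F 1 := fun x =>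
    kap_mem hF hA.mem (fun i hi => absurd (hA.one_le i) (by omega))
  obtain ⟨s, hs, -, hfs⟩ := coord hA hom _ hf 0
    (fun x => (F 1).mul_mem (hk1 _) (hk1 _))
    {Set.range Sum.inl, Set.range Sum.inr}
    (fun i x => x (Sum.inl i) + x (Sum.inr i))
    (fun i => Submodule.add_mem _ (hl i) (hr i))
    (fun i hi => absurd (hA.one_le i) (by omega)) (by
      intro S hS x hx
      simp only [Pi.mul_apply]
      rcases hS with rfl | hS
      · have h0 : ∀ i, x (Sum.inl i) = 0 := fun i => hx _ ⟨i, rfl⟩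
        simp only [h0, zero_add]
        rw [show kap c (fun _ => 0) = 1 from kap_zero c, one_mul]
      · rw [Set.mem_singleton_iff] at hS
        subst hS
        have h0 : ∀ i, x (Sum.inr i) = 0 := fun i => hx _ ⟨i, rfl⟩
        simp only [h0, add_zero]
        rw [show kap c (fun _ => 0) = 1 from kap_zero c, mul_one])
  simp only [Pi.mul_apply] at hfs
  have hH1 : Set.range Sum.inl ∈
      ({Set.range Sum.inl, Set.range Sum.inr} : Set (Set (Fin r ⊕ Fin r))) := Or.inl rfl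
  have hH2 : Set.range Sum.inr ∈
      ({Set.range Sum.inl, Set.range Sum.inr} : Set (Set (Fin r ⊕ Fin r))) := Or.inr rfl
  have hdisj : Disjoint (Set.range Sum.inl) (Set.range Sum.inr : Set (Fin r ⊕ Fin r)) := by
    rw [Set.disjoint_left]
    rintro _ ⟨a, rfl⟩ ⟨b, hb⟩
    simp at hb
  choose C hC0 hC using fun j => WP_size2 (hs j) hH1 hH2 hdisj
  refine ⟨fun x y i => s i (Sum.elim x y), ∑ j, C j, Finset.sum_nonneg fun j _ => hC0 j,
    ?_, ?_, ?_, ?_, ?_⟩
  · intro x y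
    exact hfs (Sum.elim x y)
  · intro x x' y y' i h
    refine WP_dep hom (hs i) hH1 hH2 hdisj ?_
    rintro (v | v) hv
    · exact (h v hv).1
    · exact (h v hv).2
  · intro Q x y h i
    rcases h with h | h
    · refine WP_dvd hom hW (hA.le_D i) (hs i) hH1 ?_
      rintro _ ⟨v, rfl⟩
      exact h v
    · refine WP_dvd hom hW (hA.le_D i) (hs i) hH2 ?_
      rintro _ ⟨v, rfl⟩
      exact h v
  · intro R del del' x y hR h0 h1 h0' h1' hx hy i
    have hR0 : (0 : ℝ) ≤ R := by linarith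
    have h := hC i R del del' (Sum.elim x y) hR h0 h1 h0' h1' ?_ ?_ ?_
    · refine h.trans ?_
      have e1 : C i ≤ ∑ j, C j := Finset.single_le_sum (fun j _ => hC0 j) (Finset.mem_univ i)
      have e2 : 0 ≤ del * del' := mul_nonneg h0 h0'
      have e3 : 0 ≤ R ^ w i := pow_nonneg hR0 _
      exact mul_le_mul_of_nonneg_right (mul_le_mul_of_nonneg_right e1 e2) e3
    · rintro (v | v)
      · refine (hx v).trans ?_
        have e3 : 0 ≤ R ^ w v := pow_nonneg hR0 _
        simp only [Sum.elim_inl]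
        nlinarith
      · refine (hy v).trans ?_
        have e3 : 0 ≤ R ^ w v := pow_nonneg hR0 _
        simp only [Sum.elim_inr]
        nlinarith
    · rintro _ ⟨v, rfl⟩
      exact hx v
    · rintro _ ⟨v, rfl⟩
      exact hy v
  · intro a b x y hx hy i hi
    refine WP_wt (hs i) hH1 hH2 hdisj hi ?_ ?_
    · rintro _ ⟨v, rfl⟩ hv
      exact hx v hv
    · rintro _ ⟨v, rfl⟩ hv
      exact hy v hv

theorem seq_coord {F : ℕ → Subgroup G} {D r : ℕ} {c : Fin r → G} {w : Fin r → ℕ}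
    (hA : Adapted F D c w) (h0 : F 0 = F 1) {g : ℤ → G} (hg : IsSeq F 0 g) (hg0 : g 0 = 1) :
    ∃ ga : Fin r → ℕ → ℤ, ∀ n : ℤ,
      g n = kap c (fun i => ∑ k ∈ Icc 1 (w i), ga i k * Ring.choose n k) := by
  classical
  have hf := isSeq_iff.1 hg
  obtain ⟨s, hs, -, hfs⟩ := coord hA (om := fun _ : Unit => 1) (fun _ => le_rfl) _ hf 0
    (fun x => by rw [zero_add, ← h0]; exact hf.val x) {Set.univ} (fun _ => 0)
    (fun _ => Submodule.zero_mem _) (fun _ _ => rfl) (by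
      intro S hS x hx
      rw [Set.mem_singleton_iff] at hS
      subst hS
      rw [hx () (Set.mem_univ _), hg0]
      exact (kap_zero c).symm)
  choose ga hga using fun i => WP_sq (hs i)
  refine ⟨ga, fun n => ?_⟩
  have h := hfs (fun _ => n)
  simp only [Pi.zero_apply, zero_add, hga] at h
  exact h

end Pool.Nil
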