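import Mathlib

set_option autoImplicit false

/-!
# Nil: the `L²` norm of `ENNReal` valued functions

PROOFS.  `n2_add`: `ENNReal.lintegral_Lp_add_le`.  `n2_tsum`: finite sums by `n2_add` and induction, then the
partial sums increase to the infinite sum: monotone convergence (`lintegral_iSup'`, `ENNReal.tsum_eq_iSup_nat`;
the map `t ↦ t ^ (1/2)` is a monotone bijection, or work with the squares:
`∫⁻ (∑' w j)^2 = ⨆ n, ∫⁻ (∑ j < n, w j)^2 ≤ (∑' n2 (w j))^2`).  `n2_iSup_le`: `(⨆ w j)^2 ≤ ∑' (w j)^2` pointwise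
and `lintegral_tsum`.  `n2_Lp`: `Lp.enorm_def`, `eLpNorm_eq_lintegral_rpow_enorm_toReal`.
-/

namespace Pool.Nil

open Finset MeasureTheory Filter Topology
open scoped ENNReal NNReal

variable {α : Type*} [MeasurableSpace α] {μ : Measure α}

/-- the `L²` norm of an `ENNReal` valued function -/
noncomputable def n2 (μ : Measure α) (w : α → ℝ≥0∞) : ℝ≥0∞ := (∫⁻ x, w x ^ 2 ∂μ) ^ (1 / 2 : ℝ)

lemma n2_sq (w : α → ℝ≥0∞) : n2 μ w ^ 2 = ∫⁻ x, w x ^ 2 ∂μ := by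
  rw [n2, ← ENNReal.rpow_natCast, ← ENNReal.rpow_mul]
  norm_num

lemma n2_le_iff (w : α → ℝ≥0∞) (B : ℝ≥0∞) : n2 μ w ≤ B ↔ ∫⁻ x, w x ^ 2 ∂μ ≤ B ^ 2 := by
  rw [← n2_sq]
  constructor
  · intro h
    gcongr
  · intro h
    exact (ENNReal.pow_le_pow_left_iff (by norm_num)).mp h

lemma n2_mono {w w' : α → ℝ≥0∞} (h : ∀ᵐ x ∂μ, w x ≤ w' x) : n2 μ w ≤ n2 μ w' := by
  rw [n2_le_iff, n2_sq]
  apply lintegral_mono_ae
  filter_upwards [h] with x hx
  gcongr

lemma n2_congr {w w' : α → ℝ≥0∞} (h : ∀ᵐ x ∂μ, w x = w' x) : n2 μ w = n2 μ w' := by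
  apply le_antisymm
  · exact n2_mono (h.mono fun x hx => hx.le)
  · exact n2_mono (h.mono fun x hx => hx.ge)

lemma n2_zero : n2 μ (fun _ : α => 0) = 0 := by
  rw [n2]
  simp

lemma n2_add {w w' : α → ℝ≥0∞} (hw : AEMeasurable w μ) (hw' : AEMeasurable w' μ) :
    n2 μ (fun x => w x + w' x) ≤ n2 μ w + n2 μ w' := by
  have h := ENNReal.lintegral_Lp_add_le (p := 2) hw hw' (by norm_num)
  simp only [n2]
  simpa only [Pi.add_apply, ENNReal.rpow_two] using h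

lemma n2_const_mul {c : ℝ≥0∞} (hc : c ≠ ∞) (w : α → ℝ≥0∞) :
    n2 μ (fun x => c * w x) = c * n2 μ w := by
  rw [n2, n2]
  simp only [mul_pow]
  rw [lintegral_const_mul' _ _ (ENNReal.pow_ne_top hc), ENNReal.mul_rpow_of_nonneg _ _ (by norm_num),
    ← ENNReal.rpow_natCast c 2, ← ENNReal.rpow_mul]
  norm_num

lemma n2_sum_le {ι : Type*} (s : Finset ι) {w : ι → α → ℝ≥0∞} (hw : ∀ i ∈ s, AEMeasurable (w i) μ) :
    n2 μ (fun x => ∑ i ∈ s, w i x) ≤ ∑ i ∈ s, n2 μ (w i) := by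
  classical
  induction s using Finset.induction_on with
  | empty => simp [n2_zero]
  | insert a s ha ih =>
    simp only [Finset.sum_insert ha]
    have h1 : AEMeasurable (fun x => ∑ i ∈ s, w i x) μ :=
      Finset.aemeasurable_fun_sum s fun i hi => hw i (Finset.mem_insert_of_mem hi)
    refine (n2_add (hw a (Finset.mem_insert_self a s)) h1).trans ?_
    gcongr
    exact ih fun i hi => hw i (Finset.mem_insert_of_mem hi)

lemma n2_tsum_le {w : ℕ → α → ℝ≥0∞} (hw : ∀ j, AEMeasurable (w j) μ) :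
    n2 μ (fun x => ∑' j, w j x) ≤ ∑' j, n2 μ (w j) := by
  rw [n2_le_iff]
  have h1 : ∀ x, (∑' j, w j x) ^ 2 = ⨆ n : ℕ, (∑ j ∈ range n, w j x) ^ 2 := by
    intro x
    rw [ENNReal.tsum_eq_iSup_nat, ENNReal.iSup_pow]
  simp only [h1]
  rw [lintegral_iSup']
  · apply iSup_le
    intro n
    rw [← n2_sq]
    have h2 := n2_sum_le (μ := μ) (range n) (w := w) (fun i _ => hw i)
    calc n2 μ (fun x => ∑ j ∈ range n, w j x) ^ 2 ≤ (∑ i ∈ range n, n2 μ (w i)) ^ 2 := by gcongr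
      _ ≤ (∑' j, n2 μ (w j)) ^ 2 := by
        gcongr
        exact ENNReal.sum_le_tsum _
  · intro n
    exact (Finset.aemeasurable_fun_sum _ fun i _ => hw i).pow_const 2
  · refine Eventually.of_forall fun x => ?_
    intro m n hmn
    dsimp only
    gcongr

lemma n2_iSup_le {w : ℕ → α → ℝ≥0∞} (hw : ∀ j, AEMeasurable (w j) μ) :
    n2 μ (fun x => ⨆ j, w j x) ^ 2 ≤ ∑' j, n2 μ (w j) ^ 2 := by
  rw [n2_sq]
  simp only [n2_sq]
  rw [← lintegral_tsum fun j => (hw j).pow_const 2]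
  apply lintegral_mono
  intro x
  dsimp only
  have h3 : (⨆ j, w j x) ^ 2 ≤ ⨆ j, w j x ^ 2 := (ENNReal.iSup_pow _ _).le
  refine h3.trans (iSup_le fun j => ?_)
  exact ENNReal.le_tsum j

lemma n2_Lp (f : Lp ℂ 2 μ) : n2 μ (fun x => ‖f x‖ₑ) = ‖f‖ₑ := by
  rw [Lp.enorm_def, eLpNorm_eq_lintegral_rpow_enorm_toReal (by norm_num) (by norm_num), n2]
  simp

lemma ae_zero_of_n2 {w : α → ℝ≥0∞} (hw : AEMeasurable w μ)
    (h : ∀ ε : ℝ, 0 < ε → n2 μ w ≤ ENNReal.ofReal ε) : ∀ᵐ x ∂μ, w x = 0 := by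
  have h0 : n2 μ w = 0 := by
    by_contra hne
    have hpos : 0 < n2 μ w := pos_iff_ne_zero.mpr hne
    have h1 := h 1 one_pos
    have hfin : n2 μ w ≠ ∞ := ne_top_of_le_ne_top ENNReal.ofReal_ne_top h1
    have h2 := h ((n2 μ w).toReal / 2) (by
      have := ENNReal.toReal_pos hne hfin
      linarith)
    rw [ENNReal.ofReal_div_of_pos (by norm_num), ENNReal.ofReal_toReal hfin] at h2
    have h3 : n2 μ w / ENNReal.ofReal 2 < n2 μ w := by
      have : ENNReal.ofReal 2 = 2 := by simp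
      rw [this]
      exact ENNReal.half_lt_self hne hfin
    exact absurd h2 (not_le.mpr h3)
  have h4 : ∫⁻ x, w x ^ 2 ∂μ = 0 := by
    rw [← n2_sq, h0]
    simp
  rw [lintegral_eq_zero_iff' (hw.pow_const 2)] at h4
  filter_upwards [h4] with x hx
  simpa using hx

lemma ae_lt_top_of_n2 {w : α → ℝ≥0∞} (hw : AEMeasurable w μ) (h : n2 μ w ≠ ∞) :
    ∀ᵐ x ∂μ, w x < ∞ := by
  have h4 : ∫⁻ x, w x ^ 2 ∂μ ≠ ∞ := by
    rw [← n2_sq]
    exact ENNReal.pow_ne_top h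
  filter_upwards [ae_lt_top' (hw.pow_const 2) h4] with x hx
  rw [lt_top_iff_ne_top] at hx ⊢
  intro hne
  apply hx
  rw [hne]
  simp

/-- composition with a measure preserving map -/
lemma n2_comp {w : α → ℝ≥0∞} (hw : AEMeasurable w μ) {τ : α → α} (hτ : MeasurePreserving τ μ μ) :
    n2 μ (fun x => w (τ x)) = n2 μ w := by
  rw [n2, n2]
  congr 1
  have h := hw.pow_const 2
  rw [← hτ.map_eq] at h
  have h2 := lintegral_map' h hτ.measurable.aemeasurable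
  rw [hτ.map_eq] at h2
  exact h2.symm

end Pool.Nil
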