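import Pool.Agent.Nil.Pack

set_option autoImplicit false

/-!
# Nil: orthogonality of scales and almost orthogonality of the blocks

PROOF of `opC`.  `lam = ls c s`, `M = N k / lam` (so `lam M ≥ 2^(k-1)`), `Q = Qs c s`, `X = 2^(j / (8c+8))` (real exponent).  If
`X < 2` use the trivial bound `2` and `C ≥ 4`.  Otherwise `inv_op` with `rho = lam M / X^c`, `Y = B2 Q (k-j) - B2 Q (k-j+1)`:
for `q ≤ X^c` put `Q' = q lam^c`, a multiple of `Q` (`Q ∣ md W D Q 1 ∣ lam`, `c ≥ 1`), `n = Q' / Q`.  For `l = k-j, k-j+1`: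
`B2 Q l` is within `K Q' / 2^l` of `Bj Q' 2^l * Ga Q n`, and `Bj Q' rho * Bj Q' 2^l` within `K 2^l / rho` of `Bj Q' rho`, so
`‖Bj Q' rho * Y‖ ≤ 2 K (Q' / 2^(k-j) + 2^(k-j+1) / rho)`, `2^(k-j+1) / rho ≤ 4 X^c 2^(-j)`; times `X^c`:
`X^(2c) 2^(-j) ≤ 2^(-3 j / 4) ≤ X⁻¹`, and `X^c Q' / 2^(k-j)` is exponentially small (`j ≤ Sp c i`, `ls_small`).
(`2^l ≤ rho` may fail for small `j`: then the claim is trivial with a suitable `C`.)

PROOF of `opAO`.  `E = 1 - B2 Q m`, `Q = Qs c i`, `m = 2^i / 2`, `A_k = Al (N k) 1`.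
`(Y_k1 - Y_k2) (Y_l1 - Y_l2)* = (A_k1 - A_k2) T`, `T = E E* (A_l1* - A_l2*)`, `‖T‖ ≤ 8`.  For `k = k1` and `k = k2` `inv_op` with
`X = 2^(4 i)`, `lam = 1`, `rho = 2^k / X^c`, `Y = T`: for `q ≤ X^c`, `Bj q rho` commutes with `E` and `E*` up to `K 2^m / rho`
(`comm`), and `‖Bj q rho * (A_l1* - A_l2*)‖ ≤ K (2^(l+1) / rho + q / N l1 + q / N l2)` (`resid3`, `l = max l1 l2`,
`l + Sp c i ≤ k`), `2^(l+1) / rho ≤ 2^(1 - (8c+10) i + 4 c i)`; times `X^c = 2^(4ci)`: at most `2^(1 - 10 i)`.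
-/

namespace Pool.Nil

open Finset

variable {G : Type*} [Group G] {H : Type*} [NormedAddCommGroup H] [InnerProductSpace ℂ H]
  [CompleteSpace H]

namespace OpCAux

set_option linter.unusedSectionVars false

lemma near {P B G' D : H →L[ℂ] H} (hP : ‖P‖ ≤ 1) (hG : ‖G'‖ ≤ 1) {a b : ℝ}
    (h1 : ‖B - D * G'‖ ≤ a) (h2 : ‖P * D - P‖ ≤ b) : ‖P * B - P * G'‖ ≤ a + b := by
  have e : P * B - P * G' = P * (B - D * G') + (P * D - P) * G' := by
    rw [mul_sub, sub_mul, mul_assoc]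
    abel
  have h3 : ‖P * (B - D * G')‖ ≤ a := by
    refine (norm_mul_le _ _).trans ?_
    calc ‖P‖ * ‖B - D * G'‖ ≤ 1 * ‖B - D * G'‖ := by gcongr
      _ ≤ a := by rw [one_mul]; exact h1
  have h4 : ‖(P * D - P) * G'‖ ≤ b := by
    refine (norm_mul_le _ _).trans ?_
    calc ‖P * D - P‖ * ‖G'‖ ≤ ‖P * D - P‖ * 1 := by gcongr
      _ ≤ b := by rw [mul_one]; exact h2
  rw [e]
  exact (norm_add_le _ _).trans (add_le_add h3 h4)

lemma norm_one_sub_le {B : H →L[ℂ] H} (hB : ‖B‖ ≤ 1) : ‖1 - B‖ ≤ 2 := by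
  have h : ‖(1 : H →L[ℂ] H)‖ ≤ 1 := ContinuousLinearMap.norm_id_le
  calc ‖1 - B‖ ≤ ‖(1 : H →L[ℂ] H)‖ + ‖B‖ := norm_sub_le _ _
    _ ≤ 2 := by linarith

lemma norm_sub_le_two {A B : H →L[ℂ] H} (hA : ‖A‖ ≤ 1) (hB : ‖B‖ ≤ 1) : ‖A - B‖ ≤ 2 := by
  calc ‖A - B‖ ≤ ‖A‖ + ‖B‖ := norm_sub_le _ _
    _ ≤ 2 := by linarith

/-- commuting `P` past `E E*` -/
lemma past {P E F D : H →L[ℂ] H} {a b : ℝ} (hE : ‖E‖ ≤ 2) (hF : ‖F‖ ≤ 2) (hD : ‖D‖ ≤ 2)
    (h1 : ‖P * E - E * P‖ ≤ a) (h2 : ‖P * F - F * P‖ ≤ a) (h3 : ‖P * D‖ ≤ b) :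
    ‖P * (E * (F * D))‖ ≤ 8 * a + 4 * b := by
  have e : P * (E * (F * D)) = (P * E - E * P) * (F * D) + E * ((P * F - F * P) * D) +
      E * (F * (P * D)) := by
    simp only [mul_sub, sub_mul, mul_assoc]
    abel
  have ha : 0 ≤ a := (norm_nonneg _).trans h1
  have hb : 0 ≤ b := (norm_nonneg _).trans h3
  have hFD : ‖F * D‖ ≤ 4 := by
    refine (norm_mul_le _ _).trans ?_
    nlinarith [norm_nonneg F, norm_nonneg D]
  have h4 : ‖(P * E - E * P) * (F * D)‖ ≤ 4 * a := by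
    refine (norm_mul_le _ _).trans ?_
    nlinarith [norm_nonneg (P * E - E * P), norm_nonneg (F * D)]
  have h5 : ‖(P * F - F * P) * D‖ ≤ 2 * a := by
    refine (norm_mul_le _ _).trans ?_
    nlinarith [norm_nonneg (P * F - F * P), norm_nonneg D]
  have h6 : ‖E * ((P * F - F * P) * D)‖ ≤ 4 * a := by
    refine (norm_mul_le _ _).trans ?_
    nlinarith [norm_nonneg E, norm_nonneg ((P * F - F * P) * D)]
  have h7 : ‖F * (P * D)‖ ≤ 2 * b := by
    refine (norm_mul_le _ _).trans ?_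
    nlinarith [norm_nonneg F, norm_nonneg (P * D)]
  have h8 : ‖E * (F * (P * D))‖ ≤ 4 * b := by
    refine (norm_mul_le _ _).trans ?_
    nlinarith [norm_nonneg E, norm_nonneg (F * (P * D))]
  rw [e]
  refine (norm_add_le _ _).trans ?_
  refine (add_le_add (norm_add_le _ _) le_rfl).trans ?_
  linarith

/-- facts on the real parameter `X` with `X ^ (8 c + 8) = 2 ^ j` -/
lemma xfacts {c j : ℕ} {X : ℝ} (hX : 2 ≤ X) (hXj : X ^ (8 * c + 8) = 2 ^ j) :
    4 * X ^ c ≤ 2 ^ j ∧ X ^ (2 * c + 1) ≤ 2 ^ j ∧ X ^ c ≤ 2 ^ j := by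
  have hX1 : 1 ≤ X := by linarith
  have h2 : X ^ c ≤ 2 ^ j := by
    rw [← hXj]
    exact pow_le_pow_right₀ hX1 (by omega)
  refine ⟨?_, ?_, h2⟩
  · have h3 : (4 : ℝ) ≤ X ^ 2 := by nlinarith
    calc 4 * X ^ c ≤ X ^ 2 * X ^ c := by gcongr
      _ = X ^ (2 + c) := by rw [pow_add]
      _ ≤ X ^ (8 * c + 8) := pow_le_pow_right₀ hX1 (by omega)
      _ = 2 ^ j := hXj
  · rw [← hXj]
    exact pow_le_pow_right₀ hX1 (by omega)

end OpCAux

open OpCAux

namespace Frame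

variable {g : ℤ → G} (fr : Frame g) (U : G →* (H ≃ₗᵢ[ℂ] H))

theorem opC {c : ℕ} {K : ℝ} (hP : fr.Pack U c K) : ∃ (C : ℝ) (i0 : ℕ), 0 < C ∧
    ∀ s i, i0 ≤ s → s ≤ i → ∀ N : ℕ → ℕ, Dy N → ∀ k, 2 ^ i ≤ k → k < 2 ^ (i + 1) →
    ∀ j, 1 ≤ j → j ≤ Sp c i →
    ‖Al U g (N k / fr.ls c s) (fr.ls c s) *
      (fr.B2 U (Qs c s) (k - j) - fr.B2 U (Qs c s) (k - j + 1))‖ ≤
      C * (2 : ℝ) ^ (-((j : ℝ) / (8 * c + 8))) := by
  have hc := hP.one_le_c
  have hK := hP.one_le_K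
  obtain ⟨i0, hi0⟩ := fr.ls_small c (4 * c + 4) hc
  refine ⟨10 * K + 4, max i0 1, by linarith, ?_⟩
  intro s i hs hsi N hN k hk hk' j hj1 hj
  have hs0 : i0 ≤ s := (le_max_left _ _).trans hs
  have hi1 : 1 ≤ i := ((le_max_right _ _).trans hs).trans hsi
  have hii0 : i0 ≤ i := hs0.trans hsi
  set lam := fr.ls c s with hlam
  set Q := Qs c s with hQ
  set M := N k / lam with hM
  set Y := fr.B2 U Q (k - j) - fr.B2 U Q (k - j + 1) with hYdef
  have hYn : ‖Y‖ ≤ 2 := norm_sub_le_two (fr.norm_B2_le U _ _) (fr.norm_B2_le U _ _)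
  have hAl : ‖Al U g M lam‖ ≤ 1 := norm_Al_le U g M lam
  have htriv : ‖Al U g M lam * Y‖ ≤ 2 := by
    refine (norm_mul_le _ _).trans ?_
    nlinarith [norm_nonneg (Al U g M lam), norm_nonneg Y]
  set X : ℝ := (2 : ℝ) ^ ((j : ℝ) / (8 * c + 8)) with hX
  have hX0 : 0 < X := Real.rpow_pos_of_pos (by norm_num) _
  have hXinv : (2 : ℝ) ^ (-((j : ℝ) / (8 * c + 8))) = X⁻¹ := by
    rw [Real.rpow_neg (by norm_num)]
  have hXj : X ^ (8 * c + 8) = 2 ^ j := by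
    rw [hX, ← Real.rpow_natCast, ← Real.rpow_mul (by norm_num), ← Real.rpow_natCast]
    congr 1
    push_cast
    field_simp
  rw [hXinv]
  rcases lt_or_ge X 2 with hX2 | hX2
  · refine htriv.trans ?_
    have h1 : (1 : ℝ) / 2 ≤ X⁻¹ := by
      rw [one_div]
      exact inv_anti₀ hX0 hX2.le
    nlinarith
  -- sizes
  obtain ⟨hx1, hx2, hx3⟩ := xfacts hX2 hXj
  have hX1 : 1 ≤ X := by linarith
  obtain ⟨hl1, -, -⟩ := hi0 s hs0
  obtain ⟨-, -, hl3⟩ := hi0 i hii0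
  set E : ℕ := 2 ^ i / 16 with hE
  have hEs : 2 ^ s / 16 ≤ E := Nat.div_le_div_right (Nat.pow_le_pow_right (by norm_num) hsi)
  have hlampos : 1 ≤ lam := fr.ls_pos c s
  have hlamA : lam ^ (4 * c + 4) ≤ 2 ^ E := hl1.trans (Nat.pow_le_pow_right (by norm_num) hEs)
  have hSpA : (4 * c + 4) * Sp c i ≤ E := (Nat.pow_le_pow_iff_right (by norm_num)).1 hl3
  have hE2 : 16 * E ≤ 2 ^ i := by rw [hE]; exact Nat.mul_div_le _ _
  have h2i : 2 ≤ 2 ^ i := by
    calc 2 = 2 ^ 1 := rfl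
      _ ≤ 2 ^ i := Nat.pow_le_pow_right (by norm_num) hi1
  have hjE : (4 * c + 4) * j ≤ E := (Nat.mul_le_mul_left _ hj).trans hSpA
  have hj8 : 8 * j ≤ E := by nlinarith
  have hjk : j ≤ k := by omega
  have hk1 : 1 ≤ k := by omega
  obtain ⟨hN1, hN2⟩ := hN k
  have hlamE : lam ≤ 2 ^ E := (Nat.le_self_pow (by omega) _).trans hlamA
  have hlamM : 2 ^ (k - 1) ≤ lam * M := by
    have h1 : lam * M + N k % lam = N k := Nat.div_add_mod _ _
    have h2 : N k % lam < lam := Nat.mod_lt _ (by omega)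
    have h3 : 2 ^ E ≤ 2 ^ (k - 1) := Nat.pow_le_pow_right (by norm_num) (by omega)
    have h4 : 2 ^ k = 2 ^ (k - 1) + 2 ^ (k - 1) := by
      obtain ⟨k', rfl⟩ : ∃ k', k = k' + 1 := ⟨k - 1, by omega⟩
      rw [Nat.add_sub_cancel, pow_succ]
      ring
    omega
  have hlamMR : (2 : ℝ) ^ (k - 1) ≤ lam * M := by exact_mod_cast hlamM
  have hlamR : (1 : ℝ) ≤ lam := by exact_mod_cast hlampos
  have hlamAR : (lam : ℝ) ^ (4 * c + 4) ≤ 2 ^ E := by exact_mod_cast hlamA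
  have hlamc : (lam : ℝ) ^ c ≤ 2 ^ E :=
    (pow_le_pow_right₀ hlamR (by omega)).trans hlamAR
  have hlamc1 : (lam : ℝ) ^ (c + 1) ≤ 2 ^ E :=
    (pow_le_pow_right₀ hlamR (by omega)).trans hlamAR
  have hXcE : X ^ c ≤ 2 ^ E := hx3.trans (pow_le_pow_right₀ (by norm_num) (by omega))
  have hXc1 : 1 ≤ X ^ c := one_le_pow₀ hX1
  have hXc0 : 0 < X ^ c := by positivity
  have h2k : (2 : ℝ) ^ E * 2 ^ E ≤ 2 ^ (k - 1) := by
    rw [← pow_add]
    exact pow_le_pow_right₀ (by norm_num) (by omega)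
  set rho : ℝ := lam * M / X ^ c with hrho
  have hrhoX : rho * X ^ c = lam * M := by
    rw [hrho]
    field_simp
  have hMc : ((lam : ℝ) * X) ^ c ≤ M := by
    have h1 : (lam : ℝ) * ((lam : ℝ) * X) ^ c ≤ lam * M := by
      calc (lam : ℝ) * ((lam : ℝ) * X) ^ c = (lam : ℝ) ^ (c + 1) * X ^ c := by
            rw [mul_pow, pow_succ]; ring
        _ ≤ 2 ^ E * 2 ^ E := by gcongr
        _ ≤ 2 ^ (k - 1) := h2k
        _ ≤ lam * M := hlamMR
    exact le_of_mul_le_mul_left h1 (by linarith)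
  have hrho1 : 1 ≤ rho := by
    rw [hrho, le_div_iff₀ hXc0, one_mul]
    calc X ^ c ≤ 1 * 2 ^ E := by rw [one_mul]; exact hXcE
      _ ≤ 2 ^ E * 2 ^ E := by
          gcongr
          exact one_le_pow₀ (by norm_num)
      _ ≤ lam * M := h2k.trans hlamMR
  have hrho0 : 0 < rho := by linarith
  -- powers of two
  have hpk : (2 : ℝ) ^ (k - j) * 2 ^ j = 2 ^ k := by
    rw [← pow_add]
    congr 1
    omega
  have hpk1 : (2 : ℝ) ^ k = 2 * 2 ^ (k - 1) := by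
    rw [← pow_succ']
    congr 1
    omega
  have hlrho : (2 : ℝ) ^ (k - j + 1) ≤ rho := by
    rw [hrho, le_div_iff₀ hXc0]
    refine le_trans ?_ hlamMR
    have h1 : (2 : ℝ) ^ (k - j + 1) * X ^ c * 2 = (2 : ℝ) ^ (k - j) * (4 * X ^ c) := by
      rw [pow_succ]; ring
    have h2 : (2 : ℝ) ^ (k - j) * (4 * X ^ c) ≤ 2 ^ k := by
      rw [← hpk]
      gcongr
    linarith
  have hlrho' : (2 : ℝ) ^ (k - j) ≤ rho :=
    (pow_le_pow_right₀ (by norm_num) (Nat.le_succ _)).trans hlrho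
  have hrhoinv : (2 : ℝ) ^ (k - j + 1) / rho ≤ 4 * X ^ c / 2 ^ j := by
    rw [div_le_div_iff₀ hrho0 (by positivity)]
    have h1 : (2 : ℝ) ^ (k - j + 1) * 2 ^ j = 4 * 2 ^ (k - 1) := by
      rw [pow_succ, mul_right_comm, hpk, hpk1]
      ring
    rw [h1]
    calc 4 * (2 : ℝ) ^ (k - 1) ≤ 4 * (lam * M) := by linarith
      _ = 4 * X ^ c * rho := by rw [← hrhoX]; ring
  set del : ℝ := 2 * K * ((X * lam) ^ c / 2 ^ (k - j) + 4 * X ^ c / 2 ^ j) with hdel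
  have hdel0 : 0 ≤ del := by positivity
  have hQdvd : Q ∣ lam ^ c := by
    have h1 : Q ∣ lam := by
      rw [hlam, hQ]
      unfold ls
      exact (Dvd.intro_left _ rfl).mul_right _
    exact h1.trans (dvd_pow_self _ (by omega))
  have hQpos : 1 ≤ Q := Qs_pos c s
  have key := Pack.inv_op fr U hP (X := X) (lam := lam) (M := M) hX2 hlampos hMc Y (rho := rho)
    (del := del) hrho1 (le_of_eq hrhoX) hdel0 (by
      intro q hq1 hqX
      obtain ⟨n, hn⟩ : Q ∣ q * lam ^ c := hQdvd.mul_left _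
      have hn1 : 1 ≤ n := by
        rcases Nat.eq_zero_or_pos n with h0 | h0
        · rw [h0, mul_zero] at hn
          have : 0 < q * lam ^ c := Nat.mul_pos (by omega) (Nat.pow_pos (by omega))
          omega
        · exact h0
      rw [hn]
      set P := fr.Bj U 0 (Q * n) rho with hPdef
      have hPn : ‖P‖ ≤ 1 := fr.norm_Bj_le U _ _ _
      have hQn : 1 ≤ Q * n := Nat.mul_pos hQpos hn1
      have hQnR : ((Q : ℝ) * n) ≤ (X * lam) ^ c := by
        have h1 : ((Q : ℝ) * n) = q * (lam : ℝ) ^ c := by exact_mod_cast hn.symm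
        rw [h1, mul_pow]
        gcongr
      have hnear : ∀ l : ℕ, (2 : ℝ) ^ l ≤ rho →
          ‖P * fr.B2 U Q l - P * fr.Ga U Q n‖ ≤
            K * ((Q : ℝ) * n / 2 ^ l) + K * ((2 : ℝ) ^ l / rho) := by
        intro l hl
        have h2l : (1 : ℝ) ≤ 2 ^ l := one_le_pow₀ (by norm_num)
        exact near hPn (fr.norm_Ga_le U _ _) (hP.coset Q n ((2 : ℝ) ^ l) hQpos hn1 h2l)
          (hP.absorb (Q * n) (Q * n) rho ((2 : ℝ) ^ l) hQn hQn dvd_rfl h2l hl).1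
      have e : P * Y = (P * fr.B2 U Q (k - j) - P * fr.Ga U Q n) -
          (P * fr.B2 U Q (k - j + 1) - P * fr.Ga U Q n) := by
        rw [hYdef, mul_sub]
        abel
      rw [e]
      refine (norm_sub_le _ _).trans ?_
      refine (add_le_add (hnear _ hlrho') (hnear _ hlrho)).trans ?_
      have hK0 : 0 ≤ K := by linarith
      have hpos : (0 : ℝ) < 2 ^ (k - j) := by positivity
      have h1 : (Q : ℝ) * n / 2 ^ (k - j) ≤ (X * lam) ^ c / 2 ^ (k - j) := by gcongr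
      have h2 : (Q : ℝ) * n / 2 ^ (k - j + 1) ≤ (X * lam) ^ c / 2 ^ (k - j) := by
        have h3 : (2 : ℝ) ^ (k - j) ≤ 2 ^ (k - j + 1) :=
          pow_le_pow_right₀ (by norm_num) (Nat.le_succ _)
        gcongr
      have h3 : (2 : ℝ) ^ (k - j) / rho ≤ 4 * X ^ c / 2 ^ j := by
        refine le_trans ?_ hrhoinv
        have h4 : (2 : ℝ) ^ (k - j) ≤ 2 ^ (k - j + 1) :=
          pow_le_pow_right₀ (by norm_num) (Nat.le_succ _)
        gcongr
      have h1' := mul_le_mul_of_nonneg_left h1 hK0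
      have h2' := mul_le_mul_of_nonneg_left h2 hK0
      have h3' := mul_le_mul_of_nonneg_left h3 hK0
      have h4' := mul_le_mul_of_nonneg_left hrhoinv hK0
      rw [hdel]
      linarith)
  refine key.trans ?_
  have hXi : 0 < X⁻¹ := inv_pos.2 hX0
  have h1 : X⁻¹ * ‖Y‖ ≤ 2 * X⁻¹ := by nlinarith
  have h2 : X ^ c * ((X * lam) ^ c / 2 ^ (k - j)) ≤ X⁻¹ := by
    have h3 : X ^ (2 * c + 1) * (lam : ℝ) ^ c ≤ 2 ^ (k - j) := by
      have h4 : (2 : ℝ) ^ j * 2 ^ E ≤ 2 ^ (k - j) := by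
        rw [← pow_add]
        exact pow_le_pow_right₀ (by norm_num) (by omega)
      refine le_trans ?_ h4
      gcongr
    rw [← mul_div_assoc, div_le_iff₀ (by positivity), inv_mul_eq_div, le_div_iff₀ hX0]
    refine le_trans (le_of_eq ?_) h3
    rw [mul_pow, pow_succ, two_mul, pow_add]
    ring
  have h3 : X ^ c * (4 * X ^ c / 2 ^ j) ≤ 4 * X⁻¹ := by
    rw [← mul_div_assoc, div_le_iff₀ (by positivity), mul_assoc, inv_mul_eq_div]
    have h4 : X ^ c * X ^ c ≤ 2 ^ j / X := by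
      rw [le_div_iff₀ hX0]
      refine le_trans (le_of_eq ?_) hx2
      rw [pow_succ, two_mul, pow_add]
    nlinarith
  have h4 : X ^ c * del = 2 * K * (X ^ c * ((X * lam) ^ c / 2 ^ (k - j)) +
      X ^ c * (4 * X ^ c / 2 ^ j)) := by
    rw [hdel]; ring
  rw [h4]
  have h5 : 2 * K * (X ^ c * ((X * lam) ^ c / 2 ^ (k - j)) +
      X ^ c * (4 * X ^ c / 2 ^ j)) ≤ 2 * K * (X⁻¹ + 4 * X⁻¹) := by
    gcongr
  nlinarith

theorem opAO {c : ℕ} {K : ℝ} (hP : fr.Pack U c K) : ∃ (C : ℝ) (i0 : ℕ), 0 < C ∧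
    ∀ i, i0 ≤ i → ∀ N : ℕ → ℕ, Dy N → ∀ k1 k2 l1 l2, 2 ^ i ≤ l1 → 2 ^ i ≤ l2 →
    k1 ≤ 2 ^ (i + 1) → k2 ≤ 2 ^ (i + 1) → l1 + Sp c i ≤ k1 → l2 + Sp c i ≤ k1 →
    l1 + Sp c i ≤ k2 → l2 + Sp c i ≤ k2 →
    ‖((Al U g (N k1) 1 - Al U g (N k2) 1) * (1 - fr.B2 U (Qs c i) (2 ^ i / 2))) *
      ContinuousLinearMap.adjoint
        ((Al U g (N l1) 1 - Al U g (N l2) 1) * (1 - fr.B2 U (Qs c i) (2 ^ i / 2)))‖ ≤
      C * ((2 : ℝ) ^ (4 * i))⁻¹ := by
  have hc := hP.one_le_c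
  have hK := hP.one_le_K
  obtain ⟨i0, hi0⟩ := fr.ls_small c 1 hc
  refine ⟨48 * K + 16, max i0 1, by linarith, ?_⟩
  intro i hi N hN k1 k2 l1 l2 hl1 hl2 _ _ h11 h21 h12 h22
  have hi1 : 1 ≤ i := (le_max_right _ _).trans hi
  have hii0 : i0 ≤ i := (le_max_left _ _).trans hi
  set Q := Qs c i with hQ
  set m := 2 ^ i / 2 with hm
  set E : H →L[ℂ] H := 1 - fr.B2 U Q m with hE
  set D : H →L[ℂ] H := ContinuousLinearMap.adjoint (Al U g (N l1) 1) -
    ContinuousLinearMap.adjoint (Al U g (N l2) 1) with hD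
  set F : H →L[ℂ] H := ContinuousLinearMap.adjoint E with hF
  have hEn : ‖E‖ ≤ 2 := norm_one_sub_le (fr.norm_B2_le U _ _)
  have hFn : ‖F‖ ≤ 2 := by
    rw [hF, LinearIsometryEquiv.norm_map]
    exact hEn
  have hDn : ‖D‖ ≤ 2 := by
    rw [hD, ← map_sub, LinearIsometryEquiv.norm_map]
    exact norm_sub_le_two (norm_Al_le U g _ _) (norm_Al_le U g _ _)
  have hadj : ContinuousLinearMap.adjoint ((Al U g (N l1) 1 - Al U g (N l2) 1) * E) = F * D := by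
    rw [hF, hD, ← map_sub]
    simp only [← ContinuousLinearMap.star_eq_adjoint]
    rw [star_mul]
  set T : H →L[ℂ] H := E * (F * D) with hT
  have hTn : ‖T‖ ≤ 8 := by
    have h1 : ‖F * D‖ ≤ 4 := by
      refine (norm_mul_le _ _).trans ?_
      nlinarith [norm_nonneg F, norm_nonneg D]
    refine (norm_mul_le _ _).trans ?_
    nlinarith [norm_nonneg E, norm_nonneg (F * D)]
  have hsplit : (Al U g (N k1) 1 - Al U g (N k2) 1) * E *
      ContinuousLinearMap.adjoint ((Al U g (N l1) 1 - Al U g (N l2) 1) * E) =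
      Al U g (N k1) 1 * T - Al U g (N k2) 1 * T := by
    rw [hadj, hT, mul_assoc, sub_mul]
  rw [hsplit]
  -- sizes
  obtain ⟨-, -, hSp⟩ := hi0 i hii0
  rw [one_mul] at hSp
  have hSp' : Sp c i ≤ 2 ^ i / 16 := (Nat.pow_le_pow_iff_right (by norm_num)).1 hSp
  have hE2 : 16 * (2 ^ i / 16) ≤ 2 ^ i := Nat.mul_div_le _ _
  have hSpE : Sp c i = (8 * c + 10) * i := rfl
  set e : ℕ := c * i with he
  have hSpe : Sp c i = 8 * e + 10 * i := by rw [hSpE, he]; ring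
  set l := max l1 l2 with hl
  have hml : m ≤ l := by
    have h1 : m ≤ 2 ^ i := Nat.div_le_self _ _
    exact h1.trans (hl1.trans (le_max_left _ _))
  have h16 : 16 * (8 * e + 10 * i) ≤ 2 ^ i := by
    rw [← hSpe]
    exact (Nat.mul_le_mul_left _ hSp').trans hE2
  have hK0 : 0 ≤ K := by linarith
  have main : ∀ k : ℕ, l1 + Sp c i ≤ k → l2 + Sp c i ≤ k →
      ‖Al U g (N k) 1 * T‖ ≤ (24 * K + 8) * ((2 : ℝ) ^ (4 * i))⁻¹ := by
    intro k hk1 hk2
    have hlk : l + Sp c i ≤ k := by omega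
    have hX2 : (2 : ℝ) ≤ 2 ^ (4 * i) := by
      calc (2 : ℝ) = 2 ^ 1 := (pow_one _).symm
        _ ≤ 2 ^ (4 * i) := pow_le_pow_right₀ (by norm_num) (by omega)
    have hXc : ((2 : ℝ) ^ (4 * i)) ^ c = 2 ^ (4 * e) := by
      rw [← pow_mul]
      congr 1
      rw [he]
      ring
    obtain ⟨hN1, hN2⟩ := hN k
    have hN1R : (2 : ℝ) ^ k ≤ N k := by exact_mod_cast hN1
    have h2i : 2 ^ i ≤ l := hl1.trans (le_max_left _ _)
    have hek : 4 * e ≤ k := by omega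
    set rho : ℝ := 2 ^ (k - 4 * e) with hrho
    have hrho1 : 1 ≤ rho := one_le_pow₀ (by norm_num)
    have hrho0 : 0 < rho := by linarith
    have hrhoX : rho * ((2 : ℝ) ^ (4 * i)) ^ c ≤ ((1 : ℕ) : ℝ) * N k := by
      rw [hXc, hrho, ← pow_add, Nat.sub_add_cancel hek, Nat.cast_one, one_mul]
      exact hN1R
    have hlrho : (2 : ℝ) ^ l / rho ≤ (2 ^ (4 * e + 10 * i))⁻¹ := by
      rw [div_le_iff₀ hrho0, inv_mul_eq_div, le_div_iff₀ (by positivity), ← pow_add, hrho]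
      exact pow_le_pow_right₀ (by norm_num) (by omega)
    have hp1 : (1 : ℝ) ≤ 2 ^ (4 * e + 10 * i) := one_le_pow₀ (by norm_num)
    have hlrho1 : (2 : ℝ) ^ l ≤ rho := by
      have h1 : (2 : ℝ) ^ l / rho ≤ 1 := hlrho.trans (inv_le_one_of_one_le₀ hp1)
      rwa [div_le_one hrho0] at h1
    have hmrho : (2 : ℝ) ^ m ≤ rho :=
      (pow_le_pow_right₀ (by norm_num) hml).trans hlrho1
    have hmrho' : (2 : ℝ) ^ m / rho ≤ (2 ^ (4 * e + 10 * i))⁻¹ := by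
      refine le_trans ?_ hlrho
      have h1 : (2 : ℝ) ^ m ≤ 2 ^ l := pow_le_pow_right₀ (by norm_num) hml
      gcongr
    set del : ℝ := 8 * (K * (2 ^ (4 * e + 10 * i))⁻¹) +
      4 * (K * (2 * (2 ^ (4 * e + 10 * i))⁻¹ + 2 * (2 ^ (4 * e + 10 * i))⁻¹)) with hdel
    have hdel0 : 0 ≤ del := by positivity
    have key := Pack.inv_op fr U hP (X := (2 : ℝ) ^ (4 * i)) (lam := 1) (M := N k) hX2 le_rfl
      (by
        rw [Nat.cast_one, one_mul, hXc]
        exact (pow_le_pow_right₀ (by norm_num) hek).trans hN1R) T (rho := rho) (del := del)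
      hrho1 hrhoX hdel0 (by
        intro q hq1 hqX
        rw [one_pow, mul_one]
        rw [hXc] at hqX
        set P := fr.Bj U 0 q rho with hP'
        have hm1 : (1 : ℝ) ≤ 2 ^ m := one_le_pow₀ (by norm_num)
        obtain ⟨hc1, hc2⟩ := hP.comm q Q rho ((2 : ℝ) ^ m) hq1 (Qs_pos c i) hm1 hmrho
        have hb0 : K * ((2 : ℝ) ^ m / rho) ≤ K * (2 ^ (4 * e + 10 * i))⁻¹ :=
          mul_le_mul_of_nonneg_left hmrho' hK0
        have hP1 : ‖P * E - E * P‖ ≤ K * (2 ^ (4 * e + 10 * i))⁻¹ := by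
          have e1 : P * E - E * P = -(P * fr.B2 U Q m - fr.B2 U Q m * P) := by
            rw [hE, mul_sub, sub_mul, mul_one, one_mul]
            abel
          rw [e1, norm_neg]
          exact hc1.trans hb0
        have hP2 : ‖P * F - F * P‖ ≤ K * (2 ^ (4 * e + 10 * i))⁻¹ := by
          have e2 : F = 1 - ContinuousLinearMap.adjoint (fr.B2 U Q m) := by
            rw [hF, hE, map_sub]
            congr 1
            rw [← ContinuousLinearMap.star_eq_adjoint, star_one]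
          have e1 : P * F - F * P = -(P * ContinuousLinearMap.adjoint (fr.B2 U Q m) -
              ContinuousLinearMap.adjoint (fr.B2 U Q m) * P) := by
            rw [e2, mul_sub, sub_mul, mul_one, one_mul]
            abel
          rw [e1, norm_neg]
          exact hc2.trans hb0
        have hPD : ‖P * D‖ ≤
            K * (2 * (2 ^ (4 * e + 10 * i))⁻¹ + 2 * (2 ^ (4 * e + 10 * i))⁻¹) := by
          obtain ⟨ha1, ha2⟩ := hN l1
          obtain ⟨hb1, hb2⟩ := hN l2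
          have hpl1 : 0 < 2 ^ l1 := by positivity
          have hpl2 : 0 < 2 ^ l2 := by positivity
          have hle1 : 2 ^ (l1 + 1) ≤ 2 ^ (l + 1) :=
            Nat.pow_le_pow_right (by norm_num) (by omega)
          have hle2 : 2 ^ (l2 + 1) ≤ 2 ^ (l + 1) :=
            Nat.pow_le_pow_right (by norm_num) (by omega)
          have h1 := hP.resid3 q (N l1) (N l2) (2 ^ (l + 1)) rho hq1 (by omega) (by omega)
            (by omega) (by omega) hrho1
          refine h1.trans (mul_le_mul_of_nonneg_left ?_ hK0)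
          have h2 : (((2 ^ (l + 1) : ℕ) : ℝ)) / rho ≤ 2 * (2 ^ (4 * e + 10 * i))⁻¹ := by
            push_cast
            rw [pow_succ, mul_comm, mul_div_assoc]
            linarith
          have hq : ∀ l' : ℕ, 2 ^ i ≤ l' → (q : ℝ) / N l' ≤ (2 ^ (4 * e + 10 * i))⁻¹ := by
            intro l' hl'
            have h3 : (2 : ℝ) ^ l' ≤ N l' := by exact_mod_cast (hN l').1
            have h4 : (0 : ℝ) < N l' := lt_of_lt_of_le (by positivity) h3
            rw [div_le_iff₀ h4, inv_mul_eq_div, le_div_iff₀ (by positivity)]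
            calc (q : ℝ) * 2 ^ (4 * e + 10 * i) ≤ 2 ^ (4 * e) * 2 ^ (4 * e + 10 * i) := by
                  gcongr
              _ = 2 ^ (4 * e + (4 * e + 10 * i)) := by rw [← pow_add]
              _ ≤ 2 ^ l' := pow_le_pow_right₀ (by norm_num) (by omega)
              _ ≤ N l' := h3
          have h3 := hq l1 hl1
          have h4 := hq l2 hl2
          linarith
        exact past hEn hFn hDn hP1 hP2 hPD)
    refine key.trans ?_
    rw [hXc]
    have hXi : 0 < ((2 : ℝ) ^ (4 * i))⁻¹ := by positivity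
    have h1 : ((2 : ℝ) ^ (4 * i))⁻¹ * ‖T‖ ≤ 8 * ((2 : ℝ) ^ (4 * i))⁻¹ := by nlinarith
    have h2 : (2 : ℝ) ^ (4 * e) * (2 ^ (4 * e + 10 * i))⁻¹ ≤ ((2 : ℝ) ^ (4 * i))⁻¹ := by
      rw [pow_add, mul_inv, ← mul_assoc, mul_inv_cancel₀ (by positivity), one_mul]
      exact inv_anti₀ (by positivity) (pow_le_pow_right₀ (by norm_num) (by omega))
    have h3 : (2 : ℝ) ^ (4 * e) * del = 24 * K * ((2 : ℝ) ^ (4 * e) *
        (2 ^ (4 * e + 10 * i))⁻¹) := by
      rw [hdel]; ring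
    rw [h3]
    have h4 : 24 * K * ((2 : ℝ) ^ (4 * e) * (2 ^ (4 * e + 10 * i))⁻¹) ≤
        24 * K * ((2 : ℝ) ^ (4 * i))⁻¹ := mul_le_mul_of_nonneg_left h2 (by positivity)
    linarith
  refine (norm_sub_le _ _).trans ?_
  have h1 := main k1 h11 h21
  have h2 := main k2 h12 h22
  linarith

end Frame

end Pool.Nil
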