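import Pool.Agent.Nil.Rep

set_option autoImplicit false

/-!
# Nil: the operators and parameters of the pointwise argument

`Al M lam` : average of `g (lam m)`, `m < M`; `Ga Q n` : average over the coordinates `mo Q i * t i`,
`0 ≤ t i < n`; `Bj 0 Q R` the box averages, `B2 Q k = Bj 0 Q (2^k)`.

Parameters (`c` is the exponent of the inverse theorem, the block `i` consists of the scales
`k ∈ [2^i, 2^(i+1))`): moduli `Qs c i = (2^(c (i / (4c))))!`, steps `ls c i = W^D * Qs c i * 2^((4c+4) i)`,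
separation `Sp c i = (8c+10) i`, `rr c k = k - Sp c (log2 k)`.

PROOFS of the parameter lemmas: `n ! ≤ n ^ n`, so with `v = c (i / (4c)) ≤ i / 4`,
`Qs c i ≤ (2^v)^(2^v) = 2^(v 2^v) ≤ 2^(2^(i/2 + 1))`-like bounds; everything is dominated by `2^(2^i / A)` for
`i ≥ i0(A)`.  `Qs_dvd`: `a ! ∣ b !` for `a ≤ b`.
-/

namespace Pool.Nil

open Finset

variable {G : Type*} [Group G] {H : Type*} [NormedAddCommGroup H] [InnerProductSpace ℂ H]
  [CompleteSpace H]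

/-- averages of `g (lam m)`, `m < M` -/
noncomputable def Al (U : G →* (H ≃ₗᵢ[ℂ] H)) (g : ℤ → G) (M lam : ℕ) : H →L[ℂ] H :=
  avg (range M) (fun m : ℕ => Uo U (g (lam * m)))

lemma norm_Al_le (U : G →* (H ≃ₗᵢ[ℂ] H)) (g : ℤ → G) (M lam : ℕ) : ‖Al U g M lam‖ ≤ 1 := by
  unfold Al
  exact norm_avg_le_const zero_le_one fun _ _ => norm_Uo_le U _

/-- sequences of lengths with `2^k ≤ N k < 2^(k+1)` -/
def Dy (N : ℕ → ℕ) : Prop := ∀ k, 2 ^ k ≤ N k ∧ N k < 2 ^ (k + 1)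

/-- moduli -/
def Qs (c i : ℕ) : ℕ := (2 ^ (c * (i / (4 * c)))).factorial

/-- separation -/
def Sp (c i : ℕ) : ℕ := (8 * c + 10) * i

/-- the scale `k - Sp` -/
def rr (c k : ℕ) : ℕ := k - Sp c (Nat.log 2 k)

lemma Qs_pos (c i : ℕ) : 1 ≤ Qs c i := Nat.factorial_pos _

lemma Qs_dvd (c : ℕ) {i i' : ℕ} (h : i ≤ i') : Qs c i ∣ Qs c i' := by
  apply Nat.factorial_dvd_factorial
  apply Nat.pow_le_pow_right (by norm_num)
  exact Nat.mul_le_mul_left _ (Nat.div_le_div_right h)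

/-- all `q ≤ 2^(c (i / (4c)))` divide `Qs c i` -/
lemma dvd_Qs (c i q : ℕ) (hq : 1 ≤ q) (h : q ≤ 2 ^ (c * (i / (4 * c)))) : q ∣ Qs c i :=
  Nat.dvd_factorial hq h

namespace OpDefsAux

lemma main (K i : ℕ) (hi : 16 * K + 16 ≤ i) : K * (i + 1) * 2 ^ (i / 2) ≤ 2 ^ i := by
  have h1 : i / 2 / 2 < 2 ^ (i / 2 / 2) := Nat.lt_two_pow_self
  have h2 : 2 ^ (i / 2 / 2) * 2 ^ (i / 2 / 2) ≤ 2 ^ (i / 2) := by
    rw [← pow_add]
    exact Nat.pow_le_pow_right (by norm_num) (by omega)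
  have h3 : K * (i + 1) ≤ 2 ^ (i / 2) := by
    refine le_trans ?_ h2
    have h4 : i + 1 ≤ 4 * (i / 2 / 2 + 1) := by omega
    have h5 : 4 * K ≤ i / 2 / 2 + 1 := by omega
    calc K * (i + 1) ≤ K * (4 * (i / 2 / 2 + 1)) := Nat.mul_le_mul_left _ h4
      _ = 4 * K * (i / 2 / 2 + 1) := by ring
      _ ≤ (i / 2 / 2 + 1) * (i / 2 / 2 + 1) := Nat.mul_le_mul_right _ h5
      _ ≤ 2 ^ (i / 2 / 2) * 2 ^ (i / 2 / 2) := Nat.mul_le_mul (by omega) (by omega)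
  calc K * (i + 1) * 2 ^ (i / 2) ≤ 2 ^ (i / 2) * 2 ^ (i / 2) := Nat.mul_le_mul_right _ h3
    _ = 2 ^ (i / 2 + i / 2) := by rw [pow_add]
    _ ≤ 2 ^ i := Nat.pow_le_pow_right (by norm_num) (by omega)

lemma Qs_le (c i : ℕ) : Qs c i ≤ 2 ^ (i * 2 ^ (i / 2)) := by
  have h0 : 4 * (c * (i / (4 * c))) ≤ i := by
    rw [← mul_assoc]
    exact Nat.mul_div_le i (4 * c)
  unfold Qs
  refine (Nat.factorial_le_pow _).trans ?_
  rw [← pow_mul]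
  apply Nat.pow_le_pow_right (by norm_num)
  exact Nat.mul_le_mul (by omega) (Nat.pow_le_pow_right (by norm_num) (by omega))

end OpDefsAux

namespace Frame

variable {g : ℤ → G} (fr : Frame g) (U : G →* (H ≃ₗᵢ[ℂ] H))

noncomputable def B2 (Q k : ℕ) : H →L[ℂ] H := fr.Bj U 0 Q ((2 : ℝ) ^ k)

/-- coset average -/
noncomputable def Ga (Q n : ℕ) : H →L[ℂ] H :=
  avg (Fintype.piFinset fun _ : Fin fr.r => Ico 0 (n : ℤ))
    (fun t => Uo U (kap fr.c (fun i => (fr.mo Q i : ℤ) * t i)))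

/-- steps -/
def ls (c i : ℕ) : ℕ := fr.W ^ fr.D * Qs c i * 2 ^ ((4 * c + 4) * i)

lemma norm_B2_le (Q k : ℕ) : ‖fr.B2 U Q k‖ ≤ 1 := norm_BM_le _ _ _ _

lemma norm_Ga_le (Q n : ℕ) : ‖fr.Ga U Q n‖ ≤ 1 := by
  unfold Ga
  exact norm_avg_le_const zero_le_one fun _ _ => norm_Uo_le U _

lemma ls_pos (c i : ℕ) : 1 ≤ fr.ls c i := by
  have h1 : 0 < fr.W := fr.W_pos
  have h2 : 0 < Qs c i := Qs_pos c i
  unfold ls
  exact Nat.mul_pos (Nat.mul_pos (Nat.pow_pos h1) h2) (by positivity)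

lemma md_dvd_ls (c i : ℕ) : md fr.W fr.D (Qs c i) 1 ∣ fr.ls c i := by
  unfold md ls
  apply Dvd.dvd.mul_right
  exact Nat.mul_dvd_mul (pow_dvd_pow _ (Nat.sub_le _ _)) dvd_rfl

/-- for every power `A` the steps and moduli are negligible from some block on -/
theorem ls_small (c A : ℕ) (hc : 1 ≤ c) : ∃ i0 : ℕ, ∀ i, i0 ≤ i →
    (fr.ls c i) ^ A ≤ 2 ^ (2 ^ i / 16) ∧ (fr.W ^ fr.D * Qs c i) ^ A ≤ 2 ^ (2 ^ i / 16) ∧
      2 ^ (A * Sp c i) ≤ 2 ^ (2 ^ i / 16) := by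
  obtain ⟨K, hK⟩ : ∃ K : ℕ, K = 16 * A * (fr.W ^ fr.D + 8 * c + 15) := ⟨_, rfl⟩
  refine ⟨16 * K + 16, fun i hi => ?_⟩
  have hmain : K * (i + 1) * 2 ^ (i / 2) ≤ 2 ^ i := OpDefsAux.main K i hi
  have hv : Qs c i ≤ 2 ^ (i * 2 ^ (i / 2)) := OpDefsAux.Qs_le c i
  have hw : fr.W ^ fr.D ≤ 2 ^ (fr.W ^ fr.D) := Nat.lt_two_pow_self.le
  have h2 : 1 ≤ 2 ^ (i / 2) := Nat.one_le_two_pow
  have hls : fr.ls c i ≤ 2 ^ (fr.W ^ fr.D + i * 2 ^ (i / 2) + (4 * c + 4) * i) := by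
    unfold ls
    rw [pow_add, pow_add]
    exact Nat.mul_le_mul (Nat.mul_le_mul hw hv) le_rfl
  have hexp : A * (fr.W ^ fr.D + i * 2 ^ (i / 2) + (4 * c + 4) * i) ≤ 2 ^ i / 16 := by
    rw [Nat.le_div_iff_mul_le (by norm_num)]
    refine le_trans ?_ hmain
    have h3 : fr.W ^ fr.D + i * 2 ^ (i / 2) + (4 * c + 4) * i ≤
        (fr.W ^ fr.D + 8 * c + 15) * (i + 1) * 2 ^ (i / 2) := by
      have h4 : fr.W ^ fr.D ≤ fr.W ^ fr.D * ((i + 1) * 2 ^ (i / 2)) :=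
        Nat.le_mul_of_pos_right _ (Nat.mul_pos (Nat.succ_pos i) (by omega))
      have h5 : (4 * c + 4) * i ≤ (4 * c + 4) * ((i + 1) * 2 ^ (i / 2)) :=
        Nat.mul_le_mul_left _ ((Nat.le_succ i).trans (Nat.le_mul_of_pos_right _ (by omega)))
      have h6 : i * 2 ^ (i / 2) ≤ (i + 1) * 2 ^ (i / 2) := Nat.mul_le_mul_right _ (Nat.le_succ i)
      calc fr.W ^ fr.D + i * 2 ^ (i / 2) + (4 * c + 4) * i
          ≤ fr.W ^ fr.D * ((i + 1) * 2 ^ (i / 2)) + (i + 1) * 2 ^ (i / 2) +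
            (4 * c + 4) * ((i + 1) * 2 ^ (i / 2)) := by omega
        _ = (fr.W ^ fr.D + 4 * c + 5) * ((i + 1) * 2 ^ (i / 2)) := by ring
        _ ≤ (fr.W ^ fr.D + 8 * c + 15) * ((i + 1) * 2 ^ (i / 2)) :=
          Nat.mul_le_mul_right _ (by omega)
        _ = _ := by ring
    calc A * (fr.W ^ fr.D + i * 2 ^ (i / 2) + (4 * c + 4) * i) * 16
        = 16 * A * (fr.W ^ fr.D + i * 2 ^ (i / 2) + (4 * c + 4) * i) := by ring
      _ ≤ 16 * A * ((fr.W ^ fr.D + 8 * c + 15) * (i + 1) * 2 ^ (i / 2)) :=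
        Nat.mul_le_mul_left _ h3
      _ = K * (i + 1) * 2 ^ (i / 2) := by rw [hK]; ring
  have h1 : (fr.ls c i) ^ A ≤ 2 ^ (2 ^ i / 16) := by
    calc (fr.ls c i) ^ A ≤ (2 ^ (fr.W ^ fr.D + i * 2 ^ (i / 2) + (4 * c + 4) * i)) ^ A :=
          Nat.pow_le_pow_left hls A
      _ = 2 ^ (A * (fr.W ^ fr.D + i * 2 ^ (i / 2) + (4 * c + 4) * i)) := by
        rw [← pow_mul, mul_comm]
      _ ≤ 2 ^ (2 ^ i / 16) := Nat.pow_le_pow_right (by norm_num) hexp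
  refine ⟨h1, ?_, ?_⟩
  · refine le_trans (Nat.pow_le_pow_left ?_ A) h1
    unfold ls
    exact Nat.le_mul_of_pos_right _ (by positivity)
  · apply Nat.pow_le_pow_right (by norm_num)
    rw [Nat.le_div_iff_mul_le (by norm_num)]
    refine le_trans ?_ hmain
    unfold Sp
    calc A * ((8 * c + 10) * i) * 16 = 16 * A * ((8 * c + 10) * i) := by ring
      _ ≤ 16 * A * ((fr.W ^ fr.D + 8 * c + 15) * (i + 1)) :=
        Nat.mul_le_mul_left _ (Nat.mul_le_mul (by omega) (Nat.le_succ i))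
      _ = K * (i + 1) := by rw [hK]; ring
      _ ≤ K * (i + 1) * 2 ^ (i / 2) := Nat.le_mul_of_pos_right _ (by omega)

end Frame

end Pool.Nil
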