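import Pool.Agent.Nil.OpDefs

set_option autoImplicit false

/-!
# Nil: the constants of the operator calculus

`Pack` collects the estimates proved in `Inv`, `Rep2`, `ConjInv`, `Coset` and `Resid` (`exists_pack`
in `PackEx`); the operator argument only uses this structure, so it does not wait for their proofs.
-/

namespace Pool.Nil

open Finset

variable {G : Type*} [Group G] {H : Type*} [NormedAddCommGroup H] [InnerProductSpace ℂ H]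
  [CompleteSpace H]

namespace Frame

variable {g : ℤ → G} (fr : Frame g) (U : G →* (H ≃ₗᵢ[ℂ] H))

/-- all constants of the operator calculus at once -/
structure Pack (c : ℕ) (K : ℝ) : Prop where
  one_le_c : 1 ≤ c
  one_le_K : 1 ≤ K
  inv : ∀ (X : ℝ) (lam M : ℕ), 2 ≤ X → 1 ≤ lam → ((lam : ℝ) * X) ^ c ≤ M →
    ∀ v : H, ∃ q : ℕ, 1 ≤ q ∧ (q : ℝ) ≤ X ^ c ∧ ∀ rho : ℝ, 1 ≤ rho → rho * X ^ c ≤ lam * M →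
      ‖Al U g M lam v‖ ≤ X⁻¹ * ‖v‖ + X ^ c * ‖fr.Bj U 0 (q * lam ^ c) rho v‖
  ni : ∀ (Q : ℕ) (R del : ℝ) (x : G), 1 ≤ Q → 1 ≤ R → 0 ≤ del → del ≤ 1 → x ∈ fr.Sm 1 Q R del →
    ‖Uo U x * fr.Bj U 0 Q R - fr.Bj U 0 Q R‖ ≤ K * del ∧
    ‖fr.Bj U 0 Q R * Uo U x - fr.Bj U 0 Q R‖ ≤ K * del
  absorb : ∀ (Q Q' : ℕ) (R rho : ℝ), 1 ≤ Q → 1 ≤ Q' → Q ∣ Q' → 1 ≤ rho → rho ≤ R →
    ‖fr.Bj U 0 Q R * fr.Bj U 0 Q' rho - fr.Bj U 0 Q R‖ ≤ K * (rho / R) ∧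
    ‖fr.Bj U 0 Q' rho * fr.Bj U 0 Q R - fr.Bj U 0 Q R‖ ≤ K * (rho / R)
  comm : ∀ (Q Q' : ℕ) (R rho : ℝ), 1 ≤ Q → 1 ≤ Q' → 1 ≤ rho → rho ≤ R →
    ‖fr.Bj U 0 Q R * fr.Bj U 0 Q' rho - fr.Bj U 0 Q' rho * fr.Bj U 0 Q R‖ ≤ K * (rho / R) ∧
    ‖fr.Bj U 0 Q R * ContinuousLinearMap.adjoint (fr.Bj U 0 Q' rho) -
      ContinuousLinearMap.adjoint (fr.Bj U 0 Q' rho) * fr.Bj U 0 Q R‖ ≤ K * (rho / R)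
  coset : ∀ (Q n : ℕ) (R : ℝ), 1 ≤ Q → 1 ≤ n → 1 ≤ R →
    ‖fr.Bj U 0 Q R - fr.Bj U 0 (Q * n) R * fr.Ga U Q n‖ ≤ K * ((Q : ℝ) * n / R)
  coset_absorb : ∀ (q Q n : ℕ) (R : ℝ), 1 ≤ q → 1 ≤ Q → q ∣ Q → 1 ≤ n → 1 ≤ R →
    ‖fr.Bj U 0 q R * fr.Ga U Q n - fr.Bj U 0 q R‖ ≤ K * ((Q : ℝ) * n / R)
  resid1 : ∀ (Q lam Nn : ℕ) (R : ℝ), 1 ≤ Q → 1 ≤ lam → lam ≤ Nn → md fr.W fr.D Q 1 ∣ lam →
    1 ≤ R → R ≤ Nn →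
    ‖Al U g Nn 1 * fr.Bj U 0 Q R - Al U g (Nn / lam) lam * (Al U g lam 1 * fr.Bj U 0 Q R)‖ ≤
      K * (((lam : ℝ) / Nn) * (Nn / R) ^ fr.D)
  resid2 : ∀ (Q lam : ℕ) (R : ℝ), 1 ≤ Q → 1 ≤ lam → 1 ≤ R →
    ‖Al U g lam 1 * fr.Bj U 0 Q R - fr.Bj U 0 Q R * Al U g lam 1‖ ≤ K * ((lam : ℝ) / R)
  resid3 : ∀ (q N1 N2 Nmax : ℕ) (rho : ℝ), 1 ≤ q → 1 ≤ N1 → 1 ≤ N2 → N1 ≤ Nmax → N2 ≤ Nmax →
    1 ≤ rho → ‖fr.Bj U 0 q rho * (ContinuousLinearMap.adjoint (Al U g N1 1) -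
      ContinuousLinearMap.adjoint (Al U g N2 1))‖ ≤
      K * ((Nmax : ℝ) / rho + (q : ℝ) / N1 + (q : ℝ) / N2)
  delta : ∀ (Q m l : ℕ), 1 ≤ Q →
    ‖(fr.B2 U Q m - fr.B2 U Q (m + 1)) *
      ContinuousLinearMap.adjoint (fr.B2 U Q l - fr.B2 U Q (l + 1))‖ ≤
      K * (2 : ℝ) ^ (-|(m : ℝ) - l|)

/-- the inverse theorem for operators -/
theorem Pack.inv_op {c : ℕ} {K : ℝ} (hP : fr.Pack U c K) {X : ℝ} {lam M : ℕ} (hX : 2 ≤ X)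
    (hlam : 1 ≤ lam) (hM : ((lam : ℝ) * X) ^ c ≤ M) (Y : H →L[ℂ] H) {rho del : ℝ} (hrho : 1 ≤ rho)
    (hrho' : rho * X ^ c ≤ lam * M) (hdel : 0 ≤ del)
    (hY : ∀ q : ℕ, 1 ≤ q → (q : ℝ) ≤ X ^ c → ‖fr.Bj U 0 (q * lam ^ c) rho * Y‖ ≤ del) :
    ‖Al U g M lam * Y‖ ≤ X⁻¹ * ‖Y‖ + X ^ c * del := by
  have hX0 : 0 < X := by linarith
  refine ContinuousLinearMap.opNorm_le_bound _ (by positivity) fun v => ?_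
  obtain ⟨q, hq1, hq2, hq3⟩ := hP.inv X lam M hX hlam hM (Y v)
  have h1 := hq3 rho hrho hrho'
  have h2 : ‖fr.Bj U 0 (q * lam ^ c) rho (Y v)‖ ≤ del * ‖v‖ :=
    ((fr.Bj U 0 (q * lam ^ c) rho * Y).le_opNorm v).trans
      (mul_le_mul_of_nonneg_right (hY q hq1 hq2) (norm_nonneg _))
  have h3 : ‖Y v‖ ≤ ‖Y‖ * ‖v‖ := Y.le_opNorm v
  calc ‖(Al U g M lam * Y) v‖ = ‖Al U g M lam (Y v)‖ := rfl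
    _ ≤ X⁻¹ * ‖Y v‖ + X ^ c * ‖fr.Bj U 0 (q * lam ^ c) rho (Y v)‖ := h1
    _ ≤ X⁻¹ * (‖Y‖ * ‖v‖) + X ^ c * (del * ‖v‖) :=
        add_le_add (mul_le_mul_of_nonneg_left h3 (by positivity))
          (mul_le_mul_of_nonneg_left h2 (by positivity))
    _ = (X⁻¹ * ‖Y‖ + X ^ c * del) * ‖v‖ := by ring

end Frame

end Pool.Nil
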