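import Pool.Agent.Nil.Mono
import Pool.Agent.Nil.FDefs

/-!
# Nil: coordinate maps are polynomial

`kap c x = c_0^{x_0} c_1^{x_1} ...`.

PROOFS.  `isPol_zpow`: induction on the depth `k` of `PQ`, generalizing `i d P`.  The differences of
`x ↦ c ^ P x` are `x ↦ c ^ (P (x + e_v) - P x)`; apply `WP_diff`: if `om v ≤ d` the new exponent has
degree `≤ d - om v` and `i + om v + (d - om v) = i + d`; if `d < om v` the difference is constant `1`.
Membership `c ^ n ∈ F i` by `Filt.le`.
`isPol_kap`: `kap` is a list product of such maps (`IsPol.prod`, after `funext`).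
`kap_split`: split the list at the first index with `w i ≥ u`: for a monotone `w` all indices with
`w i < u` come first (induction on `r` with `List.ofFn_succ`: if `w 0 < u` split off the first factor on
the left hand sides, if `u ≤ w 0` then `lo w u x = 0` and `hi w u x = x`; prove `kap c 0 = 1` first).
`kap_mem`: all factors are in `F u`.
`kap_abel`: modulo `F (u + 1)` the elements of `F u` commute (`1 ≤ u`, so `u + u ≥ u + 1`).
-/

set_option autoImplicit false

namespace Pool.Nil

open Finset

variable {G : Type*} [Group G]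

lemma kap_mem {F : ℕ → Subgroup G} (hF : Filt F) {r : ℕ} {c : Fin r → G} {w : Fin r → ℕ}
    (hc : ∀ i, c i ∈ F (w i)) {u : ℕ} {x : Fin r → ℤ} (hx : ∀ i, w i < u → x i = 0) :
    kap c x ∈ F u := by
  unfold kap
  refine Subgroup.list_prod_mem _ fun a ha => ?_
  rw [List.mem_ofFn] at ha
  obtain ⟨i, rfl⟩ := ha
  by_cases h : w i < u
  · simp only [hx i h, zpow_zero]
    exact one_mem _
  · push Not at h
    exact Subgroup.zpow_mem _ (hF.le h (hc i)) _

/-- additivity of the weight `u` coordinates modulo `F (u + 1)` -/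
lemma kap_abel {F : ℕ → Subgroup G} (hF : Filt F) {r : ℕ} {c : Fin r → G} {w : Fin r → ℕ}
    (hc : ∀ i, c i ∈ F (w i)) {u : ℕ} (hu : 1 ≤ u) {x y : Fin r → ℤ} (hx : ∀ i, w i < u → x i = 0)
    (hy : ∀ i, w i < u → y i = 0) :
    (kap c (x + y))⁻¹ * (kap c x * kap c y) ∈ F (u + 1) := by
  induction r with
  | zero => 
    simp only [kap, List.ofFn_zero, List.prod_nil, mul_one, inv_one]
    exact one_mem _
  | succ r ih =>
    rw [PolEx.kap_succ c x, PolEx.kap_succ c y, PolEx.kap_succ c (x + y)]
    set X := kap (fun i => c (Fin.succ i)) (fun i => x (Fin.succ i)) with hX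
    set Y := kap (fun i => c (Fin.succ i)) (fun i => y (Fin.succ i)) with hY
    set Z := kap (fun i => c (Fin.succ i)) (fun i => (x + y) (Fin.succ i)) with hZ
    have hXm : X ∈ F u := kap_mem hF (fun i => hc i.succ) (fun i hi => hx i.succ hi)
    have hYm : Y ∈ F u := kap_mem hF (fun i => hc i.succ) (fun i hi => hy i.succ hi)
    have hZm : Z ∈ F u := kap_mem hF (fun i => hc i.succ)
      (fun i hi => by simp [hx i.succ hi, hy i.succ hi])
    have hb : c 0 ^ y 0 ∈ F u := by
      by_cases h : w 0 < u
      · rw [hy 0 h, zpow_zero]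
        exact one_mem _
      · push Not at h
        exact Subgroup.zpow_mem _ (hF.le h (hc 0)) _
    have hI : Z⁻¹ * (X * Y) ∈ F (u + 1) :=
      ih (fun i => hc i.succ) (fun i hi => hx i.succ hi) (fun i hi => hy i.succ hi)
    have hK : (c 0 ^ y 0)⁻¹ * X * ((c 0 ^ y 0)⁻¹)⁻¹ * X⁻¹ ∈ F (u + 1) :=
      hF.le (by omega) (hF.comm u u _ (Subgroup.inv_mem _ hb) _ hXm)
    have hZ0 : Z⁻¹ ∈ F 0 := hF.le (Nat.zero_le u) (Subgroup.inv_mem _ hZm)
    have e : (c 0 ^ (x + y) 0 * Z)⁻¹ * (c 0 ^ x 0 * X * (c 0 ^ y 0 * Y)) =
        (Z⁻¹ * ((c 0 ^ y 0)⁻¹ * X * ((c 0 ^ y 0)⁻¹)⁻¹ * X⁻¹) * (Z⁻¹)⁻¹) * (Z⁻¹ * (X * Y)) := by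
      rw [Pi.add_apply, zpow_add]
      group
    rw [e]
    exact Subgroup.mul_mem _ (hF.conj hK hZ0) hI

variable {V : Type*} [Fintype V] [DecidableEq V] {om : V → ℕ}

theorem isPol_zpow {F : ℕ → Subgroup G} (hF : Filt F) {i d : ℕ} {c : G} (hc : c ∈ F (i + d))
    {P : (V → ℤ) → ℤ} (hP : P ∈ WP om ∅ d) : IsPol F om i (fun x => c ^ P x) := by
  intro k
  induction k generalizing i d P with
  | zero => exact fun x => Subgroup.zpow_mem _ (hF.le (by omega) hc) _
  | succ k ih =>
    refine ⟨fun x => Subgroup.zpow_mem _ (hF.le (by omega) hc) _, fun v => ?_⟩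
    have e : dv v (fun x => c ^ P x) = fun x => c ^ (P (x + Pi.single v 1) - P x) := by
      funext x
      simp only [dv]
      rw [← zpow_neg, ← zpow_add]
      congr 1
      ring
    rw [e]
    rcases le_or_gt (om v) d with h | h
    · exact ih (i := i + om v) (d := d - om v)
        (by rwa [show i + om v + (d - om v) = i + d by omega]) ((WP_diff hP v).1 h)
    · have e2 : (fun x => c ^ (P (x + Pi.single v 1) - P x)) = fun _ : V → ℤ => (1 : G) := by
        funext x
        rw [(WP_diff hP v).2 h x, sub_self, zpow_zero]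
      rw [e2]
      exact IsPol.const (one_mem _) k

theorem isPol_kap {F : ℕ → Subgroup G} (hF : Filt F) {r : ℕ} {c : Fin r → G} {w : Fin r → ℕ}
    (hc : ∀ i, c i ∈ F (w i)) {P : Fin r → (V → ℤ) → ℤ} (hP : ∀ i, P i ∈ WP om ∅ (w i)) :
    IsPol F om 0 (fun x => kap c (fun i => P i x)) := by
  have e : (fun x => kap c (fun i => P i x)) =
      (List.ofFn fun i => fun x : V → ℤ => c i ^ P i x).prod := by
    funext x
    have h := map_list_prod (Pi.evalMonoidHom (fun _ : V → ℤ => G) x)
      (List.ofFn fun i => fun x : V → ℤ => c i ^ P i x)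
    rw [List.map_ofFn] at h
    exact h.symm
  rw [e]
  refine IsPol.prod hF _ fun f hf => ?_
  rw [List.mem_ofFn] at hf
  obtain ⟨i, rfl⟩ := hf
  exact isPol_zpow hF (i := 0) (d := w i) (by rw [zero_add]; exact hc i) (hP i)

lemma PolEx.mon_unit (k : ℕ) (x : Unit → ℤ) : mon (fun _ : Unit => k) x = Ring.choose (x ()) k := by
  simp [mon]

lemma PolEx.mul_choose (x : ℤ) (k : ℕ) : x * Ring.choose x k =
    ((k : ℤ) + 1) * Ring.choose x (k + 1) + k * Ring.choose x k := by
  have h : ((k : ℤ) + 1) * Ring.choose x (k + 1) = (x - k) * Ring.choose x k := by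
    have h1 := Ring.descPochhammer_eq_factorial_smul_choose x (k + 1)
    have h2 := Ring.descPochhammer_eq_factorial_smul_choose x k
    rw [descPochhammer_succ_right, Polynomial.smeval_mul, h2, Polynomial.smeval_sub,
      Polynomial.smeval_X, Polynomial.smeval_natCast, Nat.factorial_succ, nsmul_eq_mul,
      nsmul_eq_mul] at h1
    have hk : (k.factorial : ℤ) ≠ 0 := by exact_mod_cast Nat.factorial_ne_zero k
    apply mul_left_cancel₀ hk
    simp only [pow_one, pow_zero, nsmul_eq_mul, mul_one] at h1
    rw [Nat.cast_mul, Nat.cast_add, Nat.cast_one] at h1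
    linear_combination -h1
  rw [h]
  ring

/-- an integer polynomial of degree at most `p` as a one variable polynomial of `WP` -/
lemma eval_mem_WP (P : Polynomial ℤ) {p : ℕ} (hp : P.natDegree ≤ p) :
    (fun x : Unit → ℤ => P.eval (x ())) ∈ WP (fun _ : Unit => 1) ∅ p := by
  have key : ∀ m : ℕ, (fun x : Unit → ℤ => x () ^ m) ∈ WP (fun _ : Unit => 1) ∅ m := by
    intro m
    induction m with
    | zero =>
      refine Submodule.subset_span ⟨fun _ => 0, by simp, by simp, ?_⟩
      funext x
      rw [PolEx.mon_unit]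
      simp
    | succ m ih =>
      have hmul : ∀ Q ∈ WP (fun _ : Unit => 1) ∅ m,
          (fun x : Unit → ℤ => x () * Q x) ∈ WP (fun _ : Unit => 1) ∅ (m + 1) := by
        intro Q hQ
        induction hQ using Submodule.span_induction with
        | mem Q hQ =>
          obtain ⟨k, hk, -, rfl⟩ := hQ
          have hk0 : k () ≤ m := by simpa using hk
          have e : (fun x : Unit → ℤ => x () * mon k x) =
              ((k () : ℤ) + 1) • mon (fun _ : Unit => k () + 1) + (k () : ℤ) • mon (fun _ : Unit => k ()) := by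
            funext x
            have h1 : mon k x = Ring.choose (x ()) (k ()) := PolEx.mon_unit (k ()) x
            rw [Pi.add_apply, Pi.smul_apply, Pi.smul_apply, PolEx.mon_unit, PolEx.mon_unit, h1]
            exact PolEx.mul_choose _ _
          rw [e]
          refine Submodule.add_mem _ (Submodule.smul_mem _ _ (Submodule.subset_span
            ⟨fun _ => k () + 1, by simpa using hk0, by simp, rfl⟩))
            (Submodule.smul_mem _ _ (Submodule.subset_span
            ⟨fun _ => k (), by simpa using hk0.trans (Nat.le_succ m), by simp, rfl⟩))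
        | zero =>
          have e : (fun x : Unit → ℤ => x () * (0 : (Unit → ℤ) → ℤ) x) = 0 := by
            funext x
            simp
          rw [e]
          exact Submodule.zero_mem _
        | add A B _ _ hA hB =>
          have e : (fun x : Unit → ℤ => x () * (A + B) x) =
              (fun x : Unit → ℤ => x () * A x) + fun x : Unit → ℤ => x () * B x := by
            funext x
            simp [mul_add]
          rw [e]
          exact Submodule.add_mem _ hA hB
        | smul a A _ hA =>
          have e : (fun x : Unit → ℤ => x () * (a • A) x) =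
              a • fun x : Unit → ℤ => x () * A x := by
            funext x
            simp only [Pi.smul_apply, smul_eq_mul]
            ring
          rw [e]
          exact Submodule.smul_mem _ _ hA
      have := hmul _ ih
      refine (congrArg (· ∈ WP (fun _ : Unit => 1) ∅ (m + 1)) ?_).mp this
      funext x
      rw [pow_succ']
  have e : (fun x : Unit → ℤ => P.eval (x ())) =
      ∑ m ∈ Finset.range (P.natDegree + 1), P.coeff m • fun x : Unit → ℤ => x () ^ m := by
    funext x
    rw [Finset.sum_apply, Polynomial.eval_eq_sum_range]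
    exact Finset.sum_congr rfl fun m _ => by simp
  rw [e]
  refine Submodule.sum_mem _ fun m hm => Submodule.smul_mem _ _ ?_
  rw [Finset.mem_range] at hm
  exact WP_mono (subset_refl _) (by omega) (key m)

end Pool.Nil
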