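import Pool.Agent.Nil.Rep

set_option autoImplicit false
set_option linter.unusedSectionVars false

/-!
# Nil: more on box averages

PROOFS.
`sp`: let `z = kap a`.  `kap a * kap (q t) = kap (a + q t + p a (q t))` and `p a (q t) i = 0` for `w i < 2 j`, so by
`kap_split` this is `kap (aj + q t) * kap b` with `aj` the weight `j` part of `a` (all coordinates of weight `< j`
vanish) and `b i = a i + p a (q t) i` for `w i > j` (and `0` otherwise); `kap b ∈ Sm (j + 1) Q R ((1 + C0) (R2 / R))`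
(`R2^w ≤ (R2 / R) R^w`; `rho ≤ R`; divisibility from that of `a`: `mo Q i ∣ mo Q2 i`).  So
`Uo z * (S * P)` is within `K (R2 / R)` of `avg_t Uo (kap (aj + q t)) * P` (`ni`), and this is within
`2 r (R2 / rho)` of `S * P` (`tri_shift` with the constant shift `aj / q`,
`|aj i / q| ≤ R2^j / q ≤ (R2 / rho) (2 ⌊rho^j / q⌋ + 1)`).
`sp_absorb`: average over the box of `Bj (j - 1) Q2 R2` (its elements are in `Sm j Q2 R2 1`, `mem_box`).
`conj_absorb`: `B * Uo x * Uo z = B * Uo (x z x⁻¹) * Uo x`; `z ∈ Sm 1 Q' rho' 1 ⊆ Sm 1 Q N (rho' / N)` and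
`x z x⁻¹ ∈ Sm 1 Q N (K rho' / N) ⊆ Sm 1 Q rho (K (rho' / N) (N / rho)^D)` (`sm_conj` with `y = x⁻¹`, `sa_inv`; note
that `x⁻¹ ∈ Sa 1 N K ⊆ Sa 1 (K N) 1`, so use the scale `K N` instead of `N` for the conjugation); then `ni`.  If the
right hand side is `≥ 2` nothing is to be proved.  Average over `z` in the box of `Bj 0 Q' rho'`.
-/

namespace Pool.Nil

open Finset

variable {G : Type*} [Group G] {H : Type*} [NormedAddCommGroup H] [InnerProductSpace ℂ H]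
  [CompleteSpace H]

namespace Rep2Aux

/-- the splitting of `kap a * kap (q t)` -/
lemma split {g : ℤ → G} (fr : Frame g) {j q : ℕ} (hj : 1 ≤ j) {a t ps : Fin fr.r → ℤ}
    (ha0 : ∀ i, fr.w i < j → a i = 0) (ht0 : ∀ i, fr.w i ≠ j → t i = 0)
    (hps : ∀ i, fr.w i = j → (q : ℤ) * ps i = a i) (hps0 : ∀ i, fr.w i ≠ j → ps i = 0) :
    kap fr.c a * kap fr.c (fun i => (q : ℤ) * t i) =
      kap fr.c (fun i => (q : ℤ) * (t + ps) i) *
        kap fr.c (fun i => if j + 1 ≤ fr.w i then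
          a i + fr.p a (fun i => (q : ℤ) * t i) i else 0) := by
  rw [fr.mul, kap_split fr.c fr.w fr.w_mono (j + 1)]
  have hx0 : ∀ i, fr.w i < j → (fun i => (q : ℤ) * t i) i = 0 := by
    intro i hi
    show (q : ℤ) * t i = 0
    rw [ht0 i (by omega), mul_zero]
  congr 1
  · congr 1
    funext i
    unfold lo
    simp only [Pi.add_apply]
    by_cases h : fr.w i < j + 1
    · rw [if_pos h, fr.p_wt j j a _ ha0 hx0 i (by omega), add_zero, mul_add, add_comm]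
      congr 1
      by_cases h2 : fr.w i = j
      · rw [hps i h2]
      · rw [hps0 i h2, ha0 i (by omega), mul_zero]
    · rw [if_neg h, ht0 i (by omega), hps0 i (by omega), add_zero, mul_zero]
  · congr 1
    funext i
    unfold hi
    by_cases h : j + 1 ≤ fr.w i
    · rw [if_pos h, if_pos h]
      simp only [Pi.add_apply]
      rw [ht0 i (by omega), mul_zero, add_zero]
    · rw [if_neg h, if_neg h]

lemma norm_sub_two (A B : H →L[ℂ] H) (hA : ‖A‖ ≤ 1) (hB : ‖B‖ ≤ 1) : ‖A - B‖ ≤ 2 := by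
  refine (norm_sub_le _ _).trans ?_
  linarith

lemma norm_mul_one' {A B : H →L[ℂ] H} (hA : ‖A‖ ≤ 1) (hB : ‖B‖ ≤ 1) : ‖A * B‖ ≤ 1 := by
  refine (norm_mul_le _ _).trans ?_
  calc ‖A‖ * ‖B‖ ≤ 1 * 1 := mul_le_mul hA hB (norm_nonneg _) zero_le_one
    _ = 1 := one_mul 1

end Rep2Aux

namespace Frame

variable {g : ℤ → G} (fr : Frame g) (U : G →* (H ≃ₗᵢ[ℂ] H))

theorem sp : ∃ K : ℝ, 1 ≤ K ∧ ∀ (j Q Q2 q : ℕ) (R R2 rho : ℝ) (z : G), 1 ≤ j → 1 ≤ Q → 1 ≤ Q2 →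
    1 ≤ q → Q ∣ Q2 → q ∣ md fr.W fr.D Q2 j → 1 ≤ R2 → R2 ≤ rho → rho ≤ R →
    z ∈ fr.Sm j Q2 R2 1 →
    ‖Uo U z * (fr.Sj U j q rho * fr.Bj U j Q R) - fr.Sj U j q rho * fr.Bj U j Q R‖ ≤
      K * (R2 / rho) := by
  have hC0 := fr.one_le_C0
  have hr0 : (0 : ℝ) ≤ fr.r := Nat.cast_nonneg _
  obtain ⟨K, hK, hni⟩ := fr.ni U
  refine ⟨K * (1 + fr.C0) + 2 * fr.r + 2 * (1 + fr.C0), by nlinarith, ?_⟩
  rintro j Q Q2 q R R2 rho z hj hQ hQ2 hq hQQ hqd hR2 hrho hR ⟨a, rfl, ha0, hadvd, hasz⟩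
  have hrho1 : 1 ≤ rho := hR2.trans hrho
  have hR1 : 1 ≤ R := hrho1.trans hR
  have hrho0 : 0 < rho := by linarith
  have hR0 : 0 < R := by linarith
  have hR20 : 0 < R2 := by linarith
  have hq0 : (0 : ℝ) < q := by exact_mod_cast hq
  have hqz : (q : ℤ) ≠ 0 := by exact_mod_cast (by omega : q ≠ 0)
  have hdl : R2 / R ≤ R2 / rho := div_le_div_of_nonneg_left hR20.le hrho0 hR
  have hd0 : 0 ≤ R2 / R := div_nonneg hR20.le hR0.le
  have hd1 : R2 / R ≤ 1 := (div_le_one hR0).2 (hrho.trans hR)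
  have hd0' : 0 ≤ R2 / rho := hd0.trans hdl
  obtain ⟨M, hM⟩ : ∃ M : Fin fr.r → ℕ, M = fun i => if fr.w i = j then ⌊rho ^ j / (q : ℝ)⌋₊ else 0 :=
    ⟨_, rfl⟩
  obtain ⟨P, hP⟩ : ∃ P : H →L[ℂ] H, P = fr.Bj U j Q R := ⟨_, rfl⟩
  have hS : fr.Sj U j q rho = avg (bx M) (fun t => Uo U (kap fr.c (fun i => (q : ℤ) * t i))) := by
    rw [hM]
    rfl
  have hPn : ‖P‖ ≤ 1 := by rw [hP]; exact fr.norm_Bj_le U j Q R
  have hSn : ‖fr.Sj U j q rho‖ ≤ 1 := norm_BM_le _ _ _ _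
  rw [← hP]
  obtain ⟨ep, hep⟩ : ∃ ep : ℝ, ep = (1 + fr.C0) * (R2 / R) := ⟨_, rfl⟩
  have hep0 : 0 ≤ ep := by rw [hep]; exact mul_nonneg (by linarith) hd0
  have hepl : ep ≤ (1 + fr.C0) * (R2 / rho) := by
    rw [hep]
    exact mul_le_mul_of_nonneg_left hdl (by linarith)
  by_cases hep1 : ep ≤ 1
  swap
  · push Not at hep1
    have h1 : ‖Uo U (kap fr.c a) * (fr.Sj U j q rho * P) - fr.Sj U j q rho * P‖ ≤ 2 :=
      Rep2Aux.norm_sub_two _ _ (Rep2Aux.norm_mul_one' (norm_Uo_le U _)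
        (Rep2Aux.norm_mul_one' hSn hPn)) (Rep2Aux.norm_mul_one' hSn hPn)
    refine h1.trans ?_
    have h2 : 0 ≤ (K * (1 + fr.C0) + 2 * fr.r) * (R2 / rho) := by
      refine mul_nonneg ?_ hd0'
      nlinarith
    nlinarith
  -- the shift
  obtain ⟨ps, hpsd⟩ : ∃ ps : Fin fr.r → ℤ, ps = fun i => if fr.w i = j then a i / (q : ℤ) else 0 :=
    ⟨_, rfl⟩
  have hps : ∀ i, fr.w i = j → (q : ℤ) * ps i = a i := by
    intro i hi
    rw [hpsd]
    show (q : ℤ) * (if fr.w i = j then a i / (q : ℤ) else 0) = a i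
    rw [if_pos hi]
    refine Int.mul_ediv_cancel' (dvd_trans ?_ (hadvd i))
    unfold Frame.mo
    rw [hi]
    exact Int.natCast_dvd_natCast.2 hqd
  have hps0 : ∀ i, fr.w i ≠ j → ps i = 0 := by
    intro i hi
    rw [hpsd]
    exact if_neg hi
  obtain ⟨Φ, hΦ⟩ : ∃ Φ : (Fin fr.r → ℤ) → (H →L[ℂ] H), ∀ t, Φ t =
      Uo U (kap fr.c (fun i => (q : ℤ) * t i)) * P := ⟨_, fun _ => rfl⟩
  have ht0 : ∀ t ∈ bx M, ∀ i, fr.w i ≠ j → t i = 0 := by
    intro t ht i hi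
    have h1 := mem_bx.1 ht i
    rw [hM] at h1
    simp only [if_neg hi, Nat.cast_zero, abs_nonpos_iff] at h1
    exact h1
  have htsz : ∀ t ∈ bx M, ∀ i, |(((q : ℤ) * t i : ℤ) : ℝ)| ≤ 1 * R ^ fr.w i := by
    intro t ht i
    by_cases hi : fr.w i = j
    · have h1 := mem_bx.1 ht i
      rw [hM] at h1
      simp only [if_pos hi] at h1
      have h2 : |(t i : ℝ)| ≤ (⌊rho ^ j / (q : ℝ)⌋₊ : ℝ) := by exact_mod_cast h1
      have h3 : (⌊rho ^ j / (q : ℝ)⌋₊ : ℝ) ≤ rho ^ j / q :=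
        Nat.floor_le (div_nonneg (pow_nonneg hrho0.le _) hq0.le)
      push_cast
      rw [abs_mul, abs_of_pos hq0, one_mul, hi]
      calc (q : ℝ) * |(t i : ℝ)| ≤ q * (rho ^ j / q) :=
            mul_le_mul_of_nonneg_left (h2.trans h3) hq0.le
        _ = rho ^ j := by field_simp
        _ ≤ R ^ j := pow_le_pow_left₀ hrho0.le hR j
    · rw [ht0 t ht i hi, mul_zero, Int.cast_zero, abs_zero, one_mul]
      exact pow_nonneg hR0.le _
  have haR : ∀ i, |(a i : ℝ)| ≤ R2 / R * R ^ fr.w i := by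
    intro i
    refine (hasz i).trans ?_
    have := SmallAux.up_aux (fr.one_le_w i) hR2 (hrho.trans hR) zero_le_one (R := R2) (R' := R)
    rwa [one_mul (R2 / R)] at this
  have hstep1 : ‖Uo U (kap fr.c a) * (fr.Sj U j q rho * P) -
      avg (bx M) (fun t => Φ (t + ps))‖ ≤ K * ep := by
    have e1 : Uo U (kap fr.c a) * (fr.Sj U j q rho * P) = avg (bx M) (fun t =>
        Uo U (kap fr.c a) * (Uo U (kap fr.c (fun i => (q : ℤ) * t i)) * P)) := by
      rw [hS, RepAux.avg_mul, RepAux.mul_avg]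
    rw [e1, ← avg_sub]
    refine norm_avg_le_const (mul_nonneg (by linarith) hep0) fun t ht => ?_
    have e2 := Rep2Aux.split fr hj ha0 (ht0 t ht) hps hps0
    obtain ⟨b, hb⟩ : ∃ b : Fin fr.r → ℤ, b = fun i => if j + 1 ≤ fr.w i then
          a i + fr.p a (fun i => (q : ℤ) * t i) i else 0 := ⟨_, rfl⟩
    rw [← hb] at e2
    have hmem : kap fr.c b ∈ fr.Sm (j + 1) Q R ep := by
      refine ⟨b, rfl, fun i hi => ?_, fun i => ?_, fun i => ?_⟩
      · rw [hb]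
        exact if_neg (by omega)
      · have h1 : ∀ i, (fr.mo Q i : ℤ) ∣ a i := by
          intro i
          refine dvd_trans ?_ (hadvd i)
          unfold Frame.mo md
          exact Int.natCast_dvd_natCast.2 (Nat.mul_dvd_mul_left _ hQQ)
        rw [hb]
        dsimp only
        split_ifs with h
        · exact dvd_add (h1 i) (fr.p_dvd Q _ _ (Or.inl h1) i)
        · exact dvd_zero _
      · rw [hb]
        dsimp only
        split_ifs with h
        · have h2 := fr.p_size R (R2 / R) 1 a (fun i => (q : ℤ) * t i) hR1 hd0 hd1 zero_le_one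
            le_rfl haR (htsz t ht) i
          rw [mul_one] at h2
          push_cast
          refine (abs_add_le _ _).trans ?_
          calc _ ≤ R2 / R * R ^ fr.w i + fr.C0 * (R2 / R) * R ^ fr.w i := add_le_add (haR i) h2
            _ = ep * R ^ fr.w i := by rw [hep]; ring
        · rw [Int.cast_zero, abs_zero]
          exact mul_nonneg hep0 (pow_nonneg hR0.le _)
    have h3 := (hni j Q R ep _ hQ hR1 hep0 hep1 hmem).1
    rw [← hP] at h3
    have e3 : Uo U (kap fr.c a) * (Uo U (kap fr.c (fun i => (q : ℤ) * t i)) * P) - Φ (t + ps) =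
        Uo U (kap fr.c (fun i => (q : ℤ) * (t + ps) i)) * (Uo U (kap fr.c b) * P - P) := by
      rw [hΦ, ← mul_assoc, ← Uo_mul, e2, Uo_mul, mul_sub, mul_assoc]
    rw [e3]
    refine (norm_mul_le _ _).trans ?_
    calc _ ≤ 1 * (K * ep) := mul_le_mul (norm_Uo_le U _) h3 (norm_nonneg _) zero_le_one
      _ = K * ep := one_mul _
  have hstep2 : ‖avg (bx M) (fun t => Φ (t + ps)) - avg (bx M) Φ‖ ≤ 2 * fr.r * (R2 / rho) * 1 := by
    refine tri_shift (E := H →L[ℂ] H) fr.w M (fun _ => ps) (fun _ _ _ _ => rfl) hd0'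
      (fun t _ i => ?_) (fun t => ?_)
    · by_cases hi : fr.w i = j
      · have h1 : (q : ℝ) * |(ps i : ℝ)| = |(a i : ℝ)| := by
          rw [← abs_of_pos hq0, ← abs_mul]
          congr 1
          exact_mod_cast hps i hi
        have h2 : M i = ⌊rho ^ j / (q : ℝ)⌋₊ := by
          rw [hM]
          exact if_pos hi
        have h3 := le_two_floor (div_nonneg (pow_nonneg hrho0.le j) hq0.le)
        have h4 : |(a i : ℝ)| ≤ R2 / rho * rho ^ j := by
          refine (hasz i).trans ?_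
          have := SmallAux.up_aux (fr.one_le_w i) hR2 hrho zero_le_one (R := R2) (R' := rho)
          rw [one_mul (R2 / rho), hi] at this
          rw [hi]
          exact this
        rw [h2]
        calc |(ps i : ℝ)| ≤ R2 / rho * (rho ^ j / q) := by
              rw [← h1] at h4
              rw [← mul_div_assoc, le_div_iff₀ hq0, mul_comm]
              exact h4
          _ ≤ _ := mul_le_mul_of_nonneg_left h3 hd0'
      · show |(ps i : ℝ)| ≤ _
        rw [hps0 i hi, Int.cast_zero, abs_zero]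
        positivity
    · rw [hΦ]
      exact Rep2Aux.norm_mul_one' (norm_Uo_le U _) hPn
  have hfin : avg (bx M) Φ = fr.Sj U j q rho * P := by
    rw [hS, RepAux.avg_mul]
    exact avg_congr fun t _ => hΦ t
  rw [hfin, mul_one] at hstep2
  have h5 := norm_sub_le_norm_sub_add_norm_sub (Uo U (kap fr.c a) * (fr.Sj U j q rho * P))
    (avg (bx M) (fun t => Φ (t + ps))) (fr.Sj U j q rho * P)
  have h6 : K * ep ≤ K * ((1 + fr.C0) * (R2 / rho)) :=
    mul_le_mul_of_nonneg_left hepl (by linarith)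
  have h7 : 0 ≤ 2 * (1 + fr.C0) * (R2 / rho) := mul_nonneg (by linarith) hd0'
  calc _ ≤ K * ep + 2 * fr.r * (R2 / rho) := h5.trans (add_le_add hstep1 hstep2)
    _ ≤ (K * (1 + fr.C0) + 2 * fr.r + 2 * (1 + fr.C0)) * (R2 / rho) := by linarith

theorem sp_absorb : ∃ K : ℝ, 1 ≤ K ∧ ∀ (j Q Q2 q : ℕ) (R R2 rho : ℝ), 1 ≤ j → 1 ≤ Q → 1 ≤ Q2 →
    1 ≤ q → Q ∣ Q2 → q ∣ md fr.W fr.D Q2 j → 1 ≤ R2 → R2 ≤ rho → rho ≤ R →
    ‖fr.Bj U (j - 1) Q2 R2 * (fr.Sj U j q rho * fr.Bj U j Q R) -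
      fr.Sj U j q rho * fr.Bj U j Q R‖ ≤ K * (R2 / rho) := by
  obtain ⟨K, hK, h⟩ := fr.sp U
  refine ⟨K, hK, fun j Q Q2 q R R2 rho hj hQ hQ2 hq hQQ hqd hR2 hrho hR => ?_⟩
  obtain ⟨X, hX⟩ : ∃ X : H →L[ℂ] H, X = fr.Sj U j q rho * fr.Bj U j Q R := ⟨_, rfl⟩
  have hd0 : 0 ≤ R2 / rho := div_nonneg (by linarith) (by linarith)
  have e : fr.Bj U (j - 1) Q2 R2 * X - X = avg (bx (fr.side (j - 1) Q2 R2)) (fun t =>
      Uo U (kap fr.c (fun i => (fr.mo Q2 i : ℤ) * t i)) * X - X) := by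
    rw [avg_sub, avg_const (bx_nonempty _), ← RepAux.avg_mul]
    rfl
  rw [← hX, e]
  refine norm_avg_le_const (mul_nonneg (by linarith) hd0) fun t ht => ?_
  have hm := fr.mem_box hQ2 hR2 ht
  rw [Nat.sub_add_cancel hj] at hm
  rw [hX]
  exact h j Q Q2 q R R2 rho _ hj hQ hQ2 hq hQQ hqd hR2 hrho hR hm

theorem conj_absorb : ∃ K : ℝ, 1 ≤ K ∧ ∀ (Q Q' : ℕ) (N rho rho' : ℝ) (x : G) (v : H), 1 ≤ Q →
    1 ≤ Q' → Q ∣ Q' → 1 ≤ rho' → rho' ≤ rho → rho ≤ N → x ∈ fr.Sa 1 N 1 →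
    ‖fr.Bj U 0 Q rho (Uo U x v)‖ ≤
      ‖fr.Bj U 0 Q' rho' v‖ + K * ((rho' / N) * (N / rho) ^ fr.D) * ‖v‖ := by
  obtain ⟨K, hK⟩ := fr.exists_consts
  obtain ⟨K1, hK1, hni⟩ := fr.ni U
  have hKD : 1 ≤ K ^ fr.D := one_le_pow₀ hK.one_le
  refine ⟨K1 * K ^ fr.D, by nlinarith, ?_⟩
  intro Q Q' N rho rho' x v hQ hQ' hQQ hrho' hrho hN hx
  have hK0 : 0 < K := by linarith [hK.one_le]
  have hrho1 : 1 ≤ rho := hrho'.trans hrho
  have hN1 : 1 ≤ N := hrho1.trans hN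
  have hN0 : 0 < N := by linarith
  have hrho0 : 0 < rho := by linarith
  obtain ⟨de, hde⟩ : ∃ de : ℝ, de = K ^ fr.D * ((rho' / N) * (N / rho) ^ fr.D) := ⟨_, rfl⟩
  have hde0 : 0 ≤ de := by
    rw [hde]
    have : 0 ≤ rho' / N := div_nonneg (by linarith) hN0.le
    positivity
  have hgoal : K1 * K ^ fr.D * ((rho' / N) * (N / rho) ^ fr.D) * ‖v‖ = K1 * de * ‖v‖ := by
    rw [hde]
    ring
  rw [hgoal]
  obtain ⟨B, hB⟩ : ∃ B : H →L[ℂ] H, B = fr.Bj U 0 Q rho := ⟨_, rfl⟩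
  have hBn : ‖B‖ ≤ 1 := by rw [hB]; exact fr.norm_Bj_le U 0 Q rho
  have hBx : ∀ u : H, ‖B u‖ ≤ ‖u‖ := by
    intro u
    refine (B.le_opNorm u).trans ?_
    calc ‖B‖ * ‖u‖ ≤ 1 * ‖u‖ := mul_le_mul_of_nonneg_right hBn (norm_nonneg _)
      _ = ‖u‖ := one_mul _
  rw [← hB]
  by_cases hde1 : de ≤ 1
  swap
  · push Not at hde1
    have h1 : ‖B (Uo U x v)‖ ≤ ‖v‖ := by
      refine (hBx _).trans (le_of_eq ?_)
      exact norm_Uo_apply U x v
    have h2 : 1 ≤ K1 * de := by nlinarith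
    have h3 := mul_le_mul_of_nonneg_right h2 (norm_nonneg v)
    have h4 := norm_nonneg (fr.Bj U 0 Q' rho' v)
    linarith
  -- the conjugates
  have hKN : 1 ≤ K * N := by nlinarith [hK.one_le]
  have hrKN : rho' ≤ K * N := by nlinarith [hK.one_le, hrho.trans hN]
  have hxi : x⁻¹ ∈ fr.Sa 1 (K * N) 1 := by
    obtain ⟨y, h1, h2, h3⟩ := hK.sa_inv 1 N 1 x hN1 zero_le_one le_rfl hx
    refine ⟨y, h1, h2, fun i => (h3 i).trans ?_⟩
    rw [mul_one, one_mul, mul_pow]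
    refine mul_le_mul_of_nonneg_right ?_ (pow_nonneg hN0.le _)
    exact le_self_pow₀ hK.one_le (by have := fr.one_le_w i; omega)
  have hconj : ∀ z ∈ fr.Sm 1 Q' rho' 1, x * z * x⁻¹ ∈ fr.Sm (0 + 1) Q rho de := by
    intro z hz
    have h1 := fr.Sm_up hrho' hrKN zero_le_one (fr.Sm_dvd hQQ hz)
    rw [one_mul] at h1
    have hq0 : 0 ≤ rho' / (K * N) := div_nonneg (by linarith) (by linarith)
    have hq1 : rho' / (K * N) ≤ 1 := (div_le_one (by linarith)).2 hrKN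
    have h2 := hK.sm_conj 1 Q (K * N) (rho' / (K * N)) z x⁻¹ hKN hq0 hq1 h1 hxi
    rw [inv_inv] at h2
    have h3 := fr.Sm_down hrho1 (by nlinarith [hK.one_le] : rho ≤ K * N)
      (mul_nonneg hK0.le hq0) h2
    have e : K * (rho' / (K * N)) * (K * N / rho) ^ fr.D = de := by
      rw [hde, mul_div_assoc K N rho, mul_pow]
      field_simp
    rw [e] at h3
    exact h3
  have hkey : ∀ z ∈ fr.Sm 1 Q' rho' 1, ‖B (Uo U x (Uo U z v)) - B (Uo U x v)‖ ≤ K1 * de * ‖v‖ := by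
    intro z hz
    have h1 := (hni 0 Q rho de _ hQ hrho1 hde0 hde1 (hconj z hz)).2
    rw [← hB] at h1
    have e1 : B (Uo U x (Uo U z v)) - B (Uo U x v) =
        (B * Uo U (x * z * x⁻¹) - B) (Uo U x v) := by
      have e2 : Uo U x (Uo U z v) = Uo U (x * z * x⁻¹) (Uo U x v) := by
        have e3 : Uo U x * Uo U z = Uo U (x * z * x⁻¹) * Uo U x := by
          rw [← Uo_mul, ← Uo_mul, inv_mul_cancel_right]
        exact congrArg (fun A : H →L[ℂ] H => A v) e3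
      rw [e2]
      rfl
    rw [e1]
    refine (ContinuousLinearMap.le_opNorm _ _).trans ?_
    rw [norm_Uo_apply]
    exact mul_le_mul_of_nonneg_right h1 (norm_nonneg _)
  have havg : B (Uo U x (fr.Bj U 0 Q' rho' v)) - B (Uo U x v) =
      avg (bx (fr.side 0 Q' rho')) (fun t =>
        B (Uo U x (Uo U (kap fr.c (fun i => (fr.mo Q' i : ℤ) * t i)) v)) - B (Uo U x v)) := by
    rw [avg_sub, avg_const (bx_nonempty _)]
    congr 1
    have e1 : fr.Bj U 0 Q' rho' v = avg (bx (fr.side 0 Q' rho')) (fun t =>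
        Uo U (kap fr.c (fun i => (fr.mo Q' i : ℤ) * t i)) v) := by
      show (avg (bx (fr.side 0 Q' rho')) (fun t =>
        Uo U (kap fr.c (fun i => (fr.mo Q' i : ℤ) * t i)))) v = _
      simp only [avg, ContinuousLinearMap.smul_apply, ContinuousLinearMap.sum_apply]
    rw [e1]
    simp only [avg]
    rw [← ContinuousLinearMap.comp_apply]
    simp only [map_sum, ContinuousLinearMap.comp_apply, ContinuousLinearMap.map_smul_of_tower]
  have h8 : ‖B (Uo U x (fr.Bj U 0 Q' rho' v)) - B (Uo U x v)‖ ≤ K1 * de * ‖v‖ := by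
    rw [havg]
    refine norm_avg_le_const (by positivity) fun t ht => ?_
    exact hkey _ (fr.mem_box hQ' hrho' ht)
  have h9 : ‖B (Uo U x (fr.Bj U 0 Q' rho' v))‖ ≤ ‖fr.Bj U 0 Q' rho' v‖ := by
    refine (hBx _).trans (le_of_eq ?_)
    exact norm_Uo_apply U x _
  have h10 := norm_sub_norm_le (B (Uo U x v)) (B (Uo U x (fr.Bj U 0 Q' rho' v)))
  rw [norm_sub_rev] at h10
  linarith

end Frame

end Pool.Nil
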