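import Pool.Agent.Nil.Small
import Pool.Agent.Nil.Mono

set_option autoImplicit false

/-!
# Nil: windows of the sequence

PROOFS.  `G i n = ∑_{k=1}^{w i} ga i k * choose n k`, `g n = kap (G n)` (`seq`).  Vandermonde:
`choose (a + n) k = ∑_{l ≤ k} choose n l * choose a (k - l)` (`Ring.add_choose_eq`), so
`G i (a + n) - G i a = ∑_k ga i k ∑_{1 ≤ l ≤ k} choose n l choose a (k - l)` and
`G i (a + n) - G i a - G i n = ∑_k ga i k ∑_{1 ≤ l < k} choose n l choose a (k - l)`.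
Sizes: `|choose x k| ≤ (k + 1)^k (ze N)^k ≤ (k + 1)^k ze N^k` for `k ≥ 1`, `|x| ≤ ze N`, `ze ≤ 1`, `x` an integer
(compare `Nil/Mono.lean`, `WP_size1`).  Divisibility: if `md W D Q 1 = W^(D-1) Q` divides `n` and
`1 ≤ l ≤ w`, then `W^(D - w) Q` divides `choose n l` if `l < w` or `w = l = 1` or `w ≥ 2` (`l choose n l = n choose (n-1) (l-1)`,
`l ∣ W`, so `W^(D-2) Q ∣ choose n l` if `w ≥ 2`; `w = 1`: `choose n 1 = n`).
`window`: `quo` with `z = G a`, `z' = G (a + n)`.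
`window2`: `g n * g a = kap z`, `z = G n + G a + p (G n) (G a)` and `g (a + n) = kap z'`, `z' = G (a + n)`;
`z' - z = (G (a + n) - G a - G n) - p (G n) (G a)`, of size `K ze N^w` if `|a| ≤ ze N`, `|n| ≤ N`
(`p_size` after enlarging `N` by a constant, with `del = 1` for `G n` and `del' = ze` for `G a`), divisible because
`G n` is divisible (`p_dvd`) and every `choose n l`, `l ≥ 1`, is.  `quo` gives `g n * g a * x = g (a + n)`.
-/

namespace Pool.Nil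

open Finset

namespace SmSeqAux

/-- Vandermonde without the first term -/
lemma vander (a n : ℤ) (k : ℕ) : Ring.choose (a + n) k - Ring.choose a k =
    ∑ ij ∈ (antidiagonal k).erase (0, k), Ring.choose n ij.1 * Ring.choose a ij.2 := by
  have h1 : Ring.choose (a + n) k =
      ∑ ij ∈ antidiagonal k, Ring.choose n ij.1 * Ring.choose a ij.2 := by
    rw [add_comm a n]
    exact Ring.add_choose_eq k (Commute.all n a)
  have h2 : ((0, k) : ℕ × ℕ) ∈ antidiagonal k := by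
    rw [HasAntidiagonal.mem_antidiagonal, zero_add]
  rw [h1, ← add_sum_erase _ _ h2, Ring.choose_zero_right, one_mul]
  ring

/-- Vandermonde without the two extreme terms -/
lemma vander2 (a n : ℤ) {k : ℕ} (hk : 1 ≤ k) :
    Ring.choose (a + n) k - Ring.choose a k - Ring.choose n k =
    ∑ ij ∈ ((antidiagonal k).erase (0, k)).erase (k, 0),
      Ring.choose n ij.1 * Ring.choose a ij.2 := by
  have h2 : ((k, 0) : ℕ × ℕ) ∈ (antidiagonal k).erase (0, k) := by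
    rw [mem_erase, HasAntidiagonal.mem_antidiagonal, add_zero]
    refine ⟨?_, rfl⟩
    intro h
    rw [Prod.mk.injEq] at h
    omega
  rw [vander, ← add_sum_erase _ _ h2, Ring.choose_zero_right, mul_one]
  ring

lemma mem1 {k : ℕ} {ij : ℕ × ℕ} (h : ij ∈ (antidiagonal k).erase (0, k)) :
    1 ≤ ij.1 ∧ ij.1 ≤ k ∧ ij.2 ≤ k ∧ ij.1 + ij.2 = k := by
  rw [mem_erase, HasAntidiagonal.mem_antidiagonal] at h
  obtain ⟨h1, h2⟩ := h
  have h3 : ij.1 ≠ 0 := by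
    intro h0
    apply h1
    rw [h0, zero_add] at h2
    ext
    · exact h0
    · exact h2
  omega

lemma mem2 {k : ℕ} {ij : ℕ × ℕ} (h : ij ∈ ((antidiagonal k).erase (0, k)).erase (k, 0)) :
    1 ≤ ij.1 ∧ 1 ≤ ij.2 ∧ ij.1 ≤ k ∧ ij.2 ≤ k ∧ ij.1 + ij.2 = k := by
  rw [mem_erase] at h
  obtain ⟨h1, h2⟩ := h
  obtain ⟨h3, h4, h5, h6⟩ := mem1 h2
  have h7 : ij.2 ≠ 0 := by
    intro h0
    apply h1
    rw [h0, add_zero] at h6
    ext
    · exact h6
    · exact h0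
  omega

lemma ch_one {D k : ℕ} (hk : k ≤ D) {N : ℝ} {x : ℤ} (hx : |(x : ℝ)| ≤ N) :
    |((Ring.choose x k : ℤ) : ℝ)| ≤ ((D : ℝ) + 1) ^ D * N ^ k := by
  refine (Mono.choose_le x k).trans ?_
  have h1 : ((k : ℝ) + 1) ^ k ≤ ((D : ℝ) + 1) ^ D := by
    have h2 : (k : ℝ) + 1 ≤ (D : ℝ) + 1 := by
      have : (k : ℝ) ≤ D := by exact_mod_cast hk
      linarith
    calc ((k : ℝ) + 1) ^ k ≤ ((D : ℝ) + 1) ^ k := pow_le_pow_left₀ (by positivity) h2 k
      _ ≤ ((D : ℝ) + 1) ^ D := pow_le_pow_right₀ (by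
        have : (0 : ℝ) ≤ D := Nat.cast_nonneg D
        linarith) hk
  exact mul_le_mul h1 (pow_le_pow_left₀ (abs_nonneg _) hx k) (by positivity) (by positivity)

lemma ch_ze {D k : ℕ} (hk1 : 1 ≤ k) (hk : k ≤ D) {N ze : ℝ} (hN : 1 ≤ N) (hz : 0 ≤ ze)
    (hz1 : ze ≤ 1) {x : ℤ} (hx : |(x : ℝ)| ≤ ze * N) :
    |((Ring.choose x k : ℤ) : ℝ)| ≤ ((D : ℝ) + 1) ^ D * (ze * N ^ k) := by
  refine (ch_one hk hx).trans ?_
  refine mul_le_mul_of_nonneg_left ?_ (by positivity)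
  rw [mul_pow]
  refine mul_le_mul_of_nonneg_right ?_ (by positivity)
  calc ze ^ k ≤ ze ^ 1 := pow_le_pow_of_le_one hz hz1 hk1
    _ = ze := pow_one _

/-- divisibility of the binomial coefficients -/
lemma ch_dvd {W D Q w k : ℕ} (hW : ∀ k : ℕ, 1 ≤ k → k ≤ D → k ∣ W) (hk1 : 1 ≤ k) (hkw : k ≤ w)
    (hw : w ≤ D) {n : ℤ} (hn : ((md W D Q 1 : ℕ) : ℤ) ∣ n) :
    ((md W D Q w : ℕ) : ℤ) ∣ Ring.choose n k := by
  unfold md at hn ⊢
  rcases Nat.eq_or_lt_of_le hk1 with h1 | h1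
  · rw [← h1, Ring.choose_one_right]
    refine dvd_trans ?_ hn
    exact_mod_cast Nat.mul_dvd_mul_right (pow_dvd_pow W (by omega)) Q
  · obtain ⟨m, hm⟩ := hn
    obtain ⟨V, hV⟩ := hW k hk1 (hkw.trans hw)
    obtain ⟨j, rfl⟩ : ∃ j, k = j + 1 := ⟨k - 1, by omega⟩
    have h2 := Mono.choose_rec n j
    have h3 : W ^ (D - 1) = (j + 1) * (V * W ^ (D - 2)) := by
      have h4 : D - 1 = (D - 2) + 1 := by omega
      calc W ^ (D - 1) = W ^ (D - 2) * W := by rw [h4, pow_succ]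
        _ = W ^ (D - 2) * ((j + 1) * V) := congrArg (W ^ (D - 2) * ·) hV
        _ = (j + 1) * (V * W ^ (D - 2)) := by ring
    have h7 : n = ((j + 1 : ℕ) : ℤ) * (((W ^ (D - 2) * Q : ℕ) : ℤ) * ((V : ℤ) * m)) := by
      rw [hm, h3]
      push_cast
      ring
    have h5 : ((j + 1 : ℕ) : ℤ) * Ring.choose n (j + 1) =
        ((j + 1 : ℕ) : ℤ) * (((W ^ (D - 2) * Q : ℕ) : ℤ) *
          ((V : ℤ) * m * Ring.choose (n - 1) j)) := by
      calc ((j + 1 : ℕ) : ℤ) * Ring.choose n (j + 1) = n * Ring.choose (n - 1) j := h2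
        _ = (((j + 1 : ℕ) : ℤ) * (((W ^ (D - 2) * Q : ℕ) : ℤ) * ((V : ℤ) * m))) *
            Ring.choose (n - 1) j := congrArg (· * Ring.choose (n - 1) j) h7
        _ = _ := by ring
    have h6 : Ring.choose n (j + 1) = ((W ^ (D - 2) * Q : ℕ) : ℤ) *
          ((V : ℤ) * m * Ring.choose (n - 1) j) := by
      apply mul_left_cancel₀ _ h5
      exact_mod_cast Nat.succ_ne_zero j
    rw [h6]
    refine Dvd.dvd.mul_right ?_ _
    exact_mod_cast Nat.mul_dvd_mul_right (pow_dvd_pow W (by omega)) Q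

variable {G : Type*} [Group G] {g : ℤ → G} (fr : Frame g)

/-- the coordinates of the sequence -/
def GG (n : ℤ) : Fin fr.r → ℤ := fun i => ∑ k ∈ Icc 1 (fr.w i), fr.ga i k * Ring.choose n k

lemma seq_GG (n : ℤ) : g n = kap fr.c (GG fr n) := fr.seq n

/-- the size of the coefficients -/
noncomputable def AA : ℝ := ∑ i, ∑ k ∈ Icc 1 (fr.w i), |(fr.ga i k : ℝ)|

lemma AA_nonneg : 0 ≤ AA fr := sum_nonneg fun _ _ => sum_nonneg fun _ _ => abs_nonneg _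

lemma sum_bound (i : Fin fr.r) (F : ℕ → ℤ) {B N : ℝ} (hB : 0 ≤ B) (hN : 1 ≤ N)
    (h : ∀ k, 1 ≤ k → k ≤ fr.w i → |(F k : ℝ)| ≤ B * N ^ k) :
    |((∑ k ∈ Icc 1 (fr.w i), fr.ga i k * F k : ℤ) : ℝ)| ≤ AA fr * (B * N ^ fr.w i) := by
  push_cast
  refine (abs_sum_le_sum_abs _ _).trans ?_
  have h1 : ∀ k ∈ Icc 1 (fr.w i), |(fr.ga i k : ℝ) * (F k : ℝ)| ≤
      |(fr.ga i k : ℝ)| * (B * N ^ fr.w i) := by
    intro k hk
    rw [mem_Icc] at hk
    rw [abs_mul]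
    refine mul_le_mul_of_nonneg_left ((h k hk.1 hk.2).trans ?_) (abs_nonneg _)
    exact mul_le_mul_of_nonneg_left (pow_le_pow_right₀ hN hk.2) hB
  refine (sum_le_sum h1).trans ?_
  rw [← sum_mul]
  refine mul_le_mul_of_nonneg_right ?_ (by positivity)
  exact single_le_sum (f := fun i => ∑ k ∈ Icc 1 (fr.w i), |(fr.ga i k : ℝ)|)
    (fun _ _ => sum_nonneg fun _ _ => abs_nonneg _) (mem_univ i)

/-- the constant -/
noncomputable def KK : ℝ := 1 + AA fr * (((fr.D : ℝ) + 1) * (((fr.D : ℝ) + 1) ^ fr.D) ^ 2)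

lemma one_le_E : (1 : ℝ) ≤ ((fr.D : ℝ) + 1) ^ fr.D :=
  one_le_pow₀ (by
    have : (0 : ℝ) ≤ fr.D := Nat.cast_nonneg _
    linarith)

lemma one_le_KK : 1 ≤ KK fr := by
  have h1 := AA_nonneg fr
  have h2 : 0 ≤ AA fr * (((fr.D : ℝ) + 1) * (((fr.D : ℝ) + 1) ^ fr.D) ^ 2) := by positivity
  rw [KK]
  linarith

lemma KK_mul {x : ℝ} (hx : 0 ≤ x) :
    AA fr * ((((fr.D : ℝ) + 1) * (((fr.D : ℝ) + 1) ^ fr.D) ^ 2) * x) ≤ KK fr * x := by
  rw [KK, ← mul_assoc]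
  exact mul_le_mul_of_nonneg_right (by linarith) hx

lemma size_GG (i : Fin fr.r) {N ze : ℝ} (hN : 1 ≤ N) (hz : 0 ≤ ze) (hz1 : ze ≤ 1) {n : ℤ}
    (hn : |(n : ℝ)| ≤ ze * N) : |(GG fr n i : ℝ)| ≤ KK fr * ze * N ^ fr.w i := by
  have hE := one_le_E fr
  have hD : (0 : ℝ) ≤ fr.D := Nat.cast_nonneg _
  have h1 := sum_bound fr i (fun k => Ring.choose n k)
    (B := (((fr.D : ℝ) + 1) * (((fr.D : ℝ) + 1) ^ fr.D) ^ 2) * ze) (by positivity) hN (by
      intro k hk1 hk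
      refine (ch_ze hk1 (hk.trans (fr.w_le i)) hN hz hz1 hn).trans ?_
      rw [mul_assoc]
      refine mul_le_mul_of_nonneg_right ?_ (by positivity)
      have h2 : ((fr.D : ℝ) + 1) ^ fr.D ≤ (((fr.D : ℝ) + 1) ^ fr.D) ^ 2 :=
        le_self_pow₀ hE (by norm_num)
      have h3 : (((fr.D : ℝ) + 1) ^ fr.D) ^ 2 ≤
          ((fr.D : ℝ) + 1) * (((fr.D : ℝ) + 1) ^ fr.D) ^ 2 :=
        le_mul_of_one_le_left (by positivity) (by linarith)
      exact h2.trans h3)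
  refine h1.trans ?_
  rw [mul_assoc (((fr.D : ℝ) + 1) * (((fr.D : ℝ) + 1) ^ fr.D) ^ 2), mul_assoc (KK fr)]
  exact KK_mul fr (by positivity)

lemma sum_term {k D : ℕ} (hk : k ≤ D) (s : Finset (ℕ × ℕ)) (hs : s ⊆ antidiagonal k)
    (f : ℕ × ℕ → ℤ) {B : ℝ} (hB : 0 ≤ B) (h : ∀ ij ∈ s, |(f ij : ℝ)| ≤ B) :
    |((∑ ij ∈ s, f ij : ℤ) : ℝ)| ≤ ((D : ℝ) + 1) * B := by
  push_cast
  refine (abs_sum_le_sum_abs _ _).trans ((sum_le_sum h).trans ?_)
  rw [sum_const, nsmul_eq_mul]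
  refine mul_le_mul_of_nonneg_right ?_ hB
  have h1 : s.card ≤ k + 1 := by
    refine (card_le_card hs).trans ?_
    rw [Finset.Nat.card_antidiagonal]
  have h2 : s.card ≤ D + 1 := by omega
  exact_mod_cast h2

lemma size_diff (i : Fin fr.r) {N ze : ℝ} (hN : 1 ≤ N) (hz : 0 ≤ ze) (hz1 : ze ≤ 1) {a n : ℤ}
    (ha : |(a : ℝ)| ≤ N) (hn : |(n : ℝ)| ≤ ze * N) :
    |(GG fr (a + n) i : ℝ) - GG fr a i| ≤ KK fr * ze * N ^ fr.w i := by
  have hE := one_le_E fr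
  have hD : (0 : ℝ) ≤ fr.D := Nat.cast_nonneg _
  have h0 : (GG fr (a + n) i : ℝ) - GG fr a i = ((∑ k ∈ Icc 1 (fr.w i),
      fr.ga i k * (Ring.choose (a + n) k - Ring.choose a k) : ℤ) : ℝ) := by
    rw [← Int.cast_sub]
    congr 1
    show ∑ k ∈ Icc 1 (fr.w i), fr.ga i k * Ring.choose (a + n) k -
      ∑ k ∈ Icc 1 (fr.w i), fr.ga i k * Ring.choose a k = _
    rw [← sum_sub_distrib]
    exact sum_congr rfl fun k _ => by ring
  rw [h0]
  have h1 := sum_bound fr i (fun k => Ring.choose (a + n) k - Ring.choose a k)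
    (B := (((fr.D : ℝ) + 1) * (((fr.D : ℝ) + 1) ^ fr.D) ^ 2) * ze) (by positivity) hN (by
      intro k hk1 hk
      have hkD := hk.trans (fr.w_le i)
      show |((Ring.choose (a + n) k - Ring.choose a k : ℤ) : ℝ)| ≤ _
      rw [vander]
      refine (sum_term hkD _ (erase_subset _ _) _
        (B := (((fr.D : ℝ) + 1) ^ fr.D) ^ 2 * (ze * N ^ k)) (by positivity) ?_).trans
        (le_of_eq (by ring))
      intro ij hij
      obtain ⟨h2, h3, h4, h5⟩ := mem1 hij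
      have h6 := ch_ze h2 (h3.trans hkD) hN hz hz1 hn
      have h7 := ch_one (h4.trans hkD) ha
      push_cast
      rw [abs_mul]
      refine (mul_le_mul h6 h7 (abs_nonneg _) (by positivity)).trans (le_of_eq ?_)
      rw [← h5, pow_add]
      ring)
  refine h1.trans ?_
  rw [mul_assoc (((fr.D : ℝ) + 1) * (((fr.D : ℝ) + 1) ^ fr.D) ^ 2), mul_assoc (KK fr)]
  exact KK_mul fr (by positivity)

lemma size_diff2 (i : Fin fr.r) {N ze : ℝ} (hN : 1 ≤ N) (hz : 0 ≤ ze) (hz1 : ze ≤ 1) {a n : ℤ}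
    (ha : |(a : ℝ)| ≤ ze * N) (hn : |(n : ℝ)| ≤ N) :
    |(GG fr (a + n) i : ℝ) - GG fr a i - GG fr n i| ≤ KK fr * ze * N ^ fr.w i := by
  have hE := one_le_E fr
  have hD : (0 : ℝ) ≤ fr.D := Nat.cast_nonneg _
  have h0 : (GG fr (a + n) i : ℝ) - GG fr a i - GG fr n i = ((∑ k ∈ Icc 1 (fr.w i),
      fr.ga i k * (Ring.choose (a + n) k - Ring.choose a k - Ring.choose n k) : ℤ) : ℝ) := by
    rw [← Int.cast_sub, ← Int.cast_sub]
    congr 1
    show ∑ k ∈ Icc 1 (fr.w i), fr.ga i k * Ring.choose (a + n) k -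
      ∑ k ∈ Icc 1 (fr.w i), fr.ga i k * Ring.choose a k -
      ∑ k ∈ Icc 1 (fr.w i), fr.ga i k * Ring.choose n k = _
    rw [← sum_sub_distrib, ← sum_sub_distrib]
    exact sum_congr rfl fun k _ => by ring
  rw [h0]
  have h1 := sum_bound fr i (fun k => Ring.choose (a + n) k - Ring.choose a k - Ring.choose n k)
    (B := (((fr.D : ℝ) + 1) * (((fr.D : ℝ) + 1) ^ fr.D) ^ 2) * ze) (by positivity) hN (by
      intro k hk1 hk
      have hkD := hk.trans (fr.w_le i)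
      show |((Ring.choose (a + n) k - Ring.choose a k - Ring.choose n k : ℤ) : ℝ)| ≤ _
      rw [vander2 a n hk1]
      refine (sum_term hkD _ ((erase_subset _ _).trans (erase_subset _ _)) _
        (B := (((fr.D : ℝ) + 1) ^ fr.D) ^ 2 * (ze * N ^ k)) (by positivity) ?_).trans
        (le_of_eq (by ring))
      intro ij hij
      obtain ⟨h2, h3, h4, h5, h8⟩ := mem2 hij
      have h6 := ch_ze h3 (h5.trans hkD) hN hz hz1 ha
      have h7 := ch_one (h4.trans hkD) hn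
      push_cast
      rw [abs_mul]
      refine (mul_le_mul h7 h6 (abs_nonneg _) (by positivity)).trans (le_of_eq ?_)
      rw [← h8, pow_add]
      ring)
  refine h1.trans ?_
  rw [mul_assoc (((fr.D : ℝ) + 1) * (((fr.D : ℝ) + 1) ^ fr.D) ^ 2), mul_assoc (KK fr)]
  exact KK_mul fr (by positivity)

lemma dvd_GG (i : Fin fr.r) {Q : ℕ} {n : ℤ} (hn : ((md fr.W fr.D Q 1 : ℕ) : ℤ) ∣ n) :
    (fr.mo Q i : ℤ) ∣ GG fr n i := by
  refine dvd_sum fun k hk => ?_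
  rw [mem_Icc] at hk
  exact Dvd.dvd.mul_left (ch_dvd fr.W_dvd hk.1 hk.2 (fr.w_le i) hn) _

lemma dvd_diff (i : Fin fr.r) {Q : ℕ} {a n : ℤ} (hn : ((md fr.W fr.D Q 1 : ℕ) : ℤ) ∣ n) :
    (fr.mo Q i : ℤ) ∣ GG fr (a + n) i - GG fr a i := by
  show _ ∣ ∑ k ∈ Icc 1 (fr.w i), fr.ga i k * Ring.choose (a + n) k -
      ∑ k ∈ Icc 1 (fr.w i), fr.ga i k * Ring.choose a k
  rw [← sum_sub_distrib]
  refine dvd_sum fun k hk => ?_
  rw [mem_Icc] at hk
  rw [← mul_sub, vander]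
  refine Dvd.dvd.mul_left (dvd_sum fun ij hij => ?_) _
  obtain ⟨h2, h3, h4, h5⟩ := mem1 hij
  exact Dvd.dvd.mul_right (ch_dvd fr.W_dvd h2 (h3.trans hk.2) (fr.w_le i) hn) _

lemma kap_zero {r : ℕ} (c : Fin r → G) : kap c 0 = 1 := by
  unfold kap
  have h : (fun i : Fin r => c i ^ (0 : Fin r → ℤ) i) = fun _ => 1 := by
    funext i
    rw [Pi.zero_apply, zpow_zero]
  rw [h]
  exact List.prod_eq_one (by
    intro x hx
    rw [List.mem_ofFn] at hx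
    obtain ⟨_, rfl⟩ := hx
    rfl)

end SmSeqAux

open SmSeqAux

namespace Frame

variable {G : Type*} [Group G] {g : ℤ → G} (fr : Frame g)

theorem window : ∃ K : ℝ, 1 ≤ K ∧ ∀ (N ze : ℝ) (a n : ℤ), 1 ≤ N → 0 ≤ ze → ze ≤ 1 →
    |(a : ℝ)| ≤ N → |(n : ℝ)| ≤ ze * N →
    (g a)⁻¹ * g (a + n) ∈ fr.Sa 1 N (K * ze) ∧
    ∀ Q : ℕ, ((md fr.W fr.D Q 1 : ℕ) : ℤ) ∣ n → (g a)⁻¹ * g (a + n) ∈ fr.Sm 1 Q N (K * ze) := by
  obtain ⟨K2, hK2, hquo⟩ := fr.quo (KK fr) (one_le_KK fr)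
  refine ⟨K2, hK2, fun N ze a n hN hz hz1 ha hn => ?_⟩
  obtain ⟨u, hu1, hu2, hu3, -⟩ := hquo N ze (GG fr a) (GG fr (a + n)) hN hz hz1
    (fun i => by
      have h1 := size_GG fr i hN zero_le_one le_rfl (n := a) (by rw [one_mul]; exact ha)
      rwa [mul_one] at h1)
    (fun i => size_diff fr i hN hz hz1 ha hn)
  have h1 : (g a)⁻¹ * g (a + n) = kap fr.c u := by
    rw [seq_GG fr a, seq_GG fr (a + n), ← hu1, inv_mul_cancel_left]
  have h2 : ∀ i, fr.w i < 1 → u i = 0 := fun i hi => by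
    have := fr.one_le_w i
    omega
  exact ⟨⟨u, h1, h2, hu2⟩, fun Q hQ => ⟨u, h1, h2, hu3 Q fun i => dvd_diff fr i hQ, hu2⟩⟩

theorem window2 : ∃ K : ℝ, 1 ≤ K ∧ ∀ (N ze : ℝ) (a n : ℤ), 1 ≤ N → 0 ≤ ze → ze ≤ 1 →
    |(a : ℝ)| ≤ ze * N → |(n : ℝ)| ≤ N → ∀ Q : ℕ, ((md fr.W fr.D Q 1 : ℕ) : ℤ) ∣ n →
    (g n * g a)⁻¹ * g (a + n) ∈ fr.Sm 1 Q N (K * ze) := by
  have hK := one_le_KK fr
  have hK0 : 0 ≤ KK fr := by linarith
  have hC0 := fr.one_le_C0
  have hC00 : 0 ≤ fr.C0 := by linarith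
  obtain ⟨K1, hK1⟩ : ∃ K1 : ℝ, K1 = 2 * KK fr + fr.C0 * KK fr ^ fr.D := ⟨_, rfl⟩
  have hP : 0 ≤ fr.C0 * KK fr ^ fr.D := by positivity
  have hK11 : 1 ≤ K1 := by linarith
  obtain ⟨K2, hK2, hquo⟩ := fr.quo K1 hK11
  refine ⟨K2, hK2, fun N ze a n hN hz hz1 ha hn Q hQ => ?_⟩
  have hN0 : 0 ≤ N := by linarith
  have hKN : 1 ≤ KK fr * N := by nlinarith
  have hGn : ∀ i, |(GG fr n i : ℝ)| ≤ KK fr * N ^ fr.w i := fun i => by
    have h1 := size_GG fr i hN zero_le_one le_rfl (n := n) (by rw [one_mul]; exact hn)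
    rwa [mul_one] at h1
  have hGa : ∀ i, |(GG fr a i : ℝ)| ≤ KK fr * ze * N ^ fr.w i := fun i =>
    size_GG fr i hN hz hz1 ha
  have hKw : ∀ i, KK fr ≤ KK fr ^ fr.w i := fun i =>
    le_self_pow₀ hK (by have := fr.one_le_w i; omega)
  have hp : ∀ i, |(fr.p (GG fr n) (GG fr a) i : ℝ)| ≤ fr.C0 * KK fr ^ fr.D * ze * N ^ fr.w i := by
    intro i
    have h1 := fr.p_size (KK fr * N) 1 ze (GG fr n) (GG fr a) hKN zero_le_one le_rfl hz hz1
      (fun j => by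
        rw [one_mul, mul_pow]
        exact (hGn j).trans (mul_le_mul_of_nonneg_right (hKw j) (by positivity)))
      (fun j => by
        rw [mul_pow]
        refine (hGa j).trans ?_
        calc KK fr * ze * N ^ fr.w j = KK fr * (ze * N ^ fr.w j) := by ring
          _ ≤ KK fr ^ fr.w j * (ze * N ^ fr.w j) :=
            mul_le_mul_of_nonneg_right (hKw j) (by positivity)
          _ = ze * (KK fr ^ fr.w j * N ^ fr.w j) := by ring) i
    refine h1.trans ?_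
    rw [one_mul, mul_pow]
    have h2 : KK fr ^ fr.w i ≤ KK fr ^ fr.D := pow_le_pow_right₀ hK (fr.w_le i)
    calc fr.C0 * ze * (KK fr ^ fr.w i * N ^ fr.w i) =
          (fr.C0 * ze * N ^ fr.w i) * KK fr ^ fr.w i := by ring
      _ ≤ (fr.C0 * ze * N ^ fr.w i) * KK fr ^ fr.D :=
        mul_le_mul_of_nonneg_left h2 (by positivity)
      _ = _ := by ring
  have hmul : g n * g a = kap fr.c (GG fr n + GG fr a + fr.p (GG fr n) (GG fr a)) := by
    rw [seq_GG fr n, seq_GG fr a, fr.mul]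
  obtain ⟨u, hu1, hu2, hu3, -⟩ := hquo N ze (GG fr n + GG fr a + fr.p (GG fr n) (GG fr a))
    (GG fr (a + n)) hN hz hz1
    (fun i => by
      simp only [Pi.add_apply]
      push_cast
      have hNw : 0 ≤ N ^ fr.w i := by positivity
      have h1 : |(GG fr a i : ℝ)| ≤ KK fr * N ^ fr.w i := by
        refine (hGa i).trans ?_
        calc KK fr * ze * N ^ fr.w i = (KK fr * N ^ fr.w i) * ze := by ring
          _ ≤ (KK fr * N ^ fr.w i) * 1 := mul_le_mul_of_nonneg_left hz1 (by positivity)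
          _ = _ := mul_one _
      have h2 : |(fr.p (GG fr n) (GG fr a) i : ℝ)| ≤ fr.C0 * KK fr ^ fr.D * N ^ fr.w i := by
        refine (hp i).trans ?_
        calc fr.C0 * KK fr ^ fr.D * ze * N ^ fr.w i =
              (fr.C0 * KK fr ^ fr.D * N ^ fr.w i) * ze := by ring
          _ ≤ (fr.C0 * KK fr ^ fr.D * N ^ fr.w i) * 1 :=
            mul_le_mul_of_nonneg_left hz1 (by positivity)
          _ = _ := mul_one _
      calc |(GG fr n i : ℝ) + GG fr a i + fr.p (GG fr n) (GG fr a) i|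
          ≤ |(GG fr n i : ℝ)| + |(GG fr a i : ℝ)| + |(fr.p (GG fr n) (GG fr a) i : ℝ)| :=
            abs_add_three _ _ _
        _ ≤ KK fr * N ^ fr.w i + KK fr * N ^ fr.w i + fr.C0 * KK fr ^ fr.D * N ^ fr.w i :=
            add_le_add (add_le_add (hGn i) h1) h2
        _ = K1 * N ^ fr.w i := by rw [hK1]; ring)
    (fun i => by
      simp only [Pi.add_apply]
      push_cast
      have h1 := size_diff2 fr i hN hz hz1 ha hn
      have h2 := hp i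
      have h3 : (GG fr (a + n) i : ℝ) - (GG fr n i + GG fr a i + fr.p (GG fr n) (GG fr a) i) =
          ((GG fr (a + n) i : ℝ) - GG fr a i - GG fr n i) - fr.p (GG fr n) (GG fr a) i := by ring
      rw [h3]
      refine (abs_sub _ _).trans ((add_le_add h1 h2).trans ?_)
      have h4 : 0 ≤ KK fr * ze * N ^ fr.w i := by positivity
      calc KK fr * ze * N ^ fr.w i + fr.C0 * KK fr ^ fr.D * ze * N ^ fr.w i
          ≤ KK fr * ze * N ^ fr.w i + KK fr * ze * N ^ fr.w i +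
            fr.C0 * KK fr ^ fr.D * ze * N ^ fr.w i := by linarith
        _ = K1 * ze * N ^ fr.w i := by rw [hK1]; ring)
  have h1 : (g n * g a)⁻¹ * g (a + n) = kap fr.c u := by
    rw [hmul, seq_GG fr (a + n), ← hu1, inv_mul_cancel_left]
  have h2 : ∀ i, fr.w i < 1 → u i = 0 := fun i hi => by
    have := fr.one_le_w i
    omega
  refine ⟨u, h1, h2, hu3 Q fun i => ?_, hu2⟩
  have h3 : GG fr (a + n) i - (GG fr n + GG fr a + fr.p (GG fr n) (GG fr a)) i =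
      (GG fr (a + n) i - GG fr a i) - GG fr n i - fr.p (GG fr n) (GG fr a) i := by
    simp only [Pi.add_apply]
    ring
  rw [h3]
  exact dvd_sub (dvd_sub (dvd_diff fr i hQ) (dvd_GG fr i hQ))
    (fr.p_dvd Q (GG fr n) (GG fr a) (Or.inl fun j => dvd_GG fr j hQ) i)

include fr in
lemma g_zero : g 0 = 1 := by
  rw [seq_GG fr 0]
  have h1 : GG fr 0 = 0 := by
    funext i
    refine sum_eq_zero fun k hk => ?_
    rw [mem_Icc] at hk
    obtain ⟨j, rfl⟩ : ∃ j, k = j + 1 := ⟨k - 1, by omega⟩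
    rw [Ring.choose_zero_succ, mul_zero]
  rw [h1, kap_zero]

/-- the elements of the sequence are small, divisible along multiples of the modulus -/
theorem seq_small : ∃ K : ℝ, 1 ≤ K ∧ ∀ (N ze : ℝ) (n : ℤ), 1 ≤ N → 0 ≤ ze → ze ≤ 1 →
    |(n : ℝ)| ≤ ze * N → g n ∈ fr.Sa 1 N (K * ze) ∧
    ∀ Q : ℕ, ((md fr.W fr.D Q 1 : ℕ) : ℤ) ∣ n → g n ∈ fr.Sm 1 Q N (K * ze) := by
  refine ⟨KK fr, one_le_KK fr, fun N ze n hN hz hz1 hn => ?_⟩
  have h2 : ∀ i, fr.w i < 1 → GG fr n i = 0 := fun i hi => by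
    have := fr.one_le_w i
    omega
  have h3 : ∀ i, |(GG fr n i : ℝ)| ≤ KK fr * ze * N ^ fr.w i := fun i =>
    size_GG fr i hN hz hz1 hn
  exact ⟨⟨GG fr n, seq_GG fr n, h2, h3⟩, fun Q hQ =>
    ⟨GG fr n, seq_GG fr n, h2, fun i => dvd_GG fr i hQ, h3⟩⟩

end Frame

end Pool.Nil
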