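import Pool.Agent.Nil.FDefs

set_option autoImplicit false

/-!
# Nil: small elements

`Sa j R del` : elements with coordinates of weight `≥ j` and size `≤ del R^w`; `Sm j Q R del` : moreover the
coordinates are divisible by `mo Q i`.

PROOFS.
`trunc`: by `p_dep` one may replace the arguments of `p · · i` by their truncations to weights `< w i`
(zero above), which satisfy the hypotheses of `p_dvd`, `p_size`, `p_wt` if the original ones do for
the weights `< w i`.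
`p_size'`: if `|x j| ≤ A del R^{w j}`, `|y j| ≤ A' del' R^{w j}` (`A, A' ≥ 1`, `del, del' ≤ 1`) then
`|p x y i| ≤ C0 (A + A')^D del del' R^{w i}`: apply `p_size` with `(A + A') R` in place of `R`
(`A del R^w ≤ del ((A + A') R)^w` as `w ≥ 1`).
`quo`: `u` is defined by recursion on the weight: `u i = z' i - z i - p z u i` (only the `u j` with `w j < w i`
enter); then `z + u + p z u = z'` and `mul` gives the product.  Size by induction on the weight with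
`p_size'`; divisibility and vanishing the same way (`p_dvd` and `p_wt` with the truncated `u`; `p z u i = 0` if
`u j = 0` for all `w j < w i`).
`sm_mul`: `mul`, `p_size'`, `p_dvd`, `p_wt`.
`sm_inv`: `kap x * kap u = 1 = kap 0` by `quo` with `z = x`, `z' = 0`.
`sm_comm`: for `x = kap a`, `y = kap b`: `y x = kap z`, `z = b + a + p b a`, `x y = kap z'`, `z' = a + b + p a b`,
`x⁻¹ y⁻¹ x y = (y x)⁻¹ (x y)`, `z' - z = p a b - p b a`; `quo`.
`sm_conj`: `y⁻¹ x y = x (x⁻¹ y⁻¹ x y)`.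
`sm_up`, `sm_down`: `R^w ≤ (R / R') R'^w` for `R ≤ R'`, `w ≥ 1`; `R^w ≤ (R / R')^D R'^w` for `R' ≤ R`, `w ≤ D`.
-/

namespace Pool.Nil

open Finset

namespace Frame

variable {G : Type*} [Group G] {g : ℤ → G} (fr : Frame g)

/-- modulus of the coordinate `i` -/
def mo (Q : ℕ) (i : Fin fr.r) : ℕ := md fr.W fr.D Q (fr.w i)

/-- small elements of weight `≥ j` -/
def Sa (j : ℕ) (R del : ℝ) : Set G :=
  {x | ∃ y : Fin fr.r → ℤ, x = kap fr.c y ∧ (∀ i, fr.w i < j → y i = 0) ∧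
    ∀ i, |(y i : ℝ)| ≤ del * R ^ fr.w i}

/-- small divisible elements of weight `≥ j` -/
def Sm (j Q : ℕ) (R del : ℝ) : Set G :=
  {x | ∃ y : Fin fr.r → ℤ, x = kap fr.c y ∧ (∀ i, fr.w i < j → y i = 0) ∧
    (∀ i, (fr.mo Q i : ℤ) ∣ y i) ∧ ∀ i, |(y i : ℝ)| ≤ del * R ^ fr.w i}

lemma Sm_subset_Sa (j Q : ℕ) (R del : ℝ) : fr.Sm j Q R del ⊆ fr.Sa j R del := by
  rintro x ⟨y, h1, h2, _, h4⟩
  exact ⟨y, h1, h2, h4⟩

namespace SmallAux

theorem p_size' {A A' : ℝ} (hA : 1 ≤ A) (hA' : 1 ≤ A') {R del del' : ℝ} (x y : Fin fr.r → ℤ)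
    (hR : 1 ≤ R) (hd : 0 ≤ del) (hd1 : del ≤ 1) (hd' : 0 ≤ del') (hd1' : del' ≤ 1) (i : Fin fr.r)
    (hx : ∀ j, fr.w j < fr.w i → |(x j : ℝ)| ≤ A * del * R ^ fr.w j)
    (hy : ∀ j, fr.w j < fr.w i → |(y j : ℝ)| ≤ A' * del' * R ^ fr.w j) :
    |(fr.p x y i : ℝ)| ≤ fr.C0 * (A + A') ^ fr.D * (del * del') * R ^ fr.w i := by
  have hAA : 1 ≤ A + A' := by linarith
  have hR0 : 0 ≤ R := by linarith
  rw [fr.p_dep x (fun j => if fr.w j < fr.w i then x j else 0) y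
    (fun j => if fr.w j < fr.w i then y j else 0) i (fun j hj => by
      simp only [if_pos hj, and_self])]
  have hpow : ∀ j, A + A' ≤ (A + A') ^ fr.w j := fun j =>
    le_self_pow₀ hAA (by have := fr.one_le_w j; omega)
  have key := fr.p_size ((A + A') * R) del del' (fun j => if fr.w j < fr.w i then x j else 0)
    (fun j => if fr.w j < fr.w i then y j else 0) (by nlinarith) hd hd1 hd' hd1' (fun j => ?_)
    (fun j => ?_) i
  · refine key.trans ?_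
    rw [mul_pow]
    have h1 : (A + A') ^ fr.w i ≤ (A + A') ^ fr.D := pow_le_pow_right₀ hAA (fr.w_le i)
    have h2 : 0 ≤ fr.C0 * (del * del') * R ^ fr.w i :=
      mul_nonneg (mul_nonneg (by linarith [fr.one_le_C0]) (mul_nonneg hd hd'))
        (pow_nonneg hR0 _)
    calc fr.C0 * (del * del') * ((A + A') ^ fr.w i * R ^ fr.w i)
        = (fr.C0 * (del * del') * R ^ fr.w i) * (A + A') ^ fr.w i := by ring
      _ ≤ (fr.C0 * (del * del') * R ^ fr.w i) * (A + A') ^ fr.D :=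
          mul_le_mul_of_nonneg_left h1 h2
      _ = _ := by ring
  · by_cases h : fr.w j < fr.w i
    · simp only [if_pos h]
      refine (hx j h).trans ?_
      rw [mul_pow]
      have h1 : A ≤ (A + A') ^ fr.w j := le_trans (by linarith) (hpow j)
      have h2 : 0 ≤ del * R ^ fr.w j := mul_nonneg hd (pow_nonneg hR0 _)
      calc A * del * R ^ fr.w j = A * (del * R ^ fr.w j) := by ring
        _ ≤ (A + A') ^ fr.w j * (del * R ^ fr.w j) := mul_le_mul_of_nonneg_right h1 h2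
        _ = _ := by ring
    · simp only [if_neg h, Int.cast_zero, abs_zero]
      exact mul_nonneg hd (pow_nonneg (by nlinarith) _)
  · by_cases h : fr.w j < fr.w i
    · simp only [if_pos h]
      refine (hy j h).trans ?_
      rw [mul_pow]
      have h1 : A' ≤ (A + A') ^ fr.w j := le_trans (by linarith) (hpow j)
      have h2 : 0 ≤ del' * R ^ fr.w j := mul_nonneg hd' (pow_nonneg hR0 _)
      calc A' * del' * R ^ fr.w j = A' * (del' * R ^ fr.w j) := by ring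
        _ ≤ (A + A') ^ fr.w j * (del' * R ^ fr.w j) := mul_le_mul_of_nonneg_right h1 h2
        _ = _ := by ring
    · simp only [if_neg h, Int.cast_zero, abs_zero]
      exact mul_nonneg hd' (pow_nonneg (by nlinarith) _)

theorem p_dvd_right (Q : ℕ) (x y : Fin fr.r → ℤ) (i : Fin fr.r)
    (hy : ∀ j, fr.w j < fr.w i → (fr.mo Q j : ℤ) ∣ y j) : (fr.mo Q i : ℤ) ∣ fr.p x y i := by
  rw [fr.p_dep x x y (fun j => if fr.w j < fr.w i then y j else 0) i (fun j hj => by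
      simp only [if_pos hj, and_self])]
  refine fr.p_dvd Q x _ (Or.inr fun j => ?_) i
  by_cases h : fr.w j < fr.w i
  · simp only [if_pos h]
    exact hy j h
  · simp only [if_neg h]
    exact dvd_zero _

theorem p_zero_right (x y : Fin fr.r → ℤ) (i : Fin fr.r)
    (hy : ∀ j, fr.w j < fr.w i → y j = 0) : fr.p x y i = 0 := by
  rw [fr.p_dep x x y (fun j => if fr.w j < fr.w i then y j else 0) i (fun j hj => by
      simp only [if_pos hj, and_self])]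
  refine fr.p_wt 0 (fr.w i + 1) x _ (fun j hj => absurd hj (Nat.not_lt_zero _)) (fun j _ => ?_) i
    (by omega)
  by_cases h : fr.w j < fr.w i
  · simp only [if_pos h]
    exact hy j h
  · simp only [if_neg h]

/-- the recursion -/
theorem exists_u (z d : Fin fr.r → ℤ) : ∃ u : Fin fr.r → ℤ, ∀ i, u i = d i - fr.p z u i := by
  let v : ℕ → (Fin fr.r → ℤ) := fun n => Nat.rec (fun _ => 0) (fun _ u i => d i - fr.p z u i) n
  have hv : ∀ n i, v (n + 1) i = d i - fr.p z (v n) i := fun n i => rfl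
  have key : ∀ n i, fr.w i ≤ n → v (n + 1) i = v n i := by
    intro n
    induction n with
    | zero =>
      intro i hi
      have := fr.one_le_w i
      omega
    | succ n ih =>
      intro i hi
      rw [hv (n + 1) i, hv n i]
      rw [fr.p_dep z z (v (n + 1)) (v n) i (fun j hj => ⟨rfl, ih j (by omega)⟩)]
  refine ⟨v fr.D, fun i => ?_⟩
  rw [← hv fr.D i, key fr.D i (fr.w_le i)]

theorem size_aux {K1 : ℝ} (hK1 : 1 ≤ K1) (n : ℕ) : ∃ B : ℝ, 1 ≤ B ∧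
    ∀ (R del : ℝ) (z d u : Fin fr.r → ℤ), 1 ≤ R → 0 ≤ del → del ≤ 1 →
    (∀ i, |(z i : ℝ)| ≤ K1 * R ^ fr.w i) → (∀ i, |(d i : ℝ)| ≤ K1 * del * R ^ fr.w i) →
    (∀ i, u i = d i - fr.p z u i) → ∀ i, fr.w i ≤ n → |(u i : ℝ)| ≤ B * del * R ^ fr.w i := by
  induction n with
  | zero =>
    refine ⟨1, le_rfl, fun R del z d u _ _ _ _ _ _ i hi => ?_⟩
    have := fr.one_le_w i
    omega
  | succ n ih =>
    obtain ⟨B, hB, h⟩ := ih
    have hC0 := fr.one_le_C0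
    have hP : 0 ≤ fr.C0 * (K1 + B) ^ fr.D :=
      mul_nonneg (by linarith) (pow_nonneg (by linarith) _)
    refine ⟨B + K1 + fr.C0 * (K1 + B) ^ fr.D, by linarith, ?_⟩
    intro R del z d u hR hd hd1 hz hdd hu i hi
    have hRw : 0 ≤ R ^ fr.w i := pow_nonneg (by linarith) _
    have hdR : 0 ≤ del * R ^ fr.w i := mul_nonneg hd hRw
    rcases Nat.lt_or_ge n (fr.w i) with hni | hni
    · have h1 := p_size' fr hK1 hB (del := 1) (del' := del) z u hR zero_le_one le_rfl hd hd1 i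
        (fun j _ => by rw [mul_one]; exact hz j)
        (fun j hj => h R del z d u hR hd hd1 hz hdd hu j (by omega))
      have h2 : |(u i : ℝ)| ≤ |(d i : ℝ)| + |(fr.p z u i : ℝ)| := by
        rw [hu i, Int.cast_sub]
        exact abs_sub _ _
      have h3 := hdd i
      calc |(u i : ℝ)| ≤ K1 * del * R ^ fr.w i +
            fr.C0 * (K1 + B) ^ fr.D * (1 * del) * R ^ fr.w i := by linarith
        _ = (K1 + fr.C0 * (K1 + B) ^ fr.D) * (del * R ^ fr.w i) := by ring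
        _ ≤ (B + K1 + fr.C0 * (K1 + B) ^ fr.D) * (del * R ^ fr.w i) :=
            mul_le_mul_of_nonneg_right (by linarith) hdR
        _ = _ := by ring
    · refine (h R del z d u hR hd hd1 hz hdd hu i hni).trans ?_
      calc B * del * R ^ fr.w i = B * (del * R ^ fr.w i) := by ring
        _ ≤ (B + K1 + fr.C0 * (K1 + B) ^ fr.D) * (del * R ^ fr.w i) :=
            mul_le_mul_of_nonneg_right (by linarith) hdR
        _ = _ := by ring

theorem dvd_aux (Q : ℕ) (z d u : Fin fr.r → ℤ) (hu : ∀ i, u i = d i - fr.p z u i)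
    (hd : ∀ i, (fr.mo Q i : ℤ) ∣ d i) (n : ℕ) : ∀ i, fr.w i ≤ n → (fr.mo Q i : ℤ) ∣ u i := by
  induction n with
  | zero =>
    intro i hi
    have := fr.one_le_w i
    omega
  | succ n ih =>
    intro i hi
    rw [hu i]
    exact dvd_sub (hd i) (p_dvd_right fr Q z u i fun j hj => ih j (by omega))

theorem zero_aux (z d u : Fin fr.r → ℤ) (hu : ∀ i, u i = d i - fr.p z u i) (j : ℕ)
    (hd : ∀ i, fr.w i < j → d i = 0) (n : ℕ) : ∀ i, fr.w i ≤ n → fr.w i < j → u i = 0 := by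
  induction n with
  | zero =>
    intro i hi
    have := fr.one_le_w i
    omega
  | succ n ih =>
    intro i hi hj
    rw [hu i, hd i hj, p_zero_right fr z u i fun k hk => ih k (by omega) (by omega), sub_zero]

/-- products in coordinates -/
theorem mul_all {A A' : ℝ} (hA : 1 ≤ A) (hA' : 1 ≤ A') {R del del' : ℝ} (a b : Fin fr.r → ℤ)
    (hR : 1 ≤ R) (hd : 0 ≤ del) (hd1 : del ≤ 1) (hd' : 0 ≤ del') (hd1' : del' ≤ 1)
    (ha : ∀ i, |(a i : ℝ)| ≤ A * del * R ^ fr.w i)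
    (hb : ∀ i, |(b i : ℝ)| ≤ A' * del' * R ^ fr.w i) :
    ∃ e : Fin fr.r → ℤ, kap fr.c a * kap fr.c b = kap fr.c e ∧
      (∀ i, |(e i : ℝ)| ≤ (A + A' + fr.C0 * (A + A') ^ fr.D) * (del + del') * R ^ fr.w i) ∧
      (∀ Q : ℕ, (∀ i, (fr.mo Q i : ℤ) ∣ a i) → (∀ i, (fr.mo Q i : ℤ) ∣ b i) →
        ∀ i, (fr.mo Q i : ℤ) ∣ e i) ∧
      (∀ j : ℕ, (∀ i, fr.w i < j → a i = 0) → (∀ i, fr.w i < j → b i = 0) →
        ∀ i, fr.w i < j → e i = 0) := by
  refine ⟨a + b + fr.p a b, fr.mul a b, fun i => ?_, fun Q h1 h2 i => ?_, fun j h1 h2 i hi => ?_⟩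
  · have h1 := p_size' fr hA hA' a b hR hd hd1 hd' hd1' i (fun j _ => ha j) (fun j _ => hb j)
    have hRw : 0 ≤ R ^ fr.w i := pow_nonneg (by linarith) _
    have hC : 0 ≤ fr.C0 * (A + A') ^ fr.D :=
      mul_nonneg (by linarith [fr.one_le_C0]) (pow_nonneg (by linarith) _)
    have h2 : |(((a + b + fr.p a b) i : ℤ) : ℝ)| ≤ |(a i : ℝ)| + |(b i : ℝ)| +
        |(fr.p a b i : ℝ)| := by
      simp only [Pi.add_apply, Int.cast_add]
      exact (abs_add_le _ _).trans (add_le_add_left (abs_add_le _ _) _)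
    have h3 : del * del' ≤ del + del' := by nlinarith
    have h4 : fr.C0 * (A + A') ^ fr.D * (del * del') * R ^ fr.w i ≤
        fr.C0 * (A + A') ^ fr.D * (del + del') * R ^ fr.w i :=
      mul_le_mul_of_nonneg_right (mul_le_mul_of_nonneg_left h3 hC) hRw
    have h5 : A * del * R ^ fr.w i ≤ (A + A') * del * R ^ fr.w i :=
      mul_le_mul_of_nonneg_right (mul_le_mul_of_nonneg_right (by linarith) hd) hRw
    have h6 : A' * del' * R ^ fr.w i ≤ (A + A') * del' * R ^ fr.w i :=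
      mul_le_mul_of_nonneg_right (mul_le_mul_of_nonneg_right (by linarith) hd') hRw
    have h7 := ha i
    have h8 := hb i
    have h9 : (A + A' + fr.C0 * (A + A') ^ fr.D) * (del + del') * R ^ fr.w i =
        (A + A') * del * R ^ fr.w i + (A + A') * del' * R ^ fr.w i +
          fr.C0 * (A + A') ^ fr.D * (del + del') * R ^ fr.w i := by ring
    rw [h9]
    linarith
  · exact dvd_add (dvd_add (h1 i) (h2 i)) (fr.p_dvd Q a b (Or.inl h1) i)
  · have h3 := fr.p_wt j j a b h1 h2 i (by omega)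
    rw [Pi.add_apply, Pi.add_apply, h1 i hi, h2 i hi, h3]
    rfl

end SmallAux

open SmallAux

theorem quo (K1 : ℝ) (hK1 : 1 ≤ K1) : ∃ K2 : ℝ, 1 ≤ K2 ∧ ∀ (R del : ℝ) (z z' : Fin fr.r → ℤ),
    1 ≤ R → 0 ≤ del → del ≤ 1 → (∀ i, |(z i : ℝ)| ≤ K1 * R ^ fr.w i) →
    (∀ i, |(z' i : ℝ) - z i| ≤ K1 * del * R ^ fr.w i) →
    ∃ u : Fin fr.r → ℤ, kap fr.c z * kap fr.c u = kap fr.c z' ∧
      (∀ i, |(u i : ℝ)| ≤ K2 * del * R ^ fr.w i) ∧
      (∀ Q : ℕ, (∀ i, (fr.mo Q i : ℤ) ∣ z' i - z i) → ∀ i, (fr.mo Q i : ℤ) ∣ u i) ∧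
      (∀ j : ℕ, (∀ i, fr.w i < j → z' i = z i) → ∀ i, fr.w i < j → u i = 0) := by
  obtain ⟨B, hB, h⟩ := size_aux fr hK1 fr.D
  refine ⟨B, hB, fun R del z z' hR hd hd1 hz hz' => ?_⟩
  obtain ⟨u, hu⟩ := exists_u fr z (z' - z)
  refine ⟨u, ?_, fun i => ?_, fun Q hQ i => ?_, fun j hj i hi => ?_⟩
  · rw [fr.mul]
    congr 1
    funext i
    simp only [Pi.add_apply]
    rw [hu i, Pi.sub_apply]
    ring
  · exact h R del z (z' - z) u hR hd hd1 hz (fun i => by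
      rw [Pi.sub_apply, Int.cast_sub]; exact hz' i) hu i (fr.w_le i)
  · exact dvd_aux fr Q z (z' - z) u hu (fun i => by rw [Pi.sub_apply]; exact hQ i) fr.D i
      (fr.w_le i)
  · exact zero_aux fr z (z' - z) u hu j (fun i hi => by
      rw [Pi.sub_apply, hj i hi, sub_self]) fr.D i (fr.w_le i) hi

namespace SmallAux

theorem sm_mono {j j' Q : ℕ} {R del del' : ℝ} (hR : 0 ≤ R) (hj : j' ≤ j) (hd : del ≤ del') :
    fr.Sm j Q R del ⊆ fr.Sm j' Q R del' := by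
  rintro x ⟨y, h1, h2, h3, h4⟩
  exact ⟨y, h1, fun i hi => h2 i (by omega), h3, fun i =>
    (h4 i).trans (mul_le_mul_of_nonneg_right hd (pow_nonneg hR _))⟩

theorem sa_mono {j j' : ℕ} {R del del' : ℝ} (hR : 0 ≤ R) (hj : j' ≤ j) (hd : del ≤ del') :
    fr.Sa j R del ⊆ fr.Sa j' R del' := by
  rintro x ⟨y, h1, h2, h4⟩
  exact ⟨y, h1, fun i hi => h2 i (by omega), fun i =>
    (h4 i).trans (mul_le_mul_of_nonneg_right hd (pow_nonneg hR _))⟩

/-- commutators in coordinates -/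
theorem comm_all : ∃ K : ℝ, 1 ≤ K ∧ ∀ (R del del' : ℝ) (a b : Fin fr.r → ℤ), 1 ≤ R → 0 ≤ del →
    del ≤ 1 → 0 ≤ del' → del' ≤ 1 → (∀ i, |(a i : ℝ)| ≤ del * R ^ fr.w i) →
    (∀ i, |(b i : ℝ)| ≤ del' * R ^ fr.w i) →
    ∃ u : Fin fr.r → ℤ, (kap fr.c a)⁻¹ * (kap fr.c b)⁻¹ * kap fr.c a * kap fr.c b = kap fr.c u ∧
      (∀ i, |(u i : ℝ)| ≤ K * (del * del') * R ^ fr.w i) ∧
      (∀ Q : ℕ, ((∀ i, (fr.mo Q i : ℤ) ∣ a i) ∨ (∀ i, (fr.mo Q i : ℤ) ∣ b i)) →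
        ∀ i, (fr.mo Q i : ℤ) ∣ u i) ∧
      (∀ j j' : ℕ, (∀ i, fr.w i < j → a i = 0) → (∀ i, fr.w i < j' → b i = 0) →
        ∀ i, fr.w i < j + j' → u i = 0) := by
  have hC0 := fr.one_le_C0
  obtain ⟨K, hK, h⟩ := fr.quo (2 + 2 * fr.C0) (by linarith)
  refine ⟨K, hK, fun R del del' a b hR hd hd1 hd' hd1' ha hb => ?_⟩
  have hdd : 0 ≤ del * del' := mul_nonneg hd hd'
  have hdd1 : del * del' ≤ 1 := by nlinarith
  have hab := fr.p_size R del del' a b hR hd hd1 hd' hd1' ha hb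
  have hba := fr.p_size R del' del b a hR hd' hd1' hd hd1 hb ha
  have hRw : ∀ i, 0 ≤ R ^ fr.w i := fun i => pow_nonneg (by linarith) _
  obtain ⟨u, h1, h2, h3, h4⟩ := h R (del * del') (b + a + fr.p b a) (a + b + fr.p a b) hR hdd hdd1
    (fun i => by
      have e1 : |(((b + a + fr.p b a) i : ℤ) : ℝ)| ≤ |(b i : ℝ)| + |(a i : ℝ)| +
          |(fr.p b a i : ℝ)| := by
        simp only [Pi.add_apply, Int.cast_add]
        exact (abs_add_le _ _).trans (add_le_add_left (abs_add_le _ _) _)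
      have e2 := hb i
      have e3 := ha i
      have e4 := hba i
      have e5 : del' * R ^ fr.w i ≤ 1 * R ^ fr.w i := mul_le_mul_of_nonneg_right hd1' (hRw i)
      have e6 : del * R ^ fr.w i ≤ 1 * R ^ fr.w i := mul_le_mul_of_nonneg_right hd1 (hRw i)
      have e7 : fr.C0 * (del' * del) * R ^ fr.w i ≤ fr.C0 * 1 * R ^ fr.w i :=
        mul_le_mul_of_nonneg_right (mul_le_mul_of_nonneg_left (by linarith [mul_comm del del'])
          (by linarith)) (hRw i)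
      have e8 : 0 ≤ fr.C0 * R ^ fr.w i := mul_nonneg (by linarith) (hRw i)
      have e9 : (2 + 2 * fr.C0) * R ^ fr.w i = 1 * R ^ fr.w i + 1 * R ^ fr.w i +
          fr.C0 * 1 * R ^ fr.w i + fr.C0 * R ^ fr.w i := by ring
      rw [e9]
      linarith)
    (fun i => by
      have e1 : (((a + b + fr.p a b) i : ℤ) : ℝ) - ((b + a + fr.p b a) i : ℤ) =
          (fr.p a b i : ℝ) - (fr.p b a i : ℝ) := by
        simp only [Pi.add_apply, Int.cast_add]
        ring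
      rw [e1]
      have e2 := abs_sub (fr.p a b i : ℝ) (fr.p b a i : ℝ)
      have e3 := hab i
      have e4 := hba i
      have e5 : 0 ≤ (del * del') * R ^ fr.w i := mul_nonneg hdd (hRw i)
      have e6 : (2 + 2 * fr.C0) * (del * del') * R ^ fr.w i =
          2 * ((del * del') * R ^ fr.w i) + fr.C0 * (del * del') * R ^ fr.w i +
          fr.C0 * (del' * del) * R ^ fr.w i := by ring
      rw [e6]
      linarith)
  refine ⟨u, ?_, h2, fun Q hQ => h3 Q fun i => ?_, fun j j' hj hj' => h4 (j + j') fun i hi => ?_⟩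
  · have e1 : kap fr.c (b + a + fr.p b a) = kap fr.c b * kap fr.c a := (fr.mul b a).symm
    have e2 : kap fr.c (a + b + fr.p a b) = kap fr.c a * kap fr.c b := (fr.mul a b).symm
    have e3 : kap fr.c u = (kap fr.c b * kap fr.c a)⁻¹ * (kap fr.c a * kap fr.c b) := by
      rw [← e1, ← e2, ← h1]
      group
    rw [e3]
    group
  · have e1 : (a + b + fr.p a b) i - (b + a + fr.p b a) i = fr.p a b i - fr.p b a i := by
      simp only [Pi.add_apply]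
      ring
    rw [e1]
    exact dvd_sub (fr.p_dvd Q a b hQ i) (fr.p_dvd Q b a hQ.symm i)
  · have e1 := fr.p_wt j j' a b hj hj' i hi
    have e2 := fr.p_wt j' j b a hj' hj i (by omega)
    simp only [Pi.add_apply]
    rw [e1, e2]
    ring

/-- inverses in coordinates -/
theorem inv_all : ∃ K : ℝ, 1 ≤ K ∧ ∀ (R del : ℝ) (a : Fin fr.r → ℤ), 1 ≤ R → 0 ≤ del →
    del ≤ 1 → (∀ i, |(a i : ℝ)| ≤ del * R ^ fr.w i) →
    ∃ u : Fin fr.r → ℤ, (kap fr.c a)⁻¹ = kap fr.c u ∧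
      (∀ i, |(u i : ℝ)| ≤ K * del * R ^ fr.w i) ∧
      (∀ Q : ℕ, (∀ i, (fr.mo Q i : ℤ) ∣ a i) → ∀ i, (fr.mo Q i : ℤ) ∣ u i) ∧
      (∀ j : ℕ, (∀ i, fr.w i < j → a i = 0) → ∀ i, fr.w i < j → u i = 0) := by
  obtain ⟨K, hK, h⟩ := fr.quo 1 le_rfl
  refine ⟨K, hK, fun R del a hR hd hd1 ha => ?_⟩
  obtain ⟨u, h1, h2, h3, h4⟩ := h R del a 0 hR hd hd1
    (fun i => (ha i).trans (mul_le_mul_of_nonneg_right hd1 (pow_nonneg (by linarith) _)))
    (fun i => by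
      rw [Pi.zero_apply, Int.cast_zero, zero_sub, abs_neg, one_mul]
      exact ha i)
  refine ⟨u, ?_, h2, fun Q hQ => h3 Q fun i => ?_, fun j hj => h4 j fun i hi => ?_⟩
  · rw [kap_zero] at h1
    exact inv_eq_of_mul_eq_one_right h1
  · rw [Pi.zero_apply, zero_sub]
    exact (dvd_neg).2 (hQ i)
  · rw [hj i hi, Pi.zero_apply]

end SmallAux

/-- all constants of this file at once -/
structure Consts (K : ℝ) : Prop where
  one_le : 1 ≤ K
  sa_mul : ∀ (j : ℕ) (R del del' : ℝ) (x y : G), 1 ≤ R → 0 ≤ del → del ≤ 1 → 0 ≤ del' → del' ≤ 1 →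
    x ∈ fr.Sa j R del → y ∈ fr.Sa j R del' → x * y ∈ fr.Sa j R (K * (del + del'))
  sm_mul : ∀ (j Q : ℕ) (R del del' : ℝ) (x y : G), 1 ≤ R → 0 ≤ del → del ≤ 1 → 0 ≤ del' →
    del' ≤ 1 → x ∈ fr.Sm j Q R del → y ∈ fr.Sm j Q R del' → x * y ∈ fr.Sm j Q R (K * (del + del'))
  sa_inv : ∀ (j : ℕ) (R del : ℝ) (x : G), 1 ≤ R → 0 ≤ del → del ≤ 1 →
    x ∈ fr.Sa j R del → x⁻¹ ∈ fr.Sa j R (K * del)
  sm_inv : ∀ (j Q : ℕ) (R del : ℝ) (x : G), 1 ≤ R → 0 ≤ del → del ≤ 1 →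
    x ∈ fr.Sm j Q R del → x⁻¹ ∈ fr.Sm j Q R (K * del)
  sm_comm : ∀ (j j' Q : ℕ) (R del del' : ℝ) (x y : G), 1 ≤ R → 0 ≤ del → del ≤ 1 → 0 ≤ del' →
    del' ≤ 1 → x ∈ fr.Sm j Q R del → y ∈ fr.Sa j' R del' →
    x⁻¹ * y⁻¹ * x * y ∈ fr.Sm (j + j') Q R (K * (del * del'))
  sm_comm' : ∀ (j j' Q : ℕ) (R del del' : ℝ) (x y : G), 1 ≤ R → 0 ≤ del → del ≤ 1 → 0 ≤ del' →
    del' ≤ 1 → x ∈ fr.Sa j R del → y ∈ fr.Sm j' Q R del' →
    x⁻¹ * y⁻¹ * x * y ∈ fr.Sm (j + j') Q R (K * (del * del'))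
  sm_conj : ∀ (j Q : ℕ) (R del : ℝ) (x y : G), 1 ≤ R → 0 ≤ del → del ≤ 1 →
    x ∈ fr.Sm j Q R del → y ∈ fr.Sa 1 R 1 → y⁻¹ * x * y ∈ fr.Sm j Q R (K * del)

theorem exists_consts : ∃ K : ℝ, fr.Consts K := by
  have hC0 := fr.one_le_C0
  obtain ⟨Ki, hKi, hinv⟩ := inv_all fr
  obtain ⟨Kc, hKc, hcomm⟩ := comm_all fr
  have hP1 : 0 ≤ fr.C0 * (1 + 1) ^ fr.D := mul_nonneg (by linarith) (pow_nonneg (by norm_num) _)
  have hP2 : 0 ≤ fr.C0 * (1 + Kc) ^ fr.D := mul_nonneg (by linarith) (pow_nonneg (by linarith) _)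
  obtain ⟨K, hKdef⟩ : ∃ K : ℝ, K = Ki + Kc + (1 + 1 + fr.C0 * (1 + 1) ^ fr.D) +
    2 * (1 + Kc + fr.C0 * (1 + Kc) ^ fr.D) := ⟨_, rfl⟩
  have hK1 : 1 ≤ K := by linarith
  have hKi' : Ki ≤ K := by linarith
  have hKc' : Kc ≤ K := by linarith
  have hKm' : (1 + 1 + fr.C0 * (1 + 1) ^ fr.D) ≤ K := by linarith
  have hKj' : 2 * (1 + Kc + fr.C0 * (1 + Kc) ^ fr.D) ≤ K := by linarith
  refine ⟨K, ⟨hK1, ?_, ?_, ?_, ?_, ?_, ?_, ?_⟩⟩
  · rintro j R del del' x y hR hd hd1 hd' hd1' ⟨a, rfl, ha0, ha⟩ ⟨b, rfl, hb0, hb⟩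
    obtain ⟨e, h1, h2, _, h4⟩ := mul_all fr (A := 1) (A' := 1) le_rfl le_rfl a b hR hd hd1 hd' hd1'
      (fun i => by rw [one_mul]; exact ha i) (fun i => by rw [one_mul]; exact hb i)
    refine sa_mono fr (by linarith) le_rfl ?_ ⟨e, h1, h4 j ha0 hb0, h2⟩
    exact mul_le_mul_of_nonneg_right hKm' (by linarith)
  · rintro j Q R del del' x y hR hd hd1 hd' hd1' ⟨a, rfl, ha0, haQ, ha⟩ ⟨b, rfl, hb0, hbQ, hb⟩
    obtain ⟨e, h1, h2, h3, h4⟩ := mul_all fr (A := 1) (A' := 1) le_rfl le_rfl a b hR hd hd1 hd'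
      hd1' (fun i => by rw [one_mul]; exact ha i) (fun i => by rw [one_mul]; exact hb i)
    refine sm_mono fr (by linarith) le_rfl ?_ ⟨e, h1, h4 j ha0 hb0, h3 Q haQ hbQ, h2⟩
    exact mul_le_mul_of_nonneg_right hKm' (by linarith)
  · rintro j R del x hR hd hd1 ⟨a, rfl, ha0, ha⟩
    obtain ⟨u, h1, h2, _, h4⟩ := hinv R del a hR hd hd1 ha
    refine sa_mono fr (by linarith) le_rfl ?_ ⟨u, h1, h4 j ha0, h2⟩
    exact mul_le_mul_of_nonneg_right hKi' hd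
  · rintro j Q R del x hR hd hd1 ⟨a, rfl, ha0, haQ, ha⟩
    obtain ⟨u, h1, h2, h3, h4⟩ := hinv R del a hR hd hd1 ha
    refine sm_mono fr (by linarith) le_rfl ?_ ⟨u, h1, h4 j ha0, h3 Q haQ, h2⟩
    exact mul_le_mul_of_nonneg_right hKi' hd
  · rintro j j' Q R del del' x y hR hd hd1 hd' hd1' ⟨a, rfl, ha0, haQ, ha⟩ ⟨b, rfl, hb0, hb⟩
    obtain ⟨u, h1, h2, h3, h4⟩ := hcomm R del del' a b hR hd hd1 hd' hd1' ha hb
    refine sm_mono fr (by linarith) le_rfl ?_ ⟨u, h1, h4 j j' ha0 hb0, h3 Q (Or.inl haQ), h2⟩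
    exact mul_le_mul_of_nonneg_right hKc' (mul_nonneg hd hd')
  · rintro j j' Q R del del' x y hR hd hd1 hd' hd1' ⟨a, rfl, ha0, ha⟩ ⟨b, rfl, hb0, hbQ, hb⟩
    obtain ⟨u, h1, h2, h3, h4⟩ := hcomm R del del' a b hR hd hd1 hd' hd1' ha hb
    refine sm_mono fr (by linarith) le_rfl ?_ ⟨u, h1, h4 j j' ha0 hb0, h3 Q (Or.inr hbQ), h2⟩
    exact mul_le_mul_of_nonneg_right hKc' (mul_nonneg hd hd')
  · rintro j Q R del x y hR hd hd1 ⟨a, rfl, ha0, haQ, ha⟩ ⟨b, rfl, hb0, hb⟩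
    obtain ⟨u, h1, h2, h3, h4⟩ := hcomm R del 1 a b hR hd hd1 zero_le_one le_rfl ha hb
    obtain ⟨e, e1, e2, e3, e4⟩ := mul_all fr (A := 1) (A' := Kc) le_rfl hKc a u hR hd hd1 hd hd1
      (fun i => by rw [one_mul]; exact ha i) (fun i => by
        have := h2 i
        rw [mul_one] at this
        exact this)
    have e5 : (kap fr.c b)⁻¹ * kap fr.c a * kap fr.c b = kap fr.c e := by
      rw [← e1, ← h1]
      group
    refine sm_mono fr (by linarith) le_rfl ?_ ⟨e, e5, e4 j ha0 (fun i hi =>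
      h4 j 1 ha0 hb0 i (by omega)), e3 Q haQ (h3 Q (Or.inl haQ)), e2⟩
    calc (1 + Kc + fr.C0 * (1 + Kc) ^ fr.D) * (del + del) =
          2 * (1 + Kc + fr.C0 * (1 + Kc) ^ fr.D) * del := by ring
      _ ≤ K * del := mul_le_mul_of_nonneg_right hKj' hd

lemma Sm_mono {j j' Q : ℕ} {R del del' : ℝ} (hR : 0 ≤ R) (hj : j' ≤ j) (hd : del ≤ del') :
    fr.Sm j Q R del ⊆ fr.Sm j' Q R del' := sm_mono fr hR hj hd

lemma Sa_mono {j j' : ℕ} {R del del' : ℝ} (hR : 0 ≤ R) (hj : j' ≤ j) (hd : del ≤ del') :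
    fr.Sa j R del ⊆ fr.Sa j' R del' := sa_mono fr hR hj hd

lemma Sm_dvd {j Q Q' : ℕ} {R del : ℝ} (h : Q ∣ Q') : fr.Sm j Q' R del ⊆ fr.Sm j Q R del := by
  rintro x ⟨y, h1, h2, h3, h4⟩
  refine ⟨y, h1, h2, fun i => dvd_trans ?_ (h3 i), h4⟩
  unfold mo md
  exact Int.natCast_dvd_natCast.2 (Nat.mul_dvd_mul_left _ h)

namespace SmallAux

theorem up_aux {w : ℕ} {R R' del : ℝ} (hw : 1 ≤ w) (hR : 1 ≤ R) (h : R ≤ R') (hdel : 0 ≤ del) :
    del * R ^ w ≤ del * (R / R') * R' ^ w := by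
  obtain ⟨v, rfl⟩ : ∃ v, w = v + 1 := ⟨w - 1, by omega⟩
  have hR' : 0 < R' := by linarith
  have h1 : R ^ v ≤ R' ^ v := pow_le_pow_left₀ (by linarith) h v
  have e : del * (R / R') * R' ^ (v + 1) = del * R * R' ^ v := by
    rw [pow_succ]
    field_simp
  rw [e, pow_succ]
  calc del * (R ^ v * R) = (del * R) * R ^ v := by ring
    _ ≤ (del * R) * R' ^ v := mul_le_mul_of_nonneg_left h1 (mul_nonneg hdel (by linarith))

theorem down_aux {w D : ℕ} {R R' del : ℝ} (hw : w ≤ D) (hR : 1 ≤ R') (h : R' ≤ R)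
    (hdel : 0 ≤ del) : del * R ^ w ≤ del * (R / R') ^ D * R' ^ w := by
  have hR' : 0 < R' := by linarith
  have h1 : 1 ≤ R / R' := by rw [le_div_iff₀ hR', one_mul]; exact h
  have h2 : (R / R') ^ w ≤ (R / R') ^ D := pow_le_pow_right₀ h1 hw
  have e : R ^ w = (R / R') ^ w * R' ^ w := by
    rw [← mul_pow, div_mul_cancel₀ _ hR'.ne']
  rw [e]
  calc del * ((R / R') ^ w * R' ^ w) = (del * R' ^ w) * (R / R') ^ w := by ring
    _ ≤ (del * R' ^ w) * (R / R') ^ D :=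
        mul_le_mul_of_nonneg_left h2 (mul_nonneg hdel (pow_nonneg hR'.le _))
    _ = _ := by ring

end SmallAux

lemma Sm_up {j Q : ℕ} {R R' del : ℝ} (hR : 1 ≤ R) (h : R ≤ R') (hdel : 0 ≤ del) :
    fr.Sm j Q R del ⊆ fr.Sm j Q R' (del * (R / R')) := by
  rintro x ⟨y, h1, h2, h3, h4⟩
  exact ⟨y, h1, h2, h3, fun i => (h4 i).trans (up_aux (fr.one_le_w i) hR h hdel)⟩

lemma Sa_up {j : ℕ} {R R' del : ℝ} (hR : 1 ≤ R) (h : R ≤ R') (hdel : 0 ≤ del) :
    fr.Sa j R del ⊆ fr.Sa j R' (del * (R / R')) := by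
  rintro x ⟨y, h1, h2, h4⟩
  exact ⟨y, h1, h2, fun i => (h4 i).trans (up_aux (fr.one_le_w i) hR h hdel)⟩

lemma Sm_down {j Q : ℕ} {R R' del : ℝ} (hR : 1 ≤ R') (h : R' ≤ R) (hdel : 0 ≤ del) :
    fr.Sm j Q R del ⊆ fr.Sm j Q R' (del * (R / R') ^ fr.D) := by
  rintro x ⟨y, h1, h2, h3, h4⟩
  exact ⟨y, h1, h2, h3, fun i => (h4 i).trans (down_aux (fr.w_le i) hR h hdel)⟩

lemma Sa_down {j : ℕ} {R R' del : ℝ} (hR : 1 ≤ R') (h : R' ≤ R) (hdel : 0 ≤ del) :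
    fr.Sa j R del ⊆ fr.Sa j R' (del * (R / R') ^ fr.D) := by
  rintro x ⟨y, h1, h2, h4⟩
  exact ⟨y, h1, h2, fun i => (h4 i).trans (down_aux (fr.w_le i) hR h hdel)⟩

end Frame

end Pool.Nil
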