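import Pool.Agent.Nil.Taylor

set_option autoImplicit false

/-!
# Nil: Taylor expansion modulo the next term of the filtration

PROOF.  Let `N = F (u + 1)` restricted to `F u` (`(F (u+1)).subgroupOf (F u)`), normal (`Filt.conj`, as
`F u ≤ F 0`) and with commutative quotient `A = F u ⧸ N` (`Filt.comm u u`, `2 u ≥ u + 1`).  The map
`f' = class of f : (V → ℤ) → A` satisfies `IsPol (Fab u) om 0 f'` : show by induction on `k` that
`g ∈ PQ F om k i` and `∀ x, g x ∈ F u` imply that the class of `g` is in `PQ (Fab u) om k i` (for `i ≤ u`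
nothing has to be checked at the points, for `i > u` the values are in `F i ≤ F (u+1)`; the differences of
an `F u`-valued map are `F u`-valued).  Apply `taylor`: `f' = ∏_k a_k ^ mon k`.
By `hgen` the classes of the `c i`, `w i = u`, generate `A`, so `a_k = ∏_{w i = u} (class of c i)^{m k i}`
with integers `m k i`, and we choose `m k = 0` if `a_k = 1`.  Put `P i = ∑_{k ∈ Kf om u} m k i * mon k` for
`w i = u` and `P i = 0` otherwise.  If `S ∈ H` then `f' x = 1` for `x` vanishing on `S`, so `a_k = 1` and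
`m k = 0` for all `k` vanishing on `S`; so `P i ∈ WP om H u`.  The class of `kap c (P x)` in `A` is
`∏_{w i = u} (class of c i) ^ (P i x)` = `f' x`.
-/

namespace Pool.Nil

open Finset

variable {G : Type*} [Group G] {V : Type*} [Fintype V] [DecidableEq V] {om : V → ℕ}

namespace TayStep

/-- the class of a polynomial map is polynomial -/
lemma pq_quot {F : ℕ → Subgroup G} (hF : Filt F) {u : ℕ} {A : Type*} [CommGroup A]
    (q : ↥(F u) →* A) (hq : ∀ x : F u, (x : G) ∈ F (u + 1) → q x = 1) (k : ℕ) :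
    ∀ (i : ℕ) (g : (V → ℤ) → G) (hg : ∀ x, g x ∈ F u), g ∈ PQ F om k i →
      (fun x => q ⟨g x, hg x⟩) ∈ PQ (Fab (A := A) u) om k i := by
  have hval : ∀ (i : ℕ) (g : (V → ℤ) → G) (hg : ∀ x, g x ∈ F u), (∀ x, g x ∈ F i) →
      ∀ x, q ⟨g x, hg x⟩ ∈ Fab (A := A) u i := by
    intro i g hg hgi x
    unfold Fab
    split_ifs with h
    · exact Subgroup.mem_top _
    · rw [Subgroup.mem_bot]
      exact hq _ (hF.le (by omega) (hgi x))
  induction k with
  | zero => exact fun i g hg h => hval i g hg h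
  | succ k ih =>
    intro i g hg h
    refine ⟨hval i g hg h.1, fun v => ?_⟩
    have h1 : ∀ x, dv v g x ∈ F u := fun x => mul_mem (inv_mem (hg x)) (hg _)
    have e : dv v (fun x => q ⟨g x, hg x⟩) = fun x => q ⟨dv v g x, h1 x⟩ := by
      funext x
      simp only [dv]
      rw [← map_inv, ← map_mul]
      rfl
    rw [e]
    exact ih _ _ h1 (h.2 v)

/-- coordinates of weight `u` in the subgroup -/
lemma kap_coe {F : ℕ → Subgroup G} {r : ℕ} {c : Fin r → G} {w : Fin r → ℕ} {u : ℕ}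
    (c' : Fin r → F u) (hc' : ∀ i, w i = u → (c' i : G) = c i) {m : Fin r → ℤ}
    (hm : ∀ i, w i ≠ u → m i = 0) : kap c m = ((kap c' m : F u) : G) := by
  unfold kap
  rw [Subgroup.val_list_prod, List.map_ofFn]
  congr 2
  funext i
  rw [Function.comp_apply, Subgroup.coe_zpow]
  by_cases h : w i = u
  · rw [hc' i h]
  · rw [hm i h, zpow_zero, zpow_zero]

lemma quot_kap {A B : Type*} [Group B] [CommGroup A] {r : ℕ} (q : B →* A) (c' : Fin r → B)
    (m : Fin r → ℤ) : q (kap c' m) = ∏ i, q (c' i) ^ m i := by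
  unfold kap
  rw [map_list_prod, List.map_ofFn, List.prod_ofFn]
  refine Finset.prod_congr rfl fun i _ => ?_
  rw [Function.comp_apply, map_zpow]

theorem aux {F : ℕ → Subgroup G} (hF : Filt F) (hom : ∀ v, 1 ≤ om v) {r : ℕ}
    {c : Fin r → G} {w : Fin r → ℕ} (hc : ∀ i, c i ∈ F (w i)) {u : ℕ}
    (hgen : F u ≤ Subgroup.closure {x | ∃ i, w i = u ∧ x = c i} ⊔ F (u + 1))
    {A : Type*} [CommGroup A] (q : ↥(F u) →* A) (hq : ∀ x : F u, q x = 1 ↔ (x : G) ∈ F (u + 1))
    (hqs : Function.Surjective q)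
    (f : (V → ℤ) → G) (hf : IsPol F om 0 f) (hfu : ∀ x, f x ∈ F u) (H : Set (Set V))
    (hH : ∀ S ∈ H, ∀ x : V → ℤ, (∀ v ∈ S, x v = 0) → f x ∈ F (u + 1)) :
    ∃ P : Fin r → (V → ℤ) → ℤ, (∀ i, P i ∈ WP om H u) ∧ (∀ i, w i ≠ u → P i = 0) ∧
      ∀ x, (kap c (fun i => P i x))⁻¹ * f x ∈ F (u + 1) := by
  classical
  have hcu : ∀ i, w i = u → c i ∈ F u := fun i h => h ▸ hc i
  obtain ⟨c', hc'⟩ : ∃ c' : Fin r → F u, (∀ i, w i = u → (c' i : G) = c i) := by
    refine ⟨fun i => if h : w i = u then ⟨c i, hcu i h⟩ else 1, fun i h => ?_⟩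
    beta_reduce
    rw [dif_pos h]
  obtain ⟨a, ha, haS⟩ := taylor om hom u (fun x => q ⟨f x, hfu x⟩)
    (fun k => pq_quot hF q (fun x hx => (hq x).2 hx) k 0 f hfu (hf k))
  -- generators
  have hclos : ∀ z ∈ Subgroup.closure ({x | ∃ i, w i = u ∧ x = c i} ∪ (F (u + 1) : Set G)),
      ∃ (h : z ∈ F u) (m : Fin r → ℤ), (∀ i, w i ≠ u → m i = 0) ∧
        q ⟨z, h⟩ = ∏ i, q (c' i) ^ m i := by
    intro z hz
    induction hz using Subgroup.closure_induction with
    | mem x hx =>
      rcases hx with ⟨i, hi, rfl⟩ | hx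
      · refine ⟨hcu i hi, Pi.single i 1, fun j hj => ?_, ?_⟩
        · rw [Pi.single_eq_of_ne]
          rintro rfl
          exact hj hi
        · rw [Finset.prod_eq_single i]
          · rw [Pi.single_eq_same, zpow_one]
            congr 1
            exact Subtype.ext (hc' i hi).symm
          · intro j _ hj
            rw [Pi.single_eq_of_ne hj, zpow_zero]
          · intro h
            exact absurd (Finset.mem_univ i) h
      · refine ⟨hF.anti u hx, 0, fun _ _ => rfl, ?_⟩
        simp only [Pi.zero_apply, zpow_zero, Finset.prod_const_one]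
        exact (hq _).2 hx
    | one =>
      refine ⟨one_mem _, 0, fun _ _ => rfl, ?_⟩
      simp only [Pi.zero_apply, zpow_zero, Finset.prod_const_one]
      exact map_one q
    | mul x y _ _ hx hy =>
      obtain ⟨h, m, hm, e⟩ := hx
      obtain ⟨h', m', hm', e'⟩ := hy
      refine ⟨mul_mem h h', m + m', fun i hi => ?_, ?_⟩
      · rw [Pi.add_apply, hm i hi, hm' i hi, add_zero]
      · simp only [Pi.add_apply, zpow_add, Finset.prod_mul_distrib]
        rw [← e, ← e', ← map_mul]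
        rfl
    | inv x _ hx =>
      obtain ⟨h, m, hm, e⟩ := hx
      refine ⟨inv_mem h, -m, fun i hi => ?_, ?_⟩
      · rw [Pi.neg_apply, hm i hi, neg_zero]
      · simp only [Pi.neg_apply, zpow_neg, Finset.prod_inv_distrib]
        rw [← e, ← map_inv]
        rfl
  have hrep : ∀ b : A, ∃ m : Fin r → ℤ, (∀ i, w i ≠ u → m i = 0) ∧ (b = 1 → m = 0) ∧
      b = ∏ i, q (c' i) ^ m i := by
    intro b
    by_cases hb : b = 1
    · refine ⟨0, fun _ _ => rfl, fun _ => rfl, ?_⟩
      simp only [Pi.zero_apply, zpow_zero, Finset.prod_const_one]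
      exact hb
    · obtain ⟨y, rfl⟩ := hqs b
      have h1 : (y : G) ∈
          Subgroup.closure ({x | ∃ i, w i = u ∧ x = c i} ∪ (F (u + 1) : Set G)) := by
        rw [Subgroup.closure_union, Subgroup.closure_eq]
        exact hgen y.2
      obtain ⟨h, m, hm, e⟩ := hclos _ h1
      exact ⟨m, hm, fun h' => absurd h' hb, e⟩
  choose M hM1 hM2 hM3 using fun k => hrep (a k)
  have hP0 : ∀ i, w i ≠ u → (∑ k ∈ Kf om u, M k i • mon k : (V → ℤ) → ℤ) = 0 := by
    intro i hi
    refine Finset.sum_eq_zero fun k _ => ?_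
    rw [hM1 k i hi, zero_smul]
  refine ⟨fun i => ∑ k ∈ Kf om u, M k i • mon k, fun i => ?_, hP0, fun x => ?_⟩
  · refine Submodule.sum_mem _ fun k hk => ?_
    by_cases hS : ∀ S ∈ H, ∃ v ∈ S, 1 ≤ k v
    · refine Submodule.smul_mem _ _ (Submodule.subset_span ⟨k, ?_, hS, rfl⟩)
      exact (Finset.mem_filter.1 hk).2
    · push Not at hS
      obtain ⟨S, hSH, hSk⟩ := hS
      have h1 : a k = 1 := by
        refine haS S (fun x hx => (hq _).2 (hH S hSH x hx)) k hk fun v hv => ?_
        have := hSk v hv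
        omega
      have h2 : M k i = 0 := by
        rw [hM2 k h1]
        rfl
      rw [h2, zero_smul]
      exact Submodule.zero_mem _
  · have hsupp : ∀ i, w i ≠ u → (fun i => (∑ k ∈ Kf om u, M k i • mon k : (V → ℤ) → ℤ) x) i = 0 := by
      intro i hi
      show (∑ k ∈ Kf om u, M k i • mon k : (V → ℤ) → ℤ) x = 0
      rw [hP0 i hi]
      rfl
    have hk := kap_coe (F := F) (c := c) (w := w) c' hc' hsupp
    have hmem : (kap c fun i => (∑ k ∈ Kf om u, M k i • mon k : (V → ℤ) → ℤ) x) ∈ F u := by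
      rw [hk]
      exact Subtype.property _
    have h1 : q ⟨_, hmem⟩ = q ⟨f x, hfu x⟩ := by
      have h2 : (⟨_, hmem⟩ : F u) =
          kap c' fun i => (∑ k ∈ Kf om u, M k i • mon k : (V → ℤ) → ℤ) x := Subtype.ext hk
      rw [h2, quot_kap, ha x]
      have h3 : ∀ k ∈ Kf om u, a k ^ mon k x = ∏ i, q (c' i) ^ (M k i * mon k x) := by
        intro k _
        rw [hM3 k, ← Finset.prod_zpow]
        refine Finset.prod_congr rfl fun i _ => ?_
        rw [← zpow_mul]
      rw [Finset.prod_congr rfl h3, Finset.prod_comm]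
      refine Finset.prod_congr rfl fun i _ => ?_
      have h4 : (∑ k ∈ Kf om u, M k i • mon k : (V → ℤ) → ℤ) x =
          ∑ k ∈ Kf om u, M k i * mon k x := by
        rw [Finset.sum_apply]
        rfl
      rw [h4]
      induction (Kf om u) using Finset.induction_on with
      | empty => simp
      | insert k s hks ih => rw [Finset.sum_insert hks, zpow_add, ih, Finset.prod_insert hks]
    have h5 : q (⟨_, hmem⟩⁻¹ * ⟨f x, hfu x⟩) = 1 := by
      rw [map_mul, map_inv, h1, inv_mul_cancel]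
    exact (hq _).1 h5

end TayStep

theorem taylor_step {F : ℕ → Subgroup G} (hF : Filt F) (hom : ∀ v, 1 ≤ om v) {r : ℕ}
    {c : Fin r → G} {w : Fin r → ℕ} (hc : ∀ i, c i ∈ F (w i)) {u : ℕ} (hu : 1 ≤ u)
    (hgen : F u ≤ Subgroup.closure {x | ∃ i, w i = u ∧ x = c i} ⊔ F (u + 1))
    (f : (V → ℤ) → G) (hf : IsPol F om 0 f) (hfu : ∀ x, f x ∈ F u) (H : Set (Set V))
    (hH : ∀ S ∈ H, ∀ x : V → ℤ, (∀ v ∈ S, x v = 0) → f x ∈ F (u + 1)) :
    ∃ P : Fin r → (V → ℤ) → ℤ, (∀ i, P i ∈ WP om H u) ∧ (∀ i, w i ≠ u → P i = 0) ∧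
      ∀ x, (kap c (fun i => P i x))⁻¹ * f x ∈ F (u + 1) := by
  have hN : ((F (u + 1)).subgroupOf (F u)).Normal := by
    refine ⟨fun n hn g => ?_⟩
    rw [Subgroup.mem_subgroupOf] at hn ⊢
    rw [Subgroup.coe_mul, Subgroup.coe_mul, Subgroup.coe_inv]
    exact hF.conj hn (hF.le (Nat.zero_le u) g.2)
  let _ : CommGroup (↥(F u) ⧸ (F (u + 1)).subgroupOf (F u)) :=
    { (inferInstance : Group (↥(F u) ⧸ (F (u + 1)).subgroupOf (F u))) with
      mul_comm := by
        intro a b
        obtain ⟨x, rfl⟩ := QuotientGroup.mk_surjective a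
        obtain ⟨y, rfl⟩ := QuotientGroup.mk_surjective b
        rw [← QuotientGroup.mk_mul, ← QuotientGroup.mk_mul, QuotientGroup.eq,
          Subgroup.mem_subgroupOf]
        have h1 := hF.comm u u _ (inv_mem y.2) _ (inv_mem x.2)
        rw [inv_inv, inv_inv] at h1
        have h2 := hF.le (show u + 1 ≤ u + u by omega) h1
        have e : (((x * y)⁻¹ * (y * x) : ↥(F u)) : G) =
            (y : G)⁻¹ * (x : G)⁻¹ * (y : G) * (x : G) := by
          rw [Subgroup.coe_mul, Subgroup.coe_inv, Subgroup.coe_mul, Subgroup.coe_mul]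
          group
        rw [e]
        exact h2 }
  refine TayStep.aux hF hom hc hgen
    (QuotientGroup.mk' ((F (u + 1)).subgroupOf (F u)) :
      ↥(F u) →* ↥(F u) ⧸ (F (u + 1)).subgroupOf (F u)) ?_ ?_ f hf hfu H hH
  · intro x
    rw [← Subgroup.mem_subgroupOf]
    exact QuotientGroup.eq_one_iff x
  · exact QuotientGroup.mk'_surjective _

end Pool.Nil
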