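import Pool.Agent.Nil.PolEx

set_option autoImplicit false

/-!
# Nil: Taylor expansion of polynomial maps into a commutative group

`Fab w` is the filtration `⊤` up to `w` and `⊥` above, so `IsPol (Fab w) om 0 f` says that all
differences of `f` of total weight `> w` vanish.

PROOF of `taylor`.  (1) `mon k l = 0` for `l : V → ℕ` unless `k ≤ l`, and `mon l l = 1`; so there are
coefficients `a` such that `Q x = ∏_{k ∈ Kf om w} a k ^ mon k x` agrees with `f` at all points of
`Kf om w` (`Taylor.exists_coeff`).  (2) `q = f / Q` satisfies `IsPol (Fab w) om 0 q` (`isPol_zpow`) and is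
`1` at all points of `Kf om w`.  (3) such a `q` is `1` (`Taylor.eq_one`, strong induction on `w`: the same
holds for `dv v q` with `w - om v`, so `dv v q = 1` for all `v` and `q` is constant).
(4) If `f x = 1` whenever `x = 0` on `S` and `k = 0` on `S`, evaluate at `x = k` and use induction.
-/

namespace Pool.Nil

open Finset

variable {V : Type*} [Fintype V] [DecidableEq V]

/-- the exponents of weighted degree at most `w` -/
def Kf (om : V → ℕ) (w : ℕ) : Finset (V → ℕ) :=
  (Fintype.piFinset fun _ : V => range (w + 1)).filter fun k => ∑ v, k v * om v ≤ w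

/-- the filtration of a commutative group which is trivial above `w` -/
def Fab {A : Type*} [CommGroup A] (w : ℕ) : ℕ → Subgroup A := fun i => if i ≤ w then ⊤ else ⊥

lemma filt_Fab {A : Type*} [CommGroup A] (w : ℕ) : Filt (Fab (A := A) w) := by
  refine ⟨fun i => ?_, fun i j x _ y _ => ?_⟩
  · unfold Fab
    split_ifs with h1 h2
    · exact le_rfl
    · omega
    · exact bot_le
    · exact le_rfl
  · have e : x * y * x⁻¹ * y⁻¹ = 1 := by
      rw [mul_comm x y, mul_inv_cancel_right, mul_inv_cancel]
    rw [e]
    exact one_mem _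

namespace Taylor

lemma mem_Kf {om : V → ℕ} (hom : ∀ v, 1 ≤ om v) {w : ℕ} {k : V → ℕ} :
    k ∈ Kf om w ↔ ∑ v, k v * om v ≤ w := by
  unfold Kf
  rw [mem_filter, and_iff_right_iff_imp]
  intro h
  rw [Fintype.mem_piFinset]
  intro v
  rw [mem_range]
  have h1 : k v * om v ≤ ∑ u, k u * om u :=
    Finset.single_le_sum (f := fun u => k u * om u) (fun u _ => Nat.zero_le _) (mem_univ v)
  have h2 : k v * 1 ≤ k v * om v := Nat.mul_le_mul_left _ (hom v)
  omega

omit [DecidableEq V] in
lemma mon_natCast (k l : V → ℕ) :
    mon k (fun v => (l v : ℤ)) = ∏ v, (((l v).choose (k v) : ℕ) : ℤ) := by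
  unfold mon
  exact Finset.prod_congr rfl fun v _ => by rw [Ring.choose_natCast]

omit [DecidableEq V] in
lemma mon_self (k : V → ℕ) : mon k (fun v => (k v : ℤ)) = 1 := by
  rw [mon_natCast]
  exact Finset.prod_eq_one fun v _ => by rw [Nat.choose_self]; rfl

omit [DecidableEq V] in
lemma mon_eq_zero {k l : V → ℕ} (h : ¬ k ≤ l) : mon k (fun v => (l v : ℤ)) = 0 := by
  rw [mon_natCast]
  rw [Pi.le_def] at h
  push Not at h
  obtain ⟨v, hv⟩ := h
  exact Finset.prod_eq_zero (mem_univ v) (by rw [Nat.choose_eq_zero_of_lt hv]; rfl)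

omit [DecidableEq V] in
lemma sum_lt {k l : V → ℕ} (h : k ≤ l) (hne : k ≠ l) : ∑ v, k v < ∑ v, l v := by
  apply Finset.sum_lt_sum (fun v _ => h v)
  by_contra hc
  push Not at hc
  exact hne (funext fun v => le_antisymm (h v) (hc v (mem_univ v)))

lemma exists_coeff {A : Type*} [CommGroup A] (f : (V → ℤ) → A) (n : ℕ) :
    ∀ K : Finset (V → ℕ), K.card = n → ∃ a : (V → ℕ) → A, ∀ l ∈ K,
      ∏ k ∈ K, a k ^ mon k (fun v => (l v : ℤ)) = f (fun v => (l v : ℤ)) := by
  induction n with
  | zero =>
    intro K hK
    rw [Finset.card_eq_zero] at hK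
    subst hK
    exact ⟨fun _ => 1, fun l hl => by simp at hl⟩
  | succ n ih =>
    intro K hK
    have hne : K.Nonempty := by
      rw [← Finset.card_pos]
      omega
    obtain ⟨l0, hl0, hmax⟩ := Finset.exists_max_image K (fun k => ∑ v, k v) hne
    obtain ⟨a', ha'⟩ := ih (K.erase l0) (by rw [Finset.card_erase_of_mem hl0]; omega)
    refine ⟨Function.update a' l0 (f (fun v => (l0 v : ℤ)) *
      (∏ k ∈ K.erase l0, a' k ^ mon k (fun v => (l0 v : ℤ)))⁻¹), fun l hl => ?_⟩
    have hcongr : ∀ x : V → ℤ, ∏ k ∈ K.erase l0, (Function.update a' l0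
        (f (fun v => (l0 v : ℤ)) * (∏ k ∈ K.erase l0, a' k ^ mon k (fun v => (l0 v : ℤ)))⁻¹)) k ^
          mon k x = ∏ k ∈ K.erase l0, a' k ^ mon k x := by
      intro x
      refine Finset.prod_congr rfl fun k hk => ?_
      rw [Function.update_of_ne (Finset.ne_of_mem_erase hk)]
    rw [← Finset.mul_prod_erase K _ hl0, hcongr, Function.update_self]
    by_cases h : l = l0
    · subst h
      rw [mon_self, zpow_one, inv_mul_cancel_right]
    · have hnle : ¬ l0 ≤ l := fun hle => by
        have h1 := sum_lt hle (Ne.symm h)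
        have h2 := hmax l hl
        omega
      rw [mon_eq_zero hnle, zpow_zero, one_mul]
      exact ha' l (Finset.mem_erase.2 ⟨h, hl⟩)

omit [Fintype V] in
lemma PQ_shift {A : Type*} [CommGroup A] {F F' : ℕ → Subgroup A} {om : V → ℕ} {s : ℕ}
    (h : ∀ i, F (i + s) ≤ F' i) (k : ℕ) : ∀ (i : ℕ) (f : (V → ℤ) → A),
      f ∈ PQ F om k (i + s) → f ∈ PQ F' om k i := by
  induction k with
  | zero => intro i f hf x; exact h i (hf x)
  | succ k ih =>
    intro i f hf
    refine ⟨fun x => h i (hf.1 x), fun v => ih _ _ ?_⟩
    have := hf.2 v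
    rwa [add_right_comm] at this

lemma const_of_dv {A : Type*} [CommGroup A] {q : (V → ℤ) → A} (h : ∀ v x, dv v q x = 1)
    (x : V → ℤ) : q x = q 0 := by
  have h1 : ∀ (v : V) (x : V → ℤ), q (x + Pi.single v 1) = q x := by
    intro v x
    have := h v x
    unfold dv at this
    exact (inv_mul_eq_one.1 this).symm
  have h2 : ∀ (v : V) (n : ℤ) (x : V → ℤ), q (x + Pi.single v n) = q x := by
    intro v n
    induction n using Int.induction_on with
    | zero => intro x; simp
    | succ n ih =>
      intro x
      rw [Pi.single_add, ← add_assoc, h1, ih]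
    | pred n ih =>
      intro x
      have e : x + Pi.single v (-(n : ℤ)) = (x + Pi.single v (-(n : ℤ) - 1)) + Pi.single v 1 := by
        rw [add_assoc, ← Pi.single_add]
        congr 2
        ring
      rw [← h1, ← e, ih]
  have h3 : ∀ s : Finset V, q (∑ v ∈ s, Pi.single v (x v)) = q 0 := by
    intro s
    induction s using Finset.induction_on with
    | empty => simp
    | insert v s hv ih => rw [Finset.sum_insert hv, add_comm, h2, ih]
  rw [← h3 Finset.univ, Finset.univ_sum_single]

lemma eq_one {A : Type*} [CommGroup A] (om : V → ℕ) (w : ℕ) :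
    ∀ (q : (V → ℤ) → A), IsPol (Fab w) om 0 q →
      (∀ l : V → ℕ, ∑ v, l v * om v ≤ w → q (fun v => (l v : ℤ)) = 1) → 
      (∀ v, 1 ≤ om v) → ∀ x, q x = 1 := by
  induction w using Nat.strong_induction_on with
  | _ w ih =>
    intro q hq hl hom
    have hd : ∀ v x, dv v q x = 1 := by
      intro v
      have hv := hq.diff v
      by_cases hw : om v ≤ w
      · have hlt : w - om v < w := by have := hom v; omega
        refine ih (w - om v) hlt (dv v q) (fun k => ?_) (fun l hl' => ?_) hom
        · refine PQ_shift (s := om v) (fun i => ?_) k 0 _ (hv k)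
          unfold Fab
          split_ifs with h1 h2
          · exact le_rfl
          · omega
          · exact bot_le
          · exact le_rfl
        · have e : (fun v => (l v : ℤ)) + Pi.single v 1 =
              fun u => ((l + Pi.single v 1 : V → ℕ) u : ℤ) := by
            funext u
            by_cases hu : u = v
            · subst hu
              simp
            · simp [Pi.single_eq_of_ne hu]
          unfold dv
          rw [e, hl l (by omega), hl (l + Pi.single v 1) ?_, inv_one, one_mul]
          have e2 : ∑ u, (l + Pi.single v 1 : V → ℕ) u * om u = ∑ u, l u * om u + om v := by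
            simp only [Pi.add_apply, add_mul, Finset.sum_add_distrib]
            congr 1
            rw [Finset.sum_eq_single v (fun b _ hb => by rw [Pi.single_eq_of_ne hb, zero_mul])
              (fun h => absurd (mem_univ v) h), Pi.single_eq_same, one_mul]
          rw [e2]
          omega
      · intro x
        have := hv.val x
        unfold Fab at this
        rw [if_neg (by omega)] at this
        exact Subgroup.mem_bot.1 this
    intro x
    rw [const_of_dv hd x]
    have h0 := hl 0 (by simp)
    have e : (fun v : V => (((0 : V → ℕ) v : ℕ) : ℤ)) = 0 := by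
      funext v
      simp
    rwa [e] at h0

end Taylor

open Taylor in
theorem taylor {A : Type*} [CommGroup A] (om : V → ℕ) (hom : ∀ v, 1 ≤ om v) (w : ℕ)
    (f : (V → ℤ) → A) (hf : IsPol (Fab w) om 0 f) :
    ∃ a : (V → ℕ) → A, (∀ x, f x = ∏ k ∈ Kf om w, a k ^ mon k x) ∧
      ∀ S : Set V, (∀ x : V → ℤ, (∀ v ∈ S, x v = 0) → f x = 1) →
        ∀ k ∈ Kf om w, (∀ v ∈ S, k v = 0) → a k = 1 := by
  obtain ⟨a, ha⟩ := exists_coeff f _ (Kf om w) rfl
  have hF := filt_Fab (A := A) w
  have hQ : IsPol (Fab w) om 0 (∏ k ∈ Kf om w, fun x => a k ^ mon k x) := by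
    have : ∀ K : Finset (V → ℕ), K ⊆ Kf om w →
        IsPol (Fab w) om 0 (∏ k ∈ K, fun x => a k ^ mon k x) := by
      intro K
      induction K using Finset.induction_on with
      | empty =>
        intro _
        rw [Finset.prod_empty]
        exact IsPol.const (one_mem _)
      | insert k K hk ih =>
        intro hK
        rw [Finset.prod_insert hk]
        have hk' : k ∈ Kf om w := hK (Finset.mem_insert_self k K)
        refine IsPol.mul hF (isPol_zpow hF (d := ∑ v, k v * om v) ?_ ?_)
          (ih fun u hu => hK (Finset.mem_insert_of_mem hu))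
        · unfold Fab
          rw [if_pos (by rw [mem_Kf hom] at hk'; omega)]
          exact Subgroup.mem_top _
        · exact Submodule.subset_span ⟨k, le_rfl, fun S hS => absurd hS (Set.notMem_empty S), rfl⟩
    exact this _ (Finset.Subset.refl _)
  have hq := IsPol.mul hF hf (IsPol.inv hF hQ)
  have h1 := eq_one om w _ hq (fun l hl => by
    rw [Pi.mul_apply, Pi.inv_apply, Finset.prod_apply, ha l ((mem_Kf hom).2 hl), mul_inv_cancel]) hom
  have hfx : ∀ x, f x = ∏ k ∈ Kf om w, a k ^ mon k x := by
    intro x
    have := h1 x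
    rw [Pi.mul_apply, Pi.inv_apply, Finset.prod_apply, mul_inv_eq_one] at this
    exact this
  refine ⟨a, hfx, fun S hS => ?_⟩
  have key : ∀ n : ℕ, ∀ k ∈ Kf om w, (∀ v ∈ S, k v = 0) → ∑ v, k v = n → a k = 1 := by
    intro n
    induction n using Nat.strong_induction_on with
    | _ n ih =>
      intro k hk hkS hn
      have h2 := hfx (fun v => (k v : ℤ))
      rw [hS _ (fun v hv => by simp [hkS v hv]), Finset.prod_eq_single k, mon_self, zpow_one] at h2
      · exact h2.symm
      · intro k' hk' hne
        by_cases hle : k' ≤ k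
        · have h3 := sum_lt hle hne
          have h6 : ∀ v ∈ S, k' v = 0 := by
            intro v hv
            have h4 : k' v ≤ k v := hle v
            have h5 := hkS v hv
            omega
          rw [ih (∑ v, k' v) (by omega) k' hk' h6 rfl, one_zpow]
        · rw [mon_eq_zero hle, zpow_zero]
      · exact fun h => absurd hk h
  exact fun k hk hkS => key _ k hk hkS rfl

end Pool.Nil
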