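import Pool.Agent.Nil.Gen
import Pool.Agent.Nil.FDefs

set_option autoImplicit false

/-!
# Nil: iterated differences of words

`sft t l a` adds `a` to the coordinate `l` of `t`; `ddl L Wd` is the iterated difference of the function
`Wd` of `t : Fin s → ℤ`, the first entry of `L : List (Fin s × ℤ)` being the first difference;
`word g s n m t = ∏_l g(n + m_l)⁻¹ g(n + t_l)`.

PROOFS.
`ddl_append`: induction on `L`.
`ddl_one`: if one amount is `0` the iterated difference is `1` (`sft t l 0 = t`; the differences of the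
constant function `1` are `1`).
`base_word`: for a T-word `u` of weight `w` and `w ≤ s` CLAIM: there are `dirs : List (Fin s)` of length `w` and
`l ≤ w` such that for all `t` with `t l' = 0` for `l' < l`,
`ddl (dirs.map (·, 1)) (pw g s) t = R⁻¹ u R`, `R = ∏_{l' ≥ l} g (t l')` (in increasing order of `l'`)
and such that all entries of `dirs` are `< l`.
`u = bb g k`: `dirs = replicate k 0`, `l = 1`: `pw g s t = g (t 0) R` and the `k`-th difference of
`τ ↦ g τ R` (`k ≥ 1`) is `R⁻¹ (dz^[k] g τ) R`.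
`u' = Tk g k u`: `dirs' = dirs ++ replicate k ⟨l, _⟩`, `l' = l + 1`: by the claim for `u` the function after the
differences `dirs` at the points with `t l' = 0` for `l' < l`, `t l = τ` is `R⁻¹ (g τ)⁻¹ u (g τ) R` with
`R = ∏_{l' > l}`, whose `k`-th difference in `τ` at `τ = 0` is `R⁻¹ (Tk g k u) R`.  The shifts in direction `l` do not
change the coordinates `< l`.  At `t = 0` : `R = 1` as `g 0 = 1`.
-/

namespace Pool.Nil

open Finset

variable {G : Type*} [Group G] {s : ℕ}

/-- the word for `n = 0`, `m = 0` -/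
def pw (g : ℤ → G) (s : ℕ) (t : Fin s → ℤ) : G := (List.ofFn fun l : Fin s => g (t l)).prod

lemma word_zero {g : ℤ → G} (hg0 : g 0 = 1) (t : Fin s → ℤ) : word g s 0 0 t = pw g s t := by
  unfold word pw
  simp [hg0]

namespace Word

lemma sft_zero (t : Fin s → ℤ) (l : Fin s) : sft t l 0 = t := by
  unfold sft
  rw [add_zero, Function.update_eq_self]

lemma sft_self (t : Fin s → ℤ) (l : Fin s) (a : ℤ) : sft t l a l = t l + a := by
  unfold sft
  rw [Function.update_self]

lemma sft_ne (t : Fin s → ℤ) {l l' : Fin s} (h : l' ≠ l) (a : ℤ) : sft t l a l' = t l' := by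
  unfold sft
  rw [Function.update_of_ne h]

lemma sft_sft (t : Fin s → ℤ) (l : Fin s) (a b : ℤ) : sft (sft t l a) l b = sft t l (a + b) := by
  funext l'
  by_cases h : l' = l
  · subst h
    rw [sft_self, sft_self, sft_self, add_assoc]
  · rw [sft_ne _ h, sft_ne _ h, sft_ne _ h]

lemma ddl_const_one (L : List (Fin s × ℤ)) : ddl L (fun _ : Fin s → ℤ => (1 : G)) = fun _ => 1 := by
  induction L with
  | nil => rfl
  | cons p L ih =>
    show ddl L (fun _ : Fin s → ℤ => (1 : G)⁻¹ * 1) = fun _ => 1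
    rw [inv_one, mul_one]
    exact ih

lemma ddl_replicate (k : ℕ) (d : Fin s) (Wd : (Fin s → ℤ) → G) (t : Fin s → ℤ) :
    ddl (List.replicate k (d, (1 : ℤ))) Wd t = dz^[k] (fun τ => Wd (sft t d τ)) 0 := by
  induction k generalizing Wd with
  | zero =>
    show Wd t = Wd (sft t d 0)
    rw [sft_zero]
  | succ k ih =>
    rw [List.replicate_succ]
    show ddl (List.replicate k (d, (1 : ℤ))) (fun t => (Wd t)⁻¹ * Wd (sft t d 1)) t = _
    rw [ih, Function.iterate_succ_apply]
    have e : (fun τ => (Wd (sft t d τ))⁻¹ * Wd (sft (sft t d τ) d 1)) =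
        dz (fun τ => Wd (sft t d τ)) := by
      funext τ
      rw [sft_sft]
      rfl
    exact congrArg (fun f => dz^[k] f 0) e

lemma dz_conj (k : ℕ) (h : ℤ → G) (R : G) :
    dz^[k] (fun τ => R⁻¹ * h τ * R) = fun τ => R⁻¹ * dz^[k] h τ * R := by
  induction k generalizing h with
  | zero => rfl
  | succ k ih =>
    rw [Function.iterate_succ_apply, Function.iterate_succ_apply, ← ih]
    congr 1
    funext τ
    show (R⁻¹ * h τ * R)⁻¹ * (R⁻¹ * h (τ + 1) * R) = R⁻¹ * ((h τ)⁻¹ * h (τ + 1)) * R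
    group

lemma dz_mul (k : ℕ) (hk : 1 ≤ k) (h : ℤ → G) (R : G) :
    dz^[k] (fun τ => h τ * R) = fun τ => R⁻¹ * dz^[k] h τ * R := by
  obtain ⟨k, rfl⟩ : ∃ j, k = j + 1 := ⟨k - 1, by omega⟩
  rw [Function.iterate_succ_apply, Function.iterate_succ_apply, ← dz_conj]
  congr 1
  funext τ
  show (h τ * R)⁻¹ * (h (τ + 1) * R) = R⁻¹ * ((h τ)⁻¹ * h (τ + 1)) * R
  group

/-- the product of the last factors -/
def Rr (g : ℤ → G) (t : Fin s → ℤ) (l : ℕ) : G :=
  (((List.finRange s).drop l).map fun l' => g (t l')).prod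

lemma Rr_zero (g : ℤ → G) (t : Fin s → ℤ) : Rr g t 0 = pw g s t := by
  unfold Rr pw
  rw [List.drop_zero, List.ofFn_eq_map]

lemma Rr_step (g : ℤ → G) (t : Fin s → ℤ) (l : ℕ) (hl : l < s) :
    Rr g t l = g (t ⟨l, hl⟩) * Rr g t (l + 1) := by
  unfold Rr
  have h : l < (List.finRange s).length := by rwa [List.length_finRange]
  rw [List.drop_eq_getElem_cons h, List.map_cons, List.prod_cons]
  congr 2
  congr 1
  simp

lemma Rr_congr (g : ℤ → G) {t t' : Fin s → ℤ} {l : ℕ} (h : ∀ l' : Fin s, l ≤ (l' : ℕ) → t l' = t' l') :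
    Rr g t l = Rr g t' l := by
  unfold Rr
  congr 1
  apply List.map_congr_left
  intro a ha
  rw [List.mem_iff_getElem] at ha
  obtain ⟨j, hj, rfl⟩ := ha
  rw [h]
  simp

lemma Rr_one {g : ℤ → G} (hg0 : g 0 = 1) (l : ℕ) : Rr g (0 : Fin s → ℤ) l = 1 := by
  unfold Rr
  apply List.prod_eq_one
  intro x hx
  obtain ⟨a, -, rfl⟩ := List.mem_map.1 hx
  exact hg0

lemma Rr_sft (g : ℤ → G) (t : Fin s → ℤ) (l : ℕ) (hl : l < s) (h0 : t ⟨l, hl⟩ = 0) (τ : ℤ) :
    Rr g (sft t ⟨l, hl⟩ τ) l = g τ * Rr g t (l + 1) := by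
  rw [Rr_step g _ l hl, sft_self, h0, zero_add]
  congr 1
  apply Rr_congr
  intro l' hl'
  apply sft_ne
  rintro rfl
  simp at hl'

theorem claim {g : ℤ → G} {w : ℕ} {u : G} (hu : Ta g w u) (hs : w ≤ s) :
    ∃ dirs : List (Fin s), dirs.length = w ∧ ∃ l ≤ w, ∀ t : Fin s → ℤ,
      (∀ l' : Fin s, (l' : ℕ) < l → t l' = 0) →
      ddl (dirs.map fun l => (l, (1 : ℤ))) (pw g s) t = (Rr g t l)⁻¹ * u * Rr g t l := by
  induction hu with
  | base k hk =>
    have hs0 : 0 < s := by omega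
    refine ⟨List.replicate k ⟨0, hs0⟩, List.length_replicate, 1, hk, fun t ht => ?_⟩
    have h0 : t ⟨0, hs0⟩ = 0 := ht _ (by simp)
    rw [List.map_replicate, ddl_replicate]
    have e : (fun τ => pw g s (sft t ⟨0, hs0⟩ τ)) = fun τ => g τ * Rr g t 1 := by
      funext τ
      rw [← Rr_zero, Rr_sft g t 0 hs0 h0]
    rw [e, dz_mul k hk]
    rfl
  | @step i u k hk hu ih =>
    obtain ⟨dirs, hlen, l, hl, ht⟩ := ih (by omega)
    have hls : l < s := by omega
    refine ⟨dirs ++ List.replicate k ⟨l, hls⟩, by rw [List.length_append, List.length_replicate, hlen],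
      l + 1, by omega, fun t ht' => ?_⟩
    have h0 : t ⟨l, hls⟩ = 0 := ht' _ (by simp)
    rw [List.map_append, List.map_replicate, ddl_append, ddl_replicate]
    have e : (fun τ => ddl (dirs.map fun l => (l, (1 : ℤ))) (pw g s) (sft t ⟨l, hls⟩ τ)) =
        fun τ => (Rr g t (l + 1))⁻¹ * ((g τ)⁻¹ * u * g τ) * Rr g t (l + 1) := by
      funext τ
      rw [ht _ ?_, Rr_sft g t l hls h0]
      · group
      · intro l' hl'
        rw [sft_ne]
        · exact ht' l' (by omega)
        · rintro rfl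
          simp at hl'
    rw [e, dz_conj]
    rfl

end Word

lemma ddl_one {L : List (Fin s × ℤ)} (h : ∃ p ∈ L, p.2 = 0) (Wd : (Fin s → ℤ) → G)
    (t : Fin s → ℤ) : ddl L Wd t = 1 := by
  induction L generalizing Wd with
  | nil =>
    obtain ⟨p, hp, -⟩ := h
    exact absurd hp List.not_mem_nil
  | cons p L ih =>
    by_cases hp : p.2 = 0
    · have e : (fun t => (Wd t)⁻¹ * Wd (sft t p.1 p.2)) = fun _ => 1 := by
        funext t
        rw [hp, Word.sft_zero, inv_mul_cancel]
      show ddl L (fun t => (Wd t)⁻¹ * Wd (sft t p.1 p.2)) t = 1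
      rw [e, Word.ddl_const_one]
    · obtain ⟨q, hq, hq0⟩ := h
      rcases List.mem_cons.1 hq with rfl | hq
      · exact absurd hq0 hp
      · exact ih ⟨q, hq, hq0⟩ _

theorem base_word {g : ℤ → G} (hg0 : g 0 = 1) {w : ℕ} {u : G} (hu : Ta g w u) (hs : w ≤ s) :
    ∃ dirs : List (Fin s), dirs.length = w ∧
      ddl (dirs.map fun l => (l, (1 : ℤ))) (pw g s) 0 = u := by
  obtain ⟨dirs, hlen, l, -, h⟩ := Word.claim hu hs
  refine ⟨dirs, hlen, ?_⟩
  rw [h 0 fun _ _ => rfl, Word.Rr_one hg0, inv_one, one_mul, mul_one]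

end Pool.Nil
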